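import Pool.Agent.Amb.Mfd

/-!
# From Riemannian manifolds in the sense of Mathlib to `GMfd`

`toGMfd E M` is the structure `GMfd E M` of a Riemannian manifold `M` modelled on the finite
dimensional inner product space `E` (for example `EuclideanSpace ℝ (Fin n)`), the charts being the
preferred charts of `M`. `toGMfd_ip` and `toGMfd_nrm` identify the inner product.
-/

set_option maxSynthPendingDepth 3
set_option linter.unusedSectionVars false

namespace Amb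

open Set Metric Bundle Manifold
open scoped ContDiff Topology

namespace Br

variable {E : Type*} [NormedAddCommGroup E] [InnerProductSpace ℝ E] [FiniteDimensional ℝ E]
variable {M : Type*} [MetricSpace M] [ChartedSpace E M] [IsManifold 𝓘(ℝ, E) ∞ M]
  [RiemannianBundle (fun x : M => TangentSpace 𝓘(ℝ, E) x)]

/-- The derivative of the inverse chart, as a map of `E`. -/
noncomputable def D (q : M) (x : E) : E →L[ℝ] E :=
  mfderivWithin 𝓘(ℝ, E) 𝓘(ℝ, E) (extChartAt 𝓘(ℝ, E) q).symm (range 𝓘(ℝ, E)) x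

/-- The inner product of the tangent space as a bilinear form on `E`. -/
noncomputable def ipT (m : M) : E →L[ℝ] E →L[ℝ] ℝ :=
  (innerSL ℝ : TangentSpace 𝓘(ℝ, E) m →L[ℝ] TangentSpace 𝓘(ℝ, E) m →L[ℝ] ℝ)

/-- The metric in the chart. -/
noncomputable def gg (q : M) (x : E) : E →L[ℝ] E →L[ℝ] ℝ :=
  ContinuousLinearMap.bilinearComp (ipT (E := E) ((extChartAt 𝓘(ℝ, E) q).symm x)) (D q x) (D q x)

omit [FiniteDimensional ℝ E] [IsManifold 𝓘(ℝ, E) ∞ M] in
theorem ipT_apply (m : M) (u v : TangentSpace 𝓘(ℝ, E) m) : ipT (E := E) m u v = inner ℝ u v := rfl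

omit [FiniteDimensional ℝ E] [IsManifold 𝓘(ℝ, E) ∞ M] in
theorem gg_apply (q : M) (x u v : E) :
    gg q x u v = ipT (E := E) ((extChartAt 𝓘(ℝ, E) q).symm x) (D q x u) (D q x v) := rfl

omit [FiniteDimensional ℝ E] [IsManifold 𝓘(ℝ, E) ∞ M] in
theorem ipT_symm (m : M) (u v : E) : ipT (E := E) m u v = ipT m v u :=
  real_inner_comm (F := TangentSpace 𝓘(ℝ, E) m) _ _

omit [FiniteDimensional ℝ E] [IsManifold 𝓘(ℝ, E) ∞ M] in
theorem ipT_pos (m : M) (u : E) (hu : u ≠ 0) : 0 < ipT (E := E) m u u :=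
  real_inner_self_pos (F := TangentSpace 𝓘(ℝ, E) m).2 hu

theorem D_inj (q : M) {x : E} (hx : x ∈ (extChartAt 𝓘(ℝ, E) q).target) :
    Function.Injective (D q x) :=
  (isInvertible_mfderivWithin_extChartAt_symm hx).injective

theorem D_self (q : M) : D q (extChartAt 𝓘(ℝ, E) q q) = ContinuousLinearMap.id ℝ E :=
  mfderivWithin_range_extChartAt_symm

theorem gg_self (q : M) : gg q (extChartAt 𝓘(ℝ, E) q q) = ipT (E := E) q := by
  have h : (extChartAt 𝓘(ℝ, E) q).symm (extChartAt 𝓘(ℝ, E) q q) = q := extChartAt_to_inv q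
  ext u v
  rw [gg_apply, D_self, h]
  rfl

theorem D_eq (q : M) (x : E) :
    D q x = mfderiv 𝓘(ℝ, E) 𝓘(ℝ, E) (extChartAt 𝓘(ℝ, E) q).symm x := by
  rw [D, ModelWithCorners.Boundaryless.range_eq_univ, mfderivWithin_univ]

theorem mdiff_symm (q : M) {x : E} (hx : x ∈ (extChartAt 𝓘(ℝ, E) q).target) :
    MDifferentiableAt 𝓘(ℝ, E) 𝓘(ℝ, E) (extChartAt 𝓘(ℝ, E) q).symm x := by
  have := mdifferentiableWithinAt_extChartAt_symm hx
  rwa [ModelWithCorners.Boundaryless.range_eq_univ, mdifferentiableWithinAt_univ] at this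

section Length

theorem mfderivWithin_curve (q : M) {c c' : ℝ → E} (hc : C1 c c')
    (hm : ∀ t ∈ Icc (0 : ℝ) 1, c t ∈ (extChartAt 𝓘(ℝ, E) q).target) {t : ℝ}
    (ht : t ∈ Icc (0 : ℝ) 1) :
    (mfderivWithin 𝓘(ℝ, ℝ) 𝓘(ℝ, E) (fun s => (extChartAt 𝓘(ℝ, E) q).symm (c s)) (Icc 0 1) t
      (1 : ℝ) : E) = D q (c t) (c' t) := by
  have h1 := (hc.1 t ht).hasFDerivWithinAt
  have hu : UniqueDiffWithinAt ℝ (Icc (0 : ℝ) 1) t := uniqueDiffOn_Icc zero_lt_one t ht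
  have h2 := mfderiv_comp_mfderivWithin (I := 𝓘(ℝ, ℝ)) (I' := 𝓘(ℝ, E)) (I'' := 𝓘(ℝ, E)) t
    (g := (extChartAt 𝓘(ℝ, E) q).symm) (f := c) (s := Icc (0 : ℝ) 1)
    (mdiff_symm q (hm t ht)) h1.differentiableWithinAt.mdifferentiableWithinAt
    hu.uniqueMDiffWithinAt
  have h3 : mfderivWithin 𝓘(ℝ, ℝ) 𝓘(ℝ, E) (fun s => (extChartAt 𝓘(ℝ, E) q).symm (c s))
      (Icc 0 1) t = _ := h2
  rw [h3, mfderivWithin_eq_fderivWithin, h1.fderivWithin hu, D_eq]
  change mfderiv 𝓘(ℝ, E) 𝓘(ℝ, E) (extChartAt 𝓘(ℝ, E) q).symm (c t)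
    (ContinuousLinearMap.toSpanSingleton ℝ (c' t) 1) = _
  rw [ContinuousLinearMap.toSpanSingleton_apply, one_smul]
  rfl

theorem enorm_curve (q : M) {c c' : ℝ → E} (hc : C1 c c')
    (hm : ∀ t ∈ Icc (0 : ℝ) 1, c t ∈ (extChartAt 𝓘(ℝ, E) q).target) {t : ℝ}
    (ht : t ∈ Icc (0 : ℝ) 1) :
    ‖mfderivWithin 𝓘(ℝ, ℝ) 𝓘(ℝ, E) (fun s => (extChartAt 𝓘(ℝ, E) q).symm (c s)) (Icc 0 1) t
      (1 : ℝ)‖ₑ = ENNReal.ofReal (gnorm (gg (E := E) q) (c t) (c' t)) := by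
  rw [← ofReal_norm, norm_eq_sqrt_real_inner, gnorm, gg_apply,
    ← mfderivWithin_curve q hc hm ht]
  rfl

end Length

section Smooth

variable [IsContMDiffRiemannianBundle 𝓘(ℝ, E) ∞ E (fun x : M => TangentSpace 𝓘(ℝ, E) x)]

theorem gg_smooth_apply (q : M) (u v : E) :
    ContDiffOn ℝ ∞ (fun x => gg q x u v) (extChartAt 𝓘(ℝ, E) q).target := by
  have key : ∀ w : E, ContMDiffOn 𝓘(ℝ, E) (𝓘(ℝ, E).prod 𝓘(ℝ, E)) ∞
      (fun x => (⟨(extChartAt 𝓘(ℝ, E) q).symm x, D q x w⟩ :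
        TotalSpace E (fun x : M => TangentSpace 𝓘(ℝ, E) x))) (extChartAt 𝓘(ℝ, E) q).target := by
    intro w
    have h1 := Trivialization.contMDiffOn_symm (n := ∞) (IB := 𝓘(ℝ, E))
      (trivializationAt E (fun x : M => TangentSpace 𝓘(ℝ, E) x) q)
    have h2 : ContMDiffOn 𝓘(ℝ, E) (𝓘(ℝ, E).prod 𝓘(ℝ, E)) ∞
        (fun x : E => ((extChartAt 𝓘(ℝ, E) q).symm x, w)) (extChartAt 𝓘(ℝ, E) q).target :=
      (contMDiffOn_extChartAt_symm q).prodMk contMDiffOn_const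
    have h3 := h1.comp h2 (by
      intro x hx
      have := (extChartAt 𝓘(ℝ, E) q).map_target hx
      rw [extChartAt_source] at this
      simpa [Trivialization.mem_target] using this)
    refine h3.congr fun x hx => ?_
    have hs := (extChartAt 𝓘(ℝ, E) q).map_target hx
    have hs' : (extChartAt 𝓘(ℝ, E) q).symm x ∈ (chartAt E q).source := by
      rwa [extChartAt_source] at hs
    have hb : (extChartAt 𝓘(ℝ, E) q).symm x ∈
        (trivializationAt E (fun x : M => TangentSpace 𝓘(ℝ, E) x) q).baseSet := by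
      simpa using hs'
    have h4 := TangentBundle.symmL_trivializationAt (I := 𝓘(ℝ, E)) (𝕜 := ℝ) hs'
    have h5 := (trivializationAt E (fun x : M => TangentSpace 𝓘(ℝ, E) x) q).mk_symm hb w
    rw [(extChartAt 𝓘(ℝ, E) q).right_inv hx] at h4
    have h6 : D q x w = (trivializationAt E (fun x : M => TangentSpace 𝓘(ℝ, E) x) q).symm
        ((extChartAt 𝓘(ℝ, E) q).symm x) w := by
      have := congrArg (fun T : E →L[ℝ] E => T w) h4
      rw [show D q x w = _ from this.symm]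
      exact Trivialization.symmL_apply _ hb _
    rw [h6]
    exact h5
  have := ContMDiffOn.inner_bundle (E := fun x : M => TangentSpace 𝓘(ℝ, E) x)
    (b := fun x => (extChartAt 𝓘(ℝ, E) q).symm x) (v := fun x => D q x u) (w := fun x => D q x v)
    (key u) (key v)
  exact contMDiffOn_iff_contDiffOn.1 this

theorem isMet (q : M) : IsMet (extChartAt 𝓘(ℝ, E) q).target (gg (E := E) q) where
  isOpen := isOpen_extChartAt_target q
  smooth := by
    rw [contDiffOn_clm_apply]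
    intro u
    rw [contDiffOn_clm_apply]
    intro v
    exact gg_smooth_apply q u v
  symm x _ u v := by
    rw [gg_apply, gg_apply, ipT_symm]
  pos x hx u hu := by
    rw [gg_apply]
    refine ipT_pos _ _ fun h => hu (D_inj q hx ?_)
    rw [h, map_zero]

theorem isOpen_dom (q q' : M) : IsOpen {x | x ∈ (extChartAt 𝓘(ℝ, E) q).target ∧
    (extChartAt 𝓘(ℝ, E) q).symm x ∈ (extChartAt 𝓘(ℝ, E) q').source} :=
  (continuousOn_extChartAt_symm q).isOpen_inter_preimage (isOpen_extChartAt_target q)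
    (isOpen_extChartAt_source q')

theorem trans_smooth (q q' : M) : ContDiffOn ℝ ∞
    (fun x => extChartAt 𝓘(ℝ, E) q' ((extChartAt 𝓘(ℝ, E) q).symm x))
    {x | x ∈ (extChartAt 𝓘(ℝ, E) q).target ∧
      (extChartAt 𝓘(ℝ, E) q).symm x ∈ (extChartAt 𝓘(ℝ, E) q').source} := by
  have := contDiffOn_ext_coord_change (n := ∞) (I := 𝓘(ℝ, E)) q' q
  exact this

theorem D_trans (q q' : M) {x : E} (hx : x ∈ (extChartAt 𝓘(ℝ, E) q).target)
    (hx' : (extChartAt 𝓘(ℝ, E) q).symm x ∈ (extChartAt 𝓘(ℝ, E) q').source) :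
    D q' (extChartAt 𝓘(ℝ, E) q' ((extChartAt 𝓘(ℝ, E) q).symm x)) ∘L
      fderiv ℝ (fun x => extChartAt 𝓘(ℝ, E) q' ((extChartAt 𝓘(ℝ, E) q).symm x)) x = D q x := by
  have hdom : {x | x ∈ (extChartAt 𝓘(ℝ, E) q).target ∧
      (extChartAt 𝓘(ℝ, E) q).symm x ∈ (extChartAt 𝓘(ℝ, E) q').source} ∈ 𝓝 x :=
    (isOpen_dom q q').mem_nhds ⟨hx, hx'⟩
  have hd : DifferentiableAt ℝ
      (fun x => extChartAt 𝓘(ℝ, E) q' ((extChartAt 𝓘(ℝ, E) q).symm x)) x :=
    ((trans_smooth q q').contDiffAt hdom).differentiableAt (by simp)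
  rw [D_eq, D_eq]
  have h1 := mfderiv_comp (I := 𝓘(ℝ, E)) (I' := 𝓘(ℝ, E)) (I'' := 𝓘(ℝ, E)) x
    (f := fun x => extChartAt 𝓘(ℝ, E) q' ((extChartAt 𝓘(ℝ, E) q).symm x))
    (g := (extChartAt 𝓘(ℝ, E) q').symm)
    (mdiff_symm q' ((extChartAt 𝓘(ℝ, E) q').map_source hx')) hd.mdifferentiableAt
  have h2 : ((extChartAt 𝓘(ℝ, E) q').symm ∘
      (fun x => extChartAt 𝓘(ℝ, E) q' ((extChartAt 𝓘(ℝ, E) q).symm x))) =ᶠ[𝓝 x]
        (extChartAt 𝓘(ℝ, E) q).symm := by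
    filter_upwards [hdom] with y hy
    exact (extChartAt 𝓘(ℝ, E) q').left_inv hy.2
  have h3 := h2.mfderiv_eq (I := 𝓘(ℝ, E)) (I' := 𝓘(ℝ, E))
  rw [← h3, h1, mfderiv_eq_fderiv]
  rfl

theorem isIso (q q' : M) : IsIso {x | x ∈ (extChartAt 𝓘(ℝ, E) q).target ∧
      (extChartAt 𝓘(ℝ, E) q).symm x ∈ (extChartAt 𝓘(ℝ, E) q').source}
    (extChartAt 𝓘(ℝ, E) q').target (gg (E := E) q) (gg (E := E) q')
    (fun x => extChartAt 𝓘(ℝ, E) q' ((extChartAt 𝓘(ℝ, E) q).symm x)) where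
  isOpen := isOpen_dom q q'
  smooth := trans_smooth q q'
  maps x hx := (extChartAt 𝓘(ℝ, E) q').map_source hx.2
  isom x hx u v := by
    rw [gg_apply, gg_apply, (extChartAt 𝓘(ℝ, E) q').left_inv hx.2, ← D_trans q q' hx.1 hx.2]
    rfl

theorem gnorm_cont (q : M) {c c' : ℝ → E} (hc : C1 c c')
    (hm : ∀ t ∈ Icc (0 : ℝ) 1, c t ∈ (extChartAt 𝓘(ℝ, E) q).target) :
    ContinuousOn (fun t => gnorm (gg (E := E) q) (c t) (c' t)) (Icc 0 1) := by
  have h1 : ContinuousOn c (Icc 0 1) := fun t ht => (hc.1 t ht).continuousWithinAt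
  have h2 : ContinuousOn (fun t => gg (E := E) q (c t)) (Icc 0 1) :=
    (isMet q).smooth.continuousOn.comp h1 hm
  exact ((h2.clm_apply hc.2).clm_apply hc.2).sqrt

theorem pathELength_eq (q : M) {c c' : ℝ → E} (hc : C1 c c')
    (hm : ∀ t ∈ Icc (0 : ℝ) 1, c t ∈ (extChartAt 𝓘(ℝ, E) q).target) :
    pathELength 𝓘(ℝ, E) (fun s => (extChartAt 𝓘(ℝ, E) q).symm (c s)) 0 1 =
      ENNReal.ofReal (glen (gg (E := E) q) c c') := by
  rw [pathELength_eq_lintegral_mfderivWithin_Icc]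
  refine (MeasureTheory.setLIntegral_congr_fun measurableSet_Icc
    (fun t ht => enorm_curve q hc hm ht)).trans ?_
  rw [glen, intervalIntegral.integral_of_le zero_le_one, ← MeasureTheory.integral_Icc_eq_integral_Ioc,
    MeasureTheory.ofReal_integral_eq_lintegral_ofReal]
  · exact (gnorm_cont q hc hm).integrableOn_Icc
  · exact Filter.Eventually.of_forall fun t => Real.sqrt_nonneg _

theorem glen_nonneg (g : E → E →L[ℝ] E →L[ℝ] ℝ) (c c' : ℝ → E) : 0 ≤ glen g c c' :=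
  intervalIntegral.integral_nonneg zero_le_one fun _ _ => Real.sqrt_nonneg _

end Smooth

theorem contDiffOn_of_C1 {c c' : ℝ → E} (hc : C1 c c') : ContDiffOn ℝ 1 c (Icc 0 1) := by
  rw [show (1 : ℕ∞ω) = 0 + 1 from (zero_add 1).symm, contDiffOn_succ_iff_derivWithin
    (uniqueDiffOn_Icc zero_lt_one)]
  refine ⟨fun t ht => (hc.1 t ht).differentiableWithinAt, by simp, ?_⟩
  rw [contDiffOn_zero]
  exact hc.2.congr fun t ht => (hc.1 t ht).derivWithin (uniqueDiffOn_Icc zero_lt_one t ht)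

theorem C1_of_contDiffOn {c : ℝ → E} (hc : ContDiffOn ℝ 1 c (Icc 0 1)) :
    C1 c (derivWithin c (Icc 0 1)) := by
  rw [show (1 : ℕ∞ω) = 0 + 1 from (zero_add 1).symm, contDiffOn_succ_iff_derivWithin
    (uniqueDiffOn_Icc zero_lt_one)] at hc
  exact ⟨fun t ht => (hc.1 t ht).hasDerivWithinAt, contDiffOn_zero.1 hc.2.2⟩

section Dist

variable [IsContMDiffRiemannianBundle 𝓘(ℝ, E) ∞ E (fun x : M => TangentSpace 𝓘(ℝ, E) x)]
  [IsRiemannianManifold 𝓘(ℝ, E) M]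

theorem dist_le_path {γ : ℝ → M} {a b : ℝ} (hab : a ≤ b)
    (hγ : ContMDiffOn 𝓘(ℝ, ℝ) 𝓘(ℝ, E) 1 γ (Icc a b)) :
    ENNReal.ofReal (dist (γ a) (γ b)) ≤ pathELength 𝓘(ℝ, E) γ a b := by
  rw [← edist_dist, IsRiemannianManifold.out (I := 𝓘(ℝ, E))]
  exact riemannianEDist_le_pathELength hγ rfl rfl hab

theorem dist_le (q : M) {c c' : ℝ → E} (hc : C1 c c')
    (hm : ∀ t ∈ Icc (0 : ℝ) 1, c t ∈ (extChartAt 𝓘(ℝ, E) q).target) :
    dist ((extChartAt 𝓘(ℝ, E) q).symm (c 0)) ((extChartAt 𝓘(ℝ, E) q).symm (c 1)) ≤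
      glen (gg (E := E) q) c c' := by
  have h1 : ContMDiffOn 𝓘(ℝ, ℝ) 𝓘(ℝ, E) 1 (fun s => (extChartAt 𝓘(ℝ, E) q).symm (c s))
      (Icc 0 1) :=
    (contMDiffOn_extChartAt_symm (n := 1) q).comp (contDiffOn_of_C1 hc).contMDiffOn hm
  have h2 := dist_le_path zero_le_one h1
  rw [pathELength_eq q hc hm] at h2
  exact (ENNReal.ofReal_le_ofReal_iff (glen_nonneg _ _ _)).1 h2

theorem exists_path (x y : M) {ε : ℝ} (hε : 0 < ε) : ∃ γ : ℝ → M, γ 0 = x ∧ γ 1 = y ∧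
    ContMDiffOn 𝓘(ℝ, ℝ) 𝓘(ℝ, E) 1 γ (Icc 0 1) ∧
    pathELength 𝓘(ℝ, E) γ 0 1 < ENNReal.ofReal (dist x y + ε) := by
  refine exists_lt_of_riemannianEDist_lt ?_
  rw [← IsRiemannianManifold.out (I := 𝓘(ℝ, E)), edist_dist]
  exact (ENNReal.ofReal_lt_ofReal_iff (by positivity)).2 (by linarith)

theorem near_path (q : M) (V : Set M) (hV : V ∈ 𝓝 q) : ∃ r > 0, ∀ x y : M, dist q x < r →
    dist q y < r → ∀ ε > 0,
    ∃ c c' : ℝ → E, C1 c c' ∧ c 0 = extChartAt 𝓘(ℝ, E) q x ∧ c 1 = extChartAt 𝓘(ℝ, E) q y ∧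
      (∀ t ∈ Icc (0 : ℝ) 1, c t ∈ (extChartAt 𝓘(ℝ, E) q).target ∧
        (extChartAt 𝓘(ℝ, E) q).symm (c t) ∈ V) ∧ glen (gg (E := E) q) c c' < dist x y + ε := by
  obtain ⟨δ, hδ, hs⟩ := Metric.mem_nhds_iff.1 (Filter.inter_mem hV
    (extChartAt_source_mem_nhds (I := 𝓘(ℝ, E)) q))
  refine ⟨δ / 4, by positivity, fun x y hx hy ε hε => ?_⟩
  obtain ⟨γ, h0, h1, hγ, hl⟩ := exists_path (E := E) x y (lt_min hε (by positivity : 0 < δ / 4))
  have hxy : dist x y < δ / 2 := by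
    have := dist_triangle x q y
    rw [dist_comm x q] at this
    linarith
  have hb : ∀ t ∈ Icc (0 : ℝ) 1, γ t ∈ V ∩ (extChartAt 𝓘(ℝ, E) q).source := by
    intro t ht
    apply hs
    have h2 := dist_le_path ht.1 (hγ.mono (Icc_subset_Icc_right ht.2))
    have h3 : pathELength 𝓘(ℝ, E) γ 0 t ≤ pathELength 𝓘(ℝ, E) γ 0 1 :=
      pathELength_mono le_rfl ht.2
    have h4 := (ENNReal.ofReal_lt_ofReal_iff (by positivity)).1 ((h2.trans h3).trans_lt hl)
    rw [h0] at h4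
    have h5 := min_le_right ε (δ / 4)
    have h6 := dist_triangle q x (γ t)
    rw [mem_ball, dist_comm]
    linarith
  have hc0 : ContMDiffOn 𝓘(ℝ, ℝ) 𝓘(ℝ, E) 1 (fun t => extChartAt 𝓘(ℝ, E) q (γ t)) (Icc 0 1) :=
    (contMDiffOn_extChartAt (n := 1) (x := q)).comp hγ (fun t ht => by
      have := (hb t ht).2
      rwa [extChartAt_source] at this)
  have hc := C1_of_contDiffOn (contMDiffOn_iff_contDiffOn.1 hc0)
  have hm : ∀ t ∈ Icc (0 : ℝ) 1, extChartAt 𝓘(ℝ, E) q (γ t) ∈ (extChartAt 𝓘(ℝ, E) q).target :=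
    fun t ht => (extChartAt 𝓘(ℝ, E) q).map_source (hb t ht).2
  have hi : ∀ t ∈ Icc (0 : ℝ) 1, (extChartAt 𝓘(ℝ, E) q).symm (extChartAt 𝓘(ℝ, E) q (γ t)) = γ t :=
    fun t ht => (extChartAt 𝓘(ℝ, E) q).left_inv (hb t ht).2
  refine ⟨_, _, hc, by simp only [h0], by simp only [h1], fun t ht => ⟨hm t ht, ?_⟩, ?_⟩
  · rw [hi t ht]
    exact (hb t ht).1
  · have h7 := pathELength_eq q hc hm
    rw [pathELength_congr (γ' := γ) hi] at h7
    rw [h7] at hl
    have h8 := (ENNReal.ofReal_lt_ofReal_iff (by positivity)).1 hl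
    have := min_le_left ε (δ / 4)
    linarith

include E in
variable (E) in
theorem length (x y : M) (s : ℝ) (hs : s ∈ Icc 0 (dist x y)) (ε : ℝ) (hε : 0 < ε) :
    ∃ z : M, dist x z ≤ s ∧ dist z y ≤ dist x y - s + ε := by
  obtain ⟨γ, h0, h1, hγ, hl⟩ := exists_path (E := E) x y hε
  have hcont : ContinuousOn (fun t => dist x (γ t)) (Icc 0 1) :=
    (continuous_const.dist continuous_id).comp_continuousOn hγ.continuousOn
  have hivt := intermediate_value_Icc (zero_le_one (α := ℝ)) hcont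
  rw [h0, h1, dist_self] at hivt
  obtain ⟨t, ht, hts⟩ := hivt hs
  refine ⟨γ t, hts.le, ?_⟩
  have h2 := dist_le_path ht.1 (hγ.mono (Icc_subset_Icc_right ht.2))
  have h3 := dist_le_path ht.2 (hγ.mono (Icc_subset_Icc_left ht.1))
  have h4 := (add_le_add h2 h3).trans (pathELength_add ht.1 ht.2).le
  rw [← ENNReal.ofReal_add dist_nonneg dist_nonneg] at h4
  have h5 := (ENNReal.ofReal_lt_ofReal_iff (by positivity)).1 (h4.trans_lt hl)
  simp only at hts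
  rw [h0, h1] at h5
  linarith

end Dist

end Br

section

variable (E : Type*) [NormedAddCommGroup E] [InnerProductSpace ℝ E] [FiniteDimensional ℝ E]
variable (M : Type*) [MetricSpace M] [ChartedSpace E M] [IsManifold 𝓘(ℝ, E) ∞ M]
  [RiemannianBundle (fun x : M => TangentSpace 𝓘(ℝ, E) x)]
  [IsContMDiffRiemannianBundle 𝓘(ℝ, E) ∞ E (fun x : M => TangentSpace 𝓘(ℝ, E) x)]
  [IsRiemannianManifold 𝓘(ℝ, E) M]

/-- A Riemannian manifold in the sense of Mathlib, as a metric space with Riemannian charts. -/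
noncomputable def toGMfd : GMfd E M where
  φ q := extChartAt 𝓘(ℝ, E) q
  ψ q := (extChartAt 𝓘(ℝ, E) q).symm
  src q := (extChartAt 𝓘(ℝ, E) q).source
  tgt q := (extChartAt 𝓘(ℝ, E) q).target
  g q := Br.gg q
  met q := Br.isMet q
  src_open q := isOpen_extChartAt_source q
  mem_src q := mem_extChartAt_source q
  map_src q _ hm := (extChartAt 𝓘(ℝ, E) q).map_source hm
  map_tgt q _ hx := (extChartAt 𝓘(ℝ, E) q).map_target hx
  left_inv q _ hm := (extChartAt 𝓘(ℝ, E) q).left_inv hm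
  right_inv q _ hx := (extChartAt 𝓘(ℝ, E) q).right_inv hx
  cont_φ q := continuousOn_extChartAt q
  cont_ψ q := continuousOn_extChartAt_symm q
  trans q q' := Br.isIso q q'
  dist_le q _ _ hc hm := Br.dist_le q hc hm
  near_path q V hV := Br.near_path q V hV
  length x y s hs ε hε := Br.length E x y s hs ε hε

end

section

variable {E : Type*} [NormedAddCommGroup E] [InnerProductSpace ℝ E] [FiniteDimensional ℝ E]
variable {M : Type*} [MetricSpace M] [ChartedSpace E M] [IsManifold 𝓘(ℝ, E) ∞ M]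
  [RiemannianBundle (fun x : M => TangentSpace 𝓘(ℝ, E) x)]
  [IsContMDiffRiemannianBundle 𝓘(ℝ, E) ∞ E (fun x : M => TangentSpace 𝓘(ℝ, E) x)]
  [IsRiemannianManifold 𝓘(ℝ, E) M]

@[simp] theorem toGMfd_φ (q m : M) : (toGMfd E M).φ q m = extChartAt 𝓘(ℝ, E) q m := rfl

@[simp] theorem toGMfd_ψ (q : M) (x : E) :
    (toGMfd E M).ψ q x = (extChartAt 𝓘(ℝ, E) q).symm x := rfl

@[simp] theorem toGMfd_src (q : M) : (toGMfd E M).src q = (extChartAt 𝓘(ℝ, E) q).source := rfl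

@[simp] theorem toGMfd_tgt (q : M) : (toGMfd E M).tgt q = (extChartAt 𝓘(ℝ, E) q).target := rfl

/-- The inner product of `toGMfd` on the tangent space `E` at `m` is the Riemannian one. -/
theorem toGMfd_ip (m : M) (u v : TangentSpace 𝓘(ℝ, E) m) :
    (toGMfd E M).ip m u v = inner ℝ u v := by
  change Br.gg m (extChartAt 𝓘(ℝ, E) m m) u v = inner ℝ u v
  rw [Br.gg_self]
  rfl

theorem toGMfd_nrm (m : M) (v : TangentSpace 𝓘(ℝ, E) m) : (toGMfd E M).nrm m v = ‖v‖ := by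
  change √((toGMfd E M).ip m v v) = ‖v‖
  rw [toGMfd_ip, norm_eq_sqrt_real_inner]

end
end Amb
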