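import Pool.Agent.Amb.Br1

/-!
# Velocities, derivatives and smoothness in the charts of `toGMfd`
-/

set_option maxSynthPendingDepth 3
set_option linter.unusedSectionVars false

namespace Amb

open Set Metric Bundle Manifold
open scoped ContDiff Topology

variable {E : Type*} [NormedAddCommGroup E] [InnerProductSpace ℝ E] [FiniteDimensional ℝ E]
variable {M : Type*} [MetricSpace M] [ChartedSpace E M] [IsManifold 𝓘(ℝ, E) ∞ M]
  [RiemannianBundle (fun x : M => TangentSpace 𝓘(ℝ, E) x)]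
  [IsContMDiffRiemannianBundle 𝓘(ℝ, E) ∞ E (fun x : M => TangentSpace 𝓘(ℝ, E) x)]
  [IsRiemannianManifold 𝓘(ℝ, E) M]
variable {N : Type*} [MetricSpace N] [ChartedSpace E N] [IsManifold 𝓘(ℝ, E) ∞ N]
  [RiemannianBundle (fun x : N => TangentSpace 𝓘(ℝ, E) x)]
  [IsContMDiffRiemannianBundle 𝓘(ℝ, E) ∞ E (fun x : N => TangentSpace 𝓘(ℝ, E) x)]
  [IsRiemannianManifold 𝓘(ℝ, E) N]
variable {X : Type*} [NormedAddCommGroup X] [NormedSpace ℝ X]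

/-- The coordinate change `J q m` is the derivative of the chart `q` at `m`. -/
theorem toGMfd_J {q m : M} (h : m ∈ (extChartAt 𝓘(ℝ, E) q).source) :
    (toGMfd E M).J q m = mfderiv 𝓘(ℝ, E) 𝓘(ℝ, E) (extChartAt 𝓘(ℝ, E) q) m := by
  have hm : (extChartAt 𝓘(ℝ, E) m).symm (extChartAt 𝓘(ℝ, E) m m) = m := extChartAt_to_inv m
  have hs : m ∈ (chartAt E q).source := by rwa [extChartAt_source] at h
  have h1 := mfderiv_comp (I := 𝓘(ℝ, E)) (I' := 𝓘(ℝ, E)) (I'' := 𝓘(ℝ, E))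
    (extChartAt 𝓘(ℝ, E) m m) (f := (extChartAt 𝓘(ℝ, E) m).symm)
    (g := extChartAt 𝓘(ℝ, E) q) (by
      rw [hm]
      exact mdifferentiableAt_extChartAt hs)
    (Br.mdiff_symm m (mem_extChartAt_target m))
  have h2 : (toGMfd E M).J q m = mfderiv 𝓘(ℝ, E) 𝓘(ℝ, E)
      (extChartAt 𝓘(ℝ, E) q ∘ (extChartAt 𝓘(ℝ, E) m).symm) (extChartAt 𝓘(ℝ, E) m m) := by
    rw [mfderiv_eq_fderiv]
    rfl
  rw [h2, h1, ← Br.D_eq, Br.D_self]
  have h3 : ∀ y : M, y = m → (mfderiv 𝓘(ℝ, E) 𝓘(ℝ, E) (extChartAt 𝓘(ℝ, E) q) y : E →L[ℝ] E) =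
      mfderiv 𝓘(ℝ, E) 𝓘(ℝ, E) (extChartAt 𝓘(ℝ, E) q) m := by
    rintro _ rfl
    rfl
  exact h3 _ hm

/-- Derivatives of maps from a normed space, in the centred chart. -/
theorem hasMFDerivAt_iff_center {f : X → M} {x : X} {F : X →L[ℝ] E} :
    HasMFDerivAt 𝓘(ℝ, X) 𝓘(ℝ, E) f x F ↔
      ContinuousAt f x ∧ HasFDerivAt (fun y => extChartAt 𝓘(ℝ, E) (f x) (f y)) F x := by
  change (ContinuousAt f x ∧ HasFDerivWithinAt (writtenInExtChartAt 𝓘(ℝ, X) 𝓘(ℝ, E) x f) F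
    (range 𝓘(ℝ, X)) (extChartAt 𝓘(ℝ, X) x x)) ↔ _
  rw [ModelWithCorners.Boundaryless.range_eq_univ, hasFDerivWithinAt_univ]
  rfl

/-- Derivatives of maps from a normed space, in any chart. -/
theorem hasFDerivAt_chart {f : X → M} {x : X} {F : X →L[ℝ] E} {q : M}
    (hq : f x ∈ (extChartAt 𝓘(ℝ, E) q).source) (h : HasMFDerivAt 𝓘(ℝ, X) 𝓘(ℝ, E) f x F) :
    HasFDerivAt (fun y => extChartAt 𝓘(ℝ, E) q (f y)) ((toGMfd E M).J q (f x) ∘L F) x := by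
  have hs : f x ∈ (chartAt E q).source := by rwa [extChartAt_source] at hq
  have h1 := (mdifferentiableAt_extChartAt (I := 𝓘(ℝ, E)) hs).hasMFDerivAt
  have h2 := (h1.comp x h).hasFDerivAt
  rw [toGMfd_J hq]
  exact h2

theorem hasMFDerivAt_of_chart {f : X → M} {x : X} {F : X →L[ℝ] E} {q : M}
    (hc : ContinuousAt f x) (hq : f x ∈ (extChartAt 𝓘(ℝ, E) q).source)
    (h : HasFDerivAt (fun y => extChartAt 𝓘(ℝ, E) q (f y)) ((toGMfd E M).J q (f x) ∘L F) x) :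
    HasMFDerivAt 𝓘(ℝ, X) 𝓘(ℝ, E) f x F := by
  have hs : f x ∈ (chartAt E q).source := by rwa [extChartAt_source] at hq
  have ht := (extChartAt 𝓘(ℝ, E) q).map_source hq
  have hl := (extChartAt 𝓘(ℝ, E) q).left_inv hq
  have h1 := (Br.mdiff_symm q ht).hasMFDerivAt
  have h2 := h1.comp x h.hasMFDerivAt
  have h3 : f =ᶠ[𝓝 x] (extChartAt 𝓘(ℝ, E) q).symm ∘ fun y => extChartAt 𝓘(ℝ, E) q (f y) := by
    filter_upwards [hc.preimage_mem_nhds ((isOpen_extChartAt_source (I := 𝓘(ℝ, E)) q).mem_nhds hq)]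
      with y hy
    exact ((extChartAt 𝓘(ℝ, E) q).left_inv hy).symm
  have h4 := h2.congr_of_eventuallyEq h3
  refine h4.congr_mfderiv ?_
  have h5 := mfderivWithin_extChartAt_symm_comp_mfderiv_extChartAt' (I := 𝓘(ℝ, E)) hq
  rw [toGMfd_J hq]
  have h6 : (mfderiv 𝓘(ℝ, E) 𝓘(ℝ, E) (extChartAt 𝓘(ℝ, E) q).symm (extChartAt 𝓘(ℝ, E) q (f x)) :
      E →L[ℝ] E) ∘L (mfderiv 𝓘(ℝ, E) 𝓘(ℝ, E) (extChartAt 𝓘(ℝ, E) q) (f x) : E →L[ℝ] E) =
      ContinuousLinearMap.id ℝ E := by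
    rw [← Br.D_eq]
    exact h5
  ext v
  exact congrArg (fun T : E →L[ℝ] E => T (F v)) h6

/-- Smooth families of points. -/
theorem smPt_iff {f : X → M} {x : X} :
    (toGMfd E M).SmPt f x ↔ ContMDiffAt 𝓘(ℝ, X) 𝓘(ℝ, E) ∞ f x := by
  constructor
  · rintro ⟨hc, h⟩
    rw [contMDiffAt_iff_target]
    refine ⟨hc, ?_⟩
    exact (h (f x) (mem_extChartAt_source _)).contMDiffAt
  · intro h
    refine ⟨h.continuousAt, fun q hq => ?_⟩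
    have hs : f x ∈ (chartAt E q).source := by
      change f x ∈ (extChartAt 𝓘(ℝ, E) q).source at hq
      rwa [extChartAt_source] at hq
    exact ((contMDiffAt_iff_target_of_mem_source hs).1 h).2.contDiffAt

/-- The derivative of the base point of a family of frames. -/
theorem HasFVel_hasMFDerivAt {f : X → (toGMfd E M).Fr} {Θ : X →L[ℝ] E} {K : X →L[ℝ] E →L[ℝ] E}
    {x : X} (h : (toGMfd E M).HasFVel f Θ K x) :
    HasMFDerivAt 𝓘(ℝ, X) 𝓘(ℝ, E) (fun y => (f y).m) x ((f x).Y ∘L Θ) := by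
  refine hasMFDerivAt_of_chart (q := (f x).m) h.1 (mem_extChartAt_source _) ?_
  have h1 := (h.2 (f x).m (mem_extChartAt_source _)).fst
  refine h1.congr_fderiv ?_
  ext v
  rfl

theorem HasVel_hasMFDerivAt {f : ℝ → (toGMfd E M).Fr} {θ : E} {κ : E →L[ℝ] E}
    {t : ℝ} (h : (toGMfd E M).HasVel f θ κ t) :
    HasMFDerivAt 𝓘(ℝ, ℝ) 𝓘(ℝ, E) (fun s => (f s).m) t
      (ContinuousLinearMap.toSpanSingleton ℝ ((f t).Y θ)) := by
  refine hasMFDerivAt_of_chart (q := (f t).m) h.1 (mem_extChartAt_source _) ?_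
  have h1 := (h.2 (f t).m (mem_extChartAt_source _)).hasFDerivAt.fst
  refine h1.congr_fderiv ?_
  ext
  change ((1 : ℝ) • vel ((toGMfd E M).g (f t).m) ((toGMfd E M).cd (f t).m (f t)) (θ, κ)).1 =
    (toGMfd E M).J (f t).m (f t).m ((1 : ℝ) • (f t).Y θ)
  rw [one_smul, one_smul]
  rfl

theorem toGMfd_J_self (m : M) : (toGMfd E M).J m m = ContinuousLinearMap.id ℝ E := by
  rw [toGMfd_J (mem_extChartAt_source m)]
  exact mfderiv_extChartAt_self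

section Maps

variable {f : M → N} {m : M} {q₁ : M} {q₂ : N}

/-- Smoothness of maps between manifolds in charts. -/
theorem contMDiffAt_iff_chart (h₁ : m ∈ (extChartAt 𝓘(ℝ, E) q₁).source)
    (h₂ : f m ∈ (extChartAt 𝓘(ℝ, E) q₂).source) :
    ContMDiffAt 𝓘(ℝ, E) 𝓘(ℝ, E) ∞ f m ↔ ContinuousAt f m ∧
      ContDiffAt ℝ ∞ (fun x => extChartAt 𝓘(ℝ, E) q₂ (f ((extChartAt 𝓘(ℝ, E) q₁).symm x)))
        (extChartAt 𝓘(ℝ, E) q₁ m) := by
  rw [extChartAt_source] at h₁ h₂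
  rw [contMDiffAt_iff_of_mem_source h₁ h₂, ModelWithCorners.Boundaryless.range_eq_univ,
    contDiffWithinAt_univ]
  rfl

/-- The derivative of a map between manifolds in charts. -/
theorem fderiv_chart (h₁ : m ∈ (extChartAt 𝓘(ℝ, E) q₁).source)
    (h₂ : f m ∈ (extChartAt 𝓘(ℝ, E) q₂).source)
    (h : MDifferentiableAt 𝓘(ℝ, E) 𝓘(ℝ, E) f m) (u : E) :
    fderiv ℝ (fun x => extChartAt 𝓘(ℝ, E) q₂ (f ((extChartAt 𝓘(ℝ, E) q₁).symm x)))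
        (extChartAt 𝓘(ℝ, E) q₁ m) ((toGMfd E M).J q₁ m u) =
      (toGMfd E N).J q₂ (f m) (mfderiv 𝓘(ℝ, E) 𝓘(ℝ, E) f m u) := by
  have ht := (extChartAt 𝓘(ℝ, E) q₁).map_source h₁
  have hl := (extChartAt 𝓘(ℝ, E) q₁).left_inv h₁
  have h3 := (Br.mdiff_symm q₁ ht).hasMFDerivAt
  have key : ∀ m' : M, m' = m → HasMFDerivAt 𝓘(ℝ, E) 𝓘(ℝ, E) f m'
      (mfderiv 𝓘(ℝ, E) 𝓘(ℝ, E) f m : E →L[ℝ] E) := by
    rintro _ rfl
    exact h.hasMFDerivAt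
  have h4 := (key _ hl).comp (extChartAt 𝓘(ℝ, E) q₁ m) h3
  have h5 := hasFDerivAt_chart (q := q₂) (f := f ∘ (extChartAt 𝓘(ℝ, E) q₁).symm) (by
    change f ((extChartAt 𝓘(ℝ, E) q₁).symm (extChartAt 𝓘(ℝ, E) q₁ m)) ∈ _
    rwa [hl]) h4
  have h6 := h5.fderiv
  have h7 := congrArg (fun T : E →L[ℝ] E => T ((toGMfd E M).J q₁ m u)) h6
  refine h7.trans ?_
  have h8 : (mfderiv 𝓘(ℝ, E) 𝓘(ℝ, E) (extChartAt 𝓘(ℝ, E) q₁).symm (extChartAt 𝓘(ℝ, E) q₁ m) :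
      E →L[ℝ] E) ((toGMfd E M).J q₁ m u) = u := by
    rw [toGMfd_J h₁, ← Br.D_eq]
    exact congrArg (fun T : E →L[ℝ] E => T u)
      (mfderivWithin_extChartAt_symm_comp_mfderiv_extChartAt' (I := 𝓘(ℝ, E)) h₁)
  change (toGMfd E N).J q₂ (f ((extChartAt 𝓘(ℝ, E) q₁).symm (extChartAt 𝓘(ℝ, E) q₁ m)))
    ((mfderiv 𝓘(ℝ, E) 𝓘(ℝ, E) f m : E →L[ℝ] E)
      ((mfderiv 𝓘(ℝ, E) 𝓘(ℝ, E) (extChartAt 𝓘(ℝ, E) q₁).symm (extChartAt 𝓘(ℝ, E) q₁ m) :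
        E →L[ℝ] E) ((toGMfd E M).J q₁ m u))) = _
  rw [h8, hl]

end Maps

end Amb
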