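import Pool.Agent.Amb.L1

/-!
# L4: structure equations for a two parameter family of frames
-/

set_option maxSynthPendingDepth 3

namespace Amb

open Set Metric Filter
open scoped ContDiff Topology

variable {E : Type*} [NormedAddCommGroup E] [InnerProductSpace ℝ E] [FiniteDimensional ℝ E]
variable {U V W : Set E} {g h : E → E →L[ℝ] E →L[ℝ] ℝ}

theorem vel_injective {p : E × (E →L[ℝ] E)} (hp : Function.Injective p.2) :
    Function.Injective (vel g p) := by
  rw [injective_iff_map_eq_zero]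
  rintro ⟨θ, κ⟩ h0
  obtain ⟨x, Y⟩ := p
  rw [vel_apply] at h0
  have h1 : Y θ = 0 := congrArg Prod.fst h0
  have hθ : θ = 0 := hp (by simpa using h1)
  subst hθ
  have h2 : Y ∘L κ - (Gam g x (Y 0)) ∘L Y = 0 := congrArg Prod.snd h0
  simp only [map_zero, ContinuousLinearMap.zero_comp, sub_zero] at h2
  have hκ : κ = 0 := by
    ext v
    have := DFunLike.congr_fun h2 v
    exact hp (by simpa using this)
  rw [hκ]
  rfl

/-- the derivative of `vel` along a curve -/
theorem vel_deriv {x : ℝ → E} {Y : ℝ → E →L[ℝ] E} {b : ℝ → E} {β : ℝ → E →L[ℝ] E} {t : ℝ}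
    {x' : E} {Y' : E →L[ℝ] E} {b' : E} {β' : E →L[ℝ] E}
    (hG : DifferentiableAt ℝ (Gam g) (x t))
    (hx : HasDerivAt x x' t) (hY : HasDerivAt Y Y' t) (hb : HasDerivAt b b' t) (hβ : HasDerivAt β β' t) :
    HasDerivAt (fun s => vel g (x s, Y s) (b s, β s))
      (Y' (b t) + Y t b', Y' ∘L β t + Y t ∘L β' -
        ((fderiv ℝ (Gam g) (x t) x' (Y t (b t)) + Gam g (x t) (Y' (b t) + Y t b')) ∘L Y t
          + (Gam g (x t) (Y t (b t))) ∘L Y')) t := by
  simp only [vel_apply]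
  have hYb : HasDerivAt (fun s => Y s (b s)) (Y' (b t) + Y t b') t := hY.clm_apply hb
  have hGx : HasDerivAt (fun s => Gam g (x s)) (fderiv ℝ (Gam g) (x t) x') t :=
    hG.hasFDerivAt.comp_hasDerivAt t hx
  have hGY : HasDerivAt (fun s => Gam g (x s) (Y s (b s)))
      (fderiv ℝ (Gam g) (x t) x' (Y t (b t)) + Gam g (x t) (Y' (b t) + Y t b')) t := hGx.clm_apply hYb
  have h1 : HasDerivAt (fun s => Y s ∘L β s) (Y' ∘L β t + Y t ∘L β') t := hY.clm_comp hβ
  have h2 := hGY.clm_comp hY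
  exact hYb.prodMk (h1.sub h2)

/-- an injective endomorphism is a continuous linear equivalence -/
theorem exists_equiv {T : E →L[ℝ] E} (hT : Function.Injective T) : ∃ e : E ≃L[ℝ] E, (e : E →L[ℝ] E) = T := by
  refine ⟨(LinearEquiv.ofInjectiveEndo (T : E →ₗ[ℝ] E) hT).toContinuousLinearEquiv, ?_⟩
  ext v
  rfl

theorem inverse_apply_self {T : E →L[ℝ] E} (hT : Function.Injective T) (v : E) :
    ContinuousLinearMap.inverse T (T v) = v := by
  obtain ⟨e, rfl⟩ := exists_equiv hT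
  rw [ContinuousLinearMap.inverse_equiv]
  simp

theorem eventually_injective {Y : ℝ → E →L[ℝ] E} {t : ℝ} (hY : ContinuousAt Y t) (hi : Function.Injective (Y t)) :
    ∀ᶠ s in 𝓝 t, Function.Injective (Y s) := by
  obtain ⟨e, he⟩ := exists_equiv hi
  have h1 : Set.range (fun e : E ≃L[ℝ] E => (e : E →L[ℝ] E)) ∈ 𝓝 (Y t) := by
    rw [← he]; exact ContinuousLinearEquiv.nhds e
  filter_upwards [hY h1] with s hs
  obtain ⟨e', he'⟩ := hs
  simp only at he'
  rw [← he']
  exact e'.injective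

theorem inverse_diff {Y : ℝ → E →L[ℝ] E} {t : ℝ} (hY : DifferentiableAt ℝ Y t) (hi : Function.Injective (Y t)) :
    DifferentiableAt ℝ (fun s => ContinuousLinearMap.inverse (Y s)) t := by
  obtain ⟨e, he⟩ := exists_equiv hi
  have h1 : ContDiffAt ℝ 1 ContinuousLinearMap.inverse (e : E →L[ℝ] E) := contDiffAt_map_inverse e
  have h2 := h1.differentiableAt one_ne_zero
  rw [he] at h2
  exact h2.comp t hY

theorem div_diff {Y : ℝ → E →L[ℝ] E} {X b : ℝ → E} {t : ℝ} (hY : DifferentiableAt ℝ Y t)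
    (hi : Function.Injective (Y t)) (hX : DifferentiableAt ℝ X t) (h : ∀ᶠ s in 𝓝 t, X s = Y s (b s)) :
    DifferentiableAt ℝ b t := by
  have h1 : DifferentiableAt ℝ (fun s => ContinuousLinearMap.inverse (Y s) (X s)) t := (inverse_diff hY hi).clm_apply hX
  refine h1.congr_of_eventuallyEq ?_
  filter_upwards [h, eventually_injective hY.continuousAt hi] with s hs hs2
  rw [hs, inverse_apply_self hs2]

theorem div_diff' {Y Z β : ℝ → E →L[ℝ] E} {t : ℝ} (hY : DifferentiableAt ℝ Y t)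
    (hi : Function.Injective (Y t)) (hZ : DifferentiableAt ℝ Z t) (h : ∀ᶠ s in 𝓝 t, Z s = Y s ∘L β s) :
    DifferentiableAt ℝ β t := by
  have h1 : DifferentiableAt ℝ (fun s => ContinuousLinearMap.inverse (Y s) ∘L Z s) t := (inverse_diff hY hi).clm_comp hZ
  refine h1.congr_of_eventuallyEq ?_
  filter_upwards [h, eventually_injective hY.continuousAt hi] with s hs hs2
  rw [hs]
  ext v
  simp [inverse_apply_self hs2]

/-- `p (t, s)` has `t`-velocity `(a s, 0)` and `s`-velocity `(b (t, s), β (t, s))`. -/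
theorem struct_eq (hg : IsMet U g) {p : ℝ × ℝ → E × (E →L[ℝ] E)} {z : ℝ × ℝ}
    (hp : ContDiffAt ℝ ∞ p z) (hz : (p z).1 ∈ U) (hY : Function.Injective (p z).2)
    {a : ℝ → E} {a' : E} (ha : HasDerivAt a a' z.2)
    {b : ℝ × ℝ → E} {β : ℝ × ℝ → E →L[ℝ] E}
    (h1 : ∀ᶠ w in 𝓝 z, HasDerivAt (fun t => p (t, w.2)) (vel g (p w) (a w.2, 0)) w.1)
    (h2 : ∀ᶠ w in 𝓝 z, HasDerivAt (fun s => p (w.1, s)) (vel g (p w) (b w, β w)) w.2) :
    HasDerivAt (fun t => b (t, z.2)) (a' + β z (a z.2)) z.1 ∧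
    HasDerivAt (fun t => β (t, z.2)) (pull (p z).2 (Rm g (p z).1) (a z.2) (b z)) z.1 := by
  obtain ⟨z1, z2⟩ := z
  simp only at *
  -- first derivatives
  have hp2 : ContDiffAt ℝ 2 p (z1, z2) := hp.of_le
    (show (2 : WithTop ℕ∞) ≤ ∞ from WithTop.coe_le_coe.2 (le_top : (2 : ℕ∞) ≤ ⊤))
  have hpd : ∀ᶠ w in 𝓝 (z1, z2), DifferentiableAt ℝ p w := by
    have := (hp.of_le (m := 1) (by exact_mod_cast le_top)).eventually (by simp)
    filter_upwards [this] with w hw
    exact hw.differentiableAt one_ne_zero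
  have e1 : ∀ᶠ w in 𝓝 (z1, z2), fderiv ℝ p w (1, 0) = vel g (p w) (a w.2, 0) := by
    filter_upwards [hpd, h1] with w hw hw1
    have hc : HasDerivAt (fun t : ℝ => (t, w.2)) ((1 : ℝ), (0 : ℝ)) w.1 :=
      (hasDerivAt_id w.1).prodMk (hasDerivAt_const w.1 w.2)
    have h3 : HasDerivAt (fun t => p (t, w.2)) (fderiv ℝ p w (1, 0)) w.1 :=
      (show HasFDerivAt p (fderiv ℝ p w) (w.1, w.2) from hw.hasFDerivAt).comp_hasDerivAt w.1 hc
    exact h3.unique hw1
  have e2 : ∀ᶠ w in 𝓝 (z1, z2), fderiv ℝ p w (0, 1) = vel g (p w) (b w, β w) := by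
    filter_upwards [hpd, h2] with w hw hw1
    have hc : HasDerivAt (fun s : ℝ => (w.1, s)) ((0 : ℝ), (1 : ℝ)) w.2 :=
      (hasDerivAt_const w.2 w.1).prodMk (hasDerivAt_id w.2)
    have h3 : HasDerivAt (fun s => p (w.1, s)) (fderiv ℝ p w (0, 1)) w.2 :=
      (show HasFDerivAt p (fderiv ℝ p w) (w.1, w.2) from hw.hasFDerivAt).comp_hasDerivAt w.2 hc
    exact h3.unique hw1
  -- second derivative
  have hD : DifferentiableAt ℝ (fderiv ℝ p) (z1, z2) :=
    (hp2.fderiv_right (m := 1) (by norm_num)).differentiableAt one_ne_zero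
  set D2 := fderiv ℝ (fderiv ℝ p) (z1, z2) with hD2
  have hsymm : D2 (1, 0) (0, 1) = D2 (0, 1) (1, 0) := by
    have := hp2.isSymmSndFDerivAt (by simp)
    exact this (1, 0) (0, 1)
  have ct : HasDerivAt (fun t : ℝ => (t, z2)) ((1 : ℝ), (0 : ℝ)) z1 :=
    (hasDerivAt_id z1).prodMk (hasDerivAt_const z1 z2)
  have cs : HasDerivAt (fun s : ℝ => (z1, s)) ((0 : ℝ), (1 : ℝ)) z2 :=
    (hasDerivAt_const z2 z1).prodMk (hasDerivAt_id z2)
  have f1 : HasDerivAt (fun t => fderiv ℝ p (t, z2) (0, 1)) (D2 (1, 0) (0, 1)) z1 := by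
    have h3 : HasDerivAt (fun t => fderiv ℝ p (t, z2)) (D2 (1, 0)) z1 :=
      HasFDerivAt.comp_hasDerivAt z1 (f := fun t : ℝ => (t, z2)) hD.hasFDerivAt ct
    have := h3.clm_apply (hasDerivAt_const z1 ((0 : ℝ), (1 : ℝ)))
    simpa using this
  have f2 : HasDerivAt (fun s => fderiv ℝ p (z1, s) (1, 0)) (D2 (0, 1) (1, 0)) z2 := by
    have h3 : HasDerivAt (fun s => fderiv ℝ p (z1, s)) (D2 (0, 1)) z2 :=
      HasFDerivAt.comp_hasDerivAt z2 (f := fun s : ℝ => (z1, s)) hD.hasFDerivAt cs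
    have := h3.clm_apply (hasDerivAt_const z2 ((1 : ℝ), (0 : ℝ)))
    simpa using this
  have tt : Tendsto (fun t : ℝ => (t, z2)) (𝓝 z1) (𝓝 (z1, z2)) := ct.continuousAt
  have ts : Tendsto (fun s : ℝ => (z1, s)) (𝓝 z2) (𝓝 (z1, z2)) := cs.continuousAt
  have e2t := tt.eventually e2
  have e1s := ts.eventually e1
  -- the curves
  have hpt := (tt.eventually h1).self_of_nhds
  have hps := (ts.eventually h2).self_of_nhds
  simp only at hpt hps
  have hxt : HasDerivAt (fun t => (p (t, z2)).1) ((p (z1, z2)).2 (a z2)) z1 := by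
    have := hasFDerivAt_fst.comp_hasDerivAt z1 hpt
    rwa [show (vel g (p (z1, z2))) (a z2, 0) = vel g ((p (z1, z2)).1, (p (z1, z2)).2) (a z2, 0) from rfl, vel_apply] at this
  have hYt : HasDerivAt (fun t => (p (t, z2)).2)
      (-((Gam g (p (z1, z2)).1 ((p (z1, z2)).2 (a z2))) ∘L (p (z1, z2)).2)) z1 := by
    have := hasFDerivAt_snd.comp_hasDerivAt z1 hpt
    rw [show (vel g (p (z1, z2))) (a z2, 0) = vel g ((p (z1, z2)).1, (p (z1, z2)).2) (a z2, 0) from rfl, vel_apply] at this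
    have e0 : (p (z1, z2)).2 ∘L (0 : E →L[ℝ] E) - (Gam g (p (z1, z2)).1 ((p (z1, z2)).2 (a z2))) ∘L (p (z1, z2)).2
        = -((Gam g (p (z1, z2)).1 ((p (z1, z2)).2 (a z2))) ∘L (p (z1, z2)).2) := by
      rw [ContinuousLinearMap.comp_zero, zero_sub]
    rw [← e0]
    exact this
  have hxs : HasDerivAt (fun s => (p (z1, s)).1) ((p (z1, z2)).2 (b (z1, z2))) z2 := by
    have := hasFDerivAt_fst.comp_hasDerivAt z2 hps
    rwa [show (vel g (p (z1, z2))) (b (z1, z2), β (z1, z2)) = vel g ((p (z1, z2)).1, (p (z1, z2)).2) (b (z1, z2), β (z1, z2)) from rfl, vel_apply] at this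
  have hYs : HasDerivAt (fun s => (p (z1, s)).2)
      ((p (z1, z2)).2 ∘L β (z1, z2) - (Gam g (p (z1, z2)).1 ((p (z1, z2)).2 (b (z1, z2)))) ∘L (p (z1, z2)).2) z2 := by
    have := hasFDerivAt_snd.comp_hasDerivAt z2 hps
    rwa [show (vel g (p (z1, z2))) (b (z1, z2), β (z1, z2)) = vel g ((p (z1, z2)).1, (p (z1, z2)).2) (b (z1, z2), β (z1, z2)) from rfl, vel_apply] at this
  have hG : DifferentiableAt ℝ (Gam g) (p (z1, z2)).1 :=
    (hg.Gam_smooth.contDiffAt (hg.isOpen.mem_nhds hz)).differentiableAt (by simp)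
  -- differentiability of `b` and `β` along `t`
  have hbd : DifferentiableAt ℝ (fun t => b (t, z2)) z1 := by
    refine div_diff (Y := fun t => (p (t, z2)).2) (X := fun t => (fderiv ℝ p (t, z2) (0, 1)).1)
      hYt.differentiableAt hY ?_ ?_
    · exact (hasFDerivAt_fst.comp_hasDerivAt z1 f1).differentiableAt
    · filter_upwards [e2t] with t ht
      rw [ht]
      rfl
  have hβd : DifferentiableAt ℝ (fun t => β (t, z2)) z1 := by
    refine div_diff' (Y := fun t => (p (t, z2)).2)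
      (Z := fun t => (fderiv ℝ p (t, z2) (0, 1)).2 + (Gam g (p (t, z2)).1 ((p (t, z2)).2 (b (t, z2)))) ∘L (p (t, z2)).2)
      hYt.differentiableAt hY ?_ ?_
    · have k1 : DifferentiableAt ℝ (fun t => (fderiv ℝ p (t, z2) (0, 1)).2) z1 :=
        (hasFDerivAt_snd.comp_hasDerivAt z1 f1).differentiableAt
      have k2 : DifferentiableAt ℝ (fun t => Gam g (p (t, z2)).1) z1 := by
        exact DifferentiableAt.comp (g := Gam g) z1 hG hxt.differentiableAt
      exact k1.add ((k2.clm_apply (hYt.differentiableAt.clm_apply hbd)).clm_comp hYt.differentiableAt)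
    · filter_upwards [e2t] with t ht
      rw [ht]
      show (vel g ((p (t, z2)).1, (p (t, z2)).2) (b (t, z2), β (t, z2))).2 + _ = _
      rw [vel_apply]
      simp
  obtain ⟨b', hb'⟩ : ∃ b', HasDerivAt (fun t => b (t, z2)) b' z1 := ⟨_, hbd.hasDerivAt⟩
  obtain ⟨β', hβ'⟩ : ∃ β', HasDerivAt (fun t => β (t, z2)) β' z1 := ⟨_, hβd.hasDerivAt⟩
  -- two expressions for the mixed derivative
  have g1 := vel_deriv (g := g) (x := fun t => (p (t, z2)).1) (Y := fun t => (p (t, z2)).2)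
    (b := fun t => b (t, z2)) (β := fun t => β (t, z2)) hG hxt hYt hb' hβ'
  have g2 := vel_deriv (g := g) (x := fun s => (p (z1, s)).1) (Y := fun s => (p (z1, s)).2)
    (b := a) (β := fun _ => 0) hG hxs hYs ha (hasDerivAt_const z2 0)
  have g1' := f1.unique (g1.congr_of_eventuallyEq (by
    filter_upwards [e2t] with t ht
    exact ht))
  have g2' := f2.unique (g2.congr_of_eventuallyEq (by
    filter_upwards [e1s] with t ht
    exact ht))
  rw [hsymm, g2'] at g1'
  set x := (p (z1, z2)).1 with hx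
  set Y := (p (z1, z2)).2 with hYd
  set B := b (z1, z2) with hB
  set Be := β (z1, z2) with hBe
  set A := a z2 with hA
  have m1 := congrArg Prod.fst g1'
  have m2 := congrArg Prod.snd g1'
  simp only at m1 m2
  have hsymG : ∀ u v, Gam g x u v = Gam g x v u := fun u v => hg.Gam_symm hz u v
  have r1 : b' = a' + Be A := by
    apply hY
    simp only [sub_apply, neg_apply, ContinuousLinearMap.comp_apply, map_add] at m1 ⊢
    rw [hsymG (Y B) (Y A)] at m1
    have : Y b' = (Y (Be A) - Gam g x (Y A) (Y B) + Y a') + Gam g x (Y A) (Y B) := by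
      rw [m1]; abel
    rw [this]; abel
  refine ⟨by rw [r1] at hb'; exact hb', ?_⟩
  have r2 : β' = pull Y (Rm g x) A B := by
    ext v
    apply hY
    obtain ⟨e, he⟩ := exists_equiv hY
    have hYi : ∀ w, Y (ContinuousLinearMap.inverse Y w) = w := by
      intro w
      rw [← he, ContinuousLinearMap.inverse_equiv]
      simp
    rw [pull_apply, hYi, Rm_apply]
    have m3 := DFunLike.congr_fun m2 v
    simp only [sub_apply, neg_apply, add_apply, ContinuousLinearMap.comp_apply, map_add, map_neg, map_sub,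
      r1, ContinuousLinearMap.comp_zero, zero_apply, hsymG (Y B) (Y A)] at m3
    rw [← sub_eq_zero] at m3 ⊢
    rw [← neg_eq_zero, ← m3]
    abel
  rw [r2] at hβ'
  exact hβ'

end Amb
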