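import Pool.Agent.Amb.M1a
import Pool.Agent.Amb.L4

/-!
# Module M1b: velocities and smooth families of frames
-/

set_option maxSynthPendingDepth 3

namespace Amb

open Set Metric
open scoped ContDiff Topology

variable {E : Type*} [NormedAddCommGroup E] [InnerProductSpace ℝ E] [FiniteDimensional ℝ E]
variable {M : Type*} [MetricSpace M] (G : GMfd E M)
variable {X : Type*} [NormedAddCommGroup X] [NormedSpace ℝ X]

/-! ### the inverse of `vel` -/

theorem bijective_of_injective {Y : E →L[ℝ] E} (hY : Function.Injective Y) :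
    Function.Bijective Y :=
  ⟨hY, (LinearMap.injective_iff_surjective (f := Y.toLinearMap)).1 hY⟩

/-- an injective endomorphism as an equivalence -/
noncomputable def eqvOfInj (Y : E →L[ℝ] E) (hY : Function.Injective Y) : E ≃L[ℝ] E :=
  ContinuousLinearEquiv.ofBijective Y (LinearMap.ker_eq_bot.2 hY)
    (LinearMap.range_eq_top.2 (bijective_of_injective hY).2)

theorem coe_eqvOfInj (Y : E →L[ℝ] E) (hY : Function.Injective Y) :
    ((eqvOfInj Y hY : E ≃L[ℝ] E) : E →L[ℝ] E) = Y := by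
  ext v; rfl

theorem inv_apply {Y : E →L[ℝ] E} (hY : Function.Injective Y) (v : E) :
    ContinuousLinearMap.inverse Y (Y v) = v := by
  have h := coe_eqvOfInj Y hY
  conv_lhs => rw [← h]
  rw [ContinuousLinearMap.inverse_equiv]
  exact (eqvOfInj Y hY).symm_apply_apply v

theorem apply_inv {Y : E →L[ℝ] E} (hY : Function.Injective Y) (v : E) :
    Y (ContinuousLinearMap.inverse Y v) = v := by
  obtain ⟨w, rfl⟩ := (bijective_of_injective hY).2 v
  rw [inv_apply hY]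

theorem contDiffAt_inv {Y : E →L[ℝ] E} (hY : Function.Injective Y) {n : WithTop ℕ∞} :
    ContDiffAt ℝ n (ContinuousLinearMap.inverse : (E →L[ℝ] E) → E →L[ℝ] E) Y := by
  have h := coe_eqvOfInj Y hY
  rw [← h]
  exact contDiffAt_map_inverse (eqvOfInj Y hY)

theorem eventually_inj {Y : E →L[ℝ] E} (hY : Function.Injective Y) :
    ∀ᶠ Z : E →L[ℝ] E in 𝓝 Y, Function.Injective Z := by
  have h := coe_eqvOfInj Y hY
  rw [← h]
  filter_upwards [ContinuousLinearEquiv.nhds (eqvOfInj Y hY)] with Z hZ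
  obtain ⟨e', rfl⟩ := hZ
  exact e'.injective

/-- The inverse of `vel`. -/
noncomputable def ivel (g : E → E →L[ℝ] E →L[ℝ] ℝ) (p : E × (E →L[ℝ] E)) :
    E × (E →L[ℝ] E) →L[ℝ] E × (E →L[ℝ] E) :=
  (ContinuousLinearMap.inl ℝ E (E →L[ℝ] E)) ∘L
    ((ContinuousLinearMap.inverse p.2) ∘L ContinuousLinearMap.fst ℝ E (E →L[ℝ] E)) +
  (ContinuousLinearMap.inr ℝ E (E →L[ℝ] E)) ∘L
    ((ContinuousLinearMap.compL ℝ E E E (ContinuousLinearMap.inverse p.2)) ∘L
      (ContinuousLinearMap.snd ℝ E (E →L[ℝ] E) +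
      (((ContinuousLinearMap.compL ℝ E E E).flip p.2) ∘L (Gam g p.1)) ∘L
        ContinuousLinearMap.fst ℝ E (E →L[ℝ] E)))

omit [FiniteDimensional ℝ E] in
theorem ivel_apply (g : E → E →L[ℝ] E →L[ℝ] ℝ) (p : E × (E →L[ℝ] E)) (v : E)
    (Z : E →L[ℝ] E) :
    ivel g p (v, Z) = (ContinuousLinearMap.inverse p.2 v,
      (ContinuousLinearMap.inverse p.2) ∘L (Z + (Gam g p.1 v) ∘L p.2)) := by
  simp [ivel]

theorem ivel_vel {g : E → E →L[ℝ] E →L[ℝ] ℝ} {p : E × (E →L[ℝ] E)}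
    (hp : Function.Injective p.2) (v : E × (E →L[ℝ] E)) : ivel g p (vel g p v) = v := by
  obtain ⟨x, Y⟩ := p
  obtain ⟨θ, κ⟩ := v
  rw [vel_apply, ivel_apply]
  simp only [sub_add_cancel]
  rw [inv_apply hp]
  congr 1
  ext w
  simp only [ContinuousLinearMap.comp_apply]
  rw [inv_apply hp]

theorem vel_ivel {g : E → E →L[ℝ] E →L[ℝ] ℝ} {p : E × (E →L[ℝ] E)}
    (hp : Function.Injective p.2) (v : E × (E →L[ℝ] E)) : vel g p (ivel g p v) = v := by
  obtain ⟨x, Y⟩ := p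
  obtain ⟨θ, κ⟩ := v
  rw [ivel_apply, vel_apply, apply_inv hp]
  congr 1
  ext w
  simp only [ContinuousLinearMap.comp_apply, sub_apply, add_apply]
  rw [apply_inv hp]
  abel

theorem ivel_contDiffAt {U : Set E} {g : E → E →L[ℝ] E →L[ℝ] ℝ} (hg : IsMet U g)
    {p : E × (E →L[ℝ] E)} (hU : p.1 ∈ U) (hp : Function.Injective p.2) :
    ContDiffAt ℝ ∞ (ivel g) p := by
  have h2 : ContDiffAt ℝ ∞ (fun p : E × (E →L[ℝ] E) => ContinuousLinearMap.inverse p.2) p :=
    (contDiffAt_inv hp).comp p contDiffAt_snd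
  have h1 : ContDiffAt ℝ ∞ (fun p : E × (E →L[ℝ] E) => Gam g p.1) p :=
    (hg.Gam_smooth.contDiffAt (hg.isOpen.mem_nhds hU)).comp p contDiffAt_fst
  have h3 : ContDiffAt ℝ ∞ (fun p : E × (E →L[ℝ] E) => p.2) p := contDiffAt_snd
  unfold ivel
  refine (contDiffAt_const.clm_comp ?_).add (contDiffAt_const.clm_comp ?_)
  · exact h2.clm_comp contDiffAt_const
  · refine ContDiffAt.clm_comp ?_ ?_
    · exact (ContinuousLinearMap.contDiff _).contDiffAt.comp p h2
    · refine contDiffAt_const.add (ContDiffAt.clm_comp ?_ contDiffAt_const)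
      refine ContDiffAt.clm_comp ?_ h1
      exact (ContinuousLinearMap.contDiff _).contDiffAt.comp p h3

/-- components of the derivative of a curve of frames -/
theorem vel_comps {g : E → E →L[ℝ] E →L[ℝ] ℝ} {p : ℝ → E × (E →L[ℝ] E)}
    {q : E × (E →L[ℝ] E)} {θ : E}
    {κ : E →L[ℝ] E} {t : ℝ} (hv : HasDerivAt p (vel g q (θ, κ)) t) :
    HasDerivAt (fun t => (p t).1) (q.2 θ) t ∧
    HasDerivAt (fun t => (p t).2) (q.2 ∘L κ - (Gam g q.1 (q.2 θ)) ∘L q.2) t := by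
  obtain ⟨x, Y⟩ := q
  rw [vel_apply] at hv
  exact ⟨(ContinuousLinearMap.fst ℝ E (E →L[ℝ] E)).hasFDerivAt.comp_hasDerivAt t hv,
    (ContinuousLinearMap.snd ℝ E (E →L[ℝ] E)).hasFDerivAt.comp_hasDerivAt t hv⟩

namespace GMfd

/-! ### transition maps -/

/-- the transition map -/
noncomputable def tr (q q' : M) : E → E := fun x => G.φ q' (G.ψ q x)

/-- its domain -/
def trDom (q q' : M) : Set E := {x | x ∈ G.tgt q ∧ G.ψ q x ∈ G.src q'}

theorem tr_iso (q q' : M) : IsIso (G.trDom q q') (G.tgt q') (G.g q) (G.g q') (G.tr q q') :=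
  G.trans q q'

theorem met_trDom (q q' : M) : IsMet (G.trDom q q') (G.g q) :=
  (G.met q).mono (G.tr_iso q q').isOpen (fun _ hx => hx.1)

theorem mem_trDom {q q' m : M} (h : m ∈ G.src q) (h' : m ∈ G.src q') :
    G.φ q m ∈ G.trDom q q' := ⟨G.map_src q m h, by rw [G.left_inv q m h]; exact h'⟩

theorem frMap_cda {q q' : M} {f : G.Fr} (h : f.m ∈ G.src q) (h' : f.m ∈ G.src q') :
    ContDiffAt ℝ ∞ (frMap (G.tr q q')) (G.cd q f) := by
  have h1 := frMap_smooth (G.tr_iso q q').isOpen (G.tr_iso q q').smooth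
  exact h1.contDiffAt (((G.tr_iso q q').isOpen.prod isOpen_univ).mem_nhds
    ⟨G.mem_trDom h h', mem_univ _⟩)

theorem frMap_hfd {q q' : M} {f : G.Fr} (h : f.m ∈ G.src q) (h' : f.m ∈ G.src q') :
    HasFDerivAt (frMap (G.tr q q')) (fderiv ℝ (frMap (G.tr q q')) (G.cd q f)) (G.cd q f) :=
  ((G.frMap_cda h h').differentiableAt (by simp)).hasFDerivAt

theorem vel_tr {q q' : M} {f : G.Fr} (h : f.m ∈ G.src q) (h' : f.m ∈ G.src q') :
    fderiv ℝ (frMap (G.tr q q')) (G.cd q f) ∘L vel (G.g q) (G.cd q f) =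
      vel (G.g q') (G.cd q' f) := by
  have h1 := vel_natural (G.met_trDom q q') (G.met q') (G.tr_iso q q') (p := G.cd q f)
    (G.mem_trDom h h')
  rw [h1, G.cd_trans f h h']
  rfl

variable {G}

/-- near a point, both charts are available -/
theorem eventually_src {Y : Type*} [TopologicalSpace Y] {f : Y → M} {x : Y}
    (hc : ContinuousAt f x) {q : M} (hq : f x ∈ G.src q) : ∀ᶠ y in 𝓝 x, f y ∈ G.src q :=
  hc.eventually ((G.src_open q).mem_nhds hq)

theorem eventually_cd {Y : Type*} [TopologicalSpace Y] {f : Y → G.Fr} {x : Y}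
    (hc : ContinuousAt (fun y => (f y).m) x) {q q' : M} (hq : (f x).m ∈ G.src q)
    (hq' : (f x).m ∈ G.src q') :
    (fun y => G.cd q' (f y)) =ᶠ[𝓝 x] fun y => frMap (G.tr q q') (G.cd q (f y)) := by
  filter_upwards [eventually_src hc hq, eventually_src hc hq'] with y h1 h2
  exact G.cd_trans (f y) h1 h2

theorem hasVel_of_chart {f : ℝ → G.Fr} {θ : E} {κ : E →L[ℝ] E} {t : ℝ} {q : M}
    (hc : ContinuousAt (fun s => (f s).m) t) (hq : (f t).m ∈ G.src q)
    (h : HasDerivAt (fun s => G.cd q (f s)) (vel (G.g q) (G.cd q (f t)) (θ, κ)) t) :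
    G.HasVel f θ κ t := by
  refine ⟨hc, fun q' hq' => ?_⟩
  have h1 := HasFDerivAt.comp_hasDerivAt (f := fun s => G.cd q (f s)) t (G.frMap_hfd hq hq') h
  refine (h1.congr_of_eventuallyEq (eventually_cd hc hq hq')).congr_deriv ?_
  rw [← G.vel_tr hq hq']
  rfl

theorem hasFVel_of_chart {f : X → G.Fr} {Θ : X →L[ℝ] E} {K : X →L[ℝ] E →L[ℝ] E} {x : X} {q : M}
    (hc : ContinuousAt (fun y => (f y).m) x) (hq : (f x).m ∈ G.src q)
    (h : HasFDerivAt (fun y => G.cd q (f y)) (vel (G.g q) (G.cd q (f x)) ∘L (Θ.prod K)) x) :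
    G.HasFVel f Θ K x := by
  refine ⟨hc, fun q' hq' => ?_⟩
  have h1 := (HasFDerivAt.comp (f := fun s => G.cd q (f s)) x (G.frMap_hfd hq hq') h)
  rw [← ContinuousLinearMap.comp_assoc, G.vel_tr hq hq'] at h1
  exact h1.congr_of_eventuallyEq (eventually_cd hc hq hq')

theorem smAt_of_chart {f : X → G.Fr} {x : X} {q : M}
    (hc : ContinuousAt (fun y => (f y).m) x) (hq : (f x).m ∈ G.src q)
    (h : ContDiffAt ℝ ∞ (fun y => G.cd q (f y)) x) : G.SmAt f x := by
  refine ⟨hc, fun q' hq' => ?_⟩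
  exact (ContDiffAt.comp (g := frMap (G.tr q q')) x (G.frMap_cda hq hq')
    h).congr_of_eventuallyEq (eventually_cd hc hq hq')

theorem smPt_of_chart {f : X → M} {x : X} {q : M}
    (hc : ContinuousAt f x) (hq : f x ∈ G.src q)
    (h : ContDiffAt ℝ ∞ (fun y => G.φ q (f y)) x) : G.SmPt f x := by
  refine ⟨hc, fun q' hq' => ?_⟩
  have h1 : ContDiffAt ℝ ∞ (G.tr q q') (G.φ q (f x)) :=
    (G.tr_iso q q').smooth.contDiffAt ((G.tr_iso q q').isOpen.mem_nhds (G.mem_trDom hq hq'))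
  refine (ContDiffAt.comp x h1 h).congr_of_eventuallyEq ?_
  filter_upwards [eventually_src hc hq] with y hy
  simp only [Function.comp_apply, tr]
  rw [G.left_inv q _ hy]

theorem SmAt.smPt {f : X → G.Fr} {x : X} (h : G.SmAt f x) : G.SmPt (fun y => (f y).m) x :=
  ⟨h.1, fun q hq => contDiffAt_fst.comp x (h.2 q hq)⟩

theorem cd_injective {q : M} {f : G.Fr} (h : f.m ∈ G.src q) :
    Function.Injective (G.cd q f).2 := (cd_bij h).1

theorem hasFVel_of_deriv {f : X → G.Fr} {x : X} {q : M} {D : X →L[ℝ] E × (E →L[ℝ] E)}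
    (hc : ContinuousAt (fun y => (f y).m) x) (hq : (f x).m ∈ G.src q)
    (h : HasFDerivAt (fun y => G.cd q (f y)) D x) :
    G.HasFVel f (ContinuousLinearMap.fst ℝ E (E →L[ℝ] E) ∘L ivel (G.g q) (G.cd q (f x)) ∘L D)
      (ContinuousLinearMap.snd ℝ E (E →L[ℝ] E) ∘L ivel (G.g q) (G.cd q (f x)) ∘L D) x := by
  refine hasFVel_of_chart hc hq ?_
  convert h using 1
  ext1 v
  simp only [ContinuousLinearMap.comp_apply, ContinuousLinearMap.prod_apply,
    ContinuousLinearMap.coe_fst', ContinuousLinearMap.coe_snd', Prod.mk.eta]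
  exact vel_ivel (cd_injective hq) _

theorem SmAt.exists_vel {f : X → G.Fr} {x : X} (h : G.SmAt f x) :
    ∃ Θ K, G.HasFVel f Θ K x :=
  ⟨_, _, hasFVel_of_deriv h.1 (G.mem_src _)
    ((h.2 _ (G.mem_src _)).differentiableAt (by simp)).hasFDerivAt⟩

theorem HasFVel.unique {f : X → G.Fr} {x : X} {Θ Θ' : X →L[ℝ] E} {K K' : X →L[ℝ] E →L[ℝ] E}
    (h : G.HasFVel f Θ K x) (h' : G.HasFVel f Θ' K' x) : Θ = Θ' ∧ K = K' := by
  have h1 := (h.2 _ (G.mem_src _)).unique (h'.2 _ (G.mem_src _))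
  have h2 : ∀ v, (Θ v, K v) = (Θ' v, K' v) := fun v => by
    have := congrArg (fun L : X →L[ℝ] E × (E →L[ℝ] E) => L v) h1
    exact vel_injective (cd_injective (G.mem_src _)) this
  refine ⟨?_, ?_⟩
  · ext1 v; exact congrArg Prod.fst (h2 v)
  · ext1 v; exact congrArg Prod.snd (h2 v)

theorem HasVel.unique {f : ℝ → G.Fr} {t : ℝ} {θ θ' : E} {κ κ' : E →L[ℝ] E}
    (h : G.HasVel f θ κ t) (h' : G.HasVel f θ' κ' t) : θ = θ' ∧ κ = κ' := by
  have h1 := (h.2 _ (G.mem_src _)).unique (h'.2 _ (G.mem_src _))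
  have := vel_injective (cd_injective (G.mem_src _)) h1
  exact ⟨congrArg Prod.fst this, congrArg Prod.snd this⟩

theorem HasFVel.comp {f : X → G.Fr} {c : ℝ → X} {c' : X} {t : ℝ} {Θ : X →L[ℝ] E}
    {K : X →L[ℝ] E →L[ℝ] E} (h : G.HasFVel f Θ K (c t)) (hc : HasDerivAt c c' t) :
    G.HasVel (fun s => f (c s)) (Θ c') (K c') t := by
  refine ⟨h.1.comp_of_eq hc.continuousAt rfl, fun q hq => ?_⟩
  exact HasFDerivAt.comp_hasDerivAt (f := c) t (h.2 q hq) hc

theorem HasVel.comp_real {f : ℝ → G.Fr} {c : ℝ → ℝ} {c' t : ℝ} {θ : E} {κ : E →L[ℝ] E}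
    (h : G.HasVel f θ κ (c t)) (hc : HasDerivAt c c' t) :
    G.HasVel (fun s => f (c s)) (c' • θ) (c' • κ) t := by
  refine ⟨h.1.comp_of_eq hc.continuousAt rfl, fun q hq => ?_⟩
  have h1 := HasDerivAt.scomp t (h.2 q hq) hc
  rw [← map_smul] at h1
  exact h1

variable (G) in
theorem smAt_const (f : G.Fr) (x : X) : G.SmAt (fun _ => f) x :=
  ⟨continuousAt_const, fun _ _ => contDiffAt_const⟩

theorem SmAt.comp {X' : Type*} [NormedAddCommGroup X'] [NormedSpace ℝ X'] {f : X → G.Fr}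
    {c : X' → X} {x : X'} (h : G.SmAt f (c x)) (hc : ContDiffAt ℝ ∞ c x) :
    G.SmAt (fun y => f (c y)) x :=
  ⟨h.1.comp_of_eq hc.continuousAt rfl, fun q hq => ContDiffAt.comp x (h.2 q hq) hc⟩

theorem cd_rot (f : G.Fr) (k : E ≃ₗᵢ[ℝ] E) (q : M) :
    G.cd q (f.rot k) = ((G.cd q f).1, (G.cd q f).2 ∘L (k.toContinuousLinearEquiv : E →L[ℝ] E)) :=
  rfl

theorem HasVel.rot {f : ℝ → G.Fr} {t : ℝ} {θ : E} {κ : E →L[ℝ] E} (h : G.HasVel f θ κ t)
    {k : ℝ → E ≃ₗᵢ[ℝ] E} {k' : E →L[ℝ] E}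
    (hk : HasDerivAt (fun s => ((k s).toContinuousLinearEquiv : E →L[ℝ] E)) k' t) :
    G.HasVel (fun s => (f s).rot (k s)) ((k t).symm θ)
      (((k t).symm.toContinuousLinearEquiv : E →L[ℝ] E) ∘L
        (κ ∘L ((k t).toContinuousLinearEquiv : E →L[ℝ] E) + k')) t := by
  refine ⟨h.1, fun q hq => ?_⟩
  obtain ⟨h1, h2⟩ := vel_comps (h.2 q hq)
  have h3 := h1.prodMk (h2.clm_comp hk)
  refine h3.congr_deriv ?_
  simp only [cd_rot]
  rw [vel_apply]
  refine Prod.ext ?_ ?_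
  · simp
  · ext v
    simp only [ContinuousLinearMap.comp_apply, add_apply, sub_apply,
      ContinuousLinearEquiv.coe_coe, LinearIsometryEquiv.coe_toContinuousLinearEquiv,
      map_add, LinearIsometryEquiv.apply_symm_apply]
    abel

theorem HasVel.congr_ev {f f' : ℝ → G.Fr} {t : ℝ} {θ : E} {κ : E →L[ℝ] E} (h : G.HasVel f θ κ t)
    (he : f' =ᶠ[𝓝 t] f) : G.HasVel f' θ κ t := by
  have h0 : f' t = f t := he.self_of_nhds
  refine ⟨h.1.congr (he.mono fun s hs => by simp only [hs]), fun q hq => ?_⟩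
  rw [h0] at hq ⊢
  exact (h.2 q hq).congr_of_eventuallyEq (he.mono fun s hs => by simp only [hs])

/-- The rotation between two families of frames over the same points is differentiable. -/
theorem rot_deriv {f f' : ℝ → G.Fr} {t : ℝ} {θ θ' : E} {κ κ' : E →L[ℝ] E}
    (h : G.HasVel f θ κ t) (h' : G.HasVel f' θ' κ' t) {k : ℝ → E ≃ₗᵢ[ℝ] E}
    (hk : ∀ᶠ s in 𝓝 t, f' s = (f s).rot (k s)) :
    HasDerivAt (fun s => ((k s).toContinuousLinearEquiv : E →L[ℝ] E))
      (((k t).toContinuousLinearEquiv : E →L[ℝ] E) ∘L κ' -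
        κ ∘L ((k t).toContinuousLinearEquiv : E →L[ℝ] E)) t ∧ θ = k t θ' := by
  obtain ⟨q, hq⟩ : ∃ q, q = (f t).m := ⟨_, rfl⟩
  have hqs : (f t).m ∈ G.src q := by rw [hq]; exact G.mem_src _
  have h0 : (f' t).m = (f t).m := by rw [hk.self_of_nhds]; rfl
  obtain ⟨h1, h2⟩ := vel_comps (h.2 q hqs)
  obtain ⟨h1', h2'⟩ := vel_comps (h'.2 q (by rw [h0]; exact hqs))
  have hinv := HasFDerivAt.comp_hasDerivAt (f := fun s : ℝ => (G.cd q (f s)).2) t
      (((contDiffAt_inv (n := 1) (cd_injective hqs)).differentiableAt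
        (by simp)).hasFDerivAt) h2
  obtain ⟨k', hk'⟩ : ∃ k', HasDerivAt (fun s => ((k s).toContinuousLinearEquiv : E →L[ℝ] E))
      k' t := by
    refine ⟨_, (hinv.clm_comp h2').congr_of_eventuallyEq ?_⟩
    filter_upwards [hk, eventually_src h.1 hqs] with s hs hs'
    ext v
    simp only [Function.comp_apply, ContinuousLinearMap.comp_apply, hs, cd_rot]
    rw [inv_apply (cd_injective hs')]
  obtain ⟨e1, e2⟩ := (h.rot hk').unique (h'.congr_ev (hk.mono fun s hs => hs.symm))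
  refine ⟨?_, by rw [← e1]; simp⟩
  convert hk' using 1
  rw [← e2]
  ext v
  simp

/-- weak replacement of smoothness near a point: the velocity exists near the point -/
theorem SmAt.eventually_vel {f : X → G.Fr} {x : X} (h : G.SmAt f x) :
    ∀ᶠ y in 𝓝 x, ContinuousAt (fun z => (f z).m) y ∧ ∃ Θ K, G.HasFVel f Θ K y := by
  obtain ⟨q, hq⟩ : ∃ q, q = (f x).m := ⟨_, rfl⟩
  have hqs : (f x).m ∈ G.src q := by rw [hq]; exact G.mem_src _
  have h1 : ContDiffAt ℝ 1 (fun y => G.cd q (f y)) x :=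
    (h.2 q hqs).of_le (WithTop.coe_le_coe.2 (le_top : (1 : ℕ∞) ≤ ⊤))
  have h2 := (eventually_src h.1 hqs).eventually_nhds
  filter_upwards [h1.eventually (by simp), h2] with y hy hy'
  have hys := hy'.self_of_nhds
  have hd : DifferentiableAt ℝ (fun y => G.cd q (f y)) y := hy.differentiableAt (by simp)
  have hc : ContinuousAt (fun z => (f z).m) y := by
    have h3 : ContinuousAt (fun z => G.ψ q (G.cd q (f z)).1) y := by
      refine ContinuousAt.comp (g := G.ψ q) (f := fun z => (G.cd q (f z)).1) ?_ ?_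
      · exact (G.cont_ψ q).continuousAt ((G.met q).isOpen.mem_nhds (G.map_src q _ hys))
      · exact hd.continuousAt.fst
    refine h3.congr ?_
    filter_upwards [hy'] with z hz
    exact G.left_inv q _ hz
  exact ⟨hc, _, _, hasFVel_of_deriv hc hys hd.hasFDerivAt⟩

/-- velocities of smooth families are smooth -/
theorem SmAt.vel_smooth {f : X → G.Fr} {x : X} (h : G.SmAt f x) {Θ : X → X →L[ℝ] E}
    {K : X → X →L[ℝ] E →L[ℝ] E} (hv : ∀ᶠ y in 𝓝 x, G.HasFVel f (Θ y) (K y) y) :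
    ContDiffAt ℝ ∞ Θ x ∧ ContDiffAt ℝ ∞ K x := by
  obtain ⟨q, hq⟩ : ∃ q, q = (f x).m := ⟨_, rfl⟩
  have hqs : (f x).m ∈ G.src q := by rw [hq]; exact G.mem_src _
  have h1 := h.2 q hqs
  have h2 : ContDiffAt ℝ ∞ (fun y => ivel (G.g q) (G.cd q (f y)) ∘L
      fderiv ℝ (fun z => G.cd q (f z)) y) x := by
    refine ContDiffAt.clm_comp ?_ (h1.fderiv_right (m := ∞) (by simp))
    exact ContDiffAt.comp (g := ivel (G.g q)) (f := fun y => G.cd q (f y)) x
      (ivel_contDiffAt (G.met q) (G.map_src q _ hqs) (cd_injective hqs)) h1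
  have key : ∀ᶠ y in 𝓝 x, ivel (G.g q) (G.cd q (f y)) ∘L
      fderiv ℝ (fun z => G.cd q (f z)) y = (Θ y).prod (K y) := by
    filter_upwards [hv, eventually_src h.1 hqs] with y hy hys
    rw [(hy.2 q hys).fderiv]
    ext1 v
    simp only [ContinuousLinearMap.comp_apply]
    exact ivel_vel (cd_injective hys) _
  constructor
  · refine ((contDiffAt_const (c := ContinuousLinearMap.fst ℝ E (E →L[ℝ] E))).clm_comp
      h2).congr_of_eventuallyEq ?_
    filter_upwards [key] with y hy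
    rw [hy]
    rfl
  · refine ((contDiffAt_const (c := ContinuousLinearMap.snd ℝ E (E →L[ℝ] E))).clm_comp
      h2).congr_of_eventuallyEq ?_
    filter_upwards [key] with y hy
    rw [hy]
    rfl

end GMfd

end Amb
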