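import Pool.Agent.Amb.OdeFlow

open Set Filter Topology MeasureTheory
open scoped unitInterval ContDiff NNReal Manifold

namespace Amb.ODEflow

universe u
variable {E : Type u} [NormedAddCommGroup E] [NormedSpace ℝ E]

lemma exists_cutoff [FiniteDimensional ℝ E] {n : ℕ∞} {f : E → E} {Ω K : Set E} (hΩ : IsOpen Ω)
    (hf : ContDiffOn ℝ n f Ω) (hK : IsCompact K) (hKΩ : K ⊆ Ω) :
    ∃ (g : E → E) (V : Set E), ContDiff ℝ n g ∧ HasCompactSupport g ∧ IsOpen V ∧ K ⊆ V ∧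
      V ⊆ Ω ∧ EqOn g f V := by
  obtain ⟨K', hK', hKK', hK'Ω⟩ := exists_compact_between hK hΩ hKΩ
  obtain ⟨χ, h1, h0, -⟩ := exists_contMDiffMap_one_nhds_of_subset_interior 𝓘(ℝ, E) (n := n)
    hK.isClosed hKK'
  have hχ : ContDiff ℝ n χ := χ.contMDiff.contDiff
  have hsupp : tsupport χ ⊆ K' :=
    closure_minimal (fun x hx => by_contra fun h => hx (h0 x h)) hK'.isClosed
  obtain ⟨V, hV1, hKV, hV⟩ := eventually_nhdsSet_iff_exists.1 h1
  refine ⟨fun x => χ x • f x, V ∩ Ω, ?_, ?_, hV1.inter hΩ, subset_inter hKV hKΩ,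
    inter_subset_right, ?_⟩
  · rw [contDiff_iff_contDiffAt]
    intro x
    by_cases hx : x ∈ Ω
    · exact hχ.contDiffAt.smul (hf.contDiffAt (hΩ.mem_nhds hx))
    · have hx' : x ∉ tsupport χ := fun h => hx (hK'Ω (hsupp h))
      have h2 : (fun x => χ x • f x) =ᶠ[𝓝 x] fun _ => 0 := by
        filter_upwards [notMem_tsupport_iff_eventuallyEq.1 hx'] with y hy
        rw [hy]; simp
      exact contDiffAt_const.congr_of_eventuallyEq h2
  · refine HasCompactSupport.of_support_subset_isCompact hK' fun x hx => ?_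
    by_contra h
    exact hx (by simp [h0 x h])
  · intro x hx
    simp [hV x hx.1]

/-- **Smooth flow along a compact piece of orbit.** -/
theorem exists_flow_compact [FiniteDimensional ℝ E] {n : ℕ∞} (hn : 1 ≤ n) {f : E → E}
    {Ω K : Set E} (hΩ : IsOpen Ω) (hf : ContDiffOn ℝ n f Ω) (hK : IsCompact K) (hKΩ : K ⊆ Ω) :
    ∃ (Φ : ℝ × E → E) (V : Set E), ContDiff ℝ n Φ ∧ IsOpen V ∧ K ⊆ V ∧ V ⊆ Ω ∧
      (∀ x, Φ (0, x) = x) ∧ (∀ s t x, Φ (s + t, x) = Φ (s, Φ (t, x))) ∧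
      (∀ t x, Φ (t, x) ∈ V → HasDerivAt (fun s => Φ (s, x)) (f (Φ (t, x))) t) ∧
      (∀ (γ : ℝ → E) (a b t₀ : ℝ), t₀ ∈ Ioo a b →
        (∀ t ∈ Ioo a b, γ t ∈ V ∧ HasDerivAt γ (f (γ t)) t) →
        ∀ t ∈ Ioo a b, Φ (t - t₀, γ t₀) = γ t) := by
  obtain ⟨g, V, hg, hgs, hV, hKV, hVΩ, hgf⟩ := exists_cutoff hΩ hf hK hKΩ
  have hn' : (n : WithTop ℕ∞) ≠ 0 := by
    intro h0
    have : n = 0 := by exact_mod_cast h0
    rw [this] at hn
    simp at hn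
  obtain ⟨L, hL⟩ := hg.lipschitzWith_of_hasCompactSupport hgs hn'
  obtain ⟨C, hC⟩ := hgs.exists_bound_of_continuous hg.continuous
  have hC' : ∀ x, ‖g x‖ ≤ (C.toNNReal : ℝ) := fun x => (hC x).trans (Real.le_coe_toNNReal C)
  have : CompleteSpace E := FiniteDimensional.complete ℝ E
  obtain ⟨Φ, hΦ⟩ := exists_flowOf hL hC'
  refine ⟨Φ, V, contDiff_flow hn hL hg hΦ, hV, hKV, hVΩ, hΦ.zero, fun s t x => hΦ.add hL s t x,
    fun t x hx => ?_, fun γ a b t₀ ht₀ hγ t ht => ?_⟩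
  · have := hΦ.deriv t x
    rwa [hgf hx] at this
  · have h1 : ∀ s, HasDerivAt (fun s => Φ (s - t₀, γ t₀)) (g (Φ (s - t₀, γ t₀))) s := by
      intro s
      have := (hΦ.deriv (s - t₀) (γ t₀)).scomp s ((hasDerivAt_id s).sub_const t₀)
      simpa [Function.comp_def] using this
    exact ODE_solution_unique_of_mem_Ioo (v := fun _ => g) (s := fun _ => univ) (K := L)
      (t₀ := t₀) (f := fun s => Φ (s - t₀, γ t₀)) (g := γ) (fun t _ => hL.lipschitzOnWith) ht₀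
      (fun t _ => ⟨h1 t, mem_univ _⟩)
      (fun t ht => ⟨by
        have := (hγ t ht).2
        rwa [← hgf (hγ t ht).1] at this, mem_univ _⟩)
      (by simp [hΦ.zero]) ht

end Amb.ODEflow

namespace Amb

/-- Uniqueness of solutions of an autonomous ODE with a `C^1` right hand side on an open set,
on an arbitrary open interval. -/
theorem ode_unique {F : Type*} [NormedAddCommGroup F] [NormedSpace ℝ F]
    {f : F → F} {Ω : Set F} (hΩ : IsOpen Ω) (hf : ContDiffOn ℝ 1 f Ω) {a b t₀ : ℝ}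
    (ht₀ : t₀ ∈ Ioo a b) {y z : ℝ → F}
    (hy : ∀ t ∈ Ioo a b, y t ∈ Ω ∧ HasDerivAt y (f (y t)) t)
    (hz : ∀ t ∈ Ioo a b, z t ∈ Ω ∧ HasDerivAt z (f (z t)) t) (h0 : y t₀ = z t₀) :
    ∀ t ∈ Ioo a b, y t = z t := by
  have hloc : ∀ t ∈ Ioo a b, y t = z t → y =ᶠ[𝓝 t] z := by
    intro t ht hyz
    obtain ⟨K, s, hs, hlip⟩ := (hf.contDiffAt (hΩ.mem_nhds (hy t ht).1)).exists_lipschitzOnWith
    have hcy : ∀ᶠ r in 𝓝 t, y r ∈ s := (hy t ht).2.continuousAt.eventually hs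
    have hcz : ∀ᶠ r in 𝓝 t, z r ∈ s := by
      rw [hyz] at hs
      exact (hz t ht).2.continuousAt.eventually hs
    have hI : ∀ᶠ r in 𝓝 t, r ∈ Ioo a b := isOpen_Ioo.mem_nhds ht
    refine ODE_solution_unique_of_eventually (v := fun _ => f) (s := fun _ => s) (K := K)
      (Eventually.of_forall fun _ => hlip) ?_ ?_ hyz
    · filter_upwards [hcy, hI] with r h1 h2 using ⟨(hy r h2).2, h1⟩
    · filter_upwards [hcz, hI] with r h1 h2 using ⟨(hz r h2).2, h1⟩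
  have hsub : Ioo a b ⊆ {t | y =ᶠ[𝓝 t] z} := by
    refine isPreconnected_Ioo.subset_of_closure_inter_subset ?_ ⟨t₀, ht₀, hloc t₀ ht₀ h0⟩ ?_
    · rw [isOpen_iff_mem_nhds]
      intro t ht
      exact eventually_eventually_nhds.2 ht
    · rintro t ⟨ht1, ht2⟩
      refine hloc t ht2 ?_
      rw [mem_closure_iff_frequently] at ht1
      exact tendsto_nhds_unique_of_frequently_eq (hy t ht2).2.continuousAt.tendsto
        (hz t ht2).2.continuousAt.tendsto (ht1.mono fun r hr => hr.self_of_nhds)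
  exact fun t ht => (hsub ht).self_of_nhds

/-- Existence of a jointly smooth local flow of a smooth vector field. -/
theorem exists_smooth_flow {F : Type*} [NormedAddCommGroup F] [NormedSpace ℝ F]
    [FiniteDimensional ℝ F] {f : F → F} {Ω : Set F} (hΩ : IsOpen Ω) (hf : ContDiffOn ℝ ∞ f Ω)
    {z₀ : F} (hz : z₀ ∈ Ω) :
    ∃ (ε : ℝ) (W : Set F) (Φ : ℝ → F → F), 0 < ε ∧ IsOpen W ∧ z₀ ∈ W ∧ W ⊆ Ω ∧
      ContDiffOn ℝ ∞ (fun p : ℝ × F => Φ p.1 p.2) (Ioo (-ε) ε ×ˢ W) ∧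
      (∀ z ∈ W, Φ 0 z = z) ∧
      (∀ z ∈ W, ∀ t ∈ Ioo (-ε) ε, Φ t z ∈ Ω ∧ HasDerivAt (fun s => Φ s z) (f (Φ t z)) t) := by
  obtain ⟨Φ, V, hΦ, hV, hKV, hVΩ, h0, -, hd, -⟩ := ODEflow.exists_flow_compact (n := ⊤)
    le_top hΩ hf (isCompact_singleton (x := z₀)) (by simpa using hz)
  have hmem : ∀ᶠ p : ℝ × F in 𝓝 (0, z₀), Φ p ∈ V := by
    refine hΦ.continuous.continuousAt.eventually ?_
    rw [h0]
    exact hV.mem_nhds (hKV rfl)
  rw [nhds_prod_eq, eventually_prod_iff] at hmem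
  obtain ⟨pa, ha, pb, hb, hab⟩ := hmem
  obtain ⟨ε, hε, hε'⟩ := Metric.eventually_nhds_iff_ball.1 ha
  obtain ⟨W, hW1, hW2, hW3⟩ := eventually_nhds_iff.1 (hb.and (hV.mem_nhds (hKV (mem_singleton z₀))))
  have hball : ∀ t ∈ Ioo (-ε) ε, pa t := fun t ht => hε' t (by
    rw [Real.ball_eq_Ioo]; simpa using ht)
  refine ⟨ε, W, fun t z => Φ (t, z), hε, hW2, hW3, fun z hz => hVΩ (hW1 z hz).2,
    hΦ.contDiffOn, fun z _ => h0 z, fun z hz t ht => ?_⟩
  have := hab (hball t ht) (hW1 z hz).1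
  exact ⟨hVΩ this, hd t z this⟩

end Amb
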