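import Pool.Agent.Amb.L1
import Pool.Agent.Amb.Ode

set_option maxSynthPendingDepth 3
set_option linter.unusedSectionVars false

namespace Amb

open Set Metric
open scoped ContDiff Topology

variable {E : Type*} [NormedAddCommGroup E] [InnerProductSpace ℝ E] [FiniteDimensional ℝ E]
variable {U V W : Set E} {g h : E → E →L[ℝ] E →L[ℝ] ℝ}

/-- A horizontal curve of frames keeps its scalar products. -/
theorem frame_isom (hg : IsMet U g) {p : ℝ → E × (E →L[ℝ] E)} {a : ℝ → E} {t₀ t₁ : ℝ}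
    {I : Set ℝ} (hI : IsPreconnected I) (ho : IsOpen I) (h₀ : t₀ ∈ I) (h₁ : t₁ ∈ I)
    (hp : ∀ t ∈ I, (p t).1 ∈ U ∧ HasDerivAt p (vel g (p t) (a t, 0)) t) (u v : E) :
    g (p t₁).1 ((p t₁).2 u) ((p t₁).2 v) = g (p t₀).1 ((p t₀).2 u) ((p t₀).2 v) := by
  have key : ∀ t ∈ I, HasDerivAt (fun t => g (p t).1 ((p t).2 u) ((p t).2 v)) 0 t := by
    intro t ht
    obtain ⟨hU, hd⟩ := hp t ht
    have e : vel g (p t) (a t, 0) =
        ((p t).2 (a t), - (Gam g (p t).1 ((p t).2 (a t))) ∘L (p t).2) := by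
      have := vel_apply g (p t).1 (p t).2 (a t) 0
      simpa using this
    rw [e] at hd
    have h1 : HasDerivAt (fun t => (p t).1) ((p t).2 (a t)) t := hd.fst
    have h2 : HasDerivAt (fun t => (p t).2) (- (Gam g (p t).1 ((p t).2 (a t))) ∘L (p t).2) t :=
      hd.snd
    have hgd : DifferentiableAt ℝ g (p t).1 :=
      (hg.smooth.contDiffAt (hg.isOpen.mem_nhds hU)).differentiableAt (by simp)
    have h3 : HasDerivAt (fun t => g (p t).1) (fderiv ℝ g (p t).1 ((p t).2 (a t))) t :=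
      hgd.hasFDerivAt.comp_hasDerivAt t h1
    have hu := h2.clm_apply (hasDerivAt_const t u)
    have hv := h2.clm_apply (hasDerivAt_const t v)
    have h4 := (h3.clm_apply hu).clm_apply hv
    have e2 := hg.compat hU ((p t).2 (a t)) ((p t).2 u) ((p t).2 v)
    refine h4.congr_deriv ?_
    simp only [add_apply, neg_apply,
      ContinuousLinearMap.comp_apply, map_zero, add_zero, map_neg]
    rw [e2]
    ring
  exact ho.is_const_of_deriv_eq_zero hI (fun t ht => (key t ht).differentiableAt.differentiableWithinAt)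
    (fun t ht => (key t ht).deriv) h₁ h₀


/-- the geodesic-frame field with parameter: the state is `((x, Y), v)`. -/
noncomputable def gfield (g : E → E →L[ℝ] E →L[ℝ] ℝ) (z : (E × (E →L[ℝ] E)) × E) :
    (E × (E →L[ℝ] E)) × E :=
  (vel g z.1 (z.2, 0), 0)

theorem gfield_smooth (hg : IsMet U g) :
    ContDiffOn ℝ ∞ (gfield g) {z : (E × (E →L[ℝ] E)) × E | z.1.1 ∈ U} := by
  have e : gfield g = fun z : (E × (E →L[ℝ] E)) × E =>
      ((z.1.2 z.2, - ((Gam g z.1.1 (z.1.2 z.2)) ∘L z.1.2)), 0) := by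
    funext z
    have := vel_apply g z.1.1 z.1.2 z.2 0
    simp only [ContinuousLinearMap.comp_zero, zero_sub] at this
    simp only [gfield]
    rw [← this]
  rw [e]
  have h1 : ContDiff ℝ ∞ fun z : (E × (E →L[ℝ] E)) × E => z.1.2 := by fun_prop
  have h2 : ContDiff ℝ ∞ fun z : (E × (E →L[ℝ] E)) × E => z.1.2 z.2 := h1.clm_apply contDiff_snd
  have h3 : ContDiffOn ℝ ∞ (fun z : (E × (E →L[ℝ] E)) × E => Gam g z.1.1)
      {z : (E × (E →L[ℝ] E)) × E | z.1.1 ∈ U} :=
    hg.Gam_smooth.comp (contDiff_fst.fst.contDiffOn) (fun z hz => hz)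
  have h4 := (h3.clm_apply h2.contDiffOn).clm_comp h1.contDiffOn
  exact (h2.contDiffOn.prodMk h4.neg).prodMk contDiffOn_const

theorem exists_locFlow (hg : IsMet U g) {x₀ : E} (hx : x₀ ∈ U) :
    ∃ r F, LocFlow U g x₀ r F := by
  set Ω : Set ((E × (E →L[ℝ] E)) × E) := {z | z.1.1 ∈ U} with hΩdef
  have hΩ : IsOpen Ω := hg.isOpen.preimage (continuous_fst.comp continuous_fst)
  obtain ⟨ε, W, Φ, hε, hW, h0W, hWΩ, hΦ, hΦ0, hΦd⟩ := exists_smooth_flow hΩ (gfield_smooth hg)
    (z₀ := ((x₀, ContinuousLinearMap.id ℝ E), (0 : E))) hx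
  -- the parameter is constant
  have hpar : ∀ z ∈ W, ∀ t ∈ Ioo (-ε) ε, (Φ t z).2 = z.2 := by
    intro z hz t ht
    have hd : ∀ s ∈ Ioo (-ε) ε, HasDerivAt (fun s => (Φ s z).2) 0 s := fun s hs =>
      (hΦd z hz s hs).2.snd
    have := isOpen_Ioo.is_const_of_deriv_eq_zero isPreconnected_Ioo
      (fun s hs => (hd s hs).differentiableAt.differentiableWithinAt)
      (fun s hs => (hd s hs).deriv) ht (⟨by linarith, hε⟩ : (0:ℝ) ∈ Ioo (-ε) ε)
    rw [this, hΦ0 z hz]
  -- scaling
  have hscale : ∀ q v, (q, v) ∈ W → ∀ l : ℝ, |l| ≤ 1 → (q, l • v) ∈ W → ∀ t ∈ Ioo (-ε) ε,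
      (Φ t (q, l • v)).1 = (Φ (l * t) (q, v)).1 := by
    intro q v hqv l hl hqlv t ht
    have hlt : ∀ s ∈ Ioo (-ε) ε, l * s ∈ Ioo (-ε) ε := by
      intro s hs
      rw [mem_Ioo, ← abs_lt] at hs ⊢
      rw [abs_mul]
      calc |l| * |s| ≤ 1 * |s| := by gcongr
        _ < ε := by rwa [one_mul]
    have hz : ∀ s ∈ Ioo (-ε) ε, ((Φ (l * s) (q, v)).1, l • v) ∈ Ω ∧
        HasDerivAt (fun s => ((Φ (l * s) (q, v)).1, l • v))
          (gfield g ((Φ (l * s) (q, v)).1, l • v)) s := by
      intro s hs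
      obtain ⟨h1, h2⟩ := hΦd _ hqv _ (hlt s hs)
      refine ⟨h1, ?_⟩
      have h3 : HasDerivAt (fun s : ℝ => l * s) l s := by simpa using (hasDerivAt_id s).const_mul l
      have h4' : HasDerivAt (fun s => Φ (l * s) (q, v)) (l • gfield g (Φ (l * s) (q, v))) s :=
        h2.scomp s h3
      have h4 : HasDerivAt (fun s => (Φ (l * s) (q, v)).1) (l • gfield g (Φ (l * s) (q, v))).1 s :=
        h4'.fst
      have h5 : HasDerivAt (fun s => ((Φ (l * s) (q, v)).1, l • v))
        ((l • gfield g (Φ (l * s) (q, v))).1, (0 : E)) s := h4.prodMk (hasDerivAt_const s (l • v))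
      refine h5.congr_deriv ?_
      have e1 := hpar _ hqv _ (hlt s hs)
      simp only at e1
      simp only [gfield, Prod.smul_fst, e1]
      rw [← map_smul, Prod.smul_mk, smul_zero]
    have := ode_unique hΩ ((gfield_smooth hg).of_le (by simp)) (t₀ := 0) (a := -ε) (b := ε)
      ⟨by linarith, hε⟩ (fun s hs => hΦd _ hqlv s hs) hz
      (by rw [hΦ0 _ hqlv, mul_zero, hΦ0 _ hqv]) t ht
    rw [this]
  -- choice of the radius
  have hcont : Continuous fun p : E × E => ((p.1, ContinuousLinearMap.id ℝ E), (2 / ε) • p.2) := by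
    fun_prop
  have hnh : (fun p : E × E => ((p.1, ContinuousLinearMap.id ℝ E), (2 / ε) • p.2)) ⁻¹' W ∈
      𝓝 ((x₀, 0) : E × E) := by
    refine hcont.continuousAt.preimage_mem_nhds ?_
    simp only [smul_zero]
    exact hW.mem_nhds h0W
  obtain ⟨r, hr, hrW⟩ := Metric.mem_nhds_iff.1 hnh
  have hWmem : ∀ x ∈ ball x₀ r, ∀ v ∈ ball (0:E) r,
      ((x, ContinuousLinearMap.id ℝ E), (2 / ε) • v) ∈ W := by
    intro x hx v hv
    have : ((x, v) : E × E) ∈ ball ((x₀, 0) : E × E) r := by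
      rw [← ball_prod_same]
      exact ⟨hx, hv⟩
    exact hrW this
  have hε2 : ε / 2 ∈ Ioo (-ε) ε := ⟨by linarith, by linarith⟩
  refine ⟨r, fun x v => (Φ (ε / 2) ((x, ContinuousLinearMap.id ℝ E), (2 / ε) • v)).1, hr,
    ?_, ?_, ?_, ?_, ?_⟩
  · intro x hx
    exact hWΩ (hWmem x hx 0 (mem_ball_self hr))
  · have h1 : ContDiffOn ℝ ∞ (fun p : E × E => ((ε / 2,
        ((p.1, ContinuousLinearMap.id ℝ E), (2 / ε) • p.2)) : ℝ × (E × (E →L[ℝ] E)) × E))
        (ball x₀ r ×ˢ ball (0 : E) r) := by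
      apply ContDiff.contDiffOn
      fun_prop
    have h2 := hΦ.comp h1 (fun p hp => ⟨hε2, hWmem _ hp.1 _ hp.2⟩)
    exact h2.fst
  · intro x hx
    have h1 := hWmem x hx 0 (mem_ball_self hr)
    rw [smul_zero] at h1
    have := hscale _ _ h1 0 (by simp) (by simpa using h1) _ hε2
    simp only [smul_zero, zero_mul] at this ⊢
    rw [this, hΦ0 _ h1]
  · intro x hx v hv
    exact (hΦd _ (hWmem x hx v hv) _ hε2).1
  · intro x hx v t ht
    have hnn : 0 ≤ ‖t • v‖ := norm_nonneg _
    rcases eq_or_ne v 0 with rfl | hv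
    · simp only [smul_zero]
      have e := vel_apply g (Φ (ε / 2) ((x, ContinuousLinearMap.id ℝ E), (0:E))).1.1
        (Φ (ε / 2) ((x, ContinuousLinearMap.id ℝ E), (0:E))).1.2 0 0
      refine (hasDerivAt_const t _).congr_deriv ?_
      have : ((0 : E), (0 : E →L[ℝ] E)) = 0 := rfl
      rw [this, map_zero]
    · have hv0 : 0 < ‖v‖ := norm_pos_iff.2 hv
      set r' : ℝ := (‖t • v‖ + r) / 2 with hr'
      have hr'0 : 0 < r' := by linarith
      have hr'r : r' < r := by linarith
      have htr' : ‖t • v‖ < r' := by linarith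
      set w : E := (r' / ‖v‖) • v with hw
      have hwn : ‖w‖ = r' := by
        rw [hw, norm_smul, Real.norm_eq_abs, abs_of_pos (by positivity)]
        field_simp
      have hwW := hWmem x hx w (by rw [mem_ball_zero_iff, hwn]; exact hr'r)
      have hnear : ∀ᶠ s in 𝓝 t, ‖s • v‖ < r' := by
        have : Continuous fun s : ℝ => ‖s • v‖ := by fun_prop
        exact (this.tendsto t).eventually (gt_mem_nhds htr')
      have hev : (fun s : ℝ => (Φ (ε / 2) ((x, ContinuousLinearMap.id ℝ E), (2 / ε) • (s • v))).1)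
          =ᶠ[𝓝 t] fun s => (Φ (s * ‖v‖ / r' * (ε / 2)) ((x, ContinuousLinearMap.id ℝ E),
            (2 / ε) • w)).1 := by
        filter_upwards [hnear] with s hs
        have e1 : (2 / ε) • (s • v) = (s * ‖v‖ / r') • ((2 / ε) • w) := by
          rw [hw, smul_smul, smul_smul, smul_smul]
          congr 1
          field_simp
        have hl : |s * ‖v‖ / r'| ≤ 1 := by
          rw [norm_smul, Real.norm_eq_abs] at hs
          rw [abs_div, abs_mul, abs_norm, abs_of_pos hr'0, div_le_one hr'0]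
          exact hs.le
        have hmem := hWmem x hx (s • v) (by
          rw [mem_ball_zero_iff]; exact hs.trans hr'r)
        rw [e1] at hmem ⊢
        exact hscale _ _ hwW _ hl hmem _ hε2
      have hlt : t * ‖v‖ / r' * (ε / 2) ∈ Ioo (-ε) ε := by
        rw [mem_Ioo, ← abs_lt, abs_mul, abs_div, abs_mul, abs_norm, abs_of_pos hr'0,
          abs_of_pos (by positivity : 0 < ε / 2)]
        have : |t| * ‖v‖ / r' < 1 := by
          rw [div_lt_one hr'0]
          rwa [norm_smul, Real.norm_eq_abs] at htr'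
        nlinarith
      have hd := (hΦd _ hwW _ hlt).2
      have h3 : HasDerivAt (fun s : ℝ => s * ‖v‖ / r' * (ε / 2)) (‖v‖ / r' * (ε / 2)) t := by
        have := (((hasDerivAt_id t).mul_const ‖v‖).div_const r').mul_const (ε / 2)
        simpa using this
      have h4' : HasDerivAt (fun s : ℝ => Φ (s * ‖v‖ / r' * (ε / 2))
          ((x, ContinuousLinearMap.id ℝ E), (2 / ε) • w)) ((‖v‖ / r' * (ε / 2)) • gfield g
            (Φ (t * ‖v‖ / r' * (ε / 2)) ((x, ContinuousLinearMap.id ℝ E), (2 / ε) • w))) t :=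
        HasDerivAt.scomp (g₁ := fun s => Φ s ((x, ContinuousLinearMap.id ℝ E), (2 / ε) • w))
          (h := fun s : ℝ => s * ‖v‖ / r' * (ε / 2)) t hd h3
      have h4 : HasDerivAt (fun s : ℝ => (Φ (s * ‖v‖ / r' * (ε / 2))
          ((x, ContinuousLinearMap.id ℝ E), (2 / ε) • w)).1) ((‖v‖ / r' * (ε / 2)) • gfield g
            (Φ (t * ‖v‖ / r' * (ε / 2)) ((x, ContinuousLinearMap.id ℝ E), (2 / ε) • w))).1 t :=
        h4'.fst
      have h5 := HasDerivAt.congr_of_eventuallyEq h4 hev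
      refine h5.congr_deriv ?_
      have e3 := hev.self_of_nhds
      simp only at e3
      have e1 := hpar _ hwW _ hlt
      simp only at e1
      simp only [gfield, Prod.smul_fst, e1, e3]
      rw [← map_smul, Prod.smul_mk, smul_zero, hw, smul_smul, smul_smul]
      congr 2
      have : ‖v‖ / r' * (ε / 2) * (2 / ε * (r' / ‖v‖)) = 1 := by field_simp
      rw [mul_assoc] at this ⊢
      rw [this, one_smul]


theorem LocFlow.mono {x₀ : E} {r r' : ℝ} {F : E → E → E × (E →L[ℝ] E)}
    (hF : LocFlow U g x₀ r F) (h0 : 0 < r') (hr : r' ≤ r) : LocFlow U g x₀ r' F where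
  r_pos := h0
  ball_sub := (ball_subset_ball hr).trans hF.ball_sub
  smooth := hF.smooth.mono (prod_mono (ball_subset_ball hr) (ball_subset_ball hr))
  zero := fun x hx => hF.zero x (ball_subset_ball hr hx)
  mem := fun x hx v hv => hF.mem x (ball_subset_ball hr hx) v (ball_subset_ball hr hv)
  ode := fun x hx v t ht => hF.ode x (ball_subset_ball hr hx) v t (ht.trans_le hr)

/-- The times at which `t • v` stays in the ball form an open interval around `[0, 1]`. -/
lemma segTimes {v : E} {r : ℝ} (hv : v ∈ ball (0 : E) r) :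
    IsOpen {t : ℝ | ‖t • v‖ < r} ∧ IsPreconnected {t : ℝ | ‖t • v‖ < r} ∧
      (0 : ℝ) ∈ {t : ℝ | ‖t • v‖ < r} ∧ (1 : ℝ) ∈ {t : ℝ | ‖t • v‖ < r} := by
  rw [mem_ball_zero_iff] at hv
  refine ⟨isOpen_lt (by fun_prop) continuous_const, ?_, ?_, ?_⟩
  · have : {t : ℝ | ‖t • v‖ < r} = (fun t : ℝ => t • v) ⁻¹' ball (0 : E) r := by
      ext t; simp
    rw [this]
    exact ((convex_ball (0 : E) r).is_linear_preimage
      (IsLinearMap.mk (fun a b => add_smul a b v) (fun a b => by simp [mul_smul]))).isPreconnected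
  · simpa using (norm_nonneg v).trans_lt hv
  · simpa using hv

/-- transport is isometric -/
theorem LocFlow.isom (hg : IsMet U g) {x₀ : E} {r : ℝ} {F : E → E → E × (E →L[ℝ] E)}
    (hF : LocFlow U g x₀ r F) {x : E} (hx : x ∈ ball x₀ r) {v : E} (hv : v ∈ ball (0 : E) r)
    (u w : E) : g (F x v).1 ((F x v).2 u) ((F x v).2 w) = g x u w := by
  obtain ⟨ho, hc, h0, h1⟩ := segTimes hv
  have := frame_isom hg (p := fun t : ℝ => F x (t • v)) (a := fun _ => v) hc ho h0 h1
    (fun t ht => ⟨hF.mem x hx _ (by rw [mem_ball_zero_iff]; exact ht), hF.ode x hx v t ht⟩) u w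
  simp only [one_smul, zero_smul, hF.zero x hx] at this
  simpa using this

/-- Gauss lemma -/
theorem LocFlow.gauss (hg : IsMet U g) {x₀ : E} {r : ℝ} {F : E → E → E × (E →L[ℝ] E)}
    (hF : LocFlow U g x₀ r F) {x : E} (hx : x ∈ ball x₀ r) {v : E} (hv : v ∈ ball (0 : E) r)
    (u : E) :
    g (F x v).1 ((F x v).2 v) (fderiv ℝ (fun w => (F x w).1) v u) = g x v u := by
  obtain ⟨ho, hc, h0, h1⟩ := segTimes hv
  set G1 : E → E := fun w => (F x w).1 with hG1def
  set P : E → E →L[ℝ] E := fun w => (F x w).2 with hPdef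
  have hGs : ContDiffOn ℝ ∞ (fun w => F x w) (ball 0 r) :=
    hF.smooth.comp (f := fun w : E => ((x, w) : E × E))
      (contDiff_const.prodMk contDiff_id).contDiffOn (fun w hw => ⟨hx, hw⟩)
  have hG1 : ∀ w ∈ ball (0 : E) r, ContDiffAt ℝ ∞ G1 w := fun w hw =>
    (hGs.contDiffAt (isOpen_ball.mem_nhds hw)).fst
  have hP : ∀ w ∈ ball (0 : E) r, DifferentiableAt ℝ P w := fun w hw =>
    ((hGs.contDiffAt (isOpen_ball.mem_nhds hw)).snd).differentiableAt (by simp)
  set A : E → E →L[ℝ] E := fderiv ℝ G1 with hAdef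
  have hA : ∀ w ∈ ball (0 : E) r, HasFDerivAt G1 (A w) w := fun w hw =>
    ((hG1 w hw).differentiableAt (by simp)).hasFDerivAt
  have hA2 : ∀ w ∈ ball (0 : E) r, DifferentiableAt ℝ A w := fun w hw =>
    ((hG1 w hw).fderiv_right (m := 1) (by norm_cast)).differentiableAt (by simp)
  have hsymm : ∀ w ∈ ball (0 : E) r, ∀ a b, fderiv ℝ A w a b = fderiv ℝ A w b a := fun w hw a b =>
    ((hG1 w hw).isSymmSndFDerivAt (by simp; norm_cast)) a b
  have hU : ∀ w ∈ ball (0 : E) r, G1 w ∈ U := fun w hw => hF.mem x hx w hw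
  -- the ODE in components
  have hode : ∀ (w : E) (t : ℝ), ‖t • w‖ < r →
      HasDerivAt (fun s : ℝ => G1 (s • w)) (P (t • w) w) t ∧
      HasDerivAt (fun s : ℝ => P (s • w))
        (- (Gam g (G1 (t • w)) (P (t • w) w)) ∘L P (t • w)) t := by
    intro w t ht
    have hd := hF.ode x hx w t ht
    have e : vel g (F x (t • w)) (w, 0) =
        (P (t • w) w, - (Gam g (G1 (t • w)) (P (t • w) w)) ∘L P (t • w)) := by
      have := vel_apply g (F x (t • w)).1 (F x (t • w)).2 w 0
      simpa using this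
    rw [e] at hd
    exact ⟨hd.fst, hd.snd⟩
  -- radial derivative
  have hrad : ∀ w ∈ ball (0 : E) r, A w w = P w w := by
    intro w hw
    have hw1 : ‖(1 : ℝ) • w‖ < r := by rw [one_smul]; simpa using hw
    have h2 := (hode w 1 hw1).1
    have h3 : HasDerivAt (fun s : ℝ => s • w) w 1 := by
      simpa using (hasDerivAt_id (1 : ℝ)).smul_const w
    have h4 : HasFDerivAt G1 (A w) ((1 : ℝ) • w) := by rw [one_smul]; exact hA w hw
    have h5 := h4.comp_hasDerivAt 1 h3
    have h6 := h5.unique h2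
    rwa [one_smul] at h6
  -- derivatives along lines
  have hline : ∀ w a : E, HasDerivAt (fun t : ℝ => w + t • a) a 0 := by
    intro w a
    simpa using ((hasDerivAt_id (0 : ℝ)).smul_const a).const_add w
  have hmemline : ∀ w ∈ ball (0 : E) r, ∀ a : E, ∀ᶠ t : ℝ in 𝓝 0, w + t • a ∈ ball (0 : E) r := by
    intro w hw a
    have hcont : Continuous fun t : ℝ => w + t • a := by fun_prop
    refine hcont.continuousAt.preimage_mem_nhds (isOpen_ball.mem_nhds ?_)
    simpa using hw
  have hAl : ∀ w ∈ ball (0 : E) r, ∀ a : E,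
      HasDerivAt (fun t : ℝ => A (w + t • a)) (fderiv ℝ A w a) 0 := by
    intro w hw a
    have h4 : HasFDerivAt A (fderiv ℝ A w) (w + (0 : ℝ) • a) := by
      rw [zero_smul, add_zero]; exact (hA2 w hw).hasFDerivAt
    exact h4.comp_hasDerivAt 0 (hline w a)
  have hPl : ∀ w ∈ ball (0 : E) r, ∀ a : E,
      HasDerivAt (fun t : ℝ => P (w + t • a)) (fderiv ℝ P w a) 0 := by
    intro w hw a
    have h4 : HasFDerivAt P (fderiv ℝ P w) (w + (0 : ℝ) • a) := by
      rw [zero_smul, add_zero]; exact (hP w hw).hasFDerivAt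
    exact h4.comp_hasDerivAt 0 (hline w a)
  have hGl : ∀ w ∈ ball (0 : E) r, ∀ a : E,
      HasDerivAt (fun t : ℝ => G1 (w + t • a)) (A w a) 0 := by
    intro w hw a
    have h4 : HasFDerivAt G1 (A w) (w + (0 : ℝ) • a) := by
      rw [zero_smul, add_zero]; exact hA w hw
    exact h4.comp_hasDerivAt 0 (hline w a)
  -- derivative of the radial identity
  have hrad2 : ∀ w ∈ ball (0 : E) r, ∀ a : E,
      fderiv ℝ A w a w + A w a = fderiv ℝ P w a w + P w a := by
    intro w hw a
    have e1 := (hAl w hw a).clm_apply (hline w a)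
    have e2 := (hPl w hw a).clm_apply (hline w a)
    have e3 : (fun t : ℝ => A (w + t • a) (w + t • a)) =ᶠ[𝓝 0]
        fun t : ℝ => P (w + t • a) (w + t • a) := by
      filter_upwards [hmemline w hw a] with t ht using hrad _ ht
    have e4 := (e2.congr_of_eventuallyEq e3).unique e1
    simp only [zero_smul, add_zero] at e4
    exact e4.symm
  -- derivative of the isometry identity
  have hgd : ∀ y ∈ U, HasFDerivAt g (fderiv ℝ g y) y := fun y hy =>
    ((hg.smooth.contDiffAt (hg.isOpen.mem_nhds hy)).differentiableAt (by simp)).hasFDerivAt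
  have hiso : ∀ w ∈ ball (0 : E) r, ∀ a : E,
      g (G1 w) (P w v) (fderiv ℝ P w a v) = - g (G1 w) (P w v) (Gam g (G1 w) (A w a) (P w v)) := by
    intro w hw a
    have e0 : HasFDerivAt g (fderiv ℝ g (G1 w)) (G1 (w + (0 : ℝ) • a)) := by
      rw [zero_smul, add_zero]; exact hgd _ (hU w hw)
    have e1 : HasDerivAt (fun t : ℝ => g (G1 (w + t • a))) (fderiv ℝ g (G1 w) (A w a)) 0 :=
      e0.comp_hasDerivAt 0 (hGl w hw a)
    have e2 := (hPl w hw a).clm_apply (hasDerivAt_const (0 : ℝ) v)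
    have e3 := (e1.clm_apply e2).clm_apply e2
    have e4 : (fun t : ℝ => g (G1 (w + t • a)) (P (w + t • a) v) (P (w + t • a) v)) =ᶠ[𝓝 0]
        fun _ => g x v v := by
      filter_upwards [hmemline w hw a] with t ht using hF.isom hg hx ht v v
    have e5 := ((hasDerivAt_const (0 : ℝ) (g x v v)).congr_of_eventuallyEq e4).unique e3
    simp only [zero_smul, add_zero, map_zero, add_apply] at e5
    rw [hg.compat (hU w hw)] at e5
    have s1 := hg.symm _ (hU w hw) (Gam g (G1 w) (A w a) (P w v)) (P w v)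
    have s2 := hg.symm _ (hU w hw) (fderiv ℝ P w a v) (P w v)
    linarith
  -- the main derivative
  have key : ∀ s ∈ {t : ℝ | ‖t • v‖ < r},
      HasDerivAt (fun s : ℝ => g (G1 (s • v)) (P (s • v) v) (A (s • v) (s • u)) - s * g x v u)
        0 s := by
    intro s hs
    have hw : s • v ∈ ball (0 : E) r := by rw [mem_ball_zero_iff]; exact hs
    obtain ⟨d1, d2⟩ := hode v s hs
    have d3 : HasDerivAt (fun s : ℝ => g (G1 (s • v))) (fderiv ℝ g (G1 (s • v)) (P (s • v) v)) s :=
      (hgd _ (hU _ hw)).comp_hasDerivAt s d1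
    have d4 := d2.clm_apply (hasDerivAt_const s v)
    have d5 : HasDerivAt (fun s : ℝ => s • v) v s := by
      simpa using (hasDerivAt_id s).smul_const v
    have d5' : HasDerivAt (fun s : ℝ => s • u) u s := by
      simpa using (hasDerivAt_id s).smul_const u
    have d6 : HasDerivAt (fun s : ℝ => A (s • v)) (fderiv ℝ A (s • v) v) s :=
      (hA2 _ hw).hasFDerivAt.comp_hasDerivAt s d5
    have d7 := d6.clm_apply d5'
    have d8 := ((d3.clm_apply d4).clm_apply d7).sub ((hasDerivAt_id s).mul_const (g x v u))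
    refine d8.congr_deriv ?_
    simp only [map_zero, add_zero, add_apply, neg_apply, ContinuousLinearMap.comp_apply]
    rw [hg.compat (hU _ hw)]
    have r1 := hrad2 _ hw u
    have r2 := hiso _ hw u
    have r3 := hsymm _ hw v u
    have r4 := hg.Gam_symm (hU _ hw) (P (s • v) v) (A (s • v) u)
    have r5 := hF.isom hg hx hw v u
    simp only [map_smul, map_neg, neg_apply, smul_eq_mul] at r1 ⊢
    have r6 : s • fderiv ℝ A (s • v) v u + A (s • v) u =
        s • fderiv ℝ P (s • v) u v + P (s • v) u := by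
      rw [r3]; exact r1
    rw [r6, r4]
    simp only [map_add, map_smul, smul_eq_mul]
    rw [r2]
    change _ + _ + (_ + g (F x (s • v)).1 ((F x (s • v)).2 v) ((F x (s • v)).2 u)) - _ = _
    rw [r5]
    ring
  have hconst := ho.is_const_of_deriv_eq_zero hc
    (fun s hs => (key s hs).differentiableAt.differentiableWithinAt)
    (fun s hs => (key s hs).deriv) h1 h0
  simp only [zero_smul, one_smul, map_zero, one_mul, zero_mul, sub_zero] at hconst
  linarith

end Amb
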