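import Pool.Agent.Amb.M1a
import Pool.Agent.Amb.M1b
import Pool.Agent.Amb.L3

/-!
# M4a: solutions with constant control: length bound, uniqueness, existence
-/

set_option maxSynthPendingDepth 3
set_option linter.unusedSectionVars false

namespace Amb

open Set Metric
open scoped ContDiff Topology

variable {E : Type*} [NormedAddCommGroup E] [InnerProductSpace ℝ E] [FiniteDimensional ℝ E]
variable {M : Type*} [MetricSpace M] (G : GMfd E M)

/-- a metric is bounded below near every point -/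
theorem IsMet.exists_lower_bd {U : Set E} {g : E → E →L[ℝ] E →L[ℝ] ℝ} (hg : IsMet U g) {x₀ : E}
    (hx : x₀ ∈ U) : ∃ c > 0, ∀ᶠ x in 𝓝 x₀, ∀ u, c * ‖u‖ ^ 2 ≤ g x u u := by
  obtain ⟨c, hc, hcb⟩ : ∃ c > 0, ∀ u, c * ‖u‖ ^ 2 ≤ g x₀ u u := by
    have hcomp : IsCompact (sphere (0 : E) 1) := isCompact_sphere 0 1
    by_cases hne : (sphere (0 : E) 1).Nonempty
    · have hcont : ContinuousOn (fun u => g x₀ u u) (sphere (0 : E) 1) := by fun_prop
      obtain ⟨u0, hu0, hmin⟩ := hcomp.exists_isMinOn hne hcont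
      have hu0' : u0 ≠ 0 := by rintro rfl; simp at hu0
      refine ⟨g x₀ u0 u0, hg.pos x₀ hx u0 hu0', fun u => ?_⟩
      rcases eq_or_ne u 0 with rfl | hu
      · simp
      · have hn : 0 < ‖u‖ := norm_pos_iff.2 hu
        have hmem : ‖u‖⁻¹ • u ∈ sphere (0 : E) 1 := by simp [norm_smul, hn.ne']
        have h1 : g x₀ u0 u0 ≤ g x₀ (‖u‖⁻¹ • u) (‖u‖⁻¹ • u) := hmin hmem
        have h2 : g x₀ (‖u‖⁻¹ • u) (‖u‖⁻¹ • u) = ‖u‖⁻¹ * (‖u‖⁻¹ * g x₀ u u) := by
          simp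
        rw [h2] at h1
        calc g x₀ u0 u0 * ‖u‖ ^ 2 ≤ ‖u‖⁻¹ * (‖u‖⁻¹ * g x₀ u u) * ‖u‖ ^ 2 := by gcongr
          _ = g x₀ u u := by field_simp
    · refine ⟨1, one_pos, fun u => ?_⟩
      have : u = 0 := by_contra fun hu => hne ⟨‖u‖⁻¹ • u, by simp [norm_smul, hu]⟩
      simp [this]
  refine ⟨c / 2, by positivity, ?_⟩
  have hcg : ContinuousAt g x₀ := (hg.smooth.contDiffAt (hg.isOpen.mem_nhds hx)).continuousAt
  have h1 : ∀ᶠ x in 𝓝 x₀, ‖g x - g x₀‖ < c / 2 := by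
    have := Metric.continuousAt_iff'.1 hcg (c / 2) (by positivity)
    simpa [dist_eq_norm] using this
  filter_upwards [h1] with x hx u
  have h2 : |(g x - g x₀) u u| ≤ ‖g x - g x₀‖ * ‖u‖ * ‖u‖ := by
    have := (g x - g x₀).le_opNorm₂ u u
    simpa using this
  have h3 : (g x - g x₀) u u = g x u u - g x₀ u u := by simp
  have h4 : ‖g x - g x₀‖ * ‖u‖ * ‖u‖ ≤ c / 2 * ‖u‖ * ‖u‖ := by gcongr
  have h5 := (abs_le.1 h2).1
  rw [h3] at h5
  have := hcb u
  nlinarith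

namespace GMfd

/-- Curves of orthonormal frames in a chart are curves of frames. -/
theorem exists_lift {q : M} {I : Set ℝ} (hI : IsOpen I) {p : ℝ → E × (E →L[ℝ] E)}
    (hp : ∀ t ∈ I, (p t).1 ∈ G.tgt q ∧
      ∀ u v, G.g q (p t).1 ((p t).2 u) ((p t).2 v) = inner ℝ u v) (f₀ : G.Fr) :
    ∃ f : ℝ → G.Fr, (∀ t ∈ I, (f t).m = G.ψ q (p t).1 ∧ G.cd q (f t) = p t ∧ (f t).m ∈ G.src q) ∧
      ∀ t ∈ I, ∀ θ κ, HasDerivAt p (vel (G.g q) (p t) (θ, κ)) t → G.HasVel f θ κ t := by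
  classical
  have h1 : ∀ t : ℝ, ∃ f : G.Fr, t ∈ I → f.m = G.ψ q (p t).1 ∧ G.cd q f = p t := by
    intro t
    by_cases ht : t ∈ I
    · obtain ⟨f, hf1, hf2⟩ := G.exists_fr_of_cd (hp t ht).1 (hp t ht).2
      exact ⟨f, fun _ => ⟨hf1, hf2⟩⟩
    · exact ⟨f₀, fun h => absurd h ht⟩
  choose f hf using h1
  have hsrc : ∀ t ∈ I, (f t).m ∈ G.src q := fun t ht => by
    rw [(hf t ht).1]; exact G.map_tgt q _ (hp t ht).1
  refine ⟨f, fun t ht => ⟨(hf t ht).1, (hf t ht).2, hsrc t ht⟩, fun t ht θ κ hd => ?_⟩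
  have hev : ∀ᶠ s in 𝓝 t, s ∈ I := hI.mem_nhds ht
  refine hasVel_of_chart (q := q) ?_ (hsrc t ht) ?_
  · have hc1 : ContinuousAt (G.ψ q) (p t).1 :=
      (G.cont_ψ q).continuousAt ((G.met q).isOpen.mem_nhds (hp t ht).1)
    have hc2 : ContinuousAt (fun s => (p s).1) t := continuousAt_fst.comp hd.continuousAt
    have hc3 : ContinuousAt (fun s => G.ψ q (p s).1) t := ContinuousAt.comp (f := fun s => (p s).1) hc1 hc2
    refine hc3.congr ?_
    filter_upwards [hev] with s hs using (hf s hs).1.symm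
  · rw [(hf t ht).2]
    refine hd.congr_of_eventuallyEq ?_
    filter_upwards [hev] with s hs using (hf s hs).2

/-- The frame field with constant control is smooth. -/
theorem ctrl_smooth (q : M) (ξ : E) :
    ContDiffOn ℝ ∞ (fun z : E × (E →L[ℝ] E) => vel (G.g q) z (ξ, 0)) {z | z.1 ∈ G.tgt q} := by
  have h1 := gfield_smooth (G.met q)
  have h2 : ContDiffOn ℝ ∞ (fun z : E × (E →L[ℝ] E) => ((z, ξ) : (E × (E →L[ℝ] E)) × E))
      {z | z.1 ∈ G.tgt q} := (contDiff_id.prodMk contDiff_const).contDiffOn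
  exact (h1.comp h2 (fun z hz => hz)).fst

variable {G} in
/-- local uniqueness of solutions with constant control -/
theorem sol_unique {f f' : ℝ → G.Fr} {ξ : E} {a b t₀ : ℝ} (ht₀ : t₀ ∈ Ioo a b)
    (hf : ∀ t ∈ Ioo a b, G.HasVel f ξ 0 t) (hf' : ∀ t ∈ Ioo a b, G.HasVel f' ξ 0 t)
    (h0 : f t₀ = f' t₀) : ∀ t ∈ Ioo a b, f t = f' t := by
  have hloc : ∀ t ∈ Ioo a b, f t = f' t → f =ᶠ[𝓝 t] f' := by
    intro t ht hff
    set q := (f t).m with hq
    have hqs : (f t).m ∈ G.src q := G.mem_src _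
    have hqs' : (f' t).m ∈ G.src q := by rw [← hff]; exact hqs
    have e1 : ∀ᶠ s in 𝓝 t, (f s).m ∈ G.src q := (hf t ht).1.eventually ((G.src_open q).mem_nhds hqs)
    have e2 : ∀ᶠ s in 𝓝 t, (f' s).m ∈ G.src q :=
      (hf' t ht).1.eventually ((G.src_open q).mem_nhds hqs')
    have e3 : ∀ᶠ s in 𝓝 t, s ∈ Ioo a b := isOpen_Ioo.mem_nhds ht
    obtain ⟨ε, hε, hball⟩ := Metric.eventually_nhds_iff_ball.1 (e1.and (e2.and e3))
    rw [Real.ball_eq_Ioo] at hball
    have hΩ : IsOpen {z : E × (E →L[ℝ] E) | z.1 ∈ G.tgt q} :=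
      (G.met q).isOpen.preimage continuous_fst
    have key := ode_unique hΩ ((G.ctrl_smooth q ξ).of_le (by norm_cast)) (a := t - ε) (b := t + ε)
      (t₀ := t) ⟨by linarith, by linarith⟩ (y := fun s => G.cd q (f s)) (z := fun s => G.cd q (f' s))
      (fun s hs => ⟨G.map_src q _ (hball s hs).1, (hf s (hball s hs).2.2).2 q (hball s hs).1⟩)
      (fun s hs => ⟨G.map_src q _ (hball s hs).2.1, (hf' s (hball s hs).2.2).2 q (hball s hs).2.1⟩)
      (by simp only [hff])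
    filter_upwards [isOpen_Ioo.mem_nhds (show t ∈ Ioo (t - ε) (t + ε) from
      ⟨by linarith, by linarith⟩)] with s hs
    exact cd_inj (hball s hs).1 (hball s hs).2.1 (key s hs)
  have hsub : Ioo a b ⊆ {t | f =ᶠ[𝓝 t] f'} := by
    refine isPreconnected_Ioo.subset_of_closure_inter_subset ?_ ⟨t₀, ht₀, hloc t₀ ht₀ h0⟩ ?_
    · rw [isOpen_iff_mem_nhds]
      intro t ht
      exact eventually_eventually_nhds.2 ht
    · rintro t ⟨ht1, ht2⟩
      refine hloc t ht2 ?_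
      rw [mem_closure_iff_frequently] at ht1
      have hm : (f t).m = (f' t).m :=
        tendsto_nhds_unique_of_frequently_eq (hf t ht2).1.tendsto (hf' t ht2).1.tendsto
          (ht1.mono fun r hr => by rw [hr.self_of_nhds])
      have hqs : (f t).m ∈ G.src (f t).m := G.mem_src _
      have hqs' : (f' t).m ∈ G.src (f t).m := by rw [← hm]; exact hqs
      refine cd_inj hqs hqs' ?_
      exact tendsto_nhds_unique_of_frequently_eq
        ((hf t ht2).2 _ hqs).continuousAt.tendsto ((hf' t ht2).2 _ hqs').continuousAt.tendsto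
        (ht1.mono fun r hr => by simp only [hr.self_of_nhds])
  exact fun t ht => (hsub ht).self_of_nhds


variable {G} in
theorem HasVel.fst_deriv {f : ℝ → G.Fr} {θ : E} {κ : E →L[ℝ] E} {t : ℝ} (h : G.HasVel f θ κ t)
    {q : M} (hq : (f t).m ∈ G.src q) :
    HasDerivAt (fun s => G.φ q (f s).m) ((G.cd q (f t)).2 θ) t := by
  have h1 := h.2 q hq
  have e : vel (G.g q) (G.cd q (f t)) (θ, κ) = ((G.cd q (f t)).2 θ,
      (G.cd q (f t)).2 ∘L κ - (Gam (G.g q) (G.cd q (f t)).1 ((G.cd q (f t)).2 θ)) ∘L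
        (G.cd q (f t)).2) := vel_apply _ _ _ _ _
  rw [e] at h1
  exact h1.fst

variable {G} in
/-- length bound inside one chart -/
theorem dist_le_chart {f : ℝ → G.Fr} {θ : ℝ → E} {κ : ℝ → E →L[ℝ] E} {a b B : ℝ}
    (hab : a ≤ b) (h : ∀ t ∈ Icc a b, G.HasVel f (θ t) (κ t) t)
    (hθ : ContinuousOn θ (Icc a b)) (hB : ∀ t ∈ Icc a b, ‖θ t‖ ≤ B) {q : M}
    (hsrc : ∀ t ∈ Icc a b, (f t).m ∈ G.src q) :
    dist (f a).m (f b).m ≤ B * (b - a) := by
  have hba : 0 ≤ b - a := by linarith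
  have hmem : ∀ u ∈ Icc (0 : ℝ) 1, a + u * (b - a) ∈ Icc a b := by
    intro u hu
    constructor
    · nlinarith [hu.1]
    · nlinarith [hu.2]
  have haff : ∀ u : ℝ, HasDerivAt (fun u : ℝ => a + u * (b - a)) (b - a) u := by
    intro u
    simpa using ((hasDerivAt_id u).mul_const (b - a)).const_add a
  have hcaff : ContinuousOn (fun u : ℝ => a + u * (b - a)) (Icc 0 1) := by fun_prop
  set c : ℝ → E := fun u => G.φ q (f (a + u * (b - a))).m with hc
  set c' : ℝ → E := fun u => (b - a) • (G.cd q (f (a + u * (b - a)))).2 (θ (a + u * (b - a)))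
    with hc'
  have hC1 : C1 c c' := by
    constructor
    · intro u hu
      have h1 := (h _ (hmem u hu)).fst_deriv (hsrc _ (hmem u hu))
      have h2 : HasDerivAt c (c' u) u :=
        HasDerivAt.scomp (g₁ := fun s => G.φ q (f s).m) (h := fun u : ℝ => a + u * (b - a)) u h1
          (haff u)
      exact h2.hasDerivWithinAt
    · have h3 : ContinuousOn (fun t => G.cd q (f t)) (Icc a b) := fun t ht =>
        ((h t ht).2 q (hsrc t ht)).continuousAt.continuousWithinAt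
      have h4 : ContinuousOn (fun t => (G.cd q (f t)).2 (θ t)) (Icc a b) :=
        (continuous_snd.comp_continuousOn h3).clm_apply hθ
      exact (h4.comp hcaff hmem).const_smul (b - a)
  have hct : ∀ u ∈ Icc (0 : ℝ) 1, c u ∈ G.tgt q := fun u hu => G.map_src q _ (hsrc _ (hmem u hu))
  have hd := G.dist_le q c c' hC1 hct
  have e0 : G.ψ q (c 0) = (f a).m := by
    simp only [hc, zero_mul, add_zero]
    exact G.left_inv q _ (hsrc a (left_mem_Icc.2 hab))
  have e1 : G.ψ q (c 1) = (f b).m := by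
    simp only [hc, one_mul, add_sub_cancel]
    exact G.left_inv q _ (hsrc b (right_mem_Icc.2 hab))
  rw [e0, e1] at hd
  refine hd.trans ?_
  have hB0 : ∀ u ∈ Icc (0 : ℝ) 1, gnorm (G.g q) (c u) (c' u) ≤ B * (b - a) := by
    intro u hu
    have h5 : G.g q (c u) (c' u) (c' u) = ((b - a) * ‖θ (a + u * (b - a))‖) ^ 2 := by
      have h6 := cd_isom (hsrc _ (hmem u hu)) (θ (a + u * (b - a))) (θ (a + u * (b - a)))
      have h7 : (G.cd q (f (a + u * (b - a)))).1 = c u := rfl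
      rw [h7, real_inner_self_eq_norm_sq] at h6
      simp only [hc', map_smul, smul_apply, smul_eq_mul]
      rw [h6]
      ring
    rw [gnorm, h5, Real.sqrt_sq (by positivity), mul_comm]
    exact mul_le_mul_of_nonneg_right (hB _ (hmem u hu)) hba
  have h8 : ‖glen (G.g q) c c'‖ ≤ B * (b - a) * |1 - 0| := by
    refine intervalIntegral.norm_integral_le_of_norm_le_const fun u hu => ?_
    rw [uIoc_of_le zero_le_one] at hu
    rw [Real.norm_eq_abs, gnorm, abs_of_nonneg (Real.sqrt_nonneg _)]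
    exact hB0 u ⟨hu.1.le, hu.2⟩
  rw [sub_zero, abs_one, mul_one] at h8
  exact (le_abs_self _).trans h8

variable {G} in
/-- a curve of frames moves at most with the speed `‖θ‖` -/
theorem dist_le_of_hasVel {f : ℝ → G.Fr} {θ : ℝ → E} {κ : ℝ → E →L[ℝ] E} {a b B : ℝ}
    (hab : a ≤ b) (h : ∀ t ∈ Icc a b, G.HasVel f (θ t) (κ t) t)
    (hθ : ContinuousOn θ (Icc a b)) (hB : ∀ t ∈ Icc a b, ‖θ t‖ ≤ B) :
    dist (f a).m (f b).m ≤ B * (b - a) := by
  set S : Set ℝ := {t | dist (f a).m (f t).m ≤ B * (t - a)} with hS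
  have hcm : ContinuousOn (fun t => (f t).m) (Icc a b) := fun t ht =>
    (h t ht).1.continuousWithinAt
  have hclosed : IsClosed (S ∩ Icc a b) := by
    have h1 : ContinuousOn (fun t => B * (t - a) - dist (f a).m (f t).m) (Icc a b) :=
      (by fun_prop : Continuous fun t : ℝ => B * (t - a)).continuousOn.sub
        ((continuous_const.dist continuous_id).comp_continuousOn hcm)
    have h2 := h1.preimage_isClosed_of_isClosed isClosed_Icc (isClosed_Ici (a := (0 : ℝ)))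
    have h3 : S ∩ Icc a b = Icc a b ∩ (fun t => B * (t - a) - dist (f a).m (f t).m) ⁻¹' Ici 0 := by
      ext t
      simp only [hS, mem_inter_iff, mem_ofPred_eq, mem_preimage, mem_Ici, sub_nonneg]
      tauto
    rw [h3]
    exact h2
  have key : Icc a b ⊆ S := by
    refine hclosed.Icc_subset_of_forall_exists_gt (by simp [hS]) ?_
    rintro x ⟨hxS, hx⟩ y hy
    have hxI : x ∈ Icc a b := ⟨hx.1, hx.2.le⟩
    have hev : ∀ᶠ s in 𝓝 x, (f s).m ∈ G.src (f x).m :=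
      (h x hxI).1.eventually ((G.src_open _).mem_nhds (G.mem_src _))
    obtain ⟨ε, hε, hball⟩ := Metric.eventually_nhds_iff_ball.1 hev
    rw [Real.ball_eq_Ioo] at hball
    set z := min (min y b) (x + ε / 2) with hz
    have hxy : x < y := hy
    have hxz : x < z := lt_min (lt_min hxy hx.2) (by linarith)
    have hzb : z ≤ b := (min_le_left _ _).trans (min_le_right _ _)
    have hzy : z ≤ y := (min_le_left _ _).trans (min_le_left _ _)
    have hze : z ≤ x + ε / 2 := min_le_right _ _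
    have hsub : Icc x z ⊆ Icc a b := fun t ht => ⟨hx.1.trans ht.1, ht.2.trans hzb⟩
    have h1 := dist_le_chart (q := (f x).m) hxz.le (fun t ht => h t (hsub ht)) (hθ.mono hsub)
      (fun t ht => hB t (hsub ht)) (fun t ht => hball t ⟨by linarith [ht.1], by linarith [ht.2]⟩)
    refine ⟨z, ?_, hxz, hzy⟩
    have h2 : dist (f a).m (f x).m ≤ B * (x - a) := hxS
    have h3 := dist_triangle (f a).m (f x).m (f z).m
    change dist (f a).m (f z).m ≤ B * (z - a)
    linarith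
  exact key (right_mem_Icc.2 hab)


/-- Local existence, uniform near every point. -/
theorem exists_sol_near (q : M) (ξ : E) : ∃ ε > 0, ∃ V ∈ 𝓝 q, ∀ f₁ : G.Fr, f₁.m ∈ V →
    ∃ f : ℝ → G.Fr, f 0 = f₁ ∧ ∀ t ∈ Ioo (-ε) ε, G.HasVel f ξ 0 t := by
  classical
  have hx₀ : G.φ q q ∈ G.tgt q := G.map_src q q (G.mem_src q)
  obtain ⟨r, F, hF⟩ := exists_locFlow (G.met q) hx₀
  obtain ⟨c, hc, hlow⟩ := (G.met q).exists_lower_bd hx₀
  have hV : ∀ᶠ m in 𝓝 q, m ∈ G.src q ∧ (G.φ q m ∈ ball (G.φ q q) r ∧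
      ∀ u, c * ‖u‖ ^ 2 ≤ G.g q (G.φ q m) u u) := by
    have h1 : ∀ᶠ m in 𝓝 q, m ∈ G.src q := (G.src_open q).mem_nhds (G.mem_src q)
    have h2 : ContinuousAt (G.φ q) q := (G.cont_φ q).continuousAt h1
    exact h1.and ((h2.eventually (isOpen_ball.mem_nhds (mem_ball_self hF.r_pos))).and
      (h2.eventually hlow))
  set K : ℝ := ‖ξ‖ / √c + 1 with hK
  have hK0 : 0 < K := by positivity
  refine ⟨r / K, div_pos hF.r_pos hK0, _, hV, fun f₁ hf₁ => ?_⟩
  obtain ⟨hs, hb, hl⟩ := hf₁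
  set x := G.φ q f₁.m with hx
  set Y := (G.cd q f₁).2 with hY
  have hcd : G.cd q f₁ = (x, Y) := rfl
  have hiso : ∀ u v, G.g q x (Y u) (Y v) = inner ℝ u v := fun u v => cd_isom hs u v
  have hYξ : ‖Y ξ‖ < K := by
    have h1 := hl (Y ξ)
    rw [hiso, real_inner_self_eq_norm_sq] at h1
    have h2 : (√c * ‖Y ξ‖) ^ 2 ≤ ‖ξ‖ ^ 2 := by
      rw [mul_pow, Real.sq_sqrt hc.le]; exact h1
    have h3 : √c * ‖Y ξ‖ ≤ ‖ξ‖ := by
      exact (sq_le_sq₀ (by positivity) (norm_nonneg _)).1 h2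
    have h4 : ‖Y ξ‖ ≤ ‖ξ‖ / √c := by
      rw [le_div_iff₀ (Real.sqrt_pos.2 hc), mul_comm]; exact h3
    linarith
  have hball : ∀ t ∈ Ioo (-(r / K)) (r / K), ‖t • Y ξ‖ < r := by
    intro t ht
    rw [mem_Ioo, ← abs_lt] at ht
    rw [norm_smul, Real.norm_eq_abs]
    calc |t| * ‖Y ξ‖ ≤ |t| * K := by gcongr
      _ < r / K * K := by gcongr
      _ = r := by field_simp
  set p : ℝ → E × (E →L[ℝ] E) := fun t => ((F x (t • Y ξ)).1, (F x (t • Y ξ)).2 ∘L Y) with hp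
  have hpt : ∀ t ∈ Ioo (-(r / K)) (r / K), (p t).1 ∈ G.tgt q ∧
      ∀ u v, G.g q (p t).1 ((p t).2 u) ((p t).2 v) = inner ℝ u v := by
    intro t ht
    have hm : t • Y ξ ∈ ball (0 : E) r := by rw [mem_ball_zero_iff]; exact hball t ht
    refine ⟨hF.mem x hb _ hm, fun u v => ?_⟩
    have := hF.isom (G.met q) hb hm (Y u) (Y v)
    simp only [hp, ContinuousLinearMap.comp_apply]
    rw [this, hiso]
  obtain ⟨f, hf1, hf2⟩ := G.exists_lift isOpen_Ioo hpt f₁
  have hpd : ∀ t ∈ Ioo (-(r / K)) (r / K), HasDerivAt p (vel (G.g q) (p t) (ξ, 0)) t := by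
    intro t ht
    have h1 := hF.ode x hb (Y ξ) t (hball t ht)
    have e1 : vel (G.g q) (F x (t • Y ξ)) (Y ξ, 0) = ((F x (t • Y ξ)).2 (Y ξ),
        - (Gam (G.g q) (F x (t • Y ξ)).1 ((F x (t • Y ξ)).2 (Y ξ))) ∘L (F x (t • Y ξ)).2) := by
      have := vel_apply (G.g q) (F x (t • Y ξ)).1 (F x (t • Y ξ)).2 (Y ξ) 0
      simpa using this
    have e2 : vel (G.g q) (p t) (ξ, 0) = ((p t).2 ξ,
        - (Gam (G.g q) (p t).1 ((p t).2 ξ)) ∘L (p t).2) := by
      have := vel_apply (G.g q) (p t).1 (p t).2 ξ 0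
      simpa using this
    rw [e1] at h1
    rw [e2]
    have h3 : HasDerivAt (fun s : ℝ => (F x (s • Y ξ)).1) ((F x (t • Y ξ)).2 (Y ξ)) t := h1.fst
    have h4 : HasDerivAt (fun s : ℝ => (F x (s • Y ξ)).2)
      (- (Gam (G.g q) (F x (t • Y ξ)).1 ((F x (t • Y ξ)).2 (Y ξ))) ∘L (F x (t • Y ξ)).2) t := h1.snd
    have h5 := h4.clm_comp (hasDerivAt_const t Y)
    have h6 := h3.prodMk h5
    refine h6.congr_deriv ?_
    simp only [hp, ContinuousLinearMap.comp_apply]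
    congr 1
    ext u
    simp
  have hε0 : (0 : ℝ) ∈ Ioo (-(r / K)) (r / K) := by
    have := div_pos hF.r_pos hK0
    exact ⟨by linarith, this⟩
  refine ⟨f, ?_, fun t ht => hf2 t ht ξ 0 (hpd t ht)⟩
  refine cd_inj (hf1 0 hε0).2.2 hs ?_
  rw [(hf1 0 hε0).2.1, hcd]
  simp only [hp, zero_smul, hF.zero x hb]
  rfl

variable {G} in
/-- translation in time -/
theorem HasVel.shift {f : ℝ → G.Fr} {θ : E} {κ : E →L[ℝ] E} {t a : ℝ}
    (h : G.HasVel f θ κ (t - a)) : G.HasVel (fun s => f (s - a)) θ κ t := by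
  have := h.comp_real (c := fun s => s - a) (c' := 1) (t := t)
    (by simpa using (hasDerivAt_id t).sub_const a)
  simpa using this

variable {G} in
/-- reversal of time -/
theorem HasVel.neg {f : ℝ → G.Fr} {θ : E} {t : ℝ}
    (h : G.HasVel f θ 0 (-t)) : G.HasVel (fun s => f (-s)) (-θ) 0 t := by
  have := h.comp_real (c := fun s => -s) (c' := -1) (t := t) (hasDerivAt_neg t)
  simpa using this

variable {G} in
theorem HasVel.congr {f f' : ℝ → G.Fr} {θ : E} {κ : E →L[ℝ] E} {t : ℝ} (h : G.HasVel f θ κ t)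
    (he : f' =ᶠ[𝓝 t] f) : G.HasVel f' θ κ t := by
  have h0 := he.self_of_nhds
  refine ⟨?_, fun q hq => ?_⟩
  · refine h.1.congr ?_
    filter_upwards [he] with s hs using by rw [hs]
  · rw [h0] at hq ⊢
    refine (h.2 q hq).congr_of_eventuallyEq ?_
    filter_upwards [he] with s hs using by rw [hs]

variable {G} in
/-- extension of a solution to the right -/
theorem extend_right [CompleteSpace M] {ξ : E} {f : ℝ → G.Fr} {a b : ℝ} (ha : a < 0) (hb : 0 < b)
    (hf : ∀ t ∈ Ioo a b, G.HasVel f ξ 0 t) :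
    ∃ b' > b, ∃ f' : ℝ → G.Fr, f' 0 = f 0 ∧ ∀ t ∈ Ioo a b', G.HasVel f' ξ 0 t := by
  classical
  -- the base points form a Lipschitz curve
  have hlip : ∀ s ∈ Ioo a b, ∀ t ∈ Ioo a b, dist (f s).m (f t).m ≤ ‖ξ‖ * |s - t| := by
    have h1 : ∀ s ∈ Ioo a b, ∀ t ∈ Ioo a b, s ≤ t → dist (f s).m (f t).m ≤ ‖ξ‖ * (t - s) := by
      intro s hs t ht hst
      exact dist_le_of_hasVel (θ := fun _ => ξ) (κ := fun _ => 0) hst
        (fun u hu => hf u ⟨hs.1.trans_le hu.1, hu.2.trans_lt ht.2⟩) continuousOn_const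
        (fun u _ => le_rfl)
    intro s hs t ht
    rcases le_total s t with h | h
    · rw [abs_of_nonpos (by linarith)]
      have := h1 s hs t ht h
      linarith [this]
    · rw [abs_of_nonneg (by linarith), dist_comm]
      exact h1 t ht s hs h
  -- limit point
  obtain ⟨m, hm⟩ : ∃ m, Filter.Tendsto (fun k : ℕ => (f (b - b / 2 / (k + 1))).m) Filter.atTop (𝓝 m) := by
    apply cauchySeq_tendsto_of_complete
    have hmem : ∀ k : ℕ, b - b / 2 / (k + 1) ∈ Ioo a b := by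
      intro k
      have h1 : 0 < b / 2 / ((k : ℝ) + 1) := by positivity
      have h2 : b / 2 / ((k : ℝ) + 1) ≤ b / 2 := by
        apply div_le_self (by positivity)
        have : (0 : ℝ) ≤ k := Nat.cast_nonneg k
        linarith
      exact ⟨by linarith, by linarith⟩
    have hreal : CauchySeq (fun k : ℕ => b - b / 2 / ((k : ℝ) + 1)) := by
      have : Filter.Tendsto (fun k : ℕ => b - b / 2 / ((k : ℝ) + 1)) Filter.atTop (𝓝 (b - 0)) := by
        refine tendsto_const_nhds.sub ?_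
        have := tendsto_one_div_add_atTop_nhds_zero_nat (𝕜 := ℝ)
        have h3 := this.const_mul (b / 2)
        simpa [div_eq_mul_inv] using h3
      exact this.cauchySeq
    rw [Metric.cauchySeq_iff'] at hreal ⊢
    intro ε hε
    obtain ⟨N, hN⟩ := hreal (ε / (‖ξ‖ + 1)) (by positivity)
    refine ⟨N, fun k hk => ?_⟩
    have h1 := hN k hk
    rw [Real.dist_eq] at h1
    refine (hlip _ (hmem k) _ (hmem N)).trans_lt ?_
    calc ‖ξ‖ * |b - b / 2 / (k + 1) - (b - b / 2 / (N + 1))|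
        ≤ (‖ξ‖ + 1) * |b - b / 2 / (k + 1) - (b - b / 2 / (N + 1))| := by gcongr; linarith
      _ < (‖ξ‖ + 1) * (ε / (‖ξ‖ + 1)) := by gcongr
      _ = ε := by field_simp
  obtain ⟨ε, hε, V, hV, hsol⟩ := G.exists_sol_near m ξ
  -- a time close to `b` whose frame lies in `V`
  have hseq : Filter.Tendsto (fun k : ℕ => b / 2 / ((k : ℝ) + 1)) Filter.atTop (𝓝 0) := by
    have h3 := (tendsto_one_div_add_atTop_nhds_zero_nat (𝕜 := ℝ)).const_mul (b / 2)
    simpa [div_eq_mul_inv] using h3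
  obtain ⟨k, hk1, hk2⟩ := ((hm.eventually hV).and (hseq.eventually (gt_mem_nhds hε))).exists
  set t₁ := b - b / 2 / ((k : ℝ) + 1) with ht₁
  have hkpos : 0 < b / 2 / ((k : ℝ) + 1) := by positivity
  have hk3 : b / 2 / ((k : ℝ) + 1) ≤ b / 2 := by
    apply div_le_self (by positivity)
    have : (0 : ℝ) ≤ k := Nat.cast_nonneg k
    linarith
  have ht₁m : t₁ ∈ Ioo a b := ⟨by linarith, by linarith⟩
  have ht₁0 : 0 < t₁ := by linarith
  obtain ⟨h, hh0, hh⟩ := hsol (f t₁) hk1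
  have hb' : b < t₁ + ε := by linarith
  have hcomp : ∀ t ∈ Ioo (max a (t₁ - ε)) b, f t = h (t - t₁) := by
    refine sol_unique (t₀ := t₁) ⟨max_lt ht₁m.1 (by linarith), ht₁m.2⟩ (ξ := ξ)
      (fun t ht => hf t ⟨(le_max_left _ _).trans_lt ht.1, ht.2⟩)
      (fun t ht => (hh (t - t₁) ⟨?_, ?_⟩).shift) (by simp [hh0])
    · have := (le_max_right a (t₁ - ε)).trans_lt ht.1
      linarith
    · linarith [ht.2]
  refine ⟨t₁ + ε, hb', fun t => if t < b then f t else h (t - t₁), by simp [hb], fun t ht => ?_⟩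
  rcases lt_or_ge t b with htb | htb
  · refine (hf t ⟨ht.1, htb⟩).congr ?_
    filter_upwards [gt_mem_nhds htb] with s hs
    simp [hs]
  · have h1 : G.HasVel (fun s => h (s - t₁)) ξ 0 t :=
      (hh (t - t₁) ⟨by linarith, by linarith [ht.2]⟩).shift
    refine h1.congr ?_
    have h2 : max a (t₁ - ε) < t := (max_lt ht₁m.1 (by linarith)).trans (ht₁m.2.trans_le htb)
    filter_upwards [lt_mem_nhds h2] with s hs
    by_cases hsb : s < b
    · simp only [hsb, if_true]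
      exact hcomp s ⟨hs, hsb⟩
    · simp [hsb]


variable {G} in
/-- extension of a solution to the left -/
theorem extend_left [CompleteSpace M] {ξ : E} {f : ℝ → G.Fr} {a b : ℝ} (ha : a < 0) (hb : 0 < b)
    (hf : ∀ t ∈ Ioo a b, G.HasVel f ξ 0 t) :
    ∃ a' < a, ∃ f' : ℝ → G.Fr, f' 0 = f 0 ∧ ∀ t ∈ Ioo a' b, G.HasVel f' ξ 0 t := by
  have h1 : ∀ t ∈ Ioo (-b) (-a), G.HasVel (fun s => f (-s)) (-ξ) 0 t := fun t ht =>
    (hf (-t) ⟨by linarith [ht.2], by linarith [ht.1]⟩).neg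
  obtain ⟨c, hc, f', h0, hf'⟩ := extend_right (by linarith) (by linarith) h1
  refine ⟨-c, by linarith, fun s => f' (-s), by simpa using h0, fun t ht => ?_⟩
  have := (hf' (-t) ⟨by linarith [ht.2], by linarith [ht.1]⟩).neg
  simpa using this

variable {G} in
/-- gluing of symmetric solutions -/
theorem glue_sols {ξ : E} {f₀ : G.Fr} {S : Set ℝ}
    (hS : ∀ T ∈ S, ∃ f : ℝ → G.Fr, f 0 = f₀ ∧ ∀ t ∈ Ioo (-T) T, G.HasVel f ξ 0 t) :
    ∃ f : ℝ → G.Fr, f 0 = f₀ ∧ ∀ t, (∃ T ∈ S, |t| < T) → G.HasVel f ξ 0 t := by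
  classical
  have : Nonempty G.Fr := ⟨f₀⟩
  choose! F hF0 hF using hS
  have huniq : ∀ T ∈ S, ∀ T' ∈ S, ∀ t, |t| < T → |t| < T' → F T t = F T' t := by
    intro T hT T' hT' t h h'
    have h0 : 0 < min T T' := lt_min ((abs_nonneg t).trans_lt h) ((abs_nonneg t).trans_lt h')
    have ht : t ∈ Ioo (-(min T T')) (min T T') := by
      rw [mem_Ioo, ← abs_lt]; exact lt_min h h'
    refine sol_unique (t₀ := 0) (ξ := ξ) (f := F T) (f' := F T') ⟨by linarith, h0⟩ (fun s hs => ?_)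
      (fun s hs => ?_) (by rw [hF0 T hT, hF0 T' hT']) t ht
    · rw [mem_Ioo, ← abs_lt] at hs
      exact hF T hT s (by rw [mem_Ioo, ← abs_lt]; exact hs.trans_le (min_le_left _ _))
    · rw [mem_Ioo, ← abs_lt] at hs
      exact hF T' hT' s (by rw [mem_Ioo, ← abs_lt]; exact hs.trans_le (min_le_right _ _))
  have hval : ∀ T ∈ S, ∀ t, |t| < T →
      (if h : ∃ T ∈ S, |t| < T then F h.choose t else f₀) = F T t := by
    intro T hT t ht
    have h : ∃ T ∈ S, |t| < T := ⟨T, hT, ht⟩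
    rw [dif_pos h]
    exact huniq _ h.choose_spec.1 _ hT t h.choose_spec.2 ht
  refine ⟨fun t => if h : ∃ T ∈ S, |t| < T then F h.choose t else f₀, ?_, ?_⟩
  · by_cases h : ∃ T ∈ S, |(0 : ℝ)| < T
    · obtain ⟨T, hT, h0⟩ := h
      simp only [hval T hT 0 h0, hF0 T hT]
    · simp only [dif_neg h]
  · rintro t ⟨T, hT, ht⟩
    refine (hF T hT t (by rw [mem_Ioo, ← abs_lt]; exact ht)).congr ?_
    have : ∀ᶠ s in 𝓝 t, |s| < T := (continuous_abs.tendsto t).eventually (gt_mem_nhds ht)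
    filter_upwards [this] with s hs using hval T hT s hs

theorem exists_sol [CompleteSpace M] (f₀ : G.Fr) (ξ : E) :
    ∃ f : ℝ → G.Fr, f 0 = f₀ ∧ ∀ t, G.HasVel f ξ 0 t := by
  classical
  set P : Set ℝ := {T | ∃ f : ℝ → G.Fr, f 0 = f₀ ∧ ∀ t ∈ Ioo (-T) T, G.HasVel f ξ 0 t} with hP
  have hmono : ∀ T ∈ P, ∀ T' ≤ T, T' ∈ P := by
    rintro T ⟨f, h0, hf⟩ T' hT'
    exact ⟨f, h0, fun t ht => hf t ⟨by linarith [ht.1], by linarith [ht.2]⟩⟩
  obtain ⟨ε, hε, hεP⟩ : ∃ ε > 0, ε ∈ P := by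
    obtain ⟨ε, hε, V, hV, h⟩ := G.exists_sol_near f₀.m ξ
    exact ⟨ε, hε, h f₀ (mem_of_mem_nhds hV)⟩
  have hext : ∀ T ∈ P, 0 < T → ∃ T' > T, T' ∈ P := by
    rintro T ⟨f, h0, hf⟩ hT
    obtain ⟨b, hb, f1, h1, hf1⟩ := extend_right (by linarith) hT hf
    obtain ⟨a, ha, f2, h2, hf2⟩ := extend_left (by linarith) (hT.trans hb) hf1
    refine ⟨min b (-a), lt_min hb (by linarith), f2, by rw [h2, h1, h0], fun t ht => hf2 t ⟨?_, ?_⟩⟩
    · have := min_le_right b (-a)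
      linarith [ht.1]
    · exact ht.2.trans_le (min_le_left _ _)
  have hall : ∀ T, T ∈ P := by
    by_contra hcon
    push Not at hcon
    obtain ⟨T₁, hT₁⟩ := hcon
    have hbdd : BddAbove P := ⟨T₁, fun T hT => by
      by_contra h
      exact hT₁ (hmono T hT T₁ (by linarith))⟩
    have hne : P.Nonempty := ⟨ε, hεP⟩
    have hsup : ε ≤ sSup P := le_csSup hbdd hεP
    have hglue := glue_sols (G := G) (ξ := ξ) (f₀ := f₀) (S := P) (fun T hT => hT)
    obtain ⟨f, h0, hf⟩ := hglue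
    have hmem : sSup P ∈ P := by
      refine ⟨f, h0, fun t ht => hf t ?_⟩
      rw [mem_Ioo, ← abs_lt] at ht
      obtain ⟨T, hT, hlt⟩ := exists_lt_of_lt_csSup hne ht
      exact ⟨T, hT, hlt⟩
    obtain ⟨T', hT', hT'P⟩ := hext _ hmem (by linarith)
    exact absurd (le_csSup hbdd hT'P) (by linarith)
  obtain ⟨f, h0, hf⟩ := glue_sols (G := G) (ξ := ξ) (f₀ := f₀) (S := P) (fun T hT => hT)
  exact ⟨f, h0, fun t => hf t ⟨|t| + 1, hall _, by linarith⟩⟩

end GMfd

end Amb
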