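import Pool.Agent.Amb.M1b
import Pool.Agent.Amb.M4a

/-!
# The flow of the canonical horizontal vector fields on frames
-/

set_option maxSynthPendingDepth 3

namespace Amb

open Set Metric
open scoped ContDiff Topology

variable {E : Type*} [NormedAddCommGroup E] [InnerProductSpace ℝ E] [FiniteDimensional ℝ E]
variable {M : Type*} [MetricSpace M] (G : GMfd E M)
variable {X : Type*} [NormedAddCommGroup X] [NormedSpace ℝ X]

namespace GMfd

theorem hasVel_const (f : G.Fr) (t : ℝ) : G.HasVel (fun _ => f) 0 0 t := by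
  refine ⟨continuousAt_const, fun q _ => ?_⟩
  have h0 : vel (G.g q) (G.cd q f) ((0 : E), (0 : E →L[ℝ] E)) = 0 := by
    have : ((0 : E), (0 : E →L[ℝ] E)) = 0 := rfl
    rw [this, map_zero]
  rw [h0]
  exact hasDerivAt_const t _

section Complete

variable [CompleteSpace M]

variable {G} in
theorem Psi_unique {f : ℝ → G.Fr} {ξ : E} (h : ∀ t, G.HasVel f ξ 0 t) (t : ℝ) :
    f t = G.Psi (t • ξ) (f 0) := by
  have hex := G.exists_sol (f 0) (t • ξ)
  unfold Psi
  rw [dif_pos hex]
  obtain ⟨h0, hv⟩ := hex.choose_spec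
  set g := hex.choose with hg
  have hc : ∀ s : ℝ, G.HasVel (fun s => f (t * s)) (t • ξ) 0 s := by
    intro s
    have h1 : HasDerivAt (fun s : ℝ => t * s) t s := by
      simpa using (hasDerivAt_id s).const_mul t
    have h2 := (h (t * s)).comp_real h1
    simpa using h2
  have := sol_unique (f := fun s => f (t * s)) (f' := g) (ξ := t • ξ) (a := -1) (b := 2)
    (t₀ := 0) ⟨by norm_num, by norm_num⟩ (fun s _ => hc s) (fun s _ => hv s)
    (by simp only [mul_zero]; exact h0.symm) 1 ⟨by norm_num, by norm_num⟩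
  simpa using this

theorem Psi_zero (f : G.Fr) : G.Psi 0 f = f := by
  have := Psi_unique (f := fun _ : ℝ => f) (ξ := (0 : E)) (fun t => G.hasVel_const f t) 1
  simpa using this.symm

theorem Psi_hasVel (ξ : E) (f : G.Fr) (t : ℝ) : G.HasVel (fun s => G.Psi (s • ξ) f) ξ 0 t := by
  obtain ⟨g, h0, hv⟩ := G.exists_sol f ξ
  have : (fun s : ℝ => G.Psi (s • ξ) f) = g := by
    funext s
    rw [Psi_unique hv s, h0]
  rw [this]
  exact hv t

theorem Psi_add (s t : ℝ) (ξ : E) (f : G.Fr) :
    G.Psi ((s + t) • ξ) f = G.Psi (t • ξ) (G.Psi (s • ξ) f) := by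
  have hv : ∀ u : ℝ, G.HasVel (fun u : ℝ => G.Psi ((s + u) • ξ) f) ξ 0 u := by
    intro u
    have h1 : HasDerivAt (fun u : ℝ => s + u) 1 u := (hasDerivAt_id u).const_add s
    have h2 := (G.Psi_hasVel ξ f (s + u)).comp_real h1
    simpa using h2
  have := Psi_unique hv t
  simpa using this

theorem Psi_rot (ξ : E) (f : G.Fr) (k : E ≃ₗᵢ[ℝ] E) :
    G.Psi ξ (f.rot k) = (G.Psi (k ξ) f).rot k := by
  have hv : ∀ u : ℝ, G.HasVel (fun u : ℝ => (G.Psi (u • k ξ) f).rot k) ξ 0 u := by
    intro u
    have h1 : HasDerivAt (fun _ : ℝ => ((k).toContinuousLinearEquiv : E →L[ℝ] E)) 0 u :=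
      hasDerivAt_const u _
    have h2 := (G.Psi_hasVel (k ξ) f u).rot (k := fun _ => k) h1
    simpa using h2
  have := Psi_unique hv 1
  simp only [one_smul, zero_smul] at this
  rw [G.Psi_zero] at this
  exact this.symm

theorem dist_Psi_le (ξ : E) (f : G.Fr) : dist f.m (G.Psi ξ f).m ≤ ‖ξ‖ := by
  have h := dist_le_of_hasVel (f := fun s : ℝ => G.Psi (s • ξ) f) (θ := fun _ => ξ)
    (κ := fun _ => 0) (a := 0) (b := 1) (B := ‖ξ‖) (by norm_num)
    (fun t _ => G.Psi_hasVel ξ f t) continuousOn_const (fun t _ => le_refl _)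
  simpa [G.Psi_zero] using h

variable {G} in
/-- Gluing of two curves of frames. -/
theorem HasVel.glue {f g : ℝ → G.Fr} {ξ : E} {a : ℝ} (hf : G.HasVel f ξ 0 a)
    (hg : G.HasVel g ξ 0 a) (h : g a = f a) :
    G.HasVel (fun s => if s ≤ a then g s else f s) ξ 0 a := by
  have hval : (fun s => if s ≤ a then g s else f s) a = f a := by simp [h]
  have hl : ∀ s ∈ Iic a, (fun s => if s ≤ a then g s else f s) s = g s := by
    intro s hs
    simp only [mem_Iic] at hs
    simp [hs]
  have hr : ∀ s ∈ Ici a, (fun s => if s ≤ a then g s else f s) s = f s := by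
    intro s hs
    simp only [mem_Ici] at hs
    by_cases h1 : s ≤ a
    · have : s = a := le_antisymm h1 hs
      subst this
      simp [h]
    · simp [h1]
  constructor
  · rw [← continuousWithinAt_univ, ← Iic_union_Ici (a := a)]
    refine ContinuousWithinAt.union ?_ ?_
    · refine (hg.1.continuousWithinAt (s := Iic a)).congr ?_ ?_
      · intro s hs
        have := congrArg Fr.m (hl s hs)
        exact this
      · have := congrArg Fr.m (hl a self_mem_Iic)
        exact this
    · refine (hf.1.continuousWithinAt (s := Ici a)).congr ?_ ?_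
      · intro s hs
        have := congrArg Fr.m (hr s hs)
        exact this
      · have := congrArg Fr.m (hr a self_mem_Ici)
        exact this
  · intro q hq
    rw [hval] at hq
    rw [hval]
    have d1 := (hf.2 q hq).hasDerivWithinAt (s := Ici a)
    have d2 := (hg.2 q (by rw [h]; exact hq)).hasDerivWithinAt (s := Iic a)
    rw [h] at d2
    have e1 := d1.congr (f₁ := fun s => G.cd q ((fun s => if s ≤ a then g s else f s) s))
      (fun s hs => by
        have := congrArg (G.cd q) (hr s hs)
        exact this) (by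
        have := congrArg (G.cd q) (hr a self_mem_Ici)
        exact this)
    have e2 := d2.congr (f₁ := fun s => G.cd q ((fun s => if s ≤ a then g s else f s) s))
      (fun s hs => by
        have := congrArg (G.cd q) (hl s hs)
        exact this) (by
        have := congrArg (G.cd q) (hl a self_mem_Iic)
        exact this)
    have := e2.union e1
    rwa [Iic_union_Ici, hasDerivWithinAt_univ] at this

variable {G} in
/-- local version of uniqueness, on an interval -/
theorem Psi_unique_Icc {f : ℝ → G.Fr} {ξ : E} {a b : ℝ} (hab : a ≤ b)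
    (h : ∀ t ∈ Icc a b, G.HasVel f ξ 0 t) : f b = G.Psi ((b - a) • ξ) (f a) := by
  rcases eq_or_lt_of_le hab with hab | hab
  · subst hab
    rw [sub_self, zero_smul, G.Psi_zero]
  set g : ℝ → G.Fr := fun s => G.Psi ((s - a) • ξ) (f a) with hg
  have hgv : ∀ s, G.HasVel g ξ 0 s := by
    intro s
    have h1 : HasDerivAt (fun u : ℝ => u - a) 1 s := (hasDerivAt_id s).sub_const a
    have h2 := HasVel.comp_real (c := fun u : ℝ => u - a) (G.Psi_hasVel ξ (f a) (s - a)) h1
    simpa using h2
  have hga : g a = f a := by simp [hg, G.Psi_zero]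
  set F : ℝ → G.Fr := fun s => if s ≤ a then g s else f s with hF
  have hFv : ∀ s ∈ Ioo (a - 1) b, G.HasVel F ξ 0 s := by
    intro s hs
    rcases lt_trichotomy s a with hsa | hsa | hsa
    · have hev : F =ᶠ[𝓝 s] g := by
        filter_upwards [Iio_mem_nhds hsa] with u hu
        simp only [hF, if_pos (le_of_lt (mem_Iio.1 hu))]
      refine ⟨(hgv s).1.congr (hev.mono fun u hu => by simp only [hu]), fun q hq => ?_⟩
      have hs' : F s = g s := hev.self_of_nhds
      rw [hs'] at hq ⊢
      exact ((hgv s).2 q hq).congr_of_eventuallyEq (hev.mono fun u hu => by simp only [hu])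
    · subst hsa
      exact (h s ⟨le_rfl, hab.le⟩).glue (hgv s) hga
    · have hev : F =ᶠ[𝓝 s] f := by
        filter_upwards [Ioi_mem_nhds hsa] with u hu
        simp only [hF, if_neg (not_le.2 (mem_Ioi.1 hu))]
      have hfs := h s ⟨hsa.le, hs.2.le⟩
      refine ⟨hfs.1.congr (hev.mono fun u hu => by simp only [hu]), fun q hq => ?_⟩
      have hs' : F s = f s := hev.self_of_nhds
      rw [hs'] at hq ⊢
      exact (hfs.2 q hq).congr_of_eventuallyEq (hev.mono fun u hu => by simp only [hu])
  have hEq : ∀ s ∈ Ioo (a - 1) b, F s = g s := by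
    refine sol_unique (t₀ := a) ⟨by linarith, hab⟩ hFv (fun s _ => hgv s) ?_
    simp [hF]
  -- continuity at `b`
  have hev : ∀ᶠ s in 𝓝[<] b, f s = g s := by
    filter_upwards [Ioo_mem_nhdsLT hab] with s hs
    have := hEq s ⟨by linarith [hs.1], hs.2⟩
    simpa only [hF, if_neg (not_le.2 hs.1)] using this
  have hfb := h b ⟨hab.le, le_rfl⟩
  have hm : (f b).m = (g b).m := by
    have t1 : Filter.Tendsto (fun s => (f s).m) (𝓝[<] b) (𝓝 (f b).m) :=
      hfb.1.mono_left nhdsWithin_le_nhds
    have t2 : Filter.Tendsto (fun s => (g s).m) (𝓝[<] b) (𝓝 (g b).m) :=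
      (hgv b).1.mono_left nhdsWithin_le_nhds
    refine tendsto_nhds_unique t1 (t2.congr' ?_)
    filter_upwards [hev] with s hs
    rw [hs]
  have hq : (f b).m ∈ G.src (f b).m := G.mem_src _
  have hq' : (g b).m ∈ G.src (f b).m := by rw [← hm]; exact hq
  have hcd : G.cd (f b).m (f b) = G.cd (f b).m (g b) := by
    have t1 : Filter.Tendsto (fun s => G.cd (f b).m (f s)) (𝓝[<] b) (𝓝 (G.cd (f b).m (f b))) :=
      (hfb.2 _ hq).continuousAt.mono_left nhdsWithin_le_nhds
    have t2 : Filter.Tendsto (fun s => G.cd (f b).m (g s)) (𝓝[<] b) (𝓝 (G.cd (f b).m (g b))) :=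
      ((hgv b).2 _ hq').continuousAt.mono_left nhdsWithin_le_nhds
    refine tendsto_nhds_unique t1 (t2.congr' ?_)
    filter_upwards [hev] with s hs
    rw [hs]
  exact cd_inj hq hq' hcd

end Complete

end GMfd

end Amb
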