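import Pool.Agent.Amb.L3

/-!
# L5: local logarithm, minimality of short geodesics, strong convexity, points between
-/

set_option maxSynthPendingDepth 3
set_option linter.unusedSectionVars false
set_option linter.unusedVariables false

namespace Amb

open Set Metric Filter
open scoped ContDiff Topology

variable {E : Type*} [NormedAddCommGroup E] [InnerProductSpace ℝ E] [FiniteDimensional ℝ E]
variable {U V W : Set E} {g h : E → E →L[ℝ] E →L[ℝ] ℝ}

/-- `(a, b) ↦ (a, a + b)` -/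
noncomputable def shearE (E : Type*) [NormedAddCommGroup E] [NormedSpace ℝ E] :
    (E × E) ≃L[ℝ] (E × E) :=
  ContinuousLinearEquiv.equivOfInverse
    ((ContinuousLinearMap.fst ℝ E E).prod
      (ContinuousLinearMap.fst ℝ E E + ContinuousLinearMap.snd ℝ E E))
    ((ContinuousLinearMap.fst ℝ E E).prod
      (ContinuousLinearMap.snd ℝ E E - ContinuousLinearMap.fst ℝ E E))
    (by rintro ⟨a, b⟩; simp) (by rintro ⟨a, b⟩; simp)

theorem LocFlow.hasFDerivAt_zero {x₀ : E} {r : ℝ} {F : E → E → E × (E →L[ℝ] E)}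
    (hF : LocFlow U g x₀ r F) :
    HasFDerivAt (fun p : E × E => (p.1, (F p.1 p.2).1))
      ((shearE E : (E × E) ≃L[ℝ] (E × E)) : (E × E) →L[ℝ] (E × E)) (x₀, 0) := by
  have hopen : IsOpen (ball x₀ r ×ˢ ball (0 : E) r) := isOpen_ball.prod isOpen_ball
  have hmem : (x₀, (0 : E)) ∈ ball x₀ r ×ˢ ball (0 : E) r :=
    ⟨mem_ball_self hF.r_pos, mem_ball_self hF.r_pos⟩
  have h2 : ContDiffAt ℝ ∞ (fun p : E × E => (F p.1 p.2).1) (x₀, 0) :=
    ((contDiff_fst.comp_contDiffOn hF.smooth).contDiffAt (hopen.mem_nhds hmem))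
  have h3 : HasFDerivAt (fun p : E × E => (F p.1 p.2).1)
      (fderiv ℝ (fun p : E × E => (F p.1 p.2).1) (x₀, 0)) (x₀, 0) :=
    (h2.differentiableAt (by simp)).hasFDerivAt
  have h4 : fderiv ℝ (fun p : E × E => (F p.1 p.2).1) (x₀, 0) =
      ContinuousLinearMap.fst ℝ E E + ContinuousLinearMap.snd ℝ E E := by
    obtain ⟨T, hT⟩ : ∃ T, fderiv ℝ (fun p : E × E => (F p.1 p.2).1) (x₀, 0) = T := ⟨_, rfl⟩
    rw [hT] at h3 ⊢
    have e1 : ∀ u : E, T (u, 0) = u := by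
      intro u
      have a1 : HasFDerivAt (fun x : E => (x, (0 : E))) (ContinuousLinearMap.inl ℝ E E) x₀ := by
        have := (hasFDerivAt_id (𝕜 := ℝ) x₀).prodMk (hasFDerivAt_const (𝕜 := ℝ) (0 : E) x₀)
        exact this
      have a2 : HasFDerivAt (fun x : E => (F x 0).1) (T ∘L ContinuousLinearMap.inl ℝ E E) x₀ :=
        HasFDerivAt.comp x₀ (g := fun p : E × E => (F p.1 p.2).1) h3 a1
      have a3 : (fun x : E => (F x 0).1) =ᶠ[𝓝 x₀] fun x => x := by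
        filter_upwards [isOpen_ball.mem_nhds (mem_ball_self hF.r_pos)] with x hx
        rw [hF.zero x hx]
      have a4 := (a2.congr_of_eventuallyEq a3.symm).unique (hasFDerivAt_id x₀)
      have := congrArg (fun S : E →L[ℝ] E => S u) a4
      simpa using this
    have e2 : ∀ u : E, T (0, u) = u := by
      intro u
      have b1 : HasDerivAt (fun s : ℝ => (x₀, s • u)) ((0 : E), u) 0 := by
        have := (hasDerivAt_const (0 : ℝ) x₀).prodMk ((hasDerivAt_id (0 : ℝ)).smul_const u)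
        simpa using this
      have b2 : HasDerivAt (fun s : ℝ => (F x₀ (s • u)).1) (T ((0 : E), u)) 0 := by
        have h3' : HasFDerivAt (fun p : E × E => (F p.1 p.2).1) T (x₀, (0 : ℝ) • u) := by
          simpa using h3
        exact HasFDerivAt.comp_hasDerivAt (l := fun p : E × E => (F p.1 p.2).1)
          (f := fun s : ℝ => (x₀, s • u)) 0 h3' b1
      have b3 := hF.ode x₀ (mem_ball_self hF.r_pos) u 0 (by simpa using hF.r_pos)
      have b4 : HasDerivAt (fun s : ℝ => (F x₀ (s • u)).1) u 0 := by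
        have := (ContinuousLinearMap.fst ℝ E (E →L[ℝ] E)).hasFDerivAt.comp_hasDerivAt (0 : ℝ) b3
        rw [zero_smul, hF.zero x₀ (mem_ball_self hF.r_pos), vel_apply] at this
        exact this
      exact b2.unique b4
    ext1
    · ext u; simp [e1 u]
    · ext u; simp [e2 u]
  rw [h4] at h3
  exact hasFDerivAt_fst.prodMk h3

theorem exists_locLog (hg : IsMet U g) {x₀ : E} (hx : x₀ ∈ U) :
    ∃ r F r₁ lg, LocLog U g x₀ r F r₁ lg := by
  obtain ⟨r, F, hF⟩ := exists_locFlow hg hx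
  obtain ⟨Ψ, hΨ⟩ : ∃ Ψ : E × E → E × E, Ψ = fun p => (p.1, (F p.1 p.2).1) := ⟨_, rfl⟩
  have hΨs : ContDiffOn ℝ ∞ Ψ (ball x₀ r ×ˢ ball (0 : E) r) := by
    rw [hΨ]
    exact contDiff_fst.contDiffOn.prodMk (contDiff_fst.comp_contDiffOn hF.smooth)
  have hopen : IsOpen (ball x₀ r ×ˢ ball (0 : E) r) := isOpen_ball.prod isOpen_ball
  have hmem : (x₀, (0 : E)) ∈ ball x₀ r ×ˢ ball (0 : E) r :=
    ⟨mem_ball_self hF.r_pos, mem_ball_self hF.r_pos⟩
  have hΨat : ContDiffAt ℝ ∞ Ψ (x₀, 0) := hΨs.contDiffAt (hopen.mem_nhds hmem)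
  have hder : HasFDerivAt Ψ ((shearE E : (E × E) ≃L[ℝ] (E × E)) : (E × E) →L[ℝ] (E × E)) (x₀, 0) := by
    rw [hΨ]; exact hF.hasFDerivAt_zero
  obtain ⟨G, hG⟩ : ∃ G, G = hΨat.toOpenPartialHomeomorph Ψ hder (by simp) := ⟨_, rfl⟩
  have hGc : (G : E × E → E × E) = Ψ := by rw [hG]; rfl
  have hGs : (x₀, (0 : E)) ∈ G.source := by
    rw [hG]; exact hΨat.mem_toOpenPartialHomeomorph_source hder (by simp)
  have hΨ0 : Ψ (x₀, 0) = (x₀, x₀) := by
    rw [hΨ]; simp [hF.zero x₀ (mem_ball_self hF.r_pos)]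
  -- invertibility of the derivative nearby
  have hinv : ∀ᶠ p in 𝓝 (x₀, (0 : E)), fderiv ℝ Ψ p ∈
      range ((↑) : ((E × E) ≃L[ℝ] (E × E)) → ((E × E) →L[ℝ] (E × E))) := by
    have hc : ContinuousAt (fderiv ℝ Ψ) (x₀, 0) :=
      (hΨat.fderiv_right (m := 0) (by simp)).continuousAt
    have hn := ContinuousLinearEquiv.nhds (shearE E)
    rw [← hder.fderiv] at hn
    exact hc.eventually hn
  obtain ⟨s, hs, hsr, hsub⟩ : ∃ s > 0, s ≤ r ∧ ball (x₀, (0 : E)) s ⊆ {p | p ∈ G.source ∧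
      p ∈ ball x₀ r ×ˢ ball (0 : E) r ∧ fderiv ℝ Ψ p ∈
      range ((↑) : ((E × E) ≃L[ℝ] (E × E)) → ((E × E) →L[ℝ] (E × E)))} := by
    have : ∀ᶠ p in 𝓝 (x₀, (0 : E)), p ∈ G.source ∧
      p ∈ ball x₀ r ×ˢ ball (0 : E) r ∧ fderiv ℝ Ψ p ∈
      range ((↑) : ((E × E) ≃L[ℝ] (E × E)) → ((E × E) →L[ℝ] (E × E))) :=
      Filter.Eventually.and (G.open_source.mem_nhds hGs)
        (Filter.Eventually.and (hopen.mem_nhds hmem) hinv)
    obtain ⟨s, hs, hss⟩ := Metric.mem_nhds_iff.1 this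
    exact ⟨min s r, lt_min hs hF.r_pos, min_le_right _ _,
      (ball_subset_ball (min_le_left _ _)).trans hss⟩
  have hsub' : ∀ x ∈ ball x₀ s, ∀ v ∈ ball (0 : E) s, (x, v) ∈ G.source ∧
      (x, v) ∈ ball x₀ r ×ˢ ball (0 : E) r ∧ fderiv ℝ Ψ (x, v) ∈
      range ((↑) : ((E × E) ≃L[ℝ] (E × E)) → ((E × E) →L[ℝ] (E × E))) := by
    intro x hx v hv
    apply hsub
    rw [← ball_prod_same]
    exact ⟨hx, hv⟩
  -- the target ball
  have hG0 : G.symm (x₀, x₀) = (x₀, 0) := by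
    have := G.left_inv hGs
    rw [hGc, hΨ0] at this
    exact this
  have hGt : (x₀, x₀) ∈ G.target := by
    have := G.map_source hGs
    rw [hGc, hΨ0] at this
    exact this
  obtain ⟨r₁, hr₁, hr₁s, hsub2⟩ : ∃ r₁ > 0, r₁ ≤ s ∧ ball (x₀, x₀) r₁ ⊆ {q | q ∈ G.target ∧
      G.symm q ∈ ball (x₀, (0 : E)) s} := by
    have h1 : ContinuousAt G.symm (x₀, x₀) := G.continuousAt_symm hGt
    have : ∀ᶠ q in 𝓝 (x₀, x₀), q ∈ G.target ∧ G.symm q ∈ ball (x₀, (0 : E)) s :=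
      Filter.Eventually.and (G.open_target.mem_nhds hGt)
        (h1.eventually (by rw [hG0]; exact ball_mem_nhds _ hs))
    obtain ⟨r₁, hr₁, hrr⟩ := Metric.mem_nhds_iff.1 this
    exact ⟨min r₁ s, lt_min hr₁ hs, min_le_right _ _,
      (ball_subset_ball (min_le_left _ _)).trans hrr⟩
  have hsub2' : ∀ x ∈ ball x₀ r₁, ∀ y ∈ ball x₀ r₁, (x, y) ∈ G.target ∧
      (G.symm (x, y)).1 ∈ ball x₀ s ∧ (G.symm (x, y)).2 ∈ ball (0 : E) s := by
    intro x hx y hy
    have := hsub2 (show (x, y) ∈ ball (x₀, x₀) r₁ by rw [← ball_prod_same]; exact ⟨hx, hy⟩)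
    refine ⟨this.1, ?_⟩
    have h2 := this.2
    rw [← ball_prod_same] at h2
    exact ⟨h2.1, h2.2⟩
  have hright : ∀ x ∈ ball x₀ r₁, ∀ y ∈ ball x₀ r₁, (G.symm (x, y)).1 = x ∧
      (F x (G.symm (x, y)).2).1 = y := by
    intro x hx y hy
    have h1 := G.right_inv (hsub2' x hx y hy).1
    rw [hGc, hΨ] at h1
    have h2 := Prod.ext_iff.1 h1
    simp only at h2
    refine ⟨h2.1, ?_⟩
    rw [h2.1] at h2
    exact h2.2
  refine ⟨s, F, r₁, fun x y => (G.symm (x, y)).2, hF.mono hs hsr, hr₁, hr₁s, ?_, ?_, ?_, ?_⟩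
  · -- smoothness
    rintro ⟨x, y⟩ ⟨hx, hy⟩
    obtain ⟨h1, h2, h3⟩ := hsub2' x hx y hy
    obtain ⟨k1, k2, e, he⟩ := hsub' _ h2 _ h3
    have k3 : ContDiffAt ℝ ∞ G (G.symm (x, y)) := by
      rw [hGc]
      exact hΨs.contDiffAt (hopen.mem_nhds k2)
    have k4 : HasFDerivAt G (e : (E × E) →L[ℝ] (E × E)) (G.symm (x, y)) := by
      rw [hGc, he]
      exact ((hΨs.contDiffAt (hopen.mem_nhds k2)).differentiableAt (by simp)).hasFDerivAt
    have k5 := G.contDiffAt_symm h1 k4 k3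
    exact (contDiff_snd.contDiffAt.comp (x, y) k5).contDiffWithinAt
  · intro x hx y hy
    exact (hsub2' x hx y hy).2.2
  · intro x hx y hy
    exact (hright x hx y hy).2
  · intro x hx v hv hxv
    have hx' : x ∈ ball x₀ s := ball_subset_ball hr₁s hx
    have h1 := G.left_inv (hsub' x hx' v hv).1
    rw [hGc, hΨ] at h1
    simp only at h1
    rw [h1]


theorem IsMet.nonneg (hg : IsMet U g) {x : E} (hx : x ∈ U) (u : E) : 0 ≤ g x u u := by
  by_cases hu : u = 0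
  · simp [hu]
  · exact (hg.pos x hx u hu).le

/-- Cauchy-Schwarz. -/
theorem IsMet.cs (hg : IsMet U g) {x : E} (hx : x ∈ U) (u v : E) :
    g x u v ≤ gnorm g x u * gnorm g x v := by
  have huu := hg.nonneg hx u
  have hvv := hg.nonneg hx v
  have key : (g x u v) ^ 2 ≤ g x u u * g x v v := by
    by_cases hv : v = 0
    · simp [hv]
    · have hpos := hg.pos x hx v hv
      have h1 := hg.nonneg hx (g x v v • u - g x u v • v)
      simp only [map_sub, map_smul, sub_apply, smul_apply, smul_eq_mul] at h1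
      rw [hg.symm x hx v u] at h1
      have h2 : 0 ≤ g x v v * (g x v v * g x u u - (g x u v) ^ 2) := by
        nlinarith [h1]
      have h3 : 0 ≤ g x v v * g x u u - (g x u v) ^ 2 := by
        by_contra hneg
        push Not at hneg
        have := mul_neg_of_pos_of_neg hpos hneg
        linarith
      linarith
  unfold gnorm
  rw [← Real.sqrt_mul huu]
  exact Real.le_sqrt_of_sq_le key

theorem gnorm_nonneg (x u : E) : 0 ≤ gnorm g x u := Real.sqrt_nonneg _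

theorem IsMet.gnorm_sq (hg : IsMet U g) {x : E} (hx : x ∈ U) (u : E) :
    gnorm g x u ^ 2 = g x u u := Real.sq_sqrt (hg.nonneg hx u)

theorem IsMet.gnorm_eq_zero (hg : IsMet U g) {x : E} (hx : x ∈ U) {u : E}
    (h : gnorm g x u = 0) : u = 0 := by
  by_contra hu
  have h1 := hg.pos x hx u hu
  rw [← hg.gnorm_sq hx, h] at h1
  simp at h1

theorem gnorm_smul {x u : E} {t : ℝ} (ht : 0 ≤ t) : gnorm g x (t • u) = t * gnorm g x u := by
  unfold gnorm
  simp only [map_smul, smul_apply, smul_eq_mul]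
  rw [← mul_assoc, Real.sqrt_mul (by positivity), Real.sqrt_mul_self ht]

section LL

variable {x₀ : E} {r r₁ : ℝ} {F : E → E → E × (E →L[ℝ] E)} {lg : E → E → E}

theorem LocLog.mem_r (hL : LocLog U g x₀ r F r₁ lg) {x : E} (hx : x ∈ ball x₀ r₁) :
    x ∈ ball x₀ r := ball_subset_ball hL.r₁_le hx

theorem LocLog.mem_U (hL : LocLog U g x₀ r F r₁ lg) {x : E} (hx : x ∈ ball x₀ r₁) :
    x ∈ U := hL.flow.ball_sub (hL.mem_r hx)

theorem LocLog.lg_self (hL : LocLog U g x₀ r F r₁ lg) {x : E} (hx : x ∈ ball x₀ r₁) :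
    lg x x = 0 := by
  have h0 := hL.flow.zero x (hL.mem_r hx)
  have := hL.left x hx 0 (mem_ball_self hL.flow.r_pos) (by rw [h0]; exact hx)
  rwa [h0] at this

theorem LocLog.smooth_right (hL : LocLog U g x₀ r F r₁ lg) {x : E} (hx : x ∈ ball x₀ r₁) :
    ContDiffOn ℝ ∞ (lg x) (ball x₀ r₁) :=
  hL.smooth.comp (f := fun y : E => ((x, y) : E × E))
    (contDiff_const.prodMk contDiff_id).contDiffOn (fun w hw => ⟨hx, hw⟩)

theorem LocLog.hasFDerivAt_lg (hL : LocLog U g x₀ r F r₁ lg) {x y : E} (hx : x ∈ ball x₀ r₁)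
    (hy : y ∈ ball x₀ r₁) : HasFDerivAt (lg x) (fderiv ℝ (lg x) y) y :=
  (((hL.smooth_right hx).contDiffAt (isOpen_ball.mem_nhds hy)).differentiableAt
    (by simp)).hasFDerivAt

theorem LocFlow.smooth_right (hF : LocFlow U g x₀ r F) {x : E} (hx : x ∈ ball x₀ r) :
    ContDiffOn ℝ ∞ (F x) (ball 0 r) :=
  hF.smooth.comp (f := fun w : E => ((x, w) : E × E))
      (contDiff_const.prodMk contDiff_id).contDiffOn (fun w hw => ⟨hx, hw⟩)

theorem LocFlow.hasFDerivAt_exp (hF : LocFlow U g x₀ r F) {x v : E} (hx : x ∈ ball x₀ r)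
    (hv : v ∈ ball (0 : E) r) :
    HasFDerivAt (fun w => (F x w).1) (fderiv ℝ (fun w => (F x w).1) v) v :=
  ((contDiff_fst.comp_contDiffOn (hF.smooth_right hx)).contDiffAt
    (isOpen_ball.mem_nhds hv)).differentiableAt (by simp) |>.hasFDerivAt

theorem LocLog.dexp_dlg (hL : LocLog U g x₀ r F r₁ lg) {x y : E} (hx : x ∈ ball x₀ r₁)
    (hy : y ∈ ball x₀ r₁) (u : E) :
    fderiv ℝ (fun w => (F x w).1) (lg x y) (fderiv ℝ (lg x) y u) = u := by
  have h1 := hL.hasFDerivAt_lg hx hy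
  have h2 := hL.flow.hasFDerivAt_exp (hL.mem_r hx) (hL.lg_mem x hx y hy)
  have h3 := h2.comp y h1
  have h4 : (fun w => (F x w).1) ∘ (lg x) =ᶠ[𝓝 y] id := by
    filter_upwards [isOpen_ball.mem_nhds hy] with z hz
    exact hL.right x hx z hz
  have h5 := (h3.congr_of_eventuallyEq h4.symm).unique (hasFDerivAt_id y)
  have := congrArg (fun T : E →L[ℝ] E => T u) h5
  simpa using this

/-- The geodesic distance to `a` grows at most by the length of a curve. -/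
theorem LocLog.lip (hg : IsMet U g) (hL : LocLog U g x₀ r F r₁ lg) {a : E}
    (ha : a ∈ ball x₀ r₁) {c c' : ℝ → E} (hc : C1 c c')
    (hcb : ∀ t ∈ Icc (0 : ℝ) 1, c t ∈ ball x₀ r₁) :
    gnorm g a (lg a (c 1)) ≤ gnorm g a (lg a (c 0)) + glen g c c' := by
  have haU := hL.mem_U ha
  -- velocity in normal coordinates
  obtain ⟨v, hv⟩ : ∃ v : ℝ → E, v = fun t => lg a (c t) := ⟨_, rfl⟩
  obtain ⟨v', hv'⟩ : ∃ v' : ℝ → E, v' = fun t => fderiv ℝ (lg a) (c t) (c' t) := ⟨_, rfl⟩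
  have hvd : ∀ t ∈ Icc (0 : ℝ) 1, HasDerivWithinAt v (v' t) (Icc 0 1) t := by
    intro t ht
    rw [hv, hv']
    exact (hL.hasFDerivAt_lg ha (hcb t ht)).comp_hasDerivWithinAt t (hc.1 t ht)
  have hgauss : ∀ t ∈ Icc (0 : ℝ) 1, g a (v t) (v' t) ≤
      gnorm g a (v t) * gnorm g (c t) (c' t) := by
    intro t ht
    have h1 := hL.flow.gauss hg (hL.mem_r ha) (hL.lg_mem a ha _ (hcb t ht)) (v' t)
    rw [hv'] at h1
    simp only at h1
    rw [hL.dexp_dlg ha (hcb t ht), hL.right a ha _ (hcb t ht)] at h1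
    rw [hv, hv']
    simp only
    rw [← h1]
    refine (hg.cs (hL.mem_U (hcb t ht)) _ _).trans (le_of_eq ?_)
    congr 1
    have h2 := hL.flow.isom hg (hL.mem_r ha) (hL.lg_mem a ha _ (hcb t ht)) (lg a (c t))
      (lg a (c t))
    rw [hL.right a ha _ (hcb t ht)] at h2
    unfold gnorm
    rw [h2]
  obtain ⟨q, hq⟩ : ∃ q : ℝ → ℝ, q = fun t => g a (v t) (v t) := ⟨_, rfl⟩
  have hq0 : ∀ t, 0 ≤ q t := fun t => by rw [hq]; exact hg.nonneg haU _
  have hqd : ∀ t ∈ Icc (0 : ℝ) 1, HasDerivWithinAt q (2 * g a (v t) (v' t)) (Icc 0 1) t := by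
    intro t ht
    have h1 : HasDerivWithinAt (fun t => g a (v t)) (g a (v' t)) (Icc 0 1) t :=
      (g a).hasFDerivAt.comp_hasDerivWithinAt t (hvd t ht)
    have h2 := h1.clm_apply (hvd t ht)
    rw [hq]
    convert! h2 using 1
    rw [hg.symm a haU (v' t) (v t)]; ring
  have hint : MeasureTheory.IntegrableOn (fun t => gnorm g (c t) (c' t)) (Icc (0 : ℝ) 1) := by
    have hcc : ContinuousOn c (Icc (0 : ℝ) 1) := fun t ht => (hc.1 t ht).continuousWithinAt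
    have h1 : ContinuousOn (fun t => g (c t)) (Icc (0 : ℝ) 1) :=
      hg.smooth.continuousOn.comp hcc (fun t ht => hL.mem_U (hcb t ht))
    have h2 : ContinuousOn (fun t => gnorm g (c t) (c' t)) (Icc (0 : ℝ) 1) :=
      Real.continuous_sqrt.comp_continuousOn ((h1.clm_apply hc.2).clm_apply hc.2)
    exact h2.integrableOn_compact isCompact_Icc
  have main : ∀ δ : ℝ, 0 < δ → √(q 1 + δ ^ 2) - √(q 0 + δ ^ 2) ≤ glen g c c' := by
    intro δ hδ
    have hpos : ∀ t, 0 < q t + δ ^ 2 := fun t => by have := hq0 t; positivity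
    have hd : ∀ t ∈ Icc (0 : ℝ) 1, HasDerivWithinAt (fun t => √(q t + δ ^ 2))
        ((2 * g a (v t) (v' t)) / (2 * √(q t + δ ^ 2))) (Icc 0 1) t := by
      intro t ht
      exact ((hqd t ht).add_const (δ ^ 2)).sqrt (hpos t).ne'
    unfold glen
    refine intervalIntegral.sub_le_integral_of_hasDeriv_right_of_le (zero_le_one)
      (g' := fun t => (2 * g a (v t) (v' t)) / (2 * √(q t + δ ^ 2)))
      (fun t ht => (hd t ht).continuousWithinAt) (fun t ht => ?_) hint (fun t ht => ?_)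
    · exact ((hd t (Ioo_subset_Icc_self ht)).hasDerivAt (Icc_mem_nhds ht.1 ht.2)).hasDerivWithinAt
    · have h1 := hgauss t (Ioo_subset_Icc_self ht)
      have h2 : gnorm g a (v t) ≤ √(q t + δ ^ 2) := by
        unfold gnorm
        apply Real.sqrt_le_sqrt
        rw [hq]
        nlinarith [sq_nonneg δ]
      have h3 : 0 < √(q t + δ ^ 2) := Real.sqrt_pos.2 (hpos t)
      have h4 : 0 ≤ gnorm g (c t) (c' t) := gnorm_nonneg _ _
      rw [div_le_iff₀ (by positivity)]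
      nlinarith [mul_le_mul_of_nonneg_right h2 h4]
  have fin : √(q 1) ≤ √(q 0) + glen g c c' := by
    apply le_of_forall_pos_le_add
    intro δ hδ
    have h1 := main δ hδ
    have h2 : √(q 1) ≤ √(q 1 + δ ^ 2) := Real.sqrt_le_sqrt (by nlinarith [sq_nonneg δ])
    have h3 : √(q 0 + δ ^ 2) ≤ √(q 0) + δ := by
      rw [Real.sqrt_le_left (by have := Real.sqrt_nonneg (q 0); positivity)]
      nlinarith [Real.sq_sqrt (hq0 0), Real.sqrt_nonneg (q 0), mul_nonneg (Real.sqrt_nonneg (q 0)) hδ.le]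
    linarith
  rw [hq, hv] at fin
  exact fin

/-- Geodesics are shortest among curves inside the small ball. -/
theorem LocLog.min (hg : IsMet U g) {x₀ : E} {r r₁ : ℝ} {F : E → E → E × (E →L[ℝ] E)}
    {lg : E → E → E} (hL : LocLog U g x₀ r F r₁ lg) {c c' : ℝ → E} (hc : C1 c c')
    (hcb : ∀ t ∈ Icc (0 : ℝ) 1, c t ∈ ball x₀ r₁) :
    gnorm g (c 0) (lg (c 0) (c 1)) ≤ glen g c c' := by
  have h := hL.lip hg (hcb 0 (by simp)) hc hcb
  rw [hL.lg_self (hcb 0 (by simp))] at h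
  simpa [gnorm] using h

end LL


/-- one-dimensional Taylor lower bound -/
theorem taylor_lower {k k' k'' : ℝ → ℝ} {c : ℝ}
    (h1 : ∀ t ∈ Icc (0 : ℝ) 1, HasDerivWithinAt k (k' t) (Icc 0 1) t)
    (h2 : ∀ t ∈ Icc (0 : ℝ) 1, HasDerivWithinAt k' (k'' t) (Icc 0 1) t)
    (hc : ∀ t ∈ Icc (0 : ℝ) 1, c ≤ k'' t) : k 0 + k' 0 + c / 2 ≤ k 1 := by
  have hint : interior (Icc (0 : ℝ) 1) = Ioo 0 1 := interior_Icc
  have m1 : MonotoneOn (fun t => k' t - c * t) (Icc (0 : ℝ) 1) := by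
    refine monotoneOn_of_hasDerivWithinAt_nonneg (convex_Icc 0 1)
      (f' := fun t => k'' t - c) ?_ ?_ ?_
    · intro t ht
      exact ((h2 t ht).continuousWithinAt).sub (by fun_prop)
    · intro t ht
      have ht' : t ∈ Icc (0 : ℝ) 1 := interior_subset ht
      have hd : HasDerivWithinAt (fun t => k' t - c * t) (k'' t - c * 1) (Icc 0 1) t :=
        (h2 t ht').sub ((hasDerivWithinAt_id t _).const_mul c)
      rw [mul_one] at hd
      exact hd.mono interior_subset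
    · intro t ht
      have := hc t (interior_subset ht)
      simpa using this
  have m2 : ∀ t ∈ Icc (0 : ℝ) 1, k' 0 + c * t ≤ k' t := by
    intro t ht
    have := m1 (left_mem_Icc.2 zero_le_one) ht ht.1
    simp only [mul_zero, sub_zero] at this
    linarith
  have m3 : MonotoneOn (fun t => k t - k' 0 * t - c / 2 * t ^ 2) (Icc (0 : ℝ) 1) := by
    refine monotoneOn_of_hasDerivWithinAt_nonneg (convex_Icc 0 1)
      (f' := fun t => k' t - k' 0 - c * t) ?_ ?_ ?_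
    · intro t ht
      exact (((h1 t ht).continuousWithinAt).sub (by fun_prop)).sub (by fun_prop)
    · intro t ht
      have ht' : t ∈ Icc (0 : ℝ) 1 := interior_subset ht
      have hd : HasDerivWithinAt (fun t => k t - k' 0 * t - c / 2 * t ^ 2)
          (k' t - k' 0 * 1 - c / 2 * (2 * t)) (Icc 0 1) t := by
        refine ((h1 t ht').sub ((hasDerivWithinAt_id t _).const_mul (k' 0))).sub ?_
        have := ((hasDerivWithinAt_id t (Icc (0 : ℝ) 1)).pow 2).const_mul (c / 2)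
        simpa using this
      have e : k' t - k' 0 * 1 - c / 2 * (2 * t) = k' t - k' 0 - c * t := by ring
      rw [e] at hd
      exact hd.mono interior_subset
    · intro t ht
      have := m2 t (interior_subset ht)
      linarith
  have := m3 (left_mem_Icc.2 zero_le_one) (right_mem_Icc.2 zero_le_one) zero_le_one
  simp only [mul_zero, sub_zero, mul_one, one_pow] at this
  norm_num at this
  linarith

theorem IsMet.exists_lower (hg : IsMet U g) {x : E} (hx : x ∈ U) :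
    ∃ lam > 0, ∀ u, lam * ‖u‖ ^ 2 ≤ g x u u := by
  by_cases hE : (sphere (0 : E) 1).Nonempty
  · have hcomp : IsCompact (sphere (0 : E) 1) := isCompact_sphere 0 1
    have hcont : ContinuousOn (fun u => g x u u) (sphere (0 : E) 1) := by fun_prop
    obtain ⟨u₀, hu₀, hmin⟩ := hcomp.exists_isMinOn hE hcont
    have hu₀' : u₀ ≠ 0 := by
      rintro rfl
      simp at hu₀
    refine ⟨g x u₀ u₀, hg.pos x hx u₀ hu₀', fun u => ?_⟩
    by_cases hu : u = 0
    · simp [hu]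
    · have hn : 0 < ‖u‖ := norm_pos_iff.2 hu
      have h1 : (‖u‖⁻¹ • u) ∈ sphere (0 : E) 1 := by
        simp [norm_smul, hn.ne']
      have h2 := hmin h1
      simp only [mem_ofPred_eq, map_smul, smul_apply, smul_eq_mul] at h2
      have h3 : ‖u‖ ^ 2 * (‖u‖⁻¹ * (‖u‖⁻¹ * g x u u)) = g x u u := by
        field_simp
      calc g x u₀ u₀ * ‖u‖ ^ 2 = ‖u‖ ^ 2 * g x u₀ u₀ := by ring
        _ ≤ ‖u‖ ^ 2 * (‖u‖⁻¹ * (‖u‖⁻¹ * g x u u)) := by
            exact mul_le_mul_of_nonneg_left h2 (by positivity)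
        _ = _ := h3
  · refine ⟨1, one_pos, fun u => ?_⟩
    have hu : u = 0 := by
      by_contra hu
      apply hE
      have hn : 0 < ‖u‖ := norm_pos_iff.2 hu
      exact ⟨‖u‖⁻¹ • u, by simp [norm_smul, hn.ne']⟩
    simp [hu]

section LL

variable {x₀ : E} {r r₁ : ℝ} {F : E → E → E × (E →L[ℝ] E)} {lg : E → E → E}

/-- squared distance in terms of the local logarithm -/
noncomputable def sqd (g : E → E →L[ℝ] E →L[ℝ] ℝ) (lg : E → E → E) (p : E × E) : ℝ :=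
  g p.1 (lg p.1 p.2) (lg p.1 p.2)

/-- partial derivative in the second variable -/
noncomputable def pd1 (g : E → E →L[ℝ] E →L[ℝ] ℝ) (lg : E → E → E) (p : E × E) : E →L[ℝ] ℝ :=
  (fderiv ℝ (sqd g lg) p) ∘L (ContinuousLinearMap.inr ℝ E E)

/-- second partial derivative in the second variable -/
noncomputable def pd2 (g : E → E →L[ℝ] E →L[ℝ] ℝ) (lg : E → E → E) (p : E × E) :
    E →L[ℝ] E →L[ℝ] ℝ :=
  (fderiv ℝ (pd1 g lg) p) ∘L (ContinuousLinearMap.inr ℝ E E)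

theorem LocLog.open_prod (hL : LocLog U g x₀ r F r₁ lg) :
    IsOpen (ball x₀ r₁ ×ˢ ball x₀ r₁) := isOpen_ball.prod isOpen_ball

theorem LocLog.sqd_smooth (hg : IsMet U g) (hL : LocLog U g x₀ r F r₁ lg) :
    ContDiffOn ℝ ∞ (sqd g lg) (ball x₀ r₁ ×ˢ ball x₀ r₁) := by
  have h1 : ContDiffOn ℝ ∞ (fun p : E × E => g p.1) (ball x₀ r₁ ×ˢ ball x₀ r₁) :=
    hg.smooth.comp contDiff_fst.contDiffOn (fun p hp => hL.mem_U hp.1)
  exact (h1.clm_apply hL.smooth).clm_apply hL.smooth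

theorem LocLog.pd1_smooth (hg : IsMet U g) (hL : LocLog U g x₀ r F r₁ lg) :
    ContDiffOn ℝ ∞ (pd1 g lg) (ball x₀ r₁ ×ˢ ball x₀ r₁) := by
  have h1 := (hL.sqd_smooth hg).fderiv_of_isOpen hL.open_prod (m := ∞) (by simp)
  exact h1.clm_comp contDiffOn_const

theorem LocLog.pd2_cont (hg : IsMet U g) (hL : LocLog U g x₀ r F r₁ lg) :
    ContinuousOn (pd2 g lg) (ball x₀ r₁ ×ˢ ball x₀ r₁) := by
  have h1 := (hL.pd1_smooth hg).fderiv_of_isOpen hL.open_prod (m := ∞) (by simp)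
  exact (h1.clm_comp contDiffOn_const).continuousOn

theorem LocLog.hasFDerivAt_sqd (hg : IsMet U g) (hL : LocLog U g x₀ r F r₁ lg) {a y : E}
    (ha : a ∈ ball x₀ r₁) (hy : y ∈ ball x₀ r₁) :
    HasFDerivAt (fun y => sqd g lg (a, y)) (pd1 g lg (a, y)) y := by
  have h1 : HasFDerivAt (sqd g lg) (fderiv ℝ (sqd g lg) (a, y)) (a, y) :=
    (((hL.sqd_smooth hg).contDiffAt (hL.open_prod.mem_nhds ⟨ha, hy⟩)).differentiableAt
      (by simp)).hasFDerivAt
  have h2 : HasFDerivAt (fun y : E => (a, y)) (ContinuousLinearMap.inr ℝ E E) y :=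
    (hasFDerivAt_const (𝕜 := ℝ) a y).prodMk (hasFDerivAt_id (𝕜 := ℝ) y)
  exact HasFDerivAt.comp y (g := sqd g lg) h1 h2

theorem LocLog.hasFDerivAt_pd1 (hg : IsMet U g) (hL : LocLog U g x₀ r F r₁ lg) {a y : E}
    (ha : a ∈ ball x₀ r₁) (hy : y ∈ ball x₀ r₁) :
    HasFDerivAt (fun y => pd1 g lg (a, y)) (pd2 g lg (a, y)) y := by
  have h1 : HasFDerivAt (pd1 g lg) (fderiv ℝ (pd1 g lg) (a, y)) (a, y) :=
    (((hL.pd1_smooth hg).contDiffAt (hL.open_prod.mem_nhds ⟨ha, hy⟩)).differentiableAt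
      (by simp)).hasFDerivAt
  have h2 : HasFDerivAt (fun y : E => (a, y)) (ContinuousLinearMap.inr ℝ E E) y :=
    (hasFDerivAt_const (𝕜 := ℝ) a y).prodMk (hasFDerivAt_id (𝕜 := ℝ) y)
  exact HasFDerivAt.comp y (g := pd1 g lg) h1 h2

theorem LocLog.pd1_center (hg : IsMet U g) (hL : LocLog U g x₀ r F r₁ lg) :
    pd1 g lg (x₀, x₀) = 0 := by
  have hx := mem_ball_self (x := x₀) hL.r₁_pos
  have h1 : IsLocalMin (fun y => sqd g lg (x₀, y)) x₀ := by
    filter_upwards with y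
    have : sqd g lg (x₀, x₀) = 0 := by simp [sqd, hL.lg_self hx]
    rw [this]
    exact hg.nonneg (hL.mem_U hx) _
  exact h1.hasFDerivAt_eq_zero (hL.hasFDerivAt_sqd hg hx hx)

/-- the differential of the logarithm at the centre is the identity -/
theorem LocLog.dlg_self (hL : LocLog U g x₀ r F r₁ lg) {a : E} (ha : a ∈ ball x₀ r₁) (u : E) :
    fderiv ℝ (lg a) a u = u := by
  have h0 := hL.dexp_dlg ha ha u
  rw [hL.lg_self ha] at h0
  -- derivative of exp at 0 in direction w is w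
  have har := hL.mem_r ha
  have key : ∀ w : E, fderiv ℝ (fun w => (F a w).1) 0 w = w := by
    intro w
    have h1 := hL.flow.hasFDerivAt_exp har (mem_ball_self hL.flow.r_pos)
    have h2 : HasDerivAt (fun s : ℝ => s • w) w 0 := by
      simpa using (hasDerivAt_id (0 : ℝ)).smul_const w
    have h1' : HasFDerivAt (fun w => (F a w).1) (fderiv ℝ (fun w => (F a w).1) 0)
        ((0 : ℝ) • w) := by simpa using h1
    have h3 := h1'.comp_hasDerivAt (0 : ℝ) h2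
    have h4 := hL.flow.ode a har w 0 (by simpa using hL.flow.r_pos)
    rw [zero_smul, hL.flow.zero a har, vel_apply] at h4
    have h5 := h3.unique h4.fst
    rw [h5]
    simp
  rw [key] at h0
  exact h0

theorem LocLog.pd2_center (hg : IsMet U g) (hL : LocLog U g x₀ r F r₁ lg) (u : E) :
    pd2 g lg (x₀, x₀) u u = 2 * g x₀ u u := by
  have hx := mem_ball_self (x := x₀) hL.r₁_pos
  have hxU := hL.mem_U hx
  -- formula for pd1 near the centre
  have e1 : ∀ y ∈ ball x₀ r₁, pd1 g lg (x₀, y) u =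
      2 * g x₀ (lg x₀ y) (fderiv ℝ (lg x₀) y u) := by
    intro y hy
    have h1 := hL.hasFDerivAt_sqd hg hx hy
    have h2 := hL.hasFDerivAt_lg hx hy
    have h3 : HasFDerivAt (fun y => g x₀ (lg x₀ y)) ((g x₀) ∘L (fderiv ℝ (lg x₀) y)) y :=
      (g x₀).hasFDerivAt.comp y h2
    have h4 := h3.clm_apply h2
    have h5 := h1.unique h4
    rw [h5]
    simp
    rw [hg.symm x₀ hxU (fderiv ℝ (lg x₀) y u) (lg x₀ y)]
    ring
  have h1 : HasFDerivAt (fun y => pd1 g lg (x₀, y) u)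
      ((ContinuousLinearMap.apply ℝ ℝ u) ∘L (pd2 g lg (x₀, x₀))) x₀ :=
    (ContinuousLinearMap.apply ℝ ℝ u).hasFDerivAt.comp x₀ (hL.hasFDerivAt_pd1 hg hx hx)
  have h2 := hL.hasFDerivAt_lg hx hx
  have h3 : HasFDerivAt (fun y => g x₀ (lg x₀ y)) ((g x₀) ∘L (fderiv ℝ (lg x₀) x₀)) x₀ :=
    (g x₀).hasFDerivAt.comp x₀ h2
  have h6 : ContDiffAt ℝ ∞ (lg x₀) x₀ := (hL.smooth_right hx).contDiffAt (isOpen_ball.mem_nhds hx)
  have h7 : HasFDerivAt (fderiv ℝ (lg x₀)) (fderiv ℝ (fderiv ℝ (lg x₀)) x₀) x₀ :=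
    ((h6.fderiv_right (m := 1) (by norm_cast)).differentiableAt (by simp)).hasFDerivAt
  have h8 := (h3.clm_apply (h7.clm_apply (hasFDerivAt_const u x₀))).const_mul 2
  have h9 : (fun y => pd1 g lg (x₀, y) u) =ᶠ[𝓝 x₀]
      (fun y => 2 * g x₀ (lg x₀ y) (fderiv ℝ (lg x₀) y u)) := by
    filter_upwards [isOpen_ball.mem_nhds hx] with y hy using e1 y hy
  have h10 := (h1.congr_of_eventuallyEq h9.symm).unique h8
  have := congrArg (fun T : E →L[ℝ] ℝ => T u) h10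
  simp [hL.lg_self hx, hL.dlg_self hx] at this
  rw [this]

/-- good radius: strong convexity in the chart and along geodesics -/
theorem LocLog.exists_convex (hg : IsMet U g) (hL : LocLog U g x₀ r F r₁ lg) :
    ∃ r₂ > 0, r₂ ≤ r₁ ∧ ∃ lam > 0, ∀ a ∈ ball x₀ r₂, ∀ y ∈ ball x₀ r₂, ∀ u : E,
      lam * ‖u‖ ^ 2 ≤ pd2 g lg (a, y) u u ∧
      lam * ‖u‖ ^ 2 ≤ pd2 g lg (a, y) u u - pd1 g lg (a, y) (Gam g y u u) := by
  have hx := mem_ball_self (x := x₀) hL.r₁_pos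
  have hxU := hL.mem_U hx
  obtain ⟨lam, hlam, hlow⟩ := hg.exists_lower hxU
  have hmem := hL.open_prod.mem_nhds (show (x₀, x₀) ∈ ball x₀ r₁ ×ˢ ball x₀ r₁ from ⟨hx, hx⟩)
  have c1 : ContinuousAt (pd2 g lg) (x₀, x₀) := (hL.pd2_cont hg).continuousAt hmem
  have c2 : ContinuousAt (fun p : E × E => pd2 g lg p -
      (ContinuousLinearMap.compL ℝ E E ℝ (pd1 g lg p)) ∘L (Gam g p.2)) (x₀, x₀) := by
    have d1 : ContinuousAt (pd1 g lg) (x₀, x₀) := (hL.pd1_smooth hg).continuousOn.continuousAt hmem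
    have d2 : ContinuousAt (fun p : E × E => Gam g p.2) (x₀, x₀) := by
      have : ContinuousAt (Gam g) x₀ :=
        hg.Gam_smooth.continuousOn.continuousAt (hg.isOpen.mem_nhds hxU)
      exact ContinuousAt.comp (f := fun p : E × E => p.2) (g := Gam g) this continuousAt_snd
    have d3 : ContinuousAt (fun p : E × E => ContinuousLinearMap.compL ℝ E E ℝ (pd1 g lg p))
        (x₀, x₀) := (ContinuousLinearMap.compL ℝ E E ℝ).continuous.continuousAt.comp d1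
    exact c1.sub (d3.clm_comp d2)
  have c3 : (ContinuousLinearMap.compL ℝ E E ℝ (pd1 g lg (x₀, x₀))) ∘L (Gam g x₀) = 0 := by
    rw [hL.pd1_center hg]; ext; simp
  have n1 : ∀ᶠ p in 𝓝 (x₀, x₀), ‖pd2 g lg p - pd2 g lg (x₀, x₀)‖ < lam := by
    have := (c1.sub (continuousAt_const (y := pd2 g lg (x₀, x₀)))).norm
    exact Filter.Tendsto.eventually_lt_const (by simpa using hlam) this
  have n2 : ∀ᶠ p in 𝓝 (x₀, x₀), ‖(pd2 g lg p -
      (ContinuousLinearMap.compL ℝ E E ℝ (pd1 g lg p)) ∘L (Gam g p.2)) -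
        pd2 g lg (x₀, x₀)‖ < lam := by
    have := (c2.sub (continuousAt_const (y := pd2 g lg (x₀, x₀)))).norm
    refine Filter.Tendsto.eventually_lt_const ?_ this
    simp only [Pi.sub_apply]
    rw [c3]
    simpa using hlam
  obtain ⟨r₂, hr₂, hsub⟩ := Metric.mem_nhds_iff.1 (n1.and n2)
  refine ⟨Min.min r₂ r₁, lt_min hr₂ hL.r₁_pos, min_le_right _ _, lam, hlam, ?_⟩
  intro a ha y hy u
  have hay : (a, y) ∈ ball (x₀, x₀) r₂ := by
    rw [← ball_prod_same]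
    exact ⟨ball_subset_ball (min_le_left _ _) ha, ball_subset_ball (min_le_left _ _) hy⟩
  obtain ⟨k1, k2⟩ := hsub hay
  have h0 := hlow u
  have hc := hL.pd2_center hg u
  have bound : ∀ T : E →L[ℝ] E →L[ℝ] ℝ, ‖T‖ < lam → - (lam * ‖u‖ ^ 2) ≤ T u u := by
    intro T hT
    have h1 : |T u u| ≤ ‖T‖ * ‖u‖ * ‖u‖ := by
      have := T.le_opNorm₂ u u
      simpa using this
    have h2 : ‖T‖ * ‖u‖ * ‖u‖ ≤ lam * ‖u‖ ^ 2 := by
      have : ‖T‖ * ‖u‖ * ‖u‖ = ‖T‖ * ‖u‖ ^ 2 := by ring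
      rw [this]
      exact mul_le_mul_of_nonneg_right hT.le (by positivity)
    have := neg_abs_le (T u u)
    linarith
  have b1 := bound _ k1
  have b2 := bound _ k2
  simp only [sub_apply, ContinuousLinearMap.comp_apply, ContinuousLinearMap.compL_apply] at b1 b2
  constructor <;> linarith

/-- strong convexity of the squared distance in the chart -/
theorem LocLog.si (hg : IsMet U g) (hL : LocLog U g x₀ r F r₁ lg) {r₂ lam : ℝ} (hr₂ : r₂ ≤ r₁)
    (hconv : ∀ a ∈ ball x₀ r₂, ∀ y ∈ ball x₀ r₂, ∀ u : E, lam * ‖u‖ ^ 2 ≤ pd2 g lg (a, y) u u)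
    {a y y' : E} (ha : a ∈ ball x₀ r₂) (hy : y ∈ ball x₀ r₂) (hy' : y' ∈ ball x₀ r₂) :
    sqd g lg (a, y) + pd1 g lg (a, y) (y' - y) + lam / 2 * ‖y' - y‖ ^ 2 ≤ sqd g lg (a, y') := by
  have hseg : ∀ t ∈ Icc (0 : ℝ) 1, y + t • (y' - y) ∈ ball x₀ r₂ := by
    intro t ht
    have := (convex_ball x₀ r₂).add_smul_sub_mem hy hy' ht
    exact this
  have hline : ∀ t : ℝ, HasDerivAt (fun t : ℝ => y + t • (y' - y)) (y' - y) t := by
    intro t
    simpa using ((hasDerivAt_id t).smul_const (y' - y)).const_add y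
  have h1 : ∀ t ∈ Icc (0 : ℝ) 1, HasDerivWithinAt (fun t : ℝ => sqd g lg (a, y + t • (y' - y)))
      (pd1 g lg (a, y + t • (y' - y)) (y' - y)) (Icc 0 1) t := by
    intro t ht
    have k := hL.hasFDerivAt_sqd hg (ball_subset_ball hr₂ ha) (ball_subset_ball hr₂ (hseg t ht))
    exact (HasFDerivAt.comp_hasDerivAt t k (hline t)).hasDerivWithinAt
  have h2 : ∀ t ∈ Icc (0 : ℝ) 1, HasDerivWithinAt
      (fun t : ℝ => pd1 g lg (a, y + t • (y' - y)) (y' - y))
      (pd2 g lg (a, y + t • (y' - y)) (y' - y) (y' - y)) (Icc 0 1) t := by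
    intro t ht
    have k := hL.hasFDerivAt_pd1 hg (ball_subset_ball hr₂ ha) (ball_subset_ball hr₂ (hseg t ht))
    have k2 := HasFDerivAt.comp_hasDerivAt t k (hline t)
    exact ((ContinuousLinearMap.apply ℝ ℝ (y' - y)).hasFDerivAt.comp_hasDerivAt t
      k2).hasDerivWithinAt
  have h3 := taylor_lower h1 h2 (c := lam * ‖y' - y‖ ^ 2)
    (fun t ht => hconv a ha _ (hseg t ht) _)
  simp only [zero_smul, add_zero, one_smul, add_sub_cancel] at h3
  linarith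

/-- arcs stay in small balls -/
theorem LocLog.arc_mem (hL : LocLog U g x₀ r F r₁ lg) {ρ : ℝ} (hρ : 0 < ρ) :
    ∃ r₃ > 0, r₃ ≤ r₁ ∧ r₃ ≤ ρ ∧ ∀ b ∈ ball x₀ r₃, ∀ c ∈ ball x₀ r₃, ∀ s ∈ Icc (0 : ℝ) 1,
      (F b (s • lg b c)).1 ∈ ball x₀ ρ := by
  have hx := mem_ball_self (x := x₀) hL.r₁_pos
  have hxr := hL.mem_r hx
  have h1 : ContinuousAt (fun p : E × E => (F p.1 p.2).1) (x₀, 0) :=
    ((contDiff_fst.comp_contDiffOn hL.flow.smooth).continuousOn).continuousAt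
      ((isOpen_ball.prod isOpen_ball).mem_nhds ⟨hxr, mem_ball_self hL.flow.r_pos⟩)
  have h2 : ∀ᶠ p in 𝓝 (x₀, (0 : E)), (F p.1 p.2).1 ∈ ball x₀ ρ := by
    apply h1.eventually
    simp only [hL.flow.zero x₀ hxr]
    exact ball_mem_nhds _ hρ
  obtain ⟨δ, hδ, hsub⟩ := Metric.mem_nhds_iff.1 h2
  have h3 : ContinuousAt (fun p : E × E => lg p.1 p.2) (x₀, x₀) :=
    hL.smooth.continuousOn.continuousAt (hL.open_prod.mem_nhds ⟨hx, hx⟩)
  have h4 : ∀ᶠ p in 𝓝 (x₀, x₀), lg p.1 p.2 ∈ ball (0 : E) δ := by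
    apply h3.eventually
    simp only [hL.lg_self hx]
    exact ball_mem_nhds _ hδ
  obtain ⟨r₃, hr₃, hsub2⟩ := Metric.mem_nhds_iff.1 h4
  refine ⟨Min.min (Min.min r₃ δ) (Min.min r₁ ρ), lt_min (lt_min hr₃ hδ) (lt_min hL.r₁_pos hρ),
    (min_le_right _ _).trans (min_le_left _ _), (min_le_right _ _).trans (min_le_right _ _), ?_⟩
  intro b hb c hc s hs
  have hb1 : b ∈ ball x₀ r₃ := ball_subset_ball ((min_le_left _ _).trans (min_le_left _ _)) hb
  have hb2 : b ∈ ball x₀ δ := ball_subset_ball ((min_le_left _ _).trans (min_le_right _ _)) hb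
  have hc1 : c ∈ ball x₀ r₃ := ball_subset_ball ((min_le_left _ _).trans (min_le_left _ _)) hc
  have hbc : (b, c) ∈ ball (x₀, x₀) r₃ := by rw [← ball_prod_same]; exact ⟨hb1, hc1⟩
  have h5 := hsub2 hbc
  simp only [mem_ofPred_eq, mem_ball_zero_iff] at h5
  have h6 : s • lg b c ∈ ball (0 : E) δ := by
    rw [mem_ball_zero_iff, norm_smul, Real.norm_eq_abs, abs_of_nonneg hs.1]
    calc s * ‖lg b c‖ ≤ 1 * ‖lg b c‖ := mul_le_mul_of_nonneg_right hs.2 (norm_nonneg _)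
      _ < δ := by rw [one_mul]; exact h5
  have h7 : (b, s • lg b c) ∈ ball (x₀, (0 : E)) δ := by
    rw [← ball_prod_same]; exact ⟨hb2, h6⟩
  exact hsub h7

theorem LocLog.arc_norm (hL : LocLog U g x₀ r F r₁ lg) {b c : E} (hb : b ∈ ball x₀ r₁)
    (hc : c ∈ ball x₀ r₁) {t : ℝ} (ht : t ∈ Icc (0 : ℝ) 1) : ‖t • lg b c‖ < r := by
  have h1 := hL.lg_mem b hb c hc
  rw [mem_ball_zero_iff] at h1
  rw [norm_smul, Real.norm_eq_abs, abs_of_nonneg ht.1]
  calc t * ‖lg b c‖ ≤ 1 * ‖lg b c‖ := mul_le_mul_of_nonneg_right ht.2 (norm_nonneg _)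
    _ < r := by rw [one_mul]; exact h1

theorem LocLog.arc_deriv (hL : LocLog U g x₀ r F r₁ lg) {b c : E} (hb : b ∈ ball x₀ r₁)
    (hc : c ∈ ball x₀ r₁) {t : ℝ} (ht : t ∈ Icc (0 : ℝ) 1) :
    HasDerivAt (fun s : ℝ => (F b (s • lg b c)).1) ((F b (t • lg b c)).2 (lg b c)) t ∧
    HasDerivAt (fun s : ℝ => (F b (s • lg b c)).2 (lg b c))
      (-(Gam g (F b (t • lg b c)).1 ((F b (t • lg b c)).2 (lg b c))
        ((F b (t • lg b c)).2 (lg b c)))) t := by
  have h1 := hL.flow.ode b (hL.mem_r hb) (lg b c) t (hL.arc_norm hb hc ht)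
  have e := vel_apply g (F b (t • lg b c)).1 (F b (t • lg b c)).2 (lg b c) 0
  have e' : vel g (F b (t • lg b c)) (lg b c, 0) = ((F b (t • lg b c)).2 (lg b c),
      (F b (t • lg b c)).2 ∘L 0 - Gam g (F b (t • lg b c)).1
        ((F b (t • lg b c)).2 (lg b c)) ∘L (F b (t • lg b c)).2) := e
  rw [e'] at h1
  refine ⟨h1.fst, ?_⟩
  have h0 : HasDerivAt (fun s : ℝ => (F b (s • lg b c)).2) ((F b (t • lg b c)).2 ∘L 0 -
      Gam g (F b (t • lg b c)).1 ((F b (t • lg b c)).2 (lg b c)) ∘L (F b (t • lg b c)).2) t :=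
    h1.snd
  have h2 := h0.clm_apply (hasDerivAt_const t (lg b c))
  simpa using h2

theorem LocLog.arc_gnorm (hg : IsMet U g) (hL : LocLog U g x₀ r F r₁ lg) {b c : E}
    (hb : b ∈ ball x₀ r₁) (hc : c ∈ ball x₀ r₁) {t : ℝ} (ht : t ∈ Icc (0 : ℝ) 1) :
    gnorm g (F b (t • lg b c)).1 ((F b (t • lg b c)).2 (lg b c)) = gnorm g b (lg b c) := by
  unfold gnorm
  rw [hL.flow.isom hg (hL.mem_r hb) (by rw [mem_ball_zero_iff]; exact hL.arc_norm hb hc ht)]

/-- The distance to `a` changes along an arc at most by the length of the arc. -/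
theorem LocLog.arc_lip (hg : IsMet U g) (hL : LocLog U g x₀ r F r₁ lg) {a b c : E}
    (ha : a ∈ ball x₀ r₁) (hb : b ∈ ball x₀ r₁) (hc : c ∈ ball x₀ r₁)
    (harc : ∀ s ∈ Icc (0 : ℝ) 1, (F b (s • lg b c)).1 ∈ ball x₀ r₁) {s s' : ℝ}
    (hs : s ∈ Icc (0 : ℝ) 1) (hs' : s' ∈ Icc (0 : ℝ) 1) :
    gnorm g a (lg a (F b (s' • lg b c)).1) ≤
      gnorm g a (lg a (F b (s • lg b c)).1) + |s' - s| * gnorm g b (lg b c) := by
  obtain ⟨v, hv⟩ : ∃ v, v = lg b c := ⟨_, rfl⟩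
  have hst : ∀ t ∈ Icc (0 : ℝ) 1, s + t * (s' - s) ∈ Icc (0 : ℝ) 1 := by
    intro t ht
    have := (convex_Icc (0 : ℝ) 1).add_smul_sub_mem hs hs' ht
    simpa using this
  have hd : ∀ t ∈ Icc (0 : ℝ) 1, HasDerivAt (fun t : ℝ => (F b ((s + t * (s' - s)) • v)).1)
      ((s' - s) • (F b ((s + t * (s' - s)) • v)).2 v) t := by
    intro t ht
    have h1 := (hL.arc_deriv hb hc (hst t ht)).1
    rw [← hv] at h1
    have h2 : HasDerivAt (fun t : ℝ => s + t * (s' - s)) (s' - s) t := by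
      simpa using ((hasDerivAt_id t).mul_const (s' - s)).const_add s
    exact h1.scomp t h2
  have hcont : ContinuousOn (fun t : ℝ => (s' - s) • (F b ((s + t * (s' - s)) • v)).2 v)
      (Icc (0 : ℝ) 1) := by
    intro t ht
    have h1 := (hL.arc_deriv hb hc (hst t ht)).2
    rw [← hv] at h1
    have h2 : ContinuousAt (fun t : ℝ => s + t * (s' - s)) t := by fun_prop
    have h3 : ContinuousAt (fun t : ℝ => (F b ((s + t * (s' - s)) • v)).2 v) t :=
      ContinuousAt.comp (g := fun s : ℝ => (F b (s • v)).2 v)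
        (f := fun t : ℝ => s + t * (s' - s)) h1.continuousAt h2
    exact (h3.const_smul (s' - s)).continuousWithinAt
  have hC : C1 (fun t : ℝ => (F b ((s + t * (s' - s)) • v)).1)
      (fun t : ℝ => (s' - s) • (F b ((s + t * (s' - s)) • v)).2 v) :=
    ⟨fun t ht => (hd t ht).hasDerivWithinAt, hcont⟩
  have h1 := hL.lip hg ha hC (fun t ht => by rw [hv]; exact harc _ (hst t ht))
  have h2 : glen g (fun t : ℝ => (F b ((s + t * (s' - s)) • v)).1)
      (fun t : ℝ => (s' - s) • (F b ((s + t * (s' - s)) • v)).2 v) =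
      |s' - s| * gnorm g b (lg b c) := by
    unfold glen
    have : ∀ t ∈ uIcc (0 : ℝ) 1, gnorm g (F b ((s + t * (s' - s)) • v)).1
        ((s' - s) • (F b ((s + t * (s' - s)) • v)).2 v) = |s' - s| * gnorm g b (lg b c) := by
      intro t ht
      rw [uIcc_of_le zero_le_one] at ht
      have h3 := hL.arc_gnorm hg hb hc (hst t ht)
      rw [← hv] at h3 ⊢
      rw [← h3]
      unfold gnorm
      simp only [map_smul, smul_apply, smul_eq_mul]
      rw [← mul_assoc, Real.sqrt_mul (mul_self_nonneg _), Real.sqrt_mul_self_eq_abs]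
    rw [intervalIntegral.integral_congr this]
    simp
  rw [h2] at h1
  simpa [hv] using h1

theorem LocLog.arc_one (hL : LocLog U g x₀ r F r₁ lg) {b c : E}
    (hb : b ∈ ball x₀ r₁) (hc : c ∈ ball x₀ r₁) : (F b ((1 : ℝ) • lg b c)).1 = c := by
  rw [one_smul]; exact hL.right b hb c hc

theorem LocLog.arc_zero (hL : LocLog U g x₀ r F r₁ lg) {b c : E}
    (hb : b ∈ ball x₀ r₁) : (F b ((0 : ℝ) • lg b c)).1 = b := by
  rw [zero_smul, hL.flow.zero b (hL.mem_r hb)]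

/-- Radius in which the local distance is symmetric and satisfies the triangle inequality. -/
theorem LocLog.exists_symm (hg : IsMet U g) (hL : LocLog U g x₀ r F r₁ lg) :
    ∃ r₃ > 0, r₃ ≤ r₁ ∧ (∀ a ∈ ball x₀ r₃, ∀ b ∈ ball x₀ r₃,
      gnorm g a (lg a b) = gnorm g b (lg b a)) ∧
      (∀ a ∈ ball x₀ r₃, ∀ b ∈ ball x₀ r₃, ∀ c ∈ ball x₀ r₃,
        gnorm g a (lg a c) ≤ gnorm g a (lg a b) + gnorm g b (lg b c)) := by
  obtain ⟨r₃, hr₃, hr₃1, -, harc⟩ := hL.arc_mem hL.r₁_pos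
  have hsub : ∀ x ∈ ball x₀ r₃, x ∈ ball x₀ r₁ := fun x hx => ball_subset_ball hr₃1 hx
  have le : ∀ a ∈ ball x₀ r₃, ∀ b ∈ ball x₀ r₃, gnorm g b (lg b a) ≤ gnorm g a (lg a b) := by
    intro a ha b hb
    have h1 := hL.arc_lip hg (a := b) (b := a) (c := b) (hsub b hb) (hsub a ha) (hsub b hb)
      (fun s hs => harc a ha b hb s hs) (s := 1) (s' := 0) (by simp) (by simp)
    rw [hL.arc_one (hsub a ha) (hsub b hb), hL.arc_zero (hsub a ha),
      hL.lg_self (hsub b hb)] at h1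
    simpa [gnorm] using h1
  refine ⟨r₃, hr₃, hr₃1, fun a ha b hb => le_antisymm (le b hb a ha) (le a ha b hb), ?_⟩
  intro a ha b hb c hc
  have h1 := hL.arc_lip hg (a := a) (b := b) (c := c) (hsub a ha) (hsub b hb) (hsub c hc)
      (fun s hs => harc b hb c hc s hs) (s := 0) (s' := 1) (by simp) (by simp)
  rw [hL.arc_one (hsub b hb) (hsub c hc), hL.arc_zero (hsub b hb)] at h1
  simpa using h1

/-- Points between `x` and `y` lie on the geodesic. -/
theorem LocLog.between (hg : IsMet U g) {x₀ : E} {r r₁ : ℝ} {F : E → E → E × (E →L[ℝ] E)}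
    {lg : E → E → E} (hL : LocLog U g x₀ r F r₁ lg) :
    ∃ r₂ > 0, r₂ ≤ r₁ ∧ ∀ x ∈ ball x₀ r₂, ∀ y ∈ ball x₀ r₂, ∀ z ∈ ball x₀ r₂,
      ∀ s ∈ Icc (0 : ℝ) 1, gnorm g x (lg x z) = s * gnorm g x (lg x y) →
      gnorm g z (lg z y) = (1 - s) * gnorm g x (lg x y) → z = (F x (s • lg x y)).1 := by
  obtain ⟨r₃, hr₃, hr₃1, hsymm, htri⟩ := hL.exists_symm hg
  obtain ⟨r₄, hr₄, hr₄1, lam, hlam, hconv⟩ := hL.exists_convex hg
  obtain ⟨ρ, hρ⟩ : ∃ ρ, ρ = Min.min r₃ r₄ := ⟨_, rfl⟩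
  have hρ0 : 0 < ρ := by rw [hρ]; exact lt_min hr₃ hr₄
  have hρ3 : ρ ≤ r₃ := by rw [hρ]; exact min_le_left _ _
  have hρ4 : ρ ≤ r₄ := by rw [hρ]; exact min_le_right _ _
  have hρ1 : ρ ≤ r₁ := hρ3.trans hr₃1
  obtain ⟨r₅, hr₅, hr₅1, hr₅ρ, harc⟩ := hL.arc_mem hρ0
  refine ⟨r₅, hr₅, hr₅1, ?_⟩
  intro x hx y hy z hz s hs h1 h2
  have sub1 : ∀ w ∈ ball x₀ r₅, w ∈ ball x₀ r₁ := fun w hw => ball_subset_ball hr₅1 hw
  have subρ : ∀ w ∈ ball x₀ r₅, w ∈ ball x₀ ρ := fun w hw => ball_subset_ball hr₅ρ hw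
  obtain ⟨d, hd⟩ : ∃ d, d = gnorm g x (lg x y) := ⟨_, rfl⟩
  rw [← hd] at h1 h2
  rcases eq_or_lt_of_le hs.1 with hs0 | hs0
  · -- s = 0
    rw [← hs0, zero_mul] at h1
    have h3 := hg.gnorm_eq_zero (hL.mem_U (sub1 x hx)) h1
    have h4 := hL.right x (sub1 x hx) z (sub1 z hz)
    rw [h3] at h4
    rw [← hs0, zero_smul]
    exact h4.symm
  rcases eq_or_lt_of_le hs.2 with hs1 | hs1
  · rw [hs1, sub_self, zero_mul] at h2
    have h3 := hg.gnorm_eq_zero (hL.mem_U (sub1 z hz)) h2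
    have h4 := hL.right z (sub1 z hz) y (sub1 y hy)
    rw [h3, hL.flow.zero z (hL.mem_r (sub1 z hz))] at h4
    rw [hs1, hL.arc_one (sub1 x hx) (sub1 y hy)]
    exact h4
  -- the interior case
  obtain ⟨w, hw⟩ : ∃ w, w = (F x (s • lg x y)).1 := ⟨_, rfl⟩
  have hwρ : w ∈ ball x₀ ρ := by rw [hw]; exact harc x hx y hy s hs
  have hw1 : w ∈ ball x₀ r₁ := ball_subset_ball hρ1 hwρ
  rw [← hw]
  have hxw : lg x w = s • lg x y := by
    rw [hw]
    exact hL.left x (sub1 x hx) _ (by rw [mem_ball_zero_iff]; exact hL.arc_norm (sub1 x hx) (sub1 y hy) hs)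
      (by rw [← hw]; exact hw1)
  have dxw : gnorm g x (lg x w) = s * d := by rw [hxw, gnorm_smul hs.1, hd]
  have dyw : gnorm g y (lg y w) ≤ (1 - s) * d := by
    have k := hL.arc_lip hg (a := y) (b := x) (c := y) (sub1 y hy) (sub1 x hx) (sub1 y hy)
      (fun t ht => ball_subset_ball hρ1 (harc x hx y hy t ht)) (s := 1) (s' := s) (by simp) hs
    rw [hL.arc_one (sub1 x hx) (sub1 y hy), hL.lg_self (sub1 y hy), ← hw, ← hd] at k
    have e : |s - 1| = 1 - s := by rw [abs_sub_comm]; exact abs_of_nonneg (by linarith)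
    rw [e] at k
    simpa [gnorm] using k
  have dyz : gnorm g y (lg y z) = (1 - s) * d := by
    rw [← h2]
    exact hsymm y (ball_subset_ball hρ3 (subρ y hy)) z (ball_subset_ball hρ3 (subρ z hz))
  have sq : ∀ a ∈ ball x₀ r₁, ∀ b, sqd g lg (a, b) = gnorm g a (lg a b) ^ 2 := by
    intro a ha b
    rw [hg.gnorm_sq (hL.mem_U ha)]; rfl
  have hd0 : 0 ≤ d := by rw [hd]; exact gnorm_nonneg _ _
  have h1s : 0 < 1 - s := by linarith
  -- the function F
  have Fmin : ∀ ζ ∈ ball x₀ ρ, d ^ 2 ≤ s⁻¹ * sqd g lg (x, ζ) + (1 - s)⁻¹ * sqd g lg (y, ζ) := by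
    intro ζ hζ
    rw [sq x (sub1 x hx), sq y (sub1 y hy)]
    have t1 := htri x (ball_subset_ball hρ3 (subρ x hx)) ζ (ball_subset_ball hρ3 hζ) y
      (ball_subset_ball hρ3 (subρ y hy))
    have t2 := hsymm ζ (ball_subset_ball hρ3 hζ) y (ball_subset_ball hρ3 (subρ y hy))
    rw [← hd, t2] at t1
    obtain ⟨A, hA⟩ : ∃ A, A = gnorm g x (lg x ζ) := ⟨_, rfl⟩
    obtain ⟨B, hB⟩ : ∃ B, B = gnorm g y (lg y ζ) := ⟨_, rfl⟩
    rw [← hA, ← hB] at t1 ⊢
    have hA0 : 0 ≤ A := by rw [hA]; exact gnorm_nonneg _ _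
    have hB0 : 0 ≤ B := by rw [hB]; exact gnorm_nonneg _ _
    have e1 : d ^ 2 ≤ (A + B) ^ 2 := by nlinarith
    have e2 : (A + B) ^ 2 ≤ s⁻¹ * A ^ 2 + (1 - s)⁻¹ * B ^ 2 := by
      have e3 : s⁻¹ * A ^ 2 + (1 - s)⁻¹ * B ^ 2 - (A + B) ^ 2 =
          (s⁻¹ * (1 - s)⁻¹) * ((1 - s) * A - s * B) ^ 2 := by
        field_simp
        ring
      have e4 : 0 ≤ (s⁻¹ * (1 - s)⁻¹) * ((1 - s) * A - s * B) ^ 2 := by positivity
      linarith
    linarith
  have Fz : s⁻¹ * sqd g lg (x, z) + (1 - s)⁻¹ * sqd g lg (y, z) = d ^ 2 := by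
    rw [sq x (sub1 x hx), sq y (sub1 y hy), h1, dyz]
    field_simp
    ring
  have Fw : s⁻¹ * sqd g lg (x, w) + (1 - s)⁻¹ * sqd g lg (y, w) ≤ d ^ 2 := by
    rw [sq x (sub1 x hx), sq y (sub1 y hy), dxw]
    have k1 : gnorm g y (lg y w) ^ 2 ≤ ((1 - s) * d) ^ 2 :=
      pow_le_pow_left₀ (gnorm_nonneg _ _) dyw 2
    have k2 : (1 - s)⁻¹ * gnorm g y (lg y w) ^ 2 ≤ (1 - s)⁻¹ * ((1 - s) * d) ^ 2 :=
      mul_le_mul_of_nonneg_left k1 (by positivity)
    have k3 : s⁻¹ * (s * d) ^ 2 + (1 - s)⁻¹ * ((1 - s) * d) ^ 2 = d ^ 2 := by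
      field_simp
      ring
    linarith
  have hzρ := subρ z hz
  have hz1 := sub1 z hz
  have dz := ((hL.hasFDerivAt_sqd hg (sub1 x hx) hz1).const_mul s⁻¹).add
    ((hL.hasFDerivAt_sqd hg (sub1 y hy) hz1).const_mul (1 - s)⁻¹)
  have hmin : IsLocalMin (fun ζ => s⁻¹ * sqd g lg (x, ζ) + (1 - s)⁻¹ * sqd g lg (y, ζ)) z := by
    filter_upwards [isOpen_ball.mem_nhds hzρ] with ζ hζ
    rw [Fz]
    exact Fmin ζ hζ
  have hzero := hmin.hasFDerivAt_eq_zero dz
  have hconv' : ∀ a ∈ ball x₀ r₄, ∀ y ∈ ball x₀ r₄, ∀ u : E,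
      lam * ‖u‖ ^ 2 ≤ pd2 g lg (a, y) u u := fun a ha y hy u => (hconv a ha y hy u).1
  have s1 := hL.si hg hr₄1 hconv' (ball_subset_ball hρ4 (subρ x hx)) (ball_subset_ball hρ4 hzρ)
    (ball_subset_ball hρ4 hwρ)
  have s2 := hL.si hg hr₄1 hconv' (ball_subset_ball hρ4 (subρ y hy)) (ball_subset_ball hρ4 hzρ)
    (ball_subset_ball hρ4 hwρ)
  have hz0 : s⁻¹ * pd1 g lg (x, z) (w - z) + (1 - s)⁻¹ * pd1 g lg (y, z) (w - z) = 0 := by
    have := congrArg (fun T : E →L[ℝ] ℝ => T (w - z)) hzero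
    simpa using this
  have s1' := mul_le_mul_of_nonneg_left s1 (inv_pos.2 hs0).le
  have s2' := mul_le_mul_of_nonneg_left s2 (inv_pos.2 h1s).le
  have hsum : (s⁻¹ + (1 - s)⁻¹) * (lam / 2 * ‖w - z‖ ^ 2) ≤ 0 := by
    nlinarith
  have hpos : 0 < (s⁻¹ + (1 - s)⁻¹) * (lam / 2) := by positivity
  have hn : ‖w - z‖ ^ 2 ≤ 0 := by
    by_contra hne
    push Not at hne
    have := mul_pos hpos hne
    nlinarith
  have hn0 : ‖w - z‖ = 0 := by
    have := sq_nonneg ‖w - z‖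
    have h0 : ‖w - z‖ ^ 2 = 0 := le_antisymm hn this
    simpa using h0
  have := sub_eq_zero.1 (norm_eq_zero.1 hn0)
  exact this.symm

end LL

end Amb
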