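import Pool.Agent.Amb.L1

/-!
# Convexity of the distance function along short geodesics
-/

set_option maxSynthPendingDepth 3
set_option linter.unusedSectionVars false
set_option maxHeartbeats 4000000

namespace Amb

open Set Metric Filter
open scoped ContDiff Topology

variable {E : Type*} [NormedAddCommGroup E] [InnerProductSpace ℝ E] [FiniteDimensional ℝ E]
variable {U V W : Set E} {g h : E → E →L[ℝ] E →L[ℝ] ℝ}

section Basic

variable {x₀ : E} {r r₁ : ℝ} {F : E → E → E × (E →L[ℝ] E)} {lg : E → E → E}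

theorem vel_zero (p : E × (E →L[ℝ] E)) (v : E) :
    vel g p (v, 0) = (p.2 v, -(Gam g p.1 (p.2 v)) ∘L p.2) := by
  obtain ⟨x, Y⟩ := p
  rw [vel_apply]
  simp

/-- The base curve of the flow. -/
theorem LocFlow.base (hF : LocFlow U g x₀ r F) {x : E} (hx : x ∈ ball x₀ r) {v : E} {t : ℝ}
    (ht : ‖t • v‖ < r) :
    HasDerivAt (fun s : ℝ => (F x (s • v)).1) ((F x (t • v)).2 v) t := by
  have h := hF.ode x hx v t ht
  rw [vel_zero] at h
  exact h.fst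

/-- The frame of the flow. -/
theorem LocFlow.frame (hF : LocFlow U g x₀ r F) {x : E} (hx : x ∈ ball x₀ r) {v : E} {t : ℝ}
    (ht : ‖t • v‖ < r) :
    HasDerivAt (fun s : ℝ => (F x (s • v)).2)
      (-(Gam g (F x (t • v)).1 ((F x (t • v)).2 v)) ∘L (F x (t • v)).2) t := by
  have h := hF.ode x hx v t ht
  rw [vel_zero] at h
  exact h.snd

/-- The geodesic equation. -/
theorem LocFlow.speed (hF : LocFlow U g x₀ r F) {x : E} (hx : x ∈ ball x₀ r) {v : E} {t : ℝ}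
    (ht : ‖t • v‖ < r) :
    HasDerivAt (fun s : ℝ => (F x (s • v)).2 v)
      (-(Gam g (F x (t • v)).1 ((F x (t • v)).2 v) ((F x (t • v)).2 v))) t := by
  have h := (hF.frame hx ht).clm_apply (hasDerivAt_const t v)
  simpa using h

/-- The function `(a, y) ↦ |lg a y|²`. -/
noncomputable def sq (g : E → E →L[ℝ] E →L[ℝ] ℝ) (lg : E → E → E) (p : E × E) : ℝ :=
  g p.1 (lg p.1 p.2) (lg p.1 p.2)

/-- The Hessian of `sq` in the second variable. -/
noncomputable def hes (g : E → E →L[ℝ] E →L[ℝ] ℝ) (lg : E → E → E) (p : E × E) (u : E) : ℝ :=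
  fderiv ℝ (fderiv ℝ (sq g lg)) p ((0 : E), u) ((0 : E), u) -
    fderiv ℝ (sq g lg) p ((0 : E), Gam g p.2 u u)

theorem hes_smul (p : E × E) (c : ℝ) (u : E) : hes g lg p (c • u) = c ^ 2 * hes g lg p u := by
  have h1 : ((0 : E), c • u) = c • ((0 : E), u) := by simp
  have h2 : ((0 : E), (c * c) • Gam g p.2 u u) = (c * c) • ((0 : E), Gam g p.2 u u) := by simp
  simp only [hes, map_smul, smul_apply, smul_smul, h1, h2, smul_eq_mul]
  ring

theorem LocLog.sq_smooth (hg : IsMet U g) (hL : LocLog U g x₀ r F r₁ lg) :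
    ContDiffOn ℝ ∞ (sq g lg) (ball x₀ r₁ ×ˢ ball x₀ r₁) := by
  have h1 : ContDiffOn ℝ ∞ (fun p : E × E => g p.1) (ball x₀ r₁ ×ˢ ball x₀ r₁) := by
    refine hg.smooth.comp contDiff_fst.contDiffOn ?_
    rintro p ⟨hp, -⟩
    exact hL.flow.ball_sub (ball_subset_ball hL.r₁_le hp)
  exact (h1.clm_apply hL.smooth).clm_apply hL.smooth

theorem LocLog.sq_smoothAt (hg : IsMet U g) (hL : LocLog U g x₀ r F r₁ lg) {p : E × E}
    (h1 : p.1 ∈ ball x₀ r₁) (h2 : p.2 ∈ ball x₀ r₁) : ContDiffAt ℝ ∞ (sq g lg) p :=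
  (hL.sq_smooth hg).contDiffAt ((isOpen_ball.prod isOpen_ball).mem_nhds ⟨h1, h2⟩)

theorem LocLog.first (hg : IsMet U g) (hL : LocLog U g x₀ r F r₁ lg) {a x v : E} {t : ℝ}
    (ha : a ∈ ball x₀ r₁) (hx : x ∈ ball x₀ r) (ht : ‖t • v‖ < r)
    (hy : (F x (t • v)).1 ∈ ball x₀ r₁) :
    HasDerivAt (fun s : ℝ => sq g lg (a, (F x (s • v)).1))
      (fderiv ℝ (sq g lg) (a, (F x (t • v)).1) ((0 : E), (F x (t • v)).2 v)) t := by
  have h1 : HasDerivAt (fun s : ℝ => (a, (F x (s • v)).1)) ((0 : E), (F x (t • v)).2 v) t :=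
    (hasDerivAt_const t a).prodMk (hL.flow.base hx ht)
  have h2 : HasFDerivAt (sq g lg) (fderiv ℝ (sq g lg) (a, (F x (t • v)).1))
      (a, (F x (t • v)).1) :=
    ((hL.sq_smoothAt hg (p := (a, (F x (t • v)).1)) ha hy).differentiableAt (by simp)).hasFDerivAt
  exact h2.comp_hasDerivAt t h1

theorem LocLog.second (hg : IsMet U g) (hL : LocLog U g x₀ r F r₁ lg) {a x v : E} {t : ℝ}
    (ha : a ∈ ball x₀ r₁) (hx : x ∈ ball x₀ r) (ht : ‖t • v‖ < r)
    (hy : (F x (t • v)).1 ∈ ball x₀ r₁) :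
    HasDerivAt (fun s : ℝ => fderiv ℝ (sq g lg) (a, (F x (s • v)).1)
      ((0 : E), (F x (s • v)).2 v)) (hes g lg (a, (F x (t • v)).1) ((F x (t • v)).2 v)) t := by
  have h1 : HasDerivAt (fun s : ℝ => (a, (F x (s • v)).1)) ((0 : E), (F x (t • v)).2 v) t :=
    (hasDerivAt_const t a).prodMk (hL.flow.base hx ht)
  have h1' : HasDerivAt (fun s : ℝ => ((0 : E), (F x (s • v)).2 v))
      ((0 : E), -(Gam g (F x (t • v)).1 ((F x (t • v)).2 v) ((F x (t • v)).2 v))) t :=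
    (hasDerivAt_const t (0 : E)).prodMk (hL.flow.speed hx ht)
  have h3 : ContDiffAt ℝ ∞ (fderiv ℝ (sq g lg)) (a, (F x (t • v)).1) :=
    (hL.sq_smoothAt hg (p := (a, (F x (t • v)).1)) ha hy).fderiv_right (by simp)
  have h2 : HasFDerivAt (fderiv ℝ (sq g lg)) (fderiv ℝ (fderiv ℝ (sq g lg))
      (a, (F x (t • v)).1)) (a, (F x (t • v)).1) :=
    (h3.differentiableAt (by simp)).hasFDerivAt
  have h4 := (h2.comp_hasDerivAt t h1).clm_apply h1'
  have h5 : ((0 : E), -(Gam g (F x (t • v)).1 ((F x (t • v)).2 v) ((F x (t • v)).2 v))) =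
    -((0 : E), (Gam g (F x (t • v)).1 ((F x (t • v)).2 v) ((F x (t • v)).2 v))) := by simp
  have h6 : hes g lg (a, (F x (t • v)).1) ((F x (t • v)).2 v) =
      fderiv ℝ (fderiv ℝ (sq g lg)) (a, (F x (t • v)).1) ((0 : E), (F x (t • v)).2 v)
        ((0 : E), (F x (t • v)).2 v) + fderiv ℝ (sq g lg) (a, (F x (t • v)).1)
        ((0 : E), -(Gam g (F x (t • v)).1 ((F x (t • v)).2 v) ((F x (t • v)).2 v))) := by
    rw [h5, map_neg, hes]
    ring
  rw [h6]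
  exact h4

theorem LocLog.x₀_mem (hL : LocLog U g x₀ r F r₁ lg) : x₀ ∈ ball x₀ r₁ :=
  mem_ball_self hL.r₁_pos

theorem LocLog.self (hL : LocLog U g x₀ r F r₁ lg) {x : E} (hx : x ∈ ball x₀ r₁) :
    lg x x = 0 := by
  have hx' := ball_subset_ball hL.r₁_le hx
  have h := hL.left x hx 0 (mem_ball_self hL.flow.r_pos)
    (by rw [hL.flow.zero x hx']; exact hx)
  rwa [hL.flow.zero x hx'] at h

/-- The Hessian on the diagonal at `x₀`. -/
theorem LocLog.hes_diag (hg : IsMet U g) (hL : LocLog U g x₀ r F r₁ lg) (v : E) :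
    hes g lg (x₀, x₀) v = 2 * g x₀ v v := by
  have hx : x₀ ∈ ball x₀ r := ball_subset_ball hL.r₁_le hL.x₀_mem
  have hF0 : F x₀ ((0 : ℝ) • v) = (x₀, ContinuousLinearMap.id ℝ E) := by
    rw [zero_smul, hL.flow.zero x₀ hx]
  have h0 : ‖(0 : ℝ) • v‖ < r := by simp [hL.flow.r_pos]
  have hc : ContinuousAt (fun s : ℝ => (F x₀ (s • v)).1) 0 := (hL.flow.base hx h0).continuousAt
  have e1 : ∀ᶠ s : ℝ in 𝓝 0, ‖s • v‖ < r := by
    have : ContinuousAt (fun s : ℝ => ‖s • v‖) 0 := by fun_prop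
    exact this.eventually_lt continuousAt_const h0
  have e2 : ∀ᶠ s : ℝ in 𝓝 0, (F x₀ (s • v)).1 ∈ ball x₀ r₁ := by
    apply hc.eventually_mem
    apply isOpen_ball.mem_nhds
    rw [hF0]
    exact hL.x₀_mem
  have e3 : ∀ᶠ s : ℝ in 𝓝 0, sq g lg (x₀, (F x₀ (s • v)).1) = s ^ 2 * g x₀ v v := by
    filter_upwards [e1, e2] with s h1 h2
    have := hL.left x₀ hL.x₀_mem (s • v) (by simpa using h1) h2
    simp only [sq]
    rw [this]
    simp
    ring
  have e4 : ∀ᶠ s : ℝ in 𝓝 0, fderiv ℝ (sq g lg) (x₀, (F x₀ (s • v)).1)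
      ((0 : E), (F x₀ (s • v)).2 v) = 2 * s * g x₀ v v := by
    filter_upwards [e1, e2, eventually_eventually_nhds.2 e3] with s h1 h2 h3
    have a1 := hL.first hg hL.x₀_mem hx h1 h2
    have a2 : HasDerivAt (fun s : ℝ => s ^ 2 * g x₀ v v) (2 * s * g x₀ v v) s := by
      have := (hasDerivAt_pow 2 s).mul_const (g x₀ v v)
      simpa using this
    exact a1.unique (a2.congr_of_eventuallyEq h3)
  have b1 := hL.second hg hL.x₀_mem hx h0 e2.self_of_nhds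
  have b2 : HasDerivAt (fun s : ℝ => 2 * s * g x₀ v v) (2 * g x₀ v v) 0 := by
    have := ((hasDerivAt_id (0 : ℝ)).const_mul 2).mul_const (g x₀ v v)
    simpa using this
  have b3 := b1.unique (b2.congr_of_eventuallyEq e4)
  rw [hF0] at b3
  simpa using b3

theorem LocLog.hes_cont (hg : IsMet U g) (hL : LocLog U g x₀ r F r₁ lg) :
    ContinuousOn (fun q : (E × E) × E => hes g lg q.1 q.2)
      ((ball x₀ r₁ ×ˢ ball x₀ r₁) ×ˢ univ) := by
  have ho : IsOpen (ball x₀ r₁ ×ˢ ball x₀ r₁) := isOpen_ball.prod isOpen_ball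
  have h1 : ContinuousOn (fderiv ℝ (sq g lg)) (ball x₀ r₁ ×ˢ ball x₀ r₁) :=
    ((hL.sq_smooth hg).fderiv_of_isOpen ho (m := ∞) (by simp)).continuousOn
  have h2 : ContinuousOn (fderiv ℝ (fderiv ℝ (sq g lg))) (ball x₀ r₁ ×ˢ ball x₀ r₁) :=
    (((hL.sq_smooth hg).fderiv_of_isOpen ho (m := ∞) (by simp)).fderiv_of_isOpen ho
      (m := ∞) (by simp)).continuousOn
  have h3 : ContinuousOn (Gam g) U := hg.Gam_smooth.continuousOn
  have c1 : ContinuousOn (fun q : (E × E) × E => fderiv ℝ (sq g lg) q.1)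
      ((ball x₀ r₁ ×ˢ ball x₀ r₁) ×ˢ univ) := h1.comp continuousOn_fst (fun q hq => hq.1)
  have c2 : ContinuousOn (fun q : (E × E) × E => fderiv ℝ (fderiv ℝ (sq g lg)) q.1)
      ((ball x₀ r₁ ×ˢ ball x₀ r₁) ×ˢ univ) := h2.comp continuousOn_fst (fun q hq => hq.1)
  have c3 : ContinuousOn (fun q : (E × E) × E => Gam g q.1.2)
      ((ball x₀ r₁ ×ˢ ball x₀ r₁) ×ˢ univ) := by
    refine h3.comp (by fun_prop) (fun q hq => ?_)
    exact hL.flow.ball_sub (ball_subset_ball hL.r₁_le hq.1.2)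
  have c4 : ContinuousOn (fun q : (E × E) × E => q.2)
      ((ball x₀ r₁ ×ˢ ball x₀ r₁) ×ˢ univ) := by fun_prop
  have c5 : ContinuousOn (fun q : (E × E) × E => ((0 : E), q.2))
      ((ball x₀ r₁ ×ˢ ball x₀ r₁) ×ˢ univ) := by fun_prop
  refine ((c2.clm_apply c5).clm_apply c5).sub (c1.clm_apply ?_)
  exact continuousOn_const.prodMk ((c3.clm_apply c4).clm_apply c4)

/-- Positivity of the Hessian near the diagonal point `(x₀, x₀)`. -/
theorem LocLog.hes_nonneg (hg : IsMet U g) (hL : LocLog U g x₀ r F r₁ lg) :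
    ∃ δ > 0, δ ≤ r₁ ∧ ∀ a ∈ ball x₀ δ, ∀ y ∈ ball x₀ δ, ∀ u, 0 ≤ hes g lg (a, y) u := by
  have ho : IsOpen ((ball x₀ r₁ ×ˢ ball x₀ r₁) ×ˢ (univ : Set E)) :=
    (isOpen_ball.prod isOpen_ball).prod isOpen_univ
  have hx₀ : x₀ ∈ U := hL.flow.ball_sub (ball_subset_ball hL.r₁_le hL.x₀_mem)
  obtain ⟨n, hn, hn2⟩ := (_root_.continuousOn_iff'.1 (hL.hes_cont hg)) (Ioi 0) isOpen_Ioi
  have hN : IsOpen (n ∩ ((ball x₀ r₁ ×ˢ ball x₀ r₁) ×ˢ (univ : Set E))) := hn.inter ho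
  have hsub : ({(x₀, x₀)} : Set (E × E)) ×ˢ (sphere (0 : E) 1) ⊆
      n ∩ ((ball x₀ r₁ ×ˢ ball x₀ r₁) ×ˢ (univ : Set E)) := by
    rintro ⟨p, u⟩ ⟨hp, hu⟩
    rw [mem_singleton_iff] at hp
    subst hp
    rw [← hn2]
    refine ⟨?_, ⟨hL.x₀_mem, hL.x₀_mem⟩, mem_univ _⟩
    simp only [mem_preimage, mem_Ioi]
    rw [hL.hes_diag hg]
    have hu0 : u ≠ 0 := by
      rintro rfl
      simp at hu
    have := hg.pos x₀ hx₀ u hu0
    linarith
  obtain ⟨A, B, hA, hB, hA1, hB1, hAB⟩ := generalized_tube_lemma isCompact_singleton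
    (isCompact_sphere (0 : E) 1) hN hsub
  have hAn : A ∈ 𝓝 (x₀, x₀) := hA.mem_nhds (hA1 rfl)
  rw [nhds_prod_eq, Filter.mem_prod_iff] at hAn
  obtain ⟨s, hs, t, ht, hst⟩ := hAn
  obtain ⟨δ, hδ, hδ1⟩ := Metric.mem_nhds_iff.1 (inter_mem hs ht)
  refine ⟨min δ r₁, lt_min hδ hL.r₁_pos, min_le_right _ _, ?_⟩
  intro a ha y hy u
  rcases eq_or_ne u 0 with rfl | hu
  · have := hes_smul (g := g) (lg := lg) (a, y) 0 0
    rw [smul_zero] at this
    rw [this]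
    simp
  · have ha' := hδ1 (ball_subset_ball (min_le_left _ _) ha)
    have hy' := hδ1 (ball_subset_ball (min_le_left _ _) hy)
    have hmem : ((a, y), ‖u‖⁻¹ • u) ∈ A ×ˢ B := by
      refine ⟨hst ⟨ha'.1, hy'.2⟩, hB1 ?_⟩
      rw [mem_sphere_zero_iff_norm, norm_smul, norm_inv, norm_norm,
        inv_mul_cancel₀ (norm_ne_zero_iff.2 hu)]
    have h1 := hAB hmem
    rw [← hn2] at h1
    have h2 : 0 < hes g lg (a, y) (‖u‖⁻¹ • u) := h1.1
    have h3 : u = ‖u‖ • (‖u‖⁻¹ • u) := by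
      rw [smul_smul, mul_inv_cancel₀ (norm_ne_zero_iff.2 hu), one_smul]
    rw [h3, hes_smul]
    positivity

/-- Short geodesics between points near `x₀` stay near `x₀`. -/
theorem LocLog.near (hL : LocLog U g x₀ r F r₁ lg) {δ : ℝ} (hδ : 0 < δ) :
    ∃ r₂ > 0, r₂ ≤ r₁ ∧ r₂ ≤ δ ∧ ∀ b ∈ ball x₀ r₂, ∀ c ∈ ball x₀ r₂,
      ∀ s ∈ Icc (0 : ℝ) 1, (F b (s • lg b c)).1 ∈ ball x₀ δ := by
  have hx : x₀ ∈ ball x₀ r := ball_subset_ball hL.r₁_le hL.x₀_mem
  have h0 : (0 : E) ∈ ball (0 : E) r := mem_ball_self hL.flow.r_pos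
  have c1 : ContinuousAt (fun p : E × E => (F p.1 p.2).1) (x₀, 0) :=
    (hL.flow.smooth.continuousOn.continuousAt
      ((isOpen_ball.prod isOpen_ball).mem_nhds ⟨hx, h0⟩)).fst
  have c2 : ContinuousAt (fun p : E × E => lg p.1 p.2) (x₀, x₀) :=
    hL.smooth.continuousOn.continuousAt
      ((isOpen_ball.prod isOpen_ball).mem_nhds ⟨hL.x₀_mem, hL.x₀_mem⟩)
  have d1 : ∀ᶠ p : E × E in 𝓝 (x₀, 0), (F p.1 p.2).1 ∈ ball x₀ δ := by
    apply c1.eventually_mem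
    apply isOpen_ball.mem_nhds
    simp only
    rw [hL.flow.zero x₀ hx]
    exact mem_ball_self hδ
  rw [nhds_prod_eq] at d1
  obtain ⟨η, hη, hη1⟩ : ∃ η > 0, ∀ x ∈ ball x₀ η, ∀ v ∈ ball (0 : E) η,
      (F x v).1 ∈ ball x₀ δ := by
    obtain ⟨p, hp, q, hq, hpq⟩ := Filter.eventually_prod_iff.1 d1
    obtain ⟨η1, hη1, h1⟩ := Metric.eventually_nhds_iff_ball.1 hp
    obtain ⟨η2, hη2, h2⟩ := Metric.eventually_nhds_iff_ball.1 hq
    exact ⟨min η1 η2, lt_min hη1 hη2, fun x hx v hv =>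
      hpq (h1 x (ball_subset_ball (min_le_left _ _) hx))
        (h2 v (ball_subset_ball (min_le_right _ _) hv))⟩
  have d2 : ∀ᶠ p : E × E in 𝓝 (x₀, x₀), lg p.1 p.2 ∈ ball (0 : E) η := by
    apply c2.eventually_mem
    apply isOpen_ball.mem_nhds
    simp only
    rw [hL.self hL.x₀_mem]
    exact mem_ball_self hη
  rw [nhds_prod_eq] at d2
  obtain ⟨η', hη', hη1'⟩ : ∃ η' > 0, ∀ b ∈ ball x₀ η', ∀ c ∈ ball x₀ η',
      lg b c ∈ ball (0 : E) η := by
    obtain ⟨p, hp, q, hq, hpq⟩ := Filter.eventually_prod_iff.1 d2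
    obtain ⟨η1, hη1, h1⟩ := Metric.eventually_nhds_iff_ball.1 hp
    obtain ⟨η2, hη2, h2⟩ := Metric.eventually_nhds_iff_ball.1 hq
    exact ⟨min η1 η2, lt_min hη1 hη2, fun x hx v hv =>
      hpq (h1 x (ball_subset_ball (min_le_left _ _) hx))
        (h2 v (ball_subset_ball (min_le_right _ _) hv))⟩
  refine ⟨min (min η η') (min r₁ δ), by
    have := hL.r₁_pos
    positivity, (min_le_right _ _).trans (min_le_left _ _),
    (min_le_right _ _).trans (min_le_right _ _), ?_⟩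
  intro b hb c hc s hs
  refine hη1 b (ball_subset_ball ((min_le_left _ _).trans (min_le_left _ _)) hb) _ ?_
  have h1 := hη1' b (ball_subset_ball ((min_le_left _ _).trans (min_le_right _ _)) hb) c
    (ball_subset_ball ((min_le_left _ _).trans (min_le_right _ _)) hc)
  rw [mem_ball_zero_iff] at h1 ⊢
  rw [norm_smul, Real.norm_of_nonneg hs.1]
  have : s * ‖lg b c‖ ≤ 1 * ‖lg b c‖ := mul_le_mul_of_nonneg_right hs.2 (norm_nonneg _)
  linarith

/-- The function `|lg a ·|` is quasiconvex along short geodesics. -/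
theorem LocLog.conv (hg : IsMet U g)
    (hL : LocLog U g x₀ r F r₁ lg) :
    ∃ r₂ > 0, r₂ ≤ r₁ ∧ ∀ a ∈ ball x₀ r₂, ∀ b ∈ ball x₀ r₂, ∀ c ∈ ball x₀ r₂,
      ∀ s ∈ Icc (0 : ℝ) 1, (F b (s • lg b c)).1 ∈ ball x₀ r₁ ∧
      gnorm g a (lg a (F b (s • lg b c)).1) ≤ max (gnorm g a (lg a b)) (gnorm g a (lg a c)) := by
  obtain ⟨δ, hδ, hδ1, hδ2⟩ := hL.hes_nonneg hg
  obtain ⟨r₂, hr₂, hr₂1, hr₂δ, hr₂2⟩ := hL.near hδ
  refine ⟨r₂, hr₂, hr₂1, ?_⟩
  intro a ha b hb c hc s hs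
  have hmem : ∀ s ∈ Icc (0 : ℝ) 1, (F b (s • lg b c)).1 ∈ ball x₀ r₁ := fun s hs =>
    ball_subset_ball hδ1 (hr₂2 b hb c hc s hs)
  have ha1 : a ∈ ball x₀ r₁ := ball_subset_ball hr₂1 ha
  have hb1 : b ∈ ball x₀ r₁ := ball_subset_ball hr₂1 hb
  have hc1 : c ∈ ball x₀ r₁ := ball_subset_ball hr₂1 hc
  have hbr : b ∈ ball x₀ r := ball_subset_ball hL.r₁_le hb1
  have hnorm : ∀ s ∈ Icc (0 : ℝ) 1, ‖s • lg b c‖ < r := by
    intro s hs
    have h1 := hL.lg_mem b hb1 c hc1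
    rw [mem_ball_zero_iff] at h1
    rw [norm_smul, Real.norm_of_nonneg hs.1]
    have : s * ‖lg b c‖ ≤ 1 * ‖lg b c‖ := mul_le_mul_of_nonneg_right hs.2 (norm_nonneg _)
    linarith
  have hconv : ConvexOn ℝ (Icc (0 : ℝ) 1) (fun s : ℝ => sq g lg (a, (F b (s • lg b c)).1)) := by
    refine convexOn_of_hasDerivWithinAt2_nonneg (convex_Icc 0 1)
      (f' := fun s : ℝ => fderiv ℝ (sq g lg) (a, (F b (s • lg b c)).1)
        ((0 : E), (F b (s • lg b c)).2 (lg b c)))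
      (f'' := fun s : ℝ => hes g lg (a, (F b (s • lg b c)).1) ((F b (s • lg b c)).2 (lg b c)))
      ?_ ?_ ?_ ?_
    · intro s hs
      exact (hL.first hg ha1 hbr (hnorm s hs) (hmem s hs)).continuousAt.continuousWithinAt
    · intro s hs
      have hs' := interior_subset hs
      exact (hL.first hg ha1 hbr (hnorm s hs') (hmem s hs')).hasDerivWithinAt
    · intro s hs
      have hs' := interior_subset hs
      exact (hL.second hg ha1 hbr (hnorm s hs') (hmem s hs')).hasDerivWithinAt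
    · intro s hs
      have hs' := interior_subset hs
      exact hδ2 a (ball_subset_ball hr₂δ ha) _ (hr₂2 b hb c hc s hs') _
  have hmax := hconv.le_max_of_mem_Icc (left_mem_Icc.2 zero_le_one) (right_mem_Icc.2 zero_le_one) hs
  simp only [zero_smul, one_smul] at hmax
  rw [hL.flow.zero b hbr, hL.right b hb1 c hc1] at hmax
  refine ⟨hmem s hs, ?_⟩
  simp only [gnorm]
  rw [← (Real.sqrt_monotone).map_max]
  exact Real.sqrt_le_sqrt hmax

end Basic

end Amb
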