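import Pool.Agent.Amb.M1a
import Pool.Agent.Amb.M1b
import Pool.Agent.Amb.M4b
import Pool.Agent.Amb.L3
import Pool.Agent.Amb.L5
import Pool.Agent.Amb.L7

/-!
# M3: every point has a good scale
-/

set_option maxSynthPendingDepth 3
set_option linter.unusedSectionVars false
set_option maxHeartbeats 4000000

namespace Amb

open Set Metric Filter
open scoped ContDiff Topology

variable {E : Type*} [NormedAddCommGroup E] [InnerProductSpace ℝ E] [FiniteDimensional ℝ E]

section Loc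

variable {U : Set E} {g : E → E →L[ℝ] E →L[ℝ] ℝ} {x₀ : E} {r r₁ : ℝ}
  {F : E → E → E × (E →L[ℝ] E)} {lg : E → E → E}

theorem m3_velz (p : E × (E →L[ℝ] E)) (v : E) :
    vel g p (v, 0) = (p.2 v, -(Gam g p.1 (p.2 v)) ∘L p.2) := by
  obtain ⟨x, Y⟩ := p
  rw [vel_apply]
  simp

theorem m3_base (hF : LocFlow U g x₀ r F) {x : E} (hx : x ∈ ball x₀ r) {v : E} {t : ℝ}
    (ht : ‖t • v‖ < r) :
    HasDerivAt (fun s : ℝ => (F x (s • v)).1) ((F x (t • v)).2 v) t := by
  have h := hF.ode x hx v t ht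
  rw [m3_velz] at h
  exact h.fst

theorem m3_frame (hF : LocFlow U g x₀ r F) {x : E} (hx : x ∈ ball x₀ r) {v : E} {t : ℝ}
    (ht : ‖t • v‖ < r) :
    HasDerivAt (fun s : ℝ => (F x (s • v)).2)
      (-(Gam g (F x (t • v)).1 ((F x (t • v)).2 v)) ∘L (F x (t • v)).2) t := by
  have h := hF.ode x hx v t ht
  rw [m3_velz] at h
  exact h.snd

theorem m3_vel (hF : LocFlow U g x₀ r F) {x : E} (hx : x ∈ ball x₀ r) (Y : E →L[ℝ] E) (ξ : E)
    {t : ℝ} (ht : ‖t • Y ξ‖ < r) :
    HasDerivAt (fun s : ℝ => ((F x (s • Y ξ)).1, (F x (s • Y ξ)).2 ∘L Y))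
      (vel g ((F x (t • Y ξ)).1, (F x (t • Y ξ)).2 ∘L Y) (ξ, 0)) t := by
  have h1 := m3_base hF hx ht
  have h2 := (m3_frame hF hx ht).clm_comp (hasDerivAt_const t Y)
  have h3 := h1.prodMk h2
  rw [m3_velz]
  convert! h3 using 2
  ext u
  simp

theorem m3_norm (hg : IsMet U g) (hx : x₀ ∈ U) :
    ∃ C > 0, ∃ δ > 0, ball x₀ δ ⊆ U ∧ ∀ x ∈ ball x₀ δ, ∀ v, ‖v‖ ≤ C * gnorm g x v := by
  have hc : ContinuousOn (fun p : E × E => g p.1 p.2 p.2) (U ×ˢ univ) := by
    have h1 : ContinuousOn (fun p : E × E => g p.1) (U ×ˢ univ) :=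
      hg.smooth.continuousOn.comp continuousOn_fst (fun q hq => hq.1)
    exact (h1.clm_apply continuousOn_snd).clm_apply continuousOn_snd
  have hc0 : ContinuousOn (fun u : E => g x₀ u u) (sphere 0 1) := by
    have : Continuous (fun u : E => g x₀ u u) := by fun_prop
    exact this.continuousOn
  obtain ⟨m, hm, hm1⟩ := (isCompact_sphere (0 : E) 1).exists_forall_le' hc0 (a := 0) (by
    intro u hu
    apply hg.pos x₀ hx
    rintro rfl
    simp at hu)
  have hU : IsOpen (U ×ˢ (univ : Set E)) := hg.isOpen.prod isOpen_univ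
  have hN : IsOpen ((U ×ˢ (univ : Set E)) ∩ (fun p : E × E => g p.1 p.2 p.2) ⁻¹' (Ioi (m / 2))) :=
    hc.isOpen_inter_preimage hU isOpen_Ioi
  obtain ⟨A, B, hA, hB, hA1, hB1, hAB⟩ := generalized_tube_lemma (isCompact_singleton (x := x₀))
    (isCompact_sphere (0 : E) 1) hN (by
      rintro ⟨p, u⟩ ⟨hp, hu⟩
      rw [mem_singleton_iff] at hp
      subst hp
      refine ⟨⟨hx, mem_univ _⟩, ?_⟩
      have := hm1 u hu
      simp only [mem_preimage, mem_Ioi]
      linarith)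
  obtain ⟨δ, hδ, hδ1⟩ := Metric.isOpen_iff.1 (hA.inter hg.isOpen) x₀ ⟨hA1 rfl, hx⟩
  refine ⟨(√(m / 2))⁻¹, by positivity, δ, hδ, fun x hx => (hδ1 hx).2, ?_⟩
  intro x hx' v
  rcases eq_or_ne v 0 with rfl | hv
  · simp [gnorm]
  · have hvn : 0 < ‖v‖ := norm_pos_iff.2 hv
    have hmem : (x, ‖v‖⁻¹ • v) ∈ A ×ˢ B := by
      refine ⟨(hδ1 hx').1, hB1 ?_⟩
      rw [mem_sphere_zero_iff_norm, norm_smul, norm_inv, norm_norm, inv_mul_cancel₀ hvn.ne']
    have h1 : m / 2 < g x (‖v‖⁻¹ • v) (‖v‖⁻¹ • v) := (hAB hmem).2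
    simp only [map_smul, smul_apply, smul_eq_mul] at h1
    have h2 : m / 2 * ‖v‖ ^ 2 ≤ g x v v := by
      have : g x v v = ‖v‖⁻¹ * (‖v‖⁻¹ * g x v v) * ‖v‖ ^ 2 := by field_simp
      rw [this]
      exact mul_le_mul_of_nonneg_right h1.le (by positivity)
    have h3 : √(m / 2) * ‖v‖ ≤ gnorm g x v := by
      rw [gnorm, ← Real.sqrt_sq hvn.le, ← Real.sqrt_mul (by positivity)]
      exact Real.sqrt_le_sqrt h2
    rw [inv_mul_eq_div, le_div_iff₀ (by positivity)]
    linarith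

end Loc

variable {M : Type*} [MetricSpace M] (G : GMfd E M)

namespace GMfd

variable {G} in
theorem m3_psi_chart [CompleteSpace M] {q : M} {r : ℝ} {F : E → E → E × (E →L[ℝ] E)}
    (hF : LocFlow (G.tgt q) (G.g q) (G.φ q q) r F) {f : G.Fr} (hf : f.m ∈ G.src q)
    (hx : G.φ q f.m ∈ ball (G.φ q q) r) {ξ : E} (hξ : ‖(G.cd q f).2 ξ‖ < r) :
    (G.Psi ξ f).m = G.ψ q (F (G.φ q f.m) ((G.cd q f).2 ξ)).1 ∧
    G.cd q (G.Psi ξ f) = ((F (G.φ q f.m) ((G.cd q f).2 ξ)).1,
      (F (G.φ q f.m) ((G.cd q f).2 ξ)).2 ∘L (G.cd q f).2) := by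
  set x := G.φ q f.m with hxdef
  set Y := (G.cd q f).2 with hY
  have hcd1 : (G.cd q f).1 = x := rfl
  have H : ∀ t : ℝ, ∃ f' : G.Fr, ‖t • Y ξ‖ < r → f'.m = G.ψ q (F x (t • Y ξ)).1 ∧
      G.cd q f' = ((F x (t • Y ξ)).1, (F x (t • Y ξ)).2 ∘L Y) := by
    intro t
    by_cases ht : ‖t • Y ξ‖ < r
    · have hmem : t • Y ξ ∈ ball (0 : E) r := by simpa using ht
      obtain ⟨f', h1, h2⟩ := G.exists_fr_of_cd (q := q) (x := (F x (t • Y ξ)).1)
        (Y := (F x (t • Y ξ)).2 ∘L Y) (hF.mem x hx _ hmem) (by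
          intro u v
          have := hF.isom (G.met q) hx hmem (Y u) (Y v)
          simp only [ContinuousLinearMap.comp_apply]
          rw [this]
          exact cd_isom hf u v)
      exact ⟨f', fun _ => ⟨h1, h2⟩⟩
    · exact ⟨f, fun h => absurd h ht⟩
  choose h hh using H
  have hvel : ∀ t ∈ Icc (0 : ℝ) 1, G.HasVel h ξ 0 t := by
    intro t ht
    have ht' : ‖t • Y ξ‖ < r := by
      rw [norm_smul, Real.norm_of_nonneg ht.1]
      have : t * ‖Y ξ‖ ≤ 1 * ‖Y ξ‖ := mul_le_mul_of_nonneg_right ht.2 (norm_nonneg _)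
      linarith
    have hmem : t • Y ξ ∈ ball (0 : E) r := by simpa using ht'
    have he : ∀ᶠ s in 𝓝 t, ‖s • Y ξ‖ < r := by
      have : ContinuousAt (fun s : ℝ => ‖s • Y ξ‖) t := by fun_prop
      exact this.eventually_lt continuousAt_const ht'
    have hD := m3_vel hF hx Y ξ ht'
    have htt := hF.mem x hx _ hmem
    refine hasVel_of_chart (q := q) ?_ ?_ ?_
    · have hb : ContinuousAt (fun s : ℝ => (F x (s • Y ξ)).1) t := (m3_base hF hx ht').continuousAt
      have hψ : ContinuousAt (G.ψ q) (F x (t • Y ξ)).1 :=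
        (G.cont_ψ q).continuousAt ((G.met q).isOpen.mem_nhds htt)
      have hc : ContinuousAt (fun s : ℝ => G.ψ q (F x (s • Y ξ)).1) t :=
        ContinuousAt.comp (g := G.ψ q) (f := fun s : ℝ => (F x (s • Y ξ)).1) hψ hb
      refine hc.congr ?_
      filter_upwards [he] with s hs using (hh s hs).1.symm
    · rw [(hh t ht').1]
      exact G.map_tgt q _ htt
    · rw [(hh t ht').2]
      refine hD.congr_of_eventuallyEq ?_
      filter_upwards [he] with s hs using (hh s hs).2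
  have h0 : ‖(0 : ℝ) • Y ξ‖ < r := by simp [hF.r_pos]
  have h1 : ‖(1 : ℝ) • Y ξ‖ < r := by simpa using hξ
  have hh0 : h 0 = f := by
    obtain ⟨a1, a2⟩ := hh 0 h0
    rw [zero_smul, hF.zero x hx] at a1 a2
    simp only at a1 a2
    have a3 : (h 0).m = f.m := by rw [a1, hxdef, G.left_inv q _ hf]
    refine cd_inj (q := q) (by rw [a3]; exact hf) hf ?_
    rw [a2]
    ext1
    · exact hcd1.symm
    · rw [ContinuousLinearMap.id_comp]
  have key := Psi_unique_Icc (f := h) zero_le_one hvel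
  rw [hh0, sub_zero, one_smul] at key
  rw [← key]
  have := hh 1 h1
  rwa [one_smul] at this

variable {G} in
theorem m3_gnorm {q : M} {f : G.Fr} (hf : f.m ∈ G.src q) (ξ : E) :
    gnorm (G.g q) (G.φ q f.m) ((G.cd q f).2 ξ) = ‖ξ‖ := by
  have := cd_isom hf ξ ξ
  rw [gnorm]
  have h2 : G.g q (G.φ q f.m) ((G.cd q f).2 ξ) ((G.cd q f).2 ξ) = inner ℝ ξ ξ := this
  rw [h2, real_inner_self_eq_norm_sq, Real.sqrt_sq (norm_nonneg _)]

theorem exists_good [CompleteSpace M] (q : M) : ∃ ρ, G.Good q ρ := by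
  have hg := G.met q
  have hx₀ : G.φ q q ∈ G.tgt q := G.map_src q q (G.mem_src q)
  obtain ⟨r, F, r₁, lg, hL⟩ := exists_locLog hg hx₀
  obtain ⟨r₂, hr₂, hr₂1, hbetw⟩ := hL.between hg
  obtain ⟨r₃, hr₃, hr₃1, hconv⟩ := hL.conv hg
  obtain ⟨C, hC, δ₀, hδ₀, hδ₀U, hnorm⟩ := m3_norm hg hx₀
  have hF := hL.flow
  set R := min (min r₂ r₃) δ₀ with hR
  have hRpos : 0 < R := by positivity
  have hR2 : R ≤ r₂ := (min_le_left _ _).trans (min_le_left _ _)
  have hR3 : R ≤ r₃ := (min_le_left _ _).trans (min_le_right _ _)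
  have hR1 : R ≤ r₁ := hR2.trans hr₂1
  have hRr : R ≤ r := hR1.trans hL.r₁_le
  have hRδ : R ≤ δ₀ := min_le_right _ _
  set V : Set M := {m | m ∈ G.src q ∧ G.φ q m ∈ ball (G.φ q q) R} with hV
  have hVn : V ∈ 𝓝 q := by
    have h1 := (G.src_open q).mem_nhds (G.mem_src q)
    have h2 : ContinuousAt (G.φ q) q := (G.cont_φ q).continuousAt h1
    exact inter_mem h1 (h2.preimage_mem_nhds (isOpen_ball.mem_nhds (mem_ball_self hRpos)))
  obtain ⟨r', hr', hpath⟩ := G.near_path q V hVn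
  obtain ⟨r'', hr'', hball⟩ := Metric.mem_nhds_iff.1 hVn
  set δ := min r' r'' with hδ
  have hδpos : 0 < δ := lt_min hr' hr''
  have hmemV : ∀ m, dist q m < δ → m ∈ V := fun m hm => by
    apply hball
    rw [mem_ball, dist_comm]
    exact hm.trans_le (min_le_right _ _)
  -- the distance formula
  have hD : ∀ x y, dist q x < δ → dist q y < δ →
      dist x y = gnorm (G.g q) (G.φ q x) (lg (G.φ q x) (G.φ q y)) := by
    intro x y hx hy
    have hxV := hmemV x hx
    have hyV := hmemV y hy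
    have hx1 : G.φ q x ∈ ball (G.φ q q) r₁ := ball_subset_ball hR1 hxV.2
    have hy1 : G.φ q y ∈ ball (G.φ q q) r₁ := ball_subset_ball hR1 hyV.2
    have hxr : G.φ q x ∈ ball (G.φ q q) r := ball_subset_ball hRr hxV.2
    apply le_antisymm
    · set v := lg (G.φ q x) (G.φ q y) with hv
      have hvr : v ∈ ball (0 : E) r := hL.lg_mem _ hx1 _ hy1
      have hvr' : ∀ t ∈ Icc (0 : ℝ) 1, ‖t • v‖ < r := by
        intro t ht
        rw [mem_ball_zero_iff] at hvr
        rw [norm_smul, Real.norm_of_nonneg ht.1]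
        have : t * ‖v‖ ≤ 1 * ‖v‖ := mul_le_mul_of_nonneg_right ht.2 (norm_nonneg _)
        linarith
      have hvr2 : ∀ t ∈ Icc (0 : ℝ) 1, t • v ∈ ball (0 : E) r := fun t ht => by
        simpa using hvr' t ht
      have hC1 : C1 (fun s : ℝ => (F (G.φ q x) (s • v)).1)
          (fun s : ℝ => (F (G.φ q x) (s • v)).2 v) := by
        refine ⟨fun t ht => (m3_base hF hxr (hvr' t ht)).hasDerivWithinAt, fun t ht => ?_⟩
        exact ((m3_frame hF hxr (hvr' t ht)).continuousAt.clm_apply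
          continuousAt_const).continuousWithinAt
      have h1 := G.dist_le q _ _ hC1 (fun t ht => hF.mem _ hxr _ (hvr2 t ht))
      simp only [zero_smul, one_smul] at h1
      rw [hF.zero _ hxr, hL.right _ hx1 _ hy1] at h1
      simp only at h1
      rw [G.left_inv q _ hxV.1, G.left_inv q _ hyV.1] at h1
      refine h1.trans (le_of_eq ?_)
      rw [glen]
      have : ∀ t ∈ Set.uIcc (0 : ℝ) 1, gnorm (G.g q) (F (G.φ q x) (t • v)).1
          ((F (G.φ q x) (t • v)).2 v) = gnorm (G.g q) (G.φ q x) v := by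
        intro t ht
        rw [uIcc_of_le zero_le_one] at ht
        rw [gnorm, gnorm, hF.isom hg hxr (hvr2 t ht)]
      rw [intervalIntegral.integral_congr this]
      simp
    · apply le_of_forall_pos_le_add
      intro ε hε
      obtain ⟨c, c', hc, hc0, hc1, hcV, hlen⟩ := hpath x y (hx.trans_le (min_le_left _ _))
        (hy.trans_le (min_le_left _ _)) ε hε
      have h1 := hL.min hg hc (fun t ht => by
        have h2 := (hcV t ht).2.2
        rw [G.right_inv q _ (hcV t ht).1] at h2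
        exact ball_subset_ball hR1 h2)
      rw [hc0, hc1] at h1
      linarith
  -- the scale
  set ρ := min (δ / 5) (r / C) with hρ
  have hρpos : 0 < ρ := lt_min (by positivity) (div_pos hF.r_pos hC)
  have hρδ : 5 * ρ ≤ δ := by
    have := min_le_left (δ / 5) (r / C)
    linarith
  have hρC : C * ρ ≤ r := by
    have := min_le_right (δ / 5) (r / C)
    rw [← hρ, le_div_iff₀ hC] at this
    linarith
  -- the main facts about `Psi`
  have hP : ∀ f : G.Fr, dist q f.m < 2 * ρ → ∀ ξ, ‖ξ‖ < ρ →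
      (dist q (G.Psi ξ f).m < 3 * ρ ∧ ‖(G.cd q f).2 ξ‖ < r ∧
      (G.Psi ξ f).m = G.ψ q (F (G.φ q f.m) ((G.cd q f).2 ξ)).1 ∧
      G.φ q (G.Psi ξ f).m = (F (G.φ q f.m) ((G.cd q f).2 ξ)).1 ∧
      lg (G.φ q f.m) (G.φ q (G.Psi ξ f).m) = (G.cd q f).2 ξ) := by
    intro f hf ξ hξ
    have hfV := hmemV f.m (by linarith)
    have h1 : dist q (G.Psi ξ f).m < 3 * ρ := by
      have h2 := dist_triangle q f.m (G.Psi ξ f).m
      have h3 := G.dist_Psi_le ξ f
      linarith
    have hPV := hmemV (G.Psi ξ f).m (by linarith)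
    have h2 : ‖(G.cd q f).2 ξ‖ < r := by
      have h3 := hnorm (G.φ q f.m) (ball_subset_ball hRδ hfV.2) ((G.cd q f).2 ξ)
      rw [m3_gnorm hfV.1] at h3
      have h4 : C * ‖ξ‖ < C * ρ := by gcongr
      linarith
    obtain ⟨h3, h4⟩ := m3_psi_chart hF hfV.1 (ball_subset_ball hRr hfV.2) h2
    have h5 : G.φ q (G.Psi ξ f).m = (F (G.φ q f.m) ((G.cd q f).2 ξ)).1 := by
      have := congrArg Prod.fst h4
      exact this
    refine ⟨h1, h2, h3, h5, ?_⟩
    rw [h5]
    refine hL.left _ (ball_subset_ball hR1 hfV.2) _ (by simpa using h2) ?_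
    rw [← h5]
    exact ball_subset_ball hR1 hPV.2
  have hsm : ∀ ξ : E, ‖ξ‖ < ρ → ∀ s ∈ Icc (0 : ℝ) 1, ‖s • ξ‖ < ρ := by
    intro ξ hξ s hs
    rw [norm_smul, Real.norm_of_nonneg hs.1]
    have : s * ‖ξ‖ ≤ 1 * ‖ξ‖ := mul_le_mul_of_nonneg_right hs.2 (norm_nonneg _)
    linarith
  refine ⟨ρ, hρpos, ?_, ?_, ?_⟩
  · intro m hm
    rw [mem_closedBall, dist_comm] at hm
    exact (hmemV m (by linarith)).1
  · intro x hx
    refine ⟨?_, ?_, ?_, ?_, ?_⟩
    · -- dist_eq
      intro f hf ξ hξ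
      have hfq : dist q f.m < 2 * ρ := by rw [hf]; linarith
      obtain ⟨h1, h2, h3, h4, h5⟩ := hP f hfq ξ hξ
      rw [← hf, hD f.m (G.Psi ξ f).m (by linarith) (by linarith), h5]
      exact m3_gnorm (hmemV f.m (by linarith)).1 ξ
    · -- inj
      intro f hf ξ ξ' hξ hξ' he
      have hfq : dist q f.m < 2 * ρ := by rw [hf]; linarith
      obtain ⟨-, -, -, -, h5⟩ := hP f hfq ξ hξ
      obtain ⟨-, -, -, -, h5'⟩ := hP f hfq ξ' hξ'
      rw [he, h5'] at h5
      exact (cd_bij (hmemV f.m (by linarith)).1).1 h5.symm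
    · -- surj
      intro f hf y hy
      have hfq : dist q f.m < 2 * ρ := by rw [hf]; linarith
      have hfV := hmemV f.m (by linarith)
      have hyq : dist q y < δ := by
        have := dist_triangle q x y
        linarith
      have hyV := hmemV y hyq
      have hx1 : G.φ q f.m ∈ ball (G.φ q q) r₁ := ball_subset_ball hR1 hfV.2
      have hy1 : G.φ q y ∈ ball (G.φ q q) r₁ := ball_subset_ball hR1 hyV.2
      obtain ⟨ξ, hξ⟩ := (cd_bij hfV.1).2 (lg (G.φ q f.m) (G.φ q y))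
      have hξn : ‖ξ‖ = dist x y := by
        rw [← m3_gnorm hfV.1 ξ, hξ, ← hD f.m y (by linarith) hyq, hf]
      have hξρ : ‖ξ‖ < ρ := by rw [hξn]; exact hy
      refine ⟨ξ, hξρ, ?_⟩
      obtain ⟨-, -, h3, -, -⟩ := hP f hfq ξ hξρ
      rw [h3, hξ, hL.right _ hx1 _ hy1, G.left_inv q _ hyV.1]
    · -- betw
      intro f hf ξ hξ s hs z hz1 hz2
      have hfq : dist q f.m < 2 * ρ := by rw [hf]; linarith
      have hfV := hmemV f.m (by linarith)
      obtain ⟨h1, h2, h3, h4, h5⟩ := hP f hfq ξ hξ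
      obtain ⟨k1, k2, k3, k4, k5⟩ := hP f hfq (s • ξ) (hsm ξ hξ s hs)
      have hPV := hmemV (G.Psi ξ f).m (by linarith)
      have hzq : dist q z < δ := by
        have h6 := dist_triangle q x z
        have : s * ‖ξ‖ ≤ 1 * ‖ξ‖ := mul_le_mul_of_nonneg_right hs.2 (norm_nonneg _)
        linarith
      have hzV := hmemV z hzq
      have e1 : gnorm (G.g q) (G.φ q f.m) (lg (G.φ q f.m) (G.φ q (G.Psi ξ f).m)) = ‖ξ‖ := by
        rw [h5]
        exact m3_gnorm hfV.1 ξ
      have e2 := hbetw (G.φ q f.m) (ball_subset_ball hR2 hfV.2) (G.φ q (G.Psi ξ f).m)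
        (ball_subset_ball hR2 hPV.2) (G.φ q z) (ball_subset_ball hR2 hzV.2) s hs
        (by rw [e1, ← hD f.m z (by linarith) hzq, hf]; exact hz1)
        (by rw [e1, ← hD z (G.Psi ξ f).m hzq (by linarith)]; exact hz2)
      rw [k3, map_smul, ← G.left_inv q z hzV.1, e2, h5]
    · -- conv
      intro f hf a ξ hξ ha1 ha2 s hs
      have hfq : dist q f.m < 2 * ρ := by rw [hf]; linarith
      have hfV := hmemV f.m (by linarith)
      obtain ⟨h1, h2, h3, h4, h5⟩ := hP f hfq ξ hξ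
      obtain ⟨k1, k2, k3, k4, k5⟩ := hP f hfq (s • ξ) (hsm ξ hξ s hs)
      have hPV := hmemV (G.Psi ξ f).m (by linarith)
      have haq : dist q a < δ := by
        have h6 := dist_triangle q x a
        rw [dist_comm x a] at h6
        linarith
      have haV := hmemV a haq
      have e2 := (hconv (G.φ q a) (ball_subset_ball hR3 haV.2) (G.φ q f.m)
        (ball_subset_ball hR3 hfV.2) (G.φ q (G.Psi ξ f).m) (ball_subset_ball hR3 hPV.2) s hs).2
      rw [h5, ← map_smul, ← k4, ← hD a (G.Psi (s • ξ) f).m haq (by linarith),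
        ← hD a f.m haq (by linarith), ← hD a (G.Psi ξ f).m haq (by linarith), hf] at e2
      exact e2
  · refine ⟨lg, ?_, ?_⟩
    · refine hL.smooth.mono ?_
      have hsub : {x | x ∈ G.tgt q ∧ dist q (G.ψ q x) < 3 * ρ} ⊆ ball (G.φ q q) r₁ := by
        rintro x ⟨hx1, hx2⟩
        have := (hmemV (G.ψ q x) (by linarith)).2
        rw [G.right_inv q x hx1] at this
        exact ball_subset_ball hR1 this
      exact prod_mono hsub hsub
    · intro f ξ hf hξ
      obtain ⟨-, -, -, -, h5⟩ := hP f (by linarith) ξ hξ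
      exact h5.symm

end GMfd

end Amb
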