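import Pool.Agent.Amb.M1a
import Pool.Agent.Amb.M3
import Pool.Agent.Amb.M4b

/-!
# M6: metric geodesics are flow lines and conversely
-/

set_option maxSynthPendingDepth 3

namespace Amb

open Set Metric
open scoped ContDiff Topology

variable {E : Type*} [NormedAddCommGroup E] [InnerProductSpace ℝ E] [FiniteDimensional ℝ E]
variable {M : Type*} [MetricSpace M] (G : GMfd E M)

namespace GMfd

section Complete

variable [CompleteSpace M]

/-- the distance along a flow line -/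
theorem m6_dist_le (ξ : E) (f : G.Fr) (s t : ℝ) :
    dist (G.Psi (s • ξ) f).m (G.Psi (t • ξ) f).m ≤ |s - t| * ‖ξ‖ := by
  have h := G.dist_Psi_le ((t - s) • ξ) (G.Psi (s • ξ) f)
  rw [← G.Psi_add s (t - s) ξ f, add_sub_cancel, norm_smul, Real.norm_eq_abs, abs_sub_comm] at h
  exact h

theorem m6_shift (ξ : E) (f : G.Fr) (a s : ℝ) :
    G.Psi (s • ξ) f = G.Psi ((s - a) • ξ) (G.Psi (a • ξ) f) := by
  rw [← G.Psi_add a (s - a) ξ f, add_sub_cancel]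

/-- Flow lines locally realise the distance. -/
theorem Psi_geodesic (ξ : E) (f : G.Fr) (t : ℝ) : ∃ ε > 0, ∀ s ∈ Ioo (t - ε) (t + ε),
    ∀ s' ∈ Ioo (t - ε) (t + ε),
      dist (G.Psi (s • ξ) f).m (G.Psi (s' • ξ) f).m = ‖ξ‖ * |s - s'| := by
  obtain ⟨ρ, hρ⟩ := G.exists_good (G.Psi (t • ξ) f).m
  have hρ0 := hρ.pos
  have hpos : 0 < ‖ξ‖ + 1 := by positivity
  refine ⟨ρ / (2 * (‖ξ‖ + 1)), by positivity, ?_⟩
  set ε := ρ / (2 * (‖ξ‖ + 1)) with hε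
  have hε0 : 0 < ε := by positivity
  have hεξ : 2 * ε * ‖ξ‖ < ρ := by
    have h1 : 2 * ε * (‖ξ‖ + 1) = ρ := by rw [hε]; field_simp
    nlinarith
  intro s hs s' hs'
  have hst : |s - t| < ε := abs_lt.2 ⟨by linarith [hs.1], by linarith [hs.2]⟩
  have hss : |s - s'| < 2 * ε := abs_lt.2 ⟨by linarith [hs.1, hs'.2], by linarith [hs.2, hs'.1]⟩
  have h1 : dist (G.Psi (t • ξ) f).m (G.Psi (s • ξ) f).m < ρ := by
    refine (G.m6_dist_le ξ f t s).trans_lt ?_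
    rw [abs_sub_comm]
    have : |s - t| * ‖ξ‖ ≤ ε * ‖ξ‖ := mul_le_mul_of_nonneg_right hst.le (norm_nonneg _)
    nlinarith [norm_nonneg ξ]
  have hn : ‖(s' - s) • ξ‖ = |s - s'| * ‖ξ‖ := by
    rw [norm_smul, Real.norm_eq_abs, abs_sub_comm]
  have h2 : ‖(s' - s) • ξ‖ < ρ := by
    rw [hn]
    have : |s - s'| * ‖ξ‖ ≤ 2 * ε * ‖ξ‖ := mul_le_mul_of_nonneg_right hss.le (norm_nonneg _)
    linarith
  have h3 := (hρ.at_near _ h1).dist_eq (G.Psi (s • ξ) f) rfl _ h2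
  rw [← G.m6_shift ξ f s s'] at h3
  rw [h3, hn, mul_comm]

variable {G} in
/-- On a short interval a metric geodesic is a flow line for every frame over the centre. -/
theorem m6_local {γ : ℝ → M} {c : ℝ} (t₀ : ℝ)
    (h : ∃ ε > 0, ∀ s ∈ Ioo (t₀ - ε) (t₀ + ε), ∀ s' ∈ Ioo (t₀ - ε) (t₀ + ε),
      dist (γ s) (γ s') = c * |s - s'|) :
    ∃ δ > 0, ∀ F : G.Fr, F.m = γ t₀ → ∃ ξ : E, ‖ξ‖ = c ∧
      ∀ s, |s - t₀| ≤ δ → γ s = (G.Psi ((s - t₀) • ξ) F).m := by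
  obtain ⟨ε, hε, hd⟩ := h
  obtain ⟨ρ, hρ⟩ := G.exists_good (γ t₀)
  have hρ0 := hρ.pos
  have hc : 0 ≤ c := by
    have h1 := hd t₀ ⟨by linarith, by linarith⟩ (t₀ + ε / 2) ⟨by linarith, by linarith⟩
    have h2 : |t₀ - (t₀ + ε / 2)| = ε / 2 := by
      rw [show t₀ - (t₀ + ε / 2) = -(ε / 2) by ring, abs_neg, abs_of_pos (by linarith)]
    rw [h2] at h1
    have h3 : 0 ≤ c * (ε / 2) := h1 ▸ dist_nonneg
    by_contra hneg
    have hneg' := not_le.1 hneg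
    nlinarith
  set δ := min (ε / 2) (ρ / (4 * (c + 1))) with hδ
  have hδ0 : 0 < δ := lt_min (by linarith) (by positivity)
  have hδε : δ < ε := (min_le_left _ _).trans_lt (by linarith)
  have hδc : 2 * δ * c < ρ := by
    have h1 : δ ≤ ρ / (4 * (c + 1)) := min_le_right _ _
    have h2 : δ * (4 * (c + 1)) ≤ ρ := (le_div_iff₀ (by positivity)).1 h1
    nlinarith
  refine ⟨δ, hδ0, fun F hF => ?_⟩
  -- the left end point
  set s₁ := t₀ - δ with hs₁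
  set s₂ := t₀ + δ with hs₂
  have m1 : s₁ ∈ Ioo (t₀ - ε) (t₀ + ε) := ⟨by linarith, by linarith⟩
  have m2 : s₂ ∈ Ioo (t₀ - ε) (t₀ + ε) := ⟨by linarith, by linarith⟩
  have m0 : t₀ ∈ Ioo (t₀ - ε) (t₀ + ε) := ⟨by linarith, by linarith⟩
  have hgood : G.GoodAt (γ s₁) ρ := by
    apply hρ.at_near
    rw [hd t₀ m0 s₁ m1, show t₀ - s₁ = δ by rw [hs₁]; ring, abs_of_pos hδ0]
    nlinarith
  obtain ⟨F₁, hF₁⟩ := G.exists_fr (γ s₁)
  have hd12 : dist (γ s₁) (γ s₂) = c * (2 * δ) := by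
    rw [hd s₁ m1 s₂ m2, show s₁ - s₂ = -(2 * δ) by rw [hs₁, hs₂]; ring, abs_neg,
      abs_of_pos (by linarith)]
  obtain ⟨ξ₁, hξ₁, hP₁⟩ := hgood.surj F₁ hF₁ (γ s₂) (by rw [hd12]; linarith)
  have hn₁ : ‖ξ₁‖ = c * (2 * δ) := by
    rw [← hgood.dist_eq F₁ hF₁ ξ₁ hξ₁, hP₁, hd12]
  set ξ₂ : E := (2 * δ)⁻¹ • ξ₁ with hξ₂
  have hn₂ : ‖ξ₂‖ = c := by
    rw [hξ₂, norm_smul, hn₁, Real.norm_eq_abs, abs_of_pos (by positivity)]
    field_simp
  have hline : ∀ s, |s - t₀| ≤ δ → γ s = (G.Psi ((s - s₁) • ξ₂) F₁).m := by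
    intro s hs
    have hs' := abs_le.1 hs
    have ms : s ∈ Ioo (t₀ - ε) (t₀ + ε) := ⟨by linarith, by linarith⟩
    set θ := (s - s₁) / (2 * δ) with hθ
    have hθ0 : 0 ≤ θ := div_nonneg (by linarith) (by linarith)
    have hθ1 : θ ≤ 1 := by
      rw [hθ, div_le_one (by linarith)]
      linarith
    have hθm : θ * (2 * δ) = s - s₁ := by rw [hθ]; field_simp
    have hb := hgood.betw F₁ hF₁ ξ₁ hξ₁ θ ⟨hθ0, hθ1⟩ (γ s) (by
      rw [hd s₁ m1 s ms, abs_sub_comm, abs_of_nonneg (by linarith), hn₁, ← hθm]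
      ring) (by
      rw [hP₁, hd s ms s₂ m2, abs_sub_comm, abs_of_nonneg (by linarith), hn₁]
      have : s₂ - s = (1 - θ) * (2 * δ) := by
        rw [sub_mul, hθm, hs₁, hs₂]; ring
      rw [this]; ring)
    rw [hb, hξ₂, smul_smul, hθ]
    rfl
  -- change the frame
  have hF' : (G.Psi ((t₀ - s₁) • ξ₂) F₁).m = F.m := by
    rw [hF, hline t₀ (by simp [hδ0.le])]
  obtain ⟨k, hk⟩ := exists_rot hF'
  refine ⟨k.symm ξ₂, by rw [k.symm.norm_map, hn₂], fun s hs => ?_⟩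
  rw [hk, G.Psi_rot, map_smul, k.apply_symm_apply]
  show γ s = (G.Psi ((s - t₀) • ξ₂) (G.Psi ((t₀ - s₁) • ξ₂) F₁)).m
  rw [← G.Psi_add, show t₀ - s₁ + (s - t₀) = s - s₁ by ring]
  exact hline s hs

variable {G} in
/-- Germs of flow lines determine the velocity. -/
theorem m6_germ {F : G.Fr} {ξ ξ' : E}
    (h : ∀ᶠ s in 𝓝 (0 : ℝ), (G.Psi (s • ξ) F).m = (G.Psi (s • ξ') F).m) : ξ = ξ' := by
  obtain ⟨ρ, hρ⟩ := G.exists_good F.m
  have hg : G.GoodAt F.m ρ := hρ.at_near _ (by simpa using hρ.pos)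
  have h1 : ∀ᶠ s in 𝓝 (0 : ℝ), ‖s • ξ‖ < ρ := by
    have : Filter.Tendsto (fun s : ℝ => ‖s • ξ‖) (𝓝 0) (𝓝 ‖(0 : ℝ) • ξ‖) :=
      ((continuous_id.smul continuous_const).norm).tendsto 0
    rw [zero_smul, norm_zero] at this
    exact this.eventually_lt_const hρ.pos
  have h2 : ∀ᶠ s in 𝓝 (0 : ℝ), ‖s • ξ'‖ < ρ := by
    have : Filter.Tendsto (fun s : ℝ => ‖s • ξ'‖) (𝓝 0) (𝓝 ‖(0 : ℝ) • ξ'‖) :=
      ((continuous_id.smul continuous_const).norm).tendsto 0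
    rw [zero_smul, norm_zero] at this
    exact this.eventually_lt_const hρ.pos
  have h3 : ∀ᶠ s in 𝓝[≠] (0 : ℝ), ((G.Psi (s • ξ) F).m = (G.Psi (s • ξ') F).m ∧ ‖s • ξ‖ < ρ ∧
      ‖s • ξ'‖ < ρ) ∧ s ≠ 0 :=
    ((h.and (h1.and h2)).filter_mono nhdsWithin_le_nhds).and self_mem_nhdsWithin
  obtain ⟨s, ⟨hs, hs1, hs2⟩, hs0⟩ := h3.exists
  have h4 := hg.inj F rfl _ _ hs1 hs2 hs
  exact smul_right_injective E hs0 h4

variable {G} in
/-- A curve which locally realises the distance with constant speed is a flow line. -/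
theorem geodesic_eq {γ : ℝ → M} {c : ℝ}
    (h : ∀ t, ∃ ε > 0, ∀ s ∈ Ioo (t - ε) (t + ε), ∀ s' ∈ Ioo (t - ε) (t + ε),
      dist (γ s) (γ s') = c * |s - s'|) (f : G.Fr) (hf : f.m = γ 0) :
    ∃ ξ : E, ‖ξ‖ = c ∧ ∀ t, γ t = (G.Psi (t • ξ) f).m := by
  obtain ⟨δ₀, hδ₀, hloc₀⟩ := m6_local (G := G) 0 (h 0)
  obtain ⟨ξ, hξ, hξs⟩ := hloc₀ f hf
  refine ⟨ξ, hξ, ?_⟩
  -- continuity
  have hγ : Continuous γ := by
    rw [continuous_iff_continuousAt]
    intro t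
    obtain ⟨ε, hε, hd⟩ := h t
    rw [ContinuousAt, tendsto_iff_dist_tendsto_zero]
    have h1 : Filter.Tendsto (fun s : ℝ => c * |s - t|) (𝓝 t) (𝓝 0) := by
      have : Filter.Tendsto (fun s : ℝ => c * |s - t|) (𝓝 t) (𝓝 (c * |t - t|)) :=
        (continuous_const.mul (continuous_id.sub continuous_const).abs).tendsto t
      simpa using this
    refine h1.congr' ?_
    filter_upwards [Ioo_mem_nhds (show t - ε < t by linarith) (show t < t + ε by linarith)]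
      with s hs
    exact (hd s hs t ⟨by linarith, by linarith⟩).symm
  have hP : Continuous (fun s : ℝ => (G.Psi (s • ξ) f).m) := by
    rw [continuous_iff_continuousAt]
    intro t
    rw [ContinuousAt, tendsto_iff_dist_tendsto_zero]
    have h1 : Filter.Tendsto (fun s : ℝ => |s - t| * ‖ξ‖) (𝓝 t) (𝓝 0) := by
      have : Filter.Tendsto (fun s : ℝ => |s - t| * ‖ξ‖) (𝓝 t) (𝓝 (|t - t| * ‖ξ‖)) :=
        ((continuous_id.sub continuous_const).abs.mul continuous_const).tendsto t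
      simpa using this
    exact squeeze_zero (fun _ => dist_nonneg) (fun s => G.m6_dist_le ξ f s t) h1
  set T : Set ℝ := {t | ∀ᶠ s in 𝓝 t, γ s = (G.Psi (s • ξ) f).m} with hT
  have hTo : IsOpen T := isOpen_setOfPred_eventually_nhds
  have hT0 : (0 : ℝ) ∈ T := by
    show ∀ᶠ s in 𝓝 (0 : ℝ), γ s = (G.Psi (s • ξ) f).m
    filter_upwards [Metric.closedBall_mem_nhds (0 : ℝ) hδ₀] with s hs
    have := hξs s (by simpa [Real.dist_eq] using hs)
    simpa using this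
  have hTc : IsClosed T := by
    apply isClosed_of_closure_subset
    intro t ht
    have heq : γ t = (G.Psi (t • ξ) f).m := by
      have hcl : IsClosed {s : ℝ | γ s = (G.Psi (s • ξ) f).m} := isClosed_eq hγ hP
      have hsub : T ⊆ {s : ℝ | γ s = (G.Psi (s • ξ) f).m} := fun s hs => hs.self_of_nhds
      exact closure_minimal hsub hcl ht
    obtain ⟨δ, hδ, hloc⟩ := m6_local (G := G) t (h t)
    obtain ⟨η, hη, hηs⟩ := hloc (G.Psi (t • ξ) f) heq.symm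
    obtain ⟨t₁, ht₁T, ht₁⟩ := Metric.mem_closure_iff.1 ht δ hδ
    have ht₁' : |t₁ - t| < δ := by rw [← Real.dist_eq, dist_comm]; exact ht₁
    -- frames over `γ t₁`
    have hev : ∀ᶠ u in 𝓝 (0 : ℝ), γ (t₁ + u) = (G.Psi ((t₁ + u) • ξ) f).m ∧ |t₁ + u - t| ≤ δ := by
      have hc : Filter.Tendsto (fun u : ℝ => t₁ + u) (𝓝 0) (𝓝 t₁) := by
        have : Filter.Tendsto (fun u : ℝ => t₁ + u) (𝓝 0) (𝓝 (t₁ + 0)) :=
          (continuous_const.add continuous_id).tendsto 0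
        simpa using this
      refine (hc.eventually ht₁T).and ?_
      have hc2 : Filter.Tendsto (fun u : ℝ => |t₁ + u - t|) (𝓝 0) (𝓝 |t₁ + 0 - t|) :=
        (((continuous_const.add continuous_id).sub continuous_const).abs).tendsto 0
      rw [add_zero] at hc2
      exact (hc2.eventually_lt_const ht₁').mono fun _ h => h.le
    have hpt : (G.Psi (t₁ • ξ) f).m = (G.Psi ((t₁ - t) • η) (G.Psi (t • ξ) f)).m := by
      rw [← hηs t₁ ht₁'.le]
      have ht₁E : ∀ᶠ s in 𝓝 t₁, γ s = (G.Psi (s • ξ) f).m := ht₁T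
      exact ht₁E.self_of_nhds.symm
    obtain ⟨k, hk⟩ := exists_rot hpt
    have hkη : ξ = k η := by
      apply m6_germ (F := G.Psi (t₁ • ξ) f)
      filter_upwards [hev] with u hu
      have e1 : (G.Psi (u • ξ) (G.Psi (t₁ • ξ) f)).m = γ (t₁ + u) := by
        rw [← G.Psi_add, hu.1]
      have e2 : (G.Psi (u • k η) (G.Psi (t₁ • ξ) f)).m = γ (t₁ + u) := by
        have e3 : (G.Psi (u • η) ((G.Psi (t₁ • ξ) f).rot k)).m =
            (G.Psi (u • k η) (G.Psi (t₁ • ξ) f)).m := by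
          rw [G.Psi_rot, map_smul]
          rfl
        rw [← e3, ← hk, ← G.Psi_add, hηs _ hu.2]
        congr 3
        ring
      rw [e1, e2]
    show ∀ᶠ s in 𝓝 t, γ s = (G.Psi (s • ξ) f).m
    filter_upwards [Metric.closedBall_mem_nhds t hδ] with s hs
    rw [hηs s (by simpa [Real.dist_eq] using hs)]
    have e4 : G.Psi ((s - t) • η) (G.Psi (t • ξ) f) =
        G.Psi ((s - t₁) • η) (G.Psi ((t₁ - t) • η) (G.Psi (t • ξ) f)) := by
      rw [← G.Psi_add]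
      congr 2
      ring
    rw [e4, hk, G.Psi_rot, map_smul, ← hkη]
    show (G.Psi ((s - t₁) • ξ) (G.Psi (t₁ • ξ) f)).m = _
    rw [← G.m6_shift ξ f t₁ s]
  have hTu : T = univ := IsClopen.eq_univ ⟨hTc, hTo⟩ ⟨0, hT0⟩
  intro t
  have : t ∈ T := hTu ▸ mem_univ t
  exact (show ∀ᶠ s in 𝓝 t, γ s = (G.Psi (s • ξ) f).m from this).self_of_nhds

end Complete

end GMfd

end Amb
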