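import Mathlib

/-!
# The Ambrose conjecture: definitions used in the statement

All manifolds are smooth (`C^∞`), finite dimensional, without boundary, connected and complete
Riemannian manifolds in the sense of Mathlib.
-/

open Set Bundle Manifold
open scoped ContDiff Topology

noncomputable section

namespace Amb

universe u

/-- The model space `ℝ^n`. -/
abbrev EE (n : ℕ) : Type := EuclideanSpace ℝ (Fin n)

section Defs

variable {n : ℕ} {M : Type*} [MetricSpace M] [ChartedSpace (EE n) M]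
  [IsManifold (𝓡 n) ∞ M] [RiemannianBundle (fun x : M => TangentSpace (𝓡 n) x)]

/-- `γ : ℝ → M` is the (complete) geodesic with initial point `p` and initial velocity `v`:
it starts at `p` with velocity `v`, and it is locally distance realising with constant speed
`‖v‖`. On a Riemannian manifold these are exactly the solutions of `∇_{γ'} γ' = 0` with
`γ 0 = p`, `γ' 0 = v`. -/
structure IsGeodesic (γ : ℝ → M) (p : M) (v : TangentSpace (𝓡 n) p) : Prop where
  init : γ 0 = p
  velocity : HasMFDerivAt 𝓘(ℝ, ℝ) (𝓡 n) γ 0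
    (ContinuousLinearMap.toSpanSingleton ℝ (show EE n from v) : ℝ →L[ℝ] EE n)
  locally_minimizing : ∀ t : ℝ, ∃ ε > 0, ∀ s ∈ Ioo (t - ε) (t + ε), ∀ s' ∈ Ioo (t - ε) (t + ε),
    dist (γ s) (γ s') = |s - s'| * ‖v‖

open Classical in
/-- The exponential map `exp_p : T_p M → M`: `expMap p v = γ 1` for the geodesic `γ` with initial
point `p` and initial velocity `v` (it exists and is unique on a complete Riemannian manifold). -/
def expMap (p : M) (v : TangentSpace (𝓡 n) p) : M :=
  if h : ∃ γ : ℝ → M, IsGeodesic γ p v then h.choose 1 else p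

/-- `e : T_p M → M` is the exponential map at `p`: for every `v` the curve `t ↦ e (t v)` is the
geodesic with initial point `p` and initial velocity `v` (auxiliary notion, not used in the
statement). -/
def IsExpMap (p : M) (e : TangentSpace (𝓡 n) p → M) : Prop :=
  ∀ v : TangentSpace (𝓡 n) p, IsGeodesic (fun t : ℝ => e (t • v)) p v

end Defs

section Maps

variable {n : ℕ}
  {M : Type*} [MetricSpace M] [ChartedSpace (EE n) M]
  [IsManifold (𝓡 n) ∞ M] [RiemannianBundle (fun x : M => TangentSpace (𝓡 n) x)]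
  {N : Type*} [MetricSpace N] [ChartedSpace (EE n) N]
  [IsManifold (𝓡 n) ∞ N] [RiemannianBundle (fun x : N => TangentSpace (𝓡 n) x)]

/-- `f` is an isometric immersion on the set `S` (used for open `S`): it is smooth on `S` and its
differential preserves the length of every tangent vector at every point of `S`. -/
def IsIsometricImmersionOn (f : M → N) (S : Set M) : Prop :=
  ContMDiffOn (𝓡 n) (𝓡 n) ∞ f S ∧
    ∀ q ∈ S, ∀ v : TangentSpace (𝓡 n) q, ‖mfderiv (𝓡 n) (𝓡 n) f q v‖ = ‖v‖

/-- A Riemannian covering: a surjective covering map which is a local isometry, i.e. smooth with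
`‖df v‖ = ‖v‖` for all tangent vectors `v`. -/
structure IsRiemannianCovering (f : M → N) : Prop where
  isCoveringMap : IsCoveringMap f
  surjective : Function.Surjective f
  isometric : IsIsometricImmersionOn (n := n) f univ

/-- `(M, p)` and `(N, q)` are `L`-related: for every open connected `O ⊆ T_p M` on which `exp_p`
is injective, the map `exp_q ∘ L ∘ (exp_p|O)⁻¹` on `exp_p(O)` (i.e. every `f` with
`f (exp_p x) = exp_q (L x)` for `x ∈ O`) is an isometric immersion on `exp_p(O)`. -/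
def LRelated (p : M) (q : N) (L : TangentSpace (𝓡 n) p ≃ₗᵢ[ℝ] TangentSpace (𝓡 n) q) : Prop :=
  ∀ O : Set (TangentSpace (𝓡 n) p), IsOpen O → IsConnected O → InjOn (expMap p) O →
    ∀ f : M → N, (∀ x ∈ O, f (expMap p x) = expMap q (L x)) →
      IsIsometricImmersionOn (n := n) f (expMap p '' O)

end Maps

/-- The conclusion of the Ambrose conjecture: there are a pointed complete connected Riemannian
manifold `(M, p)` of the same dimension, linear isometries `L₁, L₂` and Riemannian coverings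
`π₁, π₂` with `π_i ∘ exp_p = exp_{p_i} ∘ L_i` and `L ∘ L₁ = L₂`. -/
def AmbroseConclusion {n : ℕ}
    {M₁ : Type u} [MetricSpace M₁] [ChartedSpace (EE n) M₁]
    [IsManifold (𝓡 n) ∞ M₁] [RiemannianBundle (fun x : M₁ => TangentSpace (𝓡 n) x)]
    {M₂ : Type u} [MetricSpace M₂] [ChartedSpace (EE n) M₂]
    [IsManifold (𝓡 n) ∞ M₂] [RiemannianBundle (fun x : M₂ => TangentSpace (𝓡 n) x)]
    (p₁ : M₁) (p₂ : M₂) (L : TangentSpace (𝓡 n) p₁ ≃ₗᵢ[ℝ] TangentSpace (𝓡 n) p₂) : Prop :=
  ∃ (M : Type u) (_ : MetricSpace M) (_ : ChartedSpace (EE n) M)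
    (_ : IsManifold (𝓡 n) ∞ M) (_ : RiemannianBundle (fun x : M => TangentSpace (𝓡 n) x))
    (_ : IsContMDiffRiemannianBundle (𝓡 n) ∞ (EE n) (fun x : M => TangentSpace (𝓡 n) x))
    (_ : IsRiemannianManifold (𝓡 n) M) (_ : CompleteSpace M) (_ : ConnectedSpace M)
    (_ : SecondCountableTopology M)
    (p : M)
    (L₁ : TangentSpace (𝓡 n) p ≃ₗᵢ[ℝ] TangentSpace (𝓡 n) p₁)
    (L₂ : TangentSpace (𝓡 n) p ≃ₗᵢ[ℝ] TangentSpace (𝓡 n) p₂)
    (π₁ : M → M₁) (π₂ : M → M₂),
    IsRiemannianCovering (n := n) π₁ ∧ IsRiemannianCovering (n := n) π₂ ∧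
      (∀ v, π₁ (expMap p v) = expMap p₁ (L₁ v)) ∧ (∀ v, π₂ (expMap p v) = expMap p₂ (L₂ v)) ∧
      ∀ v, L (L₁ v) = L₂ v

/-- **The Ambrose conjecture** (statement). -/
def AmbroseConjecture : Prop :=
  ∀ (n : ℕ)
    (M₁ : Type u) [MetricSpace M₁] [ChartedSpace (EE n) M₁]
    [IsManifold (𝓡 n) ∞ M₁] [RiemannianBundle (fun x : M₁ => TangentSpace (𝓡 n) x)]
    [IsContMDiffRiemannianBundle (𝓡 n) ∞ (EE n) (fun x : M₁ => TangentSpace (𝓡 n) x)]
    [IsRiemannianManifold (𝓡 n) M₁] [CompleteSpace M₁] [ConnectedSpace M₁]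
    (M₂ : Type u) [MetricSpace M₂] [ChartedSpace (EE n) M₂]
    [IsManifold (𝓡 n) ∞ M₂] [RiemannianBundle (fun x : M₂ => TangentSpace (𝓡 n) x)]
    [IsContMDiffRiemannianBundle (𝓡 n) ∞ (EE n) (fun x : M₂ => TangentSpace (𝓡 n) x)]
    [IsRiemannianManifold (𝓡 n) M₂] [CompleteSpace M₂] [ConnectedSpace M₂]
    (p₁ : M₁) (p₂ : M₂) (L : TangentSpace (𝓡 n) p₁ ≃ₗᵢ[ℝ] TangentSpace (𝓡 n) p₂),
    LRelated p₁ p₂ L → AmbroseConclusion p₁ p₂ L

end Amb
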