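import Pool.Agent.Amb.Br1b
import Pool.Agent.Amb.Statement
import Pool.Agent.Amb.M1b
import Pool.Agent.Amb.M4b
import Pool.Agent.Amb.M6

/-!
# Geodesics and the exponential map in terms of frames

For an orthonormal frame `f` over `p`, the geodesic with initial point `p` and initial velocity
`f.Y ξ` is `t ↦ (Psi (t • ξ) f).m`, and the exponential map at `p` is `f.Y ξ ↦ (Psi ξ f).m`.
-/

set_option maxSynthPendingDepth 3
set_option linter.unusedSectionVars false

namespace Amb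

open Set Metric Bundle Manifold
open scoped ContDiff Topology

variable {n : ℕ}
  {M : Type*} [MetricSpace M] [ChartedSpace (EE n) M] [IsManifold (𝓡 n) ∞ M]
  [RiemannianBundle (fun x : M => TangentSpace (𝓡 n) x)]
  [IsContMDiffRiemannianBundle (𝓡 n) ∞ (EE n) (fun x : M => TangentSpace (𝓡 n) x)]
  [IsRiemannianManifold (𝓡 n) M]

/-- The norm of the tangent vector with coordinates `ξ` in the frame `f`. -/
theorem norm_frame (f : (toGMfd (EE n) M).Fr) (ξ : EE n) :
    ‖(show TangentSpace (𝓡 n) f.m from f.Y ξ)‖ = ‖ξ‖ := by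
  have h := toGMfd_nrm (E := EE n) f.m (show TangentSpace (𝓡 n) f.m from f.Y ξ)
  rw [← h, GMfd.nrm]
  have h2 := f.isom ξ ξ
  rw [h2, ← norm_eq_sqrt_real_inner]

/-- The frame `f` as a linear isometry onto the tangent space. -/
noncomputable def frameEquiv (f : (toGMfd (EE n) M).Fr) :
    EE n ≃ₗᵢ[ℝ] TangentSpace (𝓡 n) f.m where
  toLinearEquiv := LinearEquiv.ofBijective
    (show EE n →ₗ[ℝ] TangentSpace (𝓡 n) f.m from (f.Y : EE n →ₗ[ℝ] EE n)) f.bij
  norm_map' := norm_frame f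

@[simp] theorem frameEquiv_apply (f : (toGMfd (EE n) M).Fr) (ξ : EE n) :
    frameEquiv f ξ = f.Y ξ := rfl

/-- The frame given by a linear isometry onto a tangent space. -/
noncomputable def frameOf (p : M) (A : EE n ≃ₗᵢ[ℝ] TangentSpace (𝓡 n) p) :
    (toGMfd (EE n) M).Fr where
  m := p
  Y := LinearMap.toContinuousLinearMap
    (show EE n →ₗ[ℝ] EE n from (A.toLinearEquiv : EE n →ₗ[ℝ] TangentSpace (𝓡 n) p))
  isom u v := (toGMfd_ip p (A u) (A v)).trans (A.inner_map_map u v)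

@[simp] theorem frameOf_m (p : M) (A : EE n ≃ₗᵢ[ℝ] TangentSpace (𝓡 n) p) :
    (frameOf p A).m = p := rfl

@[simp] theorem frameOf_Y (p : M) (A : EE n ≃ₗᵢ[ℝ] TangentSpace (𝓡 n) p) (x : EE n) :
    (frameOf p A).Y x = A x := rfl

variable [CompleteSpace M]

/-- Flow lines are geodesics. -/
theorem isGeodesic_Psi (f : (toGMfd (EE n) M).Fr) (ξ : EE n) :
    IsGeodesic (fun t : ℝ => ((toGMfd (EE n) M).Psi (t • ξ) f).m) f.m (f.Y ξ) where
  init := by
    rw [zero_smul, GMfd.Psi_zero]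
  velocity := by
    have h := HasVel_hasMFDerivAt ((toGMfd (EE n) M).Psi_hasVel ξ f 0)
    rw [zero_smul, GMfd.Psi_zero] at h
    exact h
  locally_minimizing t := by
    obtain ⟨ε, hε, h⟩ := (toGMfd (EE n) M).Psi_geodesic ξ f t
    refine ⟨ε, hε, fun s hs s' hs' => ?_⟩
    rw [h s hs s' hs', mul_comm]
    congr 1
    exact (norm_frame f ξ).symm

/-- Geodesics are flow lines. -/
theorem IsGeodesic.eq_Psi {γ : ℝ → M} {f : (toGMfd (EE n) M).Fr} {v : TangentSpace (𝓡 n) f.m}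
    (h : IsGeodesic γ f.m v) {ξ : EE n} (hξ : f.Y ξ = v) (t : ℝ) :
    γ t = ((toGMfd (EE n) M).Psi (t • ξ) f).m := by
  obtain ⟨η, hη, hγ⟩ := GMfd.geodesic_eq (G := toGMfd (EE n) M) (γ := γ) (c := ‖v‖)
    (fun t => by
      obtain ⟨ε, hε, h'⟩ := h.locally_minimizing t
      exact ⟨ε, hε, fun s hs s' hs' => by rw [h' s hs s' hs', mul_comm]⟩) f h.init.symm
  have h1 := (isGeodesic_Psi f η).velocity
  have h2 := h.velocity
  have h3 : γ = fun t : ℝ => ((toGMfd (EE n) M).Psi (t • η) f).m := funext hγ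
  rw [h3] at h2
  have h4 := hasMFDerivAt_unique h1 h2
  have h5 : f.Y η = v := by
    have h7 : (ContinuousLinearMap.toSpanSingleton ℝ (f.Y η) : ℝ →L[ℝ] EE n) 1 =
        (ContinuousLinearMap.toSpanSingleton ℝ (show EE n from v) : ℝ →L[ℝ] EE n) 1 :=
      congrArg (fun T : ℝ →L[ℝ] EE n => T 1) h4
    rwa [ContinuousLinearMap.toSpanSingleton_apply, ContinuousLinearMap.toSpanSingleton_apply,
      one_smul, one_smul] at h7
  have h6 : η = ξ := f.bij.1 (h5.trans hξ.symm)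
  rw [hγ t, h6]

/-- Geodesics exist. -/
theorem exists_isGeodesic (p : M) (v : TangentSpace (𝓡 n) p) : ∃ γ, IsGeodesic γ p v := by
  obtain ⟨f, rfl⟩ := (toGMfd (EE n) M).exists_fr p
  obtain ⟨ξ, rfl⟩ := f.bij.2 v
  exact ⟨_, isGeodesic_Psi f ξ⟩

/-- Geodesics are unique. -/
theorem IsGeodesic.unique {γ γ' : ℝ → M} {p : M} {v : TangentSpace (𝓡 n) p}
    (h : IsGeodesic γ p v) (h' : IsGeodesic γ' p v) : γ = γ' := by
  obtain ⟨f, rfl⟩ := (toGMfd (EE n) M).exists_fr p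
  obtain ⟨ξ, rfl⟩ := f.bij.2 v
  funext t
  rw [h.eq_Psi rfl t, h'.eq_Psi rfl t]

/-- The exponential map in a frame. -/
theorem IsExpMap.eq_Psi {f : (toGMfd (EE n) M).Fr} {e : TangentSpace (𝓡 n) f.m → M}
    (h : IsExpMap f.m e) (x : EE n) : e (f.Y x) = ((toGMfd (EE n) M).Psi x f).m := by
  have h1 := (h (f.Y x)).eq_Psi rfl 1
  have e1 : (1 : ℝ) • x = x := one_smul ℝ x
  have e2 : e (f.Y x) = e ((1 : ℝ) • f.Y x) := congrArg e (one_smul ℝ (f.Y x)).symm
  exact e2.trans (h1.trans (congrArg (fun y => ((toGMfd (EE n) M).Psi y f).m) e1))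

/-- A map which is given by the flow is the exponential map. -/
theorem isExpMap_of_Psi {f : (toGMfd (EE n) M).Fr} {e : TangentSpace (𝓡 n) f.m → M}
    (h : ∀ x, e (f.Y x) = ((toGMfd (EE n) M).Psi x f).m) : IsExpMap f.m e := by
  intro v
  obtain ⟨ξ, rfl⟩ := f.bij.2 v
  have h1 : (fun t : ℝ => e (t • f.Y ξ)) = fun t : ℝ => ((toGMfd (EE n) M).Psi (t • ξ) f).m := by
    funext t
    rw [← h (t • ξ)]
    exact congrArg e (f.Y.map_smul t ξ).symm
  exact h1 ▸ isGeodesic_Psi f ξ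

/-- The exponential map exists. -/
theorem exists_isExpMap (p : M) : ∃ e : TangentSpace (𝓡 n) p → M, IsExpMap p e := by
  obtain ⟨f, rfl⟩ := (toGMfd (EE n) M).exists_fr p
  refine ⟨fun v => ((toGMfd (EE n) M).Psi ((frameEquiv f).symm v) f).m, isExpMap_of_Psi fun x => ?_⟩
  have h : (frameEquiv f).symm (f.Y x) = x := (frameEquiv f).symm_apply_apply x
  change ((toGMfd (EE n) M).Psi ((frameEquiv f).symm (f.Y x)) f).m = _
  rw [h]

/-- The exponential map is unique. -/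
theorem IsExpMap.unique {p : M} {e e' : TangentSpace (𝓡 n) p → M} (h : IsExpMap p e)
    (h' : IsExpMap p e') : e = e' := by
  obtain ⟨f, rfl⟩ := (toGMfd (EE n) M).exists_fr p
  funext v
  obtain ⟨ξ, rfl⟩ := f.bij.2 v
  rw [h.eq_Psi, h'.eq_Psi]

/-- The exponential map in a frame. -/
theorem expMap_eq_Psi (f : (toGMfd (EE n) M).Fr) (ξ : EE n) :
    expMap f.m (f.Y ξ) = ((toGMfd (EE n) M).Psi ξ f).m := by
  have hex : ∃ γ : ℝ → M, IsGeodesic γ f.m (f.Y ξ) := ⟨_, isGeodesic_Psi f ξ⟩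
  have h1 : expMap f.m (f.Y ξ) = hex.choose 1 := dif_pos hex
  rw [h1, hex.choose_spec.eq_Psi rfl 1, one_smul]

/-- `expMap p` is the exponential map. -/
theorem isExpMap_expMap (p : M) : IsExpMap (n := n) p (expMap (n := n) p) := by
  obtain ⟨f, rfl⟩ := (toGMfd (EE n) M).exists_fr p
  exact isExpMap_of_Psi fun x => expMap_eq_Psi f x

/-- Geodesics in terms of the exponential map. -/
theorem IsGeodesic.eq_expMap {γ : ℝ → M} {p : M} {v : TangentSpace (𝓡 n) p}
    (h : IsGeodesic γ p v) (t : ℝ) : γ t = expMap p (t • v) :=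
  congrFun (h.unique (isExpMap_expMap p v)) t

end Amb
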