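import Pool.Agent.Amb.M1b
import Pool.Agent.Amb.M4b
import Pool.Agent.Amb.L3


/-!
# M4s: smoothness of the flow in families
-/

set_option maxSynthPendingDepth 3

namespace Amb

open Set Metric
open scoped ContDiff Topology

variable {E : Type*} [NormedAddCommGroup E] [InnerProductSpace ℝ E] [FiniteDimensional ℝ E]
variable {M : Type*} [MetricSpace M] (G : GMfd E M)
variable {X : Type*} [NormedAddCommGroup X] [NormedSpace ℝ X]

namespace GMfd

section Complete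

variable [CompleteSpace M]

/-- The flow in a chart. -/
theorem Psi_chart {q : M} {x₀ : E} {r : ℝ} {F : E → E → E × (E →L[ℝ] E)}
    (hF : LocFlow (G.tgt q) (G.g q) x₀ r F) {f : G.Fr} (hf : f.m ∈ G.src q)
    (hx : G.φ q f.m ∈ ball x₀ r) {ξ : E} (hξ : ‖(G.cd q f).2 ξ‖ < r) :
    (G.Psi ξ f).m ∈ G.src q ∧
    G.cd q (G.Psi ξ f) = ((F (G.cd q f).1 ((G.cd q f).2 ξ)).1,
      (F (G.cd q f).1 ((G.cd q f).2 ξ)).2 ∘L (G.cd q f).2) := by
  have hx' : (G.cd q f).1 ∈ ball x₀ r := hx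
  set x := (G.cd q f).1 with hxdef
  set Y := (G.cd q f).2 with hY
  have hcd : G.cd q f = (x, Y) := rfl
  set p : ℝ → E × (E →L[ℝ] E) := fun s => ((F x (s • Y ξ)).1, (F x (s • Y ξ)).2 ∘L Y) with hp
  have hmem : ∀ s : ℝ, ‖s • Y ξ‖ < r → (p s).1 ∈ G.tgt q := fun s hs =>
    hF.mem x hx' _ (by simpa using hs)
  have hiso : ∀ s : ℝ, ‖s • Y ξ‖ < r → ∀ u v,
      G.g q (p s).1 ((p s).2 u) ((p s).2 v) = inner ℝ u v := by
    intro s hs u v
    have h1 := hF.isom (G.met q) hx' (v := s • Y ξ) (by simpa using hs) (Y u) (Y v)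
    have h2 := cd_isom hf u v
    rw [hcd] at h2
    simp only [hp, ContinuousLinearMap.comp_apply]
    rw [h1]
    exact h2
  have hex : ∀ s : ℝ, ∃ fs : G.Fr, ‖s • Y ξ‖ < r → fs.m = G.ψ q (p s).1 ∧ G.cd q fs = p s := by
    intro s
    by_cases hs : ‖s • Y ξ‖ < r
    · obtain ⟨fs, h1, h2⟩ := G.exists_fr_of_cd (hmem s hs) (hiso s hs)
      exact ⟨fs, fun _ => ⟨h1, h2⟩⟩
    · exact ⟨f, fun h => absurd h hs⟩
  choose fs hfs using hex
  have hopen : ∀ t : ℝ, ‖t • Y ξ‖ < r → ∀ᶠ s in 𝓝 t, ‖s • Y ξ‖ < r := by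
    intro t ht
    have hc : ContinuousAt (fun s : ℝ => ‖s • Y ξ‖) t := by fun_prop
    exact hc.eventually_lt continuousAt_const ht
  have hder : ∀ t : ℝ, ‖t • Y ξ‖ < r → HasDerivAt p (vel (G.g q) (p t) (ξ, 0)) t := by
    intro t ht
    have h1 := hF.ode x hx' (Y ξ) t ht
    have h2 : HasDerivAt (fun s : ℝ => (F x (s • Y ξ)).1) _ t := h1.fst
    have h3 : HasDerivAt (fun s : ℝ => (F x (s • Y ξ)).2) _ t := h1.snd
    have h4 : HasDerivAt (fun s : ℝ => (F x (s • Y ξ)).2 ∘L Y) _ t :=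
      h3.clm_comp (hasDerivAt_const t Y)
    have h5 := h2.prodMk h4
    refine h5.congr_deriv ?_
    have e1 : vel (G.g q) (F x (t • Y ξ)) (Y ξ, 0) =
        ((F x (t • Y ξ)).2 (Y ξ), (F x (t • Y ξ)).2 ∘L 0 -
          (Gam (G.g q) (F x (t • Y ξ)).1 ((F x (t • Y ξ)).2 (Y ξ))) ∘L (F x (t • Y ξ)).2) :=
      vel_apply _ _ _ _ _
    have e2 : vel (G.g q) (p t) (ξ, 0) =
        ((F x (t • Y ξ)).2 (Y ξ), ((F x (t • Y ξ)).2 ∘L Y) ∘L 0 -
          (Gam (G.g q) (F x (t • Y ξ)).1 ((F x (t • Y ξ)).2 (Y ξ))) ∘L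
            ((F x (t • Y ξ)).2 ∘L Y)) :=
      vel_apply _ _ _ _ _
    rw [e1, e2]
    ext1
    · rfl
    · ext w
      simp
  have hvel : ∀ t : ℝ, ‖t • Y ξ‖ < r → G.HasVel fs ξ 0 t := by
    intro t ht
    have hev : (fun s => G.cd q (fs s)) =ᶠ[𝓝 t] p := by
      filter_upwards [hopen t ht] with s hs using (hfs s hs).2
    have hevm : (fun s => (fs s).m) =ᶠ[𝓝 t] fun s => G.ψ q (p s).1 := by
      filter_upwards [hopen t ht] with s hs using (hfs s hs).1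
    refine hasVel_of_chart (q := q) ?_ ?_ ?_
    · refine ContinuousAt.congr ?_ hevm.symm
      have h1 : ContinuousAt (fun s => (p s).1) t := (hder t ht).continuousAt.fst
      have h2 : ContinuousAt (G.ψ q) (p t).1 :=
        (G.cont_ψ q).continuousAt ((G.met q).isOpen.mem_nhds (hmem t ht))
      exact ContinuousAt.comp (f := fun s => (p s).1) h2 h1
    · rw [(hfs t ht).1]
      exact G.map_tgt q _ (hmem t ht)
    · rw [(hfs t ht).2]
      exact (hder t ht).congr_of_eventuallyEq hev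
  have h0r : ‖(0 : ℝ) • Y ξ‖ < r := by simpa using hF.r_pos
  have h1r : ‖(1 : ℝ) • Y ξ‖ < r := by simpa using hξ
  have hf0 : fs 0 = f := by
    refine cd_inj (q := q) ?_ hf ?_
    · rw [(hfs 0 h0r).1]
      exact G.map_tgt q _ (hmem 0 h0r)
    · rw [(hfs 0 h0r).2, hcd]
      simp only [hp, zero_smul, hF.zero x hx']
      ext1
      · rfl
      · ext w
        simp
  have key := Psi_unique_Icc (G := G) (f := fs) (ξ := ξ) (a := 0) (b := 1) zero_le_one (by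
    intro t ht
    refine hvel t ?_
    rw [norm_smul, Real.norm_eq_abs, abs_of_nonneg ht.1]
    calc t * ‖Y ξ‖ ≤ 1 * ‖Y ξ‖ := mul_le_mul_of_nonneg_right ht.2 (norm_nonneg _)
      _ < r := by simpa using hξ)
  rw [hf0] at key
  simp only [sub_zero, one_smul] at key
  rw [← key]
  refine ⟨?_, ?_⟩
  · rw [(hfs 1 h1r).1]
    exact G.map_tgt q _ (hmem 1 h1r)
  · rw [(hfs 1 h1r).2]
    simp only [hp, one_smul]

variable {G} in
theorem Psi_smooth_loc {q : M} {x₀ : E} {r : ℝ} {F : E → E → E × (E →L[ℝ] E)}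
    (hF : LocFlow (G.tgt q) (G.g q) x₀ r F) {f : X → G.Fr} {ξ : X → E} {x : X} (hf : G.SmAt f x)
    (hξ : ContDiffAt ℝ ∞ ξ x) (hq : (f x).m ∈ G.src q) (hx : G.φ q (f x).m ∈ ball x₀ r)
    (hr : ‖(G.cd q (f x)).2 (ξ x)‖ < r) : G.SmAt (fun y => G.Psi (ξ y) (f y)) x := by
  have hcd : ContDiffAt ℝ ∞ (fun y => G.cd q (f y)) x := hf.2 q hq
  have hcd1 : ContDiffAt ℝ ∞ (fun y => (G.cd q (f y)).1) x := hcd.fst
  have hcd2 : ContDiffAt ℝ ∞ (fun y => (G.cd q (f y)).2) x := hcd.snd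
  have hcdξ : ContDiffAt ℝ ∞ (fun y => (G.cd q (f y)).2 (ξ y)) x := hcd2.clm_apply hξ
  have ev1 : ∀ᶠ y in 𝓝 x, (f y).m ∈ G.src q := hf.1.eventually_mem ((G.src_open q).mem_nhds hq)
  have ev2 : ∀ᶠ y in 𝓝 x, (G.cd q (f y)).1 ∈ ball x₀ r :=
    hcd1.continuousAt.eventually_mem (isOpen_ball.mem_nhds hx)
  have ev3 : ∀ᶠ y in 𝓝 x, ‖(G.cd q (f y)).2 (ξ y)‖ < r :=
    hcdξ.continuousAt.norm.eventually_lt continuousAt_const hr
  have ev : ∀ᶠ y in 𝓝 x, (G.Psi (ξ y) (f y)).m ∈ G.src q ∧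
      G.cd q (G.Psi (ξ y) (f y)) = ((F (G.cd q (f y)).1 ((G.cd q (f y)).2 (ξ y))).1,
        (F (G.cd q (f y)).1 ((G.cd q (f y)).2 (ξ y))).2 ∘L (G.cd q (f y)).2) := by
    filter_upwards [ev1, ev2, ev3] with y h1 h2 h3
    exact G.Psi_chart hF h1 h2 h3
  have hH : ContDiffAt ℝ ∞ (fun y => F (G.cd q (f y)).1 ((G.cd q (f y)).2 (ξ y))) x := by
    have h1 : ContDiffAt ℝ ∞ (fun p : E × E => F p.1 p.2)
        ((G.cd q (f x)).1, (G.cd q (f x)).2 (ξ x)) := by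
      refine hF.smooth.contDiffAt ((isOpen_ball.prod isOpen_ball).mem_nhds ⟨hx, ?_⟩)
      simpa using hr
    exact ContDiffAt.comp x (g := fun p : E × E => F p.1 p.2)
      (f := fun y => ((G.cd q (f y)).1, (G.cd q (f y)).2 (ξ y))) h1 (hcd1.prodMk hcdξ)
  have hres : ContDiffAt ℝ ∞ (fun y => G.cd q (G.Psi (ξ y) (f y))) x := by
    have h1 : ContDiffAt ℝ ∞ (fun y => ((F (G.cd q (f y)).1 ((G.cd q (f y)).2 (ξ y))).1,
        (F (G.cd q (f y)).1 ((G.cd q (f y)).2 (ξ y))).2 ∘L (G.cd q (f y)).2)) x :=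
      hH.fst.prodMk (hH.snd.clm_comp hcd2)
    refine h1.congr_of_eventuallyEq ?_
    filter_upwards [ev] with y hy using hy.2
  have hqx : (G.Psi (ξ x) (f x)).m ∈ G.src q := ev.self_of_nhds.1
  refine smAt_of_chart (q := q) ?_ hqx hres
  have h1 : (fun y => (G.Psi (ξ y) (f y)).m) =ᶠ[𝓝 x]
      fun y => G.ψ q (G.cd q (G.Psi (ξ y) (f y))).1 := by
    filter_upwards [ev] with y hy
    exact (G.left_inv q _ hy.1).symm
  refine ContinuousAt.congr ?_ h1.symm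
  have h2 : ContinuousAt (G.ψ q) (G.cd q (G.Psi (ξ x) (f x))).1 :=
    (G.cont_ψ q).continuousAt ((G.met q).isOpen.mem_nhds (G.map_src q _ hqx))
  exact ContinuousAt.comp (f := fun y => (G.cd q (G.Psi (ξ y) (f y))).1) h2
    hres.continuousAt.fst

variable {G} in
/-- M4s: smoothness of the flow in families -/
theorem Psi_smooth {f : X → G.Fr} {ξ : X → E} {x : X} (hf : G.SmAt f x)
    (hξ : ContDiffAt ℝ ∞ ξ x) : G.SmAt (fun y => G.Psi (ξ y) (f y)) x := by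
  set S : Set ℝ := {t | G.SmAt (fun y => G.Psi (t • ξ y) (f y)) x} with hS
  have key : ∀ t₀ : ℝ, ∃ ε > 0, ∀ t ∈ ball t₀ ε, ∀ t' ∈ ball t₀ ε, t ∈ S → t' ∈ S := by
    intro t₀
    set c : ℝ → G.Fr := fun t => G.Psi (t • ξ x) (f x) with hc
    set q : M := (c t₀).m with hqdef
    have hq0 : (c t₀).m ∈ G.src q := G.mem_src q
    obtain ⟨r, F, hF⟩ := exists_locFlow (G.met q) (G.map_src q _ hq0)
    have hv := G.Psi_hasVel (ξ x) (f x) t₀
    have hcont : ContinuousAt (fun t => (c t).m) t₀ := hv.1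
    have hcdc : ContinuousAt (fun t => G.cd q (c t)) t₀ := (hv.2 q hq0).continuousAt
    have ev1 : ∀ᶠ t in 𝓝 t₀, (c t).m ∈ G.src q :=
      hcont.eventually_mem ((G.src_open q).mem_nhds hq0)
    have ev2 : ∀ᶠ t in 𝓝 t₀, (G.cd q (c t)).1 ∈ ball (G.φ q (c t₀).m) r :=
      hcdc.fst.eventually_mem (isOpen_ball.mem_nhds (mem_ball_self hF.r_pos))
    have ev3 : ∀ᶠ t in 𝓝 t₀, ‖(G.cd q (c t)).2 (ξ x)‖ < ‖(G.cd q (c t₀)).2 (ξ x)‖ + 1 := by
      have h1 : ContinuousAt (fun t => ‖(G.cd q (c t)).2 (ξ x)‖) t₀ :=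
        (hcdc.snd.clm_apply continuousAt_const).norm
      exact h1.eventually_lt continuousAt_const (by linarith)
    obtain ⟨ε₁, hε₁, hb⟩ := Metric.eventually_nhds_iff_ball.1 (ev1.and (ev2.and ev3))
    set B : ℝ := ‖(G.cd q (c t₀)).2 (ξ x)‖ + 1 with hB
    have hBpos : 0 < B := by positivity
    refine ⟨min ε₁ (r / (2 * B)), lt_min hε₁ (div_pos hF.r_pos (by positivity)), ?_⟩
    intro t ht t' ht' htS
    have ht1 : t ∈ ball t₀ ε₁ := ball_subset_ball (min_le_left _ _) ht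
    obtain ⟨a1, a2, a3⟩ := hb t ht1
    have hdist : |t' - t| < r / B := by
      have h1 : dist t t₀ < r / (2 * B) := lt_of_lt_of_le ht (min_le_right _ _)
      have h2 : dist t' t₀ < r / (2 * B) := lt_of_lt_of_le ht' (min_le_right _ _)
      have h3 : dist t' t ≤ dist t' t₀ + dist t t₀ := dist_triangle_right _ _ _
      rw [Real.dist_eq] at h3
      have h4 : r / (2 * B) + r / (2 * B) = r / B := by field_simp; ring
      linarith
    have hsm : G.SmAt (fun y => G.Psi ((t' - t) • ξ y) (G.Psi (t • ξ y) (f y))) x := by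
      refine Psi_smooth_loc hF (ξ := fun y => (t' - t) • ξ y) (f := fun y => G.Psi (t • ξ y) (f y))
        htS (hξ.const_smul _) a1 a2 ?_
      show ‖(G.cd q (c t)).2 ((t' - t) • ξ x)‖ < r
      rw [map_smul, norm_smul, Real.norm_eq_abs]
      calc |t' - t| * ‖(G.cd q (c t)).2 (ξ x)‖ ≤ |t' - t| * B :=
            mul_le_mul_of_nonneg_left a3.le (abs_nonneg _)
        _ < r / B * B := mul_lt_mul_of_pos_right hdist hBpos
        _ = r := by field_simp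
    show G.SmAt (fun y => G.Psi (t' • ξ y) (f y)) x
    have heq : (fun y => G.Psi (t' • ξ y) (f y)) =
        fun y => G.Psi ((t' - t) • ξ y) (G.Psi (t • ξ y) (f y)) := by
      funext y
      rw [← G.Psi_add t (t' - t) (ξ y) (f y)]
      congr 2
      ring
    rw [heq]
    exact hsm
  have hopen : IsOpen S := by
    rw [Metric.isOpen_iff]
    intro t₀ ht₀
    obtain ⟨ε, hε, h⟩ := key t₀
    exact ⟨ε, hε, fun t' ht' => h t₀ (mem_ball_self hε) t' ht' ht₀⟩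
  have hclosed : IsClosed S := by
    rw [← isOpen_compl_iff, Metric.isOpen_iff]
    intro t₀ ht₀
    obtain ⟨ε, hε, h⟩ := key t₀
    exact ⟨ε, hε, fun t' ht' ht'S => ht₀ (h t' ht' t₀ (mem_ball_self hε) ht'S)⟩
  have h0 : (0 : ℝ) ∈ S := by
    show G.SmAt (fun y => G.Psi ((0 : ℝ) • ξ y) (f y)) x
    have heq : (fun y => G.Psi ((0 : ℝ) • ξ y) (f y)) = f := by
      funext y
      rw [zero_smul, G.Psi_zero]
    rw [heq]
    exact hf
  have huniv : S = univ := IsClopen.eq_univ ⟨hclosed, hopen⟩ ⟨0, h0⟩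
  have h1 : (1 : ℝ) ∈ S := by rw [huniv]; exact mem_univ _
  have h2 : G.SmAt (fun y => G.Psi ((1 : ℝ) • ξ y) (f y)) x := h1
  simpa using h2

end Complete

end GMfd

end Amb
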