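import Pool.Agent.Amb.Br1b
import Pool.Agent.Amb.Br2
import Pool.Agent.Amb.M4s

/-!
# `LRelated` implies the hypothesis of the theorem about rays
-/

set_option maxSynthPendingDepth 3
set_option linter.unusedSectionVars false

namespace Amb

open Set Metric Bundle Manifold
open scoped ContDiff Topology

section

variable {E : Type*} [NormedAddCommGroup E] [InnerProductSpace ℝ E] [FiniteDimensional ℝ E]
variable {M : Type*} [MetricSpace M] [ChartedSpace E M] [IsManifold 𝓘(ℝ, E) ∞ M]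
  [RiemannianBundle (fun x : M => TangentSpace 𝓘(ℝ, E) x)]
  [IsContMDiffRiemannianBundle 𝓘(ℝ, E) ∞ E (fun x : M => TangentSpace 𝓘(ℝ, E) x)]
  [IsRiemannianManifold 𝓘(ℝ, E) M] [CompleteSpace M]

theorem nrm_frame {M : Type*} [MetricSpace M] {G : GMfd E M} (f : G.Fr) (u : E) :
    G.nrm f.m (f.Y u) = ‖u‖ := by
  rw [GMfd.nrm, f.isom, norm_eq_sqrt_real_inner]

/-- The map `y ↦ (Psi y f).m` near a point where its derivative is injective. -/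
theorem dev_local (f : (toGMfd E M).Fr) {x : E} {Θ : E →L[ℝ] E} {K : E →L[ℝ] E →L[ℝ] E}
    (h : (toGMfd E M).HasFVel (fun y => (toGMfd E M).Psi y f) Θ K x)
    (hinj : Function.Injective Θ) :
    ∃ r > 0, InjOn (fun y => ((toGMfd E M).Psi y f).m) (ball x r) ∧
      (fun y => ((toGMfd E M).Psi y f).m) '' (ball x r) ∈ 𝓝 ((toGMfd E M).Psi x f).m := by
  set F : E → M := fun y => ((toGMfd E M).Psi y f).m with hF
  set q : M := F x with hq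
  have hqs : F x ∈ (extChartAt 𝓘(ℝ, E) q).source := mem_extChartAt_source _
  -- smoothness and derivative in the chart
  have hsm : (toGMfd E M).SmPt F x :=
    (GMfd.Psi_smooth (G := toGMfd E M) (GMfd.smAt_const (G := toGMfd E M) f x) contDiffAt_id).smPt
  have hcd : ContDiffAt ℝ ∞ (fun y => extChartAt 𝓘(ℝ, E) q (F y)) x := hsm.2 q hqs
  set A : E →L[ℝ] E := ((toGMfd E M).Psi x f).Y ∘L Θ with hA
  have hd : HasFDerivAt (fun y => extChartAt 𝓘(ℝ, E) q (F y)) A x :=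
    (hasMFDerivAt_iff_center.1 (HasFVel_hasMFDerivAt h)).2
  have hAinj : Function.Injective A := ((toGMfd E M).Psi x f).bij.1.comp hinj
  have hAb : Function.Bijective A :=
    ⟨hAinj, LinearMap.surjective_of_injective (f := (A : E →ₗ[ℝ] E)) hAinj⟩
  let A' : E ≃L[ℝ] E := ContinuousLinearEquiv.ofBijective A
    (LinearMap.ker_eq_bot.2 hAb.1) (LinearMap.range_eq_top.2 hAb.2)
  have hstrict : HasStrictFDerivAt (fun y => extChartAt 𝓘(ℝ, E) q (F y)) (A' : E →L[ℝ] E) x := by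
    have := hcd.hasStrictFDerivAt (by simp)
    rw [hd.fderiv] at this
    exact this
  set P := hstrict.toOpenPartialHomeomorph (fun y => extChartAt 𝓘(ℝ, E) q (F y)) with hP
  have hsrc : P.source ∩ F ⁻¹' (extChartAt 𝓘(ℝ, E) q).source ∈ 𝓝 x :=
    Filter.inter_mem (P.open_source.mem_nhds hstrict.mem_toOpenPartialHomeomorph_source)
      (hsm.1.preimage_mem_nhds ((isOpen_extChartAt_source (I := 𝓘(ℝ, E)) q).mem_nhds hqs))
  obtain ⟨r, hr, hrs⟩ := Metric.mem_nhds_iff.1 hsrc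
  refine ⟨r, hr, ?_, ?_⟩
  · intro y hy y' hy' hyy
    have h1 : P y = P y' := by
      change extChartAt 𝓘(ℝ, E) q (F y) = extChartAt 𝓘(ℝ, E) q (F y')
      exact congrArg _ hyy
    exact P.injOn (hrs hy).1 (hrs hy').1 h1
  · have h2 : (fun y => extChartAt 𝓘(ℝ, E) q (F y)) '' (ball x r) ∈
        𝓝 (extChartAt 𝓘(ℝ, E) q (F x)) := by
      rw [← hstrict.map_nhds_eq_of_equiv]
      exact Filter.image_mem_map (ball_mem_nhds x hr)
    have h3 := (continuousAt_extChartAt' (I := 𝓘(ℝ, E)) hqs).preimage_mem_nhds h2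
    filter_upwards [h3, (isOpen_extChartAt_source (I := 𝓘(ℝ, E)) q).mem_nhds hqs] with m hm hms
    obtain ⟨y, hy, hym⟩ := hm
    exact ⟨y, hy, (extChartAt 𝓘(ℝ, E) q).injOn (hrs hy).2 hms hym⟩

end

section

variable {n : ℕ}
  {M₁ : Type*} [MetricSpace M₁] [ChartedSpace (EE n) M₁] [IsManifold (𝓡 n) ∞ M₁]
  [RiemannianBundle (fun x : M₁ => TangentSpace (𝓡 n) x)]
  [IsContMDiffRiemannianBundle (𝓡 n) ∞ (EE n) (fun x : M₁ => TangentSpace (𝓡 n) x)]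
  [IsRiemannianManifold (𝓡 n) M₁] [CompleteSpace M₁]
  {M₂ : Type*} [MetricSpace M₂] [ChartedSpace (EE n) M₂] [IsManifold (𝓡 n) ∞ M₂]
  [RiemannianBundle (fun x : M₂ => TangentSpace (𝓡 n) x)]
  [IsContMDiffRiemannianBundle (𝓡 n) ∞ (EE n) (fun x : M₂ => TangentSpace (𝓡 n) x)]
  [IsRiemannianManifold (𝓡 n) M₂] [CompleteSpace M₂]

/-- If `(M₁, p₁)` and `(M₂, p₂)` are `L`-related, the developments have the same first fundamental
form at all points where the first one is regular. -/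
theorem rays_hyp0 (f₁ : (toGMfd (EE n) M₁).Fr) (f₂ : (toGMfd (EE n) M₂).Fr)
    (L : TangentSpace (𝓡 n) f₁.m ≃ₗᵢ[ℝ] TangentSpace (𝓡 n) f₂.m)
    (he₁ : ∀ x, expMap f₁.m (f₁.Y x) = ((toGMfd (EE n) M₁).Psi x f₁).m)
    (he₂ : ∀ x, expMap f₂.m (f₂.Y x) = ((toGMfd (EE n) M₂).Psi x f₂).m)
    (hL : ∀ x, L (f₁.Y x) = f₂.Y x) (hR : LRelated f₁.m f₂.m L)
    (x : EE n) (Θ : EE n →L[ℝ] EE n) (K : EE n →L[ℝ] EE n →L[ℝ] EE n)
    (Θ₂ : EE n →L[ℝ] EE n) (K₂ : EE n →L[ℝ] EE n →L[ℝ] EE n)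
    (h1 : (toGMfd (EE n) M₁).HasFVel (fun y => (toGMfd (EE n) M₁).Psi y f₁) Θ K x)
    (h2 : (toGMfd (EE n) M₂).HasFVel (fun y => (toGMfd (EE n) M₂).Psi y f₂) Θ₂ K₂ x)
    (hinj : Function.Injective Θ) (ξ : EE n) : ‖Θ ξ‖ = ‖Θ₂ ξ‖ := by
  obtain ⟨r, hr, hio, hnh⟩ := dev_local f₁ h1 hinj
  set e₁ : TangentSpace (𝓡 n) f₁.m → M₁ := expMap f₁.m with he₁'
  set e₂ : TangentSpace (𝓡 n) f₂.m → M₂ := expMap f₂.m with he₂'
  -- the open connected set `O`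
  set O : Set (TangentSpace (𝓡 n) f₁.m) := (fun y : EE n => (f₁.Y y : EE n)) '' ball x r with hO
  have hYo : IsOpenMap f₁.Y := f₁.Y.isOpenMap f₁.bij.2
  have hOo : IsOpen O := hYo _ isOpen_ball
  have hOc : IsConnected O :=
    ((convex_ball x r).isConnected (nonempty_ball.2 hr)).image _ f₁.Y.continuous.continuousOn
  have hOi : InjOn e₁ O := by
    rintro _ ⟨y, hy, rfl⟩ _ ⟨y', hy', rfl⟩ hyy
    have : y = y' := hio hy hy' ((he₁ y).symm.trans (hyy.trans (he₁ y')))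
    rw [this]
  classical
  let g : M₁ → M₂ := fun m => if h : ∃ v ∈ O, e₁ v = m then e₂ (L h.choose) else f₂.m
  have hg : ∀ v ∈ O, g (e₁ v) = e₂ (L v) := by
    intro v hv
    have h : ∃ w ∈ O, e₁ w = e₁ v := ⟨v, hv, rfl⟩
    have h3 : g (e₁ v) = e₂ (L h.choose) := dif_pos h
    rw [h3, hOi h.choose_spec.1 hv h.choose_spec.2]
  obtain ⟨hsm, hiso⟩ := hR O hOo hOc hOi g hg
  have hn : e₁ '' O ∈ 𝓝 ((toGMfd (EE n) M₁).Psi x f₁).m := by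
    refine Filter.mem_of_superset hnh ?_
    rintro _ ⟨y, hy, rfl⟩
    exact ⟨f₁.Y y, ⟨y, hy, rfl⟩, he₁ y⟩
  have hgd : MDifferentiableAt (𝓡 n) (𝓡 n) g ((toGMfd (EE n) M₁).Psi x f₁).m :=
    (hsm.contMDiffAt hn).mdifferentiableAt (by simp)
  have hmem : ((toGMfd (EE n) M₁).Psi x f₁).m ∈ e₁ '' O :=
    ⟨f₁.Y x, ⟨x, mem_ball_self hr, rfl⟩, he₁ x⟩
  have hgF : ∀ y ∈ ball x r, g ((toGMfd (EE n) M₁).Psi y f₁).m =
      ((toGMfd (EE n) M₂).Psi y f₂).m := by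
    intro y hy
    rw [← he₁ y, hg (f₁.Y y) ⟨y, hy, rfl⟩, hL y, he₂ y]
  have hF₁ := HasFVel_hasMFDerivAt h1
  have hF₂ := HasFVel_hasMFDerivAt h2
  have hcomp := hgd.hasMFDerivAt.comp x hF₁
  have hcongr : (fun y => ((toGMfd (EE n) M₂).Psi y f₂).m) =ᶠ[𝓝 x]
      g ∘ (fun y => ((toGMfd (EE n) M₁).Psi y f₁).m) := by
    filter_upwards [ball_mem_nhds x hr] with y hy
    exact (hgF y hy).symm
  have huniq := hasMFDerivAt_unique hF₂ (hcomp.congr_of_eventuallyEq hcongr)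
  have hval : ((toGMfd (EE n) M₂).Psi x f₂).Y (Θ₂ ξ) =
      (mfderiv (𝓡 n) (𝓡 n) g ((toGMfd (EE n) M₁).Psi x f₁).m : EE n →L[ℝ] EE n)
        (((toGMfd (EE n) M₁).Psi x f₁).Y (Θ ξ)) :=
    congrArg (fun T : EE n →L[ℝ] EE n => T ξ) huniq
  have hlen := hiso _ hmem (((toGMfd (EE n) M₁).Psi x f₁).Y (Θ ξ))
  have h5 := nrm_frame ((toGMfd (EE n) M₁).Psi x f₁) (Θ ξ)
  have h6 := nrm_frame ((toGMfd (EE n) M₂).Psi x f₂) (Θ₂ ξ)
  rw [hval, ← hgF x (mem_ball_self hr)] at h6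
  exact h5.symm.trans ((toGMfd_nrm _ _).trans (hlen.symm.trans ((toGMfd_nrm _ _).symm.trans h6)))

/-- The same with the exponential maps identified by `expMap_eq_Psi`. -/
theorem rays_hyp (f₁ : (toGMfd (EE n) M₁).Fr) (f₂ : (toGMfd (EE n) M₂).Fr)
    (L : TangentSpace (𝓡 n) f₁.m ≃ₗᵢ[ℝ] TangentSpace (𝓡 n) f₂.m)
    (hL : ∀ x, L (f₁.Y x) = f₂.Y x) (hR : LRelated f₁.m f₂.m L)
    (x : EE n) (Θ : EE n →L[ℝ] EE n) (K : EE n →L[ℝ] EE n →L[ℝ] EE n)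
    (Θ₂ : EE n →L[ℝ] EE n) (K₂ : EE n →L[ℝ] EE n →L[ℝ] EE n)
    (h1 : (toGMfd (EE n) M₁).HasFVel (fun y => (toGMfd (EE n) M₁).Psi y f₁) Θ K x)
    (h2 : (toGMfd (EE n) M₂).HasFVel (fun y => (toGMfd (EE n) M₂).Psi y f₂) Θ₂ K₂ x)
    (hinj : Function.Injective Θ) (ξ : EE n) : ‖Θ ξ‖ = ‖Θ₂ ξ‖ :=
  rays_hyp0 f₁ f₂ L (fun x => expMap_eq_Psi f₁ x) (fun x => expMap_eq_Psi f₂ x) hL hR
    x Θ K Θ₂ K₂ h1 h2 hinj ξ

end

end Amb
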