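import Pool.Agent.Amb.Met
import Pool.Agent.Amb.Statement

set_option maxSynthPendingDepth 3

open Set Bundle Manifold Metric MeasureTheory
open scoped ContDiff Topology

namespace Amb

noncomputable section

section Metric

variable {n : ℕ} {M : Type*} [MetricSpace M] [ChartedSpace (EE n) M]
  [IsManifold (𝓡 n) ∞ M] [RiemannianBundle (fun x : M => TangentSpace (𝓡 n) x)]
  [IsContMDiffRiemannianBundle (𝓡 n) ∞ (EE n) (fun x : M => TangentSpace (𝓡 n) x)]

variable (n M) in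
/-- The scalar product of the tangent spaces as a family of bilinear forms on the model space. -/
def gM : M → EE n →L[ℝ] EE n →L[ℝ] ℝ :=
  Classical.choose (IsContMDiffRiemannianBundle.exists_contMDiff (IB := 𝓡 n) (n := ∞)
    (F := EE n) (E := (fun x : M => TangentSpace (𝓡 n) x)))

theorem gM_apply (x : M) (v w : TangentSpace (𝓡 n) x) : gM n M x v w = inner ℝ v w :=
  ((Classical.choose_spec (IsContMDiffRiemannianBundle.exists_contMDiff (IB := 𝓡 n) (n := ∞)
    (F := EE n) (E := (fun x : M => TangentSpace (𝓡 n) x)))).2 x v w).symm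

/-- the derivative of the inverse chart at `q`. -/
def chV (q : M) (y : EE n) : EE n →L[ℝ] EE n :=
  mfderiv 𝓘(ℝ, EE n) (𝓡 n) (extChartAt (𝓡 n) q).symm y

/-- The metric in the chart at `q`. -/
def chG (q : M) (y : EE n) : EE n →L[ℝ] EE n →L[ℝ] ℝ :=
  (gM n M ((extChartAt (𝓡 n) q).symm y)).bilinearComp (chV q y) (chV q y)

theorem chG_apply (q : M) (y : EE n) (v w : EE n) :
    chG q y v w = inner ℝ
      (mfderiv 𝓘(ℝ, EE n) (𝓡 n) (extChartAt (𝓡 n) q).symm y v :
        TangentSpace (𝓡 n) ((extChartAt (𝓡 n) q).symm y))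
      (mfderiv 𝓘(ℝ, EE n) (𝓡 n) (extChartAt (𝓡 n) q).symm y w) := by
  rw [← gM_apply]
  rfl


omit [RiemannianBundle (fun x : M => TangentSpace (𝓡 n) x)]
  [IsContMDiffRiemannianBundle (𝓡 n) ∞ (EE n) (fun x : M => TangentSpace (𝓡 n) x)] in
theorem mdiffAt_symm (q : M) {y : EE n} (hy : y ∈ (extChartAt (𝓡 n) q).target) :
    MDifferentiableAt 𝓘(ℝ, EE n) (𝓡 n) (extChartAt (𝓡 n) q).symm y := by
  have h1 : IsManifold (𝓡 n) 1 M := IsManifold.of_le (n := ∞) (by norm_cast)
  have := mdifferentiableWithinAt_extChartAt_symm (I := 𝓡 n) hy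
  rw [ModelWithCorners.Boundaryless.range_eq_univ, mdifferentiableWithinAt_univ] at this
  exact this

omit [RiemannianBundle (fun x : M => TangentSpace (𝓡 n) x)]
  [IsContMDiffRiemannianBundle (𝓡 n) ∞ (EE n) (fun x : M => TangentSpace (𝓡 n) x)] in
theorem mdiffAt_chart (q : M) {x : M} (hx : x ∈ (extChartAt (𝓡 n) q).source) :
    MDifferentiableAt (𝓡 n) 𝓘(ℝ, EE n) (extChartAt (𝓡 n) q) x := by
  have h1 : IsManifold (𝓡 n) 1 M := IsManifold.of_le (n := ∞) (by norm_cast)
  exact mdifferentiableAt_extChartAt (by rwa [extChartAt_source] at hx)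

omit [RiemannianBundle (fun x : M => TangentSpace (𝓡 n) x)]
  [IsContMDiffRiemannianBundle (𝓡 n) ∞ (EE n) (fun x : M => TangentSpace (𝓡 n) x)] in
theorem mfderiv_chart_symm (q : M) {y : EE n} (hy : y ∈ (extChartAt (𝓡 n) q).target) (v : EE n) :
    mfderiv (𝓡 n) 𝓘(ℝ, EE n) (extChartAt (𝓡 n) q) ((extChartAt (𝓡 n) q).symm y)
      (mfderiv 𝓘(ℝ, EE n) (𝓡 n) (extChartAt (𝓡 n) q).symm y v) = v := by
  have h1 : IsManifold (𝓡 n) 1 M := IsManifold.of_le (n := ∞) (by norm_cast)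
  have h := mfderiv_extChartAt_comp_mfderivWithin_extChartAt_symm (I := 𝓡 n) hy
  rw [ModelWithCorners.Boundaryless.range_eq_univ, mfderivWithin_univ] at h
  exact congrArg (fun L => L v) h

omit [RiemannianBundle (fun x : M => TangentSpace (𝓡 n) x)]
  [IsContMDiffRiemannianBundle (𝓡 n) ∞ (EE n) (fun x : M => TangentSpace (𝓡 n) x)] in
theorem mfderiv_symm_chart (q : M) {y : EE n} (hy : y ∈ (extChartAt (𝓡 n) q).target)
    (v : TangentSpace (𝓡 n) ((extChartAt (𝓡 n) q).symm y)) :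
    mfderiv 𝓘(ℝ, EE n) (𝓡 n) (extChartAt (𝓡 n) q).symm y
      (mfderiv (𝓡 n) 𝓘(ℝ, EE n) (extChartAt (𝓡 n) q) ((extChartAt (𝓡 n) q).symm y) v) = v := by
  have h1 : IsManifold (𝓡 n) 1 M := IsManifold.of_le (n := ∞) (by norm_cast)
  have h := mfderivWithin_extChartAt_symm_comp_mfderiv_extChartAt (I := 𝓡 n) hy
  rw [ModelWithCorners.Boundaryless.range_eq_univ, mfderivWithin_univ] at h
  exact congrArg (fun L => L v) h

omit [RiemannianBundle (fun x : M => TangentSpace (𝓡 n) x)]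
  [IsContMDiffRiemannianBundle (𝓡 n) ∞ (EE n) (fun x : M => TangentSpace (𝓡 n) x)] in
theorem contMDiffOn_sec (q : M) (u : EE n) :
    ContMDiffOn 𝓘(ℝ, EE n) (𝓡 n).tangent ∞
      (fun y : EE n => (⟨(extChartAt (𝓡 n) q).symm y,
        mfderiv 𝓘(ℝ, EE n) (𝓡 n) (extChartAt (𝓡 n) q).symm y u⟩ : TangentBundle (𝓡 n) M))
      (extChartAt (𝓡 n) q).target := by
  have h1 : ContMDiffOn 𝓘(ℝ, EE n) (𝓡 n) ∞ (extChartAt (𝓡 n) q).symm
      (extChartAt (𝓡 n) q).target := contMDiffOn_extChartAt_symm q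
  have ho : IsOpen (extChartAt (𝓡 n) q).target := isOpen_extChartAt_target q
  have h2 := h1.contMDiffOn_tangentMapWithin (m := ∞) (by simp) ho.uniqueMDiffOn
  have h3 : ContMDiff 𝓘(ℝ, EE n) 𝓘(ℝ, EE n).tangent ∞
      (fun y : EE n => (⟨y, u⟩ : TangentBundle 𝓘(ℝ, EE n) (EE n))) := by
    have : ContDiff ℝ ∞ (fun _ : EE n => u) := contDiff_const
    exact contMDiff_vectorSpace_iff_contDiff.2 this
  refine (h2.comp h3.contMDiffOn (fun y hy => hy)).congr fun y hy => ?_
  simp only [Function.comp_apply, tangentMapWithin]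
  rw [mfderivWithin_of_isOpen ho hy]

theorem contDiffOn_chG (q : M) :
    ContDiffOn ℝ ∞ (chG (M := M) q) (extChartAt (𝓡 n) q).target := by
  rw [contDiffOn_clm_apply]
  intro u
  rw [contDiffOn_clm_apply]
  intro w
  have h := (contMDiffOn_sec (n := n) q u).inner_bundle (n := ∞) (F := EE n)
    (contMDiffOn_sec (n := n) q w)
  rw [contMDiffOn_iff_contDiffOn] at h
  exact h.congr fun y _ => chG_apply q y u w

theorem isMet_chG (q : M) : IsMet (extChartAt (𝓡 n) q).target (chG (M := M) q) where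
  isOpen := isOpen_extChartAt_target q
  smooth := contDiffOn_chG q
  symm := fun y _ u v => by rw [chG_apply, chG_apply, real_inner_comm]
  pos := fun y hy u hu => by
    rw [chG_apply]
    refine real_inner_self_pos.2 fun h0 => hu ?_
    have h := mfderiv_chart_symm q hy u
    rw [h0, map_zero] at h
    exact h.symm

/-- The chart metric computes the scalar product of tangent vectors. -/
theorem chG_chart (q : M) {x : M} (hx : x ∈ (extChartAt (𝓡 n) q).source)
    (v w : TangentSpace (𝓡 n) x) :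
    chG q (extChartAt (𝓡 n) q x) (mfderiv (𝓡 n) 𝓘(ℝ, EE n) (extChartAt (𝓡 n) q) x v)
      (mfderiv (𝓡 n) 𝓘(ℝ, EE n) (extChartAt (𝓡 n) q) x w) = inner ℝ v w := by
  have hy : extChartAt (𝓡 n) q x ∈ (extChartAt (𝓡 n) q).target := (extChartAt (𝓡 n) q).map_source hx
  obtain ⟨y, hy', rfl⟩ : ∃ y, y ∈ (extChartAt (𝓡 n) q).target ∧ (extChartAt (𝓡 n) q).symm y = x :=
    ⟨_, hy, (extChartAt (𝓡 n) q).left_inv hx⟩
  rw [(extChartAt (𝓡 n) q).right_inv hy']
  refine (chG_apply q y _ _).trans ?_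
  exact congrArg₂ (fun a b : TangentSpace (𝓡 n) ((extChartAt (𝓡 n) q).symm y) => inner ℝ a b)
    (mfderiv_symm_chart q hy' v) (mfderiv_symm_chart q hy' w)

end Metric

end

end Amb
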