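import Pool.Agent.Amb.L1

/-!
# L8: symmetries and smoothness of the curvature
-/

set_option maxSynthPendingDepth 3

namespace Amb

open Set Metric
open scoped ContDiff Topology

variable {E : Type*} [NormedAddCommGroup E] [InnerProductSpace ℝ E] [FiniteDimensional ℝ E]
variable {U V W : Set E} {g h : E → E →L[ℝ] E →L[ℝ] ℝ}

theorem IsMet.Gam_hasFDerivAt' (hg : IsMet U g) {x : E} (hx : x ∈ U) :
    HasFDerivAt (Gam g) (fderiv ℝ (Gam g) x) x :=
  ((hg.Gam_smooth.contDiffAt (hg.isOpen.mem_nhds hx)).differentiableAt (by simp)).hasFDerivAt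

theorem IsMet.hasFDerivAt' (hg : IsMet U g) {x : E} (hx : x ∈ U) :
    HasFDerivAt g (fderiv ℝ g x) x :=
  ((hg.smooth.contDiffAt (hg.isOpen.mem_nhds hx)).differentiableAt (by simp)).hasFDerivAt

theorem IsMet.fderiv_Gam_symm (hg : IsMet U g) {x : E} (hx : x ∈ U) (u v w : E) :
    fderiv ℝ (Gam g) x u v w = fderiv ℝ (Gam g) x u w v := by
  have h1 : HasFDerivAt (fun y => Gam g y v w) ((((ContinuousLinearMap.apply ℝ E w) ∘L
      (ContinuousLinearMap.apply ℝ (E →L[ℝ] E) v))) ∘L (fderiv ℝ (Gam g) x)) x :=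
    ((ContinuousLinearMap.apply ℝ E w) ∘L
      (ContinuousLinearMap.apply ℝ (E →L[ℝ] E) v)).hasFDerivAt.comp x (hg.Gam_hasFDerivAt' hx)
  have h2 : HasFDerivAt (fun y => Gam g y w v) ((((ContinuousLinearMap.apply ℝ E v) ∘L
      (ContinuousLinearMap.apply ℝ (E →L[ℝ] E) w))) ∘L (fderiv ℝ (Gam g) x)) x :=
    ((ContinuousLinearMap.apply ℝ E v) ∘L
      (ContinuousLinearMap.apply ℝ (E →L[ℝ] E) w)).hasFDerivAt.comp x (hg.Gam_hasFDerivAt' hx)
  have h3 : (fun y => Gam g y v w) =ᶠ[𝓝 x] (fun y => Gam g y w v) := by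
    filter_upwards [hg.isOpen.mem_nhds hx] with y hy using hg.Gam_symm hy v w
  have h4 := (h1.congr_of_eventuallyEq h3.symm).unique h2
  have := congrArg (fun T : E →L[ℝ] E => T u) h4
  simpa using this

theorem Rm_antisymm (g : E → E →L[ℝ] E →L[ℝ] ℝ) (x u v w : E) :
    Rm g x u v w = - Rm g x v u w := by
  simp only [Rm_apply]; abel

/-- First Bianchi identity. -/
theorem Rm_bianchi (hg : IsMet U g) {x : E} (hx : x ∈ U) (u v w : E) :
    Rm g x u v w + Rm g x v w u + Rm g x w u v = 0 := by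
  simp only [Rm_apply]
  rw [hg.fderiv_Gam_symm hx u v w, hg.fderiv_Gam_symm hx v u w, hg.fderiv_Gam_symm hx w v u,
    hg.Gam_symm hx v w, hg.Gam_symm hx u w, hg.Gam_symm hx u v]
  abel

/-- Skew-symmetry of the curvature operator with respect to the metric. -/
theorem Rm_skew_add (hg : IsMet U g) {x : E} (hx : x ∈ U) (u v w z : E) :
    g x (Rm g x u v w) z + g x w (Rm g x u v z) = 0 := by
  have hg2 : ContDiffAt ℝ 2 g x :=
    (hg.smooth.contDiffAt (hg.isOpen.mem_nhds hx)).of_le (WithTop.coe_le_coe.2 le_top)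
  have hD : HasFDerivAt (fderiv ℝ g) (fderiv ℝ (fderiv ℝ g) x) x := by
    have : ContDiffAt ℝ 1 (fderiv ℝ g) x := hg2.fderiv_right (by norm_num)
    exact (this.differentiableAt (by simp)).hasFDerivAt
  have key : ∀ u v : E, fderiv ℝ (fderiv ℝ g) x u v w z =
      g x (Gam g x u (Gam g x v w)) z + g x (Gam g x v w) (Gam g x u z)
      + g x (fderiv ℝ (Gam g) x u v w) z
      + (g x (Gam g x u w) (Gam g x v z) + g x w (Gam g x u (Gam g x v z))
      + g x w (fderiv ℝ (Gam g) x u v z)) := by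
    intro u v
    have a1 := ((hD.clm_apply (hasFDerivAt_const v x)).clm_apply (hasFDerivAt_const w x)).clm_apply
      (hasFDerivAt_const z x)
    have b1 := ((hg.Gam_hasFDerivAt' hx).clm_apply (hasFDerivAt_const v x)).clm_apply
      (hasFDerivAt_const w x)
    have b2 := ((hg.Gam_hasFDerivAt' hx).clm_apply (hasFDerivAt_const v x)).clm_apply
      (hasFDerivAt_const z x)
    have a2 := (((hg.hasFDerivAt' hx).clm_apply b1).clm_apply (hasFDerivAt_const z x)).add
      (((hg.hasFDerivAt' hx).clm_apply (hasFDerivAt_const w x)).clm_apply b2)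
    have a3 : (fun y => fderiv ℝ g y v w z) =ᶠ[𝓝 x]
        (fun y => g y (Gam g y v w) z + g y w (Gam g y v z)) := by
      filter_upwards [hg.isOpen.mem_nhds hx] with y hy using hg.compat hy v w z
    have a4 := (a1.congr_of_eventuallyEq a3.symm).unique a2
    have := congrArg (fun T : E →L[ℝ] ℝ => T u) a4
    simp at this
    rw [this, hg.compat hx, hg.compat hx]
    ring
  have hs : fderiv ℝ (fderiv ℝ g) x u v = fderiv ℝ (fderiv ℝ g) x v u :=
    (hg2.isSymmSndFDerivAt (by simp)) u v
  have e := key u v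
  rw [hs, key v u] at e
  simp only [Rm_apply, map_add, map_sub, ContinuousLinearMap.add_apply,
    ContinuousLinearMap.sub_apply]
  linarith

theorem Rm_skew (hg : IsMet U g) {x : E} (hx : x ∈ U) (u v w z : E) :
    g x (Rm g x u v w) z = - g x w (Rm g x u v z) := by
  have := Rm_skew_add hg hx u v w z
  linarith

/-- Pair symmetry of the curvature tensor. -/
theorem Rm_pair (hg : IsMet U g) {x : E} (hx : x ∈ U) (u v w z : E) :
    g x (Rm g x u v w) z = g x (Rm g x w z u) v := by
  have an := fun a b c d : E => congrArg (fun y => g x y d) (Rm_antisymm g x a b c)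
  have bi := fun a b c d : E => congrArg (fun y => g x y d) (Rm_bianchi hg hx a b c)
  simp only [map_neg, ContinuousLinearMap.neg_apply, map_add, ContinuousLinearMap.add_apply,
    map_zero, ContinuousLinearMap.zero_apply] at an bi
  have s1 : ∀ a b c d, g x (Rm g x a b c) d = - g x (Rm g x a b d) c := by
    intro a b c d
    have := Rm_skew_add hg hx a b c d
    rw [hg.symm x hx c] at this
    linarith
  have b1 := bi u v w z
  have b2 := bi v w z u
  have b3 := bi w z u v
  have b4 := bi z u v w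
  have := s1 u v w z
  have := s1 v w z u
  have := s1 w z u v
  have := s1 z u v w
  have := s1 v w u z
  have := s1 w u v z
  have := s1 w z v u
  have := s1 z v w u
  have := s1 z u w v
  have := s1 u w z v
  have := s1 u v z w
  have := s1 v z u w
  have := an u v w z
  have := an v w u z
  have := an w u v z
  have := an u w v z
  have := an z v w u
  have := an v z w u
  have := an v z u w
  have := an z v u w
  have := an u w z v
  have := an w u z v
  linarith

/-- the operator `b ↦ -R(ζ, b) ζ` is symmetric -/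
theorem Rm_symm (hg : IsMet U g) {x : E} (hx : x ∈ U) (z b c : E) :
    g x (Rm g x z b z) c = g x b (Rm g x z c z) := by
  rw [Rm_pair hg hx z b z c, hg.symm x hx b]

theorem Rm_smooth (hg : IsMet U g) : ContDiffOn ℝ ∞ (Rm g) U := by
  intro x hx
  have hG : ContDiffAt ℝ ∞ (Gam g) x := hg.Gam_smooth.contDiffAt (hg.isOpen.mem_nhds hx)
  have hD : ContDiffAt ℝ ∞ (fderiv ℝ (Gam g)) x := hG.fderiv_right (by simp)
  have hB : ContDiffAt ℝ ∞ (fun y =>
      (ContinuousLinearMap.compL ℝ E E E).bilinearComp (Gam g y) (Gam g y)) x := by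
    have e : (fun y => (ContinuousLinearMap.compL ℝ E E E).bilinearComp (Gam g y) (Gam g y)) =
        fun y => (((ContinuousLinearMap.compL ℝ E E E) ∘L (Gam g y)).flip ∘L (Gam g y)).flip := by
      funext y
      ext u v w
      simp
    rw [e]
    have h1 : ContDiffAt ℝ ∞ (fun y => (ContinuousLinearMap.compL ℝ E E E) ∘L (Gam g y)) x :=
      contDiffAt_const.clm_comp hG
    have h2 : ContDiffAt ℝ ∞
        (fun y => ((ContinuousLinearMap.compL ℝ E E E) ∘L (Gam g y)).flip) x :=
      (ContinuousLinearMap.flipₗᵢ ℝ E (E →L[ℝ] E) (E →L[ℝ] E)).contDiff.contDiffAt.comp x h1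
    exact (ContinuousLinearMap.flipₗᵢ ℝ E E (E →L[ℝ] E)).contDiff.contDiffAt.comp x
      (h2.clm_comp hG)
  have h0 : ContDiffAt ℝ ∞ (Rm0 g) x := hD.add hB
  have h1 : ContDiffAt ℝ ∞ (fun y => (Rm0 g y).flip) x :=
    (ContinuousLinearMap.flipₗᵢ ℝ E E (E →L[ℝ] E)).contDiff.contDiffAt.comp x h0
  exact (h0.sub h1).contDiffWithinAt

end Amb
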