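import Pool.Agent.Amb.Mfd

/-!
# Properness (Hopf-Rinow-Cohn-Vossen)
-/

set_option maxSynthPendingDepth 3

namespace Amb

open Set Metric
open scoped ContDiff Topology

/-- Cohn-Vossen: a complete locally compact metric space with approximate points at prescribed
distances is proper. -/
theorem properSpace_of_length {M : Type*} [MetricSpace M] [CompleteSpace M]
    (hloc : ∀ q : M, ∃ K ∈ 𝓝 q, IsCompact K)
    (hlen : ∀ x y : M, ∀ s ∈ Icc 0 (dist x y), ∀ ε > 0, ∃ z : M, dist x z ≤ s ∧
      dist z y ≤ dist x y - s + ε) : ProperSpace M := by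
  have hwl : WeaklyLocallyCompactSpace M := ⟨fun q => by
    obtain ⟨K, hK, hc⟩ := hloc q
    exact ⟨K, hc, hK⟩⟩
  -- the set of radii with compact closed ball
  have key : ∀ x : M, ∀ r : ℝ, IsCompact (closedBall x r) := by
    intro x
    by_contra hne
    push Not at hne
    obtain ⟨r₀, hr₀⟩ := hne
    set A : Set ℝ := {r | IsCompact (closedBall x r)} with hA
    have hdown : ∀ r ∈ A, ∀ r' ≤ r, r' ∈ A := by
      intro r hr r' hr'
      exact IsCompact.of_isClosed_subset hr isClosed_closedBall (closedBall_subset_closedBall hr')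
    have h0 : (0 : ℝ) ∈ A := by
      show IsCompact (closedBall x 0)
      rw [closedBall_zero]
      exact isCompact_singleton
    have hbdd : BddAbove A := ⟨r₀, fun r hr => by
      by_contra hlt
      push Not at hlt
      exact hr₀ (hdown r hr r₀ hlt.le)⟩
    set R := sSup A with hR
    have hR0 : 0 ≤ R := le_csSup hbdd h0
    have hlt : ∀ r < R, r ∈ A := by
      intro r hr
      obtain ⟨a, ha, hra⟩ := exists_lt_of_lt_csSup ⟨0, h0⟩ hr
      exact hdown a ha r hra.le
    -- the closed ball of radius R is compact
    have hRA : R ∈ A := by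
      rcases hR0.eq_or_lt with h | hpos
      · rw [← h]; exact h0
      · show IsCompact (closedBall x R)
        rw [isCompact_iff_totallyBounded_isComplete]
        refine ⟨?_, isClosed_closedBall.isComplete⟩
        rw [Metric.totallyBounded_iff]
        intro ε hε
        -- radius slightly smaller
        set δ := min (ε / 4) R with hδ
        have hδ0 : 0 < δ := lt_min (by linarith) hpos
        have hδε : δ ≤ ε / 4 := min_le_left _ _
        have hδR : δ ≤ R := min_le_right _ _
        have hc : IsCompact (closedBall x (R - δ)) := hlt (R - δ) (by linarith)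
        obtain ⟨t, ht, hcov⟩ := Metric.totallyBounded_iff.1 hc.totallyBounded (ε / 4) (by linarith)
        refine ⟨t, ht, ?_⟩
        intro y hy
        rw [mem_closedBall, dist_comm] at hy
        have hz : ∃ z : M, dist x z ≤ R - δ ∧ dist z y ≤ ε / 2 := by
          rcases le_or_gt (dist x y) (R - δ) with h | h
          · exact ⟨y, h, by rw [dist_self]; linarith⟩
          · obtain ⟨z, hz1, hz2⟩ := hlen x y (R - δ) ⟨by linarith, h.le⟩ (ε / 4) (by linarith)
            exact ⟨z, hz1, by linarith⟩
        obtain ⟨z, hz1, hz2⟩ := hz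
        have hzin : z ∈ closedBall x (R - δ) := by rw [mem_closedBall, dist_comm]; exact hz1
        obtain ⟨c, hc1, hc2⟩ := mem_iUnion₂.1 (hcov hzin)
        refine mem_iUnion₂.2 ⟨c, hc1, ?_⟩
        rw [mem_ball] at hc2 ⊢
        have := dist_triangle y z c
        rw [dist_comm y z] at this
        linarith
    -- enlarge
    obtain ⟨K', hK'c, hK'⟩ := exists_compact_superset (X := M) hRA
    obtain ⟨δ, hδ0, hδ⟩ := IsCompact.exists_cthickening_subset_open hRA isOpen_interior hK'
    have hcomp : IsCompact (cthickening δ (closedBall x R)) :=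
      IsCompact.of_isClosed_subset hK'c isClosed_cthickening
        (hδ.trans interior_subset)
    have hbig : closedBall x (R + δ / 2) ⊆ cthickening δ (closedBall x R) := by
      intro y hy
      rw [mem_closedBall, dist_comm] at hy
      rcases le_or_gt (dist x y) R with h | h
      · exact self_subset_cthickening _ (by rw [mem_closedBall, dist_comm]; exact h)
      · obtain ⟨z, hz1, hz2⟩ := hlen x y R ⟨hR0, h.le⟩ (δ / 2) (by linarith)
        exact mem_cthickening_of_dist_le y z δ _ (by rw [mem_closedBall, dist_comm]; exact hz1)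
          (by rw [dist_comm]; linarith)
    have : R + δ / 2 ∈ A := IsCompact.of_isClosed_subset hcomp isClosed_closedBall hbig
    have := le_csSup hbdd this
    linarith
  exact ⟨key⟩

variable {E : Type*} [NormedAddCommGroup E] [InnerProductSpace ℝ E] [FiniteDimensional ℝ E]
variable {M : Type*} [MetricSpace M] (G : GMfd E M)

namespace GMfd

include G in
theorem exists_compact_nhds (q : M) : ∃ K ∈ 𝓝 q, IsCompact K := by
  have hopen : IsOpen (G.tgt q) := (G.met q).isOpen
  have hmem : G.φ q q ∈ G.tgt q := G.map_src q q (G.mem_src q)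
  obtain ⟨r, hr, hsub⟩ := Metric.isOpen_iff.1 hopen _ hmem
  have hsub' : closedBall (G.φ q q) (r / 2) ⊆ G.tgt q :=
    (closedBall_subset_ball (by linarith)).trans hsub
  refine ⟨G.ψ q '' closedBall (G.φ q q) (r / 2), ?_, ?_⟩
  · have hc : ContinuousAt (G.φ q) q :=
      (G.cont_φ q).continuousAt ((G.src_open q).mem_nhds (G.mem_src q))
    have h1 : ∀ᶠ m in 𝓝 q, G.φ q m ∈ closedBall (G.φ q q) (r / 2) :=
      hc (closedBall_mem_nhds _ (by linarith))
    have h2 : ∀ᶠ m in 𝓝 q, m ∈ G.src q := (G.src_open q).mem_nhds (G.mem_src q)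
    filter_upwards [h1, h2] with m hm1 hm2
    exact ⟨G.φ q m, hm1, G.left_inv q m hm2⟩
  · exact (isCompact_closedBall _ _).image_of_continuousOn ((G.cont_ψ q).mono hsub')

include G in
theorem proper [CompleteSpace M] : ProperSpace M :=
  properSpace_of_length G.exists_compact_nhds G.length

end GMfd

end Amb
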