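import Pool.Agent.Amb.M1a
import Pool.Agent.Amb.M2
import Pool.Agent.Amb.L8

/-!
# M1c: the curvature in frames
-/

set_option maxSynthPendingDepth 3

namespace Amb

open Set Metric
open scoped ContDiff Topology

variable {E : Type*} [NormedAddCommGroup E] [InnerProductSpace ℝ E] [FiniteDimensional ℝ E]
variable {M : Type*} [MetricSpace M] (G : GMfd E M)
variable {X : Type*} [NormedAddCommGroup X] [NormedSpace ℝ X]

/-! ### Inverses of bijective operators -/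

theorem m1c_inv {Y : E →L[ℝ] E} (hY : Function.Bijective Y) :
    ∃ e : E ≃L[ℝ] E, (e : E →L[ℝ] E) = Y := by
  refine ⟨ContinuousLinearEquiv.ofBijective Y (LinearMap.ker_eq_bot.2 hY.1)
    (LinearMap.range_eq_top.2 hY.2), ?_⟩
  ext u
  rfl

theorem m1c_inv_right {Y : E →L[ℝ] E} (hY : Function.Bijective Y) (u : E) :
    Y (ContinuousLinearMap.inverse Y u) = u := by
  obtain ⟨e, rfl⟩ := m1c_inv hY
  rw [ContinuousLinearMap.inverse_equiv]
  simp

theorem m1c_inv_smooth {Y : E →L[ℝ] E} (hY : Function.Bijective Y) :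
    ContDiffAt ℝ ∞ (ContinuousLinearMap.inverse : (E →L[ℝ] E) → (E →L[ℝ] E)) Y := by
  obtain ⟨e, rfl⟩ := m1c_inv hY
  exact contDiffAt_map_inverse (𝕜 := ℝ) (n := ∞) e

theorem m1c_pull {Y : E →L[ℝ] E} (hY : Function.Bijective Y) (T : E →L[ℝ] E →L[ℝ] E →L[ℝ] E)
    (u v w : E) : Y (pull Y T u v w) = T (Y u) (Y v) (Y w) := by
  rw [pull_apply, m1c_inv_right hY]

theorem m1c_pull_comp {Y J : E →L[ℝ] E} (hY : Function.Bijective Y) (hJ : Function.Bijective J)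
    {T T' : E →L[ℝ] E →L[ℝ] E →L[ℝ] E}
    (h : ∀ u v w, J (T u v w) = T' (J u) (J v) (J w)) : pull Y T = pull (J ∘L Y) T' := by
  have hJY : Function.Bijective (J ∘L Y) := by
    rw [ContinuousLinearMap.coe_comp]
    exact hJ.comp hY
  ext u v w
  apply hJY.1
  rw [m1c_pull hJY]
  simp only [ContinuousLinearMap.comp_apply]
  rw [m1c_pull hY, h]

omit [FiniteDimensional ℝ E] in
/-- change of frame in a trilinear map -/
theorem m1c_norm_le (S S' : E →L[ℝ] E →L[ℝ] E →L[ℝ] E) (k : E ≃ₗᵢ[ℝ] E)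
    (h : ∀ u v w, S' u v w = k.symm (S (k u) (k v) (k w))) : ‖S'‖ ≤ ‖S‖ := by
  refine ContinuousLinearMap.opNorm_le_bound _ (norm_nonneg _) fun u => ?_
  refine ContinuousLinearMap.opNorm_le_bound _ (by positivity) fun v => ?_
  refine ContinuousLinearMap.opNorm_le_bound _ (by positivity) fun w => ?_
  rw [h, k.symm.norm_map]
  calc ‖S (k u) (k v) (k w)‖ ≤ ‖S (k u) (k v)‖ * ‖k w‖ := ContinuousLinearMap.le_opNorm _ _
    _ ≤ (‖S (k u)‖ * ‖k v‖) * ‖k w‖ := by gcongr; exact ContinuousLinearMap.le_opNorm _ _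
    _ ≤ ((‖S‖ * ‖k u‖) * ‖k v‖) * ‖k w‖ := by gcongr; exact ContinuousLinearMap.le_opNorm _ _
    _ = ‖S‖ * ‖u‖ * ‖v‖ * ‖w‖ := by rw [k.norm_map, k.norm_map, k.norm_map]

theorem m1c_norm_eq (S S' : E →L[ℝ] E →L[ℝ] E →L[ℝ] E) (k : E ≃ₗᵢ[ℝ] E)
    (h : ∀ u v w, S' u v w = k.symm (S (k u) (k v) (k w))) : ‖S'‖ = ‖S‖ := by
  refine le_antisymm (m1c_norm_le S S' k h) (m1c_norm_le S' S k.symm fun u v w => ?_)
  rw [h]
  simp

/-! ### Local bounds and smoothness -/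

section Local

variable {U : Set E} {g : E → E →L[ℝ] E →L[ℝ] ℝ}

theorem m1c_lower (hg : IsMet U g) {K : Set E} (hK : IsCompact K) (hKU : K ⊆ U) :
    ∃ c > 0, ∀ x ∈ K, ∀ u, c * ‖u‖ ^ 2 ≤ g x u u := by
  have hc : IsCompact (K ×ˢ sphere (0:E) 1) := hK.prod (isCompact_sphere 0 1)
  have hgc : ContinuousOn (fun p : E × E => g p.1) (K ×ˢ sphere (0:E) 1) :=
    (hg.smooth.continuousOn.mono hKU).comp continuousOn_fst (fun p hp => hp.1)
  have hcont : ContinuousOn (fun p : E × E => g p.1 p.2 p.2) (K ×ˢ sphere (0:E) 1) :=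
    (hgc.clm_apply continuousOn_snd).clm_apply continuousOn_snd
  obtain ⟨c, hc0, hc⟩ := hc.exists_forall_le' hcont (a := 0) (fun p hp =>
    hg.pos _ (hKU hp.1) _ (by
      intro h0
      have := hp.2
      rw [h0] at this
      simp at this))
  refine ⟨c, hc0, fun x hx u => ?_⟩
  rcases eq_or_ne u 0 with h | h
  · simp [h]
  · have h1 : ‖u‖ ≠ 0 := norm_ne_zero_iff.2 h
    have h2 := hc (x, ‖u‖⁻¹ • u) ⟨hx, by simp [norm_smul, h1]⟩
    simp only [map_smul, smul_apply, smul_eq_mul] at h2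
    have h3 : 0 < ‖u‖ := norm_pos_iff.2 h
    have h4 : ‖u‖⁻¹ * (‖u‖⁻¹ * g x u u) * ‖u‖ ^ 2 = g x u u := by
      field_simp
    calc c * ‖u‖ ^ 2 ≤ ‖u‖⁻¹ * (‖u‖⁻¹ * g x u u) * ‖u‖ ^ 2 := by gcongr
      _ = g x u u := h4

/-- the frames over a set -/
def m1cfrs (g : E → E →L[ℝ] E →L[ℝ] ℝ) (K : Set E) : Set (E × (E →L[ℝ] E)) :=
  {p | p.1 ∈ K ∧ ∀ u v, g p.1 (p.2 u) (p.2 v) = inner ℝ u v}

theorem m1c_compact (hg : IsMet U g) {K : Set E} (hK : IsCompact K) (hKU : K ⊆ U) :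
    IsCompact (m1cfrs g K) := by
  obtain ⟨c, hc0, hc⟩ := m1c_lower hg hK hKU
  set B : ℝ := √(1 / c)
  have hsub : m1cfrs g K ⊆ K ×ˢ closedBall (0 : E →L[ℝ] E) B := by
    rintro ⟨x, Y⟩ ⟨hx, hY⟩
    refine ⟨hx, ?_⟩
    rw [mem_closedBall_zero_iff]
    refine ContinuousLinearMap.opNorm_le_bound _ (Real.sqrt_nonneg _) (fun u => ?_)
    have h1 := hc x hx (Y u)
    have h2 : g x (Y u) (Y u) = ‖u‖ ^ 2 := by
      rw [← real_inner_self_eq_norm_sq]
      exact hY u u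
    have h3 : ‖Y u‖ ^ 2 ≤ 1 / c * ‖u‖ ^ 2 := by
      rw [h2] at h1
      rw [div_mul_eq_mul_div, one_mul, le_div_iff₀ hc0]
      linarith [mul_comm c (‖Y u‖ ^ 2)]
    have h4 : ‖Y u‖ ^ 2 ≤ (B * ‖u‖) ^ 2 := by
      rw [mul_pow, Real.sq_sqrt (by positivity)]
      exact h3
    exact le_of_sq_le_sq h4 (by positivity)
  refine IsCompact.of_isClosed_subset (hK.prod (isCompact_closedBall 0 B)) ?_ hsub
  have hgc : ContinuousOn (fun p : E × (E →L[ℝ] E) => g p.1) (K ×ˢ (univ : Set (E →L[ℝ] E))) :=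
    (hg.smooth.continuousOn.mono hKU).comp continuousOn_fst (fun p hp => hp.1)
  have heq : m1cfrs g K = ⋂ u : E, ⋂ v : E, {p : E × (E →L[ℝ] E) |
      p ∈ K ×ˢ (univ : Set (E →L[ℝ] E)) ∧ g p.1 (p.2 u) (p.2 v) = inner ℝ u v} := by
    ext p
    simp only [m1cfrs, mem_ofPred_eq, mem_iInter, mem_prod, mem_univ, and_true]
    constructor
    · rintro ⟨h1, h2⟩ u v
      exact ⟨h1, h2 u v⟩
    · intro h
      exact ⟨(h 0 0).1, fun u v => (h u v).2⟩
  rw [heq]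
  refine isClosed_iInter fun u => isClosed_iInter fun v => ?_
  have hcu : ContinuousOn (fun p : E × (E →L[ℝ] E) => g p.1 (p.2 u) (p.2 v))
      (K ×ˢ (univ : Set (E →L[ℝ] E))) :=
    (hgc.clm_apply (by fun_prop)).clm_apply (by fun_prop)
  have := hcu.preimage_isClosed_of_isClosed (hK.isClosed.prod isClosed_univ)
    (isClosed_singleton (x := inner ℝ u v))
  exact this

theorem m1c_pull_smoothOn (hg : IsMet U g) :
    ContDiffOn ℝ ∞ (fun p : E × (E →L[ℝ] E) => pull p.2 (Rm g p.1))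
      (U ×ˢ (range ((↑) : (E ≃L[ℝ] E) → E →L[ℝ] E))) := by
  have hinv : ContDiffOn ℝ ∞ (fun p : E × (E →L[ℝ] E) => ContinuousLinearMap.inverse p.2)
      (U ×ˢ (range ((↑) : (E ≃L[ℝ] E) → E →L[ℝ] E))) := by
    rintro p ⟨_, e, he⟩
    have := contDiffAt_map_inverse (𝕜 := ℝ) (n := ∞) e
    rw [he] at this
    exact (this.comp p contDiffAt_snd).contDiffWithinAt
  have hR : ContDiffOn ℝ ∞ (fun p : E × (E →L[ℝ] E) => Rm g p.1)
      (U ×ˢ (range ((↑) : (E ≃L[ℝ] E) → E →L[ℝ] E))) :=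
    (Rm_smooth hg).comp contDiff_fst.contDiffOn (fun p hp => hp.1)
  have h1 : ∀ u : E, ContDiffOn ℝ ∞ (fun p : E × (E →L[ℝ] E) => p.2 u)
      (U ×ˢ (range ((↑) : (E ≃L[ℝ] E) → E →L[ℝ] E))) := fun u =>
    (contDiff_snd.clm_apply contDiff_const).contDiffOn
  rw [contDiffOn_clm_apply]
  intro u
  rw [contDiffOn_clm_apply]
  intro v
  rw [contDiffOn_clm_apply]
  intro w
  have h : ContDiffOn ℝ ∞ (fun p : E × (E →L[ℝ] E) =>
      ContinuousLinearMap.inverse p.2 (Rm g p.1 (p.2 u) (p.2 v) (p.2 w)))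
      (U ×ˢ (range ((↑) : (E ≃L[ℝ] E) → E →L[ℝ] E))) :=
    hinv.clm_apply (((hR.clm_apply (h1 u)).clm_apply (h1 v)).clm_apply (h1 w))
  refine h.congr (fun q _ => ?_)
  simp [pull_apply]

theorem m1c_pull_smooth (hg : IsMet U g) {p : E × (E →L[ℝ] E)} (hp : p.1 ∈ U)
    (hY : Function.Injective p.2) :
    ContDiffAt ℝ ∞ (fun p : E × (E →L[ℝ] E) => pull p.2 (Rm g p.1)) p := by
  obtain ⟨e, he⟩ : ∃ e : E ≃L[ℝ] E, (e : E →L[ℝ] E) = p.2 :=
    ⟨(LinearEquiv.ofInjectiveEndo (p.2 : E →ₗ[ℝ] E) hY).toContinuousLinearEquiv, by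
      ext v; simp⟩
  exact (m1c_pull_smoothOn hg).contDiffAt
    ((hg.isOpen.prod ContinuousLinearEquiv.isOpen).mem_nhds ⟨hp, e, he⟩)

omit [FiniteDimensional ℝ E] in
theorem m1cfrs_injective {K : Set E} {p : E × (E →L[ℝ] E)}
    (hp : p ∈ m1cfrs g K) : Function.Injective p.2 := by
  rw [injective_iff_map_eq_zero]
  intro u hu
  have := hp.2 u u
  rw [hu] at this
  simpa using this.symm

end Local

namespace GMfd

variable {G} in
theorem Rf_chart {q : M} {f : G.Fr} (h : f.m ∈ G.src q) :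
    G.Rf f = pull (G.cd q f).2 (Rm (G.g q) (G.cd q f).1) := by
  have hnat := Rm_natural (G.m1_met f.m q) (G.met q) (G.trans f.m q) (G.m1_dom h)
  have hJ : Function.Bijective (G.J q f.m) := G.J_bij h
  show pull f.Y (Rm (G.g f.m) (G.φ f.m f.m)) = pull (G.J q f.m ∘L f.Y) (Rm (G.g q) (G.φ q f.m))
  refine m1c_pull_comp f.bij hJ fun u v w => ?_
  have := hnat u v w
  simp only [G.m1_left] at this
  exact this

theorem Rf_rot (f : G.Fr) (k : E ≃ₗᵢ[ℝ] E) (u v w : E) :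
    G.Rf (f.rot k) u v w = k.symm (G.Rf f (k u) (k v) (k w)) := by
  have hb : Function.Bijective (f.rot k).Y := (f.rot k).bij
  apply hb.1
  have h1 : (f.rot k).Y (G.Rf (f.rot k) u v w) =
      Rm (G.g f.m) (G.φ f.m f.m) (f.Y (k u)) (f.Y (k v)) (f.Y (k w)) :=
    m1c_pull hb _ _ _ _
  have h2 : f.Y (G.Rf f (k u) (k v) (k w)) =
      Rm (G.g f.m) (G.φ f.m f.m) (f.Y (k u)) (f.Y (k v)) (f.Y (k w)) :=
    m1c_pull f.bij _ _ _ _
  have h3 : (f.rot k).Y (k.symm (G.Rf f (k u) (k v) (k w))) =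
      f.Y (k (k.symm (G.Rf f (k u) (k v) (k w)))) := rfl
  rw [h1, h3, k.apply_symm_apply, h2]

/-- norms of differences of frame curvatures (of two manifolds) do not depend on the frame -/
theorem norm_pull_rot {M₂ : Type*} [MetricSpace M₂] (G₂ : GMfd E M₂) (f : G.Fr) (f₂ : G₂.Fr)
    (k : E ≃ₗᵢ[ℝ] E) : ‖G.Rf (f.rot k) - G₂.Rf (f₂.rot k)‖ = ‖G.Rf f - G₂.Rf f₂‖ := by
  refine m1c_norm_eq _ _ k fun u v w => ?_
  simp only [sub_apply]
  rw [G.Rf_rot, G₂.Rf_rot, map_sub]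

variable {G} in
theorem Rf_cont {f : X → G.Fr} {x : X} (h : G.SmAt f x) : ContinuousAt (fun y => G.Rf (f y)) x := by
  set q := (f x).m with hq
  have hmem : (f x).m ∈ G.src q := G.mem_src _
  have hev : ∀ᶠ y in 𝓝 x, (f y).m ∈ G.src q :=
    h.1.eventually ((G.src_open q).mem_nhds hmem)
  have hcd : ContinuousAt (fun y => G.cd q (f y)) x := (h.2 q hmem).continuousAt
  have hp : ContinuousAt (fun p : E × (E →L[ℝ] E) => pull p.2 (Rm (G.g q) p.1)) (G.cd q (f x)) :=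
    (m1c_pull_smooth (G.met q) (G.map_src q _ hmem) (cd_bij hmem).1).continuousAt
  have hc : ContinuousAt (fun y => pull (G.cd q (f y)).2 (Rm (G.g q) (G.cd q (f y)).1)) x :=
    ContinuousAt.comp (f := fun y => G.cd q (f y)) (x := x)
      (g := fun p : E × (E →L[ℝ] E) => pull p.2 (Rm (G.g q) p.1)) hp hcd
  refine hc.congr ?_
  filter_upwards [hev] with y hy
  exact (Rf_chart hy).symm

/-- the operator `b ↦ -R(ζ, b) ζ` is symmetric -/
theorem Rf_symm (f : G.Fr) (z b c : E) :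
    inner ℝ (G.Rf f z b z) c = inner ℝ b (G.Rf f z c z) := by
  have hb : ∀ u v w, f.Y (G.Rf f u v w) =
      Rm (G.g f.m) (G.φ f.m f.m) (f.Y u) (f.Y v) (f.Y w) := fun u v w => m1c_pull f.bij _ _ _ _
  rw [← f.isom, ← f.isom, hb, hb]
  exact Rm_symm (G.met f.m) (G.map_src _ _ (G.mem_src _)) _ _ _

theorem m1c_bdd_near (q : M) : ∃ B, ∀ᶠ m in 𝓝 q, ∀ f : G.Fr, f.m = m → ‖G.Rf f‖ ≤ B := by
  have hmem : G.φ q q ∈ G.tgt q := G.map_src q q (G.mem_src q)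
  obtain ⟨r, hr, hsub⟩ := Metric.isOpen_iff.1 (G.met q).isOpen _ hmem
  have hsub' : closedBall (G.φ q q) (r / 2) ⊆ G.tgt q :=
    (closedBall_subset_ball (by linarith)).trans hsub
  have hK : IsCompact (closedBall (G.φ q q) (r / 2)) := isCompact_closedBall _ _
  have hc := m1c_compact (G.met q) hK hsub'
  have hcont : ContinuousOn (fun p : E × (E →L[ℝ] E) => pull p.2 (Rm (G.g q) p.1))
      (m1cfrs (G.g q) (closedBall (G.φ q q) (r / 2))) := fun p hp =>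
    (m1c_pull_smooth (G.met q) (hsub' hp.1) (m1cfrs_injective hp)).continuousAt.continuousWithinAt
  obtain ⟨B, hB⟩ := hc.exists_bound_of_continuousOn hcont
  refine ⟨B, ?_⟩
  have hcφ : ContinuousAt (G.φ q) q :=
    (G.cont_φ q).continuousAt ((G.src_open q).mem_nhds (G.mem_src q))
  have h1 : ∀ᶠ m in 𝓝 q, G.φ q m ∈ closedBall (G.φ q q) (r / 2) :=
    hcφ (closedBall_mem_nhds _ (by linarith))
  have h2 : ∀ᶠ m in 𝓝 q, m ∈ G.src q := (G.src_open q).mem_nhds (G.mem_src q)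
  filter_upwards [h1, h2] with m hm1 hm2 f hf
  subst hf
  rw [Rf_chart hm2]
  exact hB (G.cd q f) ⟨hm1, fun u v => cd_isom hm2 u v⟩

section Complete

variable [CompleteSpace M]

theorem Rf_bdd (p : M) (S : ℝ) : ∃ B, ∀ f : G.Fr, dist p f.m ≤ S → ‖G.Rf f‖ ≤ B := by
  have := G.proper
  have hK : IsCompact (closedBall p S) := isCompact_closedBall p S
  choose B hB using G.m1c_bdd_near
  obtain ⟨t, _, ht⟩ := hK.elim_nhds_subcover (fun q => {m | ∀ f : G.Fr, f.m = m → ‖G.Rf f‖ ≤ B q})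
    (fun q _ => hB q)
  refine ⟨∑ q ∈ t, |B q|, fun f hf => ?_⟩
  have hm : f.m ∈ closedBall p S := by rw [mem_closedBall, dist_comm]; exact hf
  obtain ⟨q, hq, hfq⟩ := mem_iUnion₂.1 (ht hm)
  calc ‖G.Rf f‖ ≤ B q := hfq f rfl
    _ ≤ |B q| := le_abs_self _
    _ ≤ ∑ q ∈ t, |B q| := Finset.single_le_sum (f := fun q => |B q|) (fun _ _ => abs_nonneg _) hq

end Complete

end GMfd

end Amb
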