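import Pool.Agent.Amb.M1a
import Pool.Agent.Amb.M2
import Pool.Agent.Amb.M3

/-!
# M3b: good scales, smoothness of the logarithm
-/

set_option maxSynthPendingDepth 3

namespace Amb

open Set Metric
open scoped ContDiff Topology

variable {E : Type*} [NormedAddCommGroup E] [InnerProductSpace ℝ E] [FiniteDimensional ℝ E]
variable {M : Type*} [MetricSpace M] (G : GMfd E M)
variable {X : Type*} [NormedAddCommGroup X] [NormedSpace ℝ X]

namespace GMfd

section Complete

variable [CompleteSpace M]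

omit [CompleteSpace M] in
variable {G} in
theorem GoodAt.mono {x : M} {ρ ρ' : ℝ} (h : G.GoodAt x ρ) (hr : ρ' ≤ ρ) : G.GoodAt x ρ' where
  dist_eq f hf ξ hξ := h.dist_eq f hf ξ (hξ.trans_le hr)
  inj f hf ξ ξ' hξ hξ' he := h.inj f hf ξ ξ' (hξ.trans_le hr) (hξ'.trans_le hr) he
  surj f hf y hy := by
    obtain ⟨ξ, hξ, he⟩ := h.surj f hf y (hy.trans_le hr)
    refine ⟨ξ, ?_, he⟩
    rw [← h.dist_eq f hf ξ hξ, he]
    exact hy
  betw f hf ξ hξ := h.betw f hf ξ (hξ.trans_le hr)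
  conv f hf a ξ hξ ha hb := h.conv f hf a ξ (hξ.trans_le hr) (ha.trans_le hr) (hb.trans_le hr)

omit [CompleteSpace M] in
variable {G} in
theorem Good.mono {q : M} {ρ ρ' : ℝ} (h : G.Good q ρ) (h0 : 0 < ρ') (hr : ρ' ≤ ρ) :
    G.Good q ρ' where
  pos := h0
  sub := (closedBall_subset_closedBall (by linarith)).trans h.sub
  at_near x hx := (h.at_near x (hx.trans_le hr)).mono hr
  log := by
    obtain ⟨lg, hlg, he⟩ := h.log
    refine ⟨lg, hlg.mono ?_, fun f ξ hf hξ => he f ξ (hf.trans_le hr) (hξ.trans_le hr)⟩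
    have hs : {x | x ∈ G.tgt q ∧ dist q (G.ψ q x) < 3 * ρ'} ⊆
        {x | x ∈ G.tgt q ∧ dist q (G.ψ q x) < 3 * ρ} :=
      fun x hx => ⟨hx.1, hx.2.trans_le (by linarith)⟩
    exact prod_mono hs hs

theorem exists_goodAt (p : M) (S : ℝ) : ∃ ρ > 0, ∀ x, dist p x ≤ S → G.GoodAt x ρ := by
  have : ProperSpace M := G.proper
  have hc : IsCompact (closedBall p S) := isCompact_closedBall p S
  choose ρ hρ using G.exists_good
  have hcov : closedBall p S ⊆ ⋃ q : M, ball q (ρ q) := by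
    intro x _
    exact mem_iUnion.2 ⟨x, mem_ball_self (hρ x).pos⟩
  obtain ⟨t, ht⟩ := hc.elim_finite_subcover (fun q : M => ball q (ρ q)) (fun _ => isOpen_ball) hcov
  rcases t.eq_empty_or_nonempty with h0 | hne
  · refine ⟨1, one_pos, fun x hx => ?_⟩
    have : x ∈ closedBall p S := by rw [mem_closedBall, dist_comm]; exact hx
    have := ht this
    simp [h0] at this
  · refine ⟨t.inf' hne ρ, ?_, ?_⟩
    · rw [gt_iff_lt, Finset.lt_inf'_iff]
      exact fun q _ => (hρ q).pos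
    · intro x hx
      have hx' : x ∈ closedBall p S := by rw [mem_closedBall, dist_comm]; exact hx
      obtain ⟨q, hq, hxq⟩ := mem_iUnion₂.1 (ht hx')
      refine ((hρ q).at_near x ?_).mono (Finset.inf'_le ρ hq)
      rw [mem_ball, dist_comm] at hxq
      exact hxq

omit [CompleteSpace M] in
variable {G} in
/-- the logarithm of smooth families is smooth -/
theorem Good.log_smooth {q : M} {ρ : ℝ} (h : G.Good q ρ) {f : X → G.Fr} {y : X → M} {ξ : X → E}
    {x : X} (hf : G.SmAt f x) (hy : G.SmPt y x) (hq : dist q (f x).m < ρ)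
    (hξ : ∀ᶠ z in 𝓝 x, ‖ξ z‖ < ρ ∧ (G.Psi (ξ z) (f z)).m = y z) : ContDiffAt ℝ ∞ ξ x := by
  obtain ⟨lg, hlg, he⟩ := h.log
  have hρ := h.pos
  have hfx : (f x).m ∈ G.src q := h.sub (by rw [mem_closedBall, dist_comm]; linarith)
  obtain ⟨hξx, hPx⟩ := hξ.self_of_nhds
  have hdy : dist q (y x) < 3 * ρ := by
    have h1 := (h.at_near (f x).m hq).dist_eq (f x) rfl (ξ x) hξx
    rw [hPx] at h1
    have h2 := dist_triangle q (f x).m (y x)
    linarith
  have hyx : y x ∈ G.src q := h.sub (by rw [mem_closedBall, dist_comm]; linarith)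
  have hcd : ContDiffAt ℝ ∞ (fun z => G.cd q (f z)) x := hf.2 q hfx
  have hφf : ContDiffAt ℝ ∞ (fun z => G.φ q (f z).m) x := contDiffAt_fst.comp x hcd
  have hφy : ContDiffAt ℝ ∞ (fun z => G.φ q (y z)) x := hy.2 q hyx
  -- the domain of the logarithm is open
  have hopen : IsOpen {x | x ∈ G.tgt q ∧ dist q (G.ψ q x) < 3 * ρ} := by
    have : ContinuousOn (fun x => dist q (G.ψ q x)) (G.tgt q) :=
      (continuous_const.dist continuous_id).comp_continuousOn (G.cont_ψ q)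
    have h3 := this.isOpen_inter_preimage (G.met q).isOpen (isOpen_Iio (a := 3 * ρ))
    exact h3
  have m1 : G.φ q (f x).m ∈ {x | x ∈ G.tgt q ∧ dist q (G.ψ q x) < 3 * ρ} := by
    refine ⟨G.map_src q _ hfx, ?_⟩
    rw [G.left_inv q _ hfx]
    linarith
  have m2 : G.φ q (y x) ∈ {x | x ∈ G.tgt q ∧ dist q (G.ψ q x) < 3 * ρ} := by
    refine ⟨G.map_src q _ hyx, ?_⟩
    rw [G.left_inv q _ hyx]
    exact hdy
  have hlgx : ContDiffAt ℝ ∞ (fun z => lg (G.φ q (f z).m) (G.φ q (y z))) x := by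
    have h4 : ContDiffAt ℝ ∞ (fun p : E × E => lg p.1 p.2) (G.φ q (f x).m, G.φ q (y x)) :=
      hlg.contDiffAt ((hopen.prod hopen).mem_nhds ⟨m1, m2⟩)
    exact h4.comp x (hφf.prodMk hφy)
  -- invert the frame
  let e : E ≃L[ℝ] E := ContinuousLinearEquiv.ofBijective (G.cd q (f x)).2
    (LinearMap.ker_eq_bot.2 (cd_bij hfx).1) (LinearMap.range_eq_top.2 (cd_bij hfx).2)
  have hcoe : (e : E →L[ℝ] E) = (G.cd q (f x)).2 := by
    ext u
    rfl
  have hinv : ContDiffAt ℝ ∞ (fun z => ContinuousLinearMap.inverse (G.cd q (f z)).2) x := by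
    have h5 := contDiffAt_map_inverse (𝕜 := ℝ) (n := ∞) e
    rw [hcoe] at h5
    exact h5.comp x (contDiffAt_snd.comp x hcd)
  have hres : ContDiffAt ℝ ∞ (fun z => ContinuousLinearMap.inverse (G.cd q (f z)).2
      (lg (G.φ q (f z).m) (G.φ q (y z)))) x := hinv.clm_apply hlgx
  refine hres.congr_of_eventuallyEq ?_
  have hcont : ∀ᶠ z in 𝓝 x, dist q (f z).m < ρ :=
    (continuousAt_const.dist hf.1).eventually_lt continuousAt_const hq
  filter_upwards [hξ, hcont] with z hz hzq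
  have hzs : (f z).m ∈ G.src q := h.sub (by rw [mem_closedBall, dist_comm]; linarith)
  have h6 := he (f z) (ξ z) hzq hz.1
  rw [hz.2] at h6
  rw [← h6]
  let e' : E ≃L[ℝ] E := ContinuousLinearEquiv.ofBijective (G.cd q (f z)).2
    (LinearMap.ker_eq_bot.2 (cd_bij hzs).1) (LinearMap.range_eq_top.2 (cd_bij hzs).2)
  have hcoe' : (e' : E →L[ℝ] E) = (G.cd q (f z)).2 := by
    ext u
    rfl
  rw [← hcoe', ContinuousLinearMap.inverse_equiv]
  simp

end Complete

end GMfd

end Amb
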