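import Pool.Agent.Amb.M4b

/-!
# Short segments
-/

set_option maxSynthPendingDepth 3

namespace Amb

open Set Metric
open scoped ContDiff Topology

variable {E : Type*} [NormedAddCommGroup E] [InnerProductSpace ℝ E] [FiniteDimensional ℝ E]
variable {M : Type*} [MetricSpace M] (G : GMfd E M)
variable {X : Type*} [NormedAddCommGroup X] [NormedSpace ℝ X]

namespace GMfd

section Complete

variable [CompleteSpace M]

variable {G} in
theorem seg_Psi {x : M} {ρ : ℝ} (h : G.GoodAt x ρ) {f : G.Fr} (hf : f.m = x) {ξ : E}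
    (hξ : ‖ξ‖ < ρ) (s : ℝ) : G.seg x (G.Psi ξ f).m s = (G.Psi (s • ξ) f).m := by
  have hex : ∃ fξ : G.Fr × E, fξ.1.m = x ∧ (G.Psi fξ.2 fξ.1).m = (G.Psi ξ f).m ∧
      ‖fξ.2‖ = dist x (G.Psi ξ f).m :=
    ⟨(f, ξ), hf, rfl, (h.dist_eq f hf ξ hξ).symm⟩
  unfold seg
  rw [dif_pos hex]
  obtain ⟨h1, h2, h3⟩ := hex.choose_spec
  set p := hex.choose with hp
  obtain ⟨k, hk⟩ := exists_rot (f := f) (f' := p.1) (hf.trans h1.symm)
  have hn : ‖k p.2‖ < ρ := by
    rw [k.norm_map, h3, h.dist_eq f hf ξ hξ]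
    exact hξ
  have e1 : (G.Psi (k p.2) f).m = (G.Psi ξ f).m := by
    rw [hk, G.Psi_rot] at h2
    exact h2
  have e2 : k p.2 = ξ := h.inj f hf _ _ hn hξ e1
  rw [hk, G.Psi_rot, map_smul, e2]
  rfl

variable {G} in
theorem exists_vec {x : M} {ρ : ℝ} (h : G.GoodAt x ρ) {f : G.Fr} (hf : f.m = x) {y : M}
    (hy : dist x y < ρ) : ∃ ξ : E, ‖ξ‖ < ρ ∧ ‖ξ‖ = dist x y ∧ (G.Psi ξ f).m = y := by
  obtain ⟨ξ, hξ, he⟩ := h.surj f hf y hy
  refine ⟨ξ, hξ, ?_, he⟩
  rw [← he]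
  exact (h.dist_eq f hf ξ hξ).symm

variable {G} in
theorem seg_zero {x y : M} {ρ : ℝ} (h : G.GoodAt x ρ) (hy : dist x y < ρ) :
    G.seg x y 0 = x := by
  obtain ⟨f, hf⟩ := G.exists_fr x
  obtain ⟨ξ, hξ, -, he⟩ := exists_vec h hf hy
  rw [← he, seg_Psi h hf hξ, zero_smul, G.Psi_zero, hf]

variable {G} in
theorem seg_one {x y : M} {ρ : ℝ} (h : G.GoodAt x ρ) (hy : dist x y < ρ) :
    G.seg x y 1 = y := by
  obtain ⟨f, hf⟩ := G.exists_fr x
  obtain ⟨ξ, hξ, -, he⟩ := exists_vec h hf hy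
  rw [← he, seg_Psi h hf hξ, one_smul]

variable {G} in
theorem seg_dist {x y : M} {ρ : ℝ} (h : G.GoodAt x ρ) (h' : ∀ z, dist x z < ρ → G.GoodAt z ρ)
    (hy : dist x y < ρ) {s t : ℝ}
    (hs : s ∈ Icc (0 : ℝ) 1) (ht : t ∈ Icc (0 : ℝ) 1) :
    dist (G.seg x y s) (G.seg x y t) = |s - t| * dist x y := by
  wlog hst : s ≤ t generalizing s t
  · rw [dist_comm, abs_sub_comm]
    exact this ht hs (le_of_not_ge hst)
  obtain ⟨f, hf⟩ := G.exists_fr x
  obtain ⟨ξ, hξ, hn, he⟩ := exists_vec h hf hy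
  rw [← he, seg_Psi h hf hξ, seg_Psi h hf hξ, he]
  have hsn : ‖s • ξ‖ < ρ := by
    rw [norm_smul, Real.norm_of_nonneg hs.1]
    have : s * ‖ξ‖ ≤ 1 * ‖ξ‖ := mul_le_mul_of_nonneg_right hs.2 (norm_nonneg _)
    linarith
  have hz : G.GoodAt (G.Psi (s • ξ) f).m ρ := by
    apply h'
    rw [h.dist_eq f hf _ hsn]
    exact hsn
  have hadd : G.Psi (t • ξ) f = G.Psi ((t - s) • ξ) (G.Psi (s • ξ) f) := by
    rw [← G.Psi_add]
    congr 2
    ring
  have htn : ‖(t - s) • ξ‖ < ρ := by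
    rw [norm_smul, Real.norm_of_nonneg (by linarith)]
    have : (t - s) * ‖ξ‖ ≤ 1 * ‖ξ‖ :=
      mul_le_mul_of_nonneg_right (by linarith [hs.1, ht.2]) (norm_nonneg _)
    linarith
  rw [hadd, hz.dist_eq _ rfl _ htn, norm_smul, hn, Real.norm_eq_abs, abs_sub_comm]

variable {G} in
theorem seg_unique {x y z : M} {ρ : ℝ} (h : G.GoodAt x ρ) (hy : dist x y < ρ) {s : ℝ}
    (hs : s ∈ Icc (0 : ℝ) 1) (h1 : dist x z = s * dist x y) (h2 : dist z y = (1 - s) * dist x y) :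
    z = G.seg x y s := by
  obtain ⟨f, hf⟩ := G.exists_fr x
  obtain ⟨ξ, hξ, hn, he⟩ := exists_vec h hf hy
  rw [← he, seg_Psi h hf hξ]
  refine h.betw f hf ξ hξ s hs z ?_ ?_
  · rw [h1, hn]
  · rw [he, h2, hn]

variable {G} in
theorem seg_conv {a b c : M} {ρ : ℝ} (hb : G.GoodAt b ρ) (h1 : dist a b < ρ)
    (h2 : dist a c < ρ) (h3 : dist b c < ρ) {s : ℝ} (hs : s ∈ Icc (0 : ℝ) 1) :
    dist a (G.seg b c s) ≤ max (dist a b) (dist a c) := by
  obtain ⟨f, hf⟩ := G.exists_fr b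
  obtain ⟨ξ, hξ, hn, he⟩ := exists_vec hb hf h3
  rw [← he, seg_Psi hb hf hξ]
  exact hb.conv f hf a ξ hξ h1 (by rw [he]; exact h2) s hs

variable {G} in
theorem seg_ext {x y z u v : M} {ρ : ℝ} (hy : ∀ w, dist y w < ρ → G.GoodAt w ρ)
    (hlt : dist x y + dist y z < ρ)
    (hu : dist x u + dist u y = dist x y) (hv : dist y v + dist v z = dist y z)
    (huy : u ≠ y) (hvy : v ≠ y) (huv : dist u v = dist u y + dist y v) :
    dist x z = dist x y + dist y z := by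
  have hxy0 : 0 ≤ dist x y := dist_nonneg
  have hyz0 : 0 ≤ dist y z := dist_nonneg
  have hxu0 : 0 ≤ dist x u := dist_nonneg
  have hvz0 : 0 ≤ dist v z := dist_nonneg
  have huy0 : 0 < dist u y := dist_pos.2 huy
  have hyv0 : 0 < dist y v := dist_pos.2 (Ne.symm hvy)
  have hρ : 0 < ρ := by linarith
  have gy : G.GoodAt y ρ := hy y (by rw [dist_self]; exact hρ)
  have hyx : dist y x < ρ := by rw [dist_comm]; linarith
  have gx : G.GoodAt x ρ := hy x hyx
  have hyu : dist y u < ρ := by rw [dist_comm]; linarith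
  have gu : G.GoodAt u ρ := hy u hyu
  obtain ⟨f, hf⟩ := G.exists_fr y
  obtain ⟨ξ, hξ, hξn, hξe⟩ := exists_vec gy hf hyx
  obtain ⟨ζ, hζ, hζn, hζe⟩ := exists_vec gy hf (show dist y z < ρ by linarith)
  rw [dist_comm y x] at hξn
  have hxpos : 0 < dist x y := by linarith
  have hzpos : 0 < dist y z := by linarith
  -- `u` and `v` on the segments
  obtain ⟨s, hs, hsu⟩ : ∃ s : ℝ, s ∈ Icc (0 : ℝ) 1 ∧ s * dist x y = dist u y := by
    refine ⟨dist u y / dist x y, ⟨by positivity, ?_⟩, by field_simp⟩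
    rw [div_le_one hxpos]
    linarith
  obtain ⟨t, ht, htv⟩ : ∃ t : ℝ, t ∈ Icc (0 : ℝ) 1 ∧ t * dist y z = dist y v := by
    refine ⟨dist y v / dist y z, ⟨by positivity, ?_⟩, by field_simp⟩
    rw [div_le_one hzpos]
    linarith
  have hs0 : 0 < s := by
    rcases lt_or_eq_of_le hs.1 with h | h
    · exact h
    · rw [← h, zero_mul] at hsu
      linarith
  have ht0 : 0 < t := by
    rcases lt_or_eq_of_le ht.1 with h | h
    · exact h
    · rw [← h, zero_mul] at htv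
      linarith
  have eu : u = (G.Psi (s • ξ) f).m := by
    refine gy.betw f hf ξ hξ s hs u ?_ ?_
    · rw [hξn, hsu, dist_comm]
    · rw [hξe, hξn, sub_mul, one_mul, hsu, dist_comm u x]
      linarith
  have ev : v = (G.Psi (t • ζ) f).m := by
    refine gy.betw f hf ζ hζ t ht v ?_ ?_
    · rw [hζn, htv]
    · rw [hζe, hζn, sub_mul, one_mul, htv]
      linarith
  -- the frame at `u`
  set g := G.Psi (s • ξ) f with hg
  have hgu : g.m = u := eu.symm
  have hback : G.Psi ((-s) • ξ) g = f := by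
    rw [hg, ← G.Psi_add, add_neg_cancel, zero_smul, G.Psi_zero]
  have huvlt : dist u v < ρ := by rw [huv]; linarith
  obtain ⟨η, hη, hηn, hηe⟩ := exists_vec gu hgu huvlt
  have huvpos : 0 < dist u v := by rw [huv]; linarith
  obtain ⟨σ, hσ, hσu⟩ : ∃ σ : ℝ, σ ∈ Icc (0 : ℝ) 1 ∧ σ * dist u v = dist u y := by
    refine ⟨dist u y / dist u v, ⟨by positivity, ?_⟩, by field_simp⟩
    rw [div_le_one huvpos]
    linarith
  have hσ0 : 0 < σ := by
    rcases lt_or_eq_of_le hσ.1 with h | h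
    · exact h
    · rw [← h, zero_mul] at hσu
      linarith
  have ey : y = (G.Psi (σ • η) g).m := by
    refine gu.betw g hgu η hη σ hσ y ?_ ?_
    · rw [hηn, hσu]
    · rw [hηe, hηn, sub_mul, one_mul, hσu]
      linarith
  have ey' : y = (G.Psi ((-s) • ξ) g).m := by rw [hback, hf]
  have hη1 : σ • η = (-s) • ξ := by
    refine gu.inj g hgu _ _ ?_ ?_ (ey.symm.trans ey')
    · rw [norm_smul, Real.norm_of_nonneg hσ.1, hηn, hσu]
      linarith
    · rw [norm_smul, norm_neg, Real.norm_of_nonneg hs.1, hξn, hsu]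
      linarith
  have hη2 : η = (-(s / σ)) • ξ := by
    have : η = σ⁻¹ • (σ • η) := by
      rw [smul_smul, inv_mul_cancel₀ hσ0.ne', one_smul]
    rw [this, hη1, smul_smul]
    congr 1
    field_simp
  have ev' : v = (G.Psi ((s + -(s / σ)) • ξ) f).m := by
    rw [G.Psi_add, ← hg, ← hη2, hηe]
  have hcoef : (s / σ) * dist x y = dist u v := by
    rw [div_mul_eq_mul_div, hsu, ← hσu]
    field_simp
  have hη3 : t • ζ = (s + -(s / σ)) • ξ := by
    refine gy.inj f hf _ _ ?_ ?_ (ev.symm.trans ev')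
    · rw [norm_smul, Real.norm_of_nonneg ht.1, hζn, htv]
      linarith
    · rw [norm_smul, hξn, Real.norm_eq_abs]
      have h1 : |s + -(s / σ)| = s / σ - s := by
        rw [abs_of_nonpos]
        · ring
        · have : s ≤ s / σ := by
            rw [le_div_iff₀ hσ0]
            exact mul_le_of_le_one_right hs.1 hσ.2
          linarith
      rw [h1, sub_mul, hcoef, hsu, huv]
      linarith
  obtain ⟨μ, hμ⟩ : ∃ μ : ℝ, μ = (s / σ - s) / t := ⟨_, rfl⟩
  have hζ2 : ζ = (-μ) • ξ := by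
    have : ζ = t⁻¹ • (t • ζ) := by
      rw [smul_smul, inv_mul_cancel₀ ht0.ne', one_smul]
    rw [this, hη3, smul_smul, hμ]
    congr 1
    field_simp
    ring
  have hμ0 : 0 ≤ μ := by
    rw [hμ]
    apply div_nonneg _ ht.1
    have : s ≤ s / σ := by
      rw [le_div_iff₀ hσ0]
      exact mul_le_of_le_one_right hs.1 hσ.2
    linarith
  have hμn : μ * dist x y = dist y z := by
    have := hζn
    rw [hζ2, norm_smul, norm_neg, Real.norm_of_nonneg hμ0, hξn] at this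
    exact this
  -- conclusion
  have hz : z = (G.Psi ((-(1 + μ)) • ξ) (G.Psi ((1 : ℝ) • ξ) f)).m := by
    rw [← G.Psi_add, ← hζe, hζ2]
    congr 3
    ring
  have hx : (G.Psi ((1 : ℝ) • ξ) f).m = x := by rw [one_smul, hξe]
  have hnorm : ‖(-(1 + μ)) • ξ‖ = dist x y + dist y z := by
    rw [norm_smul, norm_neg, Real.norm_of_nonneg (by linarith), hξn, add_mul, one_mul, hμn]
  have := gx.dist_eq _ hx ((-(1 + μ)) • ξ) (by rw [hnorm]; exact hlt)
  rw [← hz, hnorm] at this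
  exact this

end Complete

end GMfd

end Amb
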