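import Pool.Agent.Amb.Conf
import Pool.Agent.Amb.M1b
import Pool.Agent.Amb.M1c
import Pool.Agent.Amb.M3b
import Pool.Agent.Amb.M5

/-!
# Configurations: basic API and step laws
-/

set_option maxSynthPendingDepth 3

namespace Amb

open Set Metric
open scoped ContDiff Topology

variable {E : Type*} [NormedAddCommGroup E] [InnerProductSpace ℝ E] [FiniteDimensional ℝ E]
variable {M₁ M₂ : Type*} [MetricSpace M₁] [MetricSpace M₂]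
variable {G₁ : GMfd E M₁} {G₂ : GMfd E M₂}

namespace Conf

/-! ## C1: basic API -/

theorem mk_out (A : Conf G₁ G₂) : mk A.out.1 A.out.2 = A := by
  exact Quotient.out_eq (s := frRel G₁ G₂) A

theorem mk_eq_mk {f₁ f₁' : G₁.Fr} {f₂ f₂' : G₂.Fr} :
    mk f₁ f₂ = mk f₁' f₂' ↔ ∃ k : E ≃ₗᵢ[ℝ] E, f₁' = f₁.rot k ∧ f₂' = f₂.rot k := by
  constructor
  · intro h
    obtain ⟨k, hk⟩ := Quotient.exact (s := frRel G₁ G₂) h
    exact ⟨k, congrArg Prod.fst hk, congrArg Prod.snd hk⟩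
  · rintro ⟨k, h1, h2⟩
    exact Quotient.sound (s := frRel G₁ G₂) ⟨k, by rw [h1, h2]⟩

theorem mk_rot (f₁ : G₁.Fr) (f₂ : G₂.Fr) (k : E ≃ₗᵢ[ℝ] E) :
    mk (f₁.rot k) (f₂.rot k) = mk f₁ f₂ :=
  (mk_eq_mk.2 ⟨k, rfl, rfl⟩).symm

theorem out_mk (f₁ : G₁.Fr) (f₂ : G₂.Fr) :
    ∃ k : E ≃ₗᵢ[ℝ] E, f₁ = (mk f₁ f₂).out.1.rot k ∧ f₂ = (mk f₁ f₂).out.2.rot k :=
  mk_eq_mk.1 (mk_out (mk f₁ f₂))

theorem π₁_mk (f₁ : G₁.Fr) (f₂ : G₂.Fr) : (mk f₁ f₂).π₁ = f₁.m := by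
  obtain ⟨k, h1, -⟩ := out_mk f₁ f₂
  exact (congrArg GMfd.Fr.m h1).symm

theorem π₂_mk (f₁ : G₁.Fr) (f₂ : G₂.Fr) : (mk f₁ f₂).π₂ = f₂.m := by
  obtain ⟨k, -, h2⟩ := out_mk f₁ f₂
  exact (congrArg GMfd.Fr.m h2).symm

theorem D_mk (f₁ : G₁.Fr) (f₂ : G₂.Fr) : (mk f₁ f₂).D = ‖G₁.Rf f₁ - G₂.Rf f₂‖ := by
  obtain ⟨k, h1, h2⟩ := out_mk f₁ f₂
  have h := G₁.norm_pull_rot G₂ (mk f₁ f₂).out.1 (mk f₁ f₂).out.2 k
  rw [← h1, ← h2] at h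
  exact h.symm

theorem D_nonneg (A : Conf G₁ G₂) : 0 ≤ A.D := norm_nonneg _

/-- every configuration over `m` has a representative with a given frame over `m` -/
theorem exists_rep (A : Conf G₁ G₂) (f₁ : G₁.Fr) (h : f₁.m = A.π₁) :
    ∃ f₂ : G₂.Fr, A = mk f₁ f₂ := by
  obtain ⟨k, hk⟩ := GMfd.exists_rot (f := A.out.1) (f' := f₁) h.symm
  exact ⟨A.out.2.rot k, by rw [hk, mk_rot, mk_out]⟩

variable [CompleteSpace M₁] [CompleteSpace M₂]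

theorem step_mk {f₁ : G₁.Fr} {f₂ : G₂.Fr} {ρ : ℝ} (h : G₁.GoodAt f₁.m ρ) {ξ : E} (hξ : ‖ξ‖ < ρ) :
    step (mk f₁ f₂) (G₁.Psi ξ f₁).m = mk (G₁.Psi ξ f₁) (G₂.Psi ξ f₂) := by
  obtain ⟨k, h1, h2⟩ := out_mk f₁ f₂
  set o₁ := (mk f₁ f₂).out.1 with ho₁
  set o₂ := (mk f₁ f₂).out.2 with ho₂
  have hm : o₁.m = f₁.m := (congrArg GMfd.Fr.m h1).symm
  have e1 : G₁.Psi ξ f₁ = (G₁.Psi (k ξ) o₁).rot k := by
    conv_lhs => rw [h1]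
    exact G₁.Psi_rot ξ o₁ k
  have e2 : G₂.Psi ξ f₂ = (G₂.Psi (k ξ) o₂).rot k := by
    conv_lhs => rw [h2]
    exact G₂.Psi_rot ξ o₂ k
  have em : (G₁.Psi (k ξ) o₁).m = (G₁.Psi ξ f₁).m := (congrArg GMfd.Fr.m e1).symm
  have hd : dist f₁.m (G₁.Psi ξ f₁).m = ‖ξ‖ := h.dist_eq f₁ rfl ξ hξ
  have hex : ∃ ξ' : E, (G₁.Psi ξ' o₁).m = (G₁.Psi ξ f₁).m ∧
      ‖ξ'‖ = dist o₁.m (G₁.Psi ξ f₁).m :=
    ⟨k ξ, em, by rw [hm, hd, LinearIsometryEquiv.norm_map]⟩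
  unfold step
  rw [dif_pos hex]
  have hc := hex.choose_spec
  have hck : hex.choose = k ξ := by
    refine h.inj o₁ hm _ _ ?_ ?_ (hc.1.trans em.symm)
    · rw [hc.2, hm, hd]; exact hξ
    · rw [LinearIsometryEquiv.norm_map]; exact hξ
  rw [hck, e1, e2, mk_rot]

/-- the step to a close point in terms of a given representative -/
theorem exists_step {f₁ : G₁.Fr} {f₂ : G₂.Fr} {ρ : ℝ} (h : G₁.GoodAt f₁.m ρ) {b : M₁}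
    (hb : dist f₁.m b < ρ) : ∃ ξ : E, ‖ξ‖ < ρ ∧ ‖ξ‖ = dist f₁.m b ∧ (G₁.Psi ξ f₁).m = b ∧
      step (mk f₁ f₂) b = mk (G₁.Psi ξ f₁) (G₂.Psi ξ f₂) := by
  obtain ⟨ξ, hξ, rfl⟩ := h.surj f₁ rfl b hb
  exact ⟨ξ, hξ, (h.dist_eq f₁ rfl ξ hξ).symm, rfl, step_mk h hξ⟩

/-! ## C2: step laws -/

theorem π_step {A : Conf G₁ G₂} {ρ : ℝ} (h : G₁.GoodAt A.π₁ ρ) {b : M₁} (hb : dist A.π₁ b < ρ) :
    (step A b).π₁ = b := by
  obtain ⟨ξ, -, -, h1, h2⟩ := exists_step (f₁ := A.out.1) (f₂ := A.out.2) h hb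
  rw [mk_out] at h2
  rw [h2, π₁_mk, h1]

theorem dist_π₂_step {A : Conf G₁ G₂} {ρ : ℝ} (h : G₁.GoodAt A.π₁ ρ) {b : M₁}
    (hb : dist A.π₁ b < ρ) : dist A.π₂ (step A b).π₂ ≤ dist A.π₁ b := by
  obtain ⟨ξ, -, h0, h1, h2⟩ := exists_step (f₁ := A.out.1) (f₂ := A.out.2) h hb
  rw [mk_out] at h2
  rw [h2, π₂_mk]
  exact (G₂.dist_Psi_le ξ A.out.2).trans h0.le

theorem step_self {A : Conf G₁ G₂} {ρ : ℝ} (hρ : 0 < ρ) (h : G₁.GoodAt A.π₁ ρ) :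
    step A A.π₁ = A := by
  have h0 : ‖(0 : E)‖ < ρ := by rw [norm_zero]; exact hρ
  have := step_mk (f₁ := A.out.1) (f₂ := A.out.2) h h0
  rw [G₁.Psi_zero, G₂.Psi_zero, mk_out] at this
  exact this

theorem step_mid {A : Conf G₁ G₂} {ρ : ℝ} (h : ∀ z, dist A.π₁ z < ρ → G₁.GoodAt z ρ) {b : M₁}
    (hb : dist A.π₁ b < ρ) {s : ℝ} (hs : s ∈ Icc (0 : ℝ) 1) :
    step (step A (G₁.seg A.π₁ b s)) b = step A b := by
  have hρ : 0 < ρ := dist_nonneg.trans_lt hb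
  have hA : G₁.GoodAt A.π₁ ρ := h _ (by rw [dist_self]; exact hρ)
  obtain ⟨ξ, hξ, h0, h1, h2⟩ := exists_step (f₁ := A.out.1) (f₂ := A.out.2) hA hb
  rw [mk_out] at h2
  have hsξ : ‖s • ξ‖ < ρ := by
    rw [norm_smul, Real.norm_of_nonneg hs.1]
    exact (mul_le_of_le_one_left (norm_nonneg _) hs.2).trans_lt hξ
  have htξ : ‖(1 - s) • ξ‖ < ρ := by
    rw [norm_smul, Real.norm_of_nonneg (by linarith [hs.2])]
    exact (mul_le_of_le_one_left (norm_nonneg _) (by linarith [hs.1])).trans_lt hξ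
  have h3 : G₁.seg A.π₁ b s = (G₁.Psi (s • ξ) A.out.1).m := by
    rw [← h1]
    exact GMfd.seg_Psi hA rfl hξ s
  have h4 := step_mk (f₁ := A.out.1) (f₂ := A.out.2) hA hsξ
  rw [mk_out] at h4
  have a1 : G₁.Psi ξ A.out.1 = G₁.Psi ((1 - s) • ξ) (G₁.Psi (s • ξ) A.out.1) := by
    rw [← G₁.Psi_add, add_sub_cancel, one_smul]
  have a2 : G₂.Psi ξ A.out.2 = G₂.Psi ((1 - s) • ξ) (G₂.Psi (s • ξ) A.out.2) := by
    rw [← G₂.Psi_add, add_sub_cancel, one_smul]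
  have hz : G₁.GoodAt (G₁.Psi (s • ξ) A.out.1).m ρ := by
    apply h
    have : dist A.out.1.m (G₁.Psi (s • ξ) A.out.1).m = ‖s • ξ‖ := hA.dist_eq _ rfl _ hsξ
    change dist A.out.1.m _ < ρ
    rw [this]; exact hsξ
  rw [h2, h3, h4, ← h1, a1, a2]
  exact step_mk hz htξ

theorem step_rev {A : Conf G₁ G₂} {ρ : ℝ} (h : ∀ z, dist A.π₁ z < ρ → G₁.GoodAt z ρ) {b : M₁}
    (hb : dist A.π₁ b < ρ) : step (step A b) A.π₁ = A := by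
  have hρ : 0 < ρ := dist_nonneg.trans_lt hb
  have hA : G₁.GoodAt A.π₁ ρ := h _ (by rw [dist_self]; exact hρ)
  obtain ⟨ξ, hξ, h0, h1, h2⟩ := exists_step (f₁ := A.out.1) (f₂ := A.out.2) hA hb
  rw [mk_out] at h2
  have a1 : G₁.Psi (-ξ) (G₁.Psi ξ A.out.1) = A.out.1 := by
    have := G₁.Psi_add 1 (-1) ξ A.out.1
    rw [add_neg_cancel, zero_smul, G₁.Psi_zero, one_smul, neg_smul, one_smul] at this
    exact this.symm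
  have a2 : G₂.Psi (-ξ) (G₂.Psi ξ A.out.2) = A.out.2 := by
    have := G₂.Psi_add 1 (-1) ξ A.out.2
    rw [add_neg_cancel, zero_smul, G₂.Psi_zero, one_smul, neg_smul, one_smul] at this
    exact this.symm
  have hz : G₁.GoodAt (G₁.Psi ξ A.out.1).m ρ := by
    rw [h1]; exact h _ hb
  have h5 := step_mk (f₁ := G₁.Psi ξ A.out.1) (f₂ := G₂.Psi ξ A.out.2) hz
    (ξ := -ξ) (by rw [norm_neg]; exact hξ)
  rw [a1, a2, mk_out] at h5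
  rw [h2]
  exact h5

end Conf

end Amb
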