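import Mathlib
import Pool.Agent.Amb.Statement

/-!
# The inverse function theorem on manifolds
-/

open Set Bundle Manifold Function
open scoped ContDiff Topology

noncomputable section

namespace Amb

variable {n : ℕ}
  {M : Type*} [TopologicalSpace M] [ChartedSpace (EE n) M] [IsManifold (𝓡 n) ∞ M]
  {N : Type*} [TopologicalSpace N] [ChartedSpace (EE n) N] [IsManifold (𝓡 n) ∞ N]

/-- Linear version: an injective endomorphism is a continuous linear equivalence. -/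
theorem exists_equiv_of_injective (A : EE n →L[ℝ] EE n) (h : Injective A) :
    ∃ B : EE n ≃L[ℝ] EE n, (B : EE n →L[ℝ] EE n) = A := by
  refine ⟨(LinearEquiv.ofInjectiveEndo (A : EE n →ₗ[ℝ] EE n) h).toContinuousLinearEquiv, ?_⟩
  ext v
  rfl

/-- **Inverse function theorem on manifolds.** -/
theorem exists_local_inverse {f : M → N} {x : M} {U : Set M} (hU : IsOpen U) (hx : x ∈ U)
    (hf : ContMDiffOn (𝓡 n) (𝓡 n) ∞ f U)
    (hinj : ∀ y ∈ U, Injective (mfderiv (𝓡 n) (𝓡 n) f y)) :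
    ∃ φ : OpenPartialHomeomorph M N, x ∈ φ.source ∧ φ.source ⊆ U ∧ EqOn φ f φ.source ∧
      ContMDiffOn (𝓡 n) (𝓡 n) ∞ φ.symm φ.target := by
  classical
  set cx := chartAt (EE n) x with hcx
  set cy := chartAt (EE n) (f x) with hcy
  set F : EE n → EE n := cy ∘ f ∘ cx.symm with hF
  set U₁ : Set M := U ∩ f ⁻¹' cy.source with hU₁
  have hU₁o : IsOpen U₁ := hf.continuousOn.isOpen_inter_preimage hU cy.open_source
  set W : Set (EE n) := cx.target ∩ cx.symm ⁻¹' U₁ with hW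
  have hWo : IsOpen W := cx.symm.isOpen_inter_preimage hU₁o
  have hxW : cx x ∈ W := by
    refine ⟨cx.map_source (mem_chart_source _ x), ?_⟩
    simp only [mem_preimage]
    rw [cx.left_inv (mem_chart_source _ x)]
    exact ⟨hx, mem_chart_source _ (f x)⟩
  -- smoothness of `F` on `W`
  have hFs : ContMDiffOn 𝓘(ℝ, EE n) 𝓘(ℝ, EE n) ∞ F W := by
    have h1 : ContMDiffOn 𝓘(ℝ, EE n) (𝓡 n) ∞ cx.symm W :=
      (contMDiffOn_chart_symm (I := 𝓡 n) (x := x)).mono inter_subset_left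
    have h2 : ContMDiffOn (𝓡 n) 𝓘(ℝ, EE n) ∞ cy cy.source :=
      contMDiffOn_chart (I := 𝓡 n) (x := f x)
    have h3 : ContMDiffOn 𝓘(ℝ, EE n) (𝓡 n) ∞ (f ∘ cx.symm) W :=
      hf.comp h1 (fun z hz => hz.2.1)
    exact h2.comp h3 (fun z hz => hz.2.2)
  have hFs' : ContDiffOn ℝ ∞ F W := contMDiffOn_iff_contDiffOn.mp hFs
  -- derivative of `F`
  have hFd : ∀ z ∈ W, Injective (fderiv ℝ F z) := by
    intro z hz
    have hzt : z ∈ cx.target := hz.1
    have hzs : cx.symm z ∈ cx.source := cx.map_target hzt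
    have hzU : cx.symm z ∈ U := hz.2.1
    have d1 : MDifferentiableAt 𝓘(ℝ, EE n) (𝓡 n) cx.symm z :=
      mdifferentiableAt_atlas_symm (chart_mem_atlas _ x) hzt
    have d2 : MDifferentiableAt (𝓡 n) (𝓡 n) f (cx.symm z) :=
      ((hf _ hzU).contMDiffAt (hU.mem_nhds hzU)).mdifferentiableAt (by simp)
    have d3 : MDifferentiableAt (𝓡 n) 𝓘(ℝ, EE n) cy (f (cx.symm z)) :=
      mdifferentiableAt_atlas (chart_mem_atlas _ (f x)) hz.2.2
    have e1 : mfderiv 𝓘(ℝ, EE n) 𝓘(ℝ, EE n) F z =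
        (mfderiv (𝓡 n) 𝓘(ℝ, EE n) cy (f (cx.symm z))).comp
          ((mfderiv (𝓡 n) (𝓡 n) f (cx.symm z)).comp
            (mfderiv 𝓘(ℝ, EE n) (𝓡 n) cx.symm z)) := by
      rw [hF, mfderiv_comp z d3 (d2.comp z d1), mfderiv_comp z d2 d1]
      rfl
    rw [← mfderiv_eq_fderiv, e1]
    have i3 : Injective (mfderiv (𝓡 n) 𝓘(ℝ, EE n) cy (f (cx.symm z))) := by
      have := (isInvertible_mfderiv_extChartAt (I := 𝓡 n) (x := f x)
        (y := f (cx.symm z)) (by simpa using hz.2.2)).injective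
      simp only [mfld_simps] at this
      exact this
    have i1 : Injective (mfderiv 𝓘(ℝ, EE n) (𝓡 n) cx.symm z) := by
      have := (isInvertible_mfderivWithin_extChartAt_symm (I := 𝓡 n) (x := x)
        (y := z) (by simpa using hzt)).injective
      simp only [mfderivWithin_univ, mfld_simps] at this
      exact this
    exact i3.comp ((hinj _ hzU).comp i1)
  have hFda : ∀ z ∈ W, ContDiffAt ℝ ∞ F z := fun z hz => hFs'.contDiffAt (hWo.mem_nhds hz)
  have hFeq : ∀ z ∈ W, ∃ B : EE n ≃L[ℝ] EE n, HasFDerivAt F (B : EE n →L[ℝ] EE n) z := by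
    intro z hz
    obtain ⟨B, hB⟩ := exists_equiv_of_injective (fderiv ℝ F z) (hFd z hz)
    exact ⟨B, hB ▸ ((hFda z hz).differentiableAt (by simp)).hasFDerivAt⟩
  obtain ⟨B, hB⟩ := hFeq _ hxW
  set e₁ : OpenPartialHomeomorph (EE n) (EE n) :=
    (hFda _ hxW).toOpenPartialHomeomorph F hB (by simp) with he₁
  have he₁F : (e₁ : EE n → EE n) = F := rfl
  have hxe₁ : cx x ∈ e₁.source := (hFda _ hxW).mem_toOpenPartialHomeomorph_source hB (by simp)
  set e₂ := e₁.restrOpen W hWo with he₂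
  have he₂F : (e₂ : EE n → EE n) = F := rfl
  have he₂s : e₂.source = e₁.source ∩ W := rfl
  have he₂symm : ContMDiffOn 𝓘(ℝ, EE n) 𝓘(ℝ, EE n) ∞ e₂.symm e₂.target := by
    rw [contMDiffOn_iff_contDiffOn]
    intro z hz
    have hz' : e₂.symm z ∈ e₂.source := e₂.map_target hz
    rw [he₂s] at hz'
    obtain ⟨B', hB'⟩ := hFeq _ hz'.2
    exact (e₂.contDiffAt_symm hz (by rw [he₂F]; exact hB')
      (by rw [he₂F]; exact hFda _ hz'.2)).contDiffWithinAt
  set φ : OpenPartialHomeomorph M N := (cx.trans e₂).trans cy.symm with hφ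
  have hsrc : ∀ y, y ∈ φ.source ↔ y ∈ cx.source ∧ cx y ∈ e₁.source ∧ cx y ∈ W ∧
      F (cx y) ∈ cy.target := by
    intro y
    simp only [hφ, OpenPartialHomeomorph.trans_source, mem_inter_iff, mem_preimage,
      OpenPartialHomeomorph.coe_trans, comp_apply, he₂s, he₂F, OpenPartialHomeomorph.symm_source]
    tauto
  have hFx : ∀ y, y ∈ cx.source → cx y ∈ W → y ∈ U₁ ∧ F (cx y) = cy (f y) := by
    intro y hy hyW
    have h := hyW.2
    simp only [mem_preimage, cx.left_inv hy] at h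
    refine ⟨h, ?_⟩
    simp only [hF, comp_apply, cx.left_inv hy]
  refine ⟨φ, ?_, ?_, ?_, ?_⟩
  · rw [hsrc]
    refine ⟨mem_chart_source _ x, hxe₁, hxW, ?_⟩
    rw [(hFx x (mem_chart_source _ x) hxW).2]
    exact cy.map_source (mem_chart_source _ (f x))
  · intro y hy
    rw [hsrc] at hy
    exact (hFx y hy.1 hy.2.2.1).1.1
  · intro y hy
    rw [hsrc] at hy
    obtain ⟨h1, h2⟩ := hFx y hy.1 hy.2.2.1
    simp only [hφ, OpenPartialHomeomorph.coe_trans, comp_apply, he₂F]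
    rw [h2, cy.left_inv h1.2]
  · have h1 : ContMDiffOn (𝓡 n) 𝓘(ℝ, EE n) ∞ cy cy.source :=
      contMDiffOn_chart (I := 𝓡 n) (x := f x)
    have h2 : ContMDiffOn 𝓘(ℝ, EE n) (𝓡 n) ∞ cx.symm cx.target :=
      contMDiffOn_chart_symm (I := 𝓡 n) (x := x)
    have ht : ∀ y ∈ φ.target, y ∈ cy.source ∧ cy y ∈ e₂.target ∧ e₂.symm (cy y) ∈ cx.target := by
      intro y hy
      simp only [hφ, OpenPartialHomeomorph.trans_target, mem_inter_iff, mem_preimage,
        OpenPartialHomeomorph.symm_target, OpenPartialHomeomorph.symm_symm] at hy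
      exact ⟨hy.1, hy.2.1, hy.2.2⟩
    have h3 : ContMDiffOn (𝓡 n) 𝓘(ℝ, EE n) ∞ (e₂.symm ∘ cy) φ.target :=
      he₂symm.comp (h1.mono fun y hy => (ht y hy).1) fun y hy => (ht y hy).2.1
    exact h2.comp h3 fun y hy => (ht y hy).2.2

end Amb
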