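import Mathlib

/-!
# Metric local isometries from a complete space: lifting of Lipschitz curves, covering property
-/

set_option maxSynthPendingDepth 3

open Set Function Filter Metric
open scoped Topology

namespace Amb

variable {M N : Type*} [MetricSpace M] [MetricSpace N]

/-- Metric local isometries: near every point there is an isometric local inverse which is
defined on a metric ball. -/
def LocIso (f : M → N) : Prop :=
  ∀ A : M, ∃ r > 0, ∃ s : N → M, s (f A) = A ∧ (∀ y ∈ ball (f A) r, f (s y) = y) ∧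
    (∀ x ∈ ball A r, f x ∈ ball (f A) r ∧ s (f x) = x) ∧
    ∀ y ∈ ball (f A) r, ∀ z ∈ ball (f A) r, dist (s y) (s z) = dist y z

variable {f : M → N}

set_option linter.unusedSectionVars false


theorem LocIso.isLocalHomeomorph (h : LocIso f) : IsLocalHomeomorph f := by
  apply IsLocalHomeomorph.mk
  intro A
  obtain ⟨r, hr, s, h1, h2, h3, h4⟩ := h A
  have hs : ∀ y ∈ ball (f A) r, s y ∈ ball A r := by
    intro y hy
    have := h4 y hy (f A) (mem_ball_self hr)
    rw [h1] at this
    rw [mem_ball, this]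
    exact hy
  refine ⟨{
    toFun := f
    invFun := s
    source := ball A r
    target := ball (f A) r
    map_source' := fun x hx => (h3 x hx).1
    map_target' := hs
    left_inv' := fun x hx => (h3 x hx).2
    right_inv' := h2
    open_source := isOpen_ball
    open_target := isOpen_ball
    continuousOn_toFun := ?_
    continuousOn_invFun := ?_ }, mem_ball_self hr, fun x _ => rfl⟩
  · rw [Metric.continuousOn_iff]
    intro x hx ε hε
    refine ⟨ε, hε, fun y hy hxy => ?_⟩
    have := h4 _ (h3 y hy).1 _ (h3 x hx).1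
    rw [(h3 y hy).2, (h3 x hx).2] at this
    rw [← this]
    exact hxy
  · rw [Metric.continuousOn_iff]
    intro x hx ε hε
    refine ⟨ε, hε, fun y hy hxy => ?_⟩
    rw [h4 _ hy _ hx]
    exact hxy

/-- `g` is a `K`-Lipschitz lift of `σ` on `[0, t]` starting at `A`. -/
def IsLift (f : M → N) (σ : ℝ → N) (K : ℝ) (A : M) (t : ℝ) (g : ℝ → M) : Prop :=
  g 0 = A ∧ (∀ s ∈ Icc (0 : ℝ) t, f (g s) = σ s) ∧
    ∀ s ∈ Icc (0 : ℝ) t, ∀ s' ∈ Icc (0 : ℝ) t, dist (g s) (g s') ≤ K * |s - s'|

theorem IsLift.mono {σ : ℝ → N} {K : ℝ} {A : M} {t t' : ℝ} {g : ℝ → M}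
    (h : IsLift f σ K A t g) (htt : t' ≤ t) : IsLift f σ K A t' g :=
  ⟨h.1, fun s hs => h.2.1 s ⟨hs.1, hs.2.trans htt⟩,
    fun s hs s' hs' => h.2.2 s ⟨hs.1, hs.2.trans htt⟩ s' ⟨hs'.1, hs'.2.trans htt⟩⟩

theorem IsLift.continuousOn {σ : ℝ → N} {K : ℝ} {A : M} {t : ℝ} {g : ℝ → M}
    (h : IsLift f σ K A t g) : ContinuousOn g (Icc 0 t) := by
  rw [Metric.continuousOn_iff]
  intro x hx ε hε
  have hK : 0 < |K| + 1 := by positivity
  refine ⟨ε / (|K| + 1), by positivity, fun y hy hxy => ?_⟩
  have h1 := h.2.2 y hy x hx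
  rw [Real.dist_eq, lt_div_iff₀ hK] at hxy
  have h2 : K * |y - x| ≤ |K| * |y - x| := mul_le_mul_of_nonneg_right (le_abs_self K) (abs_nonneg _)
  have h3 : 0 ≤ |y - x| := abs_nonneg _
  nlinarith

theorem IsLift.eqOn (hf : LocIso f) {σ : ℝ → N} {K K' : ℝ} {A : M} {t : ℝ} {g g' : ℝ → M}
    (ht : 0 ≤ t) (h : IsLift f σ K A t g) (h' : IsLift f σ K' A t g') : EqOn g g' (Icc 0 t) := by
  have hsep : IsSeparatedMap f := T2Space.isSeparatedMap f
  refine hsep.eqOn_of_comp_eqOn hf.isLocalHomeomorph.isLocallyInjective isPreconnected_Icc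
    h.continuousOn h'.continuousOn ?_ (left_mem_Icc.2 ht) (h.1.trans h'.1.symm)
  intro s hs
  simp only [comp_apply]
  rw [h.2.1 s hs, h'.2.1 s hs]

/-- One more step: a lift on `[0, t]` extends to a longer interval. -/
theorem IsLift.extend (hf : LocIso f) {σ : ℝ → N} {K : ℝ} (hK : 0 ≤ K)
    (hσ : ∀ s ∈ Icc (0 : ℝ) 1, ∀ s' ∈ Icc (0 : ℝ) 1, dist (σ s) (σ s') ≤ K * |s - s'|)
    {A : M} {t : ℝ} {g : ℝ → M} (ht0 : 0 ≤ t) (ht : t < 1) (h : IsLift f σ K A t g) :
    ∃ t' > t, t' ≤ 1 ∧ ∃ g', IsLift f σ K A t' g' := by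
  obtain ⟨r, hr, s, h1, h2, h3, h4⟩ := hf (g t)
  have hgt : f (g t) = σ t := h.2.1 t ⟨ht0, le_rfl⟩
  rw [hgt] at h1 h2 h4
  set δ := min (1 - t) (r / (2 * (K + 1))) with hδ
  have hδ0 : 0 < δ := lt_min (by linarith) (by positivity)
  have hδ1 : δ ≤ 1 - t := min_le_left _ _
  have hδ2 : δ * (K + 1) < r := by
    have : δ ≤ r / (2 * (K + 1)) := min_le_right _ _
    rw [le_div_iff₀ (by positivity)] at this
    nlinarith
  have hball : ∀ u ∈ Icc t (t + δ), σ u ∈ ball (σ t) r := by
    intro u hu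
    rw [mem_ball]
    have e1 := hσ u ⟨ht0.trans hu.1, by linarith [hu.2]⟩ t ⟨ht0, ht.le⟩
    rw [abs_of_nonneg (by linarith [hu.1])] at e1
    have e2 : K * (u - t) ≤ K * δ := mul_le_mul_of_nonneg_left (by linarith [hu.2]) hK
    nlinarith
  have htball : σ t ∈ ball (σ t) r := mem_ball_self hr
  refine ⟨t + δ, by linarith, by linarith, fun u => if u ≤ t then g u else s (σ u), ?_, ?_, ?_⟩
  · simp only [ht0, if_true]
    exact h.1
  · intro u hu
    by_cases hut : u ≤ t
    · simp only [hut, if_true]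
      exact h.2.1 u ⟨hu.1, hut⟩
    · simp only [hut, if_false]
      exact h2 _ (hball u ⟨(not_le.1 hut).le, hu.2⟩)
  · -- reduce to `u ≤ v`
    have key : ∀ u ∈ Icc (0 : ℝ) (t + δ), ∀ v ∈ Icc (0 : ℝ) (t + δ), u ≤ v →
        dist (if u ≤ t then g u else s (σ u)) (if v ≤ t then g v else s (σ v)) ≤ K * |u - v| := by
      intro u hu v hv huv
      by_cases hvt : v ≤ t
      · have hut : u ≤ t := huv.trans hvt
        simp only [hut, hvt, if_true]
        exact h.2.2 u ⟨hu.1, hut⟩ v ⟨hv.1, hvt⟩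
      · have hvt' : t ≤ v := (not_le.1 hvt).le
        have hvb := hball v ⟨hvt', hv.2⟩
        by_cases hut : u ≤ t
        · simp only [hut, hvt, if_true, if_false]
          have e1 := h.2.2 u ⟨hu.1, hut⟩ t ⟨ht0, le_rfl⟩
          have e2 := h4 _ htball _ hvb
          rw [h1] at e2
          have e3 := hσ t ⟨ht0, ht.le⟩ v ⟨hv.1, by linarith [hv.2]⟩
          have e4 := dist_triangle (g u) (g t) (s (σ v))
          have e5 : |u - v| = |u - t| + |t - v| := by
            rw [abs_of_nonpos (by linarith), abs_of_nonpos (by linarith),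
              abs_of_nonpos (by linarith)]
            ring
          rw [e5, mul_add]
          linarith
        · have hut' : t ≤ u := (not_le.1 hut).le
          simp only [hut, hvt, if_false]
          rw [h4 _ (hball u ⟨hut', hu.2⟩) _ hvb]
          exact hσ u ⟨hu.1, by linarith [hu.2]⟩ v ⟨hv.1, by linarith [hv.2]⟩
    intro u hu v hv
    rcases le_total u v with huv | huv
    · exact key u hu v hv huv
    · rw [dist_comm, abs_sub_comm]
      exact key v hv u hu huv

/-- **Path lifting** for metric local isometries with complete source. -/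
theorem exists_isLift [CompleteSpace M] (hf : LocIso f) {σ : ℝ → N} {K : ℝ} (hK : 0 ≤ K)
    (hσ : ∀ s ∈ Icc (0 : ℝ) 1, ∀ s' ∈ Icc (0 : ℝ) 1, dist (σ s) (σ s') ≤ K * |s - s'|)
    {A : M} (hA : f A = σ 0) : ∃ g, IsLift f σ K A 1 g := by
  classical
  set T : Set ℝ := {t | t ∈ Icc (0 : ℝ) 1 ∧ ∃ g, IsLift f σ K A t g} with hT
  have h0T : (0 : ℝ) ∈ T := by
    refine ⟨⟨le_rfl, zero_le_one⟩, fun _ => A, rfl, ?_, ?_⟩
    · intro s hs
      have : s = 0 := le_antisymm hs.2 hs.1
      rw [this, hA]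
    · intro s _ s' _
      rw [dist_self]
      positivity
  have hTb : BddAbove T := ⟨1, fun t ht => ht.1.2⟩
  set τ := sSup T with hτ
  have hτ0 : 0 ≤ τ := le_csSup hTb h0T
  have hτ1 : τ ≤ 1 := csSup_le ⟨0, h0T⟩ fun t ht => ht.1.2
  -- a lift on `[0, τ]`
  have hτT : ∃ g, IsLift f σ K A τ g := by
    rcases hτ0.eq_or_lt with h | hτpos
    · obtain ⟨-, g, hg⟩ := h0T
      exact ⟨g, h ▸ hg⟩
    have hlt : ∀ t, t < τ → ∃ g, IsLift f σ K A t g := by
      intro t ht
      obtain ⟨t', ht'T, htt'⟩ := exists_lt_of_lt_csSup ⟨0, h0T⟩ ht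
      obtain ⟨-, g, hg⟩ := ht'T
      exact ⟨g, hg.mono htt'.le⟩
    have : Nonempty (ℝ → M) := ⟨fun _ => A⟩
    choose! G hG using hlt
    have hGG : ∀ t t', 0 ≤ t → t ≤ t' → t' < τ → G t' t = G t t := by
      intro t t' h0 htt' ht'
      exact ((hG t' ht').mono htt').eqOn hf h0 (hG t (htt'.trans_lt ht')) ⟨h0, le_rfl⟩
    set g : ℝ → M := fun t => G t t with hg
    have hgL : ∀ s, 0 ≤ s → s < τ → ∀ s', 0 ≤ s' → s' < τ → dist (g s) (g s') ≤ K * |s - s'| := by
      intro s hs hsτ s' hs' hs'τ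
      have hm : max s s' < τ := max_lt hsτ hs'τ
      have e := (hG _ hm).2.2 s ⟨hs, le_max_left _ _⟩ s' ⟨hs', le_max_right _ _⟩
      rw [hGG s _ hs (le_max_left _ _) hm, hGG s' _ hs' (le_max_right _ _) hm] at e
      exact e
    -- the limit at `τ`
    set u : ℕ → ℝ := fun k => τ * (1 - 1 / ((k : ℝ) + 2)) with hu
    have hu0 : ∀ k, 0 ≤ u k := by
      intro k
      have : 1 / ((k : ℝ) + 2) ≤ 1 := by
        rw [div_le_one (by positivity)]
        linarith [(Nat.cast_nonneg k : (0 : ℝ) ≤ k)]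
      exact mul_nonneg hτ0 (by linarith)
    have huτ : ∀ k, u k < τ := by
      intro k
      have : 0 < 1 / ((k : ℝ) + 2) := by positivity
      simp only [hu]
      nlinarith
    have hulim : Tendsto u atTop (𝓝 τ) := by
      have h1 : Tendsto (fun k : ℕ => 1 / ((k : ℝ) + 2)) atTop (𝓝 0) := by
        have := tendsto_one_div_add_atTop_nhds_zero_nat (𝕜 := ℝ)
        have h2 := (tendsto_add_atTop_iff_nat 1).2 this
        refine h2.congr fun k => ?_
        push_cast
        ring
      have h3 : Tendsto u atTop (𝓝 (τ * (1 - 0))) :=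
        (tendsto_const_nhds.sub h1).const_mul τ
      simpa using h3
    have hcau : CauchySeq (fun k => g (u k)) := by
      have hc : CauchySeq u := hulim.cauchySeq
      rw [Metric.cauchySeq_iff] at hc ⊢
      intro ε hε
      obtain ⟨k₀, hk₀⟩ := hc (ε / (K + 1)) (by positivity)
      refine ⟨k₀, fun k hk l hl => ?_⟩
      have e1 := hk₀ k hk l hl
      rw [Real.dist_eq, lt_div_iff₀ (by positivity)] at e1
      have e2 := hgL (u k) (hu0 k) (huτ k) (u l) (hu0 l) (huτ l)
      have e3 := abs_nonneg (u k - u l)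
      nlinarith
    obtain ⟨B, hB⟩ := cauchySeq_tendsto_of_complete hcau
    have hgB : ∀ s, 0 ≤ s → s < τ → dist (g s) B ≤ K * |s - τ| := by
      intro s hs hsτ
      have e1 : Tendsto (fun k => dist (g s) (g (u k))) atTop (𝓝 (dist (g s) B)) :=
        tendsto_const_nhds.dist hB
      have e2 : Tendsto (fun k => K * |s - u k|) atTop (𝓝 (K * |s - τ|)) :=
        ((tendsto_const_nhds.sub hulim).abs).const_mul K
      exact le_of_tendsto_of_tendsto' e1 e2 fun k => hgL s hs hsτ _ (hu0 k) (huτ k)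
    have hfB : f B = σ τ := by
      have e1 : Tendsto (fun k => f (g (u k))) atTop (𝓝 (f B)) :=
        (hf.isLocalHomeomorph.continuous.tendsto B).comp hB
      have e2 : Tendsto (fun k => f (g (u k))) atTop (𝓝 (σ τ)) := by
        rw [tendsto_iff_dist_tendsto_zero]
        have e3 : Tendsto (fun k => K * |u k - τ|) atTop (𝓝 0) := by
          have e4 : Tendsto (fun k => u k - τ) atTop (𝓝 (τ - τ)) := hulim.sub tendsto_const_nhds
          have := (e4.abs).const_mul K
          simpa using this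
        refine squeeze_zero (fun k => dist_nonneg) (fun k => ?_) e3
        have e4 : f (g (u k)) = σ (u k) := (hG _ (huτ k)).2.1 _ ⟨hu0 k, le_rfl⟩
        rw [e4]
        exact hσ _ ⟨hu0 k, ((huτ k).le.trans hτ1)⟩ _ ⟨hτ0, hτ1⟩
      exact tendsto_nhds_unique e1 e2
    refine ⟨fun s => if s < τ then g s else B, ?_, ?_, ?_⟩
    · simp only [hτpos, if_true]
      exact (hG 0 hτpos).1
    · intro s hs
      by_cases hsτ : s < τ
      · simp only [hsτ, if_true]
        exact (hG s hsτ).2.1 s ⟨hs.1, le_rfl⟩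
      · simp only [hsτ, if_false]
        rw [hfB, le_antisymm hs.2 (not_lt.1 hsτ)]
    · intro s hs s' hs'
      by_cases hsτ : s < τ
      · by_cases hsτ' : s' < τ
        · simp only [hsτ, hsτ', if_true]
          exact hgL s hs.1 hsτ s' hs'.1 hsτ'
        · simp only [hsτ, hsτ', if_true, if_false]
          have : s' = τ := le_antisymm hs'.2 (not_lt.1 hsτ')
          rw [this]
          exact hgB s hs.1 hsτ
      · have hsτ2 : s = τ := le_antisymm hs.2 (not_lt.1 hsτ)
        by_cases hsτ' : s' < τ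
        · simp only [hsτ, hsτ', if_true, if_false]
          rw [hsτ2, dist_comm, abs_sub_comm]
          exact hgB s' hs'.1 hsτ'
        · simp only [hsτ, hsτ', if_false, dist_self]
          positivity
  rcases hτ1.eq_or_lt with h | h
  · rw [h] at hτT
    exact hτT
  · exfalso
    obtain ⟨g, hg⟩ := hτT
    obtain ⟨t', ht', ht'1, g', hg'⟩ := hg.extend hf hK hσ hτ0 h
    have : t' ∈ T := ⟨⟨hτ0.trans ht'.le, ht'1⟩, g', hg'⟩
    exact absurd (le_csSup hTb this) (not_le.2 ht')

/-- Every point has a neighbourhood which contracts to it along Lipschitz curves. -/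
def LipContr (N : Type*) [MetricSpace N] : Prop :=
  ∀ q : N, ∃ U : Set N, IsOpen U ∧ q ∈ U ∧ ∃ c : ℝ → N → N,
    ContinuousOn (fun p : ℝ × N => c p.1 p.2) (Icc 0 1 ×ˢ U) ∧
    (∀ b ∈ U, c 0 b = q) ∧ (∀ b ∈ U, c 1 b = b) ∧
    ∀ b ∈ U, ∃ K : ℝ, 0 ≤ K ∧ ∀ s ∈ Icc (0 : ℝ) 1, ∀ s' ∈ Icc (0 : ℝ) 1,
      dist (c s b) (c s' b) ≤ K * |s - s'|

/-- Local form of the covering theorem. -/
theorem LocIso.evenly [CompleteSpace M] (hf : LocIso f) (hN : LipContr N) (q : N) :
    ∃ U : Set N, IsOpen U ∧ q ∈ U ∧ (f ⁻¹' {q} = ∅ → f ⁻¹' U = ∅) ∧ IsEvenlyCovered f q (f ⁻¹' {q}) := by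
  classical
  obtain ⟨U, hUo, hqU, c, hc, hc0, hc1, hcK⟩ := hN q
  have hlh := hf.isLocalHomeomorph
  have hsep : IsSeparatedMap f := T2Space.isSeparatedMap f
  -- forward lifts
  have hlift : ∀ (A : f ⁻¹' {q}) (b : U), ∃ g : ℝ → M, ∃ K, IsLift f (fun t => c t b) K A 1 g := by
    intro A b
    obtain ⟨K, hK, hcK⟩ := hcK b b.2
    obtain ⟨g, hg⟩ := exists_isLift hf hK hcK (A := (A : M)) (by rw [hc0 b b.2]; exact A.2)
    exact ⟨g, K, hg⟩
  choose G K hG using hlift
  set s : f ⁻¹' {q} → U → M := fun A b => G A b 1 with hs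
  have hfs : ∀ A b, f (s A b) = b := by
    intro A b
    have := (hG A b).2.1 1 ⟨zero_le_one, le_rfl⟩
    simp only [hc1 b b.2] at this
    exact this
  have hscont : ∀ A, Continuous (s A) := by
    intro A
    let F : C(unitInterval × U, N) := ⟨fun p => c p.1 p.2, by
      have : Continuous (fun p : unitInterval × U => ((p.1 : ℝ), (p.2 : N))) := by fun_prop
      exact hc.comp_continuous this fun p => ⟨p.1.2, p.2.2⟩⟩
    have h := hlh.continuous_lift hsep F (g := fun p => G A p.2 p.1) ?_ ?_ ?_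
    · exact h.comp (Continuous.prodMk_right (1 : unitInterval))
    · ext p
      exact (hG A p.2).2.1 p.1 p.1.2
    · have : (fun b : U => G A b (0 : unitInterval)) = fun _ => (A : M) := by
        ext b
        exact (hG A b).1
      simp only
      rw [this]
      exact continuous_const
    · intro b
      exact (hG A b).continuousOn.comp_continuous continuous_subtype_val fun t => t.2
  have hsopen : ∀ A, IsOpenMap (s A) := by
    intro A
    have h1 : Topology.IsOpenEmbedding (f ∘ s A) := by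
      have : f ∘ s A = (Subtype.val : U → N) := by
        ext b
        exact hfs A b
      rw [this]
      exact hUo.isOpenEmbedding_subtypeVal
    exact (hlh.isOpenEmbedding_of_comp h1 (hscont A)).isOpenMap
  -- every point over `U` is on a sheet
  have hexh : ∀ B : M, (hB : f B ∈ U) → ∃ A : f ⁻¹' {q}, s A ⟨f B, hB⟩ = B := by
    intro B hB
    obtain ⟨K', hK', hcK'⟩ := hcK (f B) hB
    obtain ⟨g, hg⟩ := exists_isLift hf (σ := fun t => c (1 - t) (f B)) hK' (by
      intro u hu v hv
      have := hcK' (1 - u) ⟨by linarith [hu.2], by linarith [hu.1]⟩ (1 - v)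
        ⟨by linarith [hv.2], by linarith [hv.1]⟩
      rw [show 1 - u - (1 - v) = -(u - v) by ring, abs_neg] at this
      exact this) (A := B) (by simp only [sub_zero]; rw [hc1 _ hB])
    have hA : f (g 1) = q := by
      rw [hg.2.1 1 ⟨zero_le_one, le_rfl⟩]
      simp only [sub_self]
      exact hc0 _ hB
    refine ⟨⟨g 1, hA⟩, ?_⟩
    have hg' : IsLift f (fun t => c t (f B)) K' (g 1) 1 (fun t => g (1 - t)) := by
      refine ⟨by simp, ?_, ?_⟩
      · intro u hu
        have := hg.2.1 (1 - u) ⟨by linarith [hu.2], by linarith [hu.1]⟩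
        simp only [sub_sub_cancel] at this
        exact this
      · intro u hu v hv
        have := hg.2.2 (1 - u) ⟨by linarith [hu.2], by linarith [hu.1]⟩ (1 - v)
          ⟨by linarith [hv.2], by linarith [hv.1]⟩
        rw [show 1 - u - (1 - v) = -(u - v) by ring, abs_neg] at this
        exact this
    have h := (hG ⟨g 1, hA⟩ ⟨f B, hB⟩).eqOn hf zero_le_one hg' (right_mem_Icc.2 zero_le_one)
    simp only [hs]
    rw [h]
    simp only [sub_self]
    exact hg.1
  have hinj : ∀ A A' : f ⁻¹' {q}, ∀ b b' : U, s A b = s A' b' → A = A' := by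
    intro A A' b b' h
    have hb : b = b' := by
      have := congrArg f h
      rw [hfs, hfs] at this
      exact Subtype.ext this
    subst hb
    have hcont : IsPreconnected (Icc (0 : ℝ) 1) := isPreconnected_Icc
    have h1 : EqOn (G A b) (G A' b) (Icc 0 1) := by
      refine hsep.eqOn_of_comp_eqOn hlh.isLocallyInjective hcont (hG A b).continuousOn
        (hG A' b).continuousOn ?_ (right_mem_Icc.2 zero_le_one) h
      intro u hu
      simp only [comp_apply]
      rw [(hG A b).2.1 u hu, (hG A' b).2.1 u hu]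
    have h2 := h1 (left_mem_Icc.2 zero_le_one)
    rw [(hG A b).1, (hG A' b).1] at h2
    exact Subtype.ext h2
  have hempty : f ⁻¹' {q} = ∅ → f ⁻¹' U = ∅ := by
    intro he
    rw [Set.eq_empty_iff_forall_notMem]
    intro B hB
    obtain ⟨A, -⟩ := hexh B hB
    exact Set.eq_empty_iff_forall_notMem.1 he A.1 A.2
  refine ⟨U, hUo, hqU, hempty, ?_⟩
  have hdisc : DiscreteTopology (f ⁻¹' {q}) := by
    refine (IsDiscrete.of_openPartialHomeomorph f subset_rfl fun e _ => ?_).1
    obtain ⟨φ, hφ, hφf⟩ := hlh e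
    exact ⟨φ, hφ, hφf.symm⟩
  rcases isEmpty_or_nonempty (f ⁻¹' {q}) with hemp | hne
  · apply IsEvenlyCovered.of_preimage_eq_empty _ (hUo.mem_nhds hqU)
    exact hempty (Set.isEmpty_coe_sort.1 hemp)
  · have hne' : Nonempty (N → M) := ⟨fun _ => (Classical.arbitrary (f ⁻¹' {q})).1⟩
    let t := IsOpen.trivializationDiscrete (f := f) (fun A : f ⁻¹' {q} => range (s A)) U hUo
      (by
        intro A W hWU
        have him : f ⁻¹' W ∩ range (s A) = s A '' (Subtype.val ⁻¹' W) := by
          ext x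
          constructor
          · rintro ⟨hx, b, rfl⟩
            refine ⟨b, ?_, rfl⟩
            have := hfs A b
            simp only [mem_preimage] at hx ⊢
            rwa [← this]
          · rintro ⟨b, hb, rfl⟩
            refine ⟨?_, b, rfl⟩
            simp only [mem_preimage] at hb ⊢
            rwa [hfs A b]
        constructor
        · intro hW
          rw [him]
          exact hsopen A _ (hW.preimage continuous_subtype_val)
        · intro h
          have h2 := hlh.isOpenMap _ h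
          have h3 : f '' (f ⁻¹' W ∩ range (s A)) = W := by
            ext y
            constructor
            · rintro ⟨x, ⟨hx, -⟩, rfl⟩
              exact hx
            · intro hy
              refine ⟨s A ⟨y, hWU hy⟩, ⟨?_, mem_range_self _⟩, hfs A _⟩
              simp only [mem_preimage]
              rw [hfs]
              exact hy
          rwa [h3] at h2)
      (by
        rintro A _ ⟨b, rfl⟩ _ ⟨b', rfl⟩ h
        rw [hfs, hfs] at h
        rw [Subtype.ext h])
      (by
        intro A y hy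
        exact ⟨s A ⟨y, hy⟩, mem_range_self _, hfs A _⟩)
      (by
        intro A A' hAA'
        rw [Function.onFun, Set.disjoint_left]
        rintro _ ⟨b, rfl⟩ ⟨b', hb'⟩
        exact hAA' (hinj A' A b' b hb').symm)
      (by
        intro B hB
        obtain ⟨A, hA⟩ := hexh B hB
        exact mem_iUnion.2 ⟨A, ⟨_, hA⟩⟩)
    exact IsEvenlyCovered.of_trivialization (t := t) hqU

/-- **Metric covering theorem.** -/
theorem LocIso.isCoveringMap [CompleteSpace M] (hf : LocIso f) (hN : LipContr N) :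
    IsCoveringMap f := by
  intro q
  obtain ⟨U, -, -, -, h⟩ := hf.evenly hN q
  exact h

theorem LocIso.surjective [CompleteSpace M] [Nonempty M] [PreconnectedSpace N] (hf : LocIso f)
    (hN : LipContr N) : Surjective f := by
  rw [← range_eq_univ]
  apply IsClopen.eq_univ ?_ (range_nonempty f)
  refine ⟨?_, hf.isLocalHomeomorph.isOpenMap.isOpen_range⟩
  rw [← isOpen_compl_iff, isOpen_iff_mem_nhds]
  intro q hq
  obtain ⟨U, hUo, hqU, h, -⟩ := hf.evenly hN q
  have h1 : f ⁻¹' {q} = ∅ := by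
    rw [Set.eq_empty_iff_forall_notMem]
    intro x hx
    exact hq ⟨x, hx⟩
  filter_upwards [hUo.mem_nhds hqU] with y hy
  rintro ⟨x, rfl⟩
  exact Set.eq_empty_iff_forall_notMem.1 (h h1) x hy

end Amb
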