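import Mathlib
import Pool.Agent.Amb.Statement
import Pool.Agent.Amb.InvFun
import Pool.Agent.Amb.MetCover

/-!
# Isometric immersions between complete Riemannian manifolds of the same dimension are coverings
-/

set_option maxSynthPendingDepth 3

open Set Bundle Manifold Function Filter
open scoped ContDiff Topology ENNReal NNReal

noncomputable section

namespace Amb

variable {n : ℕ}
  {M : Type*} [MetricSpace M] [ChartedSpace (EE n) M]
  [IsManifold (𝓡 n) ∞ M] [RiemannianBundle (fun x : M => TangentSpace (𝓡 n) x)]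
  [IsContMDiffRiemannianBundle (𝓡 n) ∞ (EE n) (fun x : M => TangentSpace (𝓡 n) x)]
  [IsRiemannianManifold (𝓡 n) M]
  {N : Type*} [MetricSpace N] [ChartedSpace (EE n) N]
  [IsManifold (𝓡 n) ∞ N] [RiemannianBundle (fun x : N => TangentSpace (𝓡 n) x)]
  [IsContMDiffRiemannianBundle (𝓡 n) ∞ (EE n) (fun x : N => TangentSpace (𝓡 n) x)]
  [IsRiemannianManifold (𝓡 n) N]

section

omit [IsManifold (𝓡 n) ∞ M]
  [IsContMDiffRiemannianBundle (𝓡 n) ∞ (EE n) (fun x : M => TangentSpace (𝓡 n) x)]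
  [IsRiemannianManifold (𝓡 n) M] [IsManifold (𝓡 n) ∞ N]
  [IsContMDiffRiemannianBundle (𝓡 n) ∞ (EE n) (fun x : N => TangentSpace (𝓡 n) x)]
  [IsRiemannianManifold (𝓡 n) N] in
/-- An isometric map preserves the length of curves. -/
theorem pathELength_comp_eq {f : M → N} {S : Set M} (hS : IsOpen S)
    (hf : ContMDiffOn (𝓡 n) (𝓡 n) 1 f S)
    (hiso : ∀ x ∈ S, ∀ v : TangentSpace (𝓡 n) x, ‖mfderiv (𝓡 n) (𝓡 n) f x v‖ = ‖v‖)
    {γ : ℝ → M} {a b : ℝ} (hab : a ≤ b) (hγ : ContMDiffOn 𝓘(ℝ, ℝ) (𝓡 n) 1 γ (Icc a b))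
    (hγS : ∀ t ∈ Icc a b, γ t ∈ S) :
    pathELength (𝓡 n) (f ∘ γ) a b = pathELength (𝓡 n) γ a b := by
  rcases hab.eq_or_lt with rfl | hab
  · simp
  simp only [pathELength_eq_lintegral_mfderivWithin_Icc]
  apply MeasureTheory.setLIntegral_congr_fun measurableSet_Icc (fun t ht => ?_)
  have hfm : MDifferentiableAt (𝓡 n) (𝓡 n) f (γ t) :=
    ((hf _ (hγS t ht)).contMDiffAt (hS.mem_nhds (hγS t ht))).mdifferentiableAt one_ne_zero
  have : mfderivWithin 𝓘(ℝ, ℝ) (𝓡 n) (f ∘ γ) (Icc a b) t =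
      (mfderiv (𝓡 n) (𝓡 n) f (γ t)) ∘L (mfderivWithin 𝓘(ℝ, ℝ) (𝓡 n) γ (Icc a b) t) := by
    apply mfderiv_comp_mfderivWithin
    · exact hfm
    · exact hγ.mdifferentiableOn one_ne_zero t ht
    · rw [uniqueMDiffWithinAt_iff_uniqueDiffWithinAt]
      exact uniqueDiffOn_Icc hab t ht
  have h2 : mfderivWithin 𝓘(ℝ, ℝ) (𝓡 n) (f ∘ γ) (Icc a b) t 1 =
      (mfderiv (𝓡 n) (𝓡 n) f (γ t)) (mfderivWithin 𝓘(ℝ, ℝ) (𝓡 n) γ (Icc a b) t 1) :=
    congr($this 1)
  simp only [h2]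
  rw [enorm_eq_iff_norm_eq]
  exact hiso _ (hγS t ht) _

end

set_option linter.unusedSectionVars false

/-- The norm on the tangent space only depends on the base point. -/
theorem norm_tangent_congr {x y : M} (h : x = y) (w : EE n) :
    ‖(show TangentSpace (𝓡 n) x from w)‖ = ‖(show TangentSpace (𝓡 n) y from w)‖ := by
  subst h
  rfl

section

omit [IsManifold (𝓡 n) ∞ M]
  [IsContMDiffRiemannianBundle (𝓡 n) ∞ (EE n) (fun x : M => TangentSpace (𝓡 n) x)] in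
/-- Points on a curve are at distance at most its length. -/
theorem edist_le_pathELength {γ : ℝ → M} {a b s t : ℝ}
    (hγ : ContMDiffOn 𝓘(ℝ, ℝ) (𝓡 n) 1 γ (Icc a b)) (has : a ≤ s) (hst : s ≤ t) (htb : t ≤ b) :
    edist (γ s) (γ t) ≤ pathELength (𝓡 n) γ s t := by
  rw [IsRiemannianManifold.out (I := 𝓡 n)]
  exact riemannianEDist_le_pathELength (hγ.mono (Icc_subset_Icc has htb)) rfl rfl hst

omit [IsManifold (𝓡 n) ∞ M]
  [IsContMDiffRiemannianBundle (𝓡 n) ∞ (EE n) (fun x : M => TangentSpace (𝓡 n) x)] in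
/-- Existence of almost minimising curves. -/
theorem exists_path_lt {x y : M} {r : ℝ} (h : dist x y < r) :
    ∃ γ : ℝ → M, γ 0 = x ∧ γ 1 = y ∧ ContMDiffOn 𝓘(ℝ, ℝ) (𝓡 n) 1 γ (Icc 0 1) ∧
      pathELength (𝓡 n) γ 0 1 < ENNReal.ofReal r := by
  apply exists_lt_of_riemannianEDist_lt
  rw [← IsRiemannianManifold.out (I := 𝓡 n), edist_dist]
  exact (ENNReal.ofReal_lt_ofReal_iff_of_nonneg dist_nonneg).2 h

/-- Isometric maps are 1-Lipschitz. -/
theorem dist_map_le {f : M → N} (hf : ContMDiff (𝓡 n) (𝓡 n) 1 f)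
    (hiso : ∀ x, ∀ v : TangentSpace (𝓡 n) x, ‖mfderiv (𝓡 n) (𝓡 n) f x v‖ = ‖v‖) (a b : M) :
    dist (f a) (f b) ≤ dist a b := by
  apply le_of_forall_gt
  intro r hr
  obtain ⟨γ, h0, h1, hγ, hl⟩ := exists_path_lt (n := n) hr
  have hr0 : 0 ≤ r := dist_nonneg.trans hr.le
  have hfγ : ContMDiffOn 𝓘(ℝ, ℝ) (𝓡 n) 1 (f ∘ γ) (Icc 0 1) := hf.comp_contMDiffOn hγ
  have h2 := edist_le_pathELength hfγ le_rfl zero_le_one le_rfl
  rw [pathELength_comp_eq isOpen_univ hf.contMDiffOn (fun x _ => hiso x) zero_le_one hγ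
    (fun t _ => mem_univ _)] at h2
  have h3 : edist (f a) (f b) < ENNReal.ofReal r := by
    rw [← h0, ← h1]
    exact h2.trans_lt hl
  rw [edist_dist] at h3
  exact (ENNReal.ofReal_lt_ofReal_iff_of_nonneg dist_nonneg).1 h3

/-- Isometric maps (in equal dimensions) have isometric local sections on metric balls. -/
theorem exists_section {f : M → N} (hf : ContMDiff (𝓡 n) (𝓡 n) ∞ f)
    (hiso : ∀ x, ∀ v : TangentSpace (𝓡 n) x, ‖mfderiv (𝓡 n) (𝓡 n) f x v‖ = ‖v‖) (A : M) :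
    ∃ r > 0, ∃ s : N → M, s (f A) = A ∧ (∀ y ∈ Metric.ball (f A) r, f (s y) = y) ∧
      (∀ x ∈ Metric.ball A r, s (f x) = x) ∧
      (∀ y ∈ Metric.ball (f A) r, ∀ z ∈ Metric.ball (f A) r, dist (s y) (s z) = dist y z) ∧
      ContMDiffOn (𝓡 n) (𝓡 n) ∞ s (Metric.ball (f A) r) := by
  have hf1 : ContMDiff (𝓡 n) (𝓡 n) 1 f := hf.of_le (by simp)
  have hinj : ∀ y ∈ (univ : Set M), Injective (mfderiv (𝓡 n) (𝓡 n) f y) := by
    intro y _
    rw [injective_iff_map_eq_zero]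
    intro v hv
    rw [← norm_eq_zero, ← hiso y v, hv, norm_zero]
  obtain ⟨φ, hA, -, hφf, hφs⟩ := exists_local_inverse isOpen_univ (mem_univ A)
    hf.contMDiffOn hinj
  have hfA : f A ∈ φ.target := by
    rw [← hφf hA]
    exact φ.map_source hA
  obtain ⟨r₁, hr₁, hb₁⟩ := Metric.isOpen_iff.1 φ.open_source A hA
  obtain ⟨r₂, hr₂, hb₂⟩ := Metric.isOpen_iff.1 φ.open_target (f A) hfA
  set r := min r₁ (r₂ / 3) with hr
  have hr0 : 0 < r := lt_min hr₁ (by positivity)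
  have hrr₁ : r ≤ r₁ := min_le_left _ _
  have hrr₂ : r ≤ r₂ / 3 := min_le_right _ _
  have hfs : ∀ y ∈ φ.target, f (φ.symm y) = y := by
    intro y hy
    rw [← hφf (φ.map_target hy), φ.right_inv hy]
  have hsf : ∀ x ∈ φ.source, φ.symm (f x) = x := by
    intro x hx
    rw [← hφf hx, φ.left_inv hx]
  have hball : Metric.ball (f A) r ⊆ φ.target :=
    (Metric.ball_subset_ball (by linarith)).trans hb₂
  -- derivative of the section
  have hiso' : ∀ y ∈ φ.target, ∀ v : TangentSpace (𝓡 n) y,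
      ‖mfderiv (𝓡 n) (𝓡 n) φ.symm y v‖ = ‖v‖ := by
    intro y hy v
    have d1 : MDifferentiableAt (𝓡 n) (𝓡 n) φ.symm y :=
      ((hφs y hy).contMDiffAt (φ.open_target.mem_nhds hy)).mdifferentiableAt (by simp)
    have d2 : MDifferentiableAt (𝓡 n) (𝓡 n) f (φ.symm y) := hf1.mdifferentiableAt one_ne_zero
    have e1 : mfderiv (𝓡 n) (𝓡 n) (f ∘ φ.symm) y =
        (mfderiv (𝓡 n) (𝓡 n) f (φ.symm y)).comp (mfderiv (𝓡 n) (𝓡 n) φ.symm y) :=
      mfderiv_comp y d2 d1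
    have e2 : mfderiv (𝓡 n) (𝓡 n) (f ∘ φ.symm) y = mfderiv (𝓡 n) (𝓡 n) (id : N → N) y := by
      apply Filter.EventuallyEq.mfderiv_eq
      filter_upwards [φ.open_target.mem_nhds hy] with z hz using hfs z hz
    have e3 : (mfderiv (𝓡 n) (𝓡 n) f (φ.symm y)) (mfderiv (𝓡 n) (𝓡 n) φ.symm y v) =
        (mfderiv (𝓡 n) (𝓡 n) (f ∘ φ.symm) y) v := by
      rw [e1]; rfl
    rw [← hiso, e3, e2, mfderiv_id]
    exact norm_tangent_congr (hfs y hy) v
  have hexit : ∀ y ∈ Metric.ball (f A) r, ∀ z ∈ Metric.ball (f A) r,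
      dist (φ.symm y) (φ.symm z) ≤ dist y z := by
    intro y hy z hz
    apply le_of_forall_gt
    intro c hc
    have hyz : dist y z < 2 * r := by
      have := dist_triangle_right y z (f A)
      rw [Metric.mem_ball] at hy hz
      linarith
    set c' := min c (2 * r) with hc'
    have hc'1 : dist y z < c' := lt_min hc hyz
    obtain ⟨γ, h0, h1, hγ, hl⟩ := exists_path_lt (n := n) hc'1
    have hc'0 : 0 < c' := dist_nonneg.trans_lt hc'1
    have hγt : ∀ t ∈ Icc (0 : ℝ) 1, γ t ∈ φ.target := by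
      intro t ht
      apply hb₂
      rw [Metric.mem_ball]
      have e1 : edist (γ 0) (γ t) < ENNReal.ofReal c' :=
        ((edist_le_pathELength hγ le_rfl ht.1 ht.2).trans
          (pathELength_mono le_rfl ht.2)).trans_lt hl
      rw [h0, edist_dist, ENNReal.ofReal_lt_ofReal_iff_of_nonneg dist_nonneg] at e1
      have e2 : c' ≤ 2 * r := min_le_right _ _
      rw [Metric.mem_ball] at hy
      have e3 := dist_triangle_left (γ t) (f A) y
      linarith
    have hsγ : ContMDiffOn 𝓘(ℝ, ℝ) (𝓡 n) 1 (φ.symm ∘ γ) (Icc 0 1) :=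
      (hφs.of_le (by simp)).comp hγ hγt
    have h2 := edist_le_pathELength hsγ le_rfl zero_le_one le_rfl
    rw [pathELength_comp_eq φ.open_target (hφs.of_le (by simp)) hiso' zero_le_one hγ hγt] at h2
    have h3 : edist (φ.symm y) (φ.symm z) < ENNReal.ofReal c' := by
      have e4 := h2.trans_lt hl
      simp only [comp_apply, h0, h1] at e4
      exact e4
    rw [edist_dist, ENNReal.ofReal_lt_ofReal_iff_of_nonneg dist_nonneg] at h3
    exact h3.trans_le (min_le_left _ _)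
  refine ⟨r, hr0, φ.symm, hsf A hA, fun y hy => hfs y (hball hy), fun x hx =>
    hsf x (hb₁ (Metric.ball_subset_ball hrr₁ hx)), ?_, hφs.mono hball⟩
  intro y hy z hz
  apply le_antisymm (hexit y hy z hz)
  have := dist_map_le hf1 hiso (φ.symm y) (φ.symm z)
  rwa [hfs y (hball hy), hfs z (hball hz)] at this

/-- Isometric maps (in equal dimensions) are metric local isometries. -/
theorem locIso_of_isometric {f : M → N} (hf : ContMDiff (𝓡 n) (𝓡 n) ∞ f)
    (hiso : ∀ x, ∀ v : TangentSpace (𝓡 n) x, ‖mfderiv (𝓡 n) (𝓡 n) f x v‖ = ‖v‖) :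
    LocIso f := by
  intro A
  obtain ⟨r, hr, s, h1, h2, h3, h4, -⟩ := exists_section hf hiso A
  refine ⟨r, hr, s, h1, h2, fun x hx => ⟨?_, h3 x hx⟩, h4⟩
  rw [Metric.mem_ball] at hx ⊢
  exact (dist_map_le (hf.of_le (by simp)) hiso x A).trans_lt hx

end

end Amb
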