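import Mathlib
import Pool.Agent.Amb.Statement
import Pool.Agent.Amb.MetCover
import Pool.Agent.Amb.Cover

/-!
# Charts of a Riemannian manifold: inverse charts are locally Lipschitz
-/

open Set Bundle Manifold Function Filter MeasureTheory Metric
open scoped ContDiff Topology ENNReal NNReal

noncomputable section

namespace Amb

variable {n : ℕ}
  {M : Type*} [MetricSpace M] [ChartedSpace (EE n) M]
  [IsManifold (𝓡 n) ∞ M] [RiemannianBundle (fun x : M => TangentSpace (𝓡 n) x)]
  [IsContMDiffRiemannianBundle (𝓡 n) ∞ (EE n) (fun x : M => TangentSpace (𝓡 n) x)]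
  [IsRiemannianManifold (𝓡 n) M]

omit [IsRiemannianManifold (𝓡 n) M] in
variable (n M) in
/-- A smooth Riemannian metric is continuous. -/
theorem isContinuousRiemannianBundle :
    IsContinuousRiemannianBundle (EE n) (fun x : M => TangentSpace (𝓡 n) x) := by
  obtain ⟨g, hg, h⟩ := IsContMDiffRiemannianBundle.exists_contMDiff (IB := 𝓡 n) (n := ∞)
    (F := EE n) (E := fun x : M => TangentSpace (𝓡 n) x)
  exact ⟨g, hg.continuous, h⟩

attribute [local instance] normedAddCommGroupTangentSpaceVectorSpace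
attribute [local instance] normedSpaceTangentSpaceVectorSpace

set_option backward.isDefEq.respectTransparency false in
theorem exists_lipschitz_chart_symm (x : M) : ∃ C > (0 : ℝ≥0), ∃ r > (0 : ℝ),
    ball (chartAt (EE n) x x) r ⊆ (chartAt (EE n) x).target ∧
    ∀ y ∈ ball (chartAt (EE n) x x) r, ∀ z ∈ ball (chartAt (EE n) x x) r,
      edist ((chartAt (EE n) x).symm y) ((chartAt (EE n) x).symm z) ≤ C * edist y z := by
  have := isContinuousRiemannianBundle n M
  rcases eventually_enorm_mfderivWithin_symm_extChartAt_lt (𝓡 n) x with ⟨C, C_pos, hC⟩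
  obtain ⟨r, r_pos, hr⟩ : ∃ r > 0,
      ball (extChartAt (𝓡 n) x x) r ∩ range (𝓡 n) ⊆ (extChartAt (𝓡 n) x).target ∩
        {y | ‖mfderivWithin 𝓘(ℝ, EE n) (𝓡 n) (extChartAt (𝓡 n) x).symm (range (𝓡 n)) y‖ₑ < C} :=
    mem_nhdsWithin_iff.1 (inter_mem (extChartAt_target_mem_nhdsWithin x) hC)
  have hr' : ball (extChartAt (𝓡 n) x x) r ⊆ (extChartAt (𝓡 n) x).target ∩
        {y | ‖mfderivWithin 𝓘(ℝ, EE n) (𝓡 n) (extChartAt (𝓡 n) x).symm (range (𝓡 n)) y‖ₑ < C} := by
    intro y hy
    exact hr ⟨hy, by simp⟩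
  refine ⟨C, C_pos, r, r_pos, ?_, ?_⟩
  · intro y hy
    have := (hr' (by simpa using hy)).1
    simpa using this
  intro y hy z hz
  have hy' : y ∈ ball (extChartAt (𝓡 n) x x) r := by simpa using hy
  have hz' : z ∈ ball (extChartAt (𝓡 n) x x) r := by simpa using hz
  let η := ContinuousAffineMap.lineMap (R := ℝ) y z
  set γ := (extChartAt (𝓡 n) x).symm ∘ η with hγ
  have hη : Icc 0 1 ⊆ ⇑η ⁻¹' ((extChartAt (𝓡 n) x).target ∩
        {y | ‖mfderivWithin 𝓘(ℝ, EE n) (𝓡 n) (extChartAt (𝓡 n) x).symm (range (𝓡 n)) y‖ₑ < C}) := by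
    simp only [← image_subset_iff, ContinuousAffineMap.coe_lineMap_eq,
     ← segment_eq_image_lineMap, η]
    apply Subset.trans _ hr'
    exact (convex_ball _ _).segment_subset hy' hz'
  simp only [preimage_inter, subset_inter_iff] at hη
  have η_smooth : ContMDiffOn 𝓘(ℝ, ℝ) 𝓘(ℝ, EE n) 1 η (Icc 0 1) := by
    apply ContMDiff.contMDiffOn
    rw [contMDiff_iff_contDiff]
    exact ContinuousAffineMap.contDiff _
  have h1 : riemannianEDist (𝓡 n) ((extChartAt (𝓡 n) x).symm y) ((extChartAt (𝓡 n) x).symm z) ≤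
      pathELength (𝓡 n) γ 0 1 := by
    apply riemannianEDist_le_pathELength _ _ _ zero_le_one
    · exact (contMDiffOn_extChartAt_symm x).comp η_smooth hη.1
    · simp [γ, η, ContinuousAffineMap.coe_lineMap_eq]
    · simp [γ, η, ContinuousAffineMap.coe_lineMap_eq]
  rw [IsRiemannianManifold.out (I := 𝓡 n)]
  have h2 : riemannianEDist (𝓡 n) ((chartAt (EE n) x).symm y) ((chartAt (EE n) x).symm z) =
    riemannianEDist (𝓡 n) ((extChartAt (𝓡 n) x).symm y) ((extChartAt (𝓡 n) x).symm z) := by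
    simp
  rw [h2]
  apply h1.trans
  rw [← lintegral_fderiv_lineMap_eq_edist, pathELength_eq_lintegral_mfderivWithin_Icc,
    ← lintegral_const_mul' _ _ ENNReal.coe_ne_top]
  apply setLIntegral_mono' measurableSet_Icc (fun t ht ↦ ?_)
  have : mfderivWithin 𝓘(ℝ, ℝ) (𝓡 n) γ (Icc 0 1) t =
      (mfderivWithin 𝓘(ℝ, EE n) (𝓡 n) (extChartAt (𝓡 n) x).symm (range (𝓡 n)) (η t)) ∘L
        (mfderivWithin 𝓘(ℝ, ℝ) 𝓘(ℝ, EE n) η (Icc 0 1) t) := by
    apply mfderivWithin_comp
    · exact mdifferentiableWithinAt_extChartAt_symm (hη.1 ht)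
    · exact η_smooth.mdifferentiableOn one_ne_zero t ht
    · exact hη.1.trans (preimage_mono (extChartAt_target_subset_range x))
    · rw [uniqueMDiffWithinAt_iff_uniqueDiffWithinAt]
      exact uniqueDiffOn_Icc zero_lt_one t ht
  have : mfderivWithin 𝓘(ℝ, ℝ) (𝓡 n) γ (Icc 0 1) t 1 =
      (mfderivWithin 𝓘(ℝ, EE n) (𝓡 n) (extChartAt (𝓡 n) x).symm (range (𝓡 n)) (η t))
        (mfderivWithin 𝓘(ℝ, ℝ) 𝓘(ℝ, EE n) η (Icc 0 1) t 1) :=
    congr($this 1)
  rw [this]
  apply (ContinuousLinearMap.le_opENorm _ _).trans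
  gcongr
  · exact (hη.2 ht).le
  · simp only [mfderivWithin_eq_fderivWithin]
    exact le_of_eq rfl

/-- Riemannian manifolds are locally contractible along Lipschitz curves. -/
theorem lipContr (n : ℕ)
    (M : Type*) [MetricSpace M] [ChartedSpace (EE n) M]
    [IsManifold (𝓡 n) ∞ M] [RiemannianBundle (fun x : M => TangentSpace (𝓡 n) x)]
    [IsContMDiffRiemannianBundle (𝓡 n) ∞ (EE n) (fun x : M => TangentSpace (𝓡 n) x)]
    [IsRiemannianManifold (𝓡 n) M] : LipContr M := by
  intro q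
  obtain ⟨C, hC, r, hr, htar, hlip⟩ := exists_lipschitz_chart_symm (n := n) q
  set φ := chartAt (EE n) q with hφ
  set U : Set M := φ.source ∩ φ ⁻¹' (ball (φ q) r) with hU
  have hUo : IsOpen U := φ.isOpen_inter_preimage isOpen_ball
  have hseg : ∀ b ∈ U, ∀ t ∈ Icc (0 : ℝ) 1, φ q + t • (φ b - φ q) ∈ ball (φ q) r := by
    intro b hb t ht
    have h1 : φ b ∈ ball (φ q) r := hb.2
    rw [mem_ball, dist_eq_norm] at h1 ⊢
    rw [add_sub_cancel_left, norm_smul, Real.norm_of_nonneg ht.1]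
    have := norm_nonneg (φ b - φ q)
    nlinarith [ht.2]
  refine ⟨U, hUo, ⟨mem_chart_source _ q, mem_ball_self hr⟩,
    fun t b => φ.symm (φ q + t • (φ b - φ q)), ?_, ?_, ?_, ?_⟩
  · have h1 : ContinuousOn (fun p : ℝ × M => φ q + p.1 • (φ p.2 - φ q)) (Icc 0 1 ×ˢ U) := by
      have h2 : ContinuousOn (fun p : ℝ × M => φ p.2) (Icc 0 1 ×ˢ U) :=
        (φ.continuousOn.mono inter_subset_left).comp continuous_snd.continuousOn
          fun p hp => hp.2
      exact continuousOn_const.add (continuous_fst.continuousOn.smul (h2.sub continuousOn_const))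
    exact φ.continuousOn_symm.comp h1 fun p hp => htar (hseg p.2 hp.2 p.1 hp.1)
  · intro b _
    simp only [zero_smul, add_zero]
    exact φ.left_inv (mem_chart_source _ q)
  · intro b hb
    simp only [one_smul, add_sub_cancel]
    exact φ.left_inv hb.1
  · intro b hb
    refine ⟨C * ‖φ b - φ q‖, by positivity, fun s hs s' hs' => ?_⟩
    have h := hlip _ (hseg b hb s hs) _ (hseg b hb s' hs')
    rw [edist_dist, edist_dist, ← ENNReal.ofReal_coe_nnreal,
      ← ENNReal.ofReal_mul C.coe_nonneg, ENNReal.ofReal_le_ofReal_iff (by positivity)] at h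
    refine h.trans (le_of_eq ?_)
    rw [dist_eq_norm, add_sub_add_left_eq_sub, ← sub_smul, norm_smul, Real.norm_eq_abs]
    ring

/-- **Covering theorem**: a smooth map between Riemannian manifolds of the same dimension which
preserves the length of tangent vectors is a Riemannian covering, if the source is complete and
nonempty and the target is connected. -/
theorem isRiemannianCovering_of_isometric [CompleteSpace M] [Nonempty M]
    {N : Type*} [MetricSpace N] [ChartedSpace (EE n) N]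
    [IsManifold (𝓡 n) ∞ N] [RiemannianBundle (fun x : N => TangentSpace (𝓡 n) x)]
    [IsContMDiffRiemannianBundle (𝓡 n) ∞ (EE n) (fun x : N => TangentSpace (𝓡 n) x)]
    [IsRiemannianManifold (𝓡 n) N] [PreconnectedSpace N]
    {f : M → N} (hf : ContMDiff (𝓡 n) (𝓡 n) ∞ f)
    (hiso : ∀ x, ∀ v : TangentSpace (𝓡 n) x, ‖mfderiv (𝓡 n) (𝓡 n) f x v‖ = ‖v‖) :
    IsRiemannianCovering (n := n) f :=
  ⟨(locIso_of_isometric hf hiso).isCoveringMap (lipContr n N),
    (locIso_of_isometric hf hiso).surjective (lipContr n N),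
    hf.contMDiffOn, fun q _ => hiso q⟩

end Amb
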