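import Pool.Agent.Amb.Mfd

/-!
# Configurations of two manifolds: definitions

A configuration is a pair of orthonormal frames `(f₁, f₂)`, one of each manifold, up to
simultaneous rotation; equivalently a triple `(m₁, m₂, T_{m₁} M₁ → T_{m₂} M₂ isometry)`.
-/

set_option maxSynthPendingDepth 3

namespace Amb

open Set Metric
open scoped ContDiff Topology

variable {E : Type*} [NormedAddCommGroup E] [InnerProductSpace ℝ E] [FiniteDimensional ℝ E]
variable {M₁ M₂ : Type*} [MetricSpace M₁] [MetricSpace M₂]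

namespace GMfd

variable {M : Type*} [MetricSpace M] {G : GMfd E M}

theorem Fr.rot_refl (f : G.Fr) : f.rot (LinearIsometryEquiv.refl ℝ E) = f := by
  ext1
  · rfl
  · ext v
    rfl

theorem Fr.rot_rot (f : G.Fr) (k l : E ≃ₗᵢ[ℝ] E) : (f.rot k).rot l = f.rot (l.trans k) := by
  ext1
  · rfl
  · ext v
    rfl

end GMfd

variable (G₁ : GMfd E M₁) (G₂ : GMfd E M₂)

/-- Simultaneous rotation of pairs of frames. -/
def frRel : Setoid (G₁.Fr × G₂.Fr) where
  r a b := ∃ k : E ≃ₗᵢ[ℝ] E, b = (a.1.rot k, a.2.rot k)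
  iseqv := by
    constructor
    · intro a
      exact ⟨LinearIsometryEquiv.refl ℝ E, by rw [GMfd.Fr.rot_refl, GMfd.Fr.rot_refl]⟩
    · rintro a b ⟨k, rfl⟩
      refine ⟨k.symm, ?_⟩
      simp [GMfd.Fr.rot_rot, GMfd.Fr.rot_refl]
    · rintro a b c ⟨k, rfl⟩ ⟨l, rfl⟩
      exact ⟨l.trans k, by simp [GMfd.Fr.rot_rot]⟩

/-- Configurations. -/
def Conf : Type _ := Quotient (frRel G₁ G₂)

namespace Conf

variable {G₁ G₂}

/-- the configuration of a pair of frames -/
def mk (f₁ : G₁.Fr) (f₂ : G₂.Fr) : Conf G₁ G₂ := Quotient.mk (frRel G₁ G₂) (f₁, f₂)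

/-- a pair of frames which represents `A` -/
noncomputable def out (A : Conf G₁ G₂) : G₁.Fr × G₂.Fr := Quotient.out A

/-- the point of the first manifold -/
noncomputable def π₁ (A : Conf G₁ G₂) : M₁ := A.out.1.m

/-- the point of the second manifold -/
noncomputable def π₂ (A : Conf G₁ G₂) : M₂ := A.out.2.m

/-- the curvature mismatch -/
noncomputable def D (A : Conf G₁ G₂) : ℝ := ‖G₁.Rf A.out.1 - G₂.Rf A.out.2‖

open Classical in
/-- the end of the lift of the short segment from `π₁ A` to `b` -/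
noncomputable def step (A : Conf G₁ G₂) (b : M₁) : Conf G₁ G₂ :=
  if h : ∃ ξ : E, (G₁.Psi ξ A.out.1).m = b ∧ ‖ξ‖ = dist A.out.1.m b then
    mk (G₁.Psi h.choose A.out.1) (G₂.Psi h.choose A.out.2) else A

/-- configurations which can be reached from `A₀` by rolling along broken geodesics -/
inductive Leaf (A₀ : Conf G₁ G₂) : Conf G₁ G₂ → Prop
  | refl : Leaf A₀ A₀
  | move (f₁ : G₁.Fr) (f₂ : G₂.Fr) (ξ : E) : Leaf A₀ (mk f₁ f₂) →
      Leaf A₀ (mk (G₁.Psi ξ f₁) (G₂.Psi ξ f₂))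

end Conf

end Amb
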