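import Mathlib

/-!
# The Ambrose conjecture: definitions used in the statement

The model space is a real normed space `E` (it is `EuclideanSpace ℝ (Fin n)` in the theorem).
-/

open Set Bundle Manifold
open scoped ContDiff Topology

noncomputable section

namespace Ambrose

universe u

/-- A smooth (`C^∞`), complete, connected Riemannian manifold modelled on `E`, in the sense of
Mathlib: the distance is the infimum of the lengths of `C^1` paths. -/
structure RMfd (E : Type) [NormedAddCommGroup E] [NormedSpace ℝ E] where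
  /-- the points -/
  pt : Type u
  [metric : MetricSpace pt]
  [charted : ChartedSpace E pt]
  [smooth : IsManifold 𝓘(ℝ, E) ∞ pt]
  [bundle : RiemannianBundle (fun x : pt => TangentSpace 𝓘(ℝ, E) x)]
  [smoothMetric : IsContMDiffRiemannianBundle 𝓘(ℝ, E) ∞ E (fun x : pt => TangentSpace 𝓘(ℝ, E) x)]
  [riemannian : IsRiemannianManifold 𝓘(ℝ, E) pt]
  [complete : CompleteSpace pt]
  [connected : ConnectedSpace pt]

attribute [instance] RMfd.metric RMfd.charted RMfd.smooth RMfd.bundle RMfd.smoothMetric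
  RMfd.riemannian RMfd.complete RMfd.connected

variable {E : Type} [NormedAddCommGroup E] [NormedSpace ℝ E]

/-- The tangent space of `M` at `p`. -/
abbrev RMfd.T (M : RMfd.{u} E) (p : M.pt) : Type := TangentSpace 𝓘(ℝ, E) p

/-- The length of a tangent vector, given by the Riemannian metric. -/
def RMfd.nrm (M : RMfd.{u} E) (p : M.pt) (v : M.T p) : ℝ := ‖v‖

/-- Linear isometries between tangent spaces. -/
structure RMfd.Iso (M N : RMfd.{u} E) (p : M.pt) (q : N.pt) where
  /-- the linear map -/
  map : M.T p ≃ₗ[ℝ] N.T q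
  nrm_map : ∀ v, N.nrm q (map v) = M.nrm p v

/-- The value of a linear isometry at a vector. -/
def RMfd.Iso.app {M N : RMfd.{u} E} {p : M.pt} {q : N.pt} (L : M.Iso N p q) (v : M.T p) : N.T q :=
  L.map v

/-- `γ : ℝ → M` is the geodesic with initial point `p` and initial velocity `v`:
it starts at `p` with velocity `v`, and it is locally distance realising with constant speed
`‖v‖`. -/
structure IsGeodesic (M : RMfd.{u} E) (γ : ℝ → M.pt) (p : M.pt) (v : M.T p) : Prop where
  init : γ 0 = p
  velocity : HasMFDerivAt 𝓘(ℝ, ℝ) 𝓘(ℝ, E) γ 0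
    (ContinuousLinearMap.toSpanSingleton ℝ (show E from v) : ℝ →L[ℝ] E)
  locally_minimizing : ∀ t : ℝ, ∃ ε > 0, ∀ s ∈ Ioo (t - ε) (t + ε), ∀ s' ∈ Ioo (t - ε) (t + ε),
    dist (γ s) (γ s') = |s - s'| * M.nrm p v

open Classical in
/-- The exponential map `exp_p : T_p M → M`: `exp M p v = γ 1` for the geodesic `γ` with initial
point `p` and initial velocity `v` (it exists and is unique by the Hopf-Rinow theorem). -/
def exp (M : RMfd.{u} E) (p : M.pt) (v : M.T p) : M.pt :=
  if h : ∃ γ : ℝ → M.pt, IsGeodesic M γ p v then h.choose 1 else p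

/-- `f` is an isometric immersion on the open set `S`: it is smooth on `S` and its
differential preserves the length of every tangent vector at every point of `S`. -/
def IsIsometricImmersionOn (M N : RMfd.{u} E) (f : M.pt → N.pt) (S : Set M.pt) : Prop :=
  ContMDiffOn 𝓘(ℝ, E) 𝓘(ℝ, E) ∞ f S ∧
    ∀ q ∈ S, ∀ v : M.T q, N.nrm (f q) (mfderiv 𝓘(ℝ, E) 𝓘(ℝ, E) f q v) = M.nrm q v

/-- A Riemannian covering: a surjective covering map which is a local isometry, i.e. smooth with
`‖df v‖ = ‖v‖` for all tangent vectors `v`. -/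
structure IsRiemannianCovering (M N : RMfd.{u} E) (f : M.pt → N.pt) : Prop where
  isCoveringMap : IsCoveringMap f
  surjective : Function.Surjective f
  isometric : IsIsometricImmersionOn M N f univ

/-- `(M, p)` and `(N, q)` are `L`-related: for every open connected `O ⊆ T_p M` on which `exp_p`
is injective, the map `exp_q ∘ L ∘ (exp_p|O)⁻¹` on `exp_p(O)` (i.e. every `f` with
`f (exp_p x) = exp_q (L x)` for `x ∈ O`) is an isometric immersion on `exp_p(O)`. -/
def LRelated (M N : RMfd.{u} E) (p : M.pt) (q : N.pt) (L : M.Iso N p q) : Prop :=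
  ∀ O : Set (M.T p), IsOpen O → IsConnected O → InjOn (exp M p) O →
    ∀ f : M.pt → N.pt, (∀ x ∈ O, f (exp M p x) = exp N q (L.app x)) →
      IsIsometricImmersionOn M N f (exp M p '' O)

/-- The conclusion of the Ambrose conjecture: there are a pointed complete connected Riemannian
manifold `(M, p)`, linear isometries `L₁, L₂` and Riemannian coverings `π₁, π₂` with
`π_i ∘ exp_p = exp_{p_i} ∘ L_i` and `L ∘ L₁ = L₂`. -/
def HasCommonCovering (M₁ M₂ : RMfd.{u} E) (p₁ : M₁.pt) (p₂ : M₂.pt) (L : M₁.Iso M₂ p₁ p₂) :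
    Prop :=
  ∃ (M : RMfd.{u} E) (p : M.pt) (L₁ : M.Iso M₁ p p₁) (L₂ : M.Iso M₂ p p₂)
    (π₁ : M.pt → M₁.pt) (π₂ : M.pt → M₂.pt),
    IsRiemannianCovering M M₁ π₁ ∧ IsRiemannianCovering M M₂ π₂ ∧
    (∀ v, π₁ (exp M p v) = exp M₁ p₁ (L₁.app v)) ∧
    (∀ v, π₂ (exp M p v) = exp M₂ p₂ (L₂.app v)) ∧
    ∀ v, L.app (L₁.app v) = L₂.app v

end Ambrose
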