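import Pool.Agent.Amb.Def
import Pool.Agent.Amb.Statement

/-!
# The compact statement of the Ambrose conjecture follows from the unbundled one
-/

open Set Bundle Manifold
open scoped ContDiff Topology

noncomputable section

namespace Ambrose

universe u

variable {n : ℕ}

theorem isGeodesic_iff (M : RMfd.{u} (EuclideanSpace ℝ (Fin n))) (γ : ℝ → M.pt) (p : M.pt)
    (v : M.T p) : IsGeodesic M γ p v ↔ Amb.IsGeodesic (n := n) γ p v :=
  ⟨fun h => ⟨h.1, h.2, h.3⟩, fun h => ⟨h.1, h.2, h.3⟩⟩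

theorem choose_congr {α : Type u} {P Q : α → Prop} (h : P = Q) (hP : ∃ a, P a) (hQ : ∃ a, Q a) :
    hP.choose = hQ.choose := by
  subst h
  rfl

theorem exp_eq (M : RMfd.{u} (EuclideanSpace ℝ (Fin n))) (p : M.pt) (v : M.T p) :
    exp M p v = Amb.expMap (n := n) p v := by
  have h : (fun γ : ℝ → M.pt => IsGeodesic M γ p v) =
      (fun γ : ℝ → M.pt => Amb.IsGeodesic (n := n) γ p v) := by
    funext γ
    exact propext (isGeodesic_iff M γ p v)
  unfold exp Amb.expMap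
  by_cases h1 : ∃ γ : ℝ → M.pt, IsGeodesic M γ p v
  · have h2 : ∃ γ : ℝ → M.pt, Amb.IsGeodesic (n := n) γ p v := by
      obtain ⟨γ, hγ⟩ := h1
      exact ⟨γ, (isGeodesic_iff M γ p v).1 hγ⟩
    rw [dif_pos h1, dif_pos h2, choose_congr h h1 h2]
  · have h2 : ¬ ∃ γ : ℝ → M.pt, Amb.IsGeodesic (n := n) γ p v := by
      rintro ⟨γ, hγ⟩
      exact h1 ⟨γ, (isGeodesic_iff M γ p v).2 hγ⟩
    rw [dif_neg h1, dif_neg h2]

theorem exp_eq' (M : RMfd.{u} (EuclideanSpace ℝ (Fin n))) (p : M.pt) :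
    exp M p = Amb.expMap (n := n) p := funext (exp_eq M p)

/-- The linear isometry given by an `Iso`. -/
def RMfd.Iso.toLI {M N : RMfd.{u} (EuclideanSpace ℝ (Fin n))} {p : M.pt} {q : N.pt}
    (L : M.Iso N p q) :
    TangentSpace (𝓡 n) p ≃ₗᵢ[ℝ] TangentSpace (𝓡 n) q :=
  { toLinearEquiv := L.map
    norm_map' := L.nrm_map }

/-- The `Iso` given by a linear isometry. -/
def isoOf {M N : RMfd.{u} (EuclideanSpace ℝ (Fin n))} {p : M.pt} {q : N.pt}
    (L : TangentSpace (𝓡 n) p ≃ₗᵢ[ℝ] TangentSpace (𝓡 n) q) : M.Iso N p q :=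
  { map := L.toLinearEquiv
    nrm_map := L.norm_map }

theorem toLI_apply {M N : RMfd.{u} (EuclideanSpace ℝ (Fin n))} {p : M.pt} {q : N.pt}
    (L : M.Iso N p q) (v : M.T p) : L.toLI v = L.app v := rfl

theorem isoOf_app {M N : RMfd.{u} (EuclideanSpace ℝ (Fin n))} {p : M.pt} {q : N.pt}
    (L : TangentSpace (𝓡 n) p ≃ₗᵢ[ℝ] TangentSpace (𝓡 n) q) (v : M.T p) :
    (isoOf (M := M) (N := N) L).app v = L v := rfl

theorem isIsometricImmersionOn_iff (M N : RMfd.{u} (EuclideanSpace ℝ (Fin n)))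
    (f : M.pt → N.pt) (S : Set M.pt) :
    IsIsometricImmersionOn M N f S ↔ Amb.IsIsometricImmersionOn (n := n) f S := Iff.rfl

theorem isRiemannianCovering_iff (M N : RMfd.{u} (EuclideanSpace ℝ (Fin n)))
    (f : M.pt → N.pt) :
    IsRiemannianCovering M N f ↔ Amb.IsRiemannianCovering (n := n) f :=
  ⟨fun h => ⟨h.1, h.2, h.3⟩, fun h => ⟨h.1, h.2, h.3⟩⟩

theorem lRelated_toLI {M N : RMfd.{u} (EuclideanSpace ℝ (Fin n))} {p : M.pt} {q : N.pt}
    {L : M.Iso N p q} (h : LRelated M N p q L) :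
    Amb.LRelated (n := n) p q L.toLI := by
  intro O hO hc hi f hf
  have h1 := h O hO hc
  rw [exp_eq', exp_eq'] at h1
  exact h1 hi f hf

/-- The compact statement follows from the unbundled one. -/
theorem conjecture_of (H : Amb.AmbroseConjecture.{u}) (M₁ M₂ : RMfd.{u} (EuclideanSpace ℝ (Fin n)))
    (p₁ : M₁.pt) (p₂ : M₂.pt) (L : M₁.Iso M₂ p₁ p₂) (h : LRelated M₁ M₂ p₁ p₂ L) :
    HasCommonCovering M₁ M₂ p₁ p₂ L := by
  obtain ⟨M, i1, i2, i3, i4, i5, i6, i7, i8, -, p, L₁, L₂, π₁, π₂, h1, h2, h3, h4, h5⟩ :=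
    H n M₁.pt M₂.pt p₁ p₂ L.toLI (lRelated_toLI h)
  let N : RMfd.{u} (EuclideanSpace ℝ (Fin n)) := RMfd.mk M
  refine ⟨N, p, isoOf L₁, isoOf L₂, π₁, π₂, (isRiemannianCovering_iff N M₁ π₁).2 h1,
    (isRiemannianCovering_iff N M₂ π₂).2 h2, ?_, ?_, h5⟩
  · intro v
    rw [exp_eq, exp_eq]
    exact h3 v
  · intro v
    rw [exp_eq, exp_eq]
    exact h4 v

end Ambrose
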