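import Pool.Agent.Amb.Met

/-!
# Christoffel symbols of a smooth metric on an open set
-/

set_option maxSynthPendingDepth 3
set_option linter.unusedSectionVars false

namespace Amb

open Set Metric
open scoped ContDiff Topology

variable {E : Type*} [NormedAddCommGroup E] [InnerProductSpace ℝ E] [FiniteDimensional ℝ E]
variable {U V W : Set E} {g h : E → E →L[ℝ] E →L[ℝ] ℝ}

theorem IsMet.injective (hg : IsMet U g) {x : E} (hx : x ∈ U) : Function.Injective (g x) := by
  rw [injective_iff_map_eq_zero]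
  intro u hu
  by_contra hne
  have := hg.pos x hx u hne
  rw [hu] at this
  simp at this

theorem finrank_dual_eq : Module.finrank ℝ (E →L[ℝ] ℝ) = Module.finrank ℝ E := by
  have e : (E →L[ℝ] ℝ) ≃ₗ[ℝ] E := (InnerProductSpace.toDual ℝ E).symm.toLinearEquiv
  exact e.finrank_eq

theorem IsMet.bijective (hg : IsMet U g) {x : E} (hx : x ∈ U) : Function.Bijective (g x) := by
  refine ⟨hg.injective hx, ?_⟩
  have h1 : Function.Injective ((g x : E →L[ℝ] (E →L[ℝ] ℝ)) : E →ₗ[ℝ] (E →L[ℝ] ℝ)) :=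
    hg.injective hx
  have := (LinearMap.injective_iff_surjective_of_finrank_eq_finrank
    (finrank_dual_eq (E := E)).symm).1 h1
  exact this

/-- `g x` as an equivalence -/
noncomputable def IsMet.equiv (hg : IsMet U g) {x : E} (hx : x ∈ U) : E ≃L[ℝ] (E →L[ℝ] ℝ) :=
  ContinuousLinearEquiv.ofBijective (g x)
    (LinearMap.ker_eq_bot.2 (hg.injective hx)) (LinearMap.range_eq_top.2 (hg.bijective hx).2)

theorem IsMet.coe_equiv (hg : IsMet U g) {x : E} (hx : x ∈ U) :
    (hg.equiv hx : E →L[ℝ] (E →L[ℝ] ℝ)) = g x := by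
  ext u v
  simp [IsMet.equiv]

theorem IsMet.g_inverse (hg : IsMet U g) {x : E} (hx : x ∈ U) (l : E →L[ℝ] ℝ) :
    g x (ContinuousLinearMap.inverse (g x) l) = l := by
  rw [← hg.coe_equiv hx, ContinuousLinearMap.inverse_equiv]
  simp

theorem Gam_apply (g : E → E →L[ℝ] E →L[ℝ] ℝ) (x u v : E) :
    Gam g x u v = ContinuousLinearMap.inverse (g x) (kos g x u v) := rfl

theorem IsMet.g_Gam (hg : IsMet U g) {x : E} (hx : x ∈ U) (u v w : E) :
    g x (Gam g x u v) w = kos g x u v w := by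
  rw [Gam_apply, hg.g_inverse hx]

theorem IsMet.diffAt (hg : IsMet U g) {x : E} (hx : x ∈ U) : DifferentiableAt ℝ g x :=
  ((hg.smooth x hx).contDiffAt (hg.isOpen.mem_nhds hx)).differentiableAt (by simp)

theorem IsMet.contDiffAt (hg : IsMet U g) {x : E} (hx : x ∈ U) : ContDiffAt ℝ ∞ g x :=
  (hg.smooth x hx).contDiffAt (hg.isOpen.mem_nhds hx)

/-- The derivative of the metric is symmetric in the last two arguments. -/
theorem IsMet.fderiv_symm (hg : IsMet U g) {x : E} (hx : x ∈ U) (w u v : E) :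
    fderiv ℝ g x w u v = fderiv ℝ g x w v u := by
  have key : ∀ a b : E, HasFDerivAt (fun y => g y a b)
      (((ContinuousLinearMap.apply ℝ ℝ b) ∘L (ContinuousLinearMap.apply ℝ (E →L[ℝ] ℝ) a)) ∘L
        fderiv ℝ g x) x := by
    intro a b
    exact ((ContinuousLinearMap.apply ℝ ℝ b) ∘L
      (ContinuousLinearMap.apply ℝ (E →L[ℝ] ℝ) a)).hasFDerivAt.comp x (hg.diffAt hx).hasFDerivAt
  have h1 : (fun y => g y u v) =ᶠ[𝓝 x] fun y => g y v u := by
    filter_upwards [hg.isOpen.mem_nhds hx] with y hy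
    exact hg.symm y hy u v
  have h2 := h1.fderiv_eq (𝕜 := ℝ)
  rw [(key u v).fderiv, (key v u).fderiv] at h2
  have h3 := congrArg (fun T : E →L[ℝ] ℝ => T w) h2
  simpa using h3

theorem IsMet.Gam_symm (hg : IsMet U g) {x : E} (hx : x ∈ U) (u v : E) :
    Gam g x u v = Gam g x v u := by
  apply hg.injective hx
  ext w
  rw [hg.g_Gam hx, hg.g_Gam hx, kos_apply, kos_apply, hg.fderiv_symm hx w u v]
  ring

theorem IsMet.compat (hg : IsMet U g) {x : E} (hx : x ∈ U) (u v w : E) :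
    fderiv ℝ g x u v w = g x (Gam g x u v) w + g x v (Gam g x u w) := by
  rw [hg.symm x hx v, hg.g_Gam hx, hg.g_Gam hx, kos_apply, kos_apply, hg.fderiv_symm hx u w v]
  ring

theorem IsMet.Gam_unique (hg : IsMet U g) {x : E} (hx : x ∈ U) (B : E →L[ℝ] E →L[ℝ] E)
    (hB : ∀ u v, B u v = B v u)
    (hc : ∀ u v w, fderiv ℝ g x u v w = g x (B u v) w + g x v (B u w)) : B = Gam g x := by
  ext u v
  apply hg.injective hx
  ext w
  rw [hg.g_Gam hx, kos_apply, hc u v w, hc v u w, hc w u v, hB w u, hB w v, hB v u,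
    hg.symm x hx (B u w) v]
  ring

/-- restriction to a smaller open set -/
theorem IsMet.mono (hg : IsMet U g) (hV : IsOpen V) (hVU : V ⊆ U) : IsMet V g :=
  ⟨hV, hg.smooth.mono hVU, fun x hx => hg.symm x (hVU hx), fun x hx => hg.pos x (hVU hx)⟩

theorem IsMet.inverse_smooth (hg : IsMet U g) :
    ContDiffOn ℝ ∞ (fun x => ContinuousLinearMap.inverse (g x)) U := by
  intro x hx
  apply ContDiffAt.contDiffWithinAt
  have h1 := contDiffAt_map_inverse (𝕜 := ℝ) (n := ∞) (hg.equiv hx)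
  rw [hg.coe_equiv hx] at h1
  exact h1.comp x (hg.contDiffAt hx)

theorem IsMet.fderiv_smooth (hg : IsMet U g) : ContDiffOn ℝ ∞ (fderiv ℝ g) U :=
  hg.smooth.fderiv_of_isOpen hg.isOpen (by simp)

theorem IsMet.kos_smooth (hg : IsMet U g) : ContDiffOn ℝ ∞ (kos g) U := by
  have h1 := hg.fderiv_smooth
  have h2 : ContDiffOn ℝ ∞ (fun x => (fderiv ℝ g x).flip) U :=
    (ContinuousLinearMap.flipₗᵢ ℝ E E (E →L[ℝ] ℝ)).toContinuousLinearEquiv.contDiff.comp_contDiffOn h1
  unfold kos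
  exact ((h1.add h2).sub (contDiffOn_const.clm_comp h2)).const_smul (1 / 2 : ℝ)

theorem IsMet.Gam_smooth (hg : IsMet U g) : ContDiffOn ℝ ∞ (Gam g) U := by
  unfold Gam
  exact ((ContinuousLinearMap.compL ℝ E (E →L[ℝ] ℝ) E).contDiff.comp_contDiffOn
    hg.inverse_smooth).clm_comp hg.kos_smooth

theorem IsMet.Gam_diffAt (hg : IsMet U g) {x : E} (hx : x ∈ U) : DifferentiableAt ℝ (Gam g) x :=
  ((hg.Gam_smooth x hx).contDiffAt (hg.isOpen.mem_nhds hx)).differentiableAt (by simp)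

end Amb
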