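import Pool.Agent.Amb.Met
import Pool.Agent.Amb.L1

/-!
# Naturality of Christoffel symbols, frame velocities and curvature under isometries
-/

set_option maxSynthPendingDepth 3

namespace Amb

open Set Metric
open scoped ContDiff Topology

variable {E : Type*} [NormedAddCommGroup E] [InnerProductSpace ℝ E] [FiniteDimensional ℝ E]
variable {U V W : Set E} {g h : E → E →L[ℝ] E →L[ℝ] ℝ}

omit [FiniteDimensional ℝ E] in
theorem l2_hasFDerivAt (hg : IsMet U g) {x : E} (hx : x ∈ U) :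
    HasFDerivAt g (fderiv ℝ g x) x :=
  ((hg.smooth.contDiffAt (hg.isOpen.mem_nhds hx)).differentiableAt (by simp)).hasFDerivAt

theorem l2_Gam_hasFDerivAt (hg : IsMet U g) {x : E} (hx : x ∈ U) :
    HasFDerivAt (Gam g) (fderiv ℝ (Gam g) x) x :=
  ((hg.Gam_smooth.contDiffAt (hg.isOpen.mem_nhds hx)).differentiableAt (by simp)).hasFDerivAt

theorem l2_ext_left (hg : IsMet U g) {x : E} (hx : x ∈ U) {a b : E}
    (H : ∀ w, g x a w = g x b w) : a = b :=
  (hg.bijective hx).1 (by ext w; exact H w)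

theorem IsIso.contDiffAt {χ : E → E} (hχ : IsIso W V g h χ) {x : E} (hx : x ∈ W) :
    ContDiffAt ℝ ∞ χ x := hχ.smooth.contDiffAt (hχ.isOpen.mem_nhds hx)

/-- The differential of an isometric map is injective. -/
theorem IsIso.injective (hg : IsMet W g) {χ : E → E} (hχ : IsIso W V g h χ) {x : E}
    (hx : x ∈ W) : Function.Injective (fderiv ℝ χ x) := by
  rw [injective_iff_map_eq_zero]
  intro u hu
  by_contra hne
  have h1 := hg.pos x hx u hne
  rw [← hχ.isom x hx, hu] at h1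
  simp at h1

/-- The differential of an isometric map is surjective. -/
theorem IsIso.surjective (hg : IsMet W g) {χ : E → E} (hχ : IsIso W V g h χ) {x : E}
    (hx : x ∈ W) : Function.Surjective (fderiv ℝ χ x) :=
  (LinearMap.injective_iff_surjective (f := (fderiv ℝ χ x : E →ₗ[ℝ] E))).1
    (hχ.injective hg hx)

theorem Gam_natural (hg : IsMet W g) (hh : IsMet V h) {χ : E → E} (hχ : IsIso W V g h χ)
    {x : E} (hx : x ∈ W) (u v : E) :
    fderiv ℝ χ x (Gam g x u v) =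
      Gam h (χ x) (fderiv ℝ χ x u) (fderiv ℝ χ x v) + fderiv ℝ (fderiv ℝ χ) x u v := by
  have hy : χ x ∈ V := hχ.maps x hx
  have hψ : ContDiffAt ℝ 2 χ x := (hχ.contDiffAt hx).of_le (WithTop.coe_le_coe.2 le_top)
  have hψ1 : HasFDerivAt χ (fderiv ℝ χ x) x := (hψ.differentiableAt (by simp)).hasFDerivAt
  have hψ2 : HasFDerivAt (fderiv ℝ χ) (fderiv ℝ (fderiv ℝ χ) x) x := by
    have : ContDiffAt ℝ 1 (fderiv ℝ χ) x := hψ.fderiv_right (by norm_num)
    exact (this.differentiableAt (by simp)).hasFDerivAt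
  have hk : HasFDerivAt (fun y => h (χ y)) ((fderiv ℝ h (χ x)) ∘L (fderiv ℝ χ x)) x :=
    (l2_hasFDerivAt hh hy).comp x hψ1
  have hiso : ∀ᶠ y in 𝓝 x, ∀ u v, g y u v = h (χ y) (fderiv ℝ χ y u) (fderiv ℝ χ y v) := by
    filter_upwards [hχ.isOpen.mem_nhds hx] with y hy u v using (hχ.isom y hy u v).symm
  -- derivative of the isometry identity
  have key : ∀ w u v : E, fderiv ℝ g x w u v =
      fderiv ℝ h (χ x) (fderiv ℝ χ x w) (fderiv ℝ χ x u) (fderiv ℝ χ x v)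
      + h (χ x) (fderiv ℝ (fderiv ℝ χ) x w u) (fderiv ℝ χ x v)
      + h (χ x) (fderiv ℝ χ x u) (fderiv ℝ (fderiv ℝ χ) x w v) := by
    intro w u v
    have a1 : HasFDerivAt (fun y => g y u v) ((((ContinuousLinearMap.apply ℝ ℝ v) ∘L
      (ContinuousLinearMap.apply ℝ (E →L[ℝ] ℝ) u))) ∘L (fderiv ℝ g x)) x :=
      ((ContinuousLinearMap.apply ℝ ℝ v) ∘L
      (ContinuousLinearMap.apply ℝ (E →L[ℝ] ℝ) u)).hasFDerivAt.comp x (l2_hasFDerivAt hg hx)
    have a2 := (hk.clm_apply (hψ2.clm_apply (hasFDerivAt_const u x))).clm_apply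
      (hψ2.clm_apply (hasFDerivAt_const v x))
    have a3 : (fun y => g y u v) =ᶠ[𝓝 x]
        (fun y => h (χ y) (fderiv ℝ χ y u) (fderiv ℝ χ y v)) := by
      filter_upwards [hiso] with y hy using hy u v
    have a4 := (a1.congr_of_eventuallyEq a3.symm).unique a2
    have := congrArg (fun T : E →L[ℝ] ℝ => T w) a4
    simp at this
    rw [this]
    ring
  have hs2 : ∀ w u : E, fderiv ℝ (fderiv ℝ χ) x w u = fderiv ℝ (fderiv ℝ χ) x u w := by
    intro w u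
    have := (hψ.isSymmSndFDerivAt (by simp)) w u
    exact this
  apply l2_ext_left hh hy
  intro w'
  obtain ⟨w, rfl⟩ := hχ.surjective hg hx w'
  have e1 := hχ.isom x hx (Gam g x u v) w
  rw [e1, hg.g_Gam hx, kos_apply, map_add, ContinuousLinearMap.add_apply, hh.g_Gam hy, kos_apply,
    key u v w, key v u w, key w u v, hs2 w u, hs2 w v, hs2 v u,
    hh.symm _ hy (fderiv ℝ χ x v) (fderiv ℝ (fderiv ℝ χ) x u w),
    hh.symm _ hy (fderiv ℝ χ x u) (fderiv ℝ (fderiv ℝ χ) x v w)]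
  ring

theorem frMap_smooth {χ : E → E} (hW : IsOpen W) (hχ : ContDiffOn ℝ ∞ χ W) :
    ContDiffOn ℝ ∞ (frMap χ) (W ×ˢ (univ : Set (E →L[ℝ] E))) := by
  have h1 : ContDiffOn ℝ ∞ (fun p : E × (E →L[ℝ] E) => χ p.1) (W ×ˢ univ) :=
    hχ.comp contDiff_fst.contDiffOn (fun p hp => hp.1)
  have h2 : ContDiffOn ℝ ∞ (fun p : E × (E →L[ℝ] E) => fderiv ℝ χ p.1) (W ×ˢ univ) :=
    (hχ.fderiv_of_isOpen hW (by simp)).comp contDiff_fst.contDiffOn (fun p hp => hp.1)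
  exact h1.prodMk (h2.clm_comp contDiff_snd.contDiffOn)

/-- The derivative of the frame map. -/
theorem hasFDerivAt_frMap {χ : E → E} {p : E × (E →L[ℝ] E)} (hχ : ContDiffAt ℝ 2 χ p.1) :
    HasFDerivAt (frMap χ)
      (((fderiv ℝ χ p.1) ∘L ContinuousLinearMap.fst ℝ E (E →L[ℝ] E)).prod
        ((ContinuousLinearMap.compL ℝ E E E (fderiv ℝ χ p.1)) ∘L
            ContinuousLinearMap.snd ℝ E (E →L[ℝ] E) +
          (((ContinuousLinearMap.compL ℝ E E E).flip p.2) ∘L (fderiv ℝ (fderiv ℝ χ) p.1)) ∘L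
            ContinuousLinearMap.fst ℝ E (E →L[ℝ] E))) p := by
  have h1 : HasFDerivAt χ (fderiv ℝ χ p.1) p.1 := (hχ.differentiableAt (by simp)).hasFDerivAt
  have h2 : HasFDerivAt (fderiv ℝ χ) (fderiv ℝ (fderiv ℝ χ) p.1) p.1 := by
    have : ContDiffAt ℝ 1 (fderiv ℝ χ) p.1 := hχ.fderiv_right (by norm_num)
    exact (this.differentiableAt (by simp)).hasFDerivAt
  have h3 : HasFDerivAt (fun q : E × (E →L[ℝ] E) => χ q.1)
      ((fderiv ℝ χ p.1) ∘L ContinuousLinearMap.fst ℝ E (E →L[ℝ] E)) p :=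
    h1.comp p hasFDerivAt_fst
  have h4 : HasFDerivAt (fun q : E × (E →L[ℝ] E) => fderiv ℝ χ q.1)
      ((fderiv ℝ (fderiv ℝ χ) p.1) ∘L ContinuousLinearMap.fst ℝ E (E →L[ℝ] E)) p :=
    h2.comp p hasFDerivAt_fst
  exact h3.prodMk (h4.clm_comp hasFDerivAt_snd)

theorem vel_natural (hg : IsMet W g) (hh : IsMet V h) {χ : E → E} (hχ : IsIso W V g h χ)
    {p : E × (E →L[ℝ] E)} (hp : p.1 ∈ W) :
    fderiv ℝ (frMap χ) p ∘L vel g p = vel h (frMap χ p) := by
  have hψ : ContDiffAt ℝ 2 χ p.1 := (hχ.contDiffAt hp).of_le (WithTop.coe_le_coe.2 le_top)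
  rw [(hasFDerivAt_frMap hψ).fderiv]
  obtain ⟨x, Y⟩ := p
  refine ContinuousLinearMap.ext fun q => ?_
  obtain ⟨θ, κ⟩ := q
  simp only [ContinuousLinearMap.comp_apply, frMap, vel_apply, ContinuousLinearMap.prod_apply,
    ContinuousLinearMap.coe_fst', ContinuousLinearMap.coe_snd', ContinuousLinearMap.add_apply,
    ContinuousLinearMap.compL_apply, ContinuousLinearMap.flip_apply]
  refine Prod.ext rfl ?_
  refine ContinuousLinearMap.ext fun w => ?_
  simp only [ContinuousLinearMap.comp_apply, ContinuousLinearMap.add_apply,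
    ContinuousLinearMap.sub_apply, map_sub]
  rw [Gam_natural hg hh hχ hp]
  abel

theorem Rm_natural (hg : IsMet W g) (hh : IsMet V h) {χ : E → E} (hχ : IsIso W V g h χ)
    {x : E} (hx : x ∈ W) (u v w : E) :
    fderiv ℝ χ x (Rm g x u v w) =
      Rm h (χ x) (fderiv ℝ χ x u) (fderiv ℝ χ x v) (fderiv ℝ χ x w) := by
  have hψ : ContDiffAt ℝ 3 χ x := (hχ.contDiffAt hx).of_le (WithTop.coe_le_coe.2 le_top)
  have hψ1 : HasFDerivAt χ (fderiv ℝ χ x) x := (hψ.differentiableAt (by simp)).hasFDerivAt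
  have hc2 : ContDiffAt ℝ 2 (fderiv ℝ χ) x := hψ.fderiv_right (by norm_num)
  have hψ2 : HasFDerivAt (fderiv ℝ χ) (fderiv ℝ (fderiv ℝ χ) x) x :=
    (hc2.differentiableAt (by simp)).hasFDerivAt
  have hψ3 : HasFDerivAt (fderiv ℝ (fderiv ℝ χ)) (fderiv ℝ (fderiv ℝ (fderiv ℝ χ)) x) x := by
    have : ContDiffAt ℝ 1 (fderiv ℝ (fderiv ℝ χ)) x := hc2.fderiv_right (by norm_num)
    exact (this.differentiableAt (by simp)).hasFDerivAt
  have hy0 : χ x ∈ V := hχ.maps x hx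
  have hk : HasFDerivAt (fun y => Gam h (χ y)) ((fderiv ℝ (Gam h) (χ x)) ∘L (fderiv ℝ χ x)) x :=
    (l2_Gam_hasFDerivAt hh hy0).comp x hψ1
  have natev : ∀ᶠ y in 𝓝 x, ∀ v w, fderiv ℝ χ y (Gam g y v w) =
      Gam h (χ y) (fderiv ℝ χ y v) (fderiv ℝ χ y w) + fderiv ℝ (fderiv ℝ χ) y v w := by
    filter_upwards [hχ.isOpen.mem_nhds hx] with y hy v w using Gam_natural hg hh hχ hy v w
  have nat0 := natev.self_of_nhds
  have key : ∀ u v : E, fderiv ℝ (fderiv ℝ χ) x u (Gam g x v w)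
      + fderiv ℝ χ x (fderiv ℝ (Gam g) x u v w) =
      fderiv ℝ (Gam h) (χ x) (fderiv ℝ χ x u) (fderiv ℝ χ x v) (fderiv ℝ χ x w)
      + Gam h (χ x) (fderiv ℝ (fderiv ℝ χ) x u v) (fderiv ℝ χ x w)
      + Gam h (χ x) (fderiv ℝ χ x v) (fderiv ℝ (fderiv ℝ χ) x u w)
      + fderiv ℝ (fderiv ℝ (fderiv ℝ χ)) x u v w := by
    intro u v
    have b1 := ((l2_Gam_hasFDerivAt hg hx).clm_apply (hasFDerivAt_const v x)).clm_apply
      (hasFDerivAt_const w x)
    have a1 := hψ2.clm_apply b1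
    have a2 := ((hk.clm_apply (hψ2.clm_apply (hasFDerivAt_const v x))).clm_apply
      (hψ2.clm_apply (hasFDerivAt_const w x))).add
      ((hψ3.clm_apply (hasFDerivAt_const v x)).clm_apply (hasFDerivAt_const w x))
    have a3 : (fun y => fderiv ℝ χ y (Gam g y v w)) =ᶠ[𝓝 x]
        (fun y => Gam h (χ y) (fderiv ℝ χ y v) (fderiv ℝ χ y w)
          + fderiv ℝ (fderiv ℝ χ) y v w) := by
      filter_upwards [natev] with y hy using hy v w
    have a4 := (a1.congr_of_eventuallyEq a3.symm).unique a2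
    have := congrArg (fun T : E →L[ℝ] E => T u) a4
    simp at this
    rw [add_comm, this]
    abel
  have hs3 : fderiv ℝ (fderiv ℝ (fderiv ℝ χ)) x u v = fderiv ℝ (fderiv ℝ (fderiv ℝ χ)) x v u :=
    (hc2.isSymmSndFDerivAt (by simp)) u v
  have hs2 : fderiv ℝ (fderiv ℝ χ) x v u = fderiv ℝ (fderiv ℝ χ) x u v :=
    ((hψ.of_le (by norm_num) : ContDiffAt ℝ 2 χ x).isSymmSndFDerivAt (by simp)) v u
  have k1 := key u v
  have k2 := key v u
  rw [hs2] at k2
  rw [hs3] at k1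
  have e1 : fderiv ℝ χ x (fderiv ℝ (Gam g) x u v w) =
      fderiv ℝ (Gam h) (χ x) (fderiv ℝ χ x u) (fderiv ℝ χ x v) (fderiv ℝ χ x w)
      + Gam h (χ x) (fderiv ℝ (fderiv ℝ χ) x u v) (fderiv ℝ χ x w)
      + Gam h (χ x) (fderiv ℝ χ x v) (fderiv ℝ (fderiv ℝ χ) x u w)
      + fderiv ℝ (fderiv ℝ (fderiv ℝ χ)) x v u w
      - fderiv ℝ (fderiv ℝ χ) x u (Gam g x v w) := by
    rw [← k1]; abel
  have e2 : fderiv ℝ χ x (fderiv ℝ (Gam g) x v u w) =
      fderiv ℝ (Gam h) (χ x) (fderiv ℝ χ x v) (fderiv ℝ χ x u) (fderiv ℝ χ x w)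
      + Gam h (χ x) (fderiv ℝ (fderiv ℝ χ) x u v) (fderiv ℝ χ x w)
      + Gam h (χ x) (fderiv ℝ χ x u) (fderiv ℝ (fderiv ℝ χ) x v w)
      + fderiv ℝ (fderiv ℝ (fderiv ℝ χ)) x v u w
      - fderiv ℝ (fderiv ℝ χ) x v (Gam g x u w) := by
    rw [← k2]; abel
  simp only [Rm_apply, map_add, map_sub]
  rw [e1, e2, nat0 u (Gam g x v w), nat0 v (Gam g x u w), nat0 v w, nat0 u w]
  simp only [map_add]
  abel

end Amb
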