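import Pool.Agent.Amb.Mfd
import Pool.Agent.Amb.L1
import Pool.Agent.Amb.L2

/-!
# M1a: basic properties of charts and frames
-/

set_option maxSynthPendingDepth 3

namespace Amb

open Set Metric
open scoped ContDiff Topology

variable {E : Type*} [NormedAddCommGroup E] [InnerProductSpace ℝ E] [FiniteDimensional ℝ E]
variable {M : Type*} [MetricSpace M] (G : GMfd E M)

namespace GMfd

theorem m1_left (m : M) : G.ψ m (G.φ m m) = m := G.left_inv m m (G.mem_src m)

theorem m1_dom {q m : M} (h : m ∈ G.src q) :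
    G.φ m m ∈ {x | x ∈ G.tgt m ∧ G.ψ m x ∈ G.src q} :=
  ⟨G.map_src m m (G.mem_src m), by rw [G.m1_left]; exact h⟩

theorem m1_dom' {q q' m : M} (h : m ∈ G.src q) (h' : m ∈ G.src q') :
    G.φ q m ∈ {x | x ∈ G.tgt q ∧ G.ψ q x ∈ G.src q'} :=
  ⟨G.map_src q m h, by simpa [G.left_inv q m h] using h'⟩

theorem m1_met (q q' : M) : IsMet {x | x ∈ G.tgt q ∧ G.ψ q x ∈ G.src q'} (G.g q) :=
  (G.met q).mono (G.trans q q').isOpen (fun _ hx => hx.1)

theorem m1_smooth {q q' m : M} (h : m ∈ G.src q) (h' : m ∈ G.src q') :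
    ContDiffAt ℝ ∞ (fun x => G.φ q' (G.ψ q x)) (G.φ q m) :=
  (G.trans q q').contDiffAt (G.m1_dom' h h')

theorem J_self (m : M) : G.J m m = ContinuousLinearMap.id ℝ E := by
  have h : (fun x => G.φ m (G.ψ m x)) =ᶠ[𝓝 (G.φ m m)] id := by
    filter_upwards [(G.met m).isOpen.mem_nhds (G.map_src m m (G.mem_src m))] with x hx
    exact G.right_inv m x hx
  unfold J
  rw [h.fderiv_eq, fderiv_id]

theorem J_trans {q q' m : M} (h : m ∈ G.src q) (h' : m ∈ G.src q') :
    G.J q' m = fderiv ℝ (fun x => G.φ q' (G.ψ q x)) (G.φ q m) ∘L G.J q m := by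
  have hev : (fun x => G.φ q' (G.ψ m x)) =ᶠ[𝓝 (G.φ m m)]
      ((fun x => G.φ q' (G.ψ q x)) ∘ (fun x => G.φ q (G.ψ m x))) := by
    filter_upwards [(G.trans m q).isOpen.mem_nhds (G.m1_dom h)] with x hx
    simp only [Function.comp]
    rw [G.left_inv q _ hx.2]
  have h1 : DifferentiableAt ℝ (fun x => G.φ q (G.ψ m x)) (G.φ m m) :=
    (G.m1_smooth (G.mem_src m) h).differentiableAt (by simp)
  have hpt : (fun x => G.φ q (G.ψ m x)) (G.φ m m) = G.φ q m := by
    simp only [G.m1_left]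
  have h2 : DifferentiableAt ℝ (fun x => G.φ q' (G.ψ q x))
      ((fun x => G.φ q (G.ψ m x)) (G.φ m m)) := by
    rw [hpt]
    exact (G.m1_smooth h h').differentiableAt (by simp)
  have H := (h2.hasFDerivAt.comp (G.φ m m) h1.hasFDerivAt).fderiv
  unfold J
  rw [hev.fderiv_eq, H, hpt]

theorem g_J {q m : M} (h : m ∈ G.src q) (u v : E) :
    G.g q (G.φ q m) (G.J q m u) (G.J q m v) = G.ip m u v := by
  have := (G.trans m q).isom _ (G.m1_dom h) u v
  simp only [G.m1_left] at this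
  exact this

theorem J_bij {q m : M} (h : m ∈ G.src q) : Function.Bijective (G.J q m) :=
  ⟨(G.trans m q).injective (G.m1_met m q) (G.m1_dom h),
    (G.trans m q).surjective (G.m1_met m q) (G.m1_dom h)⟩

theorem ip_pos (m : M) {u : E} (hu : u ≠ 0) : 0 < G.ip m u u :=
  (G.met m).pos _ (G.map_src m m (G.mem_src m)) u hu

theorem ip_symm (m : M) (u v : E) : G.ip m u v = G.ip m v u :=
  (G.met m).symm _ (G.map_src m m (G.mem_src m)) u v

variable {G} in
theorem Fr.bij (f : G.Fr) : Function.Bijective f.Y := by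
  have hinj : Function.Injective f.Y := by
    rw [injective_iff_map_eq_zero]
    intro u hu
    have h := f.isom u u
    rw [hu] at h
    simp only [map_zero] at h
    exact inner_self_eq_zero.1 h.symm
  exact ⟨hinj, (LinearMap.injective_iff_surjective (f := (f.Y : E →ₗ[ℝ] E))).1 hinj⟩

theorem cd_self (f : G.Fr) : G.cd f.m f = (G.φ f.m f.m, f.Y) := by
  unfold cd
  rw [G.J_self, ContinuousLinearMap.id_comp]

theorem cd_trans {q q' : M} (f : G.Fr) (h : f.m ∈ G.src q) (h' : f.m ∈ G.src q') :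
    G.cd q' f = frMap (fun x => G.φ q' (G.ψ q x)) (G.cd q f) := by
  unfold cd frMap
  simp only [G.left_inv q _ h]
  rw [G.J_trans h h', ContinuousLinearMap.comp_assoc]

variable {G} in
theorem cd_inj {q : M} {f f' : G.Fr} (h : f.m ∈ G.src q) (h' : f'.m ∈ G.src q)
    (he : G.cd q f = G.cd q f') : f = f' := by
  obtain ⟨m, Y, hY⟩ := f
  obtain ⟨m', Y', hY'⟩ := f'
  simp only [cd, Prod.mk.injEq] at he
  obtain ⟨h1, h2⟩ := he
  have hm : m = m' := by
    have := congrArg (G.ψ q) h1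
    rwa [G.left_inv q _ h, G.left_inv q _ h'] at this
  subst hm
  have hYY : Y = Y' := by
    ext u
    apply (G.J_bij h).1
    exact congrArg (fun T : E →L[ℝ] E => T u) h2
  subst hYY
  rfl

variable {G} in
theorem cd_isom {q : M} {f : G.Fr} (h : f.m ∈ G.src q) (u v : E) :
    G.g q (G.cd q f).1 ((G.cd q f).2 u) ((G.cd q f).2 v) = inner ℝ u v := by
  show G.g q (G.φ q f.m) (G.J q f.m (f.Y u)) (G.J q f.m (f.Y v)) = inner ℝ u v
  rw [G.g_J h, f.isom]

variable {G} in
theorem cd_bij {q : M} {f : G.Fr} (h : f.m ∈ G.src q) : Function.Bijective (G.cd q f).2 := by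
  show Function.Bijective (G.J q f.m ∘L f.Y)
  rw [ContinuousLinearMap.coe_comp]
  exact (G.J_bij h).comp f.bij

theorem exists_fr_of_cd {q : M} {x : E} {Y : E →L[ℝ] E} (hx : x ∈ G.tgt q)
    (hY : ∀ u v, G.g q x (Y u) (Y v) = inner ℝ u v) :
    ∃ f : G.Fr, f.m = G.ψ q x ∧ G.cd q f = (x, Y) := by
  have hm : G.ψ q x ∈ G.src q := G.map_tgt q x hx
  have hφ : G.φ q (G.ψ q x) = x := G.right_inv q x hx
  let e : E ≃L[ℝ] E := ContinuousLinearEquiv.ofBijective (G.J q (G.ψ q x))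
    (LinearMap.ker_eq_bot.2 (G.J_bij hm).1) (LinearMap.range_eq_top.2 (G.J_bij hm).2)
  have he : ∀ u, G.J q (G.ψ q x) (e.symm u) = u := fun u => e.apply_symm_apply u
  refine ⟨⟨G.ψ q x, (e.symm : E →L[ℝ] E) ∘L Y, ?_⟩, rfl, ?_⟩
  · intro u v
    rw [← G.g_J hm, hφ]
    simp only [ContinuousLinearMap.comp_apply, ContinuousLinearEquiv.coe_coe, he]
    exact hY u v
  · unfold cd
    simp only [hφ]
    congr 1
    ext u
    simp only [ContinuousLinearMap.comp_apply, ContinuousLinearEquiv.coe_coe, he]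

/-- Every positive definite symmetric form on `E` has an orthonormal frame. -/
theorem exists_isom_of_pos (B : E →L[ℝ] E →L[ℝ] ℝ) (hs : ∀ u v, B u v = B v u)
    (hp : ∀ u, u ≠ 0 → 0 < B u u) :
    ∃ Y : E →L[ℝ] E, ∀ u v, B (Y u) (Y v) = inner ℝ u v := by
  classical
  let B' : LinearMap.BilinForm ℝ E := LinearMap.mk₂ ℝ (fun u v => B u v)
    (fun a b c => by simp) (fun a b c => by simp) (fun a b c => by simp) (fun a b c => by simp)
  have hB' : ∀ u v, B' u v = B u v := fun _ _ => rfl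
  have hsym : LinearMap.IsSymm B' := LinearMap.BilinForm.isSymm_iff.1 ⟨fun u v => by simp only [hB', hs u v]⟩
  obtain ⟨b, hb⟩ := LinearMap.BilinForm.exists_orthogonal_basis hsym
  have hbp : ∀ i, 0 < B (b i) (b i) := fun i => hp _ (b.ne_zero i)
  let o := stdOrthonormalBasis ℝ E
  let c : Fin (Module.finrank ℝ E) → E := fun i => (√(B (b i) (b i)))⁻¹ • b i
  have hc : ∀ i j, B (c i) (c j) = if i = j then 1 else 0 := by
    intro i j
    simp only [c, map_smul, ContinuousLinearMap.smul_apply, smul_eq_mul]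
    split_ifs with hij
    · subst hij
      have h0 := Real.sqrt_pos.2 (hbp i)
      have h1 := Real.mul_self_sqrt (hbp i).le
      field_simp
      nlinarith [h1]
    · have : B (b i) (b j) = 0 := hb hij
      rw [this]; simp
  let Y₀ : E →ₗ[ℝ] E := o.toBasis.constr ℝ c
  have hY : ∀ u, Y₀ u = ∑ i, o.repr u i • c i := by
    intro u
    simp only [Y₀, Module.Basis.constr_apply_fintype]
    rfl
  refine ⟨LinearMap.toContinuousLinearMap Y₀, ?_⟩
  intro u v
  simp only [LinearMap.coe_toContinuousLinearMap']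
  rw [hY, hY]
  simp only [map_sum, map_smul, ContinuousLinearMap.sum_apply, ContinuousLinearMap.smul_apply,
    smul_eq_mul, hc]
  rw [← o.repr.inner_map_map u v]
  simp only [PiLp.inner_apply]
  simp [mul_comm]

theorem exists_fr (m : M) : ∃ f : G.Fr, f.m = m := by
  obtain ⟨Y, hY⟩ := exists_isom_of_pos (G.ip m) (G.ip_symm m) (fun u hu => G.ip_pos m hu)
  exact ⟨⟨m, Y, hY⟩, rfl⟩

variable {G} in
/-- two frames over the same point differ by a rotation -/
theorem exists_rot {f f' : G.Fr} (h : f.m = f'.m) : ∃ k : E ≃ₗᵢ[ℝ] E, f' = f.rot k := by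
  obtain ⟨m, Y, hY⟩ := f
  obtain ⟨m', Y', hY'⟩ := f'
  simp only at h
  subst h
  have hb : Function.Bijective Y := (⟨m, Y, hY⟩ : G.Fr).bij
  have hb' : Function.Bijective Y' := (⟨m, Y', hY'⟩ : G.Fr).bij
  let e : E ≃ₗ[ℝ] E := LinearEquiv.ofBijective (Y : E →ₗ[ℝ] E) hb
  let e' : E ≃ₗ[ℝ] E := LinearEquiv.ofBijective (Y' : E →ₗ[ℝ] E) hb'
  have he : ∀ u, Y (e.symm u) = u := fun u => e.apply_symm_apply u
  have hk : ∀ u, ‖(e'.trans e.symm) u‖ = ‖u‖ := by
    intro u
    have h1 : Y ((e'.trans e.symm) u) = Y' u := by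
      simp only [LinearEquiv.trans_apply, he]
      rfl
    have h2 : inner ℝ ((e'.trans e.symm) u) ((e'.trans e.symm) u) = inner ℝ u u := by
      rw [← hY, ← hY', h1]
    rw [real_inner_self_eq_norm_sq, real_inner_self_eq_norm_sq] at h2
    exact (sq_eq_sq₀ (norm_nonneg _) (norm_nonneg _)).1 h2
  refine ⟨⟨e'.trans e.symm, hk⟩, ?_⟩
  unfold Fr.rot
  simp only [Fr.mk.injEq, true_and]
  ext u
  simp only [ContinuousLinearMap.comp_apply]
  show Y' u = Y (e.symm (e' u))
  rw [he]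
  rfl

end GMfd

end Amb
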