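import Pool.Agent.Amb.L1
import Pool.Agent.Amb.L8
import Pool.Agent.Amb.M1a
import Pool.Agent.Amb.M1c
import Pool.Agent.Amb.M2
import Pool.Agent.Amb.M4a

/-!
# M10: comparison of nearly equal controls
-/

set_option maxSynthPendingDepth 3

namespace Amb

open Set Metric
open scoped ContDiff Topology NNReal

section Local

variable {E : Type*} [NormedAddCommGroup E] [InnerProductSpace ℝ E] [FiniteDimensional ℝ E]
variable {U : Set E} {g : E → E →L[ℝ] E →L[ℝ] ℝ}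

theorem m10_lower (hg : IsMet U g) {K : Set E} (hK : IsCompact K) (hKU : K ⊆ U) :
    ∃ c > 0, ∀ x ∈ K, ∀ u, c * ‖u‖ ^ 2 ≤ g x u u := by
  have hc : IsCompact (K ×ˢ sphere (0:E) 1) := hK.prod (isCompact_sphere 0 1)
  have hgc : ContinuousOn (fun p : E × E => g p.1) (K ×ˢ sphere (0:E) 1) :=
    (hg.smooth.continuousOn.mono hKU).comp continuousOn_fst (fun p hp => hp.1)
  have hcont : ContinuousOn (fun p : E × E => g p.1 p.2 p.2) (K ×ˢ sphere (0:E) 1) :=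
    (hgc.clm_apply continuousOn_snd).clm_apply continuousOn_snd
  obtain ⟨c, hc0, hc⟩ := hc.exists_forall_le' hcont (a := 0) (fun p hp =>
    hg.pos _ (hKU hp.1) _ (by
      intro h0
      have := hp.2
      rw [h0] at this
      simp at this))
  refine ⟨c, hc0, fun x hx u => ?_⟩
  rcases eq_or_ne u 0 with h | h
  · simp [h]
  · have h1 : ‖u‖ ≠ 0 := norm_ne_zero_iff.2 h
    have h2 := hc (x, ‖u‖⁻¹ • u) ⟨hx, by simp [norm_smul, h1]⟩
    simp only [map_smul, smul_apply, smul_eq_mul] at h2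
    have h3 : 0 < ‖u‖ := norm_pos_iff.2 h
    have h4 : ‖u‖⁻¹ * (‖u‖⁻¹ * g x u u) * ‖u‖ ^ 2 = g x u u := by
      field_simp
    calc c * ‖u‖ ^ 2 ≤ ‖u‖⁻¹ * (‖u‖⁻¹ * g x u u) * ‖u‖ ^ 2 := by gcongr
      _ = g x u u := h4

/-- the frames over a set -/
def frs (g : E → E →L[ℝ] E →L[ℝ] ℝ) (K : Set E) : Set (E × (E →L[ℝ] E)) :=
  {p | p.1 ∈ K ∧ ∀ u v, g p.1 (p.2 u) (p.2 v) = inner ℝ u v}

theorem m10_compact (hg : IsMet U g) {K : Set E} (hK : IsCompact K) (hKU : K ⊆ U) :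
    IsCompact (frs g K) := by
  obtain ⟨c, hc0, hc⟩ := m10_lower hg hK hKU
  set B : ℝ := √(1 / c)
  have hsub : frs g K ⊆ K ×ˢ closedBall (0 : E →L[ℝ] E) B := by
    rintro ⟨x, Y⟩ ⟨hx, hY⟩
    refine ⟨hx, ?_⟩
    rw [mem_closedBall_zero_iff]
    refine ContinuousLinearMap.opNorm_le_bound _ (Real.sqrt_nonneg _) (fun u => ?_)
    have h1 := hc x hx (Y u)
    have h2 : g x (Y u) (Y u) = ‖u‖ ^ 2 := by
      rw [← real_inner_self_eq_norm_sq]
      exact hY u u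
    have h3 : ‖Y u‖ ^ 2 ≤ 1 / c * ‖u‖ ^ 2 := by
      rw [h2] at h1
      rw [div_mul_eq_mul_div, one_mul, le_div_iff₀ hc0]
      linarith [mul_comm c (‖Y u‖ ^ 2)]
    have h4 : ‖Y u‖ ^ 2 ≤ (B * ‖u‖) ^ 2 := by
      rw [mul_pow, Real.sq_sqrt (by positivity)]
      exact h3
    exact le_of_sq_le_sq h4 (by positivity)
  refine IsCompact.of_isClosed_subset (hK.prod (isCompact_closedBall 0 B)) ?_ hsub
  have hgc : ContinuousOn (fun p : E × (E →L[ℝ] E) => g p.1) (K ×ˢ (univ : Set (E →L[ℝ] E))) :=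
    (hg.smooth.continuousOn.mono hKU).comp continuousOn_fst (fun p hp => hp.1)
  have heq : frs g K = ⋂ u : E, ⋂ v : E, {p : E × (E →L[ℝ] E) |
      p ∈ K ×ˢ (univ : Set (E →L[ℝ] E)) ∧ g p.1 (p.2 u) (p.2 v) = inner ℝ u v} := by
    ext p
    simp only [frs, mem_ofPred_eq, mem_iInter, mem_prod, mem_univ, and_true]
    constructor
    · rintro ⟨h1, h2⟩ u v
      exact ⟨h1, h2 u v⟩
    · intro h
      exact ⟨(h 0 0).1, fun u v => (h u v).2⟩
  rw [heq]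
  refine isClosed_iInter fun u => isClosed_iInter fun v => ?_
  have hcu : ContinuousOn (fun p : E × (E →L[ℝ] E) => g p.1 (p.2 u) (p.2 v))
      (K ×ˢ (univ : Set (E →L[ℝ] E))) :=
    (hgc.clm_apply (by fun_prop)).clm_apply (by fun_prop)
  have := hcu.preimage_isClosed_of_isClosed (hK.isClosed.prod isClosed_univ)
    (isClosed_singleton (x := inner ℝ u v))
  exact this

theorem m10_vel_smooth (hg : IsMet U g) :
    ContDiffOn ℝ ∞ (vel g) (U ×ˢ (univ : Set (E →L[ℝ] E))) := by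
  rw [contDiffOn_clm_apply]
  rintro ⟨θ, κ⟩
  have h1 : ContDiff ℝ ∞ fun p : E × (E →L[ℝ] E) => p.2 := by fun_prop
  have h2 : ContDiff ℝ ∞ fun p : E × (E →L[ℝ] E) => p.2 θ := h1.clm_apply contDiff_const
  have h3 : ContDiffOn ℝ ∞ (fun p : E × (E →L[ℝ] E) => Gam g p.1)
      (U ×ˢ (univ : Set (E →L[ℝ] E))) :=
    hg.Gam_smooth.comp contDiff_fst.contDiffOn (fun p hp => hp.1)
  have h4 : ContDiffOn ℝ ∞ (fun p : E × (E →L[ℝ] E) =>
      (p.2 θ, p.2 ∘L κ - (Gam g p.1 (p.2 θ)) ∘L p.2)) (U ×ˢ (univ : Set (E →L[ℝ] E))) :=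
    h2.contDiffOn.prodMk ((h1.clm_comp contDiff_const).contDiffOn.sub
      ((h3.clm_apply h2.contDiffOn).clm_comp h1.contDiffOn))
  refine h4.congr (fun p _ => ?_)
  exact vel_apply g p.1 p.2 θ κ

theorem m10_pull_smoothOn (hg : IsMet U g) :
    ContDiffOn ℝ ∞ (fun p : E × (E →L[ℝ] E) => pull p.2 (Rm g p.1))
      (U ×ˢ (range ((↑) : (E ≃L[ℝ] E) → E →L[ℝ] E))) := by
  have hinv : ContDiffOn ℝ ∞ (fun p : E × (E →L[ℝ] E) => ContinuousLinearMap.inverse p.2)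
      (U ×ˢ (range ((↑) : (E ≃L[ℝ] E) → E →L[ℝ] E))) := by
    rintro p ⟨_, e, he⟩
    have := contDiffAt_map_inverse (𝕜 := ℝ) (n := ∞) e
    rw [he] at this
    exact (this.comp p contDiffAt_snd).contDiffWithinAt
  have hR : ContDiffOn ℝ ∞ (fun p : E × (E →L[ℝ] E) => Rm g p.1)
      (U ×ˢ (range ((↑) : (E ≃L[ℝ] E) → E →L[ℝ] E))) :=
    (Rm_smooth hg).comp contDiff_fst.contDiffOn (fun p hp => hp.1)
  have h1 : ∀ u : E, ContDiffOn ℝ ∞ (fun p : E × (E →L[ℝ] E) => p.2 u)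
      (U ×ˢ (range ((↑) : (E ≃L[ℝ] E) → E →L[ℝ] E))) := fun u =>
    (contDiff_snd.clm_apply contDiff_const).contDiffOn
  rw [contDiffOn_clm_apply]
  intro u
  rw [contDiffOn_clm_apply]
  intro v
  rw [contDiffOn_clm_apply]
  intro w
  have h : ContDiffOn ℝ ∞ (fun p : E × (E →L[ℝ] E) =>
      ContinuousLinearMap.inverse p.2 (Rm g p.1 (p.2 u) (p.2 v) (p.2 w)))
      (U ×ˢ (range ((↑) : (E ≃L[ℝ] E) → E →L[ℝ] E))) :=
    hinv.clm_apply (((hR.clm_apply (h1 u)).clm_apply (h1 v)).clm_apply (h1 w))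
  refine h.congr (fun q _ => ?_)
  simp [pull_apply]

theorem m10_pull_smooth (hg : IsMet U g) {p : E × (E →L[ℝ] E)} (hp : p.1 ∈ U)
    (hY : Function.Injective p.2) :
    ContDiffAt ℝ ∞ (fun p : E × (E →L[ℝ] E) => pull p.2 (Rm g p.1)) p := by
  obtain ⟨e, he⟩ : ∃ e : E ≃L[ℝ] E, (e : E →L[ℝ] E) = p.2 :=
    ⟨(LinearEquiv.ofInjectiveEndo (p.2 : E →ₗ[ℝ] E) hY).toContinuousLinearEquiv, by
      ext v; simp⟩
  exact (m10_pull_smoothOn hg).contDiffAt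
    ((hg.isOpen.prod ContinuousLinearEquiv.isOpen).mem_nhds ⟨hp, e, he⟩)

omit [FiniteDimensional ℝ E] in
theorem frs_injective {K : Set E} {p : E × (E →L[ℝ] E)}
    (hp : p ∈ frs g K) : Function.Injective p.2 := by
  rw [injective_iff_map_eq_zero]
  intro u hu
  have := hp.2 u u
  rw [hu] at this
  simpa using this.symm

theorem m10_lip (hg : IsMet U g) {K : Set E} (hK : IsCompact K) (hKU : K ⊆ U) :
    ∃ (V L R : ℝ≥0), LipschitzOnWith L (vel g) (frs g K) ∧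
      LipschitzOnWith R (fun p : E × (E →L[ℝ] E) => pull p.2 (Rm g p.1)) (frs g K) ∧
      ∀ p ∈ frs g K, ‖vel g p‖ ≤ V := by
  have hc := m10_compact hg hK hKU
  have hsm : ∀ p ∈ frs g K, ContDiffAt ℝ ∞ (vel g) p := fun p hp =>
    (m10_vel_smooth hg).contDiffAt ((hg.isOpen.prod isOpen_univ).mem_nhds ⟨hKU hp.1, trivial⟩)
  obtain ⟨L, hL⟩ := LocallyLipschitzOn.exists_lipschitzOnWith_of_compact hc
    (f := vel g) (fun p hp => by
      obtain ⟨C, t, ht, h⟩ := ((hsm p hp).of_le (by simp)).exists_lipschitzOnWith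
      exact ⟨C, t, mem_nhdsWithin_of_mem_nhds ht, h⟩)
  obtain ⟨R, hR⟩ := LocallyLipschitzOn.exists_lipschitzOnWith_of_compact hc
    (f := fun p : E × (E →L[ℝ] E) => pull p.2 (Rm g p.1)) (fun p hp => by
      obtain ⟨C, t, ht, h⟩ := ((m10_pull_smooth hg (hKU hp.1)
        (frs_injective hp)).of_le (n := ∞) (m := 1) (by simp)).exists_lipschitzOnWith
      exact ⟨C, t, mem_nhdsWithin_of_mem_nhds ht, h⟩)
  obtain ⟨V, hV⟩ := hc.exists_bound_of_continuousOn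
    (f := vel g) (fun p hp => (hsm p hp).continuousAt.continuousWithinAt)
  refine ⟨⟨max V 0, le_max_right _ _⟩, L, R, hL, hR, fun p hp => ?_⟩
  exact (hV p hp).trans (le_max_left _ _)

theorem m10_gronwall (V L : ℝ≥0) : ∃ C : ℝ, 0 ≤ C ∧ ∀ ε : ℝ, gronwallBound 0 L (0 + V * ε) 1 = C * ε := by
  rcases eq_or_ne (L : ℝ) 0 with h | h
  · refine ⟨V, V.2, fun ε => ?_⟩
    rw [h, gronwallBound_K0]
    ring
  · refine ⟨V / L * (Real.exp L - 1), ?_, fun ε => ?_⟩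
    · have : 1 ≤ Real.exp (L : ℝ) := Real.one_le_exp L.2
      have hL : (0:ℝ) ≤ L := L.2
      have hV : (0:ℝ) ≤ V := V.2
      exact mul_nonneg (by positivity) (by linarith)
    · rw [gronwallBound_of_K_ne_0 h]
      simp only [mul_one]
      ring

/-- Local comparison. -/
theorem m10_local (hg : IsMet U g) {K : Set E} (hK : IsCompact K) (hKU : K ⊆ U) :
    ∃ C : ℝ, 0 ≤ C ∧ ∀ (F H : ℝ → E × (E →L[ℝ] E)) (η : E) (θ : ℝ → E) (κ : ℝ → E →L[ℝ] E) (ε : ℝ),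
      ‖η‖ ≤ 1 → F 0 = H 0 → (∀ s ∈ Icc (0 : ℝ) 1, F s ∈ frs g K) →
      (∀ s ∈ Icc (0 : ℝ) 1, H s ∈ frs g K) →
      (∀ s ∈ Icc (0 : ℝ) 1, HasDerivAt F (vel g (F s) (η, 0)) s) →
      (∀ s ∈ Icc (0 : ℝ) 1, HasDerivAt H (vel g (H s) (θ s, κ s)) s) →
      (∀ s ∈ Icc (0 : ℝ) 1, ‖θ s - η‖ ≤ ε) → (∀ s ∈ Icc (0 : ℝ) 1, ‖κ s‖ ≤ ε) →
      ‖pull (F 1).2 (Rm g (F 1).1) - pull (H 1).2 (Rm g (H 1).1)‖ ≤ C * ε := by
  obtain ⟨V, L, R, hL, hR, hV⟩ := m10_lip hg hK hKU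
  obtain ⟨C, hC0, hC⟩ := m10_gronwall V L
  refine ⟨R * C, mul_nonneg R.2 hC0, ?_⟩
  intro F H η θ κ ε hη h0 hFK hHK hF hH hθ hκ
  have hd : ∀ t ∈ Icc (0 : ℝ) 1, dist (F t) (H t) ≤ gronwallBound 0 L (0 + V * ε) (t - 0) := by
    apply dist_le_of_approx_trajectories_ODE_of_mem (v := fun _ p => vel g p (η, 0))
      (s := fun _ => frs g K) (f' := fun s => vel g (F s) (η, 0))
      (g' := fun s => vel g (H s) (θ s, κ s))
    · intro t _
      refine LipschitzOnWith.of_dist_le_mul (fun p hp q hq => ?_)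
      rw [dist_eq_norm, ← sub_apply]
      refine (ContinuousLinearMap.le_opNorm _ _).trans ?_
      have h1 : ‖((η, 0) : E × (E →L[ℝ] E))‖ ≤ 1 := by simpa [Prod.norm_def] using hη
      have h2 := hL.dist_le_mul p hp q hq
      rw [dist_eq_norm] at h2
      calc ‖vel g p - vel g q‖ * ‖((η, 0) : E × (E →L[ℝ] E))‖
          ≤ ‖vel g p - vel g q‖ * 1 := by gcongr
        _ ≤ _ := by rw [mul_one]; exact h2
    · exact fun s hs => (hF s hs).continuousAt.continuousWithinAt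
    · exact fun s hs => (hF s (Ico_subset_Icc_self hs)).hasDerivWithinAt
    · intro s _; simp
    · exact fun s hs => hFK s (Ico_subset_Icc_self hs)
    · exact fun s hs => (hH s hs).continuousAt.continuousWithinAt
    · exact fun s hs => (hH s (Ico_subset_Icc_self hs)).hasDerivWithinAt
    · intro s hs
      have hs' := Ico_subset_Icc_self hs
      rw [dist_eq_norm, ← map_sub]
      refine (ContinuousLinearMap.le_opNorm _ _).trans ?_
      have h1 : ‖(θ s, κ s) - ((η, 0) : E × (E →L[ℝ] E))‖ ≤ ε := by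
        simp only [Prod.mk_sub_mk, sub_zero, Prod.norm_def]
        exact max_le (hθ s hs') (hκ s hs')
      exact mul_le_mul (hV _ (hHK s hs')) h1 (norm_nonneg _) V.2
    · exact fun s hs => hHK s (Ico_subset_Icc_self hs)
    · simp [h0]
  have h1 := hd 1 (by simp)
  rw [sub_zero, hC] at h1
  have h2 := hR.dist_le_mul (F 1) (hFK 1 (by simp)) (H 1) (hHK 1 (by simp))
  rw [dist_eq_norm] at h2
  calc _ ≤ R * dist (F 1) (H 1) := h2
    _ ≤ R * (C * ε) := by gcongr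
    _ = R * C * ε := by ring

end Local

variable {E : Type*} [NormedAddCommGroup E] [InnerProductSpace ℝ E] [FiniteDimensional ℝ E]
variable {M : Type*} [MetricSpace M] (G : GMfd E M)

namespace GMfd

/-- Comparison near a point. -/
theorem m10_near (q : M) : ∃ ρ > 0, ∃ C ≥ 0, ∀ (f h : ℝ → G.Fr) (η : E)
    (θ : ℝ → E) (κ : ℝ → E →L[ℝ] E) (ε : ℝ), dist q (f 0).m < ρ → f 0 = h 0 → ‖η‖ < ρ → ε < ρ →
    (∀ s ∈ Icc (0 : ℝ) 1, G.HasVel f η 0 s) → (∀ s ∈ Icc (0 : ℝ) 1, G.HasVel h (θ s) (κ s) s) →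
    ContinuousOn θ (Icc 0 1) →
    (∀ s ∈ Icc (0 : ℝ) 1, ‖θ s - η‖ ≤ ε) → (∀ s ∈ Icc (0 : ℝ) 1, ‖κ s‖ ≤ ε) →
    ‖G.Rf (f 1) - G.Rf (h 1)‖ ≤ C * ε := by
  -- a compact neighbourhood in the chart
  obtain ⟨r, hr0, hr⟩ := Metric.nhds_basis_closedBall.mem_iff.1
    ((G.met q).isOpen.mem_nhds (G.map_src q q (G.mem_src q)))
  have hK : IsCompact (closedBall (G.φ q q) r) := isCompact_closedBall _ _
  obtain ⟨δ, hδ0, hδ⟩ : ∃ δ > 0, ∀ m, dist q m < δ → m ∈ G.src q ∧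
      G.φ q m ∈ closedBall (G.φ q q) r := by
    have h1 : ∀ᶠ m in 𝓝 q, m ∈ G.src q := (G.src_open q).mem_nhds (G.mem_src q)
    have h2 : ContinuousAt (G.φ q) q :=
      (G.cont_φ q).continuousAt ((G.src_open q).mem_nhds (G.mem_src q))
    have h3 : ∀ᶠ m in 𝓝 q, G.φ q m ∈ closedBall (G.φ q q) r :=
      h2.eventually (closedBall_mem_nhds _ hr0)
    obtain ⟨δ, hδ0, hδ⟩ := Metric.eventually_nhds_iff.1 (h1.and h3)
    exact ⟨δ, hδ0, fun m hm => hδ (by rwa [dist_comm])⟩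
  obtain ⟨C, hC0, hC⟩ := m10_local (G.met q) hK hr
  refine ⟨min 1 (δ / 4), by positivity, C, hC0, ?_⟩
  intro f h η θ κ ε hq h0 hη hε hf hh hθc hθ hκ
  set ρ := min 1 (δ / 4) with hρ
  have hρ1 : ρ ≤ 1 := min_le_left _ _
  have hρδ : ρ ≤ δ / 4 := min_le_right _ _
  have key : ∀ (p : ℝ → G.Fr) (a : ℝ → E) (b : ℝ → E →L[ℝ] E), dist q (p 0).m < ρ →
      (∀ s ∈ Icc (0 : ℝ) 1, G.HasVel p (a s) (b s) s) → ContinuousOn a (Icc 0 1) →
      (∀ s ∈ Icc (0 : ℝ) 1, ‖a s‖ ≤ 2 * ρ) → ∀ s ∈ Icc (0 : ℝ) 1,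
      (p s).m ∈ G.src q ∧ G.cd q (p s) ∈ frs (G.g q) (closedBall (G.φ q q) r) := by
    intro p a b hp0 hp hac ha s hs
    have hd : dist (p 0).m (p s).m ≤ 2 * ρ * (s - 0) :=
      dist_le_of_hasVel hs.1 (fun t ht => hp t ⟨ht.1, ht.2.trans hs.2⟩)
        (hac.mono (Icc_subset_Icc le_rfl hs.2)) (fun t ht => ha t ⟨ht.1, ht.2.trans hs.2⟩)
    have hρ0 : 0 < ρ := by positivity
    have hd2 : 2 * ρ * (s - 0) ≤ 2 * ρ := by
      rw [sub_zero]
      exact mul_le_of_le_one_right (by positivity) hs.2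
    have hd3 : dist q (p s).m < δ := by
      have := dist_triangle q (p 0).m (p s).m
      linarith
    obtain ⟨h1, h2⟩ := hδ _ hd3
    exact ⟨h1, h2, fun u v => cd_isom h1 u v⟩
  have hηb : ‖η‖ ≤ 2 * ρ := by
    have := norm_nonneg η
    linarith
  have hθb : ∀ s ∈ Icc (0 : ℝ) 1, ‖θ s‖ ≤ 2 * ρ := by
    intro s hs
    have h1 := hθ s hs
    have h2 : ‖θ s‖ ≤ ‖θ s - η‖ + ‖η‖ := by
      simpa using norm_add_le (θ s - η) η
    linarith
  have kf := key f (fun _ => η) (fun _ => 0) hq hf continuousOn_const (fun _ _ => hηb)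
  have kh := key h θ κ (by rwa [← h0]) hh hθc hθb
  have h1m : (1:ℝ) ∈ Icc (0:ℝ) 1 := by simp
  rw [Rf_chart (kf 1 h1m).1, Rf_chart (kh 1 h1m).1]
  refine hC (fun s => G.cd q (f s)) (fun s => G.cd q (h s)) η θ κ ε (hη.le.trans hρ1)
    (by simp only [h0]) (fun s hs => (kf s hs).2) (fun s hs => (kh s hs).2)
    (fun s hs => (hf s hs).2 q (kf s hs).1) (fun s hs => (hh s hs).2 q (kh s hs).1) hθ hκ

section Complete

variable [CompleteSpace M]

/-- Two curves of frames with the same start and nearly the same velocities have nearly the same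
curvature at the end. -/
theorem control_compare (p : M) (S : ℝ) : ∃ ρ > 0, ∃ C ≥ 0, ∀ (f h : ℝ → G.Fr) (η : E)
    (θ : ℝ → E) (κ : ℝ → E →L[ℝ] E) (ε : ℝ), dist p (f 0).m ≤ S → f 0 = h 0 → ‖η‖ < ρ → ε < ρ →
    (∀ s ∈ Icc (0 : ℝ) 1, G.HasVel f η 0 s) → (∀ s ∈ Icc (0 : ℝ) 1, G.HasVel h (θ s) (κ s) s) →
    ContinuousOn θ (Icc 0 1) →
    (∀ s ∈ Icc (0 : ℝ) 1, ‖θ s - η‖ ≤ ε) → (∀ s ∈ Icc (0 : ℝ) 1, ‖κ s‖ ≤ ε) →
    ‖G.Rf (f 1) - G.Rf (h 1)‖ ≤ C * ε := by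
  have : ProperSpace M := G.proper
  choose ρ hρ C hC H using fun q => m10_near G q
  obtain ⟨t, ht, hcov⟩ := (isCompact_closedBall p S).elim_nhds_subcover (fun q => ball q (ρ q))
    (fun q _ => ball_mem_nhds q (hρ q))
  refine ⟨(insert (1:ℝ) (t.image ρ)).min' (by simp), ?_, (insert (0:ℝ) (t.image C)).max' (by simp),
    ?_, ?_⟩
  · rw [gt_iff_lt, Finset.lt_min'_iff]
    intro y hy
    rcases Finset.mem_insert.1 hy with h | h
    · rw [h]; norm_num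
    · obtain ⟨q, _, rfl⟩ := Finset.mem_image.1 h
      exact hρ q
  · exact Finset.le_max' _ _ (by simp)
  · intro f h η θ κ ε hS h0 hη hε hf hh hθc hθ hκ
    have hmem : (f 0).m ∈ closedBall p S := by rwa [mem_closedBall, dist_comm]
    obtain ⟨q, hqt, hq⟩ := mem_iUnion₂.1 (hcov hmem)
    have hqm : dist q (f 0).m < ρ q := by rwa [dist_comm]
    have hmin : (insert (1:ℝ) (t.image ρ)).min' (by simp) ≤ ρ q :=
      Finset.min'_le _ _ (Finset.mem_insert_of_mem (Finset.mem_image_of_mem _ hqt))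
    have hmax : C q ≤ (insert (0:ℝ) (t.image C)).max' (by simp) :=
      Finset.le_max' _ _ (Finset.mem_insert_of_mem (Finset.mem_image_of_mem _ hqt))
    have hε0 : 0 ≤ ε := (norm_nonneg _).trans (hκ 0 (by simp))
    refine (H q f h η θ κ ε hqm h0 (hη.trans_le hmin) (hε.trans_le hmin) hf hh hθc hθ hκ).trans ?_
    gcongr

end Complete

end GMfd

end Amb
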