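import Pool.Agent.Amb.M4s
import Pool.Agent.Amb.M1c
import Pool.Agent.Amb.L4

/-!
# M7: structure equations for families of frames on a manifold
-/

set_option maxSynthPendingDepth 3

namespace Amb

open Set Metric
open scoped ContDiff Topology

variable {E : Type*} [NormedAddCommGroup E] [InnerProductSpace ℝ E] [FiniteDimensional ℝ E]
variable {M : Type*} [MetricSpace M] (G : GMfd E M)
variable {X : Type*} [NormedAddCommGroup X] [NormedSpace ℝ X]

namespace GMfd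

variable {G} in
theorem struct {p : ℝ × ℝ → G.Fr} {z : ℝ × ℝ} (hp : G.SmAt p z)
    {a : ℝ → E} {a' : E} (ha : HasDerivAt a a' z.2)
    {b : ℝ × ℝ → E} {β : ℝ × ℝ → E →L[ℝ] E}
    (h1 : ∀ᶠ w in 𝓝 z, G.HasVel (fun t => p (t, w.2)) (a w.2) 0 w.1)
    (h2 : ∀ᶠ w in 𝓝 z, G.HasVel (fun s => p (w.1, s)) (b w) (β w) w.2) :
    HasDerivAt (fun t => b (t, z.2)) (a' + β z (a z.2)) z.1 ∧
    HasDerivAt (fun t => β (t, z.2)) (G.Rf (p z) (a z.2) (b z)) z.1 := by
  have hmem : (p z).m ∈ G.src (p z).m := G.mem_src _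
  have hnear : ∀ᶠ w in 𝓝 z, (p w).m ∈ G.src (p z).m :=
    hp.1 ((G.src_open _).mem_nhds hmem)
  have hP : ContDiffAt ℝ ∞ (fun w => G.cd (p z).m (p w)) z := hp.2 _ hmem
  have hU : (G.cd (p z).m (p z)).1 ∈ G.tgt (p z).m := G.map_src _ _ hmem
  have hY : Function.Injective (G.cd (p z).m (p z)).2 := (cd_bij hmem).1
  have h1' : ∀ᶠ w in 𝓝 z, HasDerivAt (fun t => G.cd (p z).m (p (t, w.2)))
      (vel (G.g (p z).m) (G.cd (p z).m (p w)) (a w.2, 0)) w.1 := by
    filter_upwards [h1, hnear] with w hw hs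
    exact hw.2 _ hs
  have h2' : ∀ᶠ w in 𝓝 z, HasDerivAt (fun s => G.cd (p z).m (p (w.1, s)))
      (vel (G.g (p z).m) (G.cd (p z).m (p w)) (b w, β w)) w.2 := by
    filter_upwards [h2, hnear] with w hw hs
    exact hw.2 _ hs
  have := struct_eq (G.met (p z).m) hP hU hY ha h1' h2'
  rw [Rf_chart hmem]
  exact this

section Complete

variable [CompleteSpace M]

/-- The differential of the development `x ↦ Psi x f`: along rays, `b (t) = Θ_{tx}(t ξ)` and
`β (t) = K_{tx}(t ξ)` satisfy the structure equations. -/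
theorem dev_struct (f : G.Fr) : ∃ (Θ : E → E →L[ℝ] E) (K : E → E →L[ℝ] E →L[ℝ] E),
    (∀ x, G.HasFVel (fun y => G.Psi y f) (Θ x) (K x) x) ∧ Θ 0 = ContinuousLinearMap.id ℝ E ∧
    K 0 = 0 ∧
    ∀ x ξ t, HasDerivAt (fun t : ℝ => Θ (t • x) (t • ξ)) (ξ + K (t • x) (t • ξ) x) t ∧
      HasDerivAt (fun t : ℝ => K (t • x) (t • ξ)) (G.Rf (G.Psi (t • x) f) x (Θ (t • x) (t • ξ))) t := by
  have hsm : ∀ x, G.SmAt (fun y => G.Psi y f) x := fun x =>
    Psi_smooth (G.smAt_const f x) contDiffAt_id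
  choose Θ K hΘ using fun x => (hsm x).exists_vel
  have hray : ∀ (v : E) (t : ℝ), Θ (t • v) v = v ∧ K (t • v) v = 0 := by
    intro v t
    have hc : HasDerivAt (fun s : ℝ => s • v) v t := by
      simpa using (hasDerivAt_id t).smul_const v
    have h1 : G.HasVel (fun s : ℝ => G.Psi (s • v) f) (Θ (t • v) v) (K (t • v) v) t :=
      (hΘ (t • v)).comp (c := fun s : ℝ => s • v) hc
    exact h1.unique (G.Psi_hasVel v f t)
  refine ⟨Θ, K, hΘ, ?_, ?_, ?_⟩
  · ext v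
    simpa using (hray v 0).1
  · ext v : 1
    simpa using (hray v 0).2
  · intro x ξ t
    let p : ℝ × ℝ → G.Fr := fun w => G.Psi (w.1 • (x + w.2 • ξ)) f
    have hp : G.SmAt p (t, 0) := by
      refine Psi_smooth (G.smAt_const f _) ?_
      fun_prop
    have ha : HasDerivAt (fun s : ℝ => x + s • ξ) ξ ((t, (0 : ℝ)) : ℝ × ℝ).2 := by
      simpa using ((hasDerivAt_id (0 : ℝ)).smul_const ξ).const_add x
    have h1 : ∀ᶠ w in 𝓝 ((t, 0) : ℝ × ℝ),
        G.HasVel (fun t => p (t, w.2)) (x + w.2 • ξ) 0 w.1 :=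
      Filter.Eventually.of_forall fun w => G.Psi_hasVel (x + w.2 • ξ) f w.1
    have h2 : ∀ᶠ w in 𝓝 ((t, 0) : ℝ × ℝ),
        G.HasVel (fun s => p (w.1, s)) (Θ (w.1 • (x + w.2 • ξ)) (w.1 • ξ))
          (K (w.1 • (x + w.2 • ξ)) (w.1 • ξ)) w.2 := by
      refine Filter.Eventually.of_forall fun w => ?_
      have hc0 : HasDerivAt (fun s : ℝ => x + s • ξ) ξ w.2 := by
        simpa using ((hasDerivAt_id w.2).smul_const ξ).const_add x
      have hc : HasDerivAt (fun s : ℝ => w.1 • (x + s • ξ)) (w.1 • ξ) w.2 :=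
        hc0.const_smul w.1
      exact (hΘ (w.1 • (x + w.2 • ξ))).comp (c := fun s : ℝ => w.1 • (x + s • ξ)) hc
    have := struct hp ha h1 h2
    simpa [p] using this

end Complete

end GMfd

end Amb
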