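import Pool.Agent.Amb.Jac
import Pool.Agent.Amb.M1a
import Pool.Agent.Amb.M1b
import Pool.Agent.Amb.M1c
import Pool.Agent.Amb.M4b
import Pool.Agent.Amb.M4s
import Pool.Agent.Amb.M7

/-!
# The core of the triangle estimate for two manifolds
-/

set_option maxSynthPendingDepth 3
set_option linter.unusedSectionVars false

namespace Amb

open Set Metric Filter
open scoped ContDiff Topology

variable {E : Type*} [NormedAddCommGroup E] [InnerProductSpace ℝ E] [FiniteDimensional ℝ E]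

namespace GMfd

section One

variable {M : Type*} [MetricSpace M] [CompleteSpace M] (G : GMfd E M)

theorem hasVel_const_tri (f : G.Fr) (t : ℝ) : G.HasVel (fun _ => f) 0 0 t := by
  refine ⟨continuousAt_const, fun q _ => ?_⟩
  have h1 : vel (G.g q) (G.cd q f) ((0 : E), (0 : E →L[ℝ] E)) = 0 := map_zero _
  rw [h1]
  exact hasDerivAt_const t _

/-- The structure equations of a radial family `p (t, s) = Psi (t ζ(s)) f`. -/
theorem radial (f : G.Fr) {J : Set ℝ} (hJ : IsOpen J) {ζ ζ' : ℝ → E}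
    (hζ : ∀ s ∈ J, ContDiffAt ℝ ∞ ζ s) (hζ' : ∀ s ∈ J, HasDerivAt ζ (ζ' s) s) :
    ∃ (b : ℝ × ℝ → E) (β : ℝ × ℝ → E →L[ℝ] E), ∀ s ∈ J,
      (∀ t, G.HasVel (fun s => G.Psi (t • ζ s) f) (b (t, s)) (β (t, s)) s) ∧
      b (0, s) = 0 ∧ β (0, s) = 0 ∧ (∀ t, ContinuousAt b (t, s)) ∧
      (∀ t, HasDerivAt (fun t => b (t, s)) (ζ' s + β (t, s) (ζ s)) t) ∧
      (∀ t, HasDerivAt (fun t => β (t, s)) (G.Rf (G.Psi (t • ζ s) f) (ζ s) (b (t, s))) t) := by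
  classical
  set p : ℝ × ℝ → G.Fr := fun w => G.Psi (w.1 • ζ w.2) f with hp
  have hsm : ∀ w : ℝ × ℝ, w.2 ∈ J → G.SmAt p w := by
    intro w hw
    refine Psi_smooth (G.smAt_const f w) ?_
    exact contDiffAt_fst.smul (ContDiffAt.comp (g := ζ) w (hζ _ hw) contDiffAt_snd)
  have hex : ∀ w : ℝ × ℝ, ∃ Θ : (ℝ × ℝ →L[ℝ] E) × (ℝ × ℝ →L[ℝ] E →L[ℝ] E), w.2 ∈ J →
      G.HasFVel p Θ.1 Θ.2 w := by
    intro w
    by_cases hw : w.2 ∈ J
    · obtain ⟨Θ, K, h⟩ := (hsm w hw).exists_vel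
      exact ⟨(Θ, K), fun _ => h⟩
    · exact ⟨0, fun h => absurd h hw⟩
  choose Θ hΘ using hex
  have hJ2 : IsOpen {w : ℝ × ℝ | w.2 ∈ J} := hJ.preimage continuous_snd
  have hs : ∀ w : ℝ × ℝ, w.2 ∈ J →
      G.HasVel (fun s => p (w.1, s)) ((Θ w).1 (0, 1)) ((Θ w).2 (0, 1)) w.2 := by
    intro w hw
    have hc : HasDerivAt (fun s : ℝ => (w.1, s)) ((0 : ℝ), (1 : ℝ)) w.2 :=
      (hasDerivAt_const w.2 w.1).prodMk (hasDerivAt_id w.2)
    exact HasFVel.comp (c := fun s : ℝ => (w.1, s)) (t := w.2) (hΘ w hw) hc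
  have ht : ∀ w : ℝ × ℝ, G.HasVel (fun t => p (t, w.2)) (ζ w.2) 0 w.1 := by
    intro w
    exact G.Psi_hasVel (ζ w.2) f w.1
  refine ⟨fun w => (Θ w).1 (0, 1), fun w => (Θ w).2 (0, 1), fun s hsJ => ?_⟩
  have h0 := hs (0, s) hsJ
  have h0' : G.HasVel (fun s => p (0, s)) 0 0 s := by
    have e : (fun s => p (0, s)) = fun _ => f := by
      funext s
      simp only [hp, zero_smul]
      exact G.Psi_zero f
    rw [e]
    exact G.hasVel_const_tri f s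
  have hu := HasVel.unique h0 h0'
  have hst : ∀ t : ℝ, _ := fun t => struct (p := p) (z := (t, s)) (hsm (t, s) hsJ) (a := ζ) (hζ' s hsJ)
    (b := fun w => (Θ w).1 (0, 1)) (β := fun w => (Θ w).2 (0, 1))
    (Eventually.of_forall fun w => ht w)
    (by filter_upwards [hJ2.mem_nhds (show (t, s) ∈ {w : ℝ × ℝ | w.2 ∈ J} from hsJ)] with w hw; exact hs w hw)
  refine ⟨fun t => hs (t, s) hsJ, hu.1, hu.2, fun t => ?_, fun t => (hst t).1, fun t => (hst t).2⟩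
  have hv := SmAt.vel_smooth (hsm (t, s) hsJ) (Θ := fun w => (Θ w).1) (K := fun w => (Θ w).2)
    (by filter_upwards [hJ2.mem_nhds (show (t, s) ∈ {w : ℝ × ℝ | w.2 ∈ J} from hsJ)] with w hw; exact hΘ w hw)
  exact hv.1.continuousAt.clm_apply continuousAt_const

/-- If the curve `s ↦ Psi (ζ s) f` of frames lies over a geodesic of speed `‖η‖`, the derivative of
`ζ` is at most `2 ‖η‖` (for small `ζ`). -/
theorem zeta_bound {K : ℝ} (hK : 0 ≤ K) {f : G.Fr} {ζ0 ζ'0 : E} {b : ℝ → E} {β : ℝ → E →L[ℝ] E}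
    (hR : ∀ t ∈ Icc (0 : ℝ) 1, ‖G.Rf (G.Psi (t • ζ0) f)‖ ≤ K) (hsmall : ‖ζ0‖ * Real.exp (2 * (1 + K)) ≤ 1 / 2)
    (h0 : b 0 = 0) (h0' : β 0 = 0)
    (hb : ∀ t, HasDerivAt b (ζ'0 + β t ζ0) t)
    (hβ : ∀ t, HasDerivAt β (G.Rf (G.Psi (t • ζ0) f) ζ0 (b t)) t) :
    ‖ζ'0‖ ≤ 2 * ‖b 1‖ := by
  have hζ1 : ‖ζ0‖ ≤ 1 := by
    have h1 : (1:ℝ) ≤ Real.exp (2 * (1 + K)) := Real.one_le_exp (by linarith)
    have h2 : 0 ≤ ‖ζ0‖ := norm_nonneg _
    nlinarith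
  have V : Vel (fun t => G.Rf (G.Psi (t • ζ0) f)) ζ0 ζ'0 b β :=
    ⟨fun t _ => (hb t).hasDerivWithinAt, fun t _ => (hβ t).hasDerivWithinAt, h0, h0'⟩
  have hbd := V.bound hK (fun t ht u v => by
    have h1 : ‖G.Rf (G.Psi (t • ζ0) f) u‖ ≤ K * ‖u‖ := ContinuousLinearMap.le_of_opNorm_le _ (hR t ht) u
    exact ContinuousLinearMap.le_of_opNorm_le _ h1 v)
  have hβb : ∀ t ∈ Icc (0:ℝ) 1, ‖β t‖ ≤ ‖ζ'0‖ * Real.exp (2 * (1 + K)) := by
    intro t ht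
    refine (hbd t ht).2.trans ?_
    have e1 : Real.exp ((1 + K) * ‖ζ0‖ * t) ≤ Real.exp (2 * (1 + K)) := by
      apply Real.exp_le_exp.2
      have h2 : 0 ≤ ‖ζ0‖ := norm_nonneg _
      have h3 : ‖ζ0‖ * t ≤ 1 := by nlinarith [ht.1, ht.2]
      nlinarith [ht.1]
    have e2 : ‖ζ'0‖ * t ≤ ‖ζ'0‖ := by nlinarith [ht.2, norm_nonneg ζ'0]
    calc ‖ζ'0‖ * t * Real.exp ((1 + K) * ‖ζ0‖ * t) ≤ ‖ζ'0‖ * t * Real.exp (2 * (1 + K)) :=
          mul_le_mul_of_nonneg_left e1 (mul_nonneg (norm_nonneg _) ht.1)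
      _ ≤ ‖ζ'0‖ * Real.exp (2 * (1 + K)) := mul_le_mul_of_nonneg_right e2 (Real.exp_pos _).le
  have hmv : ‖(b 1 - (1:ℝ) • ζ'0) - (b 0 - (0:ℝ) • ζ'0)‖ ≤ (‖ζ'0‖ * Real.exp (2 * (1 + K)) * ‖ζ0‖) * ‖(1:ℝ) - 0‖ := by
    refine (convex_Icc (0:ℝ) 1).norm_image_sub_le_of_norm_hasDerivWithin_le
      (f := fun t => b t - t • ζ'0) (f' := fun t => β t ζ0) ?_ ?_ (by simp) (by simp)
    · intro t _
      have h1 := (hb t).sub ((hasDerivAt_id t).smul_const ζ'0)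
      simp only [one_smul, id_eq, add_sub_cancel_left] at h1
      exact h1.hasDerivWithinAt
    · intro t ht
      exact (β t).le_of_opNorm_le (hβb t ht) ζ0
  rw [h0] at hmv
  simp only [one_smul, zero_smul, sub_zero, norm_one, mul_one] at hmv
  have h5 : ‖ζ'0‖ ≤ ‖b 1‖ + ‖b 1 - ζ'0‖ := by
    have := norm_sub_le (b 1) (b 1 - ζ'0)
    rw [sub_sub_cancel] at this
    exact this
  have h6 : ‖ζ'0‖ * Real.exp (2 * (1 + K)) * ‖ζ0‖ ≤ ‖ζ'0‖ * (1 / 2) := by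
    have := mul_le_mul_of_nonneg_left hsmall (norm_nonneg ζ'0)
    linarith
  linarith

end One

variable {M₁ : Type*} [MetricSpace M₁] [CompleteSpace M₁] {M₂ : Type*} [MetricSpace M₂] [CompleteSpace M₂]

theorem Fr.rot_symm {M : Type*} [MetricSpace M] {G : GMfd E M} (f : G.Fr) (k : E ≃ₗᵢ[ℝ] E) :
    (f.rot k).rot k.symm = f := by
  apply Fr.ext
  · rfl
  · ext v
    simp [Fr.rot]

/-- The core of the triangle estimate. -/
theorem tri_core (G₁ : GMfd E M₁) (G₂ : GMfd E M₂) {K : ℝ} (hK : 0 ≤ K) : ∃ C : ℝ, 0 ≤ C ∧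
    ∀ (f₁ : G₁.Fr) (f₂ : G₂.Fr) (J : Set ℝ) (ζ : ℝ → E) (η : E) (t δ : ℝ), IsOpen J → Icc 0 1 ⊆ J →
      (∀ s ∈ J, ContDiffAt ℝ ∞ ζ s) → (∀ s ∈ Icc (0 : ℝ) 1, ‖ζ s‖ ≤ t) →
      t * Real.exp (2 * (1 + K)) ≤ 1 / 2 →
      (∀ s ∈ Icc (0 : ℝ) 1, ∀ u ∈ Icc (0 : ℝ) 1, ‖G₁.Rf (G₁.Psi (u • ζ s) f₁)‖ ≤ K) →
      (∀ s ∈ Icc (0 : ℝ) 1, ∀ u ∈ Icc (0 : ℝ) 1, ‖G₂.Rf (G₂.Psi (u • ζ s) f₂)‖ ≤ K) →
      (∀ s ∈ J, (G₁.Psi (ζ s) f₁).m = (G₁.Psi (s • η) (G₁.Psi (ζ 0) f₁)).m) → 0 ≤ δ →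
      (∀ s ∈ Icc (0 : ℝ) 1, ∀ u ∈ Icc (0 : ℝ) 1,
        ‖G₁.Rf (G₁.Psi (u • ζ s) f₁) - G₂.Rf (G₂.Psi (u • ζ s) f₂)‖ ≤ δ) →
      ∃ (k : E ≃ₗᵢ[ℝ] E) (h : ℝ → G₂.Fr) (θ : ℝ → E) (κ : ℝ → E →L[ℝ] E),
        G₁.Psi (ζ 1) f₁ = (G₁.Psi η (G₁.Psi (ζ 0) f₁)).rot k ∧ h 0 = G₂.Psi (ζ 0) f₂ ∧
        h 1 = (G₂.Psi (ζ 1) f₂).rot k.symm ∧ (∀ s ∈ Icc (0 : ℝ) 1, G₂.HasVel h (θ s) (κ s) s) ∧
        ContinuousOn θ (Icc 0 1) ∧ (∀ s ∈ Icc (0 : ℝ) 1, ‖θ s - η‖ ≤ C * (t * ‖η‖ * δ)) ∧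
        (∀ s ∈ Icc (0 : ℝ) 1, ‖κ s‖ ≤ C * (t * ‖η‖ * δ)) := by
  classical
  obtain ⟨C, hC, hcmp⟩ := struct_compare (E := E) K
  refine ⟨2 * C, by positivity, ?_⟩
  intro f₁ f₂ J ζ η t δ hJ hJ1 hζ hζt ht hR1 hR2 hbase hδ hD
  have hζ' : ∀ s ∈ J, HasDerivAt ζ (deriv ζ s) s := fun s hs =>
    ((hζ s hs).differentiableAt (by simp)).hasDerivAt
  obtain ⟨b1, β1, H1⟩ := G₁.radial f₁ hJ hζ hζ'
  obtain ⟨b2, β2, H2⟩ := G₂.radial f₂ hJ hζ hζ'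
  set g : ℝ → G₁.Fr := fun s => G₁.Psi (s • η) (G₁.Psi (ζ 0) f₁) with hg
  set P1 : ℝ → G₁.Fr := fun s => G₁.Psi (ζ s) f₁ with hP1
  set P2 : ℝ → G₂.Fr := fun s => G₂.Psi (ζ s) f₂ with hP2
  have hgv : ∀ s, G₁.HasVel g η 0 s := fun s => G₁.Psi_hasVel η _ s
  have hP1v : ∀ s ∈ J, G₁.HasVel P1 (b1 (1, s)) (β1 (1, s)) s := by
    intro s hs
    have := (H1 s hs).1 1
    simpa only [one_smul] using this
  have hP2v : ∀ s ∈ J, G₂.HasVel P2 (b2 (1, s)) (β2 (1, s)) s := by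
    intro s hs
    have := (H2 s hs).1 1
    simpa only [one_smul] using this
  have hex : ∀ s : ℝ, ∃ k : E ≃ₗᵢ[ℝ] E, s ∈ J → P1 s = (g s).rot k := by
    intro s
    by_cases hs : s ∈ J
    · obtain ⟨k, hk⟩ := exists_rot (f := g s) (f' := P1 s) (hbase s hs).symm
      exact ⟨k, fun _ => hk⟩
    · exact ⟨LinearIsometryEquiv.refl ℝ E, fun h => absurd h hs⟩
  choose k hk using hex
  have hrd : ∀ s ∈ J, HasDerivAt (fun s => (((k s).symm).toContinuousLinearEquiv : E →L[ℝ] E))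
      ((((k s).symm).toContinuousLinearEquiv : E →L[ℝ] E) ∘L (0 : E →L[ℝ] E) -
        β1 (1, s) ∘L (((k s).symm).toContinuousLinearEquiv : E →L[ℝ] E)) s ∧ b1 (1, s) = (k s).symm η := by
    intro s hs
    refine rot_deriv (f := P1) (f' := g) (hP1v s hs) (hgv s) (k := fun s => (k s).symm) ?_
    filter_upwards [hJ.mem_nhds hs] with r hr
    rw [hk r hr, Fr.rot_symm]
  have h01 : ∀ s ∈ Icc (0 : ℝ) 1, s ∈ J := fun s hs => hJ1 hs
  have h0J : (0 : ℝ) ∈ J := hJ1 ⟨le_rfl, zero_le_one⟩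
  have h1J : (1 : ℝ) ∈ J := hJ1 ⟨zero_le_one, le_rfl⟩
  set h : ℝ → G₂.Fr := fun s => (P2 s).rot (k s).symm with hh
  have ht0 : 0 ≤ t := (norm_nonneg _).trans (hζt 0 ⟨le_rfl, zero_le_one⟩)
  have hex1 : (1:ℝ) ≤ Real.exp (2 * (1 + K)) := Real.one_le_exp (by linarith)
  have hζ1 : ∀ s ∈ Icc (0 : ℝ) 1, ‖ζ s‖ ≤ 1 := by
    intro s hs
    have := hζt s hs
    nlinarith
  -- the bound for the derivative of `ζ`
  have hζb : ∀ s ∈ Icc (0 : ℝ) 1, ‖deriv ζ s‖ ≤ 2 * ‖η‖ := by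
    intro s hs
    obtain ⟨_, z1, z2, _, z4, z5⟩ := H1 s (h01 s hs)
    have h1 := G₁.zeta_bound hK (f := f₁) (ζ0 := ζ s) (ζ'0 := deriv ζ s) (b := fun t => b1 (t, s))
      (β := fun t => β1 (t, s)) (hR1 s hs) (le_trans (mul_le_mul_of_nonneg_right (hζt s hs) (Real.exp_pos _).le) ht)
      z1 z2 z4 z5
    refine h1.trans ?_
    rw [(hrd s (h01 s hs)).2, LinearIsometryEquiv.norm_map]
  -- comparison of the velocities
  have hcc : ∀ s ∈ Icc (0 : ℝ) 1, ‖b1 (1, s) - b2 (1, s)‖ ≤ 2 * C * (t * ‖η‖ * δ) ∧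
      ‖β1 (1, s) - β2 (1, s)‖ ≤ 2 * C * (t * ‖η‖ * δ) := by
    intro s hs
    obtain ⟨_, z1, z2, _, z4, z5⟩ := H1 s (h01 s hs)
    obtain ⟨_, w1, w2, _, w4, w5⟩ := H2 s (h01 s hs)
    have h1 := hcmp (ζ s) (deriv ζ s) (fun u => G₁.Rf (G₁.Psi (u • ζ s) f₁)) (fun u => G₂.Rf (G₂.Psi (u • ζ s) f₂))
      (fun u => b1 (u, s)) (fun u => b2 (u, s)) (fun u => β1 (u, s)) (fun u => β2 (u, s)) δ (hζ1 s hs)
      (hR1 s hs) (hR2 s hs) (hD s hs) (fun u _ => z4 u) (fun u _ => z5 u) (fun u _ => w4 u) (fun u _ => w5 u)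
      z1 z2 w1 w2 1 ⟨zero_le_one, le_rfl⟩
    have h2 : C * (‖ζ s‖ * ‖deriv ζ s‖ * δ) ≤ 2 * C * (t * ‖η‖ * δ) := by
      have h3 : ‖ζ s‖ * ‖deriv ζ s‖ ≤ t * (2 * ‖η‖) :=
        mul_le_mul (hζt s hs) (hζb s hs) (norm_nonneg _) ht0
      have h4 : C * (‖ζ s‖ * ‖deriv ζ s‖ * δ) ≤ C * (t * (2 * ‖η‖) * δ) :=
        mul_le_mul_of_nonneg_left (mul_le_mul_of_nonneg_right h3 hδ) hC
      linarith
    exact ⟨h1.2.1.trans h2, h1.2.2.trans h2⟩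
  have hhv : ∀ s ∈ J, G₂.HasVel h (((k s).symm).symm (b2 (1, s)))
      ((((k s).symm.symm).toContinuousLinearEquiv : E →L[ℝ] E) ∘L
        (β2 (1, s) ∘L (((k s).symm).toContinuousLinearEquiv : E →L[ℝ] E) +
          ((((k s).symm).toContinuousLinearEquiv : E →L[ℝ] E) ∘L (0 : E →L[ℝ] E) -
            β1 (1, s) ∘L (((k s).symm).toContinuousLinearEquiv : E →L[ℝ] E)))) s :=
    fun s hs => HasVel.rot (hP2v s hs) (k := fun s => (k s).symm) (hrd s hs).1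
  refine ⟨k 1, h, fun s => ((k s).symm).symm (b2 (1, s)), _, ?_, ?_, rfl, fun s hs => hhv s (h01 s hs), ?_, ?_, ?_⟩
  · have := hk 1 h1J
    simpa only [hP1, hg, one_smul] using this
  · have e1 := hk 0 h0J
    have e2 : g 0 = P1 0 := by
      simp only [hg, hP1, zero_smul]
      exact G₁.Psi_zero _
    rw [e2] at e1
    have e3 : k 0 = LinearIsometryEquiv.refl ℝ E := by
      ext v
      have e4 := congrArg Fr.Y e1
      have e5 : (P1 0).Y v = (P1 0).Y (k 0 v) := by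
        have := DFunLike.congr_fun e4 v
        simpa [Fr.rot] using this
      exact ((P1 0).bij.1 e5).symm
    simp only [hh, e3]
    apply Fr.ext
    · rfl
    · ext v
      simp [Fr.rot, hP2]
  · intro s hs
    have hkc : ContinuousAt (fun s => ((k s).toContinuousLinearEquiv : E →L[ℝ] E)) s := by
      have h1 : ContinuousAt (fun s => ContinuousLinearMap.adjoint (((k s).symm).toContinuousLinearEquiv : E →L[ℝ] E)) s :=
        (ContinuousLinearMap.adjoint (𝕜 := ℝ) (E := E) (F := E)).continuous.continuousAt.comp (hrd s (h01 s hs)).1.continuousAt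
      refine h1.congr (Eventually.of_forall fun r => ?_)
      apply ContinuousLinearMap.ext
      intro v
      apply ext_inner_right ℝ
      intro w
      rw [ContinuousLinearMap.adjoint_inner_left]
      have := (k r).inner_map_map v ((k r).symm w)
      simp only [LinearIsometryEquiv.apply_symm_apply] at this
      simpa using this.symm
    have hbc : ContinuousAt (fun s => b2 (1, s)) s := by
      have h1 := (H2 s (h01 s hs)).2.2.2.1 1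
      exact ContinuousAt.comp (f := fun s : ℝ => ((1:ℝ), s)) h1 (continuousAt_const.prodMk continuousAt_id)
    have := hkc.clm_apply hbc
    exact this.continuousWithinAt
  · intro s hs
    have e1 : η = k s (b1 (1, s)) := by rw [(hrd s (h01 s hs)).2]; simp
    have e2 : ((k s).symm).symm (b2 (1, s)) - η = k s (b2 (1, s) - b1 (1, s)) := by
      rw [map_sub, ← e1]
      simp
    rw [e2, LinearIsometryEquiv.norm_map, norm_sub_rev]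
    exact (hcc s hs).1
  · intro s hs
    have e1 : ((((k s).symm.symm).toContinuousLinearEquiv : E →L[ℝ] E) ∘L
        (β2 (1, s) ∘L (((k s).symm).toContinuousLinearEquiv : E →L[ℝ] E) +
          ((((k s).symm).toContinuousLinearEquiv : E →L[ℝ] E) ∘L (0 : E →L[ℝ] E) -
            β1 (1, s) ∘L (((k s).symm).toContinuousLinearEquiv : E →L[ℝ] E))))
        = ((k s).toContinuousLinearEquiv : E →L[ℝ] E) ∘L
          ((β2 (1, s) - β1 (1, s)) ∘L (((k s).symm).toContinuousLinearEquiv : E →L[ℝ] E)) := by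
      ext v
      simp [sub_eq_add_neg]
    rw [e1]
    refine ContinuousLinearMap.opNorm_le_bound _ (by positivity) fun v => ?_
    have e2 : (((k s).toContinuousLinearEquiv : E →L[ℝ] E) ∘L
          ((β2 (1, s) - β1 (1, s)) ∘L (((k s).symm).toContinuousLinearEquiv : E →L[ℝ] E))) v
        = k s ((β2 (1, s) - β1 (1, s)) ((k s).symm v)) := rfl
    rw [e2, LinearIsometryEquiv.norm_map]
    have e3 : ‖β2 (1, s) - β1 (1, s)‖ ≤ 2 * C * (t * ‖η‖ * δ) := by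
      rw [norm_sub_rev]; exact (hcc s hs).2
    have := (β2 (1, s) - β1 (1, s)).le_of_opNorm_le e3 ((k s).symm v)
    rwa [LinearIsometryEquiv.norm_map] at this

end GMfd

end Amb
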