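import Pool.Agent.Amb.C1
import Pool.Agent.Amb.Tri
import Pool.Agent.Amb.M1a
import Pool.Agent.Amb.M1b
import Pool.Agent.Amb.M1c
import Pool.Agent.Amb.M2
import Pool.Agent.Amb.M3
import Pool.Agent.Amb.M3b
import Pool.Agent.Amb.M4b
import Pool.Agent.Amb.M4s
import Pool.Agent.Amb.M5
import Pool.Agent.Amb.M10

/-!
# The triangle estimates for configurations
-/

set_option maxSynthPendingDepth 3
set_option linter.unusedSectionVars false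

namespace Amb

open Set Metric Filter
open scoped ContDiff Topology

variable {E : Type*} [NormedAddCommGroup E] [InnerProductSpace ℝ E] [FiniteDimensional ℝ E]
variable {M₁ M₂ : Type*} [MetricSpace M₁] [MetricSpace M₂] [CompleteSpace M₁] [CompleteSpace M₂]
variable {G₁ : GMfd E M₁} {G₂ : GMfd E M₂}

namespace GMfd

/-- the data of a small triangle -/
theorem tri_curve (G : GMfd E M₁) {f : G.Fr} {m w : M₁} {ρ t : ℝ} (ha : G.GoodAt f.m ρ) (hm : G.GoodAt m ρ)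
    {q : M₁} {ρ' : ℝ} (hρ : ρ ≤ ρ') (hq : G.Good q ρ') (hqa : dist q f.m < ρ')
    (h1 : dist f.m m < ρ) (h2 : dist f.m w < ρ) (h3 : dist m w < ρ)
    (t1 : dist f.m m ≤ t) (t2 : dist f.m w ≤ t) :
    ∃ (J : Set ℝ) (ζ : ℝ → E) (η : E), IsOpen J ∧ Icc 0 1 ⊆ J ∧ (∀ s ∈ J, ContDiffAt ℝ ∞ ζ s) ∧
      (∀ s ∈ Icc (0 : ℝ) 1, ‖ζ s‖ ≤ t ∧ ‖ζ s‖ < ρ) ∧
      (∀ s ∈ J, (G.Psi (ζ s) f).m = (G.Psi (s • η) (G.Psi (ζ 0) f)).m) ∧
      ‖η‖ = dist m w ∧ (G.Psi (ζ 0) f).m = m ∧ (G.Psi (ζ 1) f).m = w ∧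
      (G.Psi η (G.Psi (ζ 0) f)).m = w ∧
      (∀ s ∈ Icc (0 : ℝ) 1, (G.Psi (ζ s) f).m = G.seg m w s) := by
  classical
  obtain ⟨ξm, hξm, hξm'⟩ := ha.surj f rfl m h1
  obtain ⟨η, hη, hη'⟩ := hm.surj (G.Psi ξm f) hξm' w h3
  have hηd : ‖η‖ = dist m w := by
    rw [← hm.dist_eq (G.Psi ξm f) hξm' η hη, hη']
  set F0 := G.Psi ξm f with hF0
  set y : ℝ → M₁ := fun s => (G.Psi (s • η) F0).m with hy
  have hySm : ∀ s, G.SmPt y s := by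
    intro s
    have hs : ContDiffAt ℝ ∞ (fun s : ℝ => s • η) s := contDiffAt_id.smul contDiffAt_const
    exact (Psi_smooth (G.smAt_const F0 s) hs).smPt
  have hyc : Continuous y := continuous_iff_continuousAt.2 fun s => (hySm s).1
  set J : Set ℝ := {s | dist f.m (y s) < ρ} with hJ
  have hJo : IsOpen J := isOpen_lt (continuous_const.dist hyc) continuous_const
  have hdist : ∀ s ∈ Icc (0 : ℝ) 1, dist f.m (y s) ≤ max (dist f.m m) (dist f.m w) := by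
    intro s hs
    have := hm.conv F0 hξm' f.m η hη h1 (by rw [hη']; exact h2) s hs
    rw [hη'] at this
    exact this
  have hJ1 : Icc 0 1 ⊆ J := fun s hs => (hdist s hs).trans_lt (max_lt h1 h2)
  have hex : ∀ s, ∃ ξ : E, s ∈ J → ‖ξ‖ < ρ ∧ (G.Psi ξ f).m = y s := by
    intro s
    by_cases hs : s ∈ J
    · obtain ⟨ξ, hξ⟩ := ha.surj f rfl (y s) hs
      exact ⟨ξ, fun _ => hξ⟩
    · exact ⟨0, fun h => absurd h hs⟩
  choose ζ hζ using hex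
  have h0J : (0 : ℝ) ∈ J := hJ1 ⟨le_rfl, zero_le_one⟩
  have h1J : (1 : ℝ) ∈ J := hJ1 ⟨zero_le_one, le_rfl⟩
  have hy0 : y 0 = m := by
    simp only [hy, zero_smul]
    rw [G.Psi_zero]
    exact hξm'
  have hy1 : y 1 = w := by
    simp only [hy, one_smul]
    exact hη'
  have hζ0 : ζ 0 = ξm := by
    refine ha.inj f rfl _ _ (hζ 0 h0J).1 hξm ?_
    rw [(hζ 0 h0J).2, hy0, hξm']
  refine ⟨J, ζ, η, hJo, hJ1, ?_, ?_, ?_, hηd, ?_, ?_, ?_, ?_⟩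
  · intro s hs
    refine hq.log_smooth (f := fun _ => f) (y := y) (G.smAt_const f s) (hySm s) hqa ?_
    filter_upwards [hJo.mem_nhds hs] with r hr
    exact ⟨(hζ r hr).1.trans_le hρ, (hζ r hr).2⟩
  · intro s hs
    have hsJ := hJ1 hs
    refine ⟨?_, (hζ s hsJ).1⟩
    rw [← ha.dist_eq f rfl _ (hζ s hsJ).1, (hζ s hsJ).2]
    exact (hdist s hs).trans (max_le t1 t2)
  · intro s hs
    rw [(hζ s hs).2, hζ0]
  · rw [(hζ 0 h0J).2, hy0]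
  · rw [(hζ 1 h1J).2, hy1]
  · rw [hζ0]; exact hη'
  · intro s hs
    rw [(hζ s (hJ1 hs)).2]
    have := seg_Psi hm (f := F0) hξm' hη s
    rw [hη'] at this
    exact this.symm

end GMfd

namespace Conf

open GMfd

/-- The triangle in configurations, common part of both forms. -/
theorem tri_both {K : ℝ} (hK : 0 ≤ K) : ∃ C : ℝ, 0 ≤ C ∧ ∀ (f₁ : G₁.Fr) (f₂ : G₂.Fr) (m w : M₁) (ρ t δ : ℝ)
    (q : M₁) (ρ' : ℝ), G₁.GoodAt f₁.m ρ → G₁.GoodAt m ρ → ρ ≤ ρ' → G₁.Good q ρ' → dist q f₁.m < ρ' →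
    dist f₁.m m < ρ → dist f₁.m w < ρ → dist m w < ρ → dist f₁.m m ≤ t → dist f₁.m w ≤ t →
    t * Real.exp (2 * (1 + K)) ≤ 1 / 2 →
    (∀ ξ : E, ‖ξ‖ ≤ t → ‖G₁.Rf (G₁.Psi ξ f₁)‖ ≤ K) →
    (∀ ξ : E, ‖ξ‖ ≤ t → ‖G₁.Rf (G₁.Psi ξ f₁) - G₂.Rf (G₂.Psi ξ f₂)‖ ≤ δ → ‖G₂.Rf (G₂.Psi ξ f₂)‖ ≤ K) →
    (∀ s ∈ Icc (0 : ℝ) 1, ∀ u ∈ Icc (0 : ℝ) 1,
        (step (mk f₁ f₂) (G₁.seg f₁.m (G₁.seg m w s) u)).D ≤ δ) →
    ∃ (F₁ : G₁.Fr) (F₂ : G₂.Fr) (η : E) (h : ℝ → G₂.Fr) (θ : ℝ → E) (κ : ℝ → E →L[ℝ] E),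
      ‖η‖ = dist m w ∧ dist f₂.m F₂.m ≤ t ∧
      step (step (mk f₁ f₂) m) w = mk (G₁.Psi η F₁) (G₂.Psi η F₂) ∧
      step (mk f₁ f₂) w = mk (G₁.Psi η F₁) (h 1) ∧ h 0 = F₂ ∧
      (∀ s ∈ Icc (0 : ℝ) 1, G₂.HasVel h (θ s) (κ s) s) ∧ ContinuousOn θ (Icc 0 1) ∧
      (∀ s ∈ Icc (0 : ℝ) 1, ‖θ s - η‖ ≤ C * (t * ‖η‖ * δ)) ∧
      (∀ s ∈ Icc (0 : ℝ) 1, ‖κ s‖ ≤ C * (t * ‖η‖ * δ)) := by
  obtain ⟨C, hC, hcore⟩ := tri_core G₁ G₂ hK
  refine ⟨C, hC, ?_⟩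
  intro f₁ f₂ m w ρ t δ q ρ' ga gm hρ hq hqa h1 h2 h3 t1 t2 ht hK1 hK2 hD
  obtain ⟨J, ζ, η, hJ, hJ1, hζs, hζt, hbase, hη, hm, hw, hw2, hseg⟩ :=
    G₁.tri_curve ga gm hρ hq hqa h1 h2 h3 t1 t2
  have hcone : ∀ s ∈ Icc (0 : ℝ) 1, ∀ u ∈ Icc (0 : ℝ) 1, ‖u • ζ s‖ ≤ t ∧ ‖u • ζ s‖ < ρ := by
    intro s hs u hu
    have a1 := hζt s hs
    have a2 : ‖u • ζ s‖ ≤ ‖ζ s‖ := by
      rw [norm_smul, Real.norm_eq_abs, abs_of_nonneg hu.1]
      have := norm_nonneg (ζ s)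
      nlinarith [hu.2]
    exact ⟨a2.trans a1.1, a2.trans_lt a1.2⟩
  have hDc : ∀ s ∈ Icc (0 : ℝ) 1, ∀ u ∈ Icc (0 : ℝ) 1,
      ‖G₁.Rf (G₁.Psi (u • ζ s) f₁) - G₂.Rf (G₂.Psi (u • ζ s) f₂)‖ ≤ δ := by
    intro s hs u hu
    have a1 := hD s hs u hu
    rw [← hseg s hs, seg_Psi ga rfl (hζt s hs).2, step_mk ga (hcone s hs u hu).2, D_mk] at a1
    exact a1
  have h00 : (0:ℝ) ∈ Icc (0:ℝ) 1 := ⟨le_rfl, zero_le_one⟩
  have h11 : (1:ℝ) ∈ Icc (0:ℝ) 1 := ⟨zero_le_one, le_rfl⟩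
  have hδ : 0 ≤ δ := (norm_nonneg _).trans (hDc 0 h00 0 h00)
  obtain ⟨k, h, θ, κ, c1, c2, c3, c4, c5, c6, c7⟩ := hcore f₁ f₂ J ζ η t δ hJ hJ1 hζs
    (fun s hs => (hζt s hs).1) ht (fun s hs u hu => hK1 _ (hcone s hs u hu).1)
    (fun s hs u hu => hK2 _ (hcone s hs u hu).1 (hDc s hs u hu)) hbase hδ hDc
  have hst1 : step (mk f₁ f₂) m = mk (G₁.Psi (ζ 0) f₁) (G₂.Psi (ζ 0) f₂) := by
    have := step_mk (f₁ := f₁) (f₂ := f₂) ga (hζt 0 h00).2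
    rw [hm] at this
    exact this
  have hst2 : step (mk f₁ f₂) w = mk (G₁.Psi (ζ 1) f₁) (G₂.Psi (ζ 1) f₂) := by
    have := step_mk (f₁ := f₁) (f₂ := f₂) ga (hζt 1 h11).2
    rw [hw] at this
    exact this
  refine ⟨G₁.Psi (ζ 0) f₁, G₂.Psi (ζ 0) f₂, η, h, θ, κ, hη, ?_, ?_, ?_, c2, c4, c5, c6, c7⟩
  · exact (G₂.dist_Psi_le _ _).trans (hζt 0 h00).1
  · rw [hst1]
    have := step_mk (f₁ := G₁.Psi (ζ 0) f₁) (f₂ := G₂.Psi (ζ 0) f₂) (ρ := ρ) (by rw [hm]; exact gm)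
      (ξ := η) (by rw [hη]; exact h3)
    rw [hw2] at this
    exact this
  · rw [hst2, c1, c3]
    have := mk_rot (G₁.Psi η (G₁.Psi (ζ 0) f₁)) ((G₂.Psi (ζ 1) f₂).rot k.symm) k
    rw [← this]
    congr 1
    apply Fr.ext
    · rfl
    · ext v
      simp [Fr.rot]

/-- Exact form, with a scale which depends only on the first manifold. -/
theorem tri0 (x₀ : M₁) : ∃ ρ > 0, ∀ (A : Conf G₁ G₂) (m w : M₁), dist x₀ A.π₁ < ρ →
    dist x₀ m < ρ → dist x₀ w < ρ →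
    (∀ s ∈ Icc (0 : ℝ) 1, ∀ u ∈ Icc (0 : ℝ) 1,
      (step A (G₁.seg A.π₁ (G₁.seg m w s) u)).D = 0) →
    step (step A m) w = step A w := by
  obtain ⟨ρ₀, hgood⟩ := G₁.exists_good x₀
  obtain ⟨B, hB⟩ := G₁.Rf_bdd x₀ (ρ₀ + 1)
  set K : ℝ := max B 0 with hK
  have hK0 : 0 ≤ K := le_max_right _ _
  obtain ⟨C, hC, hboth⟩ := tri_both (G₁ := G₁) (G₂ := G₂) hK0
  have hρ₀ := hgood.pos
  set e : ℝ := Real.exp (2 * (1 + K)) with he
  have he1 : 1 ≤ e := Real.one_le_exp (by linarith)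
  refine ⟨min (ρ₀ / 4) (1 / (4 * e)), by positivity, ?_⟩
  intro A m w hA hm hw hD
  obtain ⟨f₁, f₂, rfl⟩ : ∃ f₁ f₂, A = mk f₁ f₂ := ⟨_, _, (mk_out A).symm⟩
  rw [π₁_mk] at hA hD
  have r1 : min (ρ₀ / 4) (1 / (4 * e)) ≤ ρ₀ / 4 := min_le_left _ _
  have r2 : min (ρ₀ / 4) (1 / (4 * e)) ≤ 1 / (4 * e) := min_le_right _ _
  have d1 : dist f₁.m m ≤ dist x₀ f₁.m + dist x₀ m := dist_triangle_left _ _ _
  have d2 : dist f₁.m w ≤ dist x₀ f₁.m + dist x₀ w := dist_triangle_left _ _ _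
  have d3 : dist m w ≤ dist x₀ m + dist x₀ w := dist_triangle_left _ _ _
  have t1 : (1 / (2 * e)) * e ≤ 1 / 2 := by
    have : e ≠ 0 := by positivity
    field_simp
    norm_num
  have te : 1 / (2 * e) ≤ 1 := by
    rw [div_le_one (by positivity)]
    linarith
  have t4 : 1 / (4 * e) + 1 / (4 * e) = 1 / (2 * e) := by
    have : e ≠ 0 := by positivity
    field_simp
    norm_num
  have hga : G₁.GoodAt f₁.m ρ₀ := hgood.at_near _ (by linarith)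
  have hgm : G₁.GoodAt m ρ₀ := hgood.at_near _ (by linarith)
  obtain ⟨F₁, F₂, η, h, θ, κ, c1, -, c2, c3, c4, c5, c6, c7, c8⟩ := hboth f₁ f₂ m w ρ₀ (1 / (2 * e)) 0 x₀ ρ₀ hga hgm
    le_rfl hgood (by linarith) (by linarith) (by linarith) (by linarith) (by linarith) (by linarith) t1
    (fun ξ hξ => by
      refine (hB _ ?_).trans (le_max_left _ _)
      have := G₁.dist_Psi_le ξ f₁
      have h2 := dist_triangle x₀ f₁.m (G₁.Psi ξ f₁).m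
      linarith)
    (fun ξ hξ hx => by
      have h1 : G₁.Rf (G₁.Psi ξ f₁) = G₂.Rf (G₂.Psi ξ f₂) := by
        rw [← sub_eq_zero]
        exact norm_le_zero_iff.1 hx
      rw [← h1]
      refine (hB _ ?_).trans (le_max_left _ _)
      have := G₁.dist_Psi_le ξ f₁
      have h2 := dist_triangle x₀ f₁.m (G₁.Psi ξ f₁).m
      linarith)
    (fun s hs u hu => (hD s hs u hu).le)
  have hv : ∀ s ∈ Icc (0 : ℝ) 1, G₂.HasVel h η 0 s := by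
    intro s hs
    have e1 : θ s = η := by
      have := c7 s hs
      rw [mul_zero, mul_zero] at this
      exact sub_eq_zero.1 (norm_le_zero_iff.1 this)
    have e2 : κ s = 0 := by
      have := c8 s hs
      rw [mul_zero, mul_zero] at this
      exact norm_le_zero_iff.1 this
    have := c5 s hs
    rwa [e1, e2] at this
  have h1 : h 1 = G₂.Psi η F₂ := by
    have := Psi_unique_Icc (G := G₂) zero_le_one hv
    rwa [sub_zero, one_smul, c4] at this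
  rw [c2, c3, h1]

/-- a uniform scale for the charts -/
theorem exists_good_cover (G : GMfd E M₁) (p : M₁) (S : ℝ) : ∃ ρ > 0, ∀ x, dist p x ≤ S →
    ∃ q ρ', ρ ≤ ρ' ∧ G.Good q ρ' ∧ dist q x < ρ' := by
  have hp : ProperSpace M₁ := by
    first | exact GMfd.proper G | exact GMfd.proper
  choose r hr using fun q => G.exists_good q
  have hc : IsCompact (closedBall p S) := isCompact_closedBall p S
  obtain ⟨t, _, ht⟩ := hc.elim_nhds_subcover (fun q => ball q (r q)) (fun q _ => ball_mem_nhds q (hr q).pos)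
  rcases t.eq_empty_or_nonempty with he | hne
  · refine ⟨1, one_pos, fun x hx => ?_⟩
    have := ht (show x ∈ closedBall p S by rw [mem_closedBall, dist_comm]; exact hx)
    rw [he] at this
    simp at this
  · refine ⟨t.inf' hne r, (Finset.lt_inf'_iff hne).2 fun q _ => (hr q).pos, fun x hx => ?_⟩
    have := ht (show x ∈ closedBall p S by rw [mem_closedBall, dist_comm]; exact hx)
    rw [mem_iUnion₂] at this
    obtain ⟨q, hq, hxq⟩ := this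
    refine ⟨q, r q, Finset.inf'_le _ hq, hr q, ?_⟩
    rw [mem_ball, dist_comm] at hxq
    exact hxq

/-- Approximate form. -/
theorem tri (p₁ : M₁) (p₂ : M₂) (S : ℝ) : ∃ ρ > 0, ∃ C ≥ 0,
    ∀ (A : Conf G₁ G₂) (m w : M₁) (t δ : ℝ), dist p₁ A.π₁ ≤ S → dist p₂ A.π₂ ≤ S → t < ρ →
      dist A.π₁ m ≤ t → dist A.π₁ w ≤ t → dist m w ≤ t →
      (∀ s ∈ Icc (0 : ℝ) 1, ∀ u ∈ Icc (0 : ℝ) 1,
        (step A (G₁.seg A.π₁ (G₁.seg m w s) u)).D ≤ δ) →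
      |(step (step A m) w).D - (step A w).D| ≤ C * t * δ := by
  obtain ⟨B₁, hB₁⟩ := G₁.Rf_bdd p₁ (S + 1)
  obtain ⟨B₂, hB₂⟩ := G₂.Rf_bdd p₂ (S + 1)
  set K : ℝ := max (max B₁ B₂) 0 with hK
  have hK0 : 0 ≤ K := le_max_right _ _
  have hK1 : B₁ ≤ K := (le_max_left _ _).trans (le_max_left _ _)
  have hK2 : B₂ ≤ K := (le_max_right _ _).trans (le_max_left _ _)
  obtain ⟨C, hC, hboth⟩ := tri_both (G₁ := G₁) (G₂ := G₂) hK0
  obtain ⟨ρ₁, hρ₁, hg₁⟩ := G₁.exists_goodAt p₁ (S + 1)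
  obtain ⟨ρ₂, hρ₂, hg₂⟩ := exists_good_cover G₁ p₁ S
  obtain ⟨ρ₃, hρ₃, C₃, hC₃, hcc⟩ := G₂.control_compare p₂ (S + 1)
  set e : ℝ := Real.exp (2 * (1 + K)) with he
  have he1 : 1 ≤ e := Real.one_le_exp (by linarith)
  have hden : 0 < C * (2 * K) + 1 := by positivity
  refine ⟨min (min ρ₁ ρ₂) (min (1 / (2 * e)) (min ρ₃ (ρ₃ / (C * (2 * K) + 1)))), by positivity, C₃ * C, by positivity, ?_⟩
  intro A m w t δ hA1 hA2 ht hm hw hmw hD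
  obtain ⟨f₁, f₂, rfl⟩ : ∃ f₁ f₂, A = mk f₁ f₂ := ⟨_, _, (mk_out A).symm⟩
  rw [π₁_mk] at hA1 hm hw hD
  rw [π₂_mk] at hA2
  have l1 : t < ρ₁ := ht.trans_le ((min_le_left _ _).trans (min_le_left _ _))
  have l2 : t < ρ₂ := ht.trans_le ((min_le_left _ _).trans (min_le_right _ _))
  have l3 : t < 1 / (2 * e) := ht.trans_le ((min_le_right _ _).trans (min_le_left _ _))
  have l4 : t < ρ₃ := ht.trans_le ((min_le_right _ _).trans ((min_le_right _ _).trans (min_le_left _ _)))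
  have l5 : t < ρ₃ / (C * (2 * K) + 1) := ht.trans_le ((min_le_right _ _).trans ((min_le_right _ _).trans (min_le_right _ _)))
  have ht0 : 0 ≤ t := dist_nonneg.trans hm
  have te : 1 / (2 * e) ≤ 1 / 2 := by
    rw [div_le_div_iff₀ (by positivity) (by positivity)]
    linarith
  have t1 : t * e ≤ 1 / 2 := by
    have h1 : t * e ≤ (1 / (2 * e)) * e := mul_le_mul_of_nonneg_right l3.le (by positivity)
    have h2 : (1 / (2 * e)) * e = 1 / 2 := by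
      have : e ≠ 0 := by positivity
      field_simp
    linarith
  have htle : t ≤ 1 := by linarith
  have b1 : ∀ ξ : E, ‖ξ‖ ≤ t → ‖G₁.Rf (G₁.Psi ξ f₁)‖ ≤ K := by
    intro ξ hξ
    refine (hB₁ _ ?_).trans hK1
    have := G₁.dist_Psi_le ξ f₁
    have h2 := dist_triangle p₁ f₁.m (G₁.Psi ξ f₁).m
    linarith
  have b2 : ∀ ξ : E, ‖ξ‖ ≤ t → ‖G₂.Rf (G₂.Psi ξ f₂)‖ ≤ K := by
    intro ξ hξ
    refine (hB₂ _ ?_).trans hK2
    have := G₂.dist_Psi_le ξ f₂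
    have h2 := dist_triangle p₂ f₂.m (G₂.Psi ξ f₂).m
    linarith
  obtain ⟨q, ρ', hq1, hq2, hq3⟩ := hg₂ f₁.m hA1
  set ρ : ℝ := min ρ₁ ρ₂ with hρ
  have hga : G₁.GoodAt f₁.m ρ := (hg₁ _ (by linarith)).mono (min_le_left _ _)
  have hgm : G₁.GoodAt m ρ := by
    refine (hg₁ _ ?_).mono (min_le_left _ _)
    have := dist_triangle p₁ f₁.m m
    linarith
  have htρ : t < ρ := lt_min l1 l2
  have hD' : ∀ s ∈ Icc (0 : ℝ) 1, ∀ u ∈ Icc (0 : ℝ) 1,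
      (step (mk f₁ f₂) (G₁.seg f₁.m (G₁.seg m w s) u)).D ≤ min δ (2 * K) := by
    intro s hs u hu
    refine le_min (hD s hs u hu) ?_
    obtain ⟨J, ζ, η', hJ, hJ1, hζs, hζt, hbase, hη, hm', hw', hw2, hseg⟩ :=
      G₁.tri_curve hga hgm ((min_le_right _ _).trans hq1) hq2 hq3 (hm.trans_lt htρ) (hw.trans_lt htρ)
        (hmw.trans_lt htρ) hm hw
    have a1 := hζt s hs
    have a2 : ‖u • ζ s‖ ≤ ‖ζ s‖ := by
      rw [norm_smul, Real.norm_eq_abs, abs_of_nonneg hu.1]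
      have := norm_nonneg (ζ s)
      nlinarith [hu.2]
    rw [← hseg s hs, seg_Psi hga rfl a1.2, step_mk hga (a2.trans_lt a1.2), D_mk]
    have n1 := b1 (u • ζ s) (a2.trans a1.1)
    have n2 := b2 (u • ζ s) (a2.trans a1.1)
    have n3 := norm_sub_le (G₁.Rf (G₁.Psi (u • ζ s) f₁)) (G₂.Rf (G₂.Psi (u • ζ s) f₂))
    linarith
  obtain ⟨F₁, F₂, η, h, θ, κ, c1, c1', c2, c3, c4, c5, c6, c7, c8⟩ := hboth f₁ f₂ m w ρ t (min δ (2 * K)) q ρ' hga hgm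
    ((min_le_right _ _).trans hq1) hq2 hq3 (hm.trans_lt htρ) (hw.trans_lt htρ) (hmw.trans_lt htρ) hm hw t1
    b1 (fun ξ hξ _ => b2 ξ hξ) hD'
  have hδ0 : 0 ≤ min δ (2 * K) := by
    have := hD' 0 ⟨le_rfl, zero_le_one⟩ 0 ⟨le_rfl, zero_le_one⟩
    exact (D_nonneg _).trans this
  have hη : ‖η‖ ≤ t := by rw [c1]; exact hmw
  have hη0 : 0 ≤ ‖η‖ := norm_nonneg _
  set ε : ℝ := C * (t * ‖η‖ * min δ (2 * K)) with hε
  have hε1 : ε ≤ C * (t * min δ (2 * K)) := by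
    refine mul_le_mul_of_nonneg_left (mul_le_mul_of_nonneg_right ?_ hδ0) hC
    nlinarith
  have hε2 : ε < ρ₃ := by
    have h1 : C * (t * min δ (2 * K)) ≤ C * (t * (2 * K)) :=
      mul_le_mul_of_nonneg_left (mul_le_mul_of_nonneg_left (min_le_right _ _) ht0) hC
    have h2 : t * (C * (2 * K) + 1) < ρ₃ := by rwa [lt_div_iff₀ hden] at l5
    nlinarith
  have hcmp := hcc (fun s => G₂.Psi (s • η) F₂) h η θ κ ε (by
      simp only [zero_smul]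
      rw [G₂.Psi_zero]
      have := dist_triangle p₂ f₂.m F₂.m
      linarith)
    (by simp only [zero_smul]; rw [G₂.Psi_zero, c4]) (hη.trans_lt l4) hε2
    (fun s _ => G₂.Psi_hasVel η F₂ s) c5 c6 c7 c8
  simp only [one_smul] at hcmp
  rw [c2, c3, D_mk, D_mk]
  have n1 := abs_norm_sub_norm_le (G₁.Rf (G₁.Psi η F₁) - G₂.Rf (G₂.Psi η F₂)) (G₁.Rf (G₁.Psi η F₁) - G₂.Rf (h 1))
  rw [sub_sub_sub_cancel_left] at n1
  have n2 : ‖G₂.Rf (h 1) - G₂.Rf (G₂.Psi η F₂)‖ = ‖G₂.Rf (G₂.Psi η F₂) - G₂.Rf (h 1)‖ :=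
    norm_sub_rev _ _
  rw [n2] at n1
  refine n1.trans (hcmp.trans ?_)
  have h5 : min δ (2 * K) ≤ δ := min_le_left _ _
  calc C₃ * ε ≤ C₃ * (C * (t * min δ (2 * K))) := mul_le_mul_of_nonneg_left hε1 hC₃
    _ ≤ C₃ * (C * (t * δ)) := mul_le_mul_of_nonneg_left
        (mul_le_mul_of_nonneg_left (mul_le_mul_of_nonneg_left h5 ht0) hC) hC₃
    _ = C₃ * C * t * δ := by ring

end Conf

end Amb
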