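import Pool.Agent.Amb.Conf
import Pool.Agent.Amb.M2
import Pool.Agent.Amb.M3b
import Pool.Agent.Amb.M4b
import Pool.Agent.Amb.M5
import Pool.Agent.Amb.C1
import Pool.Agent.Amb.T

/-!
# Consequences for the leaf
-/

set_option maxSynthPendingDepth 3

namespace Amb

open Set Metric
open scoped ContDiff Topology

variable {E : Type*} [NormedAddCommGroup E] [InnerProductSpace ℝ E] [FiniteDimensional ℝ E]
variable {M₁ M₂ : Type*} [MetricSpace M₁] [MetricSpace M₂]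
variable {G₁ : GMfd E M₁} {G₂ : GMfd E M₂}

namespace Conf

variable [CompleteSpace M₁] [CompleteSpace M₂]

omit [CompleteSpace M₂] in
theorem seg_dist_le {x y : M₁} {ρ : ℝ} (h : G₁.GoodAt x ρ) (hy : dist x y < ρ) {s : ℝ}
    (hs : s ∈ Icc (0 : ℝ) 1) : dist x (G₁.seg x y s) ≤ dist x y := by
  obtain ⟨f, hf⟩ := G₁.exists_fr x
  obtain ⟨ξ, hξ, he⟩ := h.surj f hf y hy
  have hn : ‖ξ‖ = dist x y := by rw [← he]; exact (h.dist_eq f hf ξ hξ).symm
  rw [← he, GMfd.seg_Psi h hf hξ, he]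
  have h1 := G₁.dist_Psi_le (s • ξ) f
  rw [hf, norm_smul, Real.norm_of_nonneg hs.1, hn] at h1
  exact h1.trans (mul_le_of_le_one_left dist_nonneg hs.2)

/-- short steps in terms of representatives -/
theorem exists_step_conf {A : Conf G₁ G₂} {ρ : ℝ} (h : G₁.GoodAt A.π₁ ρ) {b : M₁}
    (hb : dist A.π₁ b < ρ) : ∃ ξ : E, ‖ξ‖ < ρ ∧ ‖ξ‖ = dist A.π₁ b ∧
      (G₁.Psi ξ A.out.1).m = b ∧ step A b = mk (G₁.Psi ξ A.out.1) (G₂.Psi ξ A.out.2) := by
  obtain ⟨ξ, hξ, he⟩ := h.surj A.out.1 rfl b hb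
  refine ⟨ξ, hξ, ?_, he, ?_⟩
  · have := h.dist_eq A.out.1 rfl ξ hξ
    rw [he] at this
    exact this.symm
  · have h1 := step_mk (f₁ := A.out.1) (f₂ := A.out.2) (ρ := ρ) h hξ
    rw [mk_out, he] at h1
    exact h1

theorem leaf_step {A₀ A : Conf G₁ G₂} (hA : Leaf A₀ A) {ρ : ℝ} (h : G₁.GoodAt A.π₁ ρ) {b : M₁}
    (hb : dist A.π₁ b < ρ) : Leaf A₀ (step A b) := by
  obtain ⟨ξ, -, -, -, he⟩ := exists_step_conf h hb
  rw [he]
  refine Leaf.move _ _ _ ?_
  rw [mk_out]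
  exact hA

/-- local structure of the leaf: sections over small balls of the first manifold -/
theorem leaf_flat {A₀ : Conf G₁ G₂} (H : ∀ A, Leaf A₀ A → A.D = 0) (x₀ : M₁) : ∃ ρ > 0,
    ∀ A, Leaf A₀ A → dist x₀ A.π₁ < ρ → (∀ y, dist x₀ y < ρ → Leaf A₀ (step A y) ∧
      (step A y).π₁ = y ∧ dist A.π₂ (step A y).π₂ ≤ dist A.π₁ y) ∧
      step A A.π₁ = A ∧
      ∀ y z, dist x₀ y < ρ → dist x₀ z < ρ → step (step A y) z = step A z := by
  obtain ⟨ρ₀, hρ₀, htri⟩ := tri0 (G₁ := G₁) (G₂ := G₂) x₀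
  obtain ⟨r, hr, hgood⟩ := G₁.exists_goodAt x₀ 1
  set ρ := min ρ₀ (min (r / 8) (1 / 8)) with hρdef
  have h1 : ρ ≤ ρ₀ := min_le_left _ _
  have h2 : ρ ≤ r / 8 := (min_le_right _ _).trans (min_le_left _ _)
  have h3 : ρ ≤ 1 / 8 := (min_le_right _ _).trans (min_le_right _ _)
  have hρ : 0 < ρ := lt_min hρ₀ (lt_min (by positivity) (by norm_num))
  refine ⟨ρ, hρ, ?_⟩
  intro A hA hxA
  have gA : G₁.GoodAt A.π₁ r := hgood _ (by linarith)
  have hlt : ∀ y, dist x₀ y < ρ → dist A.π₁ y < r := by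
    intro y hy
    have := dist_triangle A.π₁ x₀ y
    rw [dist_comm A.π₁ x₀] at this
    linarith
  refine ⟨fun y hy => ⟨leaf_step hA gA (hlt y hy), π_step gA (hlt y hy),
    dist_π₂_step gA (hlt y hy)⟩, step_self hr gA, ?_⟩
  intro y z hy hz
  refine htri A y z (by linarith) (by linarith) (by linarith) ?_
  intro s hs u hu
  apply H
  refine leaf_step hA gA ?_
  -- distances
  have hyz : dist y z < 2 * ρ := by
    have := dist_triangle y x₀ z
    rw [dist_comm y x₀] at this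
    linarith
  have gy : G₁.GoodAt y r := hgood y (by linarith)
  have hsegyz : dist y (G₁.seg y z s) ≤ dist y z := seg_dist_le gy (by linarith) hs
  have hAy : dist A.π₁ y < 2 * ρ := by
    have := dist_triangle A.π₁ x₀ y
    rw [dist_comm A.π₁ x₀] at this
    linarith
  have hAs : dist A.π₁ (G₁.seg y z s) < 4 * ρ := by
    have := dist_triangle A.π₁ y (G₁.seg y z s)
    linarith
  exact (seg_dist_le gA (by linarith) hu).trans_lt (by linarith)

/-- exchange of the two manifolds -/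
noncomputable def swap (A : Conf G₁ G₂) : Conf G₂ G₁ := mk A.out.2 A.out.1

omit [CompleteSpace M₁] [CompleteSpace M₂] in
theorem swap_mk (f₁ : G₁.Fr) (f₂ : G₂.Fr) : swap (mk f₁ f₂) = mk f₂ f₁ := by
  obtain ⟨k, hk1, hk2⟩ := mk_eq_mk.1 (mk_out (mk f₁ f₂))
  unfold swap
  exact mk_eq_mk.2 ⟨k, hk2, hk1⟩

omit [CompleteSpace M₁] [CompleteSpace M₂] in
theorem leaf_swap {A₀ A : Conf G₁ G₂} (h : Leaf A₀ A) : Leaf (swap A₀) (swap A) := by
  induction h with
  | refl => exact Leaf.refl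
  | move f₁ f₂ ξ _ ih =>
    rw [swap_mk] at ih ⊢
    exact Leaf.move _ _ _ ih

omit [CompleteSpace M₁] [CompleteSpace M₂] in
theorem D_swap (A : Conf G₁ G₂) : (swap A).D = A.D := by
  unfold swap
  rw [D_mk, norm_sub_rev]
  rfl

/-- steps of the second manifold are steps of the first manifold -/
theorem swap_step {A : Conf G₁ G₂} {ρ : ℝ} (h₁ : G₁.GoodAt A.π₁ ρ) (h₂ : G₂.GoodAt A.π₂ ρ)
    {b : M₁} (hb : dist A.π₁ b < ρ) : step (swap A) (step A b).π₂ = swap (step A b) := by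
  obtain ⟨ξ, hξ, -, -, he⟩ := exists_step_conf h₁ hb
  rw [he, swap_mk, π₂_mk]
  exact step_mk (f₁ := A.out.2) (f₂ := A.out.1) h₂ hξ

end Conf

end Amb
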