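import Pool.Agent.Amb.C1
import Pool.Agent.Amb.M4s

/-!
# The leaf: chains of short steps, smoothness of steps
-/

set_option maxSynthPendingDepth 3

namespace Amb

open Set Metric
open scoped ContDiff Topology

variable {E : Type*} [NormedAddCommGroup E] [InnerProductSpace ℝ E] [FiniteDimensional ℝ E]
variable {M₁ M₂ : Type*} [MetricSpace M₁] [MetricSpace M₂]
variable {G₁ : GMfd E M₁} {G₂ : GMfd E M₂}

namespace Conf

/-- A positive function which is locally bounded below has a positive lower bound on compact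
sets. -/
theorem exists_pos_le {M : Type*} [TopologicalSpace M] {K : Set M} (hK : IsCompact K) (ρ : M → ℝ)
    (hρ : ∀ x, 0 < ρ x) (hl : ∀ x, ∀ᶠ y in 𝓝 x, ρ x / 2 ≤ ρ y) :
    ∃ c > 0, ∀ x ∈ K, c ≤ ρ x := by
  refine hK.induction_on (p := fun s => ∃ c > 0, ∀ x ∈ s, c ≤ ρ x) ⟨1, one_pos, by simp⟩ ?_ ?_ ?_
  · rintro s t hst ⟨c, hc, h⟩
    exact ⟨c, hc, fun x hx => h x (hst hx)⟩
  · rintro s t ⟨c, hc, h⟩ ⟨d, hd, h'⟩
    refine ⟨min c d, lt_min hc hd, fun x hx => ?_⟩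
    rcases hx with hx | hx
    · exact (min_le_left _ _).trans (h x hx)
    · exact (min_le_right _ _).trans (h' x hx)
  · intro x _
    exact ⟨{y | ρ x / 2 ≤ ρ y}, mem_nhdsWithin_of_mem_nhds (hl x), ρ x / 2, half_pos (hρ x),
      fun y hy => hy⟩

/-- one short step -/
def Short (ρ : M₁ → ℝ) (A B : Conf G₁ G₂) : Prop :=
  dist A.π₁ B.π₁ < ρ A.π₁ ∧ B = step A B.π₁

theorem exists_chain_of_reach {ρ : M₁ → ℝ} {A B : Conf G₁ G₂}
    (h : Relation.ReflTransGen (Short ρ) A B) :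
    ∃ (n : ℕ) (C : ℕ → Conf G₁ G₂), C 0 = A ∧ C n = B ∧
      ∀ i < n, dist (C i).π₁ (C (i + 1)).π₁ < ρ (C i).π₁ ∧
        C (i + 1) = step (C i) (C (i + 1)).π₁ := by
  induction h with
  | refl => exact ⟨0, fun _ => A, rfl, rfl, by simp⟩
  | @tail X Y _ hXY ih =>
    obtain ⟨n, C, h0, hn, h⟩ := ih
    refine ⟨n + 1, fun i => if i ≤ n then C i else Y, ?_, ?_, ?_⟩
    · simp [h0]
    · simp
    · intro i hi
      rcases Nat.lt_succ_iff_lt_or_eq.1 hi with hi' | rfl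
      · have h1 : i ≤ n := hi'.le
        have h2 : i + 1 ≤ n := hi'
        simp only [h1, h2, if_true]
        exact h i hi'
      · simp only [le_refl, if_true, Nat.not_succ_le_self, if_false, hn]
        exact hXY

variable [CompleteSpace M₁] [CompleteSpace M₂]

theorem reach_move (ρ : M₁ → ℝ) (hρ : ∀ x, 0 < ρ x)
    (hl : ∀ x, ∀ᶠ y in 𝓝 x, ρ x / 2 ≤ ρ y) (f₁ : G₁.Fr) (f₂ : G₂.Fr) (ξ : E) :
    Relation.ReflTransGen (Short ρ) (mk f₁ f₂) (mk (G₁.Psi ξ f₁) (G₂.Psi ξ f₂)) := by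
  have hcont : Continuous (fun t : ℝ => (G₁.Psi (t • ξ) f₁).m) :=
    continuous_iff_continuousAt.2 fun t => (G₁.Psi_hasVel ξ f₁ t).1
  obtain ⟨c, hc, hcρ⟩ := exists_pos_le ((isCompact_Icc (a := (0 : ℝ)) (b := 1)).image hcont)
    ρ hρ hl
  obtain ⟨r, hr, hgood⟩ := G₁.exists_goodAt f₁.m ‖ξ‖
  obtain ⟨N, hN⟩ := exists_nat_gt (‖ξ‖ / min c r)
  have hm : 0 < min c r := lt_min hc hr
  have hN0 : (0 : ℝ) < N := (div_nonneg (norm_nonneg _) hm.le).trans_lt hN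
  have hsmall : ‖((1 : ℝ) / N) • ξ‖ < min c r := by
    rw [norm_smul, Real.norm_of_nonneg (by positivity), one_div, inv_mul_eq_div,
      div_lt_iff₀ hN0]
    rw [div_lt_iff₀ hm] at hN
    linarith
  have key : ∀ j : ℕ, j ≤ N → Relation.ReflTransGen (Short ρ) (mk f₁ f₂)
      (mk (G₁.Psi (((j : ℝ) / N) • ξ) f₁) (G₂.Psi (((j : ℝ) / N) • ξ) f₂)) := by
    intro j
    induction j with
    | zero =>
      intro _
      have : ((((0 : ℕ) : ℝ) / N) • ξ) = 0 := by simp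
      rw [this, G₁.Psi_zero, G₂.Psi_zero]
    | succ j ih =>
      intro hj
      refine (ih (Nat.le_of_succ_le hj)).tail ?_
      have hj0 : (0 : ℝ) ≤ (j : ℝ) / N := by positivity
      have hj1 : (j : ℝ) / N ≤ 1 := by
        rw [div_le_one hN0]
        exact_mod_cast Nat.le_of_succ_le hj
      have e : (((j + 1 : ℕ) : ℝ) / N) = (j : ℝ) / N + 1 / N := by
        push_cast; ring
      have a1 := G₁.Psi_add ((j : ℝ) / N) (1 / N) ξ f₁
      have a2 := G₂.Psi_add ((j : ℝ) / N) (1 / N) ξ f₂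
      rw [e, a1, a2]
      set F₁ := G₁.Psi (((j : ℝ) / N) • ξ) f₁ with hF₁
      set F₂ := G₂.Psi (((j : ℝ) / N) • ξ) f₂ with hF₂
      have hd : dist f₁.m F₁.m ≤ ‖ξ‖ := by
        refine (G₁.dist_Psi_le _ f₁).trans ?_
        rw [norm_smul, Real.norm_of_nonneg hj0]
        exact mul_le_of_le_one_left (norm_nonneg _) hj1
      have hg : G₁.GoodAt F₁.m r := hgood _ hd
      constructor
      · rw [π₁_mk, π₁_mk]
        refine (G₁.dist_Psi_le _ F₁).trans_lt (hsmall.trans_le ((min_le_left _ _).trans ?_))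
        exact hcρ _ ⟨(j : ℝ) / N, ⟨hj0, hj1⟩, rfl⟩
      · rw [π₁_mk]
        exact (step_mk hg (hsmall.trans_le (min_le_right _ _))).symm
  have := key N le_rfl
  rwa [div_self hN0.ne', one_smul] at this

/-- every configuration of the leaf is joined to the base configuration by short steps -/
theorem leaf_chain {A₀ A : Conf G₁ G₂} (h : Leaf A₀ A) (ρ : M₁ → ℝ) (hρ : ∀ x, 0 < ρ x)
    (hl : ∀ x, ∀ᶠ y in 𝓝 x, ρ x / 2 ≤ ρ y) :
    ∃ (n : ℕ) (B : ℕ → Conf G₁ G₂), B 0 = A₀ ∧ B n = A ∧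
      ∀ i < n, dist (B i).π₁ (B (i + 1)).π₁ < ρ (B i).π₁ ∧
        B (i + 1) = step (B i) (B (i + 1)).π₁ := by
  apply exists_chain_of_reach
  induction h with
  | refl => exact Relation.ReflTransGen.refl
  | move f₁ f₂ ξ _ ih => exact ih.trans (reach_move ρ hρ hl f₁ f₂ ξ)

/-- In charts, `y ↦ π₂ (step A y)` is smooth near `π₁ A` and its derivative at `π₁ A` is the
isometry `f₂.Y ∘ f₁.Y⁻¹` (read in the charts). -/
theorem step_smooth (f₁ : G₁.Fr) (f₂ : G₂.Fr) {q₁ : M₁} {q₂ : M₂} (h₁ : f₁.m ∈ G₁.src q₁)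
    (h₂ : f₂.m ∈ G₂.src q₂) :
    ContinuousAt (fun y => (step (mk f₁ f₂) y).π₂) f₁.m ∧
    ContDiffAt ℝ ∞ (fun x => G₂.φ q₂ (step (mk f₁ f₂) (G₁.ψ q₁ x)).π₂) (G₁.φ q₁ f₁.m) ∧
    ∀ u, fderiv ℝ (fun x => G₂.φ q₂ (step (mk f₁ f₂) (G₁.ψ q₁ x)).π₂) (G₁.φ q₁ f₁.m)
      (G₁.J q₁ f₁.m (f₁.Y u)) = G₂.J q₂ f₂.m (f₂.Y u) := by
  obtain ⟨ρ, hρ⟩ := G₁.exists_good f₁.m
  have hρ0 : 0 < ρ := hρ.pos
  have hg : G₁.GoodAt f₁.m ρ := hρ.at_near _ (by rw [dist_self]; exact hρ0)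
  set x₀ : E := G₁.φ q₁ f₁.m with hx₀
  have hx₀t : x₀ ∈ G₁.tgt q₁ := G₁.map_src q₁ _ h₁
  have htgt : G₁.tgt q₁ ∈ 𝓝 x₀ := (G₁.met q₁).isOpen.mem_nhds hx₀t
  have hψ0 : G₁.ψ q₁ x₀ = f₁.m := G₁.left_inv q₁ _ h₁
  have hψc : ContinuousAt (G₁.ψ q₁) x₀ := (G₁.cont_ψ q₁).continuousAt htgt
  -- the distance to the centre
  have hnear : ∀ᶠ x in 𝓝 x₀, dist f₁.m (G₁.ψ q₁ x) < ρ := by
    have hc : ContinuousAt (fun x => dist f₁.m (G₁.ψ q₁ x)) x₀ := continuousAt_const.dist hψc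
    have : dist f₁.m (G₁.ψ q₁ x₀) < ρ := by rw [hψ0, dist_self]; exact hρ0
    exact hc.eventually (gt_mem_nhds this)
  -- the logarithm
  classical
  let L : E → E := fun x =>
    if h : dist f₁.m (G₁.ψ q₁ x) < ρ then (hg.surj f₁ rfl _ h).choose else 0
  have hL : ∀ x, dist f₁.m (G₁.ψ q₁ x) < ρ →
      ‖L x‖ < ρ ∧ (G₁.Psi (L x) f₁).m = G₁.ψ q₁ x := by
    intro x hx
    simp only [L, dif_pos hx]
    exact (hg.surj f₁ rfl _ hx).choose_spec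
  have hSmPt : G₁.SmPt (G₁.ψ q₁) x₀ := by
    refine GMfd.smPt_of_chart hψc (by rw [hψ0]; exact h₁) ?_
    refine contDiffAt_id.congr_of_eventuallyEq ?_
    filter_upwards [htgt] with x hx
    exact G₁.right_inv q₁ x hx
  have hLs : ContDiffAt ℝ ∞ L x₀ := by
    refine hρ.log_smooth (G₁.smAt_const f₁ x₀) hSmPt (by rw [dist_self]; exact hρ0) ?_
    filter_upwards [hnear] with x hx
    exact hL x hx
  have hL0 : L x₀ = 0 := by
    have hd : dist f₁.m (G₁.ψ q₁ x₀) < ρ := by rw [hψ0, dist_self]; exact hρ0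
    obtain ⟨a, b⟩ := hL x₀ hd
    refine hg.inj f₁ rfl _ _ a (by rw [norm_zero]; exact hρ0) ?_
    rw [b, hψ0, G₁.Psi_zero]
  have hstep : ∀ x, dist f₁.m (G₁.ψ q₁ x) < ρ →
      step (mk f₁ f₂) (G₁.ψ q₁ x) = mk (G₁.Psi (L x) f₁) (G₂.Psi (L x) f₂) := by
    intro x hx
    obtain ⟨a, b⟩ := hL x hx
    rw [← b]
    exact step_mk hg a
  have hSm : G₂.SmAt (fun x => G₂.Psi (L x) f₂) x₀ :=
    GMfd.Psi_smooth (G₂.smAt_const f₂ x₀) hLs
  have hΦ : ContDiffAt ℝ ∞ (fun x => G₂.φ q₂ (step (mk f₁ f₂) (G₁.ψ q₁ x)).π₂) x₀ := by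
    have h := hSm.smPt.2 q₂ (by
      change (G₂.Psi (L x₀) f₂).m ∈ G₂.src q₂
      rw [hL0, G₂.Psi_zero]; exact h₂)
    refine h.congr_of_eventuallyEq ?_
    filter_upwards [hnear] with x hx
    rw [hstep x hx, π₂_mk]
  refine ⟨?_, hΦ, ?_⟩
  · -- continuity
    have hself : step (mk f₁ f₂) f₁.m = mk f₁ f₂ := by
      have h0 := step_mk (f₁ := f₁) (f₂ := f₂) hg (ξ := 0) (by rw [norm_zero]; exact hρ0)
      rwa [G₁.Psi_zero, G₂.Psi_zero] at h0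
    rw [Metric.continuousAt_iff]
    intro ε hε
    refine ⟨min ε ρ, lt_min hε hρ0, fun y hy => ?_⟩
    have hy' : dist (mk f₁ f₂).π₁ y < ρ := by
      rw [π₁_mk, dist_comm]; exact hy.trans_le (min_le_right _ _)
    have hg' : G₁.GoodAt (mk f₁ f₂).π₁ ρ := by rw [π₁_mk]; exact hg
    have h := dist_π₂_step hg' hy'
    rw [hself, dist_comm]
    refine h.trans_lt ?_
    rw [π₁_mk, dist_comm]
    exact hy.trans_le (min_le_left _ _)
  · -- the derivative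
    intro u
    have hv1 := (G₁.Psi_hasVel u f₁ 0).2 q₁ (by
      change (G₁.Psi ((0 : ℝ) • u) f₁).m ∈ G₁.src q₁
      rw [zero_smul, G₁.Psi_zero]; exact h₁)
    have hv2 := (G₂.Psi_hasVel u f₂ 0).2 q₂ (by
      change (G₂.Psi ((0 : ℝ) • u) f₂).m ∈ G₂.src q₂
      rw [zero_smul, G₂.Psi_zero]; exact h₂)
    simp only [zero_smul] at hv1 hv2
    rw [G₁.Psi_zero] at hv1
    rw [G₂.Psi_zero] at hv2
    have hc1 : HasDerivAt (fun s : ℝ => G₁.φ q₁ (G₁.Psi (s • u) f₁).m)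
        (G₁.J q₁ f₁.m (f₁.Y u)) 0 := by
      have := (ContinuousLinearMap.fst ℝ E (E →L[ℝ] E)).hasFDerivAt.comp_hasDerivAt (0 : ℝ) hv1
      simpa [GMfd.cd, vel, Function.comp_def] using this
    have hc2 : HasDerivAt (fun s : ℝ => G₂.φ q₂ (G₂.Psi (s • u) f₂).m)
        (G₂.J q₂ f₂.m (f₂.Y u)) 0 := by
      have := (ContinuousLinearMap.fst ℝ E (E →L[ℝ] E)).hasFDerivAt.comp_hasDerivAt (0 : ℝ) hv2
      simpa [GMfd.cd, vel, Function.comp_def] using this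
    have hd : DifferentiableAt ℝ (fun x => G₂.φ q₂ (step (mk f₁ f₂) (G₁.ψ q₁ x)).π₂) x₀ :=
      hΦ.differentiableAt (by simp)
    have hx0' : (fun s : ℝ => G₁.φ q₁ (G₁.Psi (s • u) f₁).m) 0 = x₀ := by
      simp only [zero_smul]
      rw [G₁.Psi_zero]
    have hcomp : HasDerivAt (fun s : ℝ =>
        G₂.φ q₂ (step (mk f₁ f₂) (G₁.ψ q₁ (G₁.φ q₁ (G₁.Psi (s • u) f₁).m))).π₂)
        (fderiv ℝ (fun x => G₂.φ q₂ (step (mk f₁ f₂) (G₁.ψ q₁ x)).π₂) x₀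
          (G₁.J q₁ f₁.m (f₁.Y u))) 0 := by
      have hd' : HasFDerivAt (fun x => G₂.φ q₂ (step (mk f₁ f₂) (G₁.ψ q₁ x)).π₂)
          (fderiv ℝ (fun x => G₂.φ q₂ (step (mk f₁ f₂) (G₁.ψ q₁ x)).π₂) x₀)
          ((fun s : ℝ => G₁.φ q₁ (G₁.Psi (s • u) f₁).m) 0) := by
        rw [hx0']; exact hd.hasFDerivAt
      exact hd'.comp_hasDerivAt (0 : ℝ) hc1
    refine hcomp.unique (hc2.congr_of_eventuallyEq ?_)
    -- the two curves agree near `0`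
    have hcs : ContinuousAt (fun s : ℝ => (G₁.Psi (s • u) f₁).m) 0 := (G₁.Psi_hasVel u f₁ 0).1
    have hsrc : ∀ᶠ s in 𝓝 (0 : ℝ), (G₁.Psi (s • u) f₁).m ∈ G₁.src q₁ := by
      refine hcs.eventually_mem ((G₁.src_open q₁).mem_nhds ?_)
      simp only [zero_smul]
      rw [G₁.Psi_zero]; exact h₁
    have hsm : ∀ᶠ s in 𝓝 (0 : ℝ), ‖s • u‖ < ρ := by
      have hc : ContinuousAt (fun s : ℝ => ‖s • u‖) 0 := by fun_prop
      refine hc.eventually (gt_mem_nhds ?_)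
      simp [hρ0]
    filter_upwards [hsrc, hsm] with s hs1 hs2
    rw [G₁.left_inv q₁ _ hs1, step_mk hg hs2, π₂_mk]

end Conf

end Amb
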