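import Mathlib
import Pool.Agent.Amb.Statement
import Pool.Agent.Amb.MetCover
import Pool.Agent.Amb.Cover

/-!
# Geodesics: reparametrisation, images and lifts under local isometries
-/

set_option maxSynthPendingDepth 3

open Set Function Filter Metric Manifold Bundle
open scoped Topology ContDiff ENNReal

noncomputable section

namespace Amb

universe u

theorem LocIso.dist_eq {M N : Type*} [MetricSpace M] [MetricSpace N] {f : M → N} (hf : LocIso f)
    (A : M) : ∃ r > 0, ∀ x ∈ ball A r, ∀ y ∈ ball A r, dist (f x) (f y) = dist x y := by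
  obtain ⟨r, hr, s, -, -, h3, h4⟩ := hf A
  refine ⟨r, hr, fun x hx y hy => ?_⟩
  rw [← h4 _ (h3 x hx).1 _ (h3 y hy).1, (h3 x hx).2, (h3 y hy).2]

/-- Covering maps have lifts of curves defined on the whole line. -/
theorem exists_lift_real {M N : Type*} [TopologicalSpace M] [TopologicalSpace N] {f : M → N}
    (cov : IsCoveringMap f) {γ : ℝ → N} (hγ : Continuous γ) {A : M} (hA : f A = γ 0) :
    ∃ g : ℝ → M, Continuous g ∧ g 0 = A ∧ ∀ t, f (g t) = γ t := by
  obtain ⟨F, ⟨hF0, hF⟩, -⟩ := cov.existsUnique_continuousMap_lifts (⟨γ, hγ⟩ : C(ℝ, N)) 0 A hA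
  exact ⟨F, F.continuous, hF0, fun t => congrFun hF t⟩

/-- Uniqueness of lifts of curves. -/
theorem lift_real_unique {M N : Type*} [TopologicalSpace M] [T2Space M] [TopologicalSpace N]
    {f : M → N} (hf : IsLocalHomeomorph f) {g g' : ℝ → M} (hg : Continuous g)
    (hg' : Continuous g') (h0 : g 0 = g' 0) (h : ∀ t, f (g t) = f (g' t)) : g = g' :=
  (T2Space.isSeparatedMap f).eq_of_comp_eq hf.isLocallyInjective hg hg' (funext h) 0 h0

theorem span_comp {n : ℕ} (D : EE n →L[ℝ] EE n) (v w : EE n) (h : D v = w) :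
    D.comp (ContinuousLinearMap.toSpanSingleton ℝ v) =
      ContinuousLinearMap.toSpanSingleton ℝ w := by
  ext1
  simp [h]

theorem span_smul {n : ℕ} (a : ℝ) (v : EE n) :
    (ContinuousLinearMap.toSpanSingleton ℝ v).comp (a • ContinuousLinearMap.id ℝ ℝ) =
      ContinuousLinearMap.toSpanSingleton ℝ (a • v) := by
  ext1
  simp

variable {n : ℕ}
  {M : Type*} [MetricSpace M] [ChartedSpace (EE n) M]
  [IsManifold (𝓡 n) ∞ M] [RiemannianBundle (fun x : M => TangentSpace (𝓡 n) x)]
  {N : Type*} [MetricSpace N] [ChartedSpace (EE n) N]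
  [IsManifold (𝓡 n) ∞ N] [RiemannianBundle (fun x : N => TangentSpace (𝓡 n) x)]

set_option linter.unusedSectionVars false

theorem IsGeodesic.continuous {γ : ℝ → M} {p : M} {v : TangentSpace (𝓡 n) p}
    (h : IsGeodesic γ p v) : Continuous γ := by
  rw [continuous_iff_continuousAt]
  intro t
  obtain ⟨ε, hε, hd⟩ := h.locally_minimizing t
  rw [Metric.continuousAt_iff]
  intro δ hδ
  refine ⟨min ε (δ / (‖v‖ + 1)), lt_min hε (by positivity), fun {s} hs => ?_⟩
  rw [Real.dist_eq] at hs
  have h1 : |s - t| < ε := hs.trans_le (min_le_left _ _)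
  have h2 : |s - t| < δ / (‖v‖ + 1) := hs.trans_le (min_le_right _ _)
  rw [lt_div_iff₀ (by positivity)] at h2
  rw [hd s (by rw [abs_lt] at h1; constructor <;> linarith [h1.1, h1.2]) t
    (by constructor <;> linarith)]
  have h3 := abs_nonneg (s - t)
  nlinarith

/-- Reparametrisation of geodesics. -/
theorem IsGeodesic.smul {γ : ℝ → M} {p : M} {v : TangentSpace (𝓡 n) p}
    (h : IsGeodesic γ p v) (a : ℝ) : IsGeodesic (fun s => γ (a * s)) p (a • v) where
  init := by simp only [mul_zero]; exact h.init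
  velocity := by
    have h1 : HasMFDerivAt 𝓘(ℝ, ℝ) 𝓘(ℝ, ℝ) (fun s : ℝ => a * s) 0
        (a • ContinuousLinearMap.id ℝ ℝ : ℝ →L[ℝ] ℝ) :=
      ((hasFDerivAt_id (𝕜 := ℝ) (0 : ℝ)).const_mul a).hasMFDerivAt
    have h2 : HasMFDerivAt 𝓘(ℝ, ℝ) (𝓡 n) γ (a * 0)
        (ContinuousLinearMap.toSpanSingleton ℝ (show EE n from v) : ℝ →L[ℝ] EE n) := by
      rw [mul_zero]; exact h.velocity
    have h3 := HasMFDerivAt.comp (0 : ℝ) h2 h1
    have h4 := span_smul a (show EE n from v)
    exact h4 ▸ h3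
  locally_minimizing := by
    intro t
    rcases eq_or_ne a 0 with rfl | ha
    · refine ⟨1, one_pos, fun s _ s' _ => ?_⟩
      simp
    obtain ⟨ε, hε, hd⟩ := h.locally_minimizing (a * t)
    have ha' : 0 < |a| := abs_pos.2 ha
    refine ⟨ε / |a|, by positivity, fun s hs s' hs' => ?_⟩
    have key : ∀ s ∈ Ioo (t - ε / |a|) (t + ε / |a|), a * s ∈ Ioo (a * t - ε) (a * t + ε) := by
      intro s hs
      have h1 : |s - t| < ε / |a| := by
        rw [abs_lt]
        constructor <;> linarith [hs.1, hs.2]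
      rw [lt_div_iff₀ ha', ← abs_mul] at h1
      have h2 : (s - t) * a = a * s - a * t := by ring
      rw [h2, abs_lt] at h1
      constructor <;> linarith [h1.1, h1.2]
    rw [hd _ (key s hs) _ (key s' hs'), ← mul_sub, abs_mul, norm_smul, Real.norm_eq_abs]
    ring

/-- The image of a geodesic under a local isometry. -/
theorem IsGeodesic.map {f : M → N} (hloc : LocIso f) {γ : ℝ → M} {p : M}
    {v : TangentSpace (𝓡 n) p} {q : N} {w : TangentSpace (𝓡 n) q}
    (h : IsGeodesic γ p v) (hq : f p = q) {D : EE n →L[ℝ] EE n}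
    (hD : HasMFDerivAt (𝓡 n) (𝓡 n) f p D) (hw : D v = w) (hn : ‖w‖ = ‖v‖) :
    IsGeodesic (fun t => f (γ t)) q w where
  init := by
    simp only [h.init]
    exact hq
  velocity := by
    have h1 : HasMFDerivAt (𝓡 n) (𝓡 n) f (γ 0) D := by rw [h.init]; exact hD
    have h3 := HasMFDerivAt.comp (0 : ℝ) h1 h.velocity
    have h4 := span_comp D (show EE n from v) (show EE n from w) hw
    exact h4 ▸ h3
  locally_minimizing := by
    intro t
    obtain ⟨ε, hε, hd⟩ := h.locally_minimizing t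
    obtain ⟨r, hr, hr'⟩ := hloc.dist_eq (γ t)
    obtain ⟨δ, hδ, hδ'⟩ := Metric.continuousAt_iff.1 (h.continuous.continuousAt (x := t)) r hr
    refine ⟨min ε δ, lt_min hε hδ, fun s hs s' hs' => ?_⟩
    have key : ∀ s ∈ Ioo (t - min ε δ) (t + min ε δ),
        s ∈ Ioo (t - ε) (t + ε) ∧ γ s ∈ ball (γ t) r := by
      intro s hs
      have e1 : min ε δ ≤ ε := min_le_left _ _
      have e2 : min ε δ ≤ δ := min_le_right _ _
      refine ⟨⟨by linarith [hs.1], by linarith [hs.2]⟩, hδ' ?_⟩
      rw [Real.dist_eq, abs_lt]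
      constructor <;> linarith [hs.1, hs.2]
    rw [hr' _ (key s hs).2 _ (key s' hs').2, hd s (key s hs).1 s' (key s' hs').1, hn]

/-- Geodesics with given initial point and velocity exist and are unique (a property which holds
for complete Riemannian manifolds). -/
def GeoUnique (n : ℕ) (M : Type*) [MetricSpace M] [ChartedSpace (EE n) M]
    [IsManifold (𝓡 n) ∞ M] [RiemannianBundle (fun x : M => TangentSpace (𝓡 n) x)] : Prop :=
  ∀ (p : M) (v : TangentSpace (𝓡 n) p), ∃! γ : ℝ → M, IsGeodesic (n := n) γ p v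

theorem expMap_eq (hM : GeoUnique n M) {γ : ℝ → M} {p : M} {v : TangentSpace (𝓡 n) p}
    (h : IsGeodesic γ p v) : expMap p v = γ 1 := by
  have h' : ∃ γ : ℝ → M, IsGeodesic (n := n) γ p v := ⟨γ, h⟩
  rw [expMap, dif_pos h']
  rw [(hM p v).unique h'.choose_spec h]

theorem expMap_smul (hM : GeoUnique n M) {γ : ℝ → M} {p : M} {v : TangentSpace (𝓡 n) p}
    (h : IsGeodesic γ p v) (t : ℝ) : expMap p (t • v) = γ t := by
  rw [expMap_eq hM (h.smul t), mul_one]

/-- `expMap p` is the exponential map. -/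
theorem isExpMap_of_geoUnique (hM : GeoUnique n M) (p : M) : IsExpMap (n := n) p (expMap p) := by
  intro v
  obtain ⟨γ, h, -⟩ := hM p v
  have : (fun t : ℝ => expMap p (t • v)) = γ := funext fun t => expMap_smul hM h t
  rw [this]
  exact h

end Amb
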