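import Mathlib

/-!
# Hopf-Rinow-Cohn-Vossen: complete locally compact length spaces are proper
-/

set_option maxSynthPendingDepth 3
set_option linter.unusedSectionVars false

namespace Amb

open Set Metric Filter Manifold Bundle
open scoped ContDiff Topology ENNReal

section Generic

variable {M : Type*} [MetricSpace M]

/-- A length space, formulated by approximate between-points. -/
def LengthLike (M : Type*) [MetricSpace M] : Prop :=
  ∀ (x y : M) (a : ℝ), 0 ≤ a → a ≤ dist x y → ∀ ε > 0,
    ∃ z, dist x z = a ∧ dist z y < dist x y - a + ε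

theorem LengthLike.totallyBounded (hM : LengthLike M) {x : M} {R : ℝ} (hR : 0 < R)
    (h : ∀ s < R, IsCompact (closedBall x s)) : TotallyBounded (closedBall x R) := by
  rw [Metric.totallyBounded_iff]
  intro ε hε
  set s := max 0 (R - ε / 3) with hs
  have hsR : s < R := max_lt hR (by linarith)
  have hs0 : 0 ≤ s := le_max_left _ _
  have hs1 : R - ε / 3 ≤ s := le_max_right _ _
  obtain ⟨t, ht, hts⟩ := Metric.totallyBounded_iff.1 (h s hsR).totallyBounded (ε / 3) (by positivity)
  refine ⟨t, ht, ?_⟩
  intro y hy
  rw [mem_closedBall, dist_comm] at hy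
  obtain ⟨z, hz, hzy⟩ : ∃ z ∈ closedBall x s, dist z y < 2 * ε / 3 := by
    rcases le_or_gt (dist x y) s with h1 | h1
    · exact ⟨y, by rw [mem_closedBall, dist_comm]; exact h1, by rw [dist_self]; positivity⟩
    · obtain ⟨z, hz1, hz2⟩ := hM x y s hs0 h1.le (ε / 3) (by positivity)
      refine ⟨z, by rw [mem_closedBall, dist_comm]; exact hz1.le, ?_⟩
      linarith
  have hz2 := hts hz
  simp only [mem_iUnion, exists_prop] at hz2 ⊢
  obtain ⟨w, hw, hzw⟩ := hz2
  refine ⟨w, hw, ?_⟩
  rw [mem_ball] at hzw ⊢
  have := dist_triangle y z w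
  rw [dist_comm y z] at this
  linarith

/-- **Cohn-Vossen**: a complete locally compact length space is proper. -/
theorem LengthLike.properSpace [CompleteSpace M] [LocallyCompactSpace M] (hM : LengthLike M) :
    ProperSpace M := by
  refine ⟨fun x r => ?_⟩
  by_contra hr
  set S : Set ℝ := {s | IsCompact (closedBall x s)} with hS
  have hdown : ∀ s ∈ S, ∀ s' ≤ s, s' ∈ S := fun s hs s' hs' =>
    IsCompact.of_isClosed_subset hs isClosed_closedBall (closedBall_subset_closedBall hs')
  have hbdd : BddAbove S := ⟨r, fun s hs => by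
    by_contra hlt
    exact hr (hdown s hs r (not_le.1 hlt).le)⟩
  have hneg : ∀ s < 0, s ∈ S := fun s hs => by
    simp only [hS, mem_ofPred_eq, closedBall_eq_empty.2 hs]
    exact isCompact_empty
  have h0 : (0 : ℝ) ∈ S := by
    simp only [hS, mem_ofPred_eq, closedBall_zero]
    exact isCompact_singleton
  set R := sSup S with hRdef
  have hR0 : 0 ≤ R := le_csSup hbdd h0
  have hlt : ∀ s < R, s ∈ S := fun s hs => by
    obtain ⟨t, ht, hst⟩ := exists_lt_of_lt_csSup ⟨0, h0⟩ hs
    exact hdown t ht s hst.le
  have hRS : R ∈ S := by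
    rcases hR0.eq_or_lt with h1 | h1
    · rw [← h1]
      exact h0
    · exact ((hM.totallyBounded h1 hlt).isCompact_of_isClosed isClosed_closedBall)
  obtain ⟨K', hK', hKK'⟩ := exists_compact_superset (show IsCompact (closedBall x R) from hRS)
  obtain ⟨δ, hδ, hδ1⟩ := (show IsCompact (closedBall x R) from hRS).exists_thickening_subset_open
    isOpen_interior hKK'
  have hsub : closedBall x (R + δ / 2) ⊆ K' := by
    intro y hy
    rw [mem_closedBall, dist_comm] at hy
    apply interior_subset
    apply hδ1
    rw [Metric.mem_thickening_iff]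
    rcases le_or_gt (dist x y) R with h1 | h1
    · exact ⟨y, by rw [mem_closedBall, dist_comm]; exact h1, by rw [dist_self]; exact hδ⟩
    · obtain ⟨z, hz1, hz2⟩ := hM x y R hR0 h1.le (δ / 2) (by positivity)
      refine ⟨z, by rw [mem_closedBall, dist_comm]; exact hz1.le, ?_⟩
      rw [dist_comm]
      linarith
  have : R + δ / 2 ∈ S := IsCompact.of_isClosed_subset hK' isClosed_closedBall hsub
  have := le_csSup hbdd this
  linarith

/-- Exact between-points in a proper length space. -/
theorem LengthLike.exists_between [ProperSpace M] (hM : LengthLike M) (x y : M) {a : ℝ}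
    (h0 : 0 ≤ a) (ha : a ≤ dist x y) : ∃ z, dist x z = a ∧ dist z y = dist x y - a := by
  have hne : (sphere x a).Nonempty := by
    obtain ⟨z, hz, -⟩ := hM x y a h0 ha 1 one_pos
    exact ⟨z, by rw [mem_sphere, dist_comm]; exact hz⟩
  obtain ⟨z, hz, hmin⟩ := (isCompact_sphere x a).exists_isMinOn hne
    (f := fun z => dist z y) (by fun_prop)
  rw [mem_sphere, dist_comm] at hz
  refine ⟨z, hz, le_antisymm ?_ ?_⟩
  · apply le_of_forall_pos_le_add
    intro ε hε
    obtain ⟨w, hw, hw2⟩ := hM x y a h0 ha ε hε
    have := hmin (show w ∈ sphere x a by rw [mem_sphere, dist_comm]; exact hw)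
    simp only [mem_ofPred_eq] at this
    exact this.trans hw2.le
  · have := dist_triangle x z y
    linarith

end Generic

section Riem

variable {E : Type*} [NormedAddCommGroup E] [NormedSpace ℝ E]
  {H : Type*} [TopologicalSpace H] (I : ModelWithCorners ℝ E H)
  {M : Type*} [MetricSpace M] [ChartedSpace H M]
  [RiemannianBundle (fun x : M => TangentSpace I x)]

/-- A Riemannian manifold is a length space. -/
theorem lengthLike_of_riemannian [IsRiemannianManifold I M] : LengthLike M := by
  intro x y a h0 ha ε hε
  have h1 : riemannianEDist I x y < ENNReal.ofReal (dist x y + ε) := by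
    rw [← IsRiemannianManifold.out (I := I) x y, edist_dist]
    exact (ENNReal.ofReal_lt_ofReal_iff (by positivity)).2 (by linarith)
  obtain ⟨γ, hγ0, hγ1, hγs, hγl⟩ := exists_lt_of_riemannianEDist_lt h1
  have hc : ContinuousOn γ (Icc 0 1) := hγs.continuousOn
  have hc2 : ContinuousOn (fun t => dist x (γ t)) (Icc (0 : ℝ) 1) :=
    (continuous_const.dist continuous_id).comp_continuousOn hc
  have hmem : a ∈ Icc (dist x (γ 0)) (dist x (γ 1)) := by
    rw [hγ0, hγ1, dist_self]
    exact ⟨h0, ha⟩
  obtain ⟨t, ht, hta⟩ := intermediate_value_Icc zero_le_one hc2 hmem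
  refine ⟨γ t, hta, ?_⟩
  have e1 : edist x (γ t) ≤ pathELength I γ 0 t := by
    rw [IsRiemannianManifold.out (I := I) x (γ t)]
    exact riemannianEDist_le_pathELength (hγs.mono (Icc_subset_Icc le_rfl ht.2)) hγ0 rfl ht.1
  have e2 : edist (γ t) y ≤ pathELength I γ t 1 := by
    rw [IsRiemannianManifold.out (I := I) (γ t) y]
    exact riemannianEDist_le_pathELength (hγs.mono (Icc_subset_Icc ht.1 le_rfl)) rfl hγ1 ht.2
  have e3 : edist x (γ t) + edist (γ t) y < ENNReal.ofReal (dist x y + ε) := by
    refine (add_le_add e1 e2).trans_lt ?_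
    rw [pathELength_add ht.1 ht.2]
    exact hγl
  rw [edist_dist, edist_dist, ← ENNReal.ofReal_add dist_nonneg dist_nonneg,
    ENNReal.ofReal_lt_ofReal_iff (by positivity)] at e3
  have hta' : dist x (γ t) = a := hta
  linarith

/-- A complete Riemannian manifold is proper (one half of Hopf-Rinow). -/
theorem properSpace_of_riemannian [FiniteDimensional ℝ E] [LocallyCompactSpace M]
    [IsRiemannianManifold I M] [CompleteSpace M] : ProperSpace M :=
  (lengthLike_of_riemannian I).properSpace

end Riem

section EE

variable {n : ℕ} {M : Type*} [MetricSpace M] [ChartedSpace (EuclideanSpace ℝ (Fin n)) M]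
  [RiemannianBundle (fun x : M => TangentSpace (𝓡 n) x)]

theorem properSpace_of_complete [IsRiemannianManifold (𝓡 n) M] [CompleteSpace M] :
    ProperSpace M := by
  have : LocallyCompactSpace M := Manifold.locallyCompact_of_finiteDimensional (𝓡 n)
  exact properSpace_of_riemannian (𝓡 n)

/-- Exact between-points on a complete Riemannian manifold. -/
theorem exists_between_of_complete [IsRiemannianManifold (𝓡 n) M] [CompleteSpace M] (x y : M)
    {a : ℝ} (h0 : 0 ≤ a) (ha : a ≤ dist x y) : ∃ z, dist x z = a ∧ dist z y = dist x y - a := by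
  have : ProperSpace M := properSpace_of_complete (n := n)
  exact (lengthLike_of_riemannian (𝓡 n)).exists_between x y h0 ha

end EE

end Amb
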