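import Mathlib

/-!
# The leaf: topology

`P` is the set of configurations, `pr : P → M₁` the projection, `step A b` the lift of a short
segment. `leaf` is a subset of `P` on which the steps are locally flat. We give it the topology
in which the local sections `b ↦ step A b` are homeomorphisms onto open sets.
-/

set_option maxSynthPendingDepth 3

open Set Function Filter Metric
open scoped Topology

namespace Amb

universe u v

/-- Locally flat system of steps on a set `leaf`. -/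
structure LeafSys (M₁ : Type u) [MetricSpace M₁] (P : Type v) where
  pr : P → M₁
  step : P → M₁ → P
  leaf : Set P
  step_self : ∀ A ∈ leaf, step A (pr A) = A
  good : ∀ A ∈ leaf, ∃ r > 0, ∀ y ∈ ball (pr A) r, step A y ∈ leaf ∧ pr (step A y) = y ∧
    ∀ z ∈ ball (pr A) r, step (step A y) z = step A z

namespace LeafSys

variable {M₁ : Type u} [MetricSpace M₁] {P : Type v} (D : LeafSys M₁ P)

/-- `r` is a radius of flatness at `A`. -/
def GoodRad (A : P) (r : ℝ) : Prop :=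
  0 < r ∧ ∀ y ∈ ball (D.pr A) r, D.step A y ∈ D.leaf ∧ D.pr (D.step A y) = y ∧
    ∀ z ∈ ball (D.pr A) r, D.step (D.step A y) z = D.step A z

theorem GoodRad.mono {D : LeafSys M₁ P} {A : P} {r r' : ℝ} (h : D.GoodRad A r) (h0 : 0 < r')
    (hr : r' ≤ r) : D.GoodRad A r' :=
  ⟨h0, fun y hy => ⟨(h.2 y (ball_subset_ball hr hy)).1, (h.2 y (ball_subset_ball hr hy)).2.1,
    fun z hz => (h.2 y (ball_subset_ball hr hy)).2.2 z (ball_subset_ball hr hz)⟩⟩

/-- The leaf, as a type. -/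
@[ext]
structure Leaf (D : LeafSys M₁ P) : Type v where
  val : P
  mem : val ∈ D.leaf

variable {D}

/-- The projection of the leaf. -/
def prL (A : D.Leaf) : M₁ := D.pr A.1

open Classical in
/-- The local section through `A`. -/
noncomputable def sec (A : D.Leaf) (y : M₁) : D.Leaf :=
  if h : D.step A.1 y ∈ D.leaf then ⟨D.step A.1 y, h⟩ else A

theorem exists_goodRad (A : D.Leaf) : ∃ r, D.GoodRad A.1 r := by
  obtain ⟨r, hr, h⟩ := D.good A.1 A.2
  exact ⟨r, hr, h⟩

theorem sec_val {A : D.Leaf} {r : ℝ} (h : D.GoodRad A.1 r) {y : M₁} (hy : y ∈ ball (prL A) r) :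
    (sec A y).1 = D.step A.1 y := by
  rw [sec, dif_pos (h.2 y hy).1]

theorem prL_sec {A : D.Leaf} {r : ℝ} (h : D.GoodRad A.1 r) {y : M₁} (hy : y ∈ ball (prL A) r) :
    prL (sec A y) = y := by
  rw [prL, sec_val h hy]
  exact (h.2 y hy).2.1

theorem sec_prL (A : D.Leaf) : sec A (prL A) = A := by
  have h : D.step A.1 (prL A) = A.1 := D.step_self A.1 A.2
  have h' : D.step A.1 (prL A) ∈ D.leaf := by
    rw [h]; exact A.2
  rw [sec, dif_pos h']
  exact Leaf.ext h

theorem sec_sec {A : D.Leaf} {r : ℝ} (h : D.GoodRad A.1 r) {y z : M₁} (hy : y ∈ ball (prL A) r)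
    (hz : z ∈ ball (prL A) r) : sec (sec A y) z = sec A z := by
  have h1 : D.step (sec A y).1 z = D.step A.1 z := by
    rw [sec_val h hy]
    exact (h.2 y hy).2.2 z hz
  have h2 : D.step (sec A y).1 z ∈ D.leaf := by
    rw [h1]; exact (h.2 z hz).1
  apply Leaf.ext
  rw [sec_val h hz, ← h1, sec, dif_pos h2]

instance : TopologicalSpace D.Leaf where
  IsOpen U := ∀ A ∈ U, ∃ r > 0, ∀ y ∈ ball (prL A) r, sec A y ∈ U
  isOpen_univ := fun _ _ => ⟨1, one_pos, fun _ _ => mem_univ _⟩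
  isOpen_inter := by
    intro s t hs ht A hA
    obtain ⟨r, hr, h⟩ := hs A hA.1
    obtain ⟨r', hr', h'⟩ := ht A hA.2
    exact ⟨min r r', lt_min hr hr', fun y hy => ⟨h y (ball_subset_ball (min_le_left _ _) hy),
      h' y (ball_subset_ball (min_le_right _ _) hy)⟩⟩
  isOpen_sUnion := by
    intro S hS A hA
    obtain ⟨U, hU, hAU⟩ := hA
    obtain ⟨r, hr, h⟩ := hS U hU A hAU
    exact ⟨r, hr, fun y hy => ⟨U, hU, h y hy⟩⟩

theorem isOpen_iff {U : Set D.Leaf} :
    IsOpen U ↔ ∀ A ∈ U, ∃ r > 0, ∀ y ∈ ball (prL A) r, sec A y ∈ U := Iff.rfl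

theorem isOpen_sheet {A : D.Leaf} {r : ℝ} (h : D.GoodRad A.1 r) :
    IsOpen (sec A '' ball (prL A) r) := by
  rw [isOpen_iff]
  rintro _ ⟨y, hy, rfl⟩
  rw [prL_sec h hy]
  obtain ⟨ε, hε, hb⟩ := Metric.isOpen_iff.1 isOpen_ball y hy
  exact ⟨ε, hε, fun z hz => ⟨z, hb hz, (sec_sec h hy (hb hz)).symm⟩⟩

theorem continuous_prL : Continuous (prL : D.Leaf → M₁) := by
  rw [continuous_def]
  intro V hV
  rw [isOpen_iff]
  intro A hA
  obtain ⟨r, hr⟩ := exists_goodRad A
  obtain ⟨ε, hε, hb⟩ := Metric.isOpen_iff.1 hV (prL A) hA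
  refine ⟨min r ε, lt_min hr.1 hε, fun y hy => ?_⟩
  rw [mem_preimage, prL_sec hr (ball_subset_ball (min_le_left _ _) hy)]
  exact hb (ball_subset_ball (min_le_right _ _) hy)

theorem continuousOn_sec {A : D.Leaf} {r : ℝ} (h : D.GoodRad A.1 r) :
    ContinuousOn (sec A) (ball (prL A) r) := by
  rw [continuousOn_open_iff isOpen_ball]
  intro U hU
  rw [Metric.isOpen_iff]
  rintro y ⟨hy, hyU⟩
  obtain ⟨ε, hε, hb⟩ := Metric.isOpen_iff.1 isOpen_ball y hy
  obtain ⟨ε', hε', hb'⟩ := isOpen_iff.1 hU _ hyU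
  refine ⟨min ε ε', lt_min hε hε', fun z hz => ?_⟩
  have hz1 := hb (ball_subset_ball (min_le_left _ _) hz)
  refine ⟨hz1, ?_⟩
  rw [mem_preimage, ← sec_sec h hy hz1]
  apply hb'
  rw [prL_sec h hy]
  exact ball_subset_ball (min_le_right _ _) hz

/-- The local homeomorphism `prL` on a sheet. -/
noncomputable def sheet (A : D.Leaf) {r : ℝ} (h : D.GoodRad A.1 r) :
    OpenPartialHomeomorph D.Leaf M₁ where
  toFun := prL
  invFun := sec A
  source := sec A '' ball (prL A) r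
  target := ball (prL A) r
  map_source' := by
    rintro _ ⟨y, hy, rfl⟩
    rwa [prL_sec h hy]
  map_target' := fun y hy => ⟨y, hy, rfl⟩
  left_inv' := by
    rintro _ ⟨y, hy, rfl⟩
    rw [prL_sec h hy]
  right_inv' := fun y hy => prL_sec h hy
  open_source := isOpen_sheet h
  open_target := isOpen_ball
  continuousOn_toFun := continuous_prL.continuousOn
  continuousOn_invFun := continuousOn_sec h

theorem mem_sheet_source (A : D.Leaf) {r : ℝ} (h : D.GoodRad A.1 r) :
    A ∈ (sheet A h).source :=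
  ⟨prL A, mem_ball_self h.1, sec_prL A⟩

theorem isLocalHomeomorph_prL : IsLocalHomeomorph (prL : D.Leaf → M₁) := by
  apply IsLocalHomeomorph.mk
  intro A
  obtain ⟨r, hr⟩ := exists_goodRad A
  exact ⟨sheet A hr, mem_sheet_source A hr, fun _ _ => rfl⟩

instance : T2Space D.Leaf := by
  refine ⟨fun A B hAB => ?_⟩
  by_cases hp : prL A = prL B
  · obtain ⟨r₁, hr₁⟩ := exists_goodRad A
    obtain ⟨r₂, hr₂⟩ := exists_goodRad B
    refine ⟨_, _, isOpen_sheet hr₁, isOpen_sheet hr₂, ⟨prL A, mem_ball_self hr₁.1, sec_prL A⟩,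
      ⟨prL B, mem_ball_self hr₂.1, sec_prL B⟩, ?_⟩
    rw [Set.disjoint_left]
    rintro _ ⟨y, hy, rfl⟩ ⟨z, hz, hzy⟩
    apply hAB
    have h1 := sec_sec hr₁ hy (mem_ball_self hr₁.1)
    have h2 := sec_sec hr₂ hz (mem_ball_self hr₂.1)
    rw [sec_prL] at h1 h2
    rw [← h1, ← h2, hzy, hp]
  · obtain ⟨U, V, hU, hV, hAU, hBV, hUV⟩ := t2_separation hp
    exact ⟨prL ⁻¹' U, prL ⁻¹' V, hU.preimage continuous_prL, hV.preimage continuous_prL,
      hAU, hBV, hUV.preimage _⟩

end LeafSys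

end Amb
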