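import Mathlib
import Pool.Agent.Amb.Statement
import Pool.Agent.Amb.LeafTop

/-!
# The leaf: smooth structure and Riemannian metric
-/

set_option maxSynthPendingDepth 3

open Set Function Filter Metric Manifold Bundle
open scoped Topology ContDiff

noncomputable section

namespace Amb

universe u v

namespace LeafSys

variable {n : ℕ} {M₁ : Type u} [MetricSpace M₁] [ChartedSpace (EE n) M₁]
  {P : Type v} {D : LeafSys M₁ P}

/-- A radius of flatness. -/
def rad (A : D.Leaf) : ℝ := (exists_goodRad A).choose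

theorem goodRad_rad (A : D.Leaf) : D.GoodRad A.1 (rad A) := (exists_goodRad A).choose_spec

variable (n) in
/-- The chart of the leaf at `A`: the projection followed by the chart of `M₁` at `prL A`. -/
def leafChart (A : D.Leaf) : OpenPartialHomeomorph D.Leaf (EE n) :=
  (sheet A (goodRad_rad A)).trans (chartAt (EE n) (prL A))

theorem leafChart_coe (A : D.Leaf) : (leafChart n A : D.Leaf → EE n) =
    chartAt (EE n) (prL A) ∘ prL := rfl

theorem leafChart_symm_coe (A : D.Leaf) : ((leafChart n A).symm : EE n → D.Leaf) =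
    sec A ∘ (chartAt (EE n) (prL A)).symm := rfl

theorem mem_leafChart_source_iff (A B : D.Leaf) : B ∈ (leafChart n A).source ↔
    B ∈ (sheet A (goodRad_rad A)).source ∧ prL B ∈ (chartAt (EE n) (prL A)).source := by
  rw [leafChart, OpenPartialHomeomorph.trans_source]
  rfl

theorem mem_leafChart_target_iff (A : D.Leaf) (x : EE n) : x ∈ (leafChart n A).target ↔
    x ∈ (chartAt (EE n) (prL A)).target ∧
      (chartAt (EE n) (prL A)).symm x ∈ ball (prL A) (rad A) := by
  rw [leafChart, OpenPartialHomeomorph.trans_target]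
  rfl

theorem mem_leafChart_source (A : D.Leaf) : A ∈ (leafChart n A).source := by
  rw [mem_leafChart_source_iff]
  exact ⟨mem_sheet_source A _, mem_chart_source _ _⟩

instance : ChartedSpace (EE n) D.Leaf where
  atlas := range (fun A : D.Leaf => leafChart n A)
  chartAt := fun A => leafChart n A
  mem_chart_source := fun A => mem_leafChart_source A
  chart_mem_atlas := fun A => mem_range_self A

theorem chartAt_leaf (A : D.Leaf) : chartAt (EE n) A = leafChart n A := rfl

instance [IsManifold (𝓡 n) ∞ M₁] : IsManifold (𝓡 n) ∞ D.Leaf := by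
  apply isManifold_of_contDiffOn
  rintro _ _ ⟨A, rfl⟩ ⟨B, rfl⟩
  simp only [mfld_simps]
  set φ := chartAt (EE n) (prL A) with hφ
  set ψ := chartAt (EE n) (prL B) with hψ
  have h1 : ContMDiffOn 𝓘(ℝ, EE n) 𝓘(ℝ, EE n) ∞ (ψ ∘ φ.symm)
      (φ.target ∩ φ.symm ⁻¹' ψ.source) := by
    have e1 : ContMDiffOn 𝓘(ℝ, EE n) (𝓡 n) ∞ φ.symm (φ.target ∩ φ.symm ⁻¹' ψ.source) :=
      (contMDiffOn_chart_symm (I := 𝓡 n) (x := prL A)).mono inter_subset_left
    have e2 : ContMDiffOn (𝓡 n) 𝓘(ℝ, EE n) ∞ ψ ψ.source :=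
      contMDiffOn_chart (I := 𝓡 n) (x := prL B)
    exact e2.comp e1 fun x hx => hx.2
  have h2 := contMDiffOn_iff_contDiffOn.1 h1
  have h3 : ∀ x ∈ (leafChart n A).target ∩ (leafChart n A).symm ⁻¹' (leafChart n B).source,
      prL ((leafChart n A).symm x) = φ.symm x ∧ x ∈ φ.target ∩ φ.symm ⁻¹' ψ.source := by
    rintro x ⟨hx, hx'⟩
    rw [mem_leafChart_target_iff] at hx
    have e1 : prL ((leafChart n A).symm x) = φ.symm x := by
      rw [leafChart_symm_coe]
      exact prL_sec (goodRad_rad A) hx.2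
    refine ⟨e1, hx.1, ?_⟩
    rw [mem_preimage, mem_leafChart_source_iff, e1] at hx'
    exact hx'.2
  refine (h2.mono fun x hx => (h3 x hx).2).congr fun x hx => ?_
  simp only [comp_apply]
  rw [leafChart_coe, comp_apply, (h3 x hx).1]

theorem extChartAt_leaf_coe (A : D.Leaf) : (extChartAt (𝓡 n) A : D.Leaf → EE n) =
    extChartAt (𝓡 n) (prL A) ∘ prL := rfl

theorem extChartAt_leaf_symm_coe (A : D.Leaf) : ((extChartAt (𝓡 n) A).symm : EE n → D.Leaf) =
    sec A ∘ (extChartAt (𝓡 n) (prL A)).symm := rfl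

section Maps

variable {E' : Type*} [NormedAddCommGroup E'] [NormedSpace ℝ E'] {H' : Type*} [TopologicalSpace H']
  {I' : ModelWithCorners ℝ E' H'} {X : Type*} [TopologicalSpace X] [ChartedSpace H' X]

/-- Smoothness of maps into the leaf can be tested in `M₁`. -/
theorem contMDiffAt_of_prL {h : X → D.Leaf} {x : X} {k : ℕ∞ω} (hc : ContinuousAt h x)
    (hs : ContMDiffAt I' (𝓡 n) k (prL ∘ h) x) : ContMDiffAt I' (𝓡 n) k h x := by
  rw [contMDiffAt_iff] at hs ⊢
  exact ⟨hc, hs.2⟩

theorem contMDiffOn_of_prL {h : X → D.Leaf} {s : Set X} {k : ℕ∞ω} (hc : ContinuousOn h s)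
    (hs : ContMDiffOn I' (𝓡 n) k (prL ∘ h) s) : ContMDiffOn I' (𝓡 n) k h s := by
  intro x hx
  have h1 := hs x hx
  rw [contMDiffWithinAt_iff] at h1 ⊢
  exact ⟨hc x hx, h1.2⟩

/-- Derivatives of maps into the leaf can be computed in `M₁`. -/
theorem hasMFDerivAt_of_prL {h : X → D.Leaf} {x : X} {D' : E' →L[ℝ] EE n} (hc : ContinuousAt h x)
    (hs : HasMFDerivAt I' (𝓡 n) (prL ∘ h) x D') : HasMFDerivAt I' (𝓡 n) h x D' :=
  ⟨hc, hs.2⟩

end Maps

/-- The projection is smooth. -/
theorem contMDiff_prL [IsManifold (𝓡 n) ∞ M₁] : ContMDiff (𝓡 n) (𝓡 n) ∞ (prL : D.Leaf → M₁) := by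
  intro A
  have h : ContMDiffAt (𝓡 n) (𝓡 n) ∞ (id : D.Leaf → D.Leaf) A := contMDiffAt_id
  rw [contMDiffAt_iff] at h ⊢
  exact ⟨continuous_prL.continuousAt, h.2⟩

/-- The differential of the projection is the identity of `E`. -/
theorem hasMFDerivAt_prL (A : D.Leaf) : HasMFDerivAt (𝓡 n) (𝓡 n) (prL : D.Leaf → M₁) A
    (ContinuousLinearMap.id ℝ (EE n)) :=
  ⟨continuous_prL.continuousAt, (hasMFDerivAt_id (I := 𝓡 n) A).2⟩

theorem mfderiv_prL (A : D.Leaf) : mfderiv (𝓡 n) (𝓡 n) (prL : D.Leaf → M₁) A =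
    ContinuousLinearMap.id ℝ (EE n) :=
  (hasMFDerivAt_prL A).mfderiv

theorem continuousAt_sec (A : D.Leaf) : ContinuousAt (sec A) (prL A) :=
  (continuousOn_sec (goodRad_rad A)).continuousAt (ball_mem_nhds _ (goodRad_rad A).1)

/-- Sections are smooth. -/
theorem contMDiffOn_sec {A : D.Leaf} {r : ℝ} (h : D.GoodRad A.1 r) :
    ContMDiffOn (𝓡 n) (𝓡 n) ∞ (sec A) (ball (prL A) r) := by
  apply contMDiffOn_of_prL (continuousOn_sec h)
  have h1 : ContMDiffOn (𝓡 n) (𝓡 n) ∞ (id : M₁ → M₁) (ball (prL A) r) := contMDiffOn_id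
  exact h1.congr fun y hy => prL_sec h hy

/-- near `A` every point is on the section through `A` -/
theorem eventually_sec_prL (A : D.Leaf) : ∀ᶠ B in 𝓝 A, sec A (prL B) = B := by
  have h := goodRad_rad A
  filter_upwards [(isOpen_sheet h).mem_nhds (mem_sheet_source A h)] with B hB
  exact (sheet A h).left_inv hB

/-- Smoothness of maps from the leaf can be tested along sections. -/
theorem contMDiffAt_of_sec [IsManifold (𝓡 n) ∞ M₁] {E' : Type*} [NormedAddCommGroup E']
    [NormedSpace ℝ E'] {H' : Type*} [TopologicalSpace H']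
    {I' : ModelWithCorners ℝ E' H'} {X : Type*} [TopologicalSpace X] [ChartedSpace H' X]
    {h : D.Leaf → X} {A : D.Leaf} (hs : ContMDiffAt (𝓡 n) I' ∞ (h ∘ sec A) (prL A)) :
    ContMDiffAt (𝓡 n) I' ∞ h A := by
  have h1 : ContMDiffAt (𝓡 n) I' ∞ ((h ∘ sec A) ∘ prL) A := hs.comp A (contMDiff_prL A)
  refine h1.congr_of_eventuallyEq ?_
  filter_upwards [eventually_sec_prL A] with B hB
  simp only [comp_apply, hB]

/-- The differential of a map from the leaf is that of the map along the section. -/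
theorem mfderiv_eq_sec [IsManifold (𝓡 n) ∞ M₁] {E' : Type*} [NormedAddCommGroup E']
    [NormedSpace ℝ E'] {H' : Type*} [TopologicalSpace H']
    {I' : ModelWithCorners ℝ E' H'} {X : Type*} [TopologicalSpace X] [ChartedSpace H' X]
    {h : D.Leaf → X} {A : D.Leaf} {D' : EE n →L[ℝ] E'}
    (hs : HasMFDerivAt (𝓡 n) I' (h ∘ sec A) (prL A) D') :
    HasMFDerivAt (𝓡 n) I' h A D' := by
  have h1 := hs.comp A (hasMFDerivAt_prL A)
  have h2 : HasMFDerivAt (𝓡 n) I' ((h ∘ sec A) ∘ prL) A D' := h1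
  refine h2.congr_of_eventuallyEq ?_
  filter_upwards [eventually_sec_prL A] with B hB
  simp only [comp_apply, hB]

/-! ### The Riemannian metric -/

section Metric

variable [h₁ : RiemannianBundle (fun x : M₁ => TangentSpace (𝓡 n) x)]

/-- The metric of `M₁`, pulled back to the leaf. -/
instance : RiemannianBundle (fun x : D.Leaf => TangentSpace (𝓡 n) x) where
  g :=
    { inner := fun x => h₁.g.inner (prL x)
      symm := fun x v w => h₁.g.symm (prL x) v w
      pos := fun x v hv => h₁.g.pos (prL x) v hv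
      continuousAt := fun x => h₁.g.continuousAt (prL x)
      isVonNBounded := fun x => h₁.g.isVonNBounded (prL x) }

theorem inner_leaf (A : D.Leaf) (v w : EE n) :
    inner ℝ (show TangentSpace (𝓡 n) A from v) (show TangentSpace (𝓡 n) A from w) =
      inner ℝ (show TangentSpace (𝓡 n) (prL A) from v)
        (show TangentSpace (𝓡 n) (prL A) from w) := rfl

theorem norm_leaf (A : D.Leaf) (v : EE n) :
    ‖(show TangentSpace (𝓡 n) A from v)‖ = ‖(show TangentSpace (𝓡 n) (prL A) from v)‖ := by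
  rw [norm_eq_sqrt_real_inner, norm_eq_sqrt_real_inner, inner_leaf]

omit h₁ in
set_option backward.isDefEq.respectTransparency false in
theorem symmL_leaf [IsManifold (𝓡 n) ∞ M₁] (A₀ A : D.Leaf) (hA : A ∈ (leafChart n A₀).source) :
    ((trivializationAt (EE n) (fun x : D.Leaf => TangentSpace (𝓡 n) x) A₀).symmL ℝ A :
      EE n →L[ℝ] EE n) =
    (trivializationAt (EE n) (fun x : M₁ => TangentSpace (𝓡 n) x) (prL A₀)).symmL ℝ (prL A) := by
  have hA' : prL A ∈ (chartAt (EE n) (prL A₀)).source := ((mem_leafChart_source_iff A₀ A).1 hA).2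
  rw [TangentBundle.symmL_trivializationAt (I := 𝓡 n) (show A ∈ (chartAt (EE n) A₀).source from hA),
    TangentBundle.symmL_trivializationAt (I := 𝓡 n) hA']
  set z : EE n := extChartAt (𝓡 n) (prL A₀) (prL A) with hz
  have hz' : extChartAt (𝓡 n) A₀ A = z := rfl
  rw [hz']
  have ht : z ∈ (extChartAt (𝓡 n) A₀).target := by
    rw [← hz']
    exact (extChartAt (𝓡 n) A₀).map_source (by rw [extChartAt_source]; exact hA)
  have ht1 : z ∈ (extChartAt (𝓡 n) (prL A₀)).target :=
    (extChartAt (𝓡 n) (prL A₀)).map_source (by rw [extChartAt_source]; exact hA')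
  have hto : (extChartAt (𝓡 n) A₀).target ∈ 𝓝 z := (isOpen_extChartAt_target A₀).mem_nhds ht
  have h1 : MDifferentiableAt 𝓘(ℝ, EE n) (𝓡 n) (extChartAt (𝓡 n) (prL A₀)).symm z := by
    have := mdifferentiableWithinAt_extChartAt_symm (I := 𝓡 n) ht1
    simpa only [mfld_simps, mdifferentiableWithinAt_univ] using this
  have h2 : HasMFDerivAt 𝓘(ℝ, EE n) (𝓡 n) (prL ∘ (extChartAt (𝓡 n) A₀).symm) z
      (mfderiv 𝓘(ℝ, EE n) (𝓡 n) (extChartAt (𝓡 n) (prL A₀)).symm z) := by
    refine h1.hasMFDerivAt.congr_of_eventuallyEq ?_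
    filter_upwards [hto] with x hx
    have hx' : x ∈ (leafChart n A₀).target := by
      rw [extChartAt_target] at hx
      exact hx.1
    rw [mem_leafChart_target_iff] at hx'
    exact prL_sec (goodRad_rad A₀) hx'.2
  have h3 : ContinuousAt (extChartAt (𝓡 n) A₀).symm z := continuousAt_extChartAt_symm'' ht
  have h4 := (hasMFDerivAt_of_prL h3 h2).mfderiv
  simp only [mfld_simps, mfderivWithin_univ] at h4 ⊢
  exact h4

set_option backward.isDefEq.respectTransparency false in
instance [IsManifold (𝓡 n) ∞ M₁]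
    [IsContMDiffRiemannianBundle (𝓡 n) ∞ (EE n) (fun x : M₁ => TangentSpace (𝓡 n) x)] :
    IsContMDiffRiemannianBundle (𝓡 n) ∞ (EE n) (fun x : D.Leaf => TangentSpace (𝓡 n) x) := by
  obtain ⟨g, hg, h⟩ := IsContMDiffRiemannianBundle.exists_contMDiff (IB := 𝓡 n) (n := ∞)
    (F := EE n) (E := fun x : M₁ => TangentSpace (𝓡 n) x)
  refine ⟨fun A => g (prL A), ?_, fun A v w => h (prL A) v w⟩
  intro A₀
  rw [contMDiffAt_section]
  have h0 := hg.contMDiffAt (x := prL A₀)
  rw [contMDiffAt_section] at h0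
  have h2 := h0.comp A₀ (contMDiff_prL A₀)
  refine h2.congr_of_eventuallyEq ?_
  filter_upwards [(leafChart n A₀).open_source.mem_nhds (mem_leafChart_source A₀)] with A hA
  have hA' : prL A ∈ (chartAt (EE n) (prL A₀)).source := ((mem_leafChart_source_iff A₀ A).1 hA).2
  have hA1 : A ∈ (chartAt (EE n) A₀).source := hA
  have hs := symmL_leaf A₀ A hA
  have key : ∀ v w : EE n,
      (trivializationAt (EE n →L[ℝ] EE n →L[ℝ] ℝ)
        (fun x : D.Leaf => TangentSpace (𝓡 n) x →L[ℝ] TangentSpace (𝓡 n) x →L[ℝ] ℝ) A₀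
        ⟨A, g (prL A)⟩).2 v w =
      (trivializationAt (EE n →L[ℝ] EE n →L[ℝ] ℝ)
        (fun x : M₁ => TangentSpace (𝓡 n) x →L[ℝ] TangentSpace (𝓡 n) x →L[ℝ] ℝ) (prL A₀)
        ⟨prL A, g (prL A)⟩).2 v w := by
    intro v w
    rw [hom_trivializationAt_apply, hom_trivializationAt_apply]
    have e1 := inCoordinates_apply_eq₂ (𝕜 := ℝ) (F₁ := EE n) (F₂ := EE n) (F₃ := ℝ)
      (E₁ := fun x : D.Leaf => TangentSpace (𝓡 n) x) (E₂ := fun x : D.Leaf => TangentSpace (𝓡 n) x)
      (E₃ := Bundle.Trivial D.Leaf ℝ) (x₀ := A₀) (x := A)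
      (ϕ := g (prL A)) (v := v) (w := w) (by simpa using hA1) (by simpa using hA1) (by simp)
    have e2 := inCoordinates_apply_eq₂ (𝕜 := ℝ) (F₁ := EE n) (F₂ := EE n) (F₃ := ℝ)
      (E₁ := fun x : M₁ => TangentSpace (𝓡 n) x) (E₂ := fun x : M₁ => TangentSpace (𝓡 n) x)
      (E₃ := Bundle.Trivial M₁ ℝ) (x₀ := prL A₀) (x := prL A)
      (ϕ := g (prL A)) (v := v) (w := w) (by simpa using hA') (by simpa using hA') (by simp)
    refine e1.trans (Eq.trans ?_ e2.symm)
    have e3 : ∀ u : EE n, (trivializationAt (EE n) (fun x : D.Leaf => TangentSpace (𝓡 n) x)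
        A₀).symm A u = (trivializationAt (EE n) (fun x : M₁ => TangentSpace (𝓡 n) x)
        (prL A₀)).symm (prL A) u := by
      intro u
      have := congrArg (fun T : EE n →L[ℝ] EE n => T u) hs
      rw [← Trivialization.symmL_apply (R := ℝ) _ (by simpa using hA1),
        ← Trivialization.symmL_apply (R := ℝ) _ (by simpa using hA')]
      exact this
    rw [e3, e3]
    rfl
  ext v w
  exact key v w

end Metric

end LeafSys

end Amb
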