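import Mathlib
import Pool.Agent.Amb.Statement
import Pool.Agent.Amb.LeafTop
import Pool.Agent.Amb.LeafMfd
import Pool.Agent.Amb.ChartLip

/-!
# The leaf as a complete connected Riemannian manifold
-/

set_option maxSynthPendingDepth 3

open Set Function Filter Metric Manifold Bundle
open scoped Topology ContDiff ENNReal

noncomputable section

namespace Amb

universe u v

section Conn

variable {n : ℕ} {M : Type*} [MetricSpace M] [ChartedSpace (EE n) M]
  [IsManifold (𝓡 n) ∞ M] [RiemannianBundle (fun x : M => TangentSpace (𝓡 n) x)]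
  [IsContMDiffRiemannianBundle (𝓡 n) ∞ (EE n) (fun x : M => TangentSpace (𝓡 n) x)]

/-- Metric balls of Riemannian manifolds are connected. -/
theorem isPreconnected_ball (n : ℕ) {M : Type*} [MetricSpace M] [ChartedSpace (EE n) M]
    [RiemannianBundle (fun x : M => TangentSpace (𝓡 n) x)]
    [IsRiemannianManifold (𝓡 n) M] (x : M) (r : ℝ) : IsPreconnected (ball x r) := by
  rcases le_or_gt r 0 with hr | hr
  · rw [ball_eq_empty.2 hr]
    exact isPreconnected_empty
  apply isPreconnected_of_forall x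
  intro y hy
  rw [mem_ball, dist_comm] at hy
  obtain ⟨γ, h0, h1, hγ, hl⟩ := exists_path_lt (n := n) hy
  refine ⟨γ '' Icc 0 1, ?_, ⟨0, ⟨le_rfl, zero_le_one⟩, h0⟩, ⟨1, ⟨zero_le_one, le_rfl⟩, h1⟩,
    isPreconnected_Icc.image _ hγ.continuousOn⟩
  rintro _ ⟨t, ht, rfl⟩
  rw [mem_ball, dist_comm, ← h0]
  have e1 : edist (γ 0) (γ t) < ENNReal.ofReal r :=
    ((edist_le_pathELength hγ le_rfl ht.1 ht.2).trans (pathELength_mono le_rfl ht.2)).trans_lt hl
  rwa [edist_dist, ENNReal.ofReal_lt_ofReal_iff_of_nonneg dist_nonneg] at e1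

/-- On a connected manifold the Riemannian distance is finite. -/
theorem riemannianEDist_ne_top (n : ℕ) {M : Type*} [TopologicalSpace M] [ChartedSpace (EE n) M]
    [IsManifold (𝓡 n) 1 M] [RiemannianBundle (fun x : M => TangentSpace (𝓡 n) x)]
    [IsContinuousRiemannianBundle (EE n) (fun x : M => TangentSpace (𝓡 n) x)]
    [PreconnectedSpace M] (x y : M) : riemannianEDist (𝓡 n) x y ≠ ⊤ := by
  have h : IsClopen {y : M | riemannianEDist (𝓡 n) x y < ⊤} := by
    constructor
    · rw [← isOpen_compl_iff, isOpen_iff_mem_nhds]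
      intro y hy
      filter_upwards [eventually_riemannianEDist_lt (𝓡 n) y (c := ⊤) (by simp)] with z hz
      intro hz'
      apply hy
      have := riemannianEDist_triangle (I := 𝓡 n) (x := x) (y := z) (z := y)
      rw [riemannianEDist_comm (x := z)] at this
      exact this.trans_lt (ENNReal.add_lt_top.2 ⟨hz', hz⟩)
    · rw [isOpen_iff_mem_nhds]
      intro y hy
      filter_upwards [eventually_riemannianEDist_lt (𝓡 n) y (c := ⊤) (by simp)] with z hz
      have := riemannianEDist_triangle (I := 𝓡 n) (x := x) (y := y) (z := z)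
      exact this.trans_lt (ENNReal.add_lt_top.2 ⟨hy, hz⟩)
  have h2 := h.eq_univ ⟨x, by
    change riemannianEDist (𝓡 n) x x < ⊤
    rw [riemannianEDist_self]; exact ENNReal.zero_lt_top⟩
  have h3 : y ∈ {y : M | riemannianEDist (𝓡 n) x y < ⊤} := by
    rw [h2]; trivial
  exact h3.ne

end Conn

namespace LeafSys

variable {n : ℕ} {M₁ : Type u} [MetricSpace M₁] [ChartedSpace (EE n) M₁]
  [IsManifold (𝓡 n) ∞ M₁] [RiemannianBundle (fun x : M₁ => TangentSpace (𝓡 n) x)]
  [IsContMDiffRiemannianBundle (𝓡 n) ∞ (EE n) (fun x : M₁ => TangentSpace (𝓡 n) x)]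
  [IsRiemannianManifold (𝓡 n) M₁]
  {P : Type v} {D : LeafSys M₁ P}

/-- The chain condition: every element of the leaf is joined to `A₀` by good steps. -/
def Chain (D : LeafSys M₁ P) (A₀ : P) : Prop :=
  ∀ A ∈ D.leaf, Relation.ReflTransGen
    (fun A B => ∃ r, D.GoodRad A r ∧ ∃ y ∈ ball (D.pr A) r, B = D.step A y) A₀ A

theorem preconnected (n : ℕ) {M₁ : Type u} [MetricSpace M₁] [ChartedSpace (EE n) M₁]
    [RiemannianBundle (fun x : M₁ => TangentSpace (𝓡 n) x)]
    [IsRiemannianManifold (𝓡 n) M₁]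
    {P : Type v} {D : LeafSys M₁ P} {A₀ : P} (h₀ : A₀ ∈ D.leaf) (h : D.Chain A₀) :
    PreconnectedSpace D.Leaf := by
  have key : ∀ A : P, Relation.ReflTransGen
      (fun A B => ∃ r, D.GoodRad A r ∧ ∃ y ∈ ball (D.pr A) r, B = D.step A y) A₀ A →
      ∃ hA : A ∈ D.leaf, (⟨A, hA⟩ : D.Leaf) ∈ connectedComponent (⟨A₀, h₀⟩ : D.Leaf) := by
    intro A hA
    induction hA with
    | refl => exact ⟨h₀, mem_connectedComponent⟩
    | @tail A B _ hstep ih =>
      obtain ⟨hA, hAc⟩ := ih
      obtain ⟨r, hr, y, hy, rfl⟩ := hstep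
      refine ⟨(hr.2 y hy).1, ?_⟩
      have hpc : IsPreconnected (sec (⟨A, hA⟩ : D.Leaf) '' ball (prL (⟨A, hA⟩ : D.Leaf)) r) :=
        (isPreconnected_ball n _ r).image _ (continuousOn_sec (A := ⟨A, hA⟩) hr)
      have h1 : (⟨A, hA⟩ : D.Leaf) ∈ sec (⟨A, hA⟩ : D.Leaf) '' ball (prL (⟨A, hA⟩ : D.Leaf)) r :=
        ⟨prL (⟨A, hA⟩ : D.Leaf), mem_ball_self hr.1, sec_prL _⟩
      have h2 : (⟨D.step A y, (hr.2 y hy).1⟩ : D.Leaf) ∈
          sec (⟨A, hA⟩ : D.Leaf) '' ball (prL (⟨A, hA⟩ : D.Leaf)) r :=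
        ⟨y, hy, Leaf.ext (sec_val (A := ⟨A, hA⟩) hr hy)⟩
      have h3 := hpc.subset_connectedComponent h1 h2
      rwa [connectedComponent_eq hAc]
  rw [preconnectedSpace_iff_connectedComponent]
  have h1 : connectedComponent (⟨A₀, h₀⟩ : D.Leaf) = univ := by
    rw [eq_univ_iff_forall]
    intro A
    obtain ⟨hA, h⟩ := key A.1 (h A.1 A.2)
    exact h
  intro A
  rw [← h1]
  exact (connectedComponent_eq (by rw [h1]; trivial)).symm

theorem locallyCompactSpace_leaf (n : ℕ) {M₁ : Type u} [MetricSpace M₁] [ChartedSpace (EE n) M₁]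
    {P : Type v} (D : LeafSys M₁ P) : LocallyCompactSpace D.Leaf :=
  ChartedSpace.locallyCompactSpace (EE n) D.Leaf

omit [IsRiemannianManifold (𝓡 n) M₁] in
variable (n D) in
theorem isContinuousRiemannianBundle_leaf :
    IsContinuousRiemannianBundle (EE n) (fun x : D.Leaf => TangentSpace (𝓡 n) x) := by
  obtain ⟨g, hg, h⟩ := IsContMDiffRiemannianBundle.exists_contMDiff (IB := 𝓡 n) (n := ∞)
    (F := EE n) (E := fun x : D.Leaf => TangentSpace (𝓡 n) x)
  exact ⟨g, hg.continuous, h⟩

variable (n D) in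
/-- The Riemannian distance of the leaf. -/
@[reducible] def leafMetric [PreconnectedSpace D.Leaf] : MetricSpace D.Leaf :=
  haveI := locallyCompactSpace_leaf n D
  haveI := isContinuousRiemannianBundle_leaf n D
  haveI : T3Space D.Leaf := inferInstance
  letI : EMetricSpace D.Leaf := EMetricSpace.ofRiemannianMetric (𝓡 n) D.Leaf
  EMetricSpace.toMetricSpace (fun x y => riemannianEDist_ne_top n x y)

set_option linter.unusedSectionVars false

theorem isRiemannianManifold_leaf [PreconnectedSpace D.Leaf] : letI := leafMetric n D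
    IsRiemannianManifold (𝓡 n) D.Leaf :=
  letI := leafMetric n D
  ⟨fun _ _ => rfl⟩

theorem norm_mfderiv_prL (A : D.Leaf) (v : TangentSpace (𝓡 n) A) :
    ‖mfderiv (𝓡 n) (𝓡 n) (prL : D.Leaf → M₁) A v‖ = ‖v‖ := by
  rw [mfderiv_prL]
  exact (norm_leaf A v).symm

theorem dist_prL_le [PreconnectedSpace D.Leaf] : letI := leafMetric n D
    ∀ A B : D.Leaf, dist (prL A) (prL B) ≤ dist A B := by
  let := leafMetric n D
  intro A B
  have := isRiemannianManifold_leaf (n := n) (D := D)
  exact dist_map_le (n := n) (contMDiff_prL.of_le (by simp)) norm_mfderiv_prL A B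

/-- Metric balls of a flat radius are contained in the sheets. -/
theorem sec_prL_of_dist_lt [PreconnectedSpace D.Leaf] {A : D.Leaf} {r : ℝ}
    (h : D.GoodRad A.1 r) : letI := leafMetric n D
    ∀ B : D.Leaf, dist A B < r → sec A (prL B) = B := by
  let := leafMetric n D
  intro B hB
  have := isRiemannianManifold_leaf (n := n) (D := D)
  obtain ⟨γ, h0, h1, hγ, hl⟩ := exists_path_lt (n := n) hB
  have hball : ∀ t ∈ Icc (0 : ℝ) 1, prL (γ t) ∈ ball (prL A) r := by
    intro t ht
    rw [mem_ball, dist_comm]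
    refine (dist_prL_le (n := n) A (γ t)).trans_lt ?_
    have e1 : edist (γ 0) (γ t) < ENNReal.ofReal r :=
      ((edist_le_pathELength hγ le_rfl ht.1 ht.2).trans (pathELength_mono le_rfl ht.2)).trans_lt hl
    rwa [h0, edist_dist, ENNReal.ofReal_lt_ofReal_iff_of_nonneg dist_nonneg] at e1
  have hsep : IsSeparatedMap (prL : D.Leaf → M₁) := T2Space.isSeparatedMap _
  have hc2 : ContinuousOn (fun t => sec A (prL (γ t))) (Icc 0 1) :=
    (continuousOn_sec h).comp (continuous_prL.comp_continuousOn hγ.continuousOn) hball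
  have he : EqOn γ (fun t => sec A (prL (γ t))) (Icc 0 1) := by
    refine hsep.eqOn_of_comp_eqOn isLocalHomeomorph_prL.isLocallyInjective isPreconnected_Icc
      hγ.continuousOn hc2 ?_ (left_mem_Icc.2 zero_le_one) ?_
    · intro t ht
      simp only [comp_apply]
      rw [prL_sec h (hball t ht)]
    · simp only [h0, sec_prL]
  have := he (right_mem_Icc.2 zero_le_one)
  simp only [h1] at this
  exact this.symm

/-- The leaf is complete. -/
theorem completeSpace_leaf [PreconnectedSpace D.Leaf] [CompleteSpace M₁] (A₀ : D.Leaf)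
    (hunif : letI := leafMetric n D
      ∀ R : ℝ, ∃ r > 0, ∀ A : D.Leaf, dist A₀ A ≤ R → D.GoodRad A.1 r) :
    letI := leafMetric n D
    CompleteSpace D.Leaf := by
  let := leafMetric n D
  have := isRiemannianManifold_leaf (n := n) (D := D)
  apply Metric.complete_of_cauchySeq_tendsto
  intro u hu
  obtain ⟨R, hR, hRu⟩ := cauchySeq_bdd hu
  obtain ⟨r, hr, hgood⟩ := hunif (dist A₀ (u 0) + R)
  have hgk : ∀ k, D.GoodRad (u k).1 r := by
    intro k
    apply hgood
    have := dist_triangle A₀ (u 0) (u k)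
    linarith [hRu 0 k]
  obtain ⟨k₀, hk₀⟩ := Metric.cauchySeq_iff'.1 hu (r / 2) (by positivity)
  have hcau : CauchySeq (fun k => prL (u k)) := by
    rw [Metric.cauchySeq_iff] at hu ⊢
    intro ε hε
    obtain ⟨k₁, hk₁⟩ := hu ε hε
    exact ⟨k₁, fun k hk l hl => (dist_prL_le (n := n) (u k) (u l)).trans_lt (hk₁ k hk l hl)⟩
  obtain ⟨b, hb⟩ := cauchySeq_tendsto_of_complete hcau
  have hbb : b ∈ ball (prL (u k₀)) r := by
    have h1 : dist b (prL (u k₀)) ≤ r / 2 := by
      have h2 : Tendsto (fun k => dist (prL (u k)) (prL (u k₀))) atTop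
          (𝓝 (dist b (prL (u k₀)))) := hb.dist tendsto_const_nhds
      refine le_of_tendsto h2 ?_
      filter_upwards [eventually_ge_atTop k₀] with k hk
      exact (dist_prL_le (n := n) (u k) (u k₀)).trans (hk₀ k hk).le
    rw [mem_ball]
    linarith
  have hc : ContinuousAt (sec (u k₀)) b :=
    (continuousOn_sec (hgk k₀)).continuousAt (isOpen_ball.mem_nhds hbb)
  refine ⟨sec (u k₀) b, ?_⟩
  refine (hc.tendsto.comp hb).congr' ?_
  filter_upwards [eventually_ge_atTop k₀] with k hk
  have h3 : dist (u k₀) (u k) < r := by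
    rw [dist_comm]
    linarith [hk₀ k hk]
  exact sec_prL_of_dist_lt (n := n) (hgk k₀) (u k) h3

end LeafSys

end Amb
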