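import Mathlib
import Pool.Agent.Amb.Statement
import Pool.Agent.Amb.LeafTop
import Pool.Agent.Amb.LeafMfd
import Pool.Agent.Amb.LeafRiem
import Pool.Agent.Amb.ChartLip
import Pool.Agent.Amb.GeoLift
import Pool.Agent.Amb.HopfRinow

/-!
# From a flat leaf to the conclusion of the Ambrose conjecture
-/

set_option maxSynthPendingDepth 3

open Set Function Filter Metric Manifold Bundle
open scoped Topology ContDiff ENNReal

noncomputable section

namespace Amb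

universe u

namespace LeafSys

variable {n : ℕ} {M₁ : Type u} [MetricSpace M₁] [ChartedSpace (EE n) M₁]
  [IsManifold (𝓡 n) ∞ M₁] [RiemannianBundle (fun x : M₁ => TangentSpace (𝓡 n) x)]
  [IsContMDiffRiemannianBundle (𝓡 n) ∞ (EE n) (fun x : M₁ => TangentSpace (𝓡 n) x)]
  [IsRiemannianManifold (𝓡 n) M₁]
  {M₂ : Type u} [MetricSpace M₂] [ChartedSpace (EE n) M₂]
  [IsManifold (𝓡 n) ∞ M₂] [RiemannianBundle (fun x : M₂ => TangentSpace (𝓡 n) x)]
  [IsContMDiffRiemannianBundle (𝓡 n) ∞ (EE n) (fun x : M₂ => TangentSpace (𝓡 n) x)]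
  [IsRiemannianManifold (𝓡 n) M₂]
  {P : Type u} {D : LeafSys M₁ P}

set_option linter.unusedSectionVars false

section Pr2

variable (pr₂ : P → M₂)

theorem pr₂_sec (A : D.Leaf) : (fun B : D.Leaf => pr₂ B.1) ∘ sec A =ᶠ[𝓝 (prL A)]
    fun b => pr₂ (D.step A.1 b) := by
  filter_upwards [ball_mem_nhds (prL A) (goodRad_rad A).1] with b hb
  simp only [comp_apply]
  rw [sec_val (goodRad_rad A) hb]

theorem contMDiff_pr₂
    (hsm : ∀ A ∈ D.leaf, ContMDiffAt (𝓡 n) (𝓡 n) ∞ (fun b => pr₂ (D.step A b)) (D.pr A)) :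
    ContMDiff (𝓡 n) (𝓡 n) ∞ (fun B : D.Leaf => pr₂ B.1) := by
  intro A
  apply contMDiffAt_of_sec
  exact (hsm A.1 A.2).congr_of_eventuallyEq (pr₂_sec pr₂ A)

theorem hasMFDerivAt_pr₂ {A : D.Leaf} {T : EE n →L[ℝ] EE n}
    (h : HasMFDerivAt (𝓡 n) (𝓡 n) (fun b => pr₂ (D.step A.1 b)) (D.pr A.1) T) :
    HasMFDerivAt (𝓡 n) (𝓡 n) (fun B : D.Leaf => pr₂ B.1) A T := by
  apply mfderiv_eq_sec
  exact h.congr_of_eventuallyEq (pr₂_sec pr₂ A)

end Pr2

/-- **From a flat leaf to the conclusion of the Ambrose conjecture.** -/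
theorem ambrose_of_leaf [CompleteSpace M₁] [ConnectedSpace M₁] [CompleteSpace M₂]
    [ConnectedSpace M₂] (D : LeafSys M₁ P) (pr₂ : P → M₂) {A₀ : P} (h₀ : A₀ ∈ D.leaf)
    (hchain : D.Chain A₀)
    (hsm : ∀ A ∈ D.leaf, ContMDiffAt (𝓡 n) (𝓡 n) ∞ (fun b => pr₂ (D.step A b)) (D.pr A))
    (F : P → EE n →L[ℝ] EE n)
    (hF : ∀ A ∈ D.leaf, HasMFDerivAt (𝓡 n) (𝓡 n) (fun b => pr₂ (D.step A b)) (D.pr A) (F A))
    (hFn : ∀ A ∈ D.leaf, ∀ v : EE n, ‖(show TangentSpace (𝓡 n) (pr₂ A) from F A v)‖ =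
      ‖(show TangentSpace (𝓡 n) (D.pr A) from v)‖)
    (hunif : ∀ S : ℝ, ∃ r > 0, ∀ A ∈ D.leaf, dist (D.pr A₀) (D.pr A) ≤ S →
      dist (pr₂ A₀) (pr₂ A) ≤ S → D.GoodRad A r)
    (L : TangentSpace (𝓡 n) (D.pr A₀) ≃ₗᵢ[ℝ] TangentSpace (𝓡 n) (pr₂ A₀))
    (hL : ∀ v : EE n, F A₀ v = L v)
    (g₁ : GeoUnique n M₁) (g₂ : GeoUnique n M₂)
    (g : ∀ (M : Type u) [MetricSpace M] [ChartedSpace (EE n) M]
      [IsManifold (𝓡 n) ∞ M] [RiemannianBundle (fun x : M => TangentSpace (𝓡 n) x)]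
      [IsContMDiffRiemannianBundle (𝓡 n) ∞ (EE n) (fun x : M => TangentSpace (𝓡 n) x)]
      [IsRiemannianManifold (𝓡 n) M] [CompleteSpace M] [ConnectedSpace M], GeoUnique n M) :
    AmbroseConclusion (D.pr A₀) (pr₂ A₀) L := by
  have hpc : PreconnectedSpace D.Leaf := preconnected n h₀ hchain
  let B₀ : D.Leaf := ⟨A₀, h₀⟩
  let p2 : D.Leaf → M₂ := fun B => pr₂ B.1
  have hp2s : ContMDiff (𝓡 n) (𝓡 n) ∞ p2 := contMDiff_pr₂ pr₂ hsm
  have hp2d : ∀ A : D.Leaf, HasMFDerivAt (𝓡 n) (𝓡 n) p2 A (F A.1) := fun A =>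
    hasMFDerivAt_pr₂ pr₂ (hF A.1 A.2)
  have hp2i : ∀ A : D.Leaf, ∀ v : TangentSpace (𝓡 n) A, ‖mfderiv (𝓡 n) (𝓡 n) p2 A v‖ = ‖v‖ := by
    intro A v
    rw [(hp2d A).mfderiv]
    exact (hFn A.1 A.2 v).trans (norm_leaf A v).symm
  let _ : MetricSpace D.Leaf := leafMetric n D
  have hR : IsRiemannianManifold (𝓡 n) D.Leaf := isRiemannianManifold_leaf (n := n) (D := D)
  have hC : CompleteSpace D.Leaf := by
    apply completeSpace_leaf (n := n) B₀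
    intro R
    obtain ⟨r, hr, h⟩ := hunif R
    refine ⟨r, hr, fun A hA => h A.1 A.2 ?_ ?_⟩
    · exact (dist_map_le (n := n) (contMDiff_prL.of_le (by simp)) norm_mfderiv_prL B₀ A).trans hA
    · exact (dist_map_le (n := n) (hp2s.of_le (by simp)) hp2i B₀ A).trans hA
  have hne : Nonempty D.Leaf := ⟨B₀⟩
  have hcon : ConnectedSpace D.Leaf := ⟨hne⟩
  have hprop : ProperSpace D.Leaf := properSpace_of_complete (n := n)
  have hsc : SecondCountableTopology D.Leaf := secondCountable_of_proper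
  have hc1 : IsRiemannianCovering (n := n) (prL : D.Leaf → M₁) :=
    isRiemannianCovering_of_isometric contMDiff_prL norm_mfderiv_prL
  have hc2 : IsRiemannianCovering (n := n) p2 := isRiemannianCovering_of_isometric hp2s hp2i
  have hl1 : LocIso (prL : D.Leaf → M₁) := locIso_of_isometric (n := n) contMDiff_prL norm_mfderiv_prL
  have hl2 : LocIso p2 := locIso_of_isometric (n := n) hp2s hp2i
  have gL : GeoUnique n D.Leaf := g D.Leaf
  let L₁ : TangentSpace (𝓡 n) B₀ ≃ₗᵢ[ℝ] TangentSpace (𝓡 n) (D.pr A₀) :=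
    { toLinearEquiv := LinearEquiv.refl ℝ (EE n)
      norm_map' := fun v => (norm_leaf B₀ v).symm }
  refine ⟨D.Leaf, inferInstance, inferInstance, inferInstance, inferInstance, inferInstance,
    hR, hC, hcon, hsc, B₀, L₁, L₁.trans L, prL, p2, hc1, hc2, ?_, ?_, fun v => rfl⟩
  · intro v
    obtain ⟨γ, hγ, -⟩ := gL B₀ v
    have h1 : IsGeodesic (n := n) (fun t => prL (γ t)) (D.pr A₀) (L₁ v) :=
      hγ.map hl1 rfl (hasMFDerivAt_prL B₀) rfl (L₁.norm_map v)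
    rw [expMap_eq gL hγ, expMap_eq g₁ h1]
  · intro v
    obtain ⟨γ, hγ, -⟩ := gL B₀ v
    have h1 : IsGeodesic (n := n) (fun t => p2 (γ t)) (pr₂ A₀) ((L₁.trans L) v) :=
      hγ.map hl2 rfl (hp2d B₀) (hL v) ((L₁.trans L).norm_map v)
    rw [expMap_eq gL hγ, expMap_eq g₂ h1]

end LeafSys

end Amb
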