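import Mathlib

/-!
# Gronwall estimates for the velocity of a radial family of frames

`θ' = ζ' + ω ζ`, `ω' = R(ζ, θ)`, `θ 0 = 0`, `ω 0 = 0`  (structure equations along `t ↦ Ψ_{tζ(s)} f`).
-/

set_option autoImplicit false
open scoped Topology
open Set Filter

namespace Amb

variable {E : Type*} [NormedAddCommGroup E] [NormedSpace ℝ E]

/-- velocity of a radial family: `ζ` the direction, `ζ'` its variation -/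
structure Vel (R : ℝ → E →L[ℝ] E →L[ℝ] E →L[ℝ] E) (ζ ζ' : E) (θ : ℝ → E) (ω : ℝ → E →L[ℝ] E) : Prop where
  dθ : ∀ t ∈ Icc (0:ℝ) 1, HasDerivWithinAt θ (ζ' + ω t ζ) (Icc 0 1) t
  dω : ∀ t ∈ Icc (0:ℝ) 1, HasDerivWithinAt ω (R t ζ (θ t)) (Icc 0 1) t
  θ0 : θ 0 = 0
  ω0 : ω 0 = 0

/-- Gronwall on `[0,1]`, zero initial value -/
lemma gron {F : Type*} [NormedAddCommGroup F] [NormedSpace ℝ F] {f f' : ℝ → F} {K ε : ℝ} (hK : 0 ≤ K) (hε : 0 ≤ ε)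
    (hf : ∀ t ∈ Icc (0:ℝ) 1, HasDerivWithinAt f (f' t) (Icc 0 1) t) (h0 : f 0 = 0)
    (hb : ∀ t ∈ Icc (0:ℝ) 1, ‖f' t‖ ≤ K * ‖f t‖ + ε) :
    ∀ t ∈ Icc (0:ℝ) 1, ‖f t‖ ≤ ε * t * Real.exp (K * t) := by
  intro t ht
  have h1 := norm_le_gronwallBound_of_norm_deriv_right_le (f := f) (f' := f') (δ := 0) (K := K) (ε := ε) (a := 0) (b := 1)
    (fun x hx => (hf x hx).continuousWithinAt)
    (fun x hx => by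
      have := hf x ⟨hx.1, hx.2.le⟩
      exact this.mono_of_mem_nhdsWithin (Icc_mem_nhdsGE_of_mem hx))
    (by simp [h0]) (fun x hx => hb x ⟨hx.1, hx.2.le⟩) t ht
  refine h1.trans ?_
  rw [sub_zero]
  rcases eq_or_lt_of_le hK with hK0 | hK0
  · rw [← hK0, gronwallBound_K0]
    simp
  · rw [gronwallBound_of_K_ne_0 (ne_of_gt hK0)]
    simp only [zero_mul, zero_add]
    -- (e^x - 1) ≤ x e^x
    have h2 : Real.exp (K * t) - 1 ≤ (K * t) * Real.exp (K * t) := by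
      have h3 := Real.add_one_le_exp (-(K * t))
      have h4 : Real.exp (K * t) * (-(K * t) + 1) ≤ Real.exp (K * t) * Real.exp (-(K * t)) :=
        mul_le_mul_of_nonneg_left h3 (Real.exp_pos _).le
      rw [← Real.exp_add, add_neg_cancel, Real.exp_zero] at h4
      nlinarith
    calc ε / K * (Real.exp (K * t) - 1) ≤ ε / K * ((K * t) * Real.exp (K * t)) :=
          mul_le_mul_of_nonneg_left h2 (by positivity)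
      _ = ε * t * Real.exp (K * t) := by field_simp

variable {R R1 R2 : ℝ → E →L[ℝ] E →L[ℝ] E →L[ℝ] E} {ζ ζ' : E} {θ θ1 θ2 : ℝ → E} {ω ω1 ω2 : ℝ → E →L[ℝ] E}

/-- a priori bound -/
theorem Vel.bound (h : Vel R ζ ζ' θ ω) {Kb : ℝ} (hK : 0 ≤ Kb)
    (hR : ∀ t ∈ Icc (0:ℝ) 1, ∀ u v, ‖R t u v‖ ≤ Kb * ‖u‖ * ‖v‖) :
    ∀ t ∈ Icc (0:ℝ) 1, ‖θ t‖ ≤ ‖ζ'‖ * t * Real.exp ((1 + Kb) * ‖ζ‖ * t) ∧
      ‖ω t‖ ≤ ‖ζ'‖ * t * Real.exp ((1 + Kb) * ‖ζ‖ * t) := by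
  have key := gron (f := fun t => (θ t, ω t)) (f' := fun t => (ζ' + ω t ζ, R t ζ (θ t)))
    (K := (1 + Kb) * ‖ζ‖) (ε := ‖ζ'‖) (by positivity) (norm_nonneg _)
    (fun t ht => (h.dθ t ht).prodMk (h.dω t ht)) (by simp [h.θ0, h.ω0]) ?_
  · intro t ht
    exact ⟨(norm_fst_le (θ t, ω t)).trans (key t ht), (norm_snd_le (θ t, ω t)).trans (key t ht)⟩
  · intro t ht
    have a1 : ‖θ t‖ ≤ ‖(θ t, ω t)‖ := norm_fst_le (θ t, ω t)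
    have a2 : ‖ω t‖ ≤ ‖(θ t, ω t)‖ := norm_snd_le (θ t, ω t)
    have a3 : (0:ℝ) ≤ ‖ζ‖ := norm_nonneg _
    have a4 : (0:ℝ) ≤ ‖ζ'‖ := norm_nonneg _
    have a5 : (0:ℝ) ≤ ‖(θ t, ω t)‖ := norm_nonneg _
    rw [Prod.norm_def]
    refine max_le ?_ ?_
    · have b1 : ‖ω t ζ‖ ≤ ‖(θ t, ω t)‖ * ‖ζ‖ := (ω t).le_of_opNorm_le a2 ζ
      have b2 := norm_add_le ζ' (ω t ζ)
      have b3 : 0 ≤ Kb * ‖ζ‖ * ‖(θ t, ω t)‖ := by positivity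
      show ‖ζ' + ω t ζ‖ ≤ _
      nlinarith
    · have b1 := hR t ht ζ (θ t)
      have b2 : Kb * ‖ζ‖ * ‖θ t‖ ≤ Kb * ‖ζ‖ * ‖(θ t, ω t)‖ := mul_le_mul_of_nonneg_left a1 (by positivity)
      have b3 : 0 ≤ ‖ζ‖ * ‖(θ t, ω t)‖ := by positivity
      show ‖R t ζ (θ t)‖ ≤ _
      nlinarith

/-- comparison of two radial families -/
theorem Vel.compare (h1 : Vel R1 ζ ζ' θ1 ω1) (h2 : Vel R2 ζ ζ' θ2 ω2) {Kb δ : ℝ} (hK : 0 ≤ Kb) (hδ : 0 ≤ δ)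
    (hR1 : ∀ t ∈ Icc (0:ℝ) 1, ∀ u v, ‖R1 t u v‖ ≤ Kb * ‖u‖ * ‖v‖)
    (hR2 : ∀ t ∈ Icc (0:ℝ) 1, ∀ u v, ‖R2 t u v‖ ≤ Kb * ‖u‖ * ‖v‖)
    (hD : ∀ t ∈ Icc (0:ℝ) 1, ∀ u v, ‖R1 t u v - R2 t u v‖ ≤ δ * ‖u‖ * ‖v‖) :
    ∀ t ∈ Icc (0:ℝ) 1, ‖θ1 t - θ2 t‖ ≤ δ * ‖ζ‖ * ‖ζ'‖ * Real.exp (2 * ((1 + Kb) * ‖ζ‖)) ∧
      ‖ω1 t - ω2 t‖ ≤ δ * ‖ζ‖ * ‖ζ'‖ * Real.exp (2 * ((1 + Kb) * ‖ζ‖)) := by
  set M : ℝ := Real.exp ((1 + Kb) * ‖ζ‖) with hM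
  have hM0 : 0 < M := Real.exp_pos _
  have a3 : (0:ℝ) ≤ ‖ζ‖ := norm_nonneg _
  have a4 : (0:ℝ) ≤ ‖ζ'‖ := norm_nonneg _
  have hle : ∀ t ∈ Icc (0:ℝ) 1, ∀ c : ℝ, 0 ≤ c → c * t * Real.exp ((1 + Kb) * ‖ζ‖ * t) ≤ c * M := by
    intro t ht c hc
    have e1 : Real.exp ((1 + Kb) * ‖ζ‖ * t) ≤ M := by
      rw [hM]
      apply Real.exp_le_exp.2
      have : 0 ≤ (1 + Kb) * ‖ζ‖ := by positivity
      nlinarith [ht.1, ht.2]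
    have e2 : c * t ≤ c := by nlinarith [ht.1, ht.2]
    have e3 : 0 ≤ c * t := mul_nonneg hc ht.1
    calc c * t * Real.exp ((1 + Kb) * ‖ζ‖ * t) ≤ c * t * M := mul_le_mul_of_nonneg_left e1 e3
      _ ≤ c * M := mul_le_mul_of_nonneg_right e2 hM0.le
  have key := gron (f := fun t => (θ1 t - θ2 t, ω1 t - ω2 t))
    (f' := fun t => ((ζ' + ω1 t ζ) - (ζ' + ω2 t ζ), R1 t ζ (θ1 t) - R2 t ζ (θ2 t)))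
    (K := (1 + Kb) * ‖ζ‖) (ε := δ * ‖ζ‖ * (‖ζ'‖ * M)) (by positivity) (by positivity)
    (fun t ht => ((h1.dθ t ht).sub (h2.dθ t ht)).prodMk ((h1.dω t ht).sub (h2.dω t ht)))
    (by simp [h1.θ0, h1.ω0, h2.θ0, h2.ω0]) ?_
  · intro t ht
    have e0 := (key t ht).trans (hle t ht _ (by positivity))
    have e1 : δ * ‖ζ‖ * (‖ζ'‖ * M) * M = δ * ‖ζ‖ * ‖ζ'‖ * Real.exp (2 * ((1 + Kb) * ‖ζ‖)) := by
      rw [two_mul, Real.exp_add, ← hM]; ring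
    rw [e1] at e0
    exact ⟨(norm_fst_le (θ1 t - θ2 t, ω1 t - ω2 t)).trans e0, (norm_snd_le (θ1 t - θ2 t, ω1 t - ω2 t)).trans e0⟩
  · intro t ht
    have a1 : ‖θ1 t - θ2 t‖ ≤ ‖(θ1 t - θ2 t, ω1 t - ω2 t)‖ := norm_fst_le (θ1 t - θ2 t, ω1 t - ω2 t)
    have a2 : ‖ω1 t - ω2 t‖ ≤ ‖(θ1 t - θ2 t, ω1 t - ω2 t)‖ := norm_snd_le (θ1 t - θ2 t, ω1 t - ω2 t)
    have a5 : (0:ℝ) ≤ ‖(θ1 t - θ2 t, ω1 t - ω2 t)‖ := norm_nonneg _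
    have a6 : ‖θ1 t‖ ≤ ‖ζ'‖ * M := ((h1.bound hK hR1 t ht).1).trans (hle t ht _ a4)
    have c0 : 0 ≤ δ * ‖ζ‖ * (‖ζ'‖ * M) := by positivity
    rw [Prod.norm_def]
    refine max_le ?_ ?_
    · have e : (ζ' + ω1 t ζ) - (ζ' + ω2 t ζ) = (ω1 t - ω2 t) ζ := by
        rw [sub_apply]; abel
      have b1 : ‖(ω1 t - ω2 t) ζ‖ ≤ ‖(θ1 t - θ2 t, ω1 t - ω2 t)‖ * ‖ζ‖ := (ω1 t - ω2 t).le_of_opNorm_le a2 ζ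
      have b3 : 0 ≤ Kb * ‖ζ‖ * ‖(θ1 t - θ2 t, ω1 t - ω2 t)‖ := by positivity
      show ‖(ζ' + ω1 t ζ) - (ζ' + ω2 t ζ)‖ ≤ _
      rw [e]
      nlinarith
    · have e : R1 t ζ (θ1 t) - R2 t ζ (θ2 t) = (R1 t ζ (θ1 t) - R2 t ζ (θ1 t)) + R2 t ζ (θ1 t - θ2 t) := by
        rw [map_sub]; abel
      have b1 := hD t ht ζ (θ1 t)
      have b2 := hR2 t ht ζ (θ1 t - θ2 t)
      have b3 : δ * ‖ζ‖ * ‖θ1 t‖ ≤ δ * ‖ζ‖ * (‖ζ'‖ * M) := mul_le_mul_of_nonneg_left a6 (by positivity)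
      have b4 : Kb * ‖ζ‖ * ‖θ1 t - θ2 t‖ ≤ Kb * ‖ζ‖ * ‖(θ1 t - θ2 t, ω1 t - ω2 t)‖ :=
        mul_le_mul_of_nonneg_left a1 (by positivity)
      have b5 := norm_add_le (R1 t ζ (θ1 t) - R2 t ζ (θ1 t)) (R2 t ζ (θ1 t - θ2 t))
      have b6 : 0 ≤ ‖ζ‖ * ‖(θ1 t - θ2 t, ω1 t - ω2 t)‖ := by positivity
      show ‖R1 t ζ (θ1 t) - R2 t ζ (θ2 t)‖ ≤ _
      rw [e]
      nlinarith

end Amb
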