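import Mathlib

/-!
# Rigidity of the radial Jacobi operators

Two families `B1, B2` of operators on a Euclidean space solving `B'' = - K B`, `B 0 = 0`, `B' 0 = 1` with `K`
symmetric, such that `|B1 t v| = |B2 t v|` at all `t > 0` where `B1 t` is injective, agree for all `t ≥ 0`.
-/

set_option autoImplicit false
set_option linter.unusedSectionVars false
open scoped Topology InnerProductSpace
open Set Filter

namespace Amb

variable {E : Type*} [NormedAddCommGroup E] [InnerProductSpace ℝ E] [FiniteDimensional ℝ E]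

/-- A solution of the Jacobi operator equation. -/
structure Jac (K B B' : ℝ → E →L[ℝ] E) : Prop where
  contK : Continuous K
  symm : ∀ t u v, ⟪K t u, v⟫_ℝ = ⟪u, K t v⟫_ℝ
  d1 : ∀ t, HasDerivAt B (B' t) t
  d2 : ∀ t, HasDerivAt B' (-(K t * B t)) t
  b0 : B 0 = 0
  b1 : B' 0 = 1

namespace Jac

variable {K B B' : ℝ → E →L[ℝ] E}

lemma dv (h : Jac K B B') (v : E) (t : ℝ) : HasDerivAt (fun s => B s v) (B' t v) t := by
  have := (h.d1 t).clm_apply (hasDerivAt_const t v)
  simpa using this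

lemma dv' (h : Jac K B B') (v : E) (t : ℝ) : HasDerivAt (fun s => B' s v) (-(K t (B t v))) t := by
  have := (h.d2 t).clm_apply (hasDerivAt_const t v)
  simpa using this

/-- Wronskian identity -/
lemma wronskian (h : Jac K B B') (t : ℝ) (u v : E) : ⟪B t u, B' t v⟫_ℝ = ⟪B' t u, B t v⟫_ℝ := by
  have hd : ∀ s, HasDerivAt (fun s => ⟪B s u, B' s v⟫_ℝ - ⟪B' s u, B s v⟫_ℝ) 0 s := by
    intro s
    have h1 := (h.dv u s).inner ℝ (h.dv' v s)
    have h2 := (h.dv' u s).inner ℝ (h.dv v s)
    have h3 := h1.sub h2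
    have e : ⟪B s u, -(K s) (B s v)⟫_ℝ + ⟪B' s u, B' s v⟫_ℝ
        - (⟪B' s u, B' s v⟫_ℝ + ⟪-(K s) (B s u), B s v⟫_ℝ) = 0 := by
      rw [inner_neg_right, inner_neg_left, h.symm s (B s u) (B s v)]
      ring
    rw [e] at h3
    exact h3
  have hc := is_const_of_deriv_eq_zero (f := fun s => ⟪B s u, B' s v⟫_ℝ - ⟪B' s u, B s v⟫_ℝ)
    (fun s => (hd s).differentiableAt) (fun s => (hd s).deriv) t 0
  simp only [h.b0, h.b1] at hc
  simp at hc
  linarith

/-- trivial joint kernel -/
lemma ker_inter (h : Jac K B B') (t0 : ℝ) (v : E) (h1 : B t0 v = 0) (h2 : B' t0 v = 0) : v = 0 := by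
  -- uniqueness for the linear ODE (x, y)' = (y, -K x)
  set a : ℝ := -|t0| - 1 with ha
  set b : ℝ := |t0| + 1 with hb
  obtain ⟨C, hC⟩ : ∃ C : ℝ, ∀ t ∈ Icc a b, ‖K t‖ ≤ C :=
    (isCompact_Icc.exists_bound_of_continuousOn h.contK.continuousOn)
  have hC0 : 0 ≤ C := le_trans (norm_nonneg _) (hC t0 ⟨by rw [ha]; linarith [neg_abs_le t0], by rw [hb]; linarith [le_abs_self t0]⟩)
  have key := ODE_solution_unique_of_mem_Icc (v := fun t (x : E × E) => (x.2, -(K t x.1)))
    (s := fun _ => univ) (K := Real.toNNReal (1 + C)) (f := fun t => (B t v, B' t v)) (g := fun _ => 0)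
    (a := a) (b := b) (t₀ := t0) ?_ ?_ ?_ ?_ ?_ ?_ ?_ ?_ ?_
  · have h0 : (0:ℝ) ∈ Icc a b := ⟨by rw [ha]; linarith [abs_nonneg t0], by rw [hb]; linarith [abs_nonneg t0]⟩
    have := key h0
    simp only [h.b0, h.b1, Prod.mk_eq_zero] at this
    simpa using this.2
  · intro t ht
    refine LipschitzWith.lipschitzOnWith (LipschitzWith.of_dist_le_mul ?_)
    intro x y
    rw [dist_eq_norm, dist_eq_norm]
    have e : ((x.2, -(K t x.1)) : E × E) - (y.2, -(K t y.1)) = ((x - y).2, -(K t (x - y).1)) := by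
      ext
      · simp
      · simp; abel
    rw [e, Prod.norm_def]
    have n1 : ‖(x - y).2‖ ≤ ‖x - y‖ := norm_snd_le _
    have n2 : ‖K t (x - y).1‖ ≤ C * ‖x - y‖ :=
      (K t).le_of_opNorm_le_of_le (hC t ⟨ht.1.le, ht.2.le⟩) (norm_fst_le _)
    have n3 : 0 ≤ C * ‖x - y‖ := by positivity
    have n4 : 0 ≤ ‖x - y‖ := norm_nonneg _
    rw [Real.coe_toNNReal (1 + C) (by positivity)]
    simp only [norm_neg]
    refine max_le ?_ ?_
    · nlinarith
    · nlinarith
  · exact ⟨by rw [ha]; linarith [neg_abs_le t0], by rw [hb]; linarith [le_abs_self t0]⟩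
  · exact (Continuous.prodMk (continuous_iff_continuousAt.2 fun t => (h.dv v t).continuousAt)
      (continuous_iff_continuousAt.2 fun t => (h.dv' v t).continuousAt)).continuousOn
  · intro t _
    exact (h.dv v t).prodMk (h.dv' v t)
  · intro t _; trivial
  · exact continuousOn_const
  · intro t _
    have := hasDerivAt_const t (0 : E × E)
    convert this using 1
    simp
  · intro t _; trivial
  · simp [h1, h2]

/-- conjugate times are isolated from the right -/
lemma isolated (h : Jac K B B') (t0 : ℝ) :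
    ∀ᶠ t in 𝓝[>] t0, ∀ v, B t v = 0 → v = 0 := by
  by_contra hcon
  have hf : ∃ᶠ t in 𝓝[>] t0, ∃ v, B t v = 0 ∧ v ≠ 0 := by
    refine (Filter.not_eventually.1 hcon).mono ?_
    intro t ht
    push Not at ht
    exact ht
  obtain ⟨ts, hts, hts'⟩ := Filter.exists_seq_forall_of_frequently hf
  choose vs hvs hvs0 using hts'
  set us : ℕ → E := fun n => (‖vs n‖)⁻¹ • vs n with hus
  have hun : ∀ n, us n ∈ Metric.sphere (0:E) 1 := by
    intro n
    rw [mem_sphere_zero_iff_norm, hus]
    simp only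
    rw [norm_smul, norm_inv, norm_norm, inv_mul_cancel₀ (norm_ne_zero_iff.2 (hvs0 n))]
  have hu0 : ∀ n, B (ts n) (us n) = 0 := by
    intro n
    simp only [hus]
    rw [map_smul, hvs n, smul_zero]
  obtain ⟨v, hv, φ, hφ, hlim⟩ := (isCompact_sphere (0:E) 1).tendsto_subseq hun
  have hts2 : Tendsto (fun n => ts (φ n)) atTop (𝓝[>] t0) := hts.comp hφ.tendsto_atTop
  have hts3 : Tendsto (fun n => ts (φ n)) atTop (𝓝 t0) := hts2.mono_right nhdsWithin_le_nhds
  have hlim' : Tendsto (fun n => us (φ n)) atTop (𝓝 v) := hlim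
  have hB : Tendsto (fun n => B (ts (φ n))) atTop (𝓝 (B t0)) := ((h.d1 t0).continuousAt).tendsto.comp hts3
  have hBv : B t0 v = 0 := by
    have h1 := ((isBoundedBilinearMap_apply (𝕜 := ℝ) (E := E) (F := E)).continuous.tendsto (B t0, v)).comp
      (hB.prodMk_nhds hlim')
    have h1' : Tendsto (fun _ : ℕ => (0 : E)) atTop (𝓝 (B t0 v)) := by
      refine h1.congr ?_
      intro n
      exact hu0 (φ n)
    exact tendsto_nhds_unique h1' tendsto_const_nhds
  have hslope : Tendsto (fun n => slope B t0 (ts (φ n))) atTop (𝓝 (B' t0)) := by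
    have h1 := (hasDerivAt_iff_tendsto_slope.1 (h.d1 t0))
    refine h1.comp ?_
    refine hts2.mono_right (nhdsWithin_mono _ ?_)
    intro x hx
    exact ne_of_gt hx
  have h2 : Tendsto (fun n => ⟪slope B t0 (ts (φ n)) (us (φ n)), B' t0 v⟫_ℝ) atTop (𝓝 ⟪B' t0 v, B' t0 v⟫_ℝ) :=
    (((isBoundedBilinearMap_apply (𝕜 := ℝ) (E := E) (F := E)).continuous.tendsto (B' t0, v)).comp
      (hslope.prodMk_nhds hlim')).inner tendsto_const_nhds
  have h3 : ∀ n, ⟪slope B t0 (ts (φ n)) (us (φ n)), B' t0 v⟫_ℝ = 0 := by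
    intro n
    rw [slope_def_module]
    simp only [smul_apply, sub_apply]
    rw [hu0 (φ n), zero_sub, inner_smul_left, inner_neg_left, h.wronskian t0 (us (φ n)) v, hBv, inner_zero_right]
    simp
  simp only [h3] at h2
  have h4 : ⟪B' t0 v, B' t0 v⟫_ℝ = 0 := tendsto_nhds_unique h2 tendsto_const_nhds
  have h5 : B' t0 v = 0 := inner_self_eq_zero.1 h4
  have h6 := h.ker_inter t0 v hBv h5
  rw [mem_sphere_zero_iff_norm, h6, norm_zero] at hv
  exact zero_ne_one hv

lemma range_sup (h : Jac K B B') (t0 : ℝ) (w : E) (h1 : ∀ u, ⟪w, B t0 u⟫_ℝ = 0)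
    (h2 : ∀ u, ⟪w, B' t0 u⟫_ℝ = 0) : w = 0 := by
  -- `B'` maps `ker B` onto the orthogonal complement of the range of `B`
  set L : E →ₗ[ℝ] E := (B t0 : E →ₗ[ℝ] E) with hL
  set L' : E →ₗ[ℝ] E := (B' t0 : E →ₗ[ℝ] E) with hL'
  have hmap : (LinearMap.ker L).map L' ≤ (LinearMap.range L)ᗮ := by
    rintro x ⟨u, hu, rfl⟩
    rw [Submodule.mem_orthogonal]
    rintro y ⟨z, rfl⟩
    have hu' : B t0 u = 0 := hu
    have := h.wronskian t0 z u
    rw [hu', inner_zero_right] at this
    exact this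
  have hinj : Function.Injective (L'.domRestrict (LinearMap.ker L)) := by
    rw [← LinearMap.ker_eq_bot, LinearMap.ker_eq_bot']
    rintro ⟨u, hu⟩ hu2
    have := h.ker_inter t0 u hu hu2
    simp [this]
  have hdim : Module.finrank ℝ ((LinearMap.ker L).map L') = Module.finrank ℝ (LinearMap.ker L) := by
    have := LinearMap.finrank_range_of_inj hinj
    rw [← this, LinearMap.range_domRestrict]
  have hd2 := LinearMap.finrank_range_add_finrank_ker L
  have hd3 := Submodule.finrank_add_finrank_orthogonal (LinearMap.range L)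
  have heq : (LinearMap.ker L).map L' = (LinearMap.range L)ᗮ :=
    Submodule.eq_of_le_of_finrank_eq hmap (by omega)
  have hw : w ∈ (LinearMap.range L)ᗮ := by
    rw [Submodule.mem_orthogonal]
    rintro y ⟨z, rfl⟩
    rw [real_inner_comm]
    exact h1 z
  rw [← heq] at hw
  obtain ⟨u, _, hu⟩ := hw
  have := h2 u
  have e : B' t0 u = w := hu
  rw [e] at this
  exact inner_self_eq_zero.1 this

end Jac

section Two

variable {K1 B1 B1' K2 B2 B2' : ℝ → E →L[ℝ] E}

lemma unit_of_inj (T : E →L[ℝ] E) (hT : ∀ v, T v = 0 → v = 0) : IsUnit T := by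
  have hinj : Function.Injective (T : E →ₗ[ℝ] E) := by
    rw [← LinearMap.ker_eq_bot, LinearMap.ker_eq_bot']
    exact hT
  have hu : IsUnit (T : E →ₗ[ℝ] E) := (LinearMap.isUnit_iff_ker_eq_bot _).2 (LinearMap.ker_eq_bot.2 hinj)
  obtain ⟨S, hS1, hS2⟩ : ∃ S : E →ₗ[ℝ] E, (T : E →ₗ[ℝ] E) * S = 1 ∧ S * (T : E →ₗ[ℝ] E) = 1 := by
    obtain ⟨u, hu⟩ := hu
    exact ⟨↑u⁻¹, by rw [← hu]; simp, by rw [← hu]; simp⟩
  refine ⟨⟨T, LinearMap.toContinuousLinearMap S, ?_, ?_⟩, rfl⟩
  · ext v
    have := LinearMap.congr_fun hS1 v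
    simpa using this
  · ext v
    have := LinearMap.congr_fun hS2 v
    simpa using this

/-- Two Jacobi operator fields with the same length function agree. -/
theorem ray_rigid (h1 : Jac K1 B1 B1') (h2 : Jac K2 B2 B2')
    (hG : ∀ t, 0 < t → (∀ v, B1 t v = 0 → v = 0) → ∀ v, ‖B1 t v‖ = ‖B2 t v‖) :
    ∀ t, 0 ≤ t → B1 t = B2 t ∧ B1' t = B2' t := by
  have c1 : Continuous B1 := continuous_iff_continuousAt.2 fun t => (h1.d1 t).continuousAt
  have c1' : Continuous B1' := continuous_iff_continuousAt.2 fun t => (h1.d2 t).continuousAt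
  have c2 : Continuous B2 := continuous_iff_continuousAt.2 fun t => (h2.d1 t).continuousAt
  have c2' : Continuous B2' := continuous_iff_continuousAt.2 fun t => (h2.d2 t).continuousAt
  set S : Set ℝ := {t | B1 t = B2 t ∧ B1' t = B2' t} with hS
  have hSc : IsClosed S := (isClosed_eq c1 c2).inter (isClosed_eq c1' c2')
  intro t ht
  have key : Icc 0 t ⊆ S := by
    refine IsClosed.Icc_subset_of_forall_mem_nhdsWithin (hSc.inter isClosed_Icc) ?_ ?_
    · exact ⟨by rw [h1.b0, h2.b0], by rw [h1.b1, h2.b1]⟩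
    · rintro t0 ⟨⟨e1, e2⟩, ht0, _⟩
      -- an interval to the right of `t0` where `B1` is invertible
      obtain ⟨t2, ht2, hI⟩ : ∃ t2, t0 < t2 ∧ ∀ s ∈ Ioo t0 t2, ∀ v, B1 s v = 0 → v = 0 := by
        have := h1.isolated t0
        rw [eventually_nhdsWithin_iff] at this
        obtain ⟨ε, hε, hb⟩ := Metric.eventually_nhds_iff.1 this
        refine ⟨t0 + ε, by linarith, fun s hs => hb ?_ hs.1⟩
        rw [Real.dist_eq, abs_lt]
        constructor <;> linarith [hs.1, hs.2]
      have hG' : ∀ s ∈ Ioo t0 t2, ∀ u v, ⟪B2 s u, B2 s v⟫_ℝ = ⟪B1 s u, B1 s v⟫_ℝ := by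
        intro s hs u v
        have hn := hG s (lt_of_le_of_lt ht0 hs.1) (hI s hs)
        have q := hn (u + v)
        rw [map_add, map_add] at q
        have a1 := norm_add_sq_real (B1 s u) (B1 s v)
        have a2 := norm_add_sq_real (B2 s u) (B2 s v)
        rw [q] at a1
        rw [hn u, hn v] at a1
        linarith
      have hW : ∀ s ∈ Ioo t0 t2, ∀ u v, ⟪B2 s u, B2' s v⟫_ℝ = ⟪B1 s u, B1' s v⟫_ℝ := by
        intro s hs u v
        have d1 := (h1.dv u s).inner ℝ (h1.dv v s)
        have d2 := (h2.dv u s).inner ℝ (h2.dv v s)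
        have hev : (fun r => ⟪B1 r u, B1 r v⟫_ℝ) =ᶠ[𝓝 s] (fun r => ⟪B2 r u, B2 r v⟫_ℝ) := by
          filter_upwards [isOpen_Ioo.mem_nhds hs] with r hr
          exact (hG' r hr u v).symm
        have d3 := d1.unique (d2.congr_of_eventuallyEq hev)
        rw [← h1.wronskian s u v, ← h2.wronskian s u v] at d3
        linarith
      -- `Q s = B2 s * (B1 s)⁻¹`
      set Q : ℝ → E →L[ℝ] E := fun s => B2 s * Ring.inverse (B1 s) with hQ
      have hU : ∀ s ∈ Ioo t0 t2, IsUnit (B1 s) := fun s hs => unit_of_inj _ (hI s hs)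
      have hQ1 : ∀ s ∈ Ioo t0 t2, Q s * B1 s = B2 s := by
        intro s hs
        simp only [hQ]
        rw [mul_assoc, Ring.inverse_mul_cancel _ (hU s hs), mul_one]
      have hQ2 : ∀ s ∈ Ioo t0 t2, Q s * B1' s = B2' s := by
        intro s hs
        -- test against `B2 s u`
        have hunit2 : ∀ w, ∃ u, B2 s u = w := by
          have hI2 : ∀ v, B2 s v = 0 → v = 0 := by
            intro v hv
            have := hG s (lt_of_le_of_lt ht0 hs.1) (hI s hs) v
            rw [hv, norm_zero, norm_eq_zero] at this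
            exact hI s hs v this
          obtain ⟨u, hu⟩ := unit_of_inj _ hI2
          intro w
          refine ⟨(↑u⁻¹ : E →L[ℝ] E) w, ?_⟩
          rw [← hu]
          have : (u : E →L[ℝ] E) * (↑u⁻¹ : E →L[ℝ] E) = 1 := by simp
          exact DFunLike.congr_fun this w
        have hsurj1 : ∀ w, ∃ u, B1 s u = w := by
          obtain ⟨u, hu⟩ := hU s hs
          intro w
          refine ⟨(↑u⁻¹ : E →L[ℝ] E) w, ?_⟩
          rw [← hu]
          have : (u : E →L[ℝ] E) * (↑u⁻¹ : E →L[ℝ] E) = 1 := by simp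
          exact DFunLike.congr_fun this w
        have hQB : ∀ u, Q s (B1 s u) = B2 s u := fun u => DFunLike.congr_fun (hQ1 s hs) u
        ext v
        show Q s (B1' s v) = B2' s v
        obtain ⟨z, hz⟩ := hsurj1 (B1' s v)
        have hort : ∀ w, ⟪w, Q s (B1' s v) - B2' s v⟫_ℝ = 0 := by
          intro w
          obtain ⟨u, rfl⟩ := hunit2 w
          rw [inner_sub_right, hW s hs u v, ← hz, hQB z, hG' s hs u z, sub_self]
        have := hort (Q s (B1' s v) - B2' s v)
        exact sub_eq_zero.1 (inner_self_eq_zero.1 this)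
      have hQd : ∀ s ∈ Ioo t0 t2, HasDerivAt Q 0 s := by
        intro s hs
        obtain ⟨u, hu⟩ := hU s hs
        have hi : HasFDerivAt Ring.inverse (-ContinuousLinearMap.mulLeftRight ℝ (E →L[ℝ] E) (↑u⁻¹) (↑u⁻¹)) (B1 s) := by
          rw [← hu]
          exact hasFDerivAt_ringInverse u
        have hi2 := hi.comp_hasDerivAt s (h1.d1 s)
        have hm := (h2.d1 s).mul hi2
        have e3 : Ring.inverse (B1 s) = (↑u⁻¹ : E →L[ℝ] E) := by rw [← hu]; exact Ring.inverse_unit u
        have e4 : B2' s = B2 s * (↑u⁻¹ : E →L[ℝ] E) * B1' s := by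
          rw [← hQ2 s hs]
          simp only [hQ, e3]
        have e5 : B2' s * (Ring.inverse ∘ B1) s
            + B2 s * (-((ContinuousLinearMap.mulLeftRight ℝ (E →L[ℝ] E)) ↑u⁻¹) ↑u⁻¹) (B1' s) = 0 := by
          have e6 : (-((ContinuousLinearMap.mulLeftRight ℝ (E →L[ℝ] E)) ↑u⁻¹) ↑u⁻¹) (B1' s)
              = -((↑u⁻¹ : E →L[ℝ] E) * B1' s * (↑u⁻¹ : E →L[ℝ] E)) := rfl
          rw [e6, Function.comp_apply, e3]
          nth_rewrite 1 [e4]
          rw [mul_neg, mul_assoc, mul_assoc, mul_assoc, add_neg_cancel]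
        rw [e5] at hm
        exact hm
      have hconst : ∀ s ∈ Ioo t0 t2, ∀ r ∈ Ioo t0 t2, Q s = Q r := by
        intro s hs r hr
        exact IsOpen.is_const_of_deriv_eq_zero isOpen_Ioo isPreconnected_Ioo
          (fun x hx => (hQd x hx).differentiableAt.differentiableWithinAt)
          (fun x hx => (hQd x hx).deriv) hs hr
      set r : ℝ := (t0 + t2) / 2 with hr
      have hrI : r ∈ Ioo t0 t2 := ⟨by rw [hr]; linarith, by rw [hr]; linarith⟩
      have hne : (𝓝[>] t0).NeBot := inferInstance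
      have hmem : Ioo t0 t2 ∈ 𝓝[>] t0 := Ioo_mem_nhdsGT ht2
      have lim1 : Q r * B1 t0 = B2 t0 := by
        have a1 : Tendsto (fun s => Q r * B1 s) (𝓝[>] t0) (𝓝 (Q r * B1 t0)) :=
          ((continuous_const.mul c1).tendsto t0).mono_left nhdsWithin_le_nhds
        have a2 : Tendsto (fun s => Q r * B1 s) (𝓝[>] t0) (𝓝 (B2 t0)) := by
          refine ((c2.tendsto t0).mono_left nhdsWithin_le_nhds).congr' ?_
          filter_upwards [hmem] with s hs
          rw [hconst r hrI s hs, hQ1 s hs]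
        exact tendsto_nhds_unique a1 a2
      have lim2 : Q r * B1' t0 = B2' t0 := by
        have a1 : Tendsto (fun s => Q r * B1' s) (𝓝[>] t0) (𝓝 (Q r * B1' t0)) :=
          ((continuous_const.mul c1').tendsto t0).mono_left nhdsWithin_le_nhds
        have a2 : Tendsto (fun s => Q r * B1' s) (𝓝[>] t0) (𝓝 (B2' t0)) := by
          refine ((c2'.tendsto t0).mono_left nhdsWithin_le_nhds).congr' ?_
          filter_upwards [hmem] with s hs
          rw [hconst r hrI s hs, hQ2 s hs]
        exact tendsto_nhds_unique a1 a2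
      -- hence `Q r = 1`
      have hQone : Q r = 1 := by
        rw [← e1] at lim1
        rw [← e2] at lim2
        have hz : ∀ w, ContinuousLinearMap.adjoint (Q r - 1) w = 0 := by
          intro w
          refine h1.range_sup t0 _ ?_ ?_
          · intro u
            rw [ContinuousLinearMap.adjoint_inner_left]
            have : Q r (B1 t0 u) = B1 t0 u := DFunLike.congr_fun lim1 u
            show ⟪w, Q r (B1 t0 u) - B1 t0 u⟫_ℝ = 0
            rw [this, sub_self, inner_zero_right]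
          · intro u
            rw [ContinuousLinearMap.adjoint_inner_left]
            have : Q r (B1' t0 u) = B1' t0 u := DFunLike.congr_fun lim2 u
            show ⟪w, Q r (B1' t0 u) - B1' t0 u⟫_ℝ = 0
            rw [this, sub_self, inner_zero_right]
        have hz2 : ContinuousLinearMap.adjoint (Q r - 1) = 0 := by
          ext w; exact hz w
        have hz3 : Q r - 1 = 0 := by
          have := congrArg ContinuousLinearMap.adjoint hz2
          simpa using this
        exact sub_eq_zero.1 hz3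
      filter_upwards [hmem] with s hs
      refine ⟨?_, ?_⟩
      · have := hQ1 s hs
        rw [hconst s hs r hrI, hQone, one_mul] at this
        exact this
      · have := hQ2 s hs
        rw [hconst s hs r hrI, hQone, one_mul] at this
        exact this
  exact key ⟨ht, le_rfl⟩

/-- the times where `B` is invertible are dense in `[0,∞)` -/
theorem Jac.dense_unit {K B B' : ℝ → E →L[ℝ] E} (h : Jac K B B') (t : ℝ) (ht : 0 ≤ t) :
    t ∈ closure {s | 0 < s ∧ IsUnit (B s)} := by
  rw [mem_closure_iff_frequently]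
  have h1 : ∃ᶠ s in 𝓝[>] t, 0 < s ∧ IsUnit (B s) := by
    refine Eventually.frequently ?_
    filter_upwards [h.isolated t, self_mem_nhdsWithin] with s hs hs2
    exact ⟨lt_of_le_of_lt ht hs2, unit_of_inj _ hs⟩
  exact h1.filter_mono nhdsWithin_le_nhds

/-- the curvature operators agree as well -/
theorem ray_rigid_K (h1 : Jac K1 B1 B1') (h2 : Jac K2 B2 B2')
    (hG : ∀ t, 0 < t → (∀ v, B1 t v = 0 → v = 0) → ∀ v, ‖B1 t v‖ = ‖B2 t v‖) :
    ∀ t, 0 ≤ t → K1 t = K2 t := by
  have hr := ray_rigid h1 h2 hG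
  have c1 : Continuous B1 := continuous_iff_continuousAt.2 fun t => (h1.d1 t).continuousAt
  have key : ∀ s, 0 < s → K1 s * B1 s = K2 s * B1 s := by
    intro s hs
    have hev : B1' =ᶠ[𝓝 s] B2' := by
      filter_upwards [lt_mem_nhds hs] with r hr'
      exact (hr r hr'.le).2
    have := (h1.d2 s).unique ((h2.d2 s).congr_of_eventuallyEq hev)
    rw [neg_inj, ← (hr s hs.le).1] at this
    exact this
  intro t ht
  have hcl : IsClosed {s | K1 s = K2 s} := isClosed_eq h1.contK h2.contK
  have hsub : {s | 0 < s ∧ IsUnit (B1 s)} ⊆ {s | K1 s = K2 s} := by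
    rintro s ⟨hs, u, hu⟩
    have := key s hs
    rw [← hu] at this
    exact u.mul_left_inj.1 this
  exact closure_minimal hsub hcl (h1.dense_unit t ht)

end Two

end Amb
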