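import Mathlib
import Pool.Agent.Amb.JacobiRigid
import Pool.Agent.Amb.Gronwall

/-!
# Matrix Jacobi equations and the comparison of structure equations
-/

set_option maxSynthPendingDepth 3

namespace Amb

open Set
open scoped Topology

variable {E : Type*} [NormedAddCommGroup E] [InnerProductSpace ℝ E] [FiniteDimensional ℝ E]

omit [FiniteDimensional ℝ E] in
/-- time reversal of a Jacobi operator field -/
lemma Jac.reverse {K B B' : ℝ → E →L[ℝ] E} (h : Jac K B B') :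
    Jac (fun t => K (-t)) (fun t => -B (-t)) (fun t => B' (-t)) where
  contK := h.contK.comp continuous_neg
  symm := fun t u v => h.symm (-t) u v
  d1 := fun t => by
    have h1 : HasDerivAt (fun s : ℝ => -s) (-1) t := hasDerivAt_neg t
    have h2 := ((h.d1 (-t)).scomp t h1).neg
    have e : -((-1 : ℝ) • B' (-t)) = B' (-t) := by simp
    rw [e] at h2
    exact h2
  d2 := fun t => by
    have h1 : HasDerivAt (fun s : ℝ => -s) (-1) t := hasDerivAt_neg t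
    have h2 := (h.d2 (-t)).scomp t h1
    have e : (-1 : ℝ) • (-(K (-t) * B (-t))) = -(K (-t) * -B (-t)) := by simp
    rw [e] at h2
    exact h2
  b0 := by simp [h.b0]
  b1 := by simp [h.b1]

/-- Two matrix Jacobi fields which have the same lengths at the regular times coincide;
the regular times are dense. -/
theorem jacobi_eq {K₁ K₂ B₁ B₁' B₂ B₂' : ℝ → E →L[ℝ] E}
    (hK₁ : Continuous K₁) (hK₂ : Continuous K₂)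
    (sym₁ : ∀ t u v, inner ℝ (K₁ t u) v = inner ℝ u (K₁ t v))
    (sym₂ : ∀ t u v, inner ℝ (K₂ t u) v = inner ℝ u (K₂ t v))
    (h₁ : ∀ t, HasDerivAt B₁ (B₁' t) t) (h₁' : ∀ t, HasDerivAt B₁' (-(K₁ t ∘L B₁ t)) t)
    (h₂ : ∀ t, HasDerivAt B₂ (B₂' t) t) (h₂' : ∀ t, HasDerivAt B₂' (-(K₂ t ∘L B₂ t)) t)
    (z₁ : B₁ 0 = 0) (z₁' : B₁' 0 = ContinuousLinearMap.id ℝ E)
    (z₂ : B₂ 0 = 0) (z₂' : B₂' 0 = ContinuousLinearMap.id ℝ E)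
    (h : ∀ t, Function.Injective (B₁ t) → ∀ v, ‖B₁ t v‖ = ‖B₂ t v‖) :
    (∀ t, B₁ t = B₂ t) ∧ Dense {t : ℝ | Function.Injective (B₁ t)} := by
  have J1 : Jac K₁ B₁ B₁' := ⟨hK₁, sym₁, h₁, h₁', z₁, z₁'⟩
  have J2 : Jac K₂ B₂ B₂' := ⟨hK₂, sym₂, h₂, h₂', z₂, z₂'⟩
  have hinj : ∀ T : E →L[ℝ] E, (∀ v, T v = 0 → v = 0) → Function.Injective T :=
    fun T hT => (injective_iff_map_eq_zero T).2 hT
  have hunit : ∀ T : E →L[ℝ] E, IsUnit T → Function.Injective T := by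
    rintro T ⟨u, rfl⟩
    refine hinj _ fun v hv => ?_
    have h1 : (↑u⁻¹ : E →L[ℝ] E) * (u : E →L[ℝ] E) = 1 := by simp
    have h2 : (↑u⁻¹ : E →L[ℝ] E) ((u : E →L[ℝ] E) v) = v := DFunLike.congr_fun h1 v
    rw [← h2, hv, map_zero]
  have P1 := ray_rigid J1 J2 (fun t _ ht v => h t (hinj _ ht) v)
  have P2 := ray_rigid J1.reverse J2.reverse (fun t _ ht v => by
    simp only [neg_apply, norm_neg]
    refine h (-t) (hinj _ fun w hw => ht w ?_) v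
    simp [hw])
  refine ⟨fun t => ?_, fun t => ?_⟩
  · rcases le_total 0 t with ht | ht
    · exact (P1 t ht).1
    · have := (P2 (-t) (by linarith)).1
      simp only [neg_neg, neg_inj] at this
      exact this
  · rcases le_total 0 t with ht | ht
    · refine closure_mono ?_ (J1.dense_unit t ht)
      rintro s ⟨_, hs⟩
      exact hunit _ hs
    · have h1 := J1.reverse.dense_unit (-t) (by linarith)
      have h2 : -(-t) ∈ closure {s | Function.Injective (B₁ s)} := by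
        refine map_mem_closure continuous_neg h1 ?_
        rintro s ⟨_, hs⟩
        have h3 : IsUnit (B₁ (-s)) := by simpa using hs
        exact hunit _ h3
      simpa using h2

omit [FiniteDimensional ℝ E] in
/-- Comparison of two solutions of the structure equations `b' = c + β ζ`, `β' = R (ζ, b)`. -/
theorem struct_compare (K : ℝ) : ∃ C : ℝ, 0 ≤ C ∧
    ∀ (ζ c : E) (R₁ R₂ : ℝ → E →L[ℝ] E →L[ℝ] E →L[ℝ] E) (b₁ b₂ : ℝ → E)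
      (β₁ β₂ : ℝ → E →L[ℝ] E) (δ : ℝ), ‖ζ‖ ≤ 1 →
      (∀ t ∈ Icc (0 : ℝ) 1, ‖R₁ t‖ ≤ K) → (∀ t ∈ Icc (0 : ℝ) 1, ‖R₂ t‖ ≤ K) →
      (∀ t ∈ Icc (0 : ℝ) 1, ‖R₁ t - R₂ t‖ ≤ δ) →
      (∀ t ∈ Icc (0 : ℝ) 1, HasDerivAt b₁ (c + β₁ t ζ) t) →
      (∀ t ∈ Icc (0 : ℝ) 1, HasDerivAt β₁ (R₁ t ζ (b₁ t)) t) →
      (∀ t ∈ Icc (0 : ℝ) 1, HasDerivAt b₂ (c + β₂ t ζ) t) →
      (∀ t ∈ Icc (0 : ℝ) 1, HasDerivAt β₂ (R₂ t ζ (b₂ t)) t) →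
      b₁ 0 = 0 → β₁ 0 = 0 → b₂ 0 = 0 → β₂ 0 = 0 →
      ∀ t ∈ Icc (0 : ℝ) 1, ‖b₁ t‖ ≤ C * ‖c‖ ∧ ‖b₁ t - b₂ t‖ ≤ C * (‖ζ‖ * ‖c‖ * δ) ∧
        ‖β₁ t - β₂ t‖ ≤ C * (‖ζ‖ * ‖c‖ * δ) := by
  refine ⟨Real.exp (2 * (1 + |K|)), (Real.exp_pos _).le, ?_⟩
  intro ζ c R₁ R₂ b₁ b₂ β₁ β₂ δ hζ hR1 hR2 hD d1 d1' d2 d2' z1 z1' z2 z2' t ht
  have V1 : Vel R₁ ζ c b₁ β₁ := ⟨fun t ht => (d1 t ht).hasDerivWithinAt, fun t ht => (d1' t ht).hasDerivWithinAt, z1, z1'⟩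
  have V2 : Vel R₂ ζ c b₂ β₂ := ⟨fun t ht => (d2 t ht).hasDerivWithinAt, fun t ht => (d2' t ht).hasDerivWithinAt, z2, z2'⟩
  have hδ : 0 ≤ δ := (norm_nonneg _).trans (hD t ht)
  have hK0 : 0 ≤ |K| := abs_nonneg K
  have bd : ∀ (T : E →L[ℝ] E →L[ℝ] E →L[ℝ] E) (k : ℝ), ‖T‖ ≤ k → ∀ u v, ‖T u v‖ ≤ k * ‖u‖ * ‖v‖ := by
    intro T k hT u v
    have h1 : ‖T u‖ ≤ k * ‖u‖ := T.le_of_opNorm_le hT u
    exact (T u).le_of_opNorm_le h1 v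
  have hR1' : ∀ t ∈ Icc (0 : ℝ) 1, ∀ u v, ‖R₁ t u v‖ ≤ |K| * ‖u‖ * ‖v‖ :=
    fun t ht => bd _ _ ((hR1 t ht).trans (le_abs_self K))
  have hR2' : ∀ t ∈ Icc (0 : ℝ) 1, ∀ u v, ‖R₂ t u v‖ ≤ |K| * ‖u‖ * ‖v‖ :=
    fun t ht => bd _ _ ((hR2 t ht).trans (le_abs_self K))
  have hD' : ∀ t ∈ Icc (0 : ℝ) 1, ∀ u v, ‖R₁ t u v - R₂ t u v‖ ≤ δ * ‖u‖ * ‖v‖ := by
    intro t ht u v
    have := bd _ _ (hD t ht) u v
    simpa using this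
  have e1 := (V1.bound hK0 hR1' t ht).1
  have e2 := V1.compare V2 hK0 hδ hR1' hR2' hD' t ht
  have hn : (1 + |K|) * ‖ζ‖ ≤ 1 + |K| := by nlinarith
  have m0 : 0 ≤ (1 + |K|) * ‖ζ‖ := by positivity
  have m1 : Real.exp (2 * ((1 + |K|) * ‖ζ‖)) ≤ Real.exp (2 * (1 + |K|)) := Real.exp_le_exp.2 (by linarith)
  have m2 : Real.exp ((1 + |K|) * ‖ζ‖ * t) ≤ Real.exp (2 * (1 + |K|)) :=
    Real.exp_le_exp.2 (by nlinarith [ht.1, ht.2])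
  have c0 : 0 ≤ ‖c‖ := norm_nonneg _
  have z0 : 0 ≤ ‖ζ‖ := norm_nonneg _
  refine ⟨?_, ?_, ?_⟩
  · calc ‖b₁ t‖ ≤ ‖c‖ * t * Real.exp ((1 + |K|) * ‖ζ‖ * t) := e1
      _ ≤ ‖c‖ * t * Real.exp (2 * (1 + |K|)) := mul_le_mul_of_nonneg_left m2 (mul_nonneg c0 ht.1)
      _ ≤ ‖c‖ * 1 * Real.exp (2 * (1 + |K|)) :=
          mul_le_mul_of_nonneg_right (mul_le_mul_of_nonneg_left ht.2 c0) (Real.exp_pos _).le
      _ = Real.exp (2 * (1 + |K|)) * ‖c‖ := by ring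
  · calc ‖b₁ t - b₂ t‖ ≤ δ * ‖ζ‖ * ‖c‖ * Real.exp (2 * ((1 + |K|) * ‖ζ‖)) := e2.1
      _ ≤ δ * ‖ζ‖ * ‖c‖ * Real.exp (2 * (1 + |K|)) := mul_le_mul_of_nonneg_left m1 (by positivity)
      _ = Real.exp (2 * (1 + |K|)) * (‖ζ‖ * ‖c‖ * δ) := by ring
  · calc ‖β₁ t - β₂ t‖ ≤ δ * ‖ζ‖ * ‖c‖ * Real.exp (2 * ((1 + |K|) * ‖ζ‖)) := e2.2
      _ ≤ δ * ‖ζ‖ * ‖c‖ * Real.exp (2 * (1 + |K|)) := mul_le_mul_of_nonneg_left m1 (by positivity)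
      _ = Real.exp (2 * (1 + |K|)) * (‖ζ‖ * ‖c‖ * δ) := by ring

end Amb
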