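import Pool.Agent.Amb.M7
import Pool.Agent.Amb.Jac
import Pool.Agent.Amb.L2

/-!
# M8: rays
-/

set_option maxSynthPendingDepth 3

namespace Amb

open Set Metric
open scoped ContDiff Topology

variable {E : Type*} [NormedAddCommGroup E] [InnerProductSpace ℝ E] [FiniteDimensional ℝ E]
variable {M : Type*} [MetricSpace M] (G : GMfd E M)
variable {X : Type*} [NormedAddCommGroup X] [NormedSpace ℝ X]

theorem inverse_apply_self_bij {Y : E →L[ℝ] E} (hY : Function.Bijective Y) (v : E) :
    ContinuousLinearMap.inverse Y (Y v) = v := by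
  let e : E ≃L[ℝ] E := (LinearEquiv.ofBijective Y.toLinearMap hY).toContinuousLinearEquiv
  have he : (e : E →L[ℝ] E) = Y := by
    ext w; rfl
  rw [← he, ContinuousLinearMap.inverse_equiv]
  simp

/-- The pull back of the inner product by a field of endomorphisms. -/
noncomputable def pbm (Θ : E → E →L[ℝ] E) (y : E) : E →L[ℝ] E →L[ℝ] ℝ :=
  ((ContinuousLinearMap.compL ℝ E E ℝ).flip (Θ y)) ∘L ((innerSL ℝ) ∘L (Θ y))

theorem pbm_apply (Θ : E → E →L[ℝ] E) (y u v : E) :
    pbm Θ y u v = inner ℝ (Θ y u) (Θ y v) := by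
  simp only [pbm, ContinuousLinearMap.comp_apply, ContinuousLinearMap.flip_apply,
    ContinuousLinearMap.compL_apply]
  rfl

namespace GMfd

section Complete

variable [CompleteSpace M]

omit [CompleteSpace M] in
/-- The curvature of the pull back metric under the development. -/
theorem Rf_dev (f : G.Fr) {Θ : E → E →L[ℝ] E} {K : E → E →L[ℝ] E →L[ℝ] E}
    (hv : ∀ x, G.HasFVel (fun y => G.Psi y f) (Θ x) (K x) x)
    (hsm : ∀ x, G.SmAt (fun y => G.Psi y f) x)
    (hΘ : ContDiff ℝ ∞ Θ) {y₀ : E} (hy : Function.Injective (Θ y₀)) (u v w : E) :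
    G.Rf (G.Psi y₀ f) (Θ y₀ u) (Θ y₀ v) (Θ y₀ w) = Θ y₀ (Rm (pbm Θ) y₀ u v w) := by
  set q : M := (G.Psi y₀ f).m with hq
  have hcont : Continuous fun y => (G.Psi y f).m :=
    continuous_iff_continuousAt.2 fun y => (hsm y).1
  -- the set of regular points in the chart
  have hopen2 : IsOpen {y : E | Function.Injective (Θ y)} := by
    have h1 : {y : E | Function.Injective (Θ y)} =
        Θ ⁻¹' {A : E →L[ℝ] E | Function.Injective A} := rfl
    rw [h1]
    exact (ContinuousLinearMap.isOpen_injective).preimage hΘ.continuous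
  set W : Set E := (fun y => (G.Psi y f).m) ⁻¹' (G.src q) ∩ {y : E | Function.Injective (Θ y)}
    with hW
  have hWo : IsOpen W := ((G.src_open q).preimage hcont).inter hopen2
  have hyW : y₀ ∈ W := ⟨G.mem_src q, hy⟩
  set χ : E → E := fun y => (G.cd q (G.Psi y f)).1 with hχ
  have hder : ∀ y ∈ W, fderiv ℝ χ y = (G.cd q (G.Psi y f)).2 ∘L Θ y := by
    intro y hyW
    have h1 := (hv y).2 q hyW.1
    have h2 : HasFDerivAt χ ((ContinuousLinearMap.fst ℝ E (E →L[ℝ] E)) ∘L
        (vel (G.g q) (G.cd q (G.Psi y f)) ∘L ((Θ y).prod (K y)))) y :=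
      (ContinuousLinearMap.fst ℝ E (E →L[ℝ] E)).hasFDerivAt.comp y h1
    rw [h2.fderiv]
    ext z
    simp [vel]
  have hmet : IsMet W (pbm Θ) := by
    refine ⟨hWo, ?_, ?_, ?_⟩
    · apply ContDiff.contDiffOn
      unfold pbm
      refine ContDiff.clm_comp ?_ ?_
      · exact ((ContinuousLinearMap.compL ℝ E E ℝ).flip).contDiff.comp hΘ
      · exact contDiff_const.clm_comp hΘ
    · intro x _ u v
      rw [pbm_apply, pbm_apply, real_inner_comm]
    · intro x hx u hu
      rw [pbm_apply]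
      have : Θ x u ≠ 0 := fun h => hu (hx.2 (by simpa using h))
      exact real_inner_self_pos.2 this
  have hiso : IsIso W (G.tgt q) (pbm Θ) (G.g q) χ := by
    refine ⟨hWo, ?_, ?_, ?_⟩
    · intro y hyW
      exact (((hsm y).2 q hyW.1).fst).contDiffWithinAt
    · intro y hyW
      exact G.map_src _ _ hyW.1
    · intro y hyW u v
      rw [hder y hyW, pbm_apply]
      exact cd_isom (f := G.Psi y f) hyW.1 _ _
  have hnat := Rm_natural hmet (G.met q) hiso hyW u v w
  rw [hder y₀ hyW] at hnat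
  have hbij : Function.Bijective (G.cd q (G.Psi y₀ f)).2 := cd_bij hyW.1
  rw [Rf_chart (q := q) (f := G.Psi y₀ f) hyW.1, pull_apply]
  have e : Rm (G.g q) (G.cd q (G.Psi y₀ f)).1 ((G.cd q (G.Psi y₀ f)).2 (Θ y₀ u))
      ((G.cd q (G.Psi y₀ f)).2 (Θ y₀ v)) ((G.cd q (G.Psi y₀ f)).2 (Θ y₀ w)) =
      (G.cd q (G.Psi y₀ f)).2 (Θ y₀ (Rm (pbm Θ) y₀ u v w)) := hnat.symm
  rw [e, inverse_apply_self_bij hbij]

omit [CompleteSpace M] in
/-- The matrix Jacobi field of the development along a ray. -/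
theorem ray_jacobi (f : G.Fr) {Θ : E → E →L[ℝ] E} {K : E → E →L[ℝ] E →L[ℝ] E}
    (hΘ : ContDiff ℝ ∞ Θ) (hK : ContDiff ℝ ∞ K)
    (hst : ∀ x ξ t, HasDerivAt (fun t : ℝ => Θ (t • x) (t • ξ)) (ξ + K (t • x) (t • ξ) x) t ∧
      HasDerivAt (fun t : ℝ => K (t • x) (t • ξ)) (G.Rf (G.Psi (t • x) f) x (Θ (t • x) (t • ξ))) t)
    (x : E) (t : ℝ) :
    HasDerivAt (fun t : ℝ => t • Θ (t • x))
      (ContinuousLinearMap.id ℝ E + t • (K (t • x)).flip x) t ∧
    HasDerivAt (fun t : ℝ => ContinuousLinearMap.id ℝ E + t • (K (t • x)).flip x)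
      (-((-((G.Rf (G.Psi (t • x) f) x).flip x)) ∘L (t • Θ (t • x)))) t := by
  have hc : ContDiff ℝ ∞ (fun t : ℝ => t • x) := by fun_prop
  have d1 : DifferentiableAt ℝ (fun t : ℝ => t • Θ (t • x)) t := by
    have h : ContDiff ℝ ∞ (fun t : ℝ => t • Θ (t • x)) := contDiff_id.smul (hΘ.comp hc)
    exact (h.differentiable (by simp)).differentiableAt
  have d2 : DifferentiableAt ℝ
      (fun t : ℝ => ContinuousLinearMap.id ℝ E + t • (K (t • x)).flip x) t := by
    have h0 : ContDiff ℝ ∞ (fun t : ℝ => (K (t • x)).flip) :=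
      (ContinuousLinearMap.flipₗᵢ ℝ E E E).contDiff.comp (hK.comp hc)
    have h : ContDiff ℝ ∞
        (fun t : ℝ => ContinuousLinearMap.id ℝ E + t • (K (t • x)).flip x) :=
      contDiff_const.add (contDiff_id.smul (h0.clm_apply contDiff_const))
    exact (h.differentiable (by simp)).differentiableAt
  constructor
  · have h := d1.hasDerivAt
    have e : deriv (fun t : ℝ => t • Θ (t • x)) t =
        ContinuousLinearMap.id ℝ E + t • (K (t • x)).flip x := by
      ext ξ
      have e1 : HasDerivAt (fun t : ℝ => (t • Θ (t • x)) ξ)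
          (deriv (fun t : ℝ => t • Θ (t • x)) t ξ) t := by
        simpa using h.clm_apply (hasDerivAt_const t ξ)
      have e2 := (hst x ξ t).1
      have e3 : (fun t : ℝ => (t • Θ (t • x)) ξ) = fun t : ℝ => Θ (t • x) (t • ξ) := by
        funext s; simp
      rw [e3] at e1
      rw [e1.unique e2]
      simp
    rw [e] at h
    exact h
  · have h := d2.hasDerivAt
    have e : deriv (fun t : ℝ => ContinuousLinearMap.id ℝ E + t • (K (t • x)).flip x) t =
        (-((-((G.Rf (G.Psi (t • x) f) x).flip x)) ∘L (t • Θ (t • x)))) := by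
      ext ξ
      have e1 : HasDerivAt
          (fun t : ℝ => (ContinuousLinearMap.id ℝ E + t • (K (t • x)).flip x) ξ)
          (deriv (fun t : ℝ => ContinuousLinearMap.id ℝ E + t • (K (t • x)).flip x) t ξ) t := by
        simpa using h.clm_apply (hasDerivAt_const t ξ)
      have e2 : HasDerivAt (fun t : ℝ => ξ + K (t • x) (t • ξ) x)
          (G.Rf (G.Psi (t • x) f) x (Θ (t • x) (t • ξ)) x) t := by
        have := ((hst x ξ t).2.clm_apply (hasDerivAt_const t x)).const_add ξ
        simpa using this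
      have e3 : (fun t : ℝ => (ContinuousLinearMap.id ℝ E + t • (K (t • x)).flip x) ξ) =
          fun t : ℝ => ξ + K (t • x) (t • ξ) x := by
        funext s; simp
      rw [e3] at e1
      rw [e1.unique e2]
      simp
    rw [e] at h
    exact h

/-- If the developments of two manifolds have the same first fundamental form wherever the first
one is regular, then the curvatures agree along all rays. -/
theorem rays {M₂ : Type*} [MetricSpace M₂] [CompleteSpace M₂] (G₂ : GMfd E M₂) (f : G.Fr)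
    (f₂ : G₂.Fr)
    (H : ∀ x Θ K Θ₂ K₂, G.HasFVel (fun y => G.Psi y f) Θ K x →
      G₂.HasFVel (fun y => G₂.Psi y f₂) Θ₂ K₂ x → Function.Injective Θ → ∀ ξ, ‖Θ ξ‖ = ‖Θ₂ ξ‖) :
    ∀ x, G.Rf (G.Psi x f) = G₂.Rf (G₂.Psi x f₂) := by
  obtain ⟨Θ, K, hv, hΘ0, hK0, hst⟩ := G.dev_struct f
  obtain ⟨Θ₂, K₂, hv₂, hΘ0₂, hK0₂, hst₂⟩ := G₂.dev_struct f₂
  have hsm : ∀ x, G.SmAt (fun y => G.Psi y f) x := fun x =>
    Psi_smooth (G.smAt_const f x) contDiffAt_id
  have hsm₂ : ∀ x, G₂.SmAt (fun y => G₂.Psi y f₂) x := fun x =>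
    Psi_smooth (G₂.smAt_const f₂ x) contDiffAt_id
  have hΘ : ContDiff ℝ ∞ Θ := contDiff_iff_contDiffAt.2 fun x =>
    ((hsm x).vel_smooth (Filter.Eventually.of_forall hv)).1
  have hK : ContDiff ℝ ∞ K := contDiff_iff_contDiffAt.2 fun x =>
    ((hsm x).vel_smooth (Filter.Eventually.of_forall hv)).2
  have hΘ₂ : ContDiff ℝ ∞ Θ₂ := contDiff_iff_contDiffAt.2 fun x =>
    ((hsm₂ x).vel_smooth (Filter.Eventually.of_forall hv₂)).1
  have hK₂ : ContDiff ℝ ∞ K₂ := contDiff_iff_contDiffAt.2 fun x =>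
    ((hsm₂ x).vel_smooth (Filter.Eventually.of_forall hv₂)).2
  have hcR : ∀ x : E, Continuous fun t : ℝ => G.Rf (G.Psi (t • x) f) := fun x =>
    continuous_iff_continuousAt.2 fun t => Rf_cont
      (Psi_smooth (G.smAt_const f t) (by fun_prop))
  have hcR₂ : ∀ x : E, Continuous fun t : ℝ => G₂.Rf (G₂.Psi (t • x) f₂) := fun x =>
    continuous_iff_continuousAt.2 fun t => Rf_cont
      (Psi_smooth (G₂.smAt_const f₂ t) (by fun_prop))
  have key : ∀ x : E, (∀ t : ℝ, t • Θ (t • x) = t • Θ₂ (t • x)) ∧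
      Dense {t : ℝ | Function.Injective ⇑(t • Θ (t • x))} := by
    intro x
    have h1 := G.ray_jacobi f hΘ hK hst x
    have h2 := G₂.ray_jacobi f₂ hΘ₂ hK₂ hst₂ x
    refine jacobi_eq (K₁ := fun t => -((G.Rf (G.Psi (t • x) f) x).flip x))
      (K₂ := fun t => -((G₂.Rf (G₂.Psi (t • x) f₂) x).flip x))
      (B₁ := fun t => t • Θ (t • x)) (B₂ := fun t => t • Θ₂ (t • x))
      (B₁' := fun t => ContinuousLinearMap.id ℝ E + t • (K (t • x)).flip x)
      (B₂' := fun t => ContinuousLinearMap.id ℝ E + t • (K₂ (t • x)).flip x)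
      ?_ ?_ ?_ ?_ (fun t => (h1 t).1) (fun t => (h1 t).2) (fun t => (h2 t).1)
      (fun t => (h2 t).2) ?_ ?_ ?_ ?_ ?_
    · have h0 : Continuous fun t : ℝ => G.Rf (G.Psi (t • x) f) x :=
        (hcR x).clm_apply continuous_const
      have h1 : Continuous fun t : ℝ => (G.Rf (G.Psi (t • x) f) x).flip :=
        (ContinuousLinearMap.flipₗᵢ ℝ E E E).continuous.comp h0
      exact (h1.clm_apply continuous_const).neg
    · have h0 : Continuous fun t : ℝ => G₂.Rf (G₂.Psi (t • x) f₂) x :=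
        (hcR₂ x).clm_apply continuous_const
      have h1 : Continuous fun t : ℝ => (G₂.Rf (G₂.Psi (t • x) f₂) x).flip :=
        (ContinuousLinearMap.flipₗᵢ ℝ E E E).continuous.comp h0
      exact (h1.clm_apply continuous_const).neg
    · intro t u v
      simpa using G.Rf_symm (G.Psi (t • x) f) x u v
    · intro t u v
      simpa using G₂.Rf_symm (G₂.Psi (t • x) f₂) x u v
    · simp
    · simp
    · simp
    · simp
    · intro t ht v
      have hinj : Function.Injective (Θ (t • x)) := by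
        intro a b hab
        apply ht
        simp [hab]
      have := H (t • x) _ _ _ _ (hv (t • x)) (hv₂ (t • x)) hinj v
      simp [norm_smul, this]
  have heq : Θ = Θ₂ := by
    funext y
    simpa using (key y).1 1
  intro x
  have hreg : ∀ y : E, Function.Injective (Θ y) → G.Rf (G.Psi y f) = G₂.Rf (G₂.Psi y f₂) := by
    intro y hy
    have hsurj : Function.Surjective (Θ y) :=
      LinearMap.surjective_of_injective (f := (Θ y).toLinearMap) hy
    ext u v w
    obtain ⟨u, rfl⟩ := hsurj u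
    obtain ⟨v, rfl⟩ := hsurj v
    obtain ⟨w, rfl⟩ := hsurj w
    rw [G.Rf_dev f hv hsm hΘ hy]
    subst heq
    rw [G₂.Rf_dev f₂ hv₂ hsm₂ hΘ₂ hy]
  have := Continuous.ext_on (key x).2 (hcR x) (hcR₂ x) (fun t ht => hreg (t • x) (by
    intro a b hab
    apply ht
    simp [hab]))
  simpa using congrFun this 1

end Complete

end GMfd

end Amb
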