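import Pool.Agent.Amb.Roll
import Pool.Agent.Amb.Conf
import Pool.Agent.Amb.M1c
import Pool.Agent.Amb.M2
import Pool.Agent.Amb.M3b
import Pool.Agent.Amb.M4b
import Pool.Agent.Amb.M5
import Pool.Agent.Amb.C1
import Pool.Agent.Amb.T

/-!
# The rolling system of two manifolds whose curvatures agree along rays
-/

set_option maxSynthPendingDepth 3

namespace Amb

open Set Metric
open scoped ContDiff Topology

variable {E : Type*} [NormedAddCommGroup E] [InnerProductSpace ℝ E] [FiniteDimensional ℝ E]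
variable {M₁ M₂ : Type*} [MetricSpace M₁] [MetricSpace M₂]
variable {G₁ : GMfd E M₁} {G₂ : GMfd E M₂}

namespace Conf

variable [CompleteSpace M₁] [CompleteSpace M₂]

/-- uniform version of `tri0` -/
theorem tri0_unif (p₁ : M₁) (S : ℝ) : ∃ ρ > 0, ∀ (A : Conf G₁ G₂) (m w : M₁),
    dist p₁ A.π₁ ≤ S → dist A.π₁ m < ρ → dist A.π₁ w < ρ →
    (∀ s ∈ Icc (0 : ℝ) 1, ∀ u ∈ Icc (0 : ℝ) 1,
      (step A (G₁.seg A.π₁ (G₁.seg m w s) u)).D = 0) →
    step (step A m) w = step A w := by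
  have : ProperSpace M₁ := G₁.proper
  choose ρ hρ hT using fun x₀ : M₁ => tri0 (G₁ := G₁) (G₂ := G₂) x₀
  obtain ⟨δ, hδ, hL⟩ := lebesgue_number_lemma_of_metric (isCompact_closedBall p₁ S)
    (c := fun x₀ : M₁ => ball x₀ (ρ x₀)) (fun _ => isOpen_ball)
    (fun x _ => mem_iUnion.2 ⟨x, mem_ball_self (hρ x)⟩)
  refine ⟨δ, hδ, ?_⟩
  intro A m w hA hm hw hD
  obtain ⟨x₀, hx₀⟩ := hL A.π₁ (by rw [mem_closedBall, dist_comm]; exact hA)
  refine hT x₀ A m w ?_ ?_ ?_ hD
  · rw [dist_comm]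
    exact hx₀ (mem_ball_self hδ)
  · rw [dist_comm]
    exact hx₀ (by rw [mem_ball, dist_comm]; exact hm)
  · rw [dist_comm]
    exact hx₀ (by rw [mem_ball, dist_comm]; exact hw)

/-- discrete geodesics are flow lines -/
theorem ray_aux (f₁ : G₁.Fr) (f₂ : G₂.Fr) {S ρ : ℝ} (hρ : 0 < ρ)
    (hgood : ∀ x, dist f₁.m x ≤ S → G₁.GoodAt x ρ) (k : ℕ) (c : ℕ → M₁) (h0 : c 0 = f₁.m)
    (hk : ∀ i < k, dist (c i) (c (i + 1)) < ρ / 2)
    (hs : ∑ i ∈ Finset.range k, dist (c i) (c (i + 1)) ≤ S)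
    (hm : ∀ i, i + 1 < k → dist (c i) (c (i + 1)) = dist (c i) (c (i + 2)) / 2 ∧
      dist (c (i + 1)) (c (i + 2)) = dist (c i) (c (i + 2)) / 2) :
    ∃ ξ : E, ∀ i ≤ k, c i = (G₁.Psi ((i : ℝ) • ξ) f₁).m ∧
      ((List.range i).map fun i => c (i + 1)).foldl step (mk f₁ f₂) =
        mk (G₁.Psi ((i : ℝ) • ξ) f₁) (G₂.Psi ((i : ℝ) • ξ) f₂) := by
  rcases Nat.eq_zero_or_pos k with hk0 | hk0
  · subst hk0
    refine ⟨0, fun i hi => ?_⟩
    have : i = 0 := by omega
    subst this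
    simp [h0, G₁.Psi_zero, G₂.Psi_zero]
  have hpt : ∀ i ≤ k, dist f₁.m (c i) ≤ S := by
    intro i hi
    rw [← h0]
    refine (dist_le_range_sum_dist c i).trans (le_trans ?_ hs)
    exact Finset.sum_le_sum_of_subset_of_nonneg (Finset.range_mono hi) (fun _ _ _ => dist_nonneg)
  have g0 : G₁.GoodAt f₁.m ρ := hgood _ (by rw [← h0]; exact hpt 0 (Nat.zero_le _) |>.trans' (by rw [h0]))
  obtain ⟨ξ, hξ, he⟩ := g0.surj f₁ rfl (c 1) (by
    have := hk 0 hk0
    rw [zero_add, h0] at this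
    linarith)
  have hn : ‖ξ‖ = dist (c 0) (c 1) := by
    rw [h0, ← he]
    exact (g0.dist_eq f₁ rfl ξ hξ).symm
  have hall : ∀ i < k, dist (c i) (c (i + 1)) = ‖ξ‖ := by
    intro i
    induction i with
    | zero => intro _; rw [hn]
    | succ i ih =>
      intro hi
      have h1 := hm i hi
      rw [h1.2, ← h1.1]
      exact ih (by omega)
  have hξ2 : ‖ξ‖ < ρ / 2 := by rw [hn]; exact hk 0 hk0
  refine ⟨ξ, ?_⟩
  -- positions
  have hpos : ∀ i, i + 1 ≤ k → c i = (G₁.Psi ((i : ℝ) • ξ) f₁).m ∧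
      c (i + 1) = (G₁.Psi (((i : ℝ) + 1) • ξ) f₁).m := by
    intro i
    induction i with
    | zero =>
      intro _
      simp [h0, G₁.Psi_zero, he]
    | succ i ih =>
      intro hi
      obtain ⟨h1, h2⟩ := ih (by omega)
      refine ⟨by push_cast; exact h2, ?_⟩
      set g := G₁.Psi ((i : ℝ) • ξ) f₁ with hg
      have gi : G₁.GoodAt g.m ρ := by
        rw [← h1]
        exact hgood _ (hpt i (by omega))
      have hmi := hm i (by omega)
      have hd1 : dist (c i) (c (i + 1)) = ‖ξ‖ := hall i (by omega)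
      have hd2 : dist (c i) (c (i + 2)) = 2 * ‖ξ‖ := by
        have := hmi.1
        rw [hd1] at this
        linarith
      have hd3 : dist (c (i + 1)) (c (i + 2)) = ‖ξ‖ := by
        rw [hmi.2, hd2]; ring
      obtain ⟨η, hη, heη⟩ := gi.surj g rfl (c (i + 2)) (by rw [← h1, hd2]; linarith)
      have hηn : ‖η‖ = 2 * ‖ξ‖ := by
        rw [← hd2, h1, ← heη]
        exact (gi.dist_eq g rfl η hη).symm
      have hmid : c (i + 1) = (G₁.Psi ((1 / 2 : ℝ) • η) g).m := by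
        refine gi.betw g rfl η hη (1 / 2) ⟨by norm_num, by norm_num⟩ _ ?_ ?_
        · rw [← h1, hd1, hηn]; ring
        · rw [heη, hd3, hηn]; ring
      have hmid' : c (i + 1) = (G₁.Psi ξ g).m := by
        rw [h2, hg]
        have := G₁.Psi_add (i : ℝ) 1 ξ f₁
        rw [one_smul] at this
        rw [this]
      have hηξ : (1 / 2 : ℝ) • η = ξ := by
        refine gi.inj g rfl _ _ ?_ hξ (hmid.symm.trans hmid')
        rw [norm_smul, hηn]
        norm_num
        linarith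
      have hη2 : η = (2 : ℝ) • ξ := by
        rw [← hηξ, smul_smul]
        norm_num
      have : c (i + 1 + 1) = (G₁.Psi ((2 : ℝ) • ξ) g).m := by rw [← hη2]; exact heη.symm
      rw [this, hg, ← G₁.Psi_add]
      push_cast
      congr 3
      ring
  have hpos' : ∀ i ≤ k, c i = (G₁.Psi ((i : ℝ) • ξ) f₁).m := by
    intro i hi
    rcases Nat.eq_zero_or_pos i with h | h
    · subst h
      simp [h0, G₁.Psi_zero]
    · obtain ⟨j, rfl⟩ : ∃ j, i = j + 1 := ⟨i - 1, by omega⟩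
      have := (hpos j hi).2
      push_cast
      exact this
  intro i hi
  refine ⟨hpos' i hi, ?_⟩
  clear hs hm
  induction i with
  | zero => simp [G₁.Psi_zero, G₂.Psi_zero]
  | succ i ih =>
    have ih' := ih (by omega)
    rw [List.range_succ, List.map_append, List.foldl_append, ih']
    simp only [List.map_cons, List.map_nil, List.foldl_cons, List.foldl_nil]
    have gi : G₁.GoodAt (G₁.Psi ((i : ℝ) • ξ) f₁).m ρ := by
      rw [← hpos' i (by omega)]
      exact hgood _ (hpt i (by omega))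
    have h1 := G₁.Psi_add (i : ℝ) 1 ξ f₁
    have h2 := G₂.Psi_add (i : ℝ) 1 ξ f₂
    rw [one_smul] at h1 h2
    rw [hpos' (i + 1) hi]
    push_cast
    rw [h1, h2]
    exact step_mk gi hξ

/-- If the curvatures agree along all rays, the configurations form a rolling system. -/
theorem exists_roll (f₁ : G₁.Fr) (f₂ : G₂.Fr)
    (H : ∀ x, G₁.Rf (G₁.Psi x f₁) = G₂.Rf (G₂.Psi x f₂)) (S : ℝ) (hS : 1 ≤ S) :
    ∃ R : Roll M₁ (Conf G₁ G₂), R.π = π₁ ∧ R.step = step ∧ R.D = D ∧ R.A0 = mk f₁ f₂ ∧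
      R.S = S := by
  obtain ⟨r, hr, hgood⟩ := G₁.exists_goodAt f₁.m (S + 4)
  obtain ⟨ρ₂, hρ₂, C, hC, htri⟩ := tri (G₁ := G₁) (G₂ := G₂) f₁.m f₂.m S
  obtain ⟨ρ₃, hρ₃, htri0⟩ := tri0_unif (G₁ := G₁) (G₂ := G₂) f₁.m S
  obtain ⟨B₁, hB₁⟩ := G₁.Rf_bdd f₁.m S
  obtain ⟨B₂, hB₂⟩ := G₂.Rf_bdd f₂.m S
  set ρ := min (min 1 r) (min ρ₂ ρ₃) with hρdef
  have hρ1 : ρ ≤ 1 := (min_le_left _ _).trans (min_le_left _ _)
  have hρr : ρ ≤ r := (min_le_left _ _).trans (min_le_right _ _)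
  have hρ2 : ρ ≤ ρ₂ := (min_le_right _ _).trans (min_le_left _ _)
  have hρ3 : ρ ≤ ρ₃ := (min_le_right _ _).trans (min_le_right _ _)
  have hρ : 0 < ρ := lt_min (lt_min one_pos hr) (lt_min hρ₂ hρ₃)
  have hg : ∀ x, dist f₁.m x ≤ S + 4 → G₁.GoodAt x ρ := fun x hx => (hgood x hx).mono hρr
  have hg' : ∀ x, dist f₁.m x ≤ S + 3 → ∀ z, dist x z < ρ → G₁.GoodAt z ρ := by
    intro x hx z hz
    refine hg z ?_
    have := dist_triangle f₁.m x z
    linarith
  set N : Conf G₁ G₂ → ℝ := fun A => max (dist f₁.m A.π₁) (dist f₂.m A.π₂) with hN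
  have hN1 : ∀ A, dist f₁.m A.π₁ ≤ N A := fun A => le_max_left _ _
  have hN2 : ∀ A, dist f₂.m A.π₂ ≤ N A := fun A => le_max_right _ _
  have hA0 : (mk f₁ f₂ : Conf G₁ G₂).π₁ = f₁.m := π₁_mk f₁ f₂
  refine ⟨{ π := π₁
            step := step
            D := D
            N := N
            A0 := mk f₁ f₂
            seg := G₁.seg
            S := S
            ρ := ρ
            C := C
            ρ_pos := hρ
            ρ_le := hρ1
            S_ge := hS
            C_nonneg := hC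
            D_nonneg := D_nonneg
            D_bdd := ⟨B₁ + B₂, fun A hA => ?_⟩
            N_A0 := ?_
            N_pi := fun A => by rw [hA0]; exact hN1 A
            seg_zero := fun x y hx hxy => ?_
            seg_one := fun x y hx hxy => ?_
            seg_dist := fun x y hx hxy s hs t ht => ?_
            seg_unique := fun x y hx hxy s hs z h1 h2 => ?_
            conv := fun a b c ha hb hab hac hbc s hs => ?_
            ext := fun x y z u v hy hlt hu hv huy hvy huv => ?_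
            π_step := fun A b hA hb => ?_
            N_step := fun A b hA hb => ?_
            step_self := fun A hA => ?_
            step_mid := fun A b hA hb s hs => ?_
            step_rev := fun A b hA hb => ?_
            tri := fun A m w t δ hA ht hm hw hmw hD => ?_
            tri0 := fun A m w hA hm hw hmw hD => ?_
            ray := fun k c h0 hk hs hm => ?_ }, rfl, rfl, rfl, rfl, rfl⟩
  · refine (norm_sub_le _ _).trans (add_le_add (hB₁ _ ?_) (hB₂ _ ?_))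
    · exact (hN1 A).trans hA
    · exact (hN2 A).trans hA
  · simp only [hN]
    rw [π₁_mk, π₂_mk, dist_self, dist_self, max_self]
  · rw [hA0] at hx
    exact GMfd.seg_zero (hg x (by linarith)) hxy
  · rw [hA0] at hx
    exact GMfd.seg_one (hg x (by linarith)) hxy
  · rw [hA0] at hx
    exact GMfd.seg_dist (hg x (by linarith)) (hg' x (by linarith)) hxy hs ht
  · rw [hA0] at hx
    exact GMfd.seg_unique (hg x (by linarith)) hxy hs h1 h2
  · rw [hA0] at hb
    exact GMfd.seg_conv (hg b (by linarith)) hab hac hbc hs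
  · rw [hA0] at hy
    exact GMfd.seg_ext (hg' y (by linarith)) hlt hu hv huy hvy huv
  · exact π_step (hg _ ((hN1 A).trans (by linarith))) hb
  · have h1 := π_step (G₂ := G₂) (hg _ ((hN1 A).trans (by linarith))) hb
    have h2 := dist_π₂_step (G₂ := G₂) (hg _ ((hN1 A).trans (by linarith))) hb
    refine max_le ?_ ?_
    · rw [h1]
      have := dist_triangle f₁.m A.π₁ b
      linarith [hN1 A]
    · have := dist_triangle f₂.m A.π₂ (step A b).π₂
      linarith [hN2 A]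
  · exact step_self hρ (hg _ ((hN1 A).trans (by linarith)))
  · exact step_mid (hg' _ ((hN1 A).trans (by linarith))) hb hs
  · exact step_rev (hg' _ ((hN1 A).trans (by linarith))) hb
  · exact htri A m w t δ ((hN1 A).trans hA) ((hN2 A).trans hA) (by linarith) hm hw hmw hD
  · exact htri0 A m w ((hN1 A).trans hA) (by linarith) (by linarith) hD
  · rw [hA0] at h0
    obtain ⟨ξ, hξ⟩ := ray_aux f₁ f₂ hρ (S := S) (fun x hx => hg x (by linarith)) k c h0 hk hs hm
    rw [(hξ k le_rfl).2, D_mk, H, sub_self, norm_zero]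

/-! ### The leaf -/

/-- all steps of the broken path `x, l` are shorter than `δ` -/
def Mesh (δ : ℝ) : M₁ → List M₁ → Prop
  | _, [] => True
  | x, y :: l => dist x y < δ ∧ Mesh δ y l

omit [CompleteSpace M₁] in
theorem Mesh.snoc {δ : ℝ} (l : List M₁) : ∀ (x b : M₁), Mesh δ x l →
    dist (l.getLastD x) b < δ → Mesh δ x (l ++ [b]) := by
  induction l with
  | nil => intro x b _ h; exact ⟨h, trivial⟩
  | cons y l ih =>
    intro x b h h'
    refine ⟨h.1, ih y b h.2 ?_⟩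
    rw [List.getLastD_cons] at h'
    exact h'

omit [CompleteSpace M₁] in
theorem len_snoc (l : List M₁) : ∀ (x b : M₁),
    Roll.len x (l ++ [b]) = Roll.len x l + dist (l.getLastD x) b := by
  induction l with
  | nil => intro x b; simp [Roll.len]
  | cons y l ih =>
    intro x b
    rw [List.cons_append, Roll.len, ih y b, Roll.len, List.getLastD_cons]
    ring

/-- configurations reached by a chain of short steps -/
def Reach (A₀ : Conf G₁ G₂) (δ L : ℝ) (A : Conf G₁ G₂) : Prop :=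
  ∃ l : List M₁, Mesh δ A₀.π₁ l ∧ Roll.len A₀.π₁ l ≤ L ∧ l.foldl step A₀ = A ∧
    l.getLastD A₀.π₁ = A.π₁

theorem Reach.move {A₀ : Conf G₁ G₂} {δ L : ℝ} {g₁ : G₁.Fr} {g₂ : G₂.Fr}
    (h : Reach A₀ δ L (mk g₁ g₂)) (hg : G₁.GoodAt g₁.m δ) {ζ : E} (hζ : ‖ζ‖ < δ) :
    Reach A₀ δ (L + ‖ζ‖) (mk (G₁.Psi ζ g₁) (G₂.Psi ζ g₂)) := by
  obtain ⟨l, h1, h2, h3, h4⟩ := h
  rw [π₁_mk] at h4
  have hd : dist g₁.m (G₁.Psi ζ g₁).m = ‖ζ‖ := hg.dist_eq g₁ rfl ζ hζ
  refine ⟨l ++ [(G₁.Psi ζ g₁).m], ?_, ?_, ?_, ?_⟩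
  · refine Mesh.snoc l _ _ h1 ?_
    rw [h4, hd]
    exact hζ
  · rw [len_snoc, h4, hd]
    linarith
  · rw [List.foldl_append, h3]
    exact step_mk hg hζ
  · rw [π₁_mk]
    simp

theorem Reach.move_long {A₀ : Conf G₁ G₂} {δ L : ℝ} (hδ : 0 < δ) {g₁ : G₁.Fr} {g₂ : G₂.Fr}
    (h : Reach A₀ δ L (mk g₁ g₂)) (ξ : E) (hg : ∀ x, dist g₁.m x ≤ ‖ξ‖ → G₁.GoodAt x δ) :
    Reach A₀ δ (L + ‖ξ‖) (mk (G₁.Psi ξ g₁) (G₂.Psi ξ g₂)) := by
  obtain ⟨n, hn⟩ := exists_nat_gt (‖ξ‖ / δ)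
  have hn0 : 0 < (n : ℝ) := lt_of_le_of_lt (by positivity) hn
  have hζ : ‖(n : ℝ)⁻¹ • ξ‖ < δ := by
    rw [norm_smul, norm_inv, Real.norm_of_nonneg hn0.le, inv_mul_lt_iff₀ hn0]
    rw [div_lt_iff₀ hδ] at hn
    exact hn
  have key : ∀ i : ℕ, i ≤ n → Reach A₀ δ (L + i * ‖(n : ℝ)⁻¹ • ξ‖)
      (mk (G₁.Psi ((i : ℝ) • (n : ℝ)⁻¹ • ξ) g₁) (G₂.Psi ((i : ℝ) • (n : ℝ)⁻¹ • ξ) g₂)) := by
    intro i
    induction i with
    | zero =>
      intro _
      simpa [G₁.Psi_zero, G₂.Psi_zero] using h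
    | succ i ih =>
      intro hi
      have ih' := ih (by omega)
      have hgi : G₁.GoodAt (G₁.Psi ((i : ℝ) • (n : ℝ)⁻¹ • ξ) g₁).m δ := by
        apply hg
        refine (G₁.dist_Psi_le _ _).trans ?_
        rw [smul_smul, norm_smul, norm_mul, Real.norm_of_nonneg (Nat.cast_nonneg i), norm_inv,
          Real.norm_of_nonneg hn0.le]
        have : (i : ℝ) * (n : ℝ)⁻¹ ≤ 1 := by
          rw [← div_eq_mul_inv, div_le_one hn0]
          exact_mod_cast (by omega : i ≤ n)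
        exact mul_le_of_le_one_left (norm_nonneg _) this
      have h1 := ih'.move hgi hζ
      have e1 := G₁.Psi_add (i : ℝ) 1 ((n : ℝ)⁻¹ • ξ) g₁
      have e2 := G₂.Psi_add (i : ℝ) 1 ((n : ℝ)⁻¹ • ξ) g₂
      rw [one_smul] at e1 e2
      push_cast
      rw [e1, e2]
      convert h1 using 1
      ring
  have := key n le_rfl
  rw [smul_smul, mul_inv_cancel₀ hn0.ne', one_smul, norm_smul, norm_inv,
    Real.norm_of_nonneg hn0.le, mul_inv_cancel_left₀ hn0.ne'] at this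
  exact this

theorem Leaf.reach {A₀ A : Conf G₁ G₂} (h : Leaf A₀ A) : ∃ L ≥ 0, dist A₀.π₁ A.π₁ ≤ L ∧
    ∀ δ > 0, (∀ x, dist A₀.π₁ x ≤ L → G₁.GoodAt x δ) → Reach A₀ δ L A := by
  induction h with
  | refl =>
    refine ⟨0, le_rfl, by simp, fun δ _ _ => ⟨[], trivial, by simp [Roll.len], rfl, rfl⟩⟩
  | move g₁ g₂ ξ _ ih =>
    obtain ⟨L, hL, hd, hr⟩ := ih
    rw [π₁_mk] at hd
    refine ⟨L + ‖ξ‖, by positivity, ?_, ?_⟩
    · rw [π₁_mk]
      exact (dist_triangle _ g₁.m _).trans (add_le_add hd (G₁.dist_Psi_le ξ g₁))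
    · intro δ hδ hg
      refine (hr δ hδ fun x hx => hg x (by linarith [norm_nonneg ξ])).move_long hδ ξ ?_
      intro x hx
      apply hg
      exact (dist_triangle _ g₁.m _).trans (add_le_add hd hx)

/-- The curvatures agree on the whole leaf. -/
theorem D_leaf (f₁ : G₁.Fr) (f₂ : G₂.Fr)
    (H : ∀ x, G₁.Rf (G₁.Psi x f₁) = G₂.Rf (G₂.Psi x f₂)) (A : Conf G₁ G₂)
    (hA : Leaf (mk f₁ f₂) A) : A.D = 0 := by
  have : ProperSpace M₁ := G₁.proper
  obtain ⟨L, hL, -, hr⟩ := hA.reach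
  obtain ⟨R, hπ, hst, hD, hA0, hS⟩ := exists_roll f₁ f₂ H (L + 4) (by linarith)
  obtain ⟨r, hr0, hgood⟩ := G₁.exists_goodAt f₁.m L
  set δ := min r R.ρ with hδ
  have hδ0 : 0 < δ := lt_min hr0 R.ρ_pos
  obtain ⟨l, h1, h2, h3, -⟩ := hr δ hδ0 (by
    intro x hx
    rw [π₁_mk] at hx
    exact (hgood x hx).mono (min_le_left _ _))
  have hmesh : ∀ (l : List M₁) (x : M₁), Mesh δ x l → R.mesh x l := by
    intro l
    induction l with
    | nil => intro x _; trivial
    | cons y l ih =>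
      intro x h
      exact ⟨h.1.trans_le (min_le_right _ _), ih y h.2⟩
  have := R.main l (by rw [hπ, hA0]; exact hmesh l _ h1) (by
    rw [hπ, hA0, hS]
    linarith)
  unfold Roll.hol at this
  rw [hD, hst, hA0, h3] at this
  exact this

end Conf

end Amb
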