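import Mathlib

/-!
# A Lipschitz radius function for a local property
-/

namespace Amb

open Set Metric
open scoped Topology

/-- A local property which holds at a positive scale at every point has a Lipschitz radius. -/
theorem exists_radius {M : Type*} [MetricSpace M] (Flat : M → ℝ → Prop)
    (hex : ∀ x, ∃ r > 0, Flat x r)
    (hmono : ∀ x y r r', 0 < r' → Flat x r → r' + dist x y ≤ r → Flat y r') :
    ∃ ρ : M → ℝ, (∀ x, 0 < ρ x) ∧ (∀ x, Flat x (ρ x)) ∧ ∀ x y, ρ x ≤ ρ y + dist x y := by
  set T : M → Set ℝ := fun x => {r | 0 < r ∧ r ≤ 1 ∧ Flat x r} with hT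
  have hne : ∀ x, (T x).Nonempty := by
    intro x
    obtain ⟨r, hr, h⟩ := hex x
    refine ⟨min r 1, lt_min hr one_pos, min_le_right _ _, hmono x x r _ (lt_min hr one_pos) h ?_⟩
    rw [dist_self, add_zero]
    exact min_le_left _ _
  have hbd : ∀ x, BddAbove (T x) := fun x => ⟨1, fun r hr => hr.2.1⟩
  have hpos : ∀ x, 0 < sSup (T x) := by
    intro x
    obtain ⟨r, hr⟩ := hne x
    exact hr.1.trans_le (le_csSup (hbd x) hr)
  refine ⟨fun x => sSup (T x) / 2, fun x => half_pos (hpos x), fun x => ?_, fun x y => ?_⟩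
  · obtain ⟨r, hr, hlt⟩ := exists_lt_of_lt_csSup (hne x) (half_lt_self (hpos x))
    refine hmono x x r _ (half_pos (hpos x)) hr.2.2 ?_
    rw [dist_self, add_zero]
    exact hlt.le
  · have h1 : sSup (T x) ≤ sSup (T y) + dist x y := by
      apply csSup_le (hne x)
      intro r hr
      rcases le_or_gt r (dist x y) with h | h
      · linarith [hpos y]
      · have : r - dist x y ∈ T y := by
          refine ⟨by linarith, by linarith [hr.2.1, dist_nonneg (x := x) (y := y)],
            hmono x y r _ (by linarith) hr.2.2 (by linarith)⟩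
        linarith [le_csSup (hbd y) this]
    have h2 := dist_nonneg (x := x) (y := y)
    change sSup (T x) / 2 ≤ sSup (T y) / 2 + dist x y
    linarith

end Amb
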