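import Mathlib
import Pool.Agent.Amb.Statement
import Pool.Agent.Amb.C1
import Pool.Agent.Amb.F1
import Pool.Agent.Amb.F2
import Pool.Agent.Amb.R1
import Pool.Agent.Amb.M8
import Pool.Agent.Amb.Br1b
import Pool.Agent.Amb.Br2
import Pool.Agent.Amb.Br3
import Pool.Agent.Amb.Radius
import Pool.Agent.Amb.LeafFinal

/-!
# The Ambrose conjecture: final assembly
-/

set_option maxSynthPendingDepth 3
set_option linter.unusedSectionVars false

open Set Function Filter Metric Manifold Bundle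
open scoped Topology ContDiff ENNReal

noncomputable section

namespace Amb

universe u

/-- On complete Riemannian manifolds geodesics exist and are unique. -/
theorem geoUnique (n : ℕ) (M : Type*) [MetricSpace M] [ChartedSpace (EE n) M]
    [IsManifold (𝓡 n) ∞ M] [RiemannianBundle (fun x : M => TangentSpace (𝓡 n) x)]
    [IsContMDiffRiemannianBundle (𝓡 n) ∞ (EE n) (fun x : M => TangentSpace (𝓡 n) x)]
    [IsRiemannianManifold (𝓡 n) M] [CompleteSpace M] : GeoUnique n M := by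
  intro p v
  obtain ⟨γ, hγ⟩ := exists_isGeodesic p v
  exact ⟨γ, hγ, fun γ' hγ' => hγ'.unique hγ⟩

section Assembly

variable {n : ℕ} {M₁ : Type u} [MetricSpace M₁] [ChartedSpace (EE n) M₁]
  [IsManifold (𝓡 n) ∞ M₁] [RiemannianBundle (fun x : M₁ => TangentSpace (𝓡 n) x)]
  [IsContMDiffRiemannianBundle (𝓡 n) ∞ (EE n) (fun x : M₁ => TangentSpace (𝓡 n) x)]
  [IsRiemannianManifold (𝓡 n) M₁] [CompleteSpace M₁] [ConnectedSpace M₁]
  {M₂ : Type u} [MetricSpace M₂] [ChartedSpace (EE n) M₂]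
  [IsManifold (𝓡 n) ∞ M₂] [RiemannianBundle (fun x : M₂ => TangentSpace (𝓡 n) x)]
  [IsContMDiffRiemannianBundle (𝓡 n) ∞ (EE n) (fun x : M₂ => TangentSpace (𝓡 n) x)]
  [IsRiemannianManifold (𝓡 n) M₂] [CompleteSpace M₂] [ConnectedSpace M₂]

/-- Flatness of the leaf of `A₀` in the ball of radius `r` around `x₀`. -/
def FlatAt {G₁ : GMfd (EE n) M₁} {G₂ : GMfd (EE n) M₂} (A₀ : Conf G₁ G₂) (x₀ : M₁) (r : ℝ) :
    Prop :=
  ∀ A, Conf.Leaf A₀ A → dist x₀ A.π₁ < r → (∀ y, dist x₀ y < r → Conf.Leaf A₀ (Conf.step A y) ∧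
      (Conf.step A y).π₁ = y) ∧ Conf.step A A.π₁ = A ∧
      ∀ y z, dist x₀ y < r → dist x₀ z < r →
        Conf.step (Conf.step A y) z = Conf.step A z

theorem FlatAt.mono {G₁ : GMfd (EE n) M₁} {G₂ : GMfd (EE n) M₂} {A₀ : Conf G₁ G₂} {x y : M₁}
    {r r' : ℝ} (h : FlatAt A₀ x r) (hr : r' + dist x y ≤ r) : FlatAt A₀ y r' := by
  have key : ∀ z, dist y z < r' → dist x z < r := by
    intro z hz
    have := dist_triangle x y z
    linarith
  intro A hA hd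
  obtain ⟨h1, h2, h3⟩ := h A hA (key _ hd)
  exact ⟨fun z hz => h1 z (key z hz), h2, fun z w hz hw => h3 z w (key z hz) (key w hw)⟩

/-- The frame isometry of a configuration. -/
def frIso {G₁ : GMfd (EE n) M₁} {G₂ : GMfd (EE n) M₂} (A : Conf G₁ G₂) : EE n →L[ℝ] EE n :=
  A.out.2.Y ∘L ((ContinuousLinearEquiv.ofBijective A.out.1.Y
    (LinearMap.ker_eq_bot.2 A.out.1.bij.1) (LinearMap.range_eq_top.2 A.out.1.bij.2)).symm :
      EE n →L[ℝ] EE n)

theorem frIso_Y {G₁ : GMfd (EE n) M₁} {G₂ : GMfd (EE n) M₂} (A : Conf G₁ G₂) (u : EE n) :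
    frIso A (A.out.1.Y u) = A.out.2.Y u := by
  simp only [frIso, ContinuousLinearMap.comp_apply]
  congr 1
  exact ContinuousLinearEquiv.ofBijective_symm_apply_apply _ _ _ u

theorem frIso_mk {G₁ : GMfd (EE n) M₁} {G₂ : GMfd (EE n) M₂} (f₁ : G₁.Fr) (f₂ : G₂.Fr)
    (u : EE n) : frIso (Conf.mk f₁ f₂) (f₁.Y u) = f₂.Y u := by
  have h : Conf.mk f₁ f₂ = Conf.mk (Conf.mk f₁ f₂).out.1 (Conf.mk f₁ f₂).out.2 :=
    (Conf.mk_out _).symm
  obtain ⟨k, h1, h2⟩ := Conf.mk_eq_mk.1 h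
  have e1 : f₁.Y u = (Conf.mk f₁ f₂).out.1.Y (k.symm u) := by
    rw [h1]
    change _ = f₁.Y (k (k.symm u))
    rw [LinearIsometryEquiv.apply_symm_apply]
  have e2 : f₂.Y u = (Conf.mk f₁ f₂).out.2.Y (k.symm u) := by
    rw [h2]
    change _ = f₂.Y (k (k.symm u))
    rw [LinearIsometryEquiv.apply_symm_apply]
  rw [e1, frIso_Y, e2]

theorem step_self' (A : Conf (toGMfd (EE n) M₁) (toGMfd (EE n) M₂)) :
    Conf.step A A.π₁ = A := by
  obtain ⟨ρ, hρ, h⟩ := GMfd.exists_goodAt (toGMfd (EE n) M₁) A.π₁ 0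
  exact Conf.step_self hρ (h _ (by rw [dist_self]))

theorem step_data (A : Conf (toGMfd (EE n) M₁) (toGMfd (EE n) M₂)) :
    ContinuousAt (fun y => (Conf.step A y).π₂) A.π₁ ∧
    ContDiffAt ℝ ∞ (fun x => extChartAt (𝓡 n) (Conf.step A A.π₁).π₂
      (Conf.step A ((extChartAt (𝓡 n) A.π₁).symm x)).π₂) (extChartAt (𝓡 n) A.π₁ A.π₁) ∧
    HasFDerivAt (fun x => extChartAt (𝓡 n) (Conf.step A A.π₁).π₂
      (Conf.step A ((extChartAt (𝓡 n) A.π₁).symm x)).π₂) (frIso A)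
      (extChartAt (𝓡 n) A.π₁ A.π₁) := by
  have hs := step_self' A
  have hm := Conf.mk_out A
  have h1 : A.out.1.m ∈ (toGMfd (EE n) M₁).src A.π₁ := (toGMfd (EE n) M₁).mem_src _
  have h2 : A.out.2.m ∈ (toGMfd (EE n) M₂).src (Conf.step A A.π₁).π₂ := by
    rw [hs]
    exact (toGMfd (EE n) M₂).mem_src _
  obtain ⟨c1, c2, c3⟩ := Conf.step_smooth A.out.1 A.out.2 h1 h2
  rw [hm] at c1 c2 c3
  have hJ : ∀ q, q = A.out.2.m →
      (toGMfd (EE n) M₂).J q A.out.2.m = ContinuousLinearMap.id ℝ (EE n) := by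
    rintro _ rfl
    exact toGMfd_J_self _
  have hJ1 : (toGMfd (EE n) M₁).J A.π₁ A.out.1.m = ContinuousLinearMap.id ℝ (EE n) :=
    toGMfd_J_self _
  have hJ2 := hJ (Conf.step A A.π₁).π₂ (by rw [hs]; rfl)
  refine ⟨c1, c2, ?_⟩
  have hd := (c2.differentiableAt (by simp)).hasFDerivAt
  have he : fderiv ℝ (fun x => (toGMfd (EE n) M₂).φ (Conf.step A A.π₁).π₂
      (Conf.step A ((toGMfd (EE n) M₁).ψ A.π₁ x)).π₂)
      ((toGMfd (EE n) M₁).φ A.π₁ A.out.1.m) = frIso A := by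
    ext1 v
    obtain ⟨u, rfl⟩ := A.out.1.bij.2 v
    have := c3 u
    rw [hJ1, hJ2] at this
    rw [frIso_Y]
    exact this
  rw [he] at hd
  exact hd

theorem step_contMDiffAt (A : Conf (toGMfd (EE n) M₁) (toGMfd (EE n) M₂)) :
    ContMDiffAt (𝓡 n) (𝓡 n) ∞ (fun b => (Conf.step A b).π₂) A.π₁ := by
  obtain ⟨c1, c2, -⟩ := step_data A
  rw [contMDiffAt_iff_chart (mem_extChartAt_source _) (mem_extChartAt_source _)]
  exact ⟨c1, c2⟩

theorem step_hasMFDerivAt (A : Conf (toGMfd (EE n) M₁) (toGMfd (EE n) M₂)) :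
    HasMFDerivAt (𝓡 n) (𝓡 n) (fun b => (Conf.step A b).π₂) A.π₁ (frIso A) := by
  obtain ⟨c1, -, c3⟩ := step_data A
  refine ⟨c1, ?_⟩
  simp only [mfld_simps, hasFDerivWithinAt_univ] at c3 ⊢
  exact c3

theorem norm_frIso (A : Conf (toGMfd (EE n) M₁) (toGMfd (EE n) M₂)) (v : EE n) :
    ‖(show TangentSpace (𝓡 n) A.π₂ from frIso A v)‖ =
      ‖(show TangentSpace (𝓡 n) A.π₁ from v)‖ := by
  obtain ⟨u, rfl⟩ := A.out.1.bij.2 v
  rw [frIso_Y]
  exact (norm_frame A.out.2 u).trans (norm_frame A.out.1 u).symm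

/-- **Main step**: from vanishing mismatch on the leaf to the conclusion. -/
theorem ambrose_of_D_leaf {p₁ : M₁} {p₂ : M₂}
    (L : TangentSpace (𝓡 n) p₁ ≃ₗᵢ[ℝ] TangentSpace (𝓡 n) p₂)
    (A₀ : Conf (toGMfd (EE n) M₁) (toGMfd (EE n) M₂))
    (h1 : A₀.π₁ = p₁) (h2 : A₀.π₂ = p₂) (hL : ∀ v : EE n, frIso A₀ v = L v)
    (H : ∀ A, Conf.Leaf A₀ A → A.D = 0) : AmbroseConclusion p₁ p₂ L := by
  subst h1 h2
  have hflat : ∀ x : M₁, ∃ r > 0, FlatAt A₀ x r := by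
    intro x
    obtain ⟨ρ, hρ, h⟩ := Conf.leaf_flat H x
    refine ⟨ρ, hρ, fun A hA hd => ?_⟩
    obtain ⟨h1, h2, h3⟩ := h A hA hd
    exact ⟨fun y hy => ⟨(h1 y hy).1, (h1 y hy).2.1⟩, h2, h3⟩
  obtain ⟨ρ, hρ0, hρf, hρl⟩ := exists_radius (FlatAt A₀) hflat
    (fun x y r r' _ h hr => FlatAt.mono h hr)
  let D : LeafSys M₁ (Conf (toGMfd (EE n) M₁) (toGMfd (EE n) M₂)) :=
    { pr := Conf.π₁
      step := Conf.step
      leaf := {A | Conf.Leaf A₀ A}
      step_self := fun A _ => step_self' A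
      good := by
        intro A hA
        refine ⟨ρ A.π₁, hρ0 _, fun y hy => ?_⟩
        rw [mem_ball, dist_comm] at hy
        obtain ⟨e1, -, e3⟩ := hρf A.π₁ A hA (by rw [dist_self]; exact hρ0 _)
        refine ⟨(e1 y hy).1, (e1 y hy).2, fun z hz => e3 y z hy ?_⟩
        rwa [mem_ball, dist_comm] at hz }
  have hgood : ∀ A ∈ D.leaf, D.GoodRad A (ρ A.π₁) := by
    intro A hA
    refine ⟨hρ0 _, fun y hy => ?_⟩
    rw [mem_ball, dist_comm] at hy
    obtain ⟨e1, -, e3⟩ := hρf A.π₁ A hA (by rw [dist_self]; exact hρ0 _)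
    refine ⟨(e1 y hy).1, (e1 y hy).2, fun z hz => e3 y z hy ?_⟩
    rwa [mem_ball, dist_comm] at hz
  have hchain : D.Chain A₀ := by
    intro A hA
    obtain ⟨k, B, hB0, hBk, hB⟩ := Conf.leaf_chain hA ρ hρ0 (by
      intro x
      filter_upwards [ball_mem_nhds x (half_pos (hρ0 x))] with y hy
      rw [mem_ball, dist_comm] at hy
      linarith [hρl x y])
    have hmem : ∀ i ≤ k, B i ∈ D.leaf ∧ Relation.ReflTransGen
        (fun A B => ∃ r, D.GoodRad A r ∧ ∃ y ∈ ball (D.pr A) r, B = D.step A y) A₀ (B i) := by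
      intro i
      induction i with
      | zero =>
        intro _
        rw [hB0]
        exact ⟨Conf.Leaf.refl, Relation.ReflTransGen.refl⟩
      | succ i ih =>
        intro hi
        obtain ⟨hm, ht⟩ := ih (by omega)
        obtain ⟨hd, he⟩ := hB i (by omega)
        have hg := hgood (B i) hm
        have hy : (B (i + 1)).π₁ ∈ ball (D.pr (B i)) (ρ (B i).π₁) := by
          rw [mem_ball, dist_comm]
          exact hd
        refine ⟨?_, ht.tail ⟨_, hg, _, hy, he⟩⟩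
        rw [he]
        exact (hg.2 _ hy).1
    have := (hmem k le_rfl).2
    rwa [hBk] at this
  have hprop : ProperSpace M₁ := properSpace_of_complete (n := n)
  refine LeafSys.ambrose_of_leaf D Conf.π₂ (A₀ := A₀) Conf.Leaf.refl hchain
    (fun A _ => step_contMDiffAt A) frIso (fun A _ => step_hasMFDerivAt A)
    (fun A _ v => norm_frIso A v) ?_ L hL (geoUnique n M₁) (geoUnique n M₂)
    (fun M => geoUnique n M)
  intro S
  -- minimum of `ρ` on a closed ball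
  rcases lt_or_ge S 0 with hS | hS
  · refine ⟨1, one_pos, fun A _ hd _ => ?_⟩
    exact absurd (dist_nonneg.trans hd) (not_le.2 hS)
  have hcont : Continuous ρ := by
    rw [Metric.continuous_iff]
    intro x ε hε
    refine ⟨ε, hε, fun y hy => ?_⟩
    rw [Real.dist_eq, abs_lt]
    have e1 := hρl x y
    have e2 := hρl y x
    rw [dist_comm x y] at e1
    constructor <;> linarith
  obtain ⟨x₀, -, hx₀⟩ := (isCompact_closedBall (D.pr A₀) S).exists_isMinOn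
    ⟨D.pr A₀, mem_closedBall_self hS⟩ hcont.continuousOn
  refine ⟨ρ x₀, hρ0 _, fun A hA hd _ => (hgood A hA).mono (hρ0 _) ?_⟩
  apply hx₀
  rw [mem_closedBall, dist_comm]
  exact hd

/-- **The Ambrose conjecture** for two given manifolds. -/
theorem ambrose_main (p₁ : M₁) (p₂ : M₂)
    (L : TangentSpace (𝓡 n) p₁ ≃ₗᵢ[ℝ] TangentSpace (𝓡 n) p₂) (hR : LRelated p₁ p₂ L) :
    AmbroseConclusion p₁ p₂ L := by
  obtain ⟨f₁, rfl⟩ := (toGMfd (EE n) M₁).exists_fr p₁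
  set f₂ := frameOf p₂ ((frameEquiv f₁).trans L) with hf₂
  have hH := GMfd.rays (toGMfd (EE n) M₁) (toGMfd (EE n) M₂) f₁ f₂
    (rays_hyp f₁ f₂ L (fun x => rfl) hR)
  refine ambrose_of_D_leaf L (Conf.mk f₁ f₂) (Conf.π₁_mk f₁ f₂) (Conf.π₂_mk f₁ f₂) ?_
    (Conf.D_leaf f₁ f₂ hH)
  intro v
  obtain ⟨u, rfl⟩ := f₁.bij.2 v
  rw [frIso_mk]
  rfl

end Assembly

/-- **The Ambrose conjecture.** -/
theorem ambrose : AmbroseConjecture.{u} := by
  intro n M₁ _ _ _ _ _ _ _ _ M₂ _ _ _ _ _ _ _ _ p₁ p₂ L hR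
  exact ambrose_main p₁ p₂ L hR

end Amb
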