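import Mathlib

/-!
# Riemannian metrics on open subsets of a vector space: Christoffel symbols, curvature

`E` is a finite dimensional real inner product space (the inner product of `E` is the one of the
model space of orthonormal frames). A metric on the open set `U` is a map
`g : E → E →L[ℝ] E →L[ℝ] ℝ`.
-/

set_option maxSynthPendingDepth 3

namespace Amb

open Set Metric
open scoped ContDiff Topology

variable {E : Type*} [NormedAddCommGroup E] [InnerProductSpace ℝ E] [FiniteDimensional ℝ E]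

/-- `g` is a smooth Riemannian metric on the open set `U`. -/
structure IsMet (U : Set E) (g : E → E →L[ℝ] E →L[ℝ] ℝ) : Prop where
  isOpen : IsOpen U
  smooth : ContDiffOn ℝ ∞ g U
  symm : ∀ x ∈ U, ∀ u v, g x u v = g x v u
  pos : ∀ x ∈ U, ∀ u, u ≠ 0 → 0 < g x u u

/-- The Koszul form `½ (D_u g (v, w) + D_v g (u, w) - D_w g (u, v))`. -/
noncomputable def kos (g : E → E →L[ℝ] E →L[ℝ] ℝ) (x : E) : E →L[ℝ] E →L[ℝ] E →L[ℝ] ℝ :=
  (1 / 2 : ℝ) • (fderiv ℝ g x + (fderiv ℝ g x).flip -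
    (ContinuousLinearMap.flipₗᵢ ℝ E E ℝ).toContinuousLinearEquiv.toContinuousLinearMap ∘L
      (fderiv ℝ g x).flip)

theorem kos_apply (g : E → E →L[ℝ] E →L[ℝ] ℝ) (x u v w : E) :
    kos g x u v w = (1 / 2 : ℝ) * (fderiv ℝ g x u v w + fderiv ℝ g x v u w -
      fderiv ℝ g x w u v) := by
  simp [kos]

/-- The Christoffel symbols `Γ_x(u, v)`, defined by `g_x(Γ_x(u, v), w) = kos g x u v w`. -/
noncomputable def Gam (g : E → E →L[ℝ] E →L[ℝ] ℝ) (x : E) : E →L[ℝ] E →L[ℝ] E :=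
  (ContinuousLinearMap.compL ℝ E (E →L[ℝ] ℝ) E (ContinuousLinearMap.inverse (g x))) ∘L (kos g x)

/-- Auxiliary part of the curvature: `D_u Γ (v, w) + Γ(u, Γ(v, w))`. -/
noncomputable def Rm0 (g : E → E →L[ℝ] E →L[ℝ] ℝ) (x : E) : E →L[ℝ] E →L[ℝ] E →L[ℝ] E :=
  fderiv ℝ (Gam g) x + (ContinuousLinearMap.compL ℝ E E E).bilinearComp (Gam g x) (Gam g x)

/-- The curvature tensor
`R(u, v) w = D_u Γ (v, w) - D_v Γ (u, w) + Γ(u, Γ(v, w)) - Γ(v, Γ(u, w))`. -/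
noncomputable def Rm (g : E → E →L[ℝ] E →L[ℝ] ℝ) (x : E) : E →L[ℝ] E →L[ℝ] E →L[ℝ] E :=
  Rm0 g x - (Rm0 g x).flip

theorem Rm_apply (g : E → E →L[ℝ] E →L[ℝ] ℝ) (x u v w : E) :
    Rm g x u v w = fderiv ℝ (Gam g) x u v w - fderiv ℝ (Gam g) x v u w +
      Gam g x u (Gam g x v w) - Gam g x v (Gam g x u w) := by
  simp only [Rm, Rm0, ContinuousLinearMap.sub_apply, ContinuousLinearMap.add_apply,
    ContinuousLinearMap.flip_apply, ContinuousLinearMap.bilinearComp_apply,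
    ContinuousLinearMap.compL_apply, ContinuousLinearMap.comp_apply]
  abel

/-- The tangent map of the frame bundle trivialisation: a curve `(x, Y)` of frames has velocity
`(θ, κ)` if `x' = Y θ` and `Y' = Y κ - Γ_x(Y θ) Y`. -/
noncomputable def vel (g : E → E →L[ℝ] E →L[ℝ] ℝ) (p : E × (E →L[ℝ] E)) :
    E × (E →L[ℝ] E) →L[ℝ] E × (E →L[ℝ] E) :=
  (p.2 ∘L ContinuousLinearMap.fst ℝ E (E →L[ℝ] E)).prod
    ((ContinuousLinearMap.compL ℝ E E E p.2) ∘L ContinuousLinearMap.snd ℝ E (E →L[ℝ] E) -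
      (((ContinuousLinearMap.compL ℝ E E E).flip p.2) ∘L (Gam g p.1) ∘L p.2) ∘L
        ContinuousLinearMap.fst ℝ E (E →L[ℝ] E))

theorem vel_apply (g : E → E →L[ℝ] E →L[ℝ] ℝ) (x : E) (Y : E →L[ℝ] E) (θ : E)
    (κ : E →L[ℝ] E) :
    vel g (x, Y) (θ, κ) = (Y θ, Y ∘L κ - (Gam g x (Y θ)) ∘L Y) := by
  simp [vel]

/-- The curvature in a frame: `pull Y T (u, v) w = Y⁻¹ T(Y u, Y v) (Y w)`. -/
noncomputable def pull (Y : E →L[ℝ] E) (T : E →L[ℝ] E →L[ℝ] E →L[ℝ] E) :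
    E →L[ℝ] E →L[ℝ] E →L[ℝ] E :=
  (ContinuousLinearMap.compL ℝ E (E →L[ℝ] E) (E →L[ℝ] E)
    ((ContinuousLinearMap.compL ℝ E E E (ContinuousLinearMap.inverse Y)) ∘L
      ((ContinuousLinearMap.compL ℝ E E E).flip Y))) ∘L (T.bilinearComp Y Y)

theorem pull_apply (Y : E →L[ℝ] E) (T : E →L[ℝ] E →L[ℝ] E →L[ℝ] E) (u v w : E) :
    pull Y T u v w = ContinuousLinearMap.inverse Y (T (Y u) (Y v) (Y w)) := by
  simp [pull]

/-- `χ` is a smooth isometric map from `(W, g)` to `(V, h)`. -/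
structure IsIso (W V : Set E) (g h : E → E →L[ℝ] E →L[ℝ] ℝ) (χ : E → E) : Prop where
  isOpen : IsOpen W
  smooth : ContDiffOn ℝ ∞ χ W
  maps : ∀ x ∈ W, χ x ∈ V
  isom : ∀ x ∈ W, ∀ u v, h (χ x) (fderiv ℝ χ x u) (fderiv ℝ χ x v) = g x u v

/-- The lift of `χ` to frames. -/
noncomputable def frMap (χ : E → E) (p : E × (E →L[ℝ] E)) : E × (E →L[ℝ] E) :=
  (χ p.1, fderiv ℝ χ p.1 ∘L p.2)

/-- `F x v = (exp_x v, parallel transport along the geodesic)` near `x₀`. -/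
structure LocFlow (U : Set E) (g : E → E →L[ℝ] E →L[ℝ] ℝ) (x₀ : E) (r : ℝ)
    (F : E → E → E × (E →L[ℝ] E)) : Prop where
  r_pos : 0 < r
  ball_sub : ball x₀ r ⊆ U
  smooth : ContDiffOn ℝ ∞ (fun p : E × E => F p.1 p.2) (ball x₀ r ×ˢ ball (0 : E) r)
  zero : ∀ x ∈ ball x₀ r, F x 0 = (x, ContinuousLinearMap.id ℝ E)
  mem : ∀ x ∈ ball x₀ r, ∀ v ∈ ball (0 : E) r, (F x v).1 ∈ U
  ode : ∀ x ∈ ball x₀ r, ∀ (v : E) (t : ℝ), ‖t • v‖ < r →
    HasDerivAt (fun s : ℝ => F x (s • v)) (vel g (F x (t • v)) (v, 0)) t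

/-- length of a vector -/
noncomputable def gnorm (g : E → E →L[ℝ] E →L[ℝ] ℝ) (x v : E) : ℝ := √(g x v v)

/-- `c` is a `C^1` curve on `[0, 1]` with derivative `c'` -/
def C1 (c c' : ℝ → E) : Prop :=
  (∀ t ∈ Icc (0 : ℝ) 1, HasDerivWithinAt c (c' t) (Icc 0 1) t) ∧ ContinuousOn c' (Icc 0 1)

/-- length of a curve -/
noncomputable def glen (g : E → E →L[ℝ] E →L[ℝ] ℝ) (c c' : ℝ → E) : ℝ :=
  ∫ t in (0 : ℝ)..1, gnorm g (c t) (c' t)

/-- The local logarithm and its properties: `lg x y` is the initial velocity of the short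
geodesic from `x` to `y` (parametrised on `[0, 1]`). -/
structure LocLog (U : Set E) (g : E → E →L[ℝ] E →L[ℝ] ℝ) (x₀ : E) (r : ℝ)
    (F : E → E → E × (E →L[ℝ] E)) (r₁ : ℝ) (lg : E → E → E) : Prop where
  flow : LocFlow U g x₀ r F
  r₁_pos : 0 < r₁
  r₁_le : r₁ ≤ r
  smooth : ContDiffOn ℝ ∞ (fun p : E × E => lg p.1 p.2) (ball x₀ r₁ ×ˢ ball x₀ r₁)
  lg_mem : ∀ x ∈ ball x₀ r₁, ∀ y ∈ ball x₀ r₁, lg x y ∈ ball (0 : E) r
  right : ∀ x ∈ ball x₀ r₁, ∀ y ∈ ball x₀ r₁, (F x (lg x y)).1 = y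
  left : ∀ x ∈ ball x₀ r₁, ∀ v ∈ ball (0 : E) r, (F x v).1 ∈ ball x₀ r₁ → lg x (F x v).1 = v

end Amb
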