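import Pool.Agent.Amb.Met

/-!
# Metric spaces with an atlas of Riemannian charts: definitions

`GMfd E M` is the working notion of a Riemannian manifold: charts `φ q`, `ψ q` around every point
`q`, the metric in the chart, isometric smooth transition maps, and three facts which link the
distance of `M` with lengths of curves in charts. The tangent space at `m` is `E`, through the
chart with index `m`. Frames are pairs `(m, Y)`, `Y : E →L[ℝ] E` isometric from `E` to the tangent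
space at `m`.
-/

set_option maxSynthPendingDepth 3

namespace Amb

open Set Metric
open scoped ContDiff Topology

variable {E : Type*} [NormedAddCommGroup E] [InnerProductSpace ℝ E] [FiniteDimensional ℝ E]

/-- A metric space with an atlas of Riemannian charts. -/
structure GMfd (E : Type*) [NormedAddCommGroup E] [InnerProductSpace ℝ E]
    [FiniteDimensional ℝ E] (M : Type*) [MetricSpace M] where
  φ : M → M → E
  ψ : M → E → M
  src : M → Set M
  tgt : M → Set E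
  g : M → E → E →L[ℝ] E →L[ℝ] ℝ
  met : ∀ q, IsMet (tgt q) (g q)
  src_open : ∀ q, IsOpen (src q)
  mem_src : ∀ q, q ∈ src q
  map_src : ∀ q, ∀ m ∈ src q, φ q m ∈ tgt q
  map_tgt : ∀ q, ∀ x ∈ tgt q, ψ q x ∈ src q
  left_inv : ∀ q, ∀ m ∈ src q, ψ q (φ q m) = m
  right_inv : ∀ q, ∀ x ∈ tgt q, φ q (ψ q x) = x
  cont_φ : ∀ q, ContinuousOn (φ q) (src q)
  cont_ψ : ∀ q, ContinuousOn (ψ q) (tgt q)
  trans : ∀ q q', IsIso {x | x ∈ tgt q ∧ ψ q x ∈ src q'} (tgt q') (g q) (g q')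
    (fun x => φ q' (ψ q x))
  dist_le : ∀ q (c c' : ℝ → E), C1 c c' → (∀ t ∈ Icc (0 : ℝ) 1, c t ∈ tgt q) →
    dist (ψ q (c 0)) (ψ q (c 1)) ≤ glen (g q) c c'
  near_path : ∀ q, ∀ V ∈ 𝓝 q, ∃ r > 0, ∀ x y : M, dist q x < r → dist q y < r → ∀ ε > 0,
    ∃ c c' : ℝ → E, C1 c c' ∧ c 0 = φ q x ∧ c 1 = φ q y ∧
      (∀ t ∈ Icc (0 : ℝ) 1, c t ∈ tgt q ∧ ψ q (c t) ∈ V) ∧ glen (g q) c c' < dist x y + ε
  length : ∀ x y : M, ∀ s ∈ Icc 0 (dist x y), ∀ ε > 0, ∃ z : M, dist x z ≤ s ∧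
    dist z y ≤ dist x y - s + ε

variable {M : Type*} [MetricSpace M] (G : GMfd E M)

namespace GMfd

/-- The coordinates in the chart `q` of tangent vectors at `m` (which are elements of `E` through
the chart `m`). -/
noncomputable def J (q m : M) : E →L[ℝ] E := fderiv ℝ (fun x => G.φ q (G.ψ m x)) (G.φ m m)

/-- The inner product of the tangent space at `m`. -/
noncomputable def ip (m : M) : E →L[ℝ] E →L[ℝ] ℝ := G.g m (G.φ m m)

/-- The Riemannian norm of the tangent space at `m`. -/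
noncomputable def nrm (m : M) (v : E) : ℝ := √(G.ip m v v)

/-- Orthonormal frames. -/
@[ext]
structure Fr (G : GMfd E M) where
  m : M
  Y : E →L[ℝ] E
  isom : ∀ u v, G.ip m (Y u) (Y v) = inner ℝ u v

/-- Coordinates of a frame in the chart `q`. -/
noncomputable def cd (q : M) (f : G.Fr) : E × (E →L[ℝ] E) := (G.φ q f.m, G.J q f.m ∘L f.Y)

/-- The curve `f` of frames has velocity `(θ, κ)` at the time `t`. -/
def HasVel (f : ℝ → G.Fr) (θ : E) (κ : E →L[ℝ] E) (t : ℝ) : Prop :=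
  ContinuousAt (fun s => (f s).m) t ∧ ∀ q, (f t).m ∈ G.src q →
    HasDerivAt (fun s => G.cd q (f s)) (vel (G.g q) (G.cd q (f t)) (θ, κ)) t

/-- The family `f` of frames has velocity `(Θ, Κ)` at the parameter `x`. -/
def HasFVel {X : Type*} [NormedAddCommGroup X] [NormedSpace ℝ X] (f : X → G.Fr)
    (Θ : X →L[ℝ] E) (K : X →L[ℝ] E →L[ℝ] E) (x : X) : Prop :=
  ContinuousAt (fun y => (f y).m) x ∧ ∀ q, (f x).m ∈ G.src q →
    HasFDerivAt (fun y => G.cd q (f y)) (vel (G.g q) (G.cd q (f x)) ∘L (Θ.prod K)) x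

/-- Smooth families of frames. -/
def SmAt {X : Type*} [NormedAddCommGroup X] [NormedSpace ℝ X] (f : X → G.Fr) (x : X) : Prop :=
  ContinuousAt (fun y => (f y).m) x ∧ ∀ q, (f x).m ∈ G.src q →
    ContDiffAt ℝ ∞ (fun y => G.cd q (f y)) x

/-- Smooth families of points. -/
def SmPt {X : Type*} [NormedAddCommGroup X] [NormedSpace ℝ X] (f : X → M) (x : X) : Prop :=
  ContinuousAt f x ∧ ∀ q, f x ∈ G.src q → ContDiffAt ℝ ∞ (fun y => G.φ q (f y)) x

/-- The curvature in a frame. -/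
noncomputable def Rf (f : G.Fr) : E →L[ℝ] E →L[ℝ] E →L[ℝ] E :=
  pull f.Y (Rm (G.g f.m) (G.φ f.m f.m))

variable {G} in
/-- Change of frame by a linear isometry. -/
noncomputable def Fr.rot (f : G.Fr) (k : E ≃ₗᵢ[ℝ] E) : G.Fr where
  m := f.m
  Y := f.Y ∘L (k.toContinuousLinearEquiv : E →L[ℝ] E)
  isom u v := by simp [f.isom]

open Classical in
/-- The time one flow: `Psi ξ f` is the end of the geodesic with initial velocity `f.Y ξ`, with
the parallel transported frame. -/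
noncomputable def Psi (ξ : E) (f₀ : G.Fr) : G.Fr :=
  if h : ∃ f : ℝ → G.Fr, f 0 = f₀ ∧ ∀ t, G.HasVel f ξ 0 t then h.choose 1 else f₀

/-- Metric properties of short geodesics starting at `x`. -/
structure GoodAt (x : M) (ρ : ℝ) : Prop where
  dist_eq : ∀ f : G.Fr, f.m = x → ∀ ξ, ‖ξ‖ < ρ → dist x (G.Psi ξ f).m = ‖ξ‖
  inj : ∀ f : G.Fr, f.m = x → ∀ ξ ξ', ‖ξ‖ < ρ → ‖ξ'‖ < ρ →
    (G.Psi ξ f).m = (G.Psi ξ' f).m → ξ = ξ'
  surj : ∀ f : G.Fr, f.m = x → ∀ y, dist x y < ρ → ∃ ξ, ‖ξ‖ < ρ ∧ (G.Psi ξ f).m = y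
  betw : ∀ f : G.Fr, f.m = x → ∀ ξ, ‖ξ‖ < ρ → ∀ s ∈ Icc (0 : ℝ) 1, ∀ z,
    dist x z = s * ‖ξ‖ → dist z (G.Psi ξ f).m = (1 - s) * ‖ξ‖ → z = (G.Psi (s • ξ) f).m
  conv : ∀ f : G.Fr, f.m = x → ∀ a ξ, ‖ξ‖ < ρ → dist a x < ρ → dist a (G.Psi ξ f).m < ρ →
    ∀ s ∈ Icc (0 : ℝ) 1, dist a (G.Psi (s • ξ) f).m ≤ max (dist a x) (dist a (G.Psi ξ f).m)

/-- The chart `q` is good at the scale `ρ`: short geodesics starting near `q` have all metric
properties and the logarithm is smooth in the chart. -/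
structure Good (q : M) (ρ : ℝ) : Prop where
  pos : 0 < ρ
  sub : closedBall q (4 * ρ) ⊆ G.src q
  at_near : ∀ x, dist q x < ρ → G.GoodAt x ρ
  log : ∃ lg : E → E → E, ContDiffOn ℝ ∞ (fun p : E × E => lg p.1 p.2)
      ({x | x ∈ G.tgt q ∧ dist q (G.ψ q x) < 3 * ρ} ×ˢ
        {x | x ∈ G.tgt q ∧ dist q (G.ψ q x) < 3 * ρ}) ∧
    ∀ (f : G.Fr) ξ, dist q f.m < ρ → ‖ξ‖ < ρ →
      (G.cd q f).2 ξ = lg (G.φ q f.m) (G.φ q (G.Psi ξ f).m)

open Classical in
/-- Short segments. -/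
noncomputable def seg (x y : M) (s : ℝ) : M :=
  if h : ∃ fξ : G.Fr × E, fξ.1.m = x ∧ (G.Psi fξ.2 fξ.1).m = y ∧ ‖fξ.2‖ = dist x y then
    (G.Psi (s • h.choose.2) h.choose.1).m else x

end GMfd

end Amb
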