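import Pool.Agent.Amb.OdeNem

open Set Filter Topology MeasureTheory
open scoped unitInterval ContDiff NNReal

namespace Amb.ODEflow

universe u
variable {E : Type u} [NormedAddCommGroup E] [NormedSpace ℝ E]

lemma FlowOf.continuous_curve {f : E → E} {Φ : ℝ × E → E} (h : FlowOf f Φ) (x : E) :
    Continuous fun s => Φ (s, x) :=
  continuous_iff_continuousAt.2 fun s => (h.deriv s x).continuousAt

/-- the piece of orbit `τ ↦ Φ (t τ, x)`. -/
noncomputable def piece {f : E → E} {Φ : ℝ × E → E} (h : FlowOf f Φ) (p : ℝ × E) : C(I, E) :=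
  ⟨fun τ => Φ (p.1 * τ, p.2),
    (h.continuous_curve p.2).comp (continuous_const.mul continuous_subtype_val)⟩

lemma piece_eq {f : E → E} {Φ : ℝ × E → E} (h : FlowOf f Φ) (hf : Continuous f)
    [CompleteSpace E] (p : ℝ × E) :
    piece h p = ContinuousMap.const I p.2 +
      p.1 • integ ((⟨f, hf⟩ : C(E, E)).comp (piece h p)) := by
  ext τ
  have h1 : ∀ s : ℝ, HasDerivAt (fun s => Φ (p.1 * s, p.2)) (p.1 • f (Φ (p.1 * s, p.2))) s := by
    intro s
    have h2 : HasDerivAt (fun s : ℝ => p.1 * s) p.1 s := by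
      simpa using (hasDerivAt_id s).const_mul p.1
    exact (h.deriv (p.1 * s) p.2).scomp s h2
  have hc : Continuous fun s : ℝ => p.1 • f (Φ (p.1 * s, p.2)) :=
    (hf.comp ((h.continuous_curve p.2).comp (continuous_const.mul continuous_id))).const_smul _
  have h3 := intervalIntegral.integral_eq_sub_of_hasDerivAt (a := 0) (b := (τ : ℝ))
    (fun s _ => h1 s) (hc.intervalIntegrable _ _)
  have h4 : ∫ s in (0:ℝ)..τ, p.1 • f (Φ (p.1 * s, p.2)) =
      p.1 • integ ((⟨f, hf⟩ : C(E, E)).comp (piece h p)) τ := by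
    rw [integ_apply, ← intervalIntegral.integral_smul]
    refine intervalIntegral.integral_congr fun s hs => ?_
    rw [uIcc_of_le τ.2.1] at hs
    have : projIcc (0:ℝ) 1 zero_le_one s = ⟨s, hs.1, hs.2.trans τ.2.2⟩ :=
      projIcc_of_mem _ ⟨hs.1, hs.2.trans τ.2.2⟩
    simp only [this]
    rfl
  rw [h4] at h3
  simp only [mul_zero, h.zero] at h3
  simp only [ContinuousMap.add_apply, ContinuousMap.const_apply, ContinuousMap.smul_apply]
  rw [h3]
  simp [piece]

lemma piece_unique {f : E → E} {Φ : ℝ × E → E} (h : FlowOf f Φ) {L : ℝ≥0}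
    (hf : LipschitzWith L f) [CompleteSpace E] (p : ℝ × E) (hp : |p.1| * L < 1)
    (α : C(I, E)) (hα : α = ContinuousMap.const I p.2 +
      p.1 • integ ((⟨f, hf.continuous⟩ : C(E, E)).comp α)) : α = piece h p := by
  set A := piece h p with hA
  have hAe := piece_eq h hf.continuous p
  rw [← hA] at hAe
  set fC : C(E, E) := ⟨f, hf.continuous⟩ with hfC
  have h1 : α - A = p.1 • integ (fC.comp α - fC.comp A) := by
    rw [map_sub, smul_sub]
    conv_lhs => rw [hα, hAe]
    abel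
  have h2 : ‖fC.comp α - fC.comp A‖ ≤ L * ‖α - A‖ := by
    refine (ContinuousMap.norm_le _ (by positivity)).2 fun k => ?_
    have := hf.dist_le_mul (α k) (A k)
    rw [dist_eq_norm, dist_eq_norm] at this
    refine (le_trans ?_ this).trans (mul_le_mul_of_nonneg_left ((α - A).norm_coe_le_norm k) L.2)
    simp [hfC]
  have h3 : ‖α - A‖ ≤ |p.1| * L * ‖α - A‖ := by
    calc ‖α - A‖ = |p.1| * ‖integ (fC.comp α - fC.comp A)‖ := by
          conv_lhs => rw [h1]
          rw [norm_smul, Real.norm_eq_abs]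
      _ ≤ |p.1| * (L * ‖α - A‖) := by
          refine mul_le_mul_of_nonneg_left ((norm_integ_apply_le _).trans h2) (abs_nonneg _)
      _ = |p.1| * L * ‖α - A‖ := by ring
  have h4 : ‖α - A‖ = 0 := by
    have hn : 0 ≤ ‖α - A‖ := by positivity
    nlinarith
  exact sub_eq_zero.1 (norm_eq_zero.1 h4)


/-- the defining equation of orbit pieces. -/
noncomputable def eqn (fC : C(E, E)) (q : (ℝ × E) × C(I, E)) : C(I, E) :=
  q.2 - ContinuousLinearMap.const ℝ I q.1.2 - q.1.1 • integ (fC.comp q.2)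

lemma contDiff_eqn {n : ℕ∞} {fC : C(E, E)} (hf : ContDiff ℝ n fC) : ContDiff ℝ n (eqn fC) := by
  unfold eqn
  have h1 : ContDiff ℝ n fun q : (ℝ × E) × C(I, E) => fC.comp q.2 :=
    (contDiff_nem fC hf).comp contDiff_snd
  have h2 : ContDiff ℝ n fun q : (ℝ × E) × C(I, E) => ContinuousLinearMap.const ℝ I q.1.2 :=
    (ContinuousLinearMap.const ℝ I : E →L[ℝ] C(I, E)).contDiff.comp (contDiff_snd.comp contDiff_fst)
  exact (contDiff_snd.sub h2).sub
    ((contDiff_fst.comp contDiff_fst).smul ((integ (E := E)).contDiff.comp h1))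

lemma hasFDerivAt_eqn_right {fC : C(E, E)} {f' : C(E, E →L[ℝ] E)}
    (hf : ∀ x, HasFDerivAt fC (f' x) x) (p : ℝ × E) (α : C(I, E)) :
    HasFDerivAt (fun α => eqn fC (p, α))
      ((1 : C(I, E) →L[ℝ] C(I, E)) - p.1 • (integ ∘L mulOp (f'.comp α))) α := by
  unfold eqn
  have h1 := hasFDerivAt_nem fC f' hf α
  have h2 := ((integ (E := E)).hasFDerivAt (x := fC.comp α)).comp α h1
  have h3 := ((hasFDerivAt_id (𝕜 := ℝ) α).sub_const (ContinuousLinearMap.const ℝ I p.2)).sub
    (h2.const_smul p.1)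
  exact h3

lemma contDiffAt_small {n : ℕ∞} (hn : 1 ≤ n) [CompleteSpace E] {f : E → E} {L : ℝ≥0}
    (hL : LipschitzWith L f) (hf : ContDiff ℝ n f) {Φ : ℝ × E → E} (h : FlowOf f Φ)
    (p : ℝ × E) (hp : |p.1| * L < 1) : ContDiffAt ℝ n Φ p := by
  have hn' : (n : WithTop ℕ∞) ≠ 0 := by
    intro h0
    have : n = 0 := by exact_mod_cast h0
    rw [this] at hn
    simp at hn
  have hn1 : (1 : WithTop ℕ∞) ≤ n := by exact_mod_cast hn
  set fC : C(E, E) := ⟨f, hL.continuous⟩ with hfC
  have hfd : ContDiff ℝ n fC := hf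
  set f' : C(E, E →L[ℝ] E) := ⟨fderiv ℝ f, hf.continuous_fderiv hn'⟩ with hf'
  have hder : ∀ x, HasFDerivAt fC (f' x) x := fun x => (hf.differentiable hn' x).hasFDerivAt
  set α := piece h p with hα
  have cd : ContDiffAt ℝ n (eqn fC) (p, α) := (contDiff_eqn hfd).contDiffAt
  have hd := hasFDerivAt_eqn_right hder p α
  have hd2 : HasFDerivAt (fun α => eqn fC (p, α))
      ((fderiv ℝ (eqn fC) (p, α)) ∘L (ContinuousLinearMap.inr ℝ (ℝ × E) C(I, E))) α := by
    have h1 := ((contDiff_eqn hfd).differentiable hn' (p, α)).hasFDerivAt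
    have h2 : HasFDerivAt (fun α : C(I, E) => (p, α))
      (ContinuousLinearMap.inr ℝ (ℝ × E) C(I, E)) α := hasFDerivAt_prodMk_right p α
    exact h1.comp α h2
  have he := hd2.unique hd
  have hunit : IsUnit ((1 : C(I, E) →L[ℝ] C(I, E)) - p.1 • (integ ∘L mulOp (f'.comp α))) := by
    refine isUnit_one_sub_of_norm_lt_one (R := C(I, E) →L[ℝ] C(I, E)) ?_
    refine lt_of_le_of_lt ?_ hp
    refine ContinuousLinearMap.opNorm_le_bound _ (mul_nonneg (abs_nonneg _) L.2) fun β => ?_
    have e1 : (p.1 • (integ ∘L mulOp (f'.comp α))) β = p.1 • integ (mulOp (f'.comp α) β) := rfl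
    rw [e1, norm_smul, Real.norm_eq_abs, mul_assoc]
    refine mul_le_mul_of_nonneg_left ?_ (abs_nonneg _)
    refine (norm_integ_apply_le _).trans ?_
    refine ((mulOp (f'.comp α)).le_opNorm β).trans ?_
    refine mul_le_mul_of_nonneg_right ?_ (by positivity)
    refine (norm_mulOp_le _).trans ?_
    refine (ContinuousMap.norm_le _ L.2).2 fun k => ?_
    exact norm_fderiv_le_of_lipschitz ℝ hL
  have if₂ : ((fderiv ℝ (eqn fC) (p, α)) ∘L
      (ContinuousLinearMap.inr ℝ (ℝ × E) C(I, E))).IsInvertible := by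
    rw [he]
    obtain ⟨u, hu⟩ := hunit
    rw [← hu]
    exact ⟨ContinuousLinearEquiv.unitsEquiv ℝ _ u, rfl⟩
  have key := cd.contDiffAt_implicitFunction hn' if₂
  have hev := cd.eventually_apply_implicitFunction hn' if₂
  have h0 : eqn fC (p, α) = 0 := by
    have := piece_eq h hL.continuous p
    unfold eqn
    rw [sub_sub, sub_eq_zero]
    exact this
  have hsmall : ∀ᶠ q : ℝ × E in 𝓝 p, |q.1| * L < 1 := by
    have : Continuous fun q : ℝ × E => |q.1| * L := by fun_prop
    exact (this.tendsto p).eventually (gt_mem_nhds hp)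
  have hpc : ∀ᶠ q : ℝ × E in 𝓝 p, piece h q = cd.implicitFunction hn' if₂ q := by
    filter_upwards [hev, hsmall] with q hq hq2
    symm
    refine piece_unique h hL q hq2 _ ?_
    rw [h0] at hq
    unfold eqn at hq
    rw [sub_sub, sub_eq_zero] at hq
    exact hq
  have h5 : ContDiffAt ℝ n (fun q => piece h q) p := key.congr_of_eventuallyEq hpc
  have h6 : Φ = fun q => (ContinuousMap.evalCLM ℝ (1 : I)) (piece h q) := by
    funext q
    simp [piece]
  rw [h6]
  exact (ContinuousMap.evalCLM ℝ (1 : I) : C(I, E) →L[ℝ] E).contDiff.contDiffAt.comp p h5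

lemma contDiff_flow {n : ℕ∞} (hn : 1 ≤ n) [CompleteSpace E] {f : E → E} {L : ℝ≥0}
    (hL : LipschitzWith L f) (hf : ContDiff ℝ n f) {Φ : ℝ × E → E} (h : FlowOf f Φ) :
    ContDiff ℝ n Φ := by
  have key : ∀ k : ℕ, ∀ p : ℝ × E, |p.1| * L < 2 ^ k → ContDiffAt ℝ n Φ p := by
    intro k
    induction k with
    | zero => intro p hp; exact contDiffAt_small hn hL hf h p (by simpa using hp)
    | succ k ih =>
      intro p hp
      have h1 : Φ = fun q => Φ (q.1 / 2, Φ (q.1 / 2, q.2)) := by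
        funext q
        have := h.add hL (q.1 / 2) (q.1 / 2) q.2
        rwa [add_halves] at this
      have h2 : ∀ y : E, |((p.1 / 2, y) : ℝ × E).1| * L < 2 ^ k := by
        intro y
        simp only
        rw [abs_div, abs_two]
        rw [pow_succ] at hp
        linarith
      rw [h1]
      have h3 : ContDiffAt ℝ n (fun q : ℝ × E => ((q.1 / 2, q.2) : ℝ × E)) p := by fun_prop
      have h4 : ContDiffAt ℝ n (fun q : ℝ × E => Φ (q.1 / 2, q.2)) p :=
        ContDiffAt.comp (g := Φ) p (ih (p.1 / 2, p.2) (h2 _)) h3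
      have h5 : ContDiffAt ℝ n (fun q : ℝ × E => ((q.1 / 2, Φ (q.1 / 2, q.2)) : ℝ × E)) p := by
        have : ContDiffAt ℝ n (fun q : ℝ × E => q.1 / 2) p := by fun_prop
        exact this.prodMk h4
      exact ContDiffAt.comp (g := Φ) p (ih (p.1 / 2, Φ (p.1 / 2, p.2)) (h2 _)) h5
  rw [contDiff_iff_contDiffAt]
  intro p
  obtain ⟨k, hk⟩ := pow_unbounded_of_one_lt (|p.1| * L) (one_lt_two : (1:ℝ) < 2)
  exact key k p hk

end Amb.ODEflow
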