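import Mathlib

open Set Filter Topology MeasureTheory
open scoped unitInterval ContDiff NNReal

namespace Amb.ODEflow

universe u
variable {K : Type*} [TopologicalSpace K] [CompactSpace K]
variable {E : Type u} [NormedAddCommGroup E] [NormedSpace ℝ E]
variable {F : Type u} [NormedAddCommGroup F] [NormedSpace ℝ F]

/-- pointwise application as a bilinear map. -/
noncomputable def mulLin : C(K, E →L[ℝ] F) →ₗ[ℝ] C(K, E) →ₗ[ℝ] C(K, F) :=
  LinearMap.mk₂ ℝ (fun A β => (⟨fun k => A k (β k), A.continuous.clm_apply β.continuous⟩ : C(K, F)))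
    (fun x y z => by ext k; simp) (fun c x z => by ext k; simp)
    (fun x y z => by ext k; simp) (fun c x z => by ext k; simp)

omit [CompactSpace K] in
lemma mulLin_apply (A : C(K, E →L[ℝ] F)) (β : C(K, E)) (k : K) :
    mulLin A β k = A k (β k) := rfl

lemma norm_mulLin_le (A : C(K, E →L[ℝ] F)) (β : C(K, E)) : ‖mulLin A β‖ ≤ ‖A‖ * ‖β‖ := by
  refine (ContinuousMap.norm_le _ (by positivity)).2 fun k => ?_
  exact ((A k).le_opNorm (β k)).trans
    (mul_le_mul (A.norm_coe_le_norm k) (β.norm_coe_le_norm k) (by positivity) (by positivity))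

/-- pointwise application `C(K, E →L F) × C(K, E) → C(K, F)` as a continuous bilinear map. -/
noncomputable def mulOp : C(K, E →L[ℝ] F) →L[ℝ] C(K, E) →L[ℝ] C(K, F) := by
  have key : ∀ (A : C(K, E →L[ℝ] F)) (β : C(K, E)), ‖mulLin A β‖ ≤ 1 * ‖A‖ * ‖β‖ := fun A β => by
    have := norm_mulLin_le A β
    rwa [one_mul]
  exact @LinearMap.mkContinuous₂ ℝ ℝ ℝ C(K, E →L[ℝ] F) C(K, E) C(K, F) _ _ _ _ _ _ _ _ _
    (RingHom.id ℝ) (RingHom.id ℝ) _ mulLin 1 key

@[simp] lemma mulOp_apply (A : C(K, E →L[ℝ] F)) (β : C(K, E)) (k : K) :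
    mulOp A β k = A k (β k) := rfl

lemma norm_mulOp_le (A : C(K, E →L[ℝ] F)) : ‖mulOp A‖ ≤ ‖A‖ :=
  ContinuousLinearMap.opNorm_le_bound _ (by positivity) fun β => norm_mulLin_le A β

lemma hasFDerivAt_nem (f : C(E, F)) (f' : C(E, E →L[ℝ] F)) (h : ∀ x, HasFDerivAt f (f' x) x)
    (α : C(K, E)) :
    HasFDerivAt (fun α : C(K, E) => f.comp α) (mulOp (f'.comp α)) α := by
  rw [hasFDerivAt_iff_isLittleO_nhds_zero, Asymptotics.isLittleO_iff]
  intro c hc
  have hcont : Continuous fun α : C(K, E) => f'.comp α := ContinuousMap.continuous_postcomp f'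
  have h1 : ∀ᶠ β : C(K, E) in 𝓝 0, ‖f'.comp (α + β) - f'.comp α‖ < c := by
    have h2' : Continuous fun β : C(K, E) => f'.comp (α + β) - f'.comp α :=
      (hcont.comp (continuous_const.add continuous_id)).sub continuous_const
    have h3 := h2'.tendsto 0
    simp only [add_zero, sub_self] at h3
    have h4 : Tendsto (fun β : C(K, E) => ‖f'.comp (α + β) - f'.comp α‖) (𝓝 0) (𝓝 0) :=
      (tendsto_zero_iff_norm_tendsto_zero (f := fun β : C(K, E) => f'.comp (α + β) - f'.comp α)).1 h3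
    exact h4.eventually (gt_mem_nhds hc)
  obtain ⟨δ, hδ, hδ'⟩ := Metric.eventually_nhds_iff_ball.1 h1
  filter_upwards [Metric.ball_mem_nhds (0 : C(K, E)) hδ] with β hβ
  refine (ContinuousMap.norm_le _ (by positivity)).2 fun k => ?_
  have hβn : ‖β‖ < δ := by simpa using hβ
  -- mean value inequality on the segment
  have hseg : ∀ x ∈ segment ℝ (α k) (α k + β k), ‖f' x - f' (α k)‖ ≤ c := by
    intro x hx
    rw [segment_eq_image'] at hx
    obtain ⟨s, hs, rfl⟩ := hx
    have hs' : s • β ∈ Metric.ball (0 : C(K, E)) δ := by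
      rw [mem_ball_zero_iff, norm_smul, Real.norm_eq_abs, abs_of_nonneg hs.1]
      calc s * ‖β‖ ≤ 1 * ‖β‖ := by gcongr; exact hs.2
        _ < δ := by simpa using hβn
    have h4 := (ContinuousMap.norm_coe_le_norm (f'.comp (α + s • β) - f'.comp α) k).trans
      (hδ' _ hs').le
    simpa using h4
  have := Convex.norm_image_sub_le_of_norm_hasFDerivWithin_le' (𝕜 := ℝ) (f := f)
    (f' := fun x => f' x) (φ := f' (α k)) (C := c) (s := segment ℝ (α k) (α k + β k))
    (x := α k) (y := α k + β k) (fun x _ => (h x).hasFDerivWithinAt) hseg (convex_segment _ _)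
    (left_mem_segment _ _ _) (right_mem_segment _ _ _)
  simp only [add_sub_cancel_left] at this
  refine le_trans ?_ (this.trans (mul_le_mul_of_nonneg_left (β.norm_coe_le_norm k) hc.le))
  simp

lemma contDiff_nem_nat (n : ℕ) : ∀ (F : Type u) [NormedAddCommGroup F] [NormedSpace ℝ F]
    (f : C(E, F)), ContDiff ℝ n f → ContDiff ℝ n (fun α : C(K, E) => f.comp α) := by
  induction n with
  | zero =>
    intro F _ _ f _
    exact contDiff_zero.2 (ContinuousMap.continuous_postcomp f)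
  | succ n ih =>
    intro F _ _ f hf
    have hf' : ContDiff ℝ ((n : WithTop ℕ∞) + 1) f := by exact_mod_cast hf
    rw [contDiff_succ_iff_fderiv] at hf'
    obtain ⟨hd, -, hc⟩ := hf'
    set f' : C(E, E →L[ℝ] F) := ⟨fderiv ℝ f, hc.continuous⟩ with hf'def
    have hder : ∀ α : C(K, E), HasFDerivAt (fun α : C(K, E) => f.comp α)
        (mulOp (f'.comp α)) α := fun α =>
      hasFDerivAt_nem f f' (fun x => (hd x).hasFDerivAt) α
    have goal : ContDiff ℝ ((n : WithTop ℕ∞) + 1) (fun α : C(K, E) => f.comp α) := by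
      rw [contDiff_succ_iff_fderiv]
      refine ⟨fun α => (hder α).differentiableAt, fun h => by simp at h, ?_⟩
      have : fderiv ℝ (fun α : C(K, E) => f.comp α) = fun α => mulOp (f'.comp α) :=
        funext fun α => (hder α).fderiv
      rw [this]
      exact mulOp.contDiff.comp (ih _ f' hc)
    exact_mod_cast goal

lemma contDiff_nem {n : ℕ∞} (f : C(E, F)) (hf : ContDiff ℝ n f) :
    ContDiff ℝ n (fun α : C(K, E) => f.comp α) := by
  refine contDiff_iff_forall_nat_le.2 fun m hm => ?_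
  exact contDiff_nem_nat m F f (hf.of_le (by exact_mod_cast hm))


/-! ## Global flow of a bounded Lipschitz field -/

section Flow

variable [CompleteSpace E]

lemma exists_sol {f : E → E} {L : ℝ≥0} (hf : LipschitzWith L f) {C : ℝ≥0} (hC : ∀ x, ‖f x‖ ≤ C)
    (T : ℝ≥0) (x : E) :
    ∃ γ : ℝ → E, γ 0 = x ∧ ∀ t ∈ Ioo (-(T : ℝ)) T, HasDerivAt γ (f (γ t)) t := by
  have h0 : (0 : ℝ) ∈ Icc (-(T : ℝ)) T := ⟨by simp, T.2⟩
  have hpl : IsPicardLindelof (fun _ : ℝ => f) (⟨0, h0⟩ : Icc (-(T : ℝ)) T) x (C * T) 0 C L :=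
    { lipschitzOnWith := fun t _ => hf.lipschitzOnWith
      continuousOn := fun y _ => continuousOn_const
      norm_le := fun t _ y _ => hC y
      mul_max_le := by simp }
  obtain ⟨γ, h1, h2⟩ := hpl.exists_eq_forall_mem_Icc_hasDerivWithinAt₀
  exact ⟨γ, h1, fun t ht => (h2 t (Ioo_subset_Icc_self ht)).hasDerivAt (Icc_mem_nhds ht.1 ht.2)⟩

lemma exists_global {f : E → E} {L : ℝ≥0} (hf : LipschitzWith L f) {C : ℝ≥0}
    (hC : ∀ x, ‖f x‖ ≤ C) (x : E) :
    ∃ γ : ℝ → E, γ 0 = x ∧ ∀ t, HasDerivAt γ (f (γ t)) t := by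
  choose γ h0 hγ using fun T : ℝ≥0 => exists_sol hf hC T x
  have huniq : ∀ S T : ℝ≥0, S ≤ T → EqOn (γ S) (γ T) (Ioo (-(S : ℝ)) S) := by
    intro S T hST t ht
    have hS : (0 : ℝ) < S := by
      by_contra h
      have h1 := ht.1.trans ht.2
      linarith [S.2]
    have hST' : (S : ℝ) ≤ T := by exact_mod_cast hST
    exact ODE_solution_unique_of_mem_Ioo (v := fun _ => f) (s := fun _ => univ) (K := L) (t₀ := 0)
      (fun t _ => hf.lipschitzOnWith) ⟨by linarith, hS⟩
      (fun t ht => ⟨hγ S t ht, mem_univ _⟩)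
      (fun t ht => ⟨hγ T t ⟨by linarith [ht.1], by linarith [ht.2]⟩, mem_univ _⟩)
      (by rw [h0, h0]) ht
  refine ⟨fun t => γ (‖t‖₊ + 1) t, h0 _, fun t => ?_⟩
  have hmem : ∀ s : ℝ, s ∈ Ioo (-((‖s‖₊ + 1 : ℝ≥0) : ℝ)) ((‖s‖₊ + 1 : ℝ≥0) : ℝ) := by
    intro s
    have h := abs_le.1 (le_refl |s|)
    simp only [NNReal.coe_add, coe_nnnorm, NNReal.coe_one, Real.norm_eq_abs, mem_Ioo]
    constructor <;> linarith [h.1, h.2]
  have key : ∀ᶠ s in 𝓝 t, γ (‖s‖₊ + 1) s = γ (‖t‖₊ + 2) s := by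
    have h1 : ∀ᶠ s in 𝓝 t, ‖s‖₊ < ‖t‖₊ + 1 := by
      have : Continuous fun s : ℝ => ‖s‖₊ := continuous_nnnorm
      exact (this.tendsto t).eventually (gt_mem_nhds (by simp))
    filter_upwards [h1] with s hs
    refine huniq _ _ ?_ (hmem s)
    calc ‖s‖₊ + 1 ≤ (‖t‖₊ + 1) + 1 := by gcongr
      _ = ‖t‖₊ + 2 := by ring
  have hd : HasDerivAt (γ (‖t‖₊ + 2)) (f (γ (‖t‖₊ + 2) t)) t := by
    refine hγ _ t ?_
    have h := abs_le.1 (le_refl |t|)
    simp only [NNReal.coe_add, coe_nnnorm, NNReal.coe_ofNat, Real.norm_eq_abs, mem_Ioo]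
    constructor <;> linarith [h.1, h.2]
  have h2 := hd.congr_of_eventuallyEq key
  rw [← key.self_of_nhds] at h2
  exact h2

/-- the data of a complete flow of a Lipschitz field. -/
structure FlowOf (f : E → E) (Φ : ℝ × E → E) : Prop where
  zero : ∀ x, Φ (0, x) = x
  deriv : ∀ t x, HasDerivAt (fun s => Φ (s, x)) (f (Φ (t, x))) t

lemma exists_flowOf {f : E → E} {L : ℝ≥0} (hf : LipschitzWith L f) {C : ℝ≥0}
    (hC : ∀ x, ‖f x‖ ≤ C) : ∃ Φ : ℝ × E → E, FlowOf f Φ := by
  choose γ h0 hγ using fun x : E => exists_global hf hC x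
  exact ⟨fun p => γ p.2 p.1, ⟨fun x => h0 x, fun t x => hγ x t⟩⟩

omit [CompleteSpace E] in
lemma FlowOf.unique {f : E → E} {Φ : ℝ × E → E} (h : FlowOf f Φ) {L : ℝ≥0}
    (hf : LipschitzWith L f) {γ : ℝ → E} (hγ : ∀ t, HasDerivAt γ (f (γ t)) t) (t : ℝ) :
    γ t = Φ (t, γ 0) := by
  have := ODE_solution_unique_univ (v := fun _ => f) (s := fun _ => univ) (K := L) (t₀ := 0)
    (f := γ) (g := fun s => Φ (s, γ 0)) (fun t => hf.lipschitzOnWith)
    (fun t => ⟨hγ t, mem_univ _⟩) (fun t => ⟨h.deriv t _, mem_univ _⟩) (by rw [h.zero])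
  exact congrFun this t

omit [CompleteSpace E] in
lemma FlowOf.add {f : E → E} {Φ : ℝ × E → E} (h : FlowOf f Φ) {L : ℝ≥0}
    (hf : LipschitzWith L f) (s t : ℝ) (x : E) : Φ (s + t, x) = Φ (s, Φ (t, x)) := by
  have h1 : ∀ s, HasDerivAt (fun s => Φ (s + t, x)) (f (Φ (s + t, x))) s := by
    intro s
    have := (h.deriv (s + t) x).scomp s ((hasDerivAt_id s).add_const t)
    simpa [Function.comp_def] using this
  have := h.unique hf h1 s
  simpa using this

/-- integration from `0` on `C([0,1], E)`. -/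
noncomputable def integ : C(I, E) →L[ℝ] C(I, E) := by
  have hcont : ∀ β : C(I, E), Continuous fun s : ℝ => β (projIcc 0 1 zero_le_one s) := fun β =>
    β.continuous.comp continuous_projIcc
  let g : C(I, E) →ₗ[ℝ] C(I, E) :=
    { toFun := fun β => ⟨fun τ : I => ∫ s in (0:ℝ)..τ, β (projIcc 0 1 zero_le_one s),
        (intervalIntegral.continuous_primitive (fun a b => (hcont β).intervalIntegrable a b) 0).comp
          continuous_subtype_val⟩
      map_add' := fun x y => by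
        ext τ
        simp only [ContinuousMap.coe_mk, ContinuousMap.add_apply]
        exact intervalIntegral.integral_add ((hcont x).intervalIntegrable _ _)
          ((hcont y).intervalIntegrable _ _)
      map_smul' := fun c x => by
        ext τ
        simp only [ContinuousMap.coe_mk, ContinuousMap.smul_apply, RingHom.id_apply]
        exact intervalIntegral.integral_smul c _ }
  refine @LinearMap.mkContinuous ℝ ℝ C(I, E) C(I, E) _ _ _ _ _ _ (RingHom.id ℝ) g 1 fun β => ?_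
  refine (ContinuousMap.norm_le _ (by positivity)).2 fun τ => ?_
  rw [one_mul]
  have h1 : ‖∫ s in (0:ℝ)..τ, β (projIcc 0 1 zero_le_one s)‖ ≤ ‖β‖ * |(τ : ℝ) - 0| :=
    intervalIntegral.norm_integral_le_of_norm_le_const fun s _ => β.norm_coe_le_norm _
  refine h1.trans ?_
  rw [sub_zero, abs_of_nonneg τ.2.1]
  exact mul_le_of_le_one_right (by positivity) τ.2.2

omit [CompleteSpace E] in
lemma integ_apply (β : C(I, E)) (τ : I) :
    integ β τ = ∫ s in (0:ℝ)..τ, β (projIcc 0 1 zero_le_one s) := rfl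

omit [CompleteSpace E] in
lemma norm_integ_apply_le (β : C(I, E)) : ‖integ β‖ ≤ ‖β‖ := by
  refine (ContinuousMap.norm_le _ (by positivity)).2 fun τ => ?_
  rw [integ_apply]
  have h1 : ‖∫ s in (0:ℝ)..τ, β (projIcc 0 1 zero_le_one s)‖ ≤ ‖β‖ * |(τ : ℝ) - 0| :=
    intervalIntegral.norm_integral_le_of_norm_le_const fun s _ => β.norm_coe_le_norm _
  refine h1.trans ?_
  rw [sub_zero, abs_of_nonneg τ.2.1]
  exact mul_le_of_le_one_right (by positivity) τ.2.2

end Flow

end Amb.ODEflow
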