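import Pool.Agent.Ambrose.AbsFinal
import Pool.Agent.Ambrose.AbsMargin

/-!
# Abstract rolling systems

`M` is the base (the first manifold), `P` the set of configurations, `π : P → M` the projection,
`step A b` the end of the lift from `A` of the short segment from `π A` to `b`, `D` the curvature
mismatch, `N` a size function on `P`.
-/

set_option maxSynthPendingDepth 3

namespace Amb

open Set

/-- A rolling system. All geometric facts are required only in a ball around the base point. -/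
structure Roll (M P : Type*) [MetricSpace M] where
  /-- projection -/
  π : P → M
  /-- short lift -/
  step : P → M → P
  /-- mismatch -/
  D : P → ℝ
  /-- size -/
  N : P → ℝ
  /-- base configuration -/
  A0 : P
  /-- short segments -/
  seg : M → M → ℝ → M
  /-- size up to which everything is controlled -/
  S : ℝ
  /-- scale -/
  ρ : ℝ
  /-- constant -/
  C : ℝ
  ρ_pos : 0 < ρ
  ρ_le : ρ ≤ 1
  S_ge : 1 ≤ S
  C_nonneg : 0 ≤ C
  D_nonneg : ∀ A, 0 ≤ D A
  D_bdd : ∃ B, ∀ A, N A ≤ S → D A ≤ B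
  N_A0 : N A0 = 0
  N_pi : ∀ A, dist (π A0) (π A) ≤ N A
  -- segments: valid for points in the ball of radius `S + 2` around the base point
  seg_zero : ∀ x y, dist (π A0) x ≤ S + 2 → dist x y < ρ → seg x y 0 = x
  seg_one : ∀ x y, dist (π A0) x ≤ S + 2 → dist x y < ρ → seg x y 1 = y
  seg_dist : ∀ x y, dist (π A0) x ≤ S + 2 → dist x y < ρ → ∀ s ∈ Icc (0 : ℝ) 1,
    ∀ t ∈ Icc (0 : ℝ) 1, dist (seg x y s) (seg x y t) = |s - t| * dist x y
  seg_unique : ∀ x y, dist (π A0) x ≤ S + 2 → dist x y < ρ → ∀ s ∈ Icc (0 : ℝ) 1, ∀ z,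
    dist x z = s * dist x y → dist z y = (1 - s) * dist x y → z = seg x y s
  conv : ∀ a b c, dist (π A0) a ≤ S + 2 → dist (π A0) b ≤ S + 2 → dist a b < ρ → dist a c < ρ →
    dist b c < ρ → ∀ s ∈ Icc (0 : ℝ) 1, dist a (seg b c s) ≤ max (dist a b) (dist a c)
  ext : ∀ x y z u v, dist (π A0) y ≤ S + 1 → dist x y + dist y z < ρ →
    dist x u + dist u y = dist x y → dist y v + dist v z = dist y z → u ≠ y → v ≠ y →
    dist u v = dist u y + dist y v → dist x z = dist x y + dist y z
  -- steps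
  π_step : ∀ A b, N A ≤ S + 1 → dist (π A) b < ρ → π (step A b) = b
  N_step : ∀ A b, N A ≤ S + 1 → dist (π A) b < ρ → N (step A b) ≤ N A + dist (π A) b
  step_self : ∀ A, N A ≤ S + 1 → step A (π A) = A
  step_mid : ∀ A b, N A ≤ S + 1 → dist (π A) b < ρ → ∀ s ∈ Icc (0 : ℝ) 1,
    step (step A (seg (π A) b s)) b = step A b
  step_rev : ∀ A b, N A ≤ S + 1 → dist (π A) b < ρ → step (step A b) (π A) = A
  -- triangle estimate
  tri : ∀ A m w t δ, N A ≤ S → t < ρ → dist (π A) m ≤ t → dist (π A) w ≤ t → dist m w ≤ t →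
    (∀ s ∈ Icc (0 : ℝ) 1, ∀ u ∈ Icc (0 : ℝ) 1, D (step A (seg (π A) (seg m w s) u)) ≤ δ) →
    |D (step (step A m) w) - D (step A w)| ≤ C * t * δ
  tri0 : ∀ A m w, N A ≤ S → dist (π A) m < ρ → dist (π A) w < ρ → dist m w < ρ →
    (∀ s ∈ Icc (0 : ℝ) 1, ∀ u ∈ Icc (0 : ℝ) 1, D (step A (seg (π A) (seg m w s) u)) = 0) →
    step (step A m) w = step A w
  -- rays: discrete geodesics starting at the base point
  ray : ∀ (k : ℕ) (c : ℕ → M), c 0 = π A0 → (∀ i < k, dist (c i) (c (i + 1)) < ρ / 2) →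
    (∑ i ∈ Finset.range k, dist (c i) (c (i + 1)) ≤ S) →
    (∀ i, i + 1 < k → dist (c i) (c (i + 1)) = dist (c i) (c (i + 2)) / 2 ∧
      dist (c (i + 1)) (c (i + 2)) = dist (c i) (c (i + 2)) / 2) →
    D (((List.range k).map fun i => c (i + 1)).foldl step A0) = 0

namespace Roll

variable {M P : Type*} [MetricSpace M] (G : Roll M P)

/-- holonomy along a list of points -/
def hol (A : P) (l : List M) : P := l.foldl G.step A

/-- length of the broken path `x, l` -/
def len : M → List M → ℝ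
  | _, [] => 0
  | x, y :: l => dist x y + len y l

/-- all steps of the broken path `x, l` are shorter than `ρ` -/
def mesh : M → List M → Prop
  | _, [] => True
  | x, y :: l => dist x y < G.ρ ∧ mesh y l

open Pool.Ambrose in
/-- translation of the data -/
def toData : RollData M P where
  pr := G.π
  mv := G.step
  D := G.D
  sz := G.N
  p := G.π G.A0
  A0 := G.A0

theorem dist_seg_left {x y : M} (hx : dist (G.π G.A0) x ≤ G.S + 2) (hxy : dist x y < G.ρ)
    {t : ℝ} (ht : t ∈ Icc (0 : ℝ) 1) : dist x (G.seg x y t) = t * dist x y := by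
  have h := G.seg_dist x y hx hxy 0 ⟨le_rfl, zero_le_one⟩ t ht
  rw [G.seg_zero x y hx hxy] at h
  rw [h, zero_sub, abs_neg, abs_of_nonneg ht.1]

theorem dist_seg_right {x y : M} (hx : dist (G.π G.A0) x ≤ G.S + 2) (hxy : dist x y < G.ρ)
    {t : ℝ} (ht : t ∈ Icc (0 : ℝ) 1) : dist (G.seg x y t) y = (1 - t) * dist x y := by
  have h := G.seg_dist x y hx hxy t ht 1 ⟨zero_le_one, le_rfl⟩
  rw [G.seg_one x y hx hxy] at h
  rw [h, abs_sub_comm, abs_of_nonneg (by linarith [ht.2])]

open Pool.Ambrose in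
theorem eq_seg_of_btw {x y z : M} (hx : dist (G.π G.A0) x ≤ G.S + 2) (hxy : dist x y < G.ρ)
    (h : Pool.Ambrose.Btw x z y) : ∃ s ∈ Icc (0 : ℝ) 1, z = G.seg x y s := by
  obtain ⟨t, h0, h1, ht⟩ := h.atSeg
  exact ⟨t, ⟨h0, h1⟩, G.seg_unique x y hx hxy t ⟨h0, h1⟩ z ht.1 ht.2⟩

open Pool.Ambrose in
theorem btw_seg {x y : M} (hx : dist (G.π G.A0) x ≤ G.S + 2) (hxy : dist x y < G.ρ)
    {t : ℝ} (ht : t ∈ Icc (0 : ℝ) 1) : Pool.Ambrose.Btw x (G.seg x y t) y := by
  unfold Pool.Ambrose.Btw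
  rw [G.dist_seg_left hx hxy ht, G.dist_seg_right hx hxy ht]
  ring

open Pool.Ambrose in
theorem toAx : RollAx G.toData G.S G.ρ G.C where
  rho_pos := G.ρ_pos
  rho_le_one := G.ρ_le
  C_nonneg := G.C_nonneg
  pr_A0 := rfl
  sz_A0 := G.N_A0
  dist_le_sz := G.N_pi
  exists_atSeg := by
    intro x y hx hy hxy t h0 h1
    have hx' : dist (G.π G.A0) x ≤ G.S + 2 := le_trans hx (by linarith)
    exact ⟨G.seg x y t, G.dist_seg_left hx' hxy ⟨h0, h1⟩, G.dist_seg_right hx' hxy ⟨h0, h1⟩⟩
  unique := by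
    intro x y z z' hx hy hxy hz hz' hd
    have hx' : dist (G.π G.A0) x ≤ G.S + 2 := le_trans hx (by linarith)
    obtain ⟨s, hs, hzs⟩ := G.eq_seg_of_btw hx' hxy hz
    have hzd : dist x z = s * dist x y := by rw [hzs]; exact G.dist_seg_left hx' hxy hs
    unfold Pool.Ambrose.Btw at hz hz'
    rw [hzs]
    exact (G.seg_unique x y hx' hxy s hs z' (by rw [← hd, hzd]) (by linarith)).symm
  conv := by
    intro a b c z ha hb hc hab hac hbc hz
    have hb' : dist (G.π G.A0) b ≤ G.S + 2 := le_trans hb (by linarith)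
    obtain ⟨s, hs, hzs⟩ := G.eq_seg_of_btw hb' hbc hz
    rw [hzs]
    exact G.conv a b c (le_trans ha (by linarith)) hb' hab hac hbc s hs
  ext := by
    intro x y z u v hx hy hz hsum hu hv huy hvy huv
    have h1 : dist u v = dist u y + dist y v := Eq.symm huv
    exact Eq.symm (G.ext x y z u v (le_trans hy (by linarith)) hsum hu hv huy hvy h1)
  pr_mv := fun A b hA _ hb => G.π_step A b (le_trans hA (by linarith)) hb
  sz_mv := fun A b hA _ hb => G.N_step A b (le_trans hA (by linarith)) hb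
  mv_self := fun A hA => G.step_self A (le_trans hA (by linarith))
  mv_mv := by
    intro A x b hA hpb hb hx
    have hA' : dist (G.π G.A0) (G.π A) ≤ G.S + 2 := (G.N_pi A).trans (le_trans hA (by linarith))
    obtain ⟨s, hs, hzs⟩ := G.eq_seg_of_btw hA' hb hx
    rw [hzs]
    exact G.step_mid A b (le_trans hA (by linarith)) hb s hs
  mv_rev := fun A b hA _ hb => G.step_rev A b (le_trans hA (by linarith)) hb
  tri := by
    intro A m w t δ hA hm hw ht h1 h2 h3 hδ hD
    have hρ := G.ρ_pos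
    have hA' : dist (G.π G.A0) (G.π A) ≤ G.S + 2 := (G.N_pi A).trans (le_trans hA (by linarith))
    have hm' : dist (G.π G.A0) m ≤ G.S + 2 := le_trans hm (by linarith)
    refine G.tri A m w t δ hA ht h1 h2 h3 ?_
    intro s hs u hu
    have hmw : dist m w < G.ρ := lt_of_le_of_lt h3 ht
    have hy : dist (G.π A) (G.seg m w s) < G.ρ := by
      refine lt_of_le_of_lt (G.conv (G.π A) m w hA' hm' (lt_of_le_of_lt h1 ht)
        (lt_of_le_of_lt h2 ht) hmw s hs) (max_lt (lt_of_le_of_lt h1 ht) (lt_of_le_of_lt h2 ht))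
    exact hD _ _ (G.btw_seg hm' hmw hs) (G.btw_seg hA' hy hu)
  tri0 := by
    intro A m w hA hm hw h1 h2 h3 hD
    have hρ := G.ρ_pos
    have hA' : dist (G.π G.A0) (G.π A) ≤ G.S + 2 := (G.N_pi A).trans (le_trans hA (by linarith))
    have hm' : dist (G.π G.A0) m ≤ G.S + 2 := le_trans hm (by linarith)
    refine G.tri0 A m w hA h1 h2 h3 ?_
    intro s hs u hu
    have hy : dist (G.π A) (G.seg m w s) < G.ρ :=
      lt_of_le_of_lt (G.conv (G.π A) m w hA' hm' h1 h2 h3 s hs) (max_lt h1 h2)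
    exact hD _ _ (G.btw_seg hm' h3 hs) (G.btw_seg hA' hy hu)
  D_nonneg := G.D_nonneg
  D_bdd := G.D_bdd

open Pool.Ambrose in
theorem hol_toData (c : ℕ → M) (k : ℕ) :
    G.toData.hol c k = ((List.range k).map fun i => c (i + 1)).foldl G.step G.A0 := by
  induction k with
  | zero => rfl
  | succ k ih =>
    rw [List.range_succ, List.map_append, List.foldl_append, ← ih]
    rfl

open Pool.Ambrose in
theorem toRays : G.toData.Rays G.S G.ρ := by
  intro c N l h0 hl hNl hc1 hc2
  rw [G.hol_toData c N]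
  refine G.ray N c h0 (fun i hi => by rw [hc1 i hi]; exact hl) ?_ ?_
  · rw [Finset.sum_congr rfl (fun i hi => hc1 i (Finset.mem_range.1 hi))]
    simpa using hNl
  · intro i hi
    rw [hc1 i (by omega), hc1 (i + 1) hi, hc2 i (by omega)]
    constructor <;> ring

open Pool.Ambrose in
theorem marginStmt [ProperSpace M] : MarginStmt G.toData G.S G.ρ := by
  intro N r R η τ hN hr hrR hRS hN' hη hη' hZ hτ hτ1
  exact margin G.toAx hN hr hrR hRS hN' hη hη' hZ hτ hτ1

open Pool.Ambrose in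
theorem reach_hol (l : List M) : ∀ (A : P) (ℓ : ℝ), G.toData.Reach G.ρ ℓ A →
    G.mesh (G.π A) l → ℓ + len (G.π A) l ≤ G.S →
    G.toData.Reach G.ρ (ℓ + len (G.π A) l) (G.hol A l) := by
  induction l with
  | nil =>
    intro A ℓ hA _ _
    simpa [len, hol] using hA
  | cons b l ih =>
    intro A ℓ hA hm hl
    obtain ⟨hb, hm⟩ := hm
    have hlen : ∀ (x : M) (l : List M), 0 ≤ len x l := by
      intro x l
      induction l generalizing x with
      | nil => exact le_rfl
      | cons y l ih => exact add_nonneg dist_nonneg (ih y)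
    have hlb := hlen b l
    have hd := dist_nonneg (x := G.π A) (y := b)
    have hl' : ℓ + (dist (G.π A) b + len b l) ≤ G.S := hl
    have hsz : G.N A ≤ ℓ := hA.sz_le G.toAx (by linarith)
    have hπ : G.π (G.step A b) = b := G.π_step A b (by linarith) hb
    have h1 : G.toData.Reach G.ρ (ℓ + dist (G.π A) b) (G.step A b) :=
      RollData.Reach.step hA hb le_rfl
    have h2 := ih (G.step A b) (ℓ + dist (G.π A) b) h1 (by rw [hπ]; exact hm)
      (by rw [hπ]; linarith)
    rw [hπ] at h2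
    show G.toData.Reach G.ρ (ℓ + (dist (G.π A) b + len b l)) (G.hol (G.step A b) l)
    rwa [← add_assoc]

open Pool.Ambrose in
/-- **Theorem A (abstract form).** -/
theorem main [ProperSpace M] (l : List M) (hm : G.mesh (G.π G.A0) l)
    (hl : len (G.π G.A0) l ≤ G.S - 3) : G.D (G.hol G.A0 l) = 0 := by
  have hZ := theoremA_of_margin G.toAx G.toRays G.marginStmt (r := G.S - 11 / 5) (by linarith)
  have hr := G.reach_hol l G.A0 0 (RollData.Reach.base le_rfl) hm (by linarith)
  rw [zero_add] at hr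
  exact hZ _ _ (by linarith) hr

end Roll

end Amb
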